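import Pool.Agent.Icy.Defs

/-!
# The abstract core (AC): value functions of a ghost vertex

`p n s z` = probability of the step `z` from the state `s` with `n` steps to go.  A ghost `y` is
REVEALED by the step `z` if `y ~ z`.  `g n s y` = the reveal is good (`s` = state after the step).
-/

set_option autoImplicit false

open Finset
open scoped Classical

namespace Pool.Agent.Icy

variable {V : Type} (G : SimpleGraph V) (x : V → ℝ)

/-- weight of the neighbours of `y` in `N(s)` -/
noncomputable def nu (y : V) (s : St V) : ℝ := wt x (nbin G (sN G s) y)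

/-- weight of the neighbours of `y` in `up s` ; equal to `wt x (sN G (step G s y))` -/
noncomputable def nn (y : V) (s : St V) : ℝ := wt x (nbin G (up G s) y)

/-- sub-probability kernel -/
structure Ker (p : ℕ → St V → V → ℝ) : Prop where
  nonneg : ∀ n s z, 0 ≤ p n s z
  sum_le : ∀ n s, ∑ z ∈ sA G s, p n s z ≤ 1

section
variable (p : ℕ → St V → V → ℝ) (g : ℕ → St V → V → Prop) (y : V)

/-- probability of a good reveal of `y` within `n` steps -/
noncomputable def RR : ℕ → St V → ℝ
  | 0, _ => 0
  | (n + 1), s => ∑ z ∈ sA G s, p (n + 1) s z *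
      (if G.Adj y z then (if g n (step G s z) y then 1 else 0) else RR n (step G s z))

/-- expectation of `nu` at the good reveal of `y` -/
noncomputable def KK : ℕ → St V → ℝ
  | 0, _ => 0
  | (n + 1), s => ∑ z ∈ sA G s, p (n + 1) s z *
      (if G.Adj y z then (if g n (step G s z) y then nu G x y (step G s z) else 0)
        else KK n (step G s z))

/-- the part of `KK (n + 1) s` with `y` not revealed by the first step -/
noncomputable def KM (n : ℕ) (s : St V) : ℝ :=
  ∑ z ∈ sA G s, p (n + 1) s z * (if G.Adj y z then 0 else KK G x p g y n (step G s z))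

/-- error functional -/
noncomputable def CC : ℕ → St V → ℝ
  | 0, _ => 0
  | (n + 1), s => |nu G x y s - ∑ z ∈ sA G s, (if G.Adj y z then p (n + 1) s z else 0)| +
      ∑ z ∈ sA G s, p (n + 1) s z * (if G.Adj y z then 0 else CC n (step G s z))

/-- probability of a reveal within `n` steps -/
noncomputable def HH : ℕ → St V → ℝ
  | 0, _ => 0
  | (n + 1), s => ∑ z ∈ sA G s, p (n + 1) s z * (if G.Adj y z then 1 else HH n (step G s z))

/-- expectation of the sum of `nu` over the unrevealed states -/
noncomputable def NF : ℕ → St V → ℝ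
  | 0, _ => 0
  | (n + 1), s => nu G x y s +
      ∑ z ∈ sA G s, p (n + 1) s z * (if G.Adj y z then 0 else NF n (step G s z))

/-- expectation of `nu` at the state just before the good reveal -/
noncomputable def LF : ℕ → St V → ℝ
  | 0, _ => 0
  | (n + 1), s => ∑ z ∈ sA G s, p (n + 1) s z *
      (if G.Adj y z then (if g n (step G s z) y then nu G x y s else 0) else LF n (step G s z))

/-- expectation of the sum of `nu` over the states at least two steps before the good reveal -/
noncomputable def TF : ℕ → St V → ℝ
  | 0, _ => 0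
  | (n + 1), s => ∑ z ∈ sA G s, p (n + 1) s z *
      (if G.Adj y z then 0 else nu G x y s * RR G p g y n (step G s z) + TF n (step G s z))

/-- the part of `TF (n + 2)` after the first step -/
noncomputable def TM (n : ℕ) (s : St V) : ℝ :=
  ∑ z ∈ sA G s, p (n + 1) s z * (if G.Adj y z then 0 else TF G x p g y n (step G s z))

/-- `pi = 2 (1 - RR) + CC` -/
noncomputable def PI (n : ℕ) (s : St V) : ℝ := 2 * (1 - RR G p g y n s) + CC G x p y n s

end

/-- pair functional: `Q` unrevealed part, `R1` revealed at least two steps ago, `R0` revealed at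
the last step -/
noncomputable def JJ (p : ℕ → St V → V → ℝ) :
    ℕ → St V → Finset V → Finset V → Finset V → ℝ
  | 0, _, _, _, _ => 0
  | (n + 1), s, Q, R1, R0 => ∑ z ∈ sA G s, p (n + 1) s z *
      (wt x (nbin G Q z) * wt x R1 + 3 / 2 * wt x (nbin G Q z) ^ 2 +
        JJ p n (step G s z) (nnin G Q z) (R1 ∪ R0) (nbin G Q z))

/-- expected unrevealed mass (at the horizon or when killed) -/
noncomputable def UU (p : ℕ → St V → V → ℝ) : ℕ → St V → Finset V → ℝ
  | 0, _, Q => wt x Q
  | (n + 1), s, Q => (1 - ∑ z ∈ sA G s, p (n + 1) s z) * wt x Q +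
      ∑ z ∈ sA G s, p (n + 1) s z * UU p n (step G s z) (nnin G Q z)

end Pool.Agent.Icy
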