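import Pool.Agent.Icy.AcDefs

/-!
# AC, part 6: lower bound for the pair functional

`Ψ(α, β, q) = α q + β q + q²/2 - β²/2`.  With `a = wt (nbin Q z)`, `q = wt Q`, `α = wt R1`,
`β = wt R0` : `a α + 3/2 a² + Ψ(α+β, a, q-a) - Ψ(α, β, q) = (a - β)²/2 ≥ 0`.
Induction on `n`: `JJ_n ≥ Ψ - 2 UU_n`, if `R1, R0, Q` are pairwise disjoint with total weight `≤ 2`
(so `Ψ ≤ 2 q`).  `n = 0`: `0 ≥ Ψ - 2q`.  Step: `JJ_{n+1} ≥ ∑ p (Ψ(α,β,q) - 2 UU_n)
= Ψ - (1-∑p) Ψ - 2 ∑ p UU_n ≥ Ψ - 2 UU_{n+1}`.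
-/

set_option autoImplicit false

open Finset
open scoped Classical

namespace Pool.Agent.Icy

variable {V : Type} {G : SimpleGraph V} {x : V → ℝ} {p : ℕ → St V → V → ℝ}

theorem AcJ_wt_nonneg (hx : ∀ v, 0 ≤ x v) (S : Finset V) : 0 ≤ wt x S :=
  Finset.sum_nonneg fun v _ => hx v

theorem AcJ_split (Q : Finset V) (z : V) : wt x Q = wt x (nbin G Q z) + wt x (nnin G Q z) := by
  unfold wt nbin nnin
  exact (Finset.sum_filter_add_sum_filter_not Q (fun u => G.Adj z u) x).symm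

theorem JJ_ge (hx : ∀ v, 0 ≤ x v) (hK : Ker G p) (n : ℕ) (s : St V) (Q R1 R0 : Finset V)
    (h1 : Disjoint Q R1) (h2 : Disjoint Q R0) (h3 : Disjoint R1 R0)
    (hw : wt x Q + wt x R1 + wt x R0 ≤ 2) :
    wt x R1 * wt x Q + wt x R0 * wt x Q + wt x Q ^ 2 / 2 - wt x R0 ^ 2 / 2 - 2 * UU G x p n s Q ≤
      JJ G x p n s Q R1 R0 := by
  induction n generalizing s Q R1 R0 with
  | zero =>
    have q0 := AcJ_wt_nonneg hx Q
    have r1 := AcJ_wt_nonneg hx R1
    have r0 := AcJ_wt_nonneg hx R0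
    simp only [UU, JJ]
    nlinarith [mul_le_mul_of_nonneg_left hw q0, sq_nonneg (wt x R0), sq_nonneg (wt x Q)]
  | succ n ih =>
    have q0 := AcJ_wt_nonneg hx Q
    have r1 := AcJ_wt_nonneg hx R1
    have r0 := AcJ_wt_nonneg hx R0
    have hΨ : wt x R1 * wt x Q + wt x R0 * wt x Q + wt x Q ^ 2 / 2 - wt x R0 ^ 2 / 2 - 2 * wt x Q
        ≤ 0 := by
      nlinarith [mul_le_mul_of_nonneg_left hw q0, sq_nonneg (wt x R0), sq_nonneg (wt x Q)]
    have hp := hK.sum_le (n + 1) s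
    have h4 : (1 - ∑ z ∈ sA G s, p (n + 1) s z) * (wt x R1 * wt x Q + wt x R0 * wt x Q +
        wt x Q ^ 2 / 2 - wt x R0 ^ 2 / 2 - 2 * wt x Q) ≤ 0 :=
      mul_nonpos_of_nonneg_of_nonpos (by linarith) hΨ
    have key : (∑ z ∈ sA G s, p (n + 1) s z) * (wt x R1 * wt x Q + wt x R0 * wt x Q +
        wt x Q ^ 2 / 2 - wt x R0 ^ 2 / 2) -
        2 * ∑ z ∈ sA G s, p (n + 1) s z * UU G x p n (step G s z) (nnin G Q z) ≤
        JJ G x p (n + 1) s Q R1 R0 := by
      rw [JJ, Finset.sum_mul, Finset.mul_sum, ← Finset.sum_sub_distrib]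
      apply Finset.sum_le_sum
      intro z hz
      have h0 := hK.nonneg (n + 1) s z
      have hsub1 : nnin G Q z ⊆ Q := Finset.filter_subset _ _
      have hsub2 : nbin G Q z ⊆ Q := Finset.filter_subset _ _
      have d1 : Disjoint (nnin G Q z) (R1 ∪ R0) := by
        rw [Finset.disjoint_union_right]
        exact ⟨Finset.disjoint_of_subset_left hsub1 h1, Finset.disjoint_of_subset_left hsub1 h2⟩
      have d2 : Disjoint (nnin G Q z) (nbin G Q z) := by
        unfold nnin nbin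
        exact (Finset.disjoint_filter_filter_not Q Q (fun u => G.Adj z u)).symm
      have d3 : Disjoint (R1 ∪ R0) (nbin G Q z) := by
        rw [Finset.disjoint_union_left]
        exact ⟨(Finset.disjoint_of_subset_left hsub2 h1).symm,
          (Finset.disjoint_of_subset_left hsub2 h2).symm⟩
      have hU : wt x (R1 ∪ R0) = wt x R1 + wt x R0 := Finset.sum_union h3
      have hQ := AcJ_split (G := G) (x := x) Q z
      have hi := ih (step G s z) (nnin G Q z) (R1 ∪ R0) (nbin G Q z) d1 d2 d3 (by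
        rw [hU]; linarith)
      rw [hU] at hi
      have e : wt x (nnin G Q z) = wt x Q - wt x (nbin G Q z) := by linarith
      rw [e] at hi
      have h5 : wt x R1 * wt x Q + wt x R0 * wt x Q + wt x Q ^ 2 / 2 - wt x R0 ^ 2 / 2 -
          2 * UU G x p n (step G s z) (nnin G Q z) ≤
          wt x (nbin G Q z) * wt x R1 + 3 / 2 * wt x (nbin G Q z) ^ 2 +
            JJ G x p n (step G s z) (nnin G Q z) (R1 ∪ R0) (nbin G Q z) := by
        nlinarith [sq_nonneg (wt x (nbin G Q z) - wt x R0)]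
      have h6 := mul_le_mul_of_nonneg_left h5 h0
      linarith
    have hUU : UU G x p (n + 1) s Q = (1 - ∑ z ∈ sA G s, p (n + 1) s z) * wt x Q +
      ∑ z ∈ sA G s, p (n + 1) s z * UU G x p n (step G s z) (nnin G Q z) := rfl
    rw [hUU]
    linarith

end Pool.Agent.Icy
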