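import Pool.Agent.Icy.AcN

/-!
# AC, part 7: upper bound for the pair functional

(1) `UU_n s Q = ∑_{y∈Q} x y (1 - HH_n y s)` (induction).
(2) `JJ_n s Q R1 R0 = ∑_{y∈Q} x_y j^y_n`, where `j^y_{n+1} = ∑_z p [y ~ z ? wt R1 + 3/2 wt (nbin Q z) :
j^y_n (s_z, nnin Q z, R1 ∪ R0, nbin Q z)]` (induction).
(3) Let `R1, R0, Q ⊆ Q0`, pairwise disjoint, `Q ⊆ up s`, `wt Q0 ≤ 2`, `d = wt (nnin Q0 y)`.  Then
`j^y_n ≤ wt (nbin R1 y) RR_n + wt (nbin R0 y) RR⁺_n + TM' + 3/2 KK_n + 3/2 d RR_n + 3 (HH_n - RR_n)`
where `RR⁺_n = ∑_{z≁y} p RR_{n-1}` and `TM'_n = ∑_{z≁y} p TF_{n-1}`: by induction.  For a good reveal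
by `z`: `wt R1 + 3/2 wt (nbin Q z) ≤ wt (nbin R1 y) + 3/2 nu y (s_z) + 3/2 d` (`nbin Q z ⊆ N(s_z)`,
since `Q ⊆ up s`; `R1` and `nbin Q z` are disjoint parts of `Q0`); bad reveal: value `≤ 3`.  For
`z ≁ y`: induction at `s_z` with `R0' = nbin Q z`, `wt (nbin (nbin Q z) y) ≤ nu y (s_z)`, and
`nu (s_z) RR⁺_{n-1}(s_z) + TM'_{n-1}(s_z) = TF_{n-1} (s_z)`.
With `R1 = R0 = ∅` this gives the statement.
-/

set_option autoImplicit false

open Finset
open scoped Classical

namespace Pool.Agent.Icy

variable {V : Type} {G : SimpleGraph V} {x : V → ℝ} {p : ℕ → St V → V → ℝ}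
  {g : ℕ → St V → V → Prop}

theorem AcJu_wt_nonneg (hx : ∀ v, 0 ≤ x v) (S : Finset V) : 0 ≤ wt x S :=
  Finset.sum_nonneg fun v _ => hx v

theorem AcJu_wt_mono (hx : ∀ v, 0 ≤ x v) {S T : Finset V} (h : S ⊆ T) : wt x S ≤ wt x T :=
  Finset.sum_le_sum_of_subset_of_nonneg h fun v _ _ => hx v

theorem AcJu_wt_split (S : Finset V) (y : V) :
    wt x S = wt x (nbin G S y) + wt x (nnin G S y) := by
  unfold wt nbin nnin
  exact (Finset.sum_filter_add_sum_filter_not S (fun u => G.Adj y u) x).symm

theorem AcJu_wt_union (hx : ∀ v, 0 ≤ x v) (S T : Finset V) :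
    wt x (S ∪ T) ≤ wt x S + wt x T := by
  have h := Finset.sum_union_inter (s₁ := S) (s₂ := T) (f := x)
  have h2 : 0 ≤ ∑ v ∈ S ∩ T, x v := Finset.sum_nonneg fun v _ => hx v
  unfold wt
  linarith

theorem AcJu_wt_union_disj {S T : Finset V} (h : Disjoint S T) :
    wt x (S ∪ T) = wt x S + wt x T := by
  unfold wt
  exact Finset.sum_union h

theorem AcJu_wt_nbin_mul (Q : Finset V) (z : V) (c : ℝ) :
    wt x (nbin G Q z) * c = ∑ y ∈ Q, (if G.Adj z y then x y * c else 0) := by
  rw [wt, nbin, Finset.sum_filter, Finset.sum_mul]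
  refine Finset.sum_congr rfl fun y hy => ?_
  by_cases h : G.Adj z y
  · simp only [h, if_true]
  · simp [h]

theorem UU_eq (n : ℕ) (s : St V) (Q : Finset V) :
    UU G x p n s Q = ∑ y ∈ Q, x y * (1 - HH G p y n s) := by
  induction n generalizing s Q with
  | zero => simp [UU, HH, wt]
  | succ n ih =>
    rw [UU]
    have h1 : ∀ z ∈ sA G s, p (n + 1) s z * UU G x p n (step G s z) (nnin G Q z) =
        ∑ y ∈ Q, x y * (p (n + 1) s z * (if G.Adj y z then 0 else 1 - HH G p y n (step G s z))) := by
      intro z hz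
      rw [ih, nnin, Finset.sum_filter, Finset.mul_sum]
      refine Finset.sum_congr rfl fun y hy => ?_
      by_cases h : G.Adj y z
      · simp [h, h.symm]
      · have h' : ¬ G.Adj z y := fun h2 => h h2.symm
        simp only [h, h', if_true, if_false, not_false_iff]
        ring
    rw [Finset.sum_congr rfl h1, Finset.sum_comm, wt, Finset.mul_sum, ← Finset.sum_add_distrib]
    refine Finset.sum_congr rfl fun y hy => ?_
    rw [HH, ← Finset.mul_sum]
    have h2 : ∑ z ∈ sA G s, p (n + 1) s z * (if G.Adj y z then 0 else 1 - HH G p y n (step G s z)) =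
        ∑ z ∈ sA G s, p (n + 1) s z - ∑ z ∈ sA G s, p (n + 1) s z *
          (if G.Adj y z then 1 else HH G p y n (step G s z)) := by
      rw [← Finset.sum_sub_distrib]
      refine Finset.sum_congr rfl fun z hz => ?_
      by_cases h : G.Adj y z
      · simp [h]
      · simp only [h, if_false]
        ring
    rw [h2]
    ring

/-- the part of `JJ` of one vertex `y` -/
noncomputable def AcJu_j (G : SimpleGraph V) (x : V → ℝ) (p : ℕ → St V → V → ℝ) (y : V) :
    ℕ → St V → Finset V → Finset V → Finset V → ℝ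
  | 0, _, _, _, _ => 0
  | (n + 1), s, Q, R1, R0 => ∑ z ∈ sA G s, p (n + 1) s z *
      (if G.Adj y z then wt x R1 + 3 / 2 * wt x (nbin G Q z) else
        AcJu_j G x p y n (step G s z) (nnin G Q z) (R1 ∪ R0) (nbin G Q z))

theorem AcJu_JJ_eq (n : ℕ) (s : St V) (Q R1 R0 : Finset V) :
    JJ G x p n s Q R1 R0 = ∑ y ∈ Q, x y * AcJu_j G x p y n s Q R1 R0 := by
  induction n generalizing s Q R1 R0 with
  | zero => simp [JJ, AcJu_j]
  | succ n ih =>
    rw [JJ]
    have h1 : ∀ z ∈ sA G s, p (n + 1) s z *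
        (wt x (nbin G Q z) * wt x R1 + 3 / 2 * wt x (nbin G Q z) ^ 2 +
          JJ G x p n (step G s z) (nnin G Q z) (R1 ∪ R0) (nbin G Q z)) =
        ∑ y ∈ Q, x y * (p (n + 1) s z * (if G.Adj y z then wt x R1 + 3 / 2 * wt x (nbin G Q z) else
        AcJu_j G x p y n (step G s z) (nnin G Q z) (R1 ∪ R0) (nbin G Q z))) := by
      intro z hz
      have e : wt x (nbin G Q z) * wt x R1 + 3 / 2 * wt x (nbin G Q z) ^ 2 =
          wt x (nbin G Q z) * (wt x R1 + 3 / 2 * wt x (nbin G Q z)) := by ring
      have e2 : wt x (nbin G Q z) * (wt x R1 + 3 / 2 * wt x (nbin G Q z)) =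
          ∑ y ∈ Q, (if G.Adj z y then x y * (wt x R1 + 3 / 2 * wt x (nbin G Q z)) else 0) := by
        exact AcJu_wt_nbin_mul Q z _
      rw [e, e2, ih, nnin, Finset.sum_filter, ← Finset.sum_add_distrib, Finset.mul_sum]
      refine Finset.sum_congr rfl fun y hy => ?_
      by_cases h : G.Adj y z
      · simp only [h, h.symm, if_true, not_true, if_false, add_zero]
        ring
      · have h' : ¬ G.Adj z y := fun h2 => h h2.symm
        simp only [h, h', if_false, not_false_iff, if_true, zero_add]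
        ring
    rw [Finset.sum_congr rfl h1, Finset.sum_comm]
    refine Finset.sum_congr rfl fun y hy => ?_
    rw [AcJu_j, ← Finset.mul_sum]

/-- `RR⁺` -/
noncomputable def AcJu_RRp (G : SimpleGraph V) (p : ℕ → St V → V → ℝ)
    (g : ℕ → St V → V → Prop) (y : V) : ℕ → St V → ℝ
  | 0, _ => 0
  | (n + 1), s => ∑ z ∈ sA G s, p (n + 1) s z *
      (if G.Adj y z then 0 else RR G p g y n (step G s z))

/-- `TM'` -/
noncomputable def AcJu_TMp (G : SimpleGraph V) (x : V → ℝ) (p : ℕ → St V → V → ℝ)
    (g : ℕ → St V → V → Prop) (y : V) : ℕ → St V → ℝ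
  | 0, _ => 0
  | (n + 1), s => ∑ z ∈ sA G s, p (n + 1) s z *
      (if G.Adj y z then 0 else TF G x p g y n (step G s z))

theorem AcJu_TF_eq (y : V) (n : ℕ) (s : St V) :
    TF G x p g y n s = nu G x y s * AcJu_RRp G p g y n s + AcJu_TMp G x p g y n s := by
  cases n with
  | zero => simp [TF, AcJu_RRp, AcJu_TMp]
  | succ n =>
    rw [TF, AcJu_RRp, AcJu_TMp, Finset.mul_sum, ← Finset.sum_add_distrib]
    refine Finset.sum_congr rfl fun z hz => ?_
    by_cases h : G.Adj y z
    · simp [h]
    · simp only [h, if_false]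
      ring

theorem AcJu_RRp_nonneg (hK : Ker G p) (y : V) (n : ℕ) (s : St V) :
    0 ≤ AcJu_RRp G p g y n s := by
  cases n with
  | zero => simp [AcJu_RRp]
  | succ n =>
    rw [AcJu_RRp]
    refine Finset.sum_nonneg fun z hz => mul_nonneg (hK.nonneg _ _ _) ?_
    by_cases h : G.Adj y z
    · simp [h]
    · simp only [h, if_false]
      exact RR_nonneg hK y n _

theorem AcJu_j_le (hx : ∀ v, 0 ≤ x v) (hK : Ker G p) (Q0 : Finset V) (hw : wt x Q0 ≤ 2) (y : V)
    (n : ℕ) (s : St V) (Q R1 R0 : Finset V) (hQ : Q ⊆ Q0) (h1 : R1 ⊆ Q0) (h0 : R0 ⊆ Q0)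
    (hd1 : Disjoint Q R1) (hd0 : Disjoint Q R0) (hQu : Q ⊆ up G s) :
    AcJu_j G x p y n s Q R1 R0 ≤ wt x (nbin G R1 y) * RR G p g y n s +
      wt x (nbin G R0 y) * AcJu_RRp G p g y n s + AcJu_TMp G x p g y n s +
      3 / 2 * KK G x p g y n s + 3 / 2 * wt x (nnin G Q0 y) * RR G p g y n s +
      3 * (HH G p y n s - RR G p g y n s) := by
  induction n generalizing s Q R1 R0 with
  | zero => simp [AcJu_j, RR, AcJu_RRp, AcJu_TMp, KK, HH]
  | succ n ih =>
    rw [AcJu_j, RR, AcJu_RRp, AcJu_TMp, KK, HH]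
    have e : wt x (nbin G R1 y) * (∑ z ∈ sA G s, p (n + 1) s z *
          (if G.Adj y z then (if g n (step G s z) y then 1 else 0) else RR G p g y n (step G s z))) +
        wt x (nbin G R0 y) * (∑ z ∈ sA G s, p (n + 1) s z *
          (if G.Adj y z then 0 else RR G p g y n (step G s z))) +
        (∑ z ∈ sA G s, p (n + 1) s z *
          (if G.Adj y z then 0 else TF G x p g y n (step G s z))) +
        3 / 2 * (∑ z ∈ sA G s, p (n + 1) s z *
          (if G.Adj y z then (if g n (step G s z) y then nu G x y (step G s z) else 0)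
            else KK G x p g y n (step G s z))) +
        3 / 2 * wt x (nnin G Q0 y) * (∑ z ∈ sA G s, p (n + 1) s z *
          (if G.Adj y z then (if g n (step G s z) y then 1 else 0) else RR G p g y n (step G s z))) +
        3 * ((∑ z ∈ sA G s, p (n + 1) s z * (if G.Adj y z then 1 else HH G p y n (step G s z))) -
          (∑ z ∈ sA G s, p (n + 1) s z *
          (if G.Adj y z then (if g n (step G s z) y then 1 else 0) else RR G p g y n (step G s z)))) =
        ∑ z ∈ sA G s, p (n + 1) s z * (
          wt x (nbin G R1 y) * (if G.Adj y z then (if g n (step G s z) y then 1 else 0) else RR G p g y n (step G s z)) +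
          wt x (nbin G R0 y) * (if G.Adj y z then 0 else RR G p g y n (step G s z)) +
          (if G.Adj y z then 0 else TF G x p g y n (step G s z)) +
          3 / 2 * (if G.Adj y z then (if g n (step G s z) y then nu G x y (step G s z) else 0)
            else KK G x p g y n (step G s z)) +
          3 / 2 * wt x (nnin G Q0 y) * (if G.Adj y z then (if g n (step G s z) y then 1 else 0) else RR G p g y n (step G s z)) +
          3 * ((if G.Adj y z then 1 else HH G p y n (step G s z)) -
            (if G.Adj y z then (if g n (step G s z) y then 1 else 0) else RR G p g y n (step G s z)))) := by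
      simp only [mul_add, mul_sub, Finset.sum_add_distrib, Finset.sum_sub_distrib, Finset.mul_sum]
      congr 1
      · congr 1
        · congr 1
          · congr 1
            · congr 1
              · exact Finset.sum_congr rfl fun z _ => by ring
              · exact Finset.sum_congr rfl fun z _ => by ring
          · exact Finset.sum_congr rfl fun z _ => by ring
        · exact Finset.sum_congr rfl fun z _ => by ring
      · congr 1
        · exact Finset.sum_congr rfl fun z _ => by ring
        · exact Finset.sum_congr rfl fun z _ => by ring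
    rw [e]
    refine Finset.sum_le_sum fun z hz => mul_le_mul_of_nonneg_left ?_ (hK.nonneg _ _ _)
    have hsub : nbin G Q z ⊆ sN G (step G s z) := by
      intro u hu
      rw [nbin, Finset.mem_filter] at hu
      rw [sN, Finset.mem_filter]
      exact ⟨hQu hu.1, hu.2⟩
    have hnbQ : nbin G Q z ⊆ Q := Finset.filter_subset _ _
    have hnnQ : nnin G Q z ⊆ Q := Finset.filter_subset _ _
    have hnu : wt x (nbin G (nbin G Q z) y) ≤ nu G x y (step G s z) := by
      unfold nu
      refine AcJu_wt_mono hx ?_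
      intro u hu
      rw [nbin, Finset.mem_filter] at hu
      rw [nbin, Finset.mem_filter]
      exact ⟨hsub hu.1, hu.2⟩
    by_cases h : G.Adj y z
    · simp only [h, if_true]
      by_cases hgd : g n (step G s z) y
      · simp only [hgd, if_true]
        have e1 := AcJu_wt_split (G := G) (x := x) R1 y
        have e2 := AcJu_wt_split (G := G) (x := x) (nbin G Q z) y
        have hdis : Disjoint (nnin G R1 y) (nnin G (nbin G Q z) y) := by
          refine Finset.disjoint_left.2 fun u hu hu2 => ?_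
          rw [nnin, Finset.mem_filter] at hu hu2
          exact (Finset.disjoint_left.1 hd1) (hnbQ hu2.1) hu.1
        have hsb : nnin G R1 y ∪ nnin G (nbin G Q z) y ⊆ nnin G Q0 y := by
          intro u hu
          rw [Finset.mem_union] at hu
          rcases hu with hu | hu
          · rw [nnin, Finset.mem_filter] at hu ⊢
            exact ⟨h1 hu.1, hu.2⟩
          · rw [nnin, Finset.mem_filter] at hu ⊢
            exact ⟨hQ (hnbQ hu.1), hu.2⟩
        have e3 := AcJu_wt_mono hx hsb
        rw [AcJu_wt_union_disj hdis] at e3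
        have e4 := AcJu_wt_nonneg hx (nnin G R1 y)
        nlinarith
      · simp only [hgd, if_false]
        have hdis : Disjoint R1 (nbin G Q z) := by
          refine Finset.disjoint_left.2 fun u hu hu2 => ?_
          exact (Finset.disjoint_left.1 hd1) (hnbQ hu2) hu
        have hsb : R1 ∪ nbin G Q z ⊆ Q0 := Finset.union_subset h1 (hnbQ.trans hQ)
        have e3 := AcJu_wt_mono hx hsb
        rw [AcJu_wt_union_disj hdis] at e3
        have e4 := AcJu_wt_nonneg hx R1
        nlinarith
    · simp only [h, if_false]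
      have hdis1 : Disjoint (nnin G Q z) (R1 ∪ R0) := by
        refine Finset.disjoint_left.2 fun u hu hu2 => ?_
        rw [Finset.mem_union] at hu2
        rcases hu2 with hu2 | hu2
        · exact (Finset.disjoint_left.1 hd1) (hnnQ hu) hu2
        · exact (Finset.disjoint_left.1 hd0) (hnnQ hu) hu2
      have hdis0 : Disjoint (nnin G Q z) (nbin G Q z) := by
        refine Finset.disjoint_left.2 fun u hu hu2 => ?_
        rw [nnin, Finset.mem_filter] at hu
        rw [nbin, Finset.mem_filter] at hu2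
        exact hu.2 hu2.2
      have hup : nnin G Q z ⊆ up G (step G s z) := by
        intro u hu
        rw [nnin, Finset.mem_filter] at hu
        rw [up, Finset.mem_filter]
        exact ⟨hQu hu.1, hu.2⟩
      have IH := ih (step G s z) (nnin G Q z) (R1 ∪ R0) (nbin G Q z) (hnnQ.trans hQ)
        (Finset.union_subset h1 h0) (hnbQ.trans hQ) hdis1 hdis0 hup
      have hTF := AcJu_TF_eq (G := G) (x := x) (p := p) (g := g) y n (step G s z)
      have hRp := AcJu_RRp_nonneg (g := g) hK y n (step G s z)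
      have hR := RR_nonneg (g := g) hK y n (step G s z)
      have hun : wt x (nbin G (R1 ∪ R0) y) ≤ wt x (nbin G R1 y) + wt x (nbin G R0 y) := by
        have e5 : nbin G (R1 ∪ R0) y = nbin G R1 y ∪ nbin G R0 y := by
          unfold nbin
          exact Finset.filter_union _ _ _
        rw [e5]
        exact AcJu_wt_union hx _ _
      have m1 := mul_le_mul_of_nonneg_right hun hR
      have m2 := mul_le_mul_of_nonneg_right hnu hRp
      have m3 : (wt x (nbin G R1 y) + wt x (nbin G R0 y)) * RR G p g y n (step G s z) =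
        wt x (nbin G R1 y) * RR G p g y n (step G s z) +
        wt x (nbin G R0 y) * RR G p g y n (step G s z) := by ring
      linarith

theorem JJ_le (hx : ∀ v, 0 ≤ x v) (hK : Ker G p) (n : ℕ) (s : St V) (Q0 Q : Finset V)
    (hQ : Q ⊆ Q0) (hQu : Q ⊆ up G s) (hw : wt x Q0 ≤ 2) :
    JJ G x p n s Q ∅ ∅ ≤ ∑ y ∈ Q, x y * (TF G x p g y n s + 3 / 2 * KK G x p g y n s +
      3 / 2 * wt x (nnin G Q0 y) * RR G p g y n s + 3 * (HH G p y n s - RR G p g y n s)) := by
  rw [AcJu_JJ_eq]
  refine Finset.sum_le_sum fun y hy => mul_le_mul_of_nonneg_left ?_ (hx y)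
  have h := AcJu_j_le (g := g) hx hK Q0 hw y n s Q ∅ ∅ hQ (Finset.empty_subset _)
    (Finset.empty_subset _) (Finset.disjoint_empty_right _) (Finset.disjoint_empty_right _) hQu
  have e : wt x (nbin G (∅ : Finset V) y) = 0 := by simp [wt, nbin]
  rw [e] at h
  have hTF := AcJu_TF_eq (G := G) (x := x) (p := p) (g := g) y n s
  have hRp := AcJu_RRp_nonneg (g := g) hK y n s
  have hnu : 0 ≤ nu G x y s := AcJu_wt_nonneg hx _
  have := mul_nonneg hnu hRp
  linarith

end Pool.Agent.Icy
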