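import Pool.Agent.Icy.AcLB

/-!
# AC, part 5 (K12)

`Y = sN (step s w) = nbin (up s) w`.  Write `ν = nu y s`, `n = nn y s = α + λ` with
`α = wt (sN (step (step s w) y)) ∈ [1-δ, 1+δ]` (neighbours of `y` in `up s` not adjacent to `w`) and
`λ = wt (nbin Y y)`, `d = wt (nnin Y y)`, `λ + d = wt Y ≤ 1 + δ`, `ν ≤ wt (sN s) ≤ 1 + δ`.
`KK_{n+1} s = P-part + KM` where, for good `z ~ y`, `nu (s_z) = n - nn (s_z) ≥ n - 1 - δ`; with
`P1 = ∑_{z~y,good} p` : `KK ≥ P1 (n - 1 - δ) + KM`, and `|P1 - ν| ≤ PI` (`ν - P1 ≤ |ν - ∑_{z~y}p| +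
(1 - RR) ≤ PI`, `P1 - ν ≤ CC ≤ PI`).  LB: `ν + n ≥ (2-δ) RR + KK - CC ≥ 2 - δ - PI + P1(n-1-δ) + KM`
`≥ 2 + ν (n-1) + KM - 3δ - 3 PI` (as `|n-1-δ| ≤ 2`, `ν ≤ 2`), so `(1-ν)(n-2) ≥ KM - 3δ - 3PI`.
Finally `n - 2 ≤ 2δ - d`; if `ν ≤ 1`, `(1-ν)(n-2) ≤ 2δ - (1-ν)d`; if `ν > 1` then
`(1-ν)(n-2) ≤ 2δ` (`|n-2| ≤ 2`, `ν - 1 ≤ δ`) and `(1-ν) d ≤ 0`.
-/

set_option autoImplicit false

open Finset
open scoped Classical

namespace Pool.Agent.Icy

variable {V : Type} {G : SimpleGraph V} {x : V → ℝ} {p : ℕ → St V → V → ℝ}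
  {g : ℕ → St V → V → Prop}

theorem K12_wt_nonneg (hx : ∀ v, 0 ≤ x v) (S : Finset V) : 0 ≤ wt x S :=
  sum_nonneg fun v _ => hx v

theorem K12_alpha (y w : V) (s : St V) : nn G x y s =
    wt x (sN G (step G (step G s w) y)) + wt x (nbin G (sN G (step G s w)) y) := by
  have m1 : ∀ (t : St V) (u : V), u ∈ sN G t ↔ u ∈ t.U ∧ G.Adj t.b u := fun t u => mem_filter
  have m2 : ∀ (t : St V) (u : V), u ∈ up G t ↔ u ∈ t.U ∧ ¬ G.Adj t.b u := fun t u => mem_filter
  have m3 : ∀ (S : Finset V) (u : V), u ∈ nbin G S y ↔ u ∈ S ∧ G.Adj y u :=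
    fun S u => mem_filter
  have m4 : ∀ (t : St V) (z : V), (step G t z).U = up G t := fun t z => rfl
  have m5 : ∀ (t : St V) (z : V), (step G t z).b = z := fun t z => rfl
  have h1 : sN G (step G (step G s w) y) =
      (nbin G (up G s) y).filter (fun u => ¬ G.Adj w u) := by
    ext u
    rw [m1, mem_filter, m3, m4, m2, m5, m5, m4]
    tauto
  have h2 : nbin G (sN G (step G s w)) y =
      (nbin G (up G s) y).filter (fun u => G.Adj w u) := by
    ext u
    rw [m3, m1, mem_filter, m3, m4, m5]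
    tauto
  rw [h1, h2]
  unfold nn wt
  rw [add_comm]
  exact (sum_filter_add_sum_filter_not _ _ _).symm

theorem K12_split (y : V) (S : Finset V) :
    wt x (nbin G S y) + wt x (nnin G S y) = wt x S :=
  sum_filter_add_sum_filter_not _ _ _

theorem K12 (hx : ∀ v, 0 ≤ x v) (hK : Ker G p) (δ : ℝ) (hδ : 0 ≤ δ) (hδ4 : δ ≤ 1 / 4) (y : V)
    (hg : ∀ (n : ℕ) (s : St V) (z : V), z ∈ sA G s → G.Adj y z → g n (step G s z) y →
      |nn G x y (step G s z) - 1| ≤ δ) (n : ℕ) (s : St V) (w : V)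
    (hN : wt x (sN G s) ≤ 1 + δ) (hY : wt x (sN G (step G s w)) ≤ 1 + δ)
    (hα : |wt x (sN G (step G (step G s w) y)) - 1| ≤ δ) :
    KM G x p g y n s + (1 - nu G x y s) * wt x (nnin G (sN G (step G s w)) y) ≤
      5 * δ + 3 * PI G x p g y (n + 1) s := by
  set ν := nu G x y s with hν
  set n0 := nn G x y s with hn0
  set α := wt x (sN G (step G (step G s w) y)) with hαdef
  set lam := wt x (nbin G (sN G (step G s w)) y) with hlam
  set d := wt x (nnin G (sN G (step G s w)) y) with hd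
  have hα' := abs_le.mp hα
  have hn : n0 = α + lam := K12_alpha y w s
  have hlam0 : 0 ≤ lam := K12_wt_nonneg hx _
  have hd0 : 0 ≤ d := K12_wt_nonneg hx _
  have hld : lam + d = wt x (sN G (step G s w)) := K12_split y _
  have hν0 : 0 ≤ ν := K12_wt_nonneg hx _
  have hν1 : ν ≤ 1 + δ := by
    have := K12_split (x := x) (G := G) y (sN G s)
    have h2 : 0 ≤ wt x (nnin G (sN G s) y) := K12_wt_nonneg hx _
    have h3 : ν = wt x (nbin G (sN G s) y) := rfl
    linarith
  -- the sums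
  set P1 : ℝ := ∑ z ∈ sA G s, p (n + 1) s z *
    (if G.Adj y z then (if g n (step G s z) y then 1 else 0) else 0) with hP1
  set P2 : ℝ := ∑ z ∈ sA G s, (if G.Adj y z then p (n + 1) s z else 0) with hP2
  set P3 : ℝ := ∑ z ∈ sA G s, (if G.Adj y z then 0 else p (n + 1) s z) with hP3
  have hP10 : 0 ≤ P1 := by
    apply sum_nonneg
    intro z _
    apply mul_nonneg (hK.nonneg _ _ _)
    split_ifs <;> norm_num
  have hP12 : P1 ≤ P2 := by
    apply sum_le_sum
    intro z _
    have := hK.nonneg (n + 1) s z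
    split_ifs <;> simp [this]
  have hP23 : P2 + P3 ≤ 1 := by
    rw [hP2, hP3, ← sum_add_distrib]
    refine le_trans (le_of_eq (sum_congr rfl fun z _ => ?_)) (hK.sum_le (n + 1) s)
    split_ifs <;> simp
  have hRR : RR G p g y (n + 1) s = P1 + ∑ z ∈ sA G s, p (n + 1) s z *
      (if G.Adj y z then 0 else RR G p g y n (step G s z)) := by
    have : RR G p g y (n + 1) s = ∑ z ∈ sA G s, p (n + 1) s z *
      (if G.Adj y z then (if g n (step G s z) y then 1 else 0)
        else RR G p g y n (step G s z)) := rfl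
    rw [this, hP1, ← sum_add_distrib]
    refine sum_congr rfl fun z _ => ?_
    split_ifs <;> simp
  have hRR2 : RR G p g y (n + 1) s ≤ P1 + P3 := by
    rw [hRR]
    have : ∑ z ∈ sA G s, p (n + 1) s z *
      (if G.Adj y z then 0 else RR G p g y n (step G s z)) ≤ P3 := by
      apply sum_le_sum
      intro z _
      have h1 := hK.nonneg (n + 1) s z
      split_ifs
      · simp
      · exact mul_le_of_le_one_right h1 (RR_le_one hK y n _)
    linarith
  have hRR1 := RR_le_one (g := g) hK y (n + 1) s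
  have hCC0 := CC_nonneg (x := x) hK y (n + 1) s
  have hCC : |ν - P2| ≤ CC G x p y (n + 1) s := by
    have : CC G x p y (n + 1) s = |ν - P2| + ∑ z ∈ sA G s, p (n + 1) s z *
        (if G.Adj y z then 0 else CC G x p y n (step G s z)) := rfl
    rw [this]
    have : 0 ≤ ∑ z ∈ sA G s, p (n + 1) s z *
        (if G.Adj y z then 0 else CC G x p y n (step G s z)) := by
      apply sum_nonneg
      intro z _
      apply mul_nonneg (hK.nonneg _ _ _)
      split_ifs
      · exact le_refl _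
      · exact CC_nonneg hK y n _
    linarith
  have hCC' := abs_le.mp hCC
  have hPI : PI G x p g y (n + 1) s = 2 * (1 - RR G p g y (n + 1) s) + CC G x p y (n + 1) s := rfl
  set Q := PI G x p g y (n + 1) s with hQ
  have hd1 : ν - P1 ≤ Q := by linarith
  have hd2 : P1 - ν ≤ Q := by linarith
  have hQ0 : 0 ≤ Q := by linarith
  -- KK
  have hKK : P1 * (n0 - 1 - δ) + KM G x p g y n s ≤ KK G x p g y (n + 1) s := by
    have h1 : KK G x p g y (n + 1) s = ∑ z ∈ sA G s, p (n + 1) s z *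
      (if G.Adj y z then (if g n (step G s z) y then nu G x y (step G s z) else 0)
        else KK G x p g y n (step G s z)) := rfl
    have h2 : KM G x p g y n s = ∑ z ∈ sA G s, p (n + 1) s z *
      (if G.Adj y z then 0 else KK G x p g y n (step G s z)) := rfl
    rw [h1, h2, hP1, sum_mul, ← sum_add_distrib]
    apply sum_le_sum
    intro z hz
    have h3 := hK.nonneg (n + 1) s z
    by_cases hyz : G.Adj y z
    · by_cases hgz : g n (step G s z) y
      · simp only [if_pos hyz, if_pos hgz]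
        have h4 := (abs_le.mp (hg n s z hz hyz hgz)).2
        have h5 := nn_step (x := x) (G := G) y z s
        have h6 : n0 - 1 - δ ≤ nu G x y (step G s z) := by linarith
        have h7 := mul_le_mul_of_nonneg_left h6 h3
        linarith
      · simp only [if_pos hyz, if_neg hgz]
        linarith
    · simp only [if_neg hyz]
      linarith
  have hLB := LB hx hK δ y hg (n + 1) s
  have hR : 2 - δ - 2 * (1 - RR G p g y (n + 1) s) ≤ (2 - δ) * RR G p g y (n + 1) s := by
    nlinarith [mul_nonneg hδ (sub_nonneg.mpr hRR1)]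
  have hn1 : -2 ≤ n0 - 1 - δ := by linarith
  have hn2 : n0 - 1 - δ ≤ 2 := by linarith
  have hP : ν * (n0 - 1 - δ) - 2 * Q ≤ P1 * (n0 - 1 - δ) := by
    rcases le_total 0 (n0 - 1 - δ) with h | h
    · nlinarith [mul_le_mul_of_nonneg_right hd1 h, mul_le_mul_of_nonneg_left hn2 hQ0]
    · have h' : 0 ≤ -(n0 - 1 - δ) := by linarith
      have hn1' : -(n0 - 1 - δ) ≤ 2 := by linarith
      nlinarith [mul_le_mul_of_nonneg_right hd2 h', mul_le_mul_of_nonneg_left hn1' hQ0]
  have hνδ : ν * δ ≤ 2 * δ := mul_le_mul_of_nonneg_right (by linarith) hδ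
  have hmain : KM G x p g y n s - 3 * δ - 3 * Q ≤ (1 - ν) * (n0 - 2) := by
    have e : (1 - ν) * (n0 - 2) = ν + n0 - 2 - ν * (n0 - 1 - δ) - ν * δ := by ring
    rw [e]
    linarith
  rcases le_total ν 1 with h | h
  · have h1 : (1 - ν) * (n0 - 2) ≤ (1 - ν) * (2 * δ - d) :=
      mul_le_mul_of_nonneg_left (by linarith) (by linarith)
    have h2 : (1 - ν) * (2 * δ - d) = 2 * δ - ν * (2 * δ) - (1 - ν) * d := by ring
    have h3 : 0 ≤ ν * (2 * δ) := by positivity
    linarith
  · have h1 : (1 - ν) * (n0 - 2) ≤ 2 * δ := by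
      have e : (1 - ν) * (n0 - 2) = (ν - 1) * (2 - n0) := by ring
      rw [e]
      rcases le_total 0 (2 - n0) with h2 | h2
      · have h3 : (ν - 1) * (2 - n0) ≤ δ * (2 - n0) :=
          mul_le_mul_of_nonneg_right (by linarith) h2
        have h4 : δ * (2 - n0) ≤ δ * 2 := mul_le_mul_of_nonneg_left (by linarith) hδ
        linarith
      · have := mul_nonpos_of_nonneg_of_nonpos (sub_nonneg.mpr h) h2
        linarith
    have h2 : (1 - ν) * d ≤ 0 := mul_nonpos_of_nonpos_of_nonneg (by linarith) hd0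
    linarith

end Pool.Agent.Icy
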