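import Pool.Agent.Icy.AcK3
import Pool.Agent.Icy.AcK12
import Pool.Agent.Icy.AcJ
import Pool.Agent.Icy.AcJu

/-!
# AC, conclusion

For each `z`, `Q_z = nnin Q z ⊆ up (s_z)`, `wt Q_z ≤ 2`:
`½ wt(Q_z)² ≤ JJ_n (s_z) Q_z ∅ ∅ + 2 UU_n (s_z) Q_z ≤ ∑_{y∈Q, y≁z} x_y [TF_n + 3/2 KK_n +
3/2 wt(nnin Q y) RR_n + 3 (HH_n - RR_n) + 2 (1 - HH_n)](s_z)`, `3(HH-RR)+2(1-HH) ≤ 3(1-RR)`.
Multiply by `p (n+1) s z` and sum over `z`; exchange the sums:
`≤ ∑_{y∈Q} x_y [TM + 3/2 KM + 3/2 wt(nnin Q y) ∑_{z≁y} p + 3 ∑_{z≁y} p (1-RR_n)]`.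
`∑_{z≁y} p ≤ 1 - ∑_{z~y} p ≤ 1 - nu + CC`; with `t = (1 - nu) wt(nnin Y y)` (`Y = sN (step s w)`,
`Q ⊆ Y`): `wt(nnin Q y) ∑_{z≁y} p ≤ t + 2δ + 2 CC` (if `nu ≤ 1`: `wt(nnin Q y) ≤ wt(nnin Y y) ≤ 2`;
if `nu > 1`: `≤ 2 CC` and `t ≥ - δ (1+δ) ≥ -2δ`).  So the bracket is
`≤ (KM + 2δ + δ' + (3/2+1/δ')PI) + 3/2 KM + 3/2 (t + 2δ + 2 PI) + 3/2 PI
 ≤ 5/2 (KM + t) + 2δ + 2δ + 3δ + δ' + (6 + 1/δ') PI ≤ 20 δ + δ' + (14 + 1/δ') PI` by K12
(`3/2 t ≤ 5/2 t + 2δ`).
-/

set_option autoImplicit false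

open Finset
open scoped Classical

namespace Pool.Agent.Icy

variable {V : Type} {G : SimpleGraph V} {x : V → ℝ} {p : ℕ → St V → V → ℝ}
  {g : ℕ → St V → V → Prop}

theorem AcFinal_wt_mono (hx : ∀ v, 0 ≤ x v) {S T : Finset V} (h : S ⊆ T) : wt x S ≤ wt x T :=
  Finset.sum_le_sum_of_subset_of_nonneg h fun v _ _ => hx v

theorem AcFinal_wt_nonneg (hx : ∀ v, 0 ≤ x v) (S : Finset V) : 0 ≤ wt x S :=
  Finset.sum_nonneg fun v _ => hx v

/-- one step `z` -/
theorem AcFinal_z (hx : ∀ v, 0 ≤ x v) (hK : Ker G p) (n : ℕ) (s : St V) (z : V)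
    (Q : Finset V) (hQ : Q ⊆ up G s) (hQ2 : wt x Q ≤ 2) :
    wt x (nnin G Q z) ^ 2 ≤ 2 * ∑ y ∈ Q, x y * (if G.Adj y z then 0 else
      TF G x p g y n (step G s z) + 3 / 2 * KK G x p g y n (step G s z) +
      3 / 2 * wt x (nnin G Q y) * RR G p g y n (step G s z) +
      3 * (1 - RR G p g y n (step G s z))) := by
  set Qz := nnin G Q z with hQz
  have hsub : Qz ⊆ Q := Finset.filter_subset _ _
  have hQzu : Qz ⊆ up G (step G s z) := by
    intro u hu
    rw [hQz, nnin, Finset.mem_filter] at hu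
    unfold up
    rw [Finset.mem_filter]
    exact ⟨hQ hu.1, hu.2⟩
  have h1 := JJ_ge (G := G) (x := x) hx hK n (step G s z) Qz ∅ ∅ (Finset.disjoint_empty_right _)
    (Finset.disjoint_empty_right _) (Finset.disjoint_empty_right _) (by
      have := AcFinal_wt_mono (x := x) hx hsub
      simp only [wt, Finset.sum_empty, add_zero] at *
      linarith)
  have h2 := JJ_le (g := g) hx hK n (step G s z) Q Qz hsub hQzu hQ2
  have h3 := UU_eq (G := G) (x := x) (p := p) n (step G s z) Qz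
  have he : wt x (∅ : Finset V) = 0 := by simp [wt]
  rw [he, h3] at h1
  have h4 : ∑ y ∈ Qz, x y * (TF G x p g y n (step G s z) + 3 / 2 * KK G x p g y n (step G s z) +
      3 / 2 * wt x (nnin G Q y) * RR G p g y n (step G s z) +
        3 * (HH G p y n (step G s z) - RR G p g y n (step G s z))) +
      2 * ∑ y ∈ Qz, x y * (1 - HH G p y n (step G s z)) ≤
      ∑ y ∈ Qz, x y * (TF G x p g y n (step G s z) + 3 / 2 * KK G x p g y n (step G s z) +
      3 / 2 * wt x (nnin G Q y) * RR G p g y n (step G s z) +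
        3 * (1 - RR G p g y n (step G s z))) := by
    rw [Finset.mul_sum, ← Finset.sum_add_distrib]
    apply Finset.sum_le_sum
    intro y _
    have h5 := HH_le_one (G := G) (p := p) hK y n (step G s z)
    have h6 := hx y
    have h7 : 0 ≤ x y * (1 - HH G p y n (step G s z)) := mul_nonneg h6 (by linarith)
    nlinarith
  have h5 : ∑ y ∈ Qz, x y * (TF G x p g y n (step G s z) + 3 / 2 * KK G x p g y n (step G s z) +
      3 / 2 * wt x (nnin G Q y) * RR G p g y n (step G s z) +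
        3 * (1 - RR G p g y n (step G s z))) =
      ∑ y ∈ Q, x y * (if G.Adj y z then 0 else
      TF G x p g y n (step G s z) + 3 / 2 * KK G x p g y n (step G s z) +
      3 / 2 * wt x (nnin G Q y) * RR G p g y n (step G s z) +
      3 * (1 - RR G p g y n (step G s z))) := by
    rw [hQz, nnin, Finset.sum_filter]
    apply Finset.sum_congr rfl
    intro y _
    by_cases h : G.Adj z y
    · rw [if_neg (not_not.mpr h), if_pos h.symm, mul_zero]
    · rw [if_pos h, if_neg (fun h' => h h'.symm)]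
  rw [h5] at h4
  nlinarith

theorem ac_final (hx : ∀ v, 0 ≤ x v) (hK : Ker G p) (δ δ' : ℝ) (hδ : 0 ≤ δ) (hδ4 : δ ≤ 1 / 4)
    (hδ' : 0 < δ')
    (hg : ∀ (n : ℕ) (s : St V) (z y : V), z ∈ sA G s → G.Adj y z → g n (step G s z) y →
      |nn G x y (step G s z) - 1| ≤ δ) (n : ℕ) (s : St V) (w : V)
    (hN : wt x (sN G s) ≤ 1 + δ) (hY : wt x (sN G (step G s w)) ≤ 1 + δ)
    (Q : Finset V) (hQ : Q ⊆ sN G (step G s w))
    (hα : ∀ y ∈ Q, |wt x (sN G (step G (step G s w) y)) - 1| ≤ δ) :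
    ∑ z ∈ sA G s, p (n + 1) s z * wt x (nnin G Q z) ^ 2 ≤
      2 * ∑ y ∈ Q, x y * (20 * δ + δ' + (14 + 1 / δ') * PI G x p g y (n + 1) s) := by
  have hQu : Q ⊆ up G s := by
    intro u hu
    have := hQ hu
    unfold sN at this
    rw [Finset.mem_filter] at this
    exact this.1
  have hQY : wt x Q ≤ wt x (sN G (step G s w)) := AcFinal_wt_mono hx hQ
  have hQ2 : wt x Q ≤ 2 := by linarith
  set F : V → V → ℝ := fun y z => if G.Adj y z then 0 else
      TF G x p g y n (step G s z) + 3 / 2 * KK G x p g y n (step G s z) +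
      3 / 2 * wt x (nnin G Q y) * RR G p g y n (step G s z) +
      3 * (1 - RR G p g y n (step G s z)) with hF
  have h1 : ∑ z ∈ sA G s, p (n + 1) s z * wt x (nnin G Q z) ^ 2 ≤
      ∑ z ∈ sA G s, p (n + 1) s z * (2 * ∑ y ∈ Q, x y * F y z) := by
    apply Finset.sum_le_sum
    intro z _
    exact mul_le_mul_of_nonneg_left (AcFinal_z hx hK n s z Q hQu hQ2) (hK.nonneg _ _ _)
  have h2 : ∑ z ∈ sA G s, p (n + 1) s z * (2 * ∑ y ∈ Q, x y * F y z) =
      2 * ∑ y ∈ Q, x y * ∑ z ∈ sA G s, p (n + 1) s z * F y z := by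
    simp only [Finset.mul_sum]
    rw [Finset.sum_comm]
    apply Finset.sum_congr rfl
    intro y _
    apply Finset.sum_congr rfl
    intro z _
    ring
  rw [h2] at h1
  refine h1.trans ?_
  apply mul_le_mul_of_nonneg_left _ (by norm_num)
  apply Finset.sum_le_sum
  intro y hy
  apply mul_le_mul_of_nonneg_left _ (hx y)
  -- the bracket
  have hg' : ∀ (n : ℕ) (s : St V) (z : V), z ∈ sA G s → G.Adj y z → g n (step G s z) y →
      |nn G x y (step G s z) - 1| ≤ δ := fun n s z => hg n s z y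
  have k3 := K3 hx hK δ δ' hδ hδ' y hg' n s
  have k12 := K12 hx hK δ hδ hδ4 y hg' n s w hN hY (hα y hy)
  have hrs := RR_super (G := G) (g := g) hK y n s
  set Y := sN G (step G s w) with hYd
  set DQ := wt x (nnin G Q y) with hDQ
  set DY := wt x (nnin G Y y) with hDY
  set M := ∑ z ∈ sA G s, p (n + 1) s z * (if G.Adj y z then 0 else 1) with hM
  have hDQ0 : 0 ≤ DQ := AcFinal_wt_nonneg hx _
  have hDQY : DQ ≤ DY := AcFinal_wt_mono hx (Finset.filter_subset_filter _ hQ)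
  have hDY2 : DY ≤ 1 + δ := (AcFinal_wt_mono hx (Finset.filter_subset _ _)).trans hY
  have hnu : nu G x y s ≤ 1 + δ := (AcFinal_wt_mono hx (Finset.filter_subset _ _)).trans hN
  have hsplit : ∑ z ∈ sA G s, p (n + 1) s z * F y z =
      TM G x p g y n s + 3 / 2 * KM G x p g y n s +
      3 / 2 * DQ * (∑ z ∈ sA G s, p (n + 1) s z *
        (if G.Adj y z then 0 else RR G p g y n (step G s z))) +
      3 * ∑ z ∈ sA G s, p (n + 1) s z *
        (if G.Adj y z then 0 else 1 - RR G p g y n (step G s z)) := by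
    unfold TM KM
    simp only [Finset.mul_sum, ← Finset.sum_add_distrib]
    apply Finset.sum_congr rfl
    intro z _
    rw [hF]
    beta_reduce
    by_cases h : G.Adj y z
    · simp only [h, if_true]
      ring
    · simp only [h, if_false]
      ring
  have hRM : ∑ z ∈ sA G s, p (n + 1) s z *
      (if G.Adj y z then 0 else RR G p g y n (step G s z)) ≤ M := by
    apply Finset.sum_le_sum
    intro z _
    apply mul_le_mul_of_nonneg_left _ (hK.nonneg _ _ _)
    by_cases h : G.Adj y z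
    · simp only [h, if_true]; exact le_rfl
    · simp only [h, if_false]; exact RR_le_one hK y n _
  have hCC1 : |nu G x y s - ∑ z ∈ sA G s, (if G.Adj y z then p (n + 1) s z else 0)| ≤
      CC G x p y (n + 1) s := by
    rw [CC]
    have : 0 ≤ ∑ z ∈ sA G s, p (n + 1) s z *
        (if G.Adj y z then 0 else CC G x p y n (step G s z)) := by
      apply Finset.sum_nonneg
      intro z _
      apply mul_nonneg (hK.nonneg _ _ _)
      by_cases h : G.Adj y z
      · simp only [h, if_true]; exact le_rfl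
      · simp only [h, if_false]; exact CC_nonneg hK y n _
    linarith
  have hMs : M + ∑ z ∈ sA G s, (if G.Adj y z then p (n + 1) s z else 0) ≤ 1 := by
    refine le_trans (le_of_eq ?_) (hK.sum_le (n + 1) s)
    rw [hM, ← Finset.sum_add_distrib]
    apply Finset.sum_congr rfl
    intro z _
    by_cases h : G.Adj y z
    · simp only [h, if_true]; ring
    · simp only [h, if_false]; ring
  have hM1 : M ≤ 1 - nu G x y s + CC G x p y (n + 1) s := by
    have := (abs_le.mp hCC1).2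
    linarith
  have hCC0 : 0 ≤ CC G x p y (n + 1) s := CC_nonneg hK y _ _
  have hPI : PI G x p g y (n + 1) s = 2 * (1 - RR G p g y (n + 1) s) + CC G x p y (n + 1) s := rfl
  have hR1 : 0 ≤ 1 - RR G p g y (n + 1) s := by
    have := RR_le_one (G := G) (g := g) hK y (n + 1) s
    linarith
  -- `DQ * M ≤ t + 2 δ + 2 CC`, `t ≥ -2 δ`
  have ht : -(2 * δ) ≤ (1 - nu G x y s) * DY ∧
      DQ * M ≤ (1 - nu G x y s) * DY + 2 * δ + 2 * CC G x p y (n + 1) s := by
    have e1 : DQ * M ≤ DQ * (1 - nu G x y s + CC G x p y (n + 1) s) :=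
      mul_le_mul_of_nonneg_left hM1 hDQ0
    have e2 : DQ * CC G x p y (n + 1) s ≤ 2 * CC G x p y (n + 1) s :=
      mul_le_mul_of_nonneg_right (by linarith) hCC0
    rcases le_total (nu G x y s) 1 with h | h
    · have e3 : DQ * (1 - nu G x y s) ≤ DY * (1 - nu G x y s) :=
        mul_le_mul_of_nonneg_right hDQY (by linarith)
      have e4 : 0 ≤ (1 - nu G x y s) * DY := mul_nonneg (by linarith) (by linarith)
      constructor
      · linarith
      · nlinarith
    · have e3 : DQ * (1 - nu G x y s) ≤ 0 :=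
        mul_nonpos_of_nonneg_of_nonpos hDQ0 (by linarith)
      have e4 : (nu G x y s - 1) * DY ≤ δ * (1 + δ) :=
        mul_le_mul (by linarith) hDY2 (by linarith) hδ
      have e5 : δ * (1 + δ) ≤ 2 * δ := by nlinarith
      constructor
      · nlinarith
      · nlinarith
  rw [hsplit]
  have e6 : 3 / 2 * DQ * (∑ z ∈ sA G s, p (n + 1) s z *
      (if G.Adj y z then 0 else RR G p g y n (step G s z))) ≤ 3 / 2 * (DQ * M) := by
    rw [mul_assoc]
    exact mul_le_mul_of_nonneg_left (mul_le_mul_of_nonneg_left hRM hDQ0) (by norm_num)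
  obtain ⟨ht1, ht2⟩ := ht
  have e7 : (14 + 1 / δ') * PI G x p g y (n + 1) s = 14 * PI G x p g y (n + 1) s +
      1 / δ' * PI G x p g y (n + 1) s := by ring
  have e8 : (3 / 2 + 1 / δ') * PI G x p g y (n + 1) s = 3 / 2 * PI G x p g y (n + 1) s +
      1 / δ' * PI G x p g y (n + 1) s := by ring
  rw [e8] at k3
  rw [e7]
  linarith

end Pool.Agent.Icy
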