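import Pool.Agent.Icy.AcLB

/-!
# AC, part 3: lower bound for `LF`

Claim `LF_n s ≥ (1 - 2δ - δ') RR_n s - KK_n s - PI_n s / δ'`, by induction on `n` (`n = 0` clear as
`PI ≥ 0`).  Step: if `PI_{n+1} s ≥ δ'` the right side is `≤ RR - KK - 1 ≤ 0` (use `RR ≤ 1`, `KK ≥ 0`,
`2δ+δ' ≥ 0`, `RR ≥ 0`) and `LF ≥ 0`.  If `PI_{n+1} s < δ'`: for `z ~ y` good, by LB at `s`,
`nu s ≥ (2-δ) RR_{n+1} - CC_{n+1} + KK - nn s ≥ 2 - δ - PI_{n+1} s - nn s` and
`nn s = nu (s_z) + nn (s_z) ≤ nu (s_z) + 1 + δ`, so `nu s ≥ 1 - 2δ - δ' - nu (s_z)`.  Sum over the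
good `z ~ y`; for `z ≁ y` use induction and `∑_{z≁y} p PI_n ≤ PI_{n+1}` (`PI_super`).
-/

set_option autoImplicit false

open Finset
open scoped Classical

namespace Pool.Agent.Icy

variable {V : Type} {G : SimpleGraph V} {x : V → ℝ} {p : ℕ → St V → V → ℝ}
  {g : ℕ → St V → V → Prop}

theorem AcLam_wt_nonneg (hx : ∀ v, 0 ≤ x v) (S : Finset V) : 0 ≤ wt x S :=
  Finset.sum_nonneg fun v _ => hx v

theorem AcLam_LF_nonneg (hx : ∀ v, 0 ≤ x v) (hK : Ker G p) (y : V) (n : ℕ) (s : St V) :
    0 ≤ LF G x p g y n s := by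
  induction n generalizing s with
  | zero => simp [LF]
  | succ n ih =>
    rw [LF]
    apply Finset.sum_nonneg
    intro z _
    apply mul_nonneg (hK.nonneg _ _ _)
    split_ifs
    · exact AcLam_wt_nonneg hx _
    · exact le_rfl
    · exact ih _

theorem LF_ge (hx : ∀ v, 0 ≤ x v) (hK : Ker G p) (δ δ' : ℝ) (hδ : 0 ≤ δ) (hδ' : 0 < δ') (y : V)
    (hg : ∀ (n : ℕ) (s : St V) (z : V), z ∈ sA G s → G.Adj y z → g n (step G s z) y →
      |nn G x y (step G s z) - 1| ≤ δ) (n : ℕ) (s : St V) :
    (1 - 2 * δ - δ') * RR G p g y n s - KK G x p g y n s - PI G x p g y n s / δ' ≤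
      LF G x p g y n s := by
  induction n generalizing s with
  | zero =>
    have h := div_nonneg (PI_nonneg (g := g) (x := x) hK y 0 s) hδ'.le
    simp only [RR, KK, LF]
    linarith
  | succ n ih =>
    have hR0 := RR_nonneg (g := g) hK y (n + 1) s
    have hR1 := RR_le_one (g := g) hK y (n + 1) s
    have hKn := KK_nonneg (g := g) hx hK y (n + 1) s
    rcases le_or_gt δ' (PI G x p g y (n + 1) s) with hPI | hPI
    · have h1 : 1 ≤ PI G x p g y (n + 1) s / δ' := by rwa [le_div_iff₀ hδ', one_mul]
      have h2 := AcLam_LF_nonneg (g := g) hx hK y (n + 1) s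
      have h3 : 0 ≤ (2 * δ + δ') * RR G p g y (n + 1) s := mul_nonneg (by linarith) hR0
      nlinarith
    · have hgood : ∀ z ∈ sA G s, G.Adj y z → g n (step G s z) y →
          1 - 2 * δ - δ' - nu G x y (step G s z) ≤ nu G x y s := by
        intro z hz hyz hgz
        have hLB := LB (g := g) hx hK δ y hg (n + 1) s
        have hnn := nn_step (G := G) (x := x) y z s
        have hab := (abs_le.mp (hg n s z hz hyz hgz)).2
        have hPI' : PI G x p g y (n + 1) s = 2 * (1 - RR G p g y (n + 1) s) +
          CC G x p y (n + 1) s := rfl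
        have : δ * RR G p g y (n + 1) s ≤ δ := mul_le_of_le_one_right hδ hR1
        nlinarith
      have hsup := PI_super (g := g) (x := x) hK y n s
      have hsup' : (∑ z ∈ sA G s, p (n + 1) s z *
          (if G.Adj y z then 0 else PI G x p g y n (step G s z))) / δ' ≤
          PI G x p g y (n + 1) s / δ' := by gcongr
      have key : (1 - 2 * δ - δ') * RR G p g y (n + 1) s - KK G x p g y (n + 1) s -
          (∑ z ∈ sA G s, p (n + 1) s z *
            (if G.Adj y z then 0 else PI G x p g y n (step G s z))) / δ' ≤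
          LF G x p g y (n + 1) s := by
        rw [RR, KK, LF, Finset.mul_sum, Finset.sum_div, ← Finset.sum_sub_distrib,
          ← Finset.sum_sub_distrib]
        apply Finset.sum_le_sum
        intro z hz
        have h0 := hK.nonneg (n + 1) s z
        by_cases hyz : G.Adj y z
        · simp only [hyz, if_true, mul_zero, zero_div, sub_zero]
          by_cases hgz : g n (step G s z) y
          · simp only [hgz, if_true]
            have := mul_le_mul_of_nonneg_left (hgood z hz hyz hgz) h0
            nlinarith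
          · simp only [hgz, if_false]
            simp
        · simp only [hyz, if_false]
          have := mul_le_mul_of_nonneg_left (ih (step G s z)) h0
          have e : p (n + 1) s z * ((1 - 2 * δ - δ') * RR G p g y n (step G s z) -
              KK G x p g y n (step G s z) - PI G x p g y n (step G s z) / δ') =
            (1 - 2 * δ - δ') * (p (n + 1) s z * RR G p g y n (step G s z)) -
              p (n + 1) s z * KK G x p g y n (step G s z) -
              p (n + 1) s z * PI G x p g y n (step G s z) / δ' := by ring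
          rw [e] at this
          exact this
      linarith

end Pool.Agent.Icy
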