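import Pool.Agent.Icy.AcN
import Pool.Agent.Icy.AcLam

/-!
# AC, part 4 (K3): `TM_n s ≤ KM_n s + 2δ + δ' + (3/2 + 1/δ') PI_{n+1} s`

`TM + ∑_{z≁y} p LF_n ≤ ∑_{z≁y} p NF_n ≤ ∑_{z≁y} p (HH_n + CC_n) ≤ ∑_{z≁y} p + CC_{n+1} s`, and
`∑_{z≁y} p LF_n ≥ (1-2δ-δ') ∑_{z≁y} p RR_n - KM - PI_{n+1}/δ'` (`LF_ge`, `PI_super`).  So
`TM ≤ ∑_{z≁y} p (1 - RR_n) + (2δ+δ') ∑_{z≁y} p RR_n + CC_{n+1} + KM + PI/δ'`, with
`∑_{z≁y} p (1-RR_n) ≤ 1 - RR_{n+1} ≤ PI/2` (`RR_super`), `CC ≤ PI`, `∑_{z≁y} p RR_n ≤ 1`.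
-/

set_option autoImplicit false

open Finset
open scoped Classical

namespace Pool.Agent.Icy

variable {V : Type} {G : SimpleGraph V} {x : V → ℝ} {p : ℕ → St V → V → ℝ}
  {g : ℕ → St V → V → Prop}

theorem K3_sum_le (hK : Ker G p) (y : V) (n : ℕ) (s : St V) {f f' : St V → ℝ}
    (h : ∀ z, ¬ G.Adj y z → f (step G s z) ≤ f' (step G s z)) :
    ∑ z ∈ sA G s, p (n + 1) s z * (if G.Adj y z then 0 else f (step G s z)) ≤
      ∑ z ∈ sA G s, p (n + 1) s z * (if G.Adj y z then 0 else f' (step G s z)) := by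
  refine sum_le_sum fun z _ => mul_le_mul_of_nonneg_left ?_ (hK.nonneg _ _ _)
  by_cases hz : G.Adj y z
  · rw [if_pos hz, if_pos hz]
  · rw [if_neg hz, if_neg hz]
    exact h z hz

theorem K3 (hx : ∀ v, 0 ≤ x v) (hK : Ker G p) (δ δ' : ℝ) (hδ : 0 ≤ δ) (hδ' : 0 < δ') (y : V)
    (hg : ∀ (n : ℕ) (s : St V) (z : V), z ∈ sA G s → G.Adj y z → g n (step G s z) y →
      |nn G x y (step G s z) - 1| ≤ δ) (n : ℕ) (s : St V) :
    TM G x p g y n s ≤ KM G x p g y n s + 2 * δ + δ' +
      (3 / 2 + 1 / δ') * PI G x p g y (n + 1) s := by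
  -- pointwise bound
  have hpt : ∀ z, ¬ G.Adj y z → TF G x p g y n (step G s z) ≤
      (1 - RR G p g y n (step G s z)) + CC G x p y n (step G s z) +
        (2 * δ + δ') * RR G p g y n (step G s z) + KK G x p g y n (step G s z) +
        PI G x p g y n (step G s z) / δ' := by
    intro z _
    have h1 := LF_TF_le (g := g) hx hK y n (step G s z)
    have h2 := NF_le (x := x) hK y n (step G s z)
    have h3 := HH_le_one hK y n (step G s z)
    have h4 := LF_ge hx hK δ δ' hδ hδ' y hg n (step G s z)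
    linarith
  have h0 := K3_sum_le hK y n s
    (f := fun t => TF G x p g y n t)
    (f' := fun t => (1 - RR G p g y n t) + CC G x p y n t + (2 * δ + δ') * RR G p g y n t +
      KK G x p g y n t + PI G x p g y n t / δ') hpt
  have hsplit : ∑ z ∈ sA G s, p (n + 1) s z * (if G.Adj y z then 0 else
      (1 - RR G p g y n (step G s z)) + CC G x p y n (step G s z) +
        (2 * δ + δ') * RR G p g y n (step G s z) + KK G x p g y n (step G s z) +
        PI G x p g y n (step G s z) / δ') =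
      ∑ z ∈ sA G s, p (n + 1) s z * (if G.Adj y z then 0 else 1 - RR G p g y n (step G s z)) +
      ∑ z ∈ sA G s, p (n + 1) s z * (if G.Adj y z then 0 else CC G x p y n (step G s z)) +
      (2 * δ + δ') * (∑ z ∈ sA G s, p (n + 1) s z *
        (if G.Adj y z then 0 else RR G p g y n (step G s z))) +
      ∑ z ∈ sA G s, p (n + 1) s z * (if G.Adj y z then 0 else KK G x p g y n (step G s z)) +
      1 / δ' * (∑ z ∈ sA G s, p (n + 1) s z *
        (if G.Adj y z then 0 else PI G x p g y n (step G s z))) := by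
    rw [mul_sum, mul_sum, ← sum_add_distrib, ← sum_add_distrib, ← sum_add_distrib,
      ← sum_add_distrib]
    refine sum_congr rfl fun z _ => ?_
    split_ifs
    · ring
    · ring
  have e1 := RR_super (g := g) hK y n s
  have e2 : ∑ z ∈ sA G s, p (n + 1) s z * (if G.Adj y z then 0 else CC G x p y n (step G s z)) ≤
      CC G x p y (n + 1) s := by
    have : CC G x p y (n + 1) s = |nu G x y s - ∑ z ∈ sA G s, (if G.Adj y z then p (n + 1) s z
      else 0)| + ∑ z ∈ sA G s, p (n + 1) s z *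
        (if G.Adj y z then 0 else CC G x p y n (step G s z)) := rfl
    rw [this]
    have := abs_nonneg (nu G x y s - ∑ z ∈ sA G s, (if G.Adj y z then p (n + 1) s z else 0))
    linarith
  have e3 : ∑ z ∈ sA G s, p (n + 1) s z *
      (if G.Adj y z then 0 else RR G p g y n (step G s z)) ≤ 1 := by
    refine le_trans (sum_le_sum fun z _ => ?_) (hK.sum_le (n + 1) s)
    have h1 := hK.nonneg (n + 1) s z
    split_ifs
    · rw [mul_zero]; exact h1
    · have h2 := RR_le_one (g := g) hK y n (step G s z)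
      exact mul_le_of_le_one_right h1 h2
  have e4 := PI_super (x := x) (g := g) hK y n s
  have e5 : PI G x p g y (n + 1) s = 2 * (1 - RR G p g y (n + 1) s) + CC G x p y (n + 1) s := rfl
  have e6 := RR_le_one (g := g) hK y (n + 1) s
  have e7 := CC_nonneg (x := x) hK y (n + 1) s
  have e8 : TM G x p g y n s = ∑ z ∈ sA G s, p (n + 1) s z *
      (if G.Adj y z then 0 else TF G x p g y n (step G s z)) := rfl
  have e9 : KM G x p g y n s = ∑ z ∈ sA G s, p (n + 1) s z *
      (if G.Adj y z then 0 else KK G x p g y n (step G s z)) := rfl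
  rw [e8, e9]
  have h1 : (2 * δ + δ') * (∑ z ∈ sA G s, p (n + 1) s z *
        (if G.Adj y z then 0 else RR G p g y n (step G s z))) ≤ (2 * δ + δ') * 1 :=
    mul_le_mul_of_nonneg_left e3 (by linarith)
  have h2 : 1 / δ' * (∑ z ∈ sA G s, p (n + 1) s z *
        (if G.Adj y z then 0 else PI G x p g y n (step G s z))) ≤
      1 / δ' * PI G x p g y (n + 1) s :=
    mul_le_mul_of_nonneg_left e4 (by positivity)
  have h3 : (3 / 2 + 1 / δ') * PI G x p g y (n + 1) s =
      3 / 2 * PI G x p g y (n + 1) s + 1 / δ' * PI G x p g y (n + 1) s := by ring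
  rw [h3]
  have h4 := h0.trans (le_of_eq hsplit)
  beta_reduce at h4
  linarith

end Pool.Agent.Icy
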