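import Pool.Agent.Icy.AcDefs

/-!
# AC, part 1: bounds and the lower bound LB

LB: by induction on `n`.  `nn y s = wt (nbin (step s z).U y) = nu y (step s z) + nn y (step s z)`
for every `z` (`(step s z).U = up s`, split by adjacency to `z`).  So, as `∑ p ≤ 1` and `nn ≥ 0`,
`nn y s ≥ ∑_z p nn y s = ∑_{z~y} p (nu+nn)(s_z) + ∑_{z≁y} p (nu+nn)(s_z)
  ≥ ∑_{z~y, good} p (nu(s_z) + 1 - δ) + ∑_{z≁y} p ((2-δ) RR_n + KK_n - CC_n)(s_z)`,
and `nu y s ≥ ∑_{z~y} p - |..| ≥ ∑_{z~y,good} p - |..|`. Add.
PI is a supermartingale: `1 - RR_{n+1} s ≥ ∑_{z≁y} p (1 - RR_n (s_z))` as `∑ p ≤ 1`.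
-/

set_option autoImplicit false

open Finset
open scoped Classical

namespace Pool.Agent.Icy

variable {V : Type} {G : SimpleGraph V} {x : V → ℝ} {p : ℕ → St V → V → ℝ}
  {g : ℕ → St V → V → Prop}

theorem AcLB_wt_nonneg (hx : ∀ v, 0 ≤ x v) (S : Finset V) : 0 ≤ wt x S :=
  Finset.sum_nonneg (fun v _ => hx v)

theorem RR_nonneg (hK : Ker G p) (y : V) (n : ℕ) (s : St V) : 0 ≤ RR G p g y n s := by
  induction n generalizing s with
  | zero => exact le_rfl
  | succ n ih =>
    rw [RR]
    refine Finset.sum_nonneg (fun z _ => mul_nonneg (hK.nonneg _ _ _) ?_)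
    split_ifs
    · exact zero_le_one
    · exact le_rfl
    · exact ih _

theorem RR_le_one (hK : Ker G p) (y : V) (n : ℕ) (s : St V) : RR G p g y n s ≤ 1 := by
  induction n generalizing s with
  | zero => exact zero_le_one
  | succ n ih =>
    rw [RR]
    refine le_trans (Finset.sum_le_sum (fun z _ => ?_)) (hK.sum_le (n + 1) s)
    refine mul_le_of_le_one_right (hK.nonneg _ _ _) ?_
    split_ifs
    · exact le_rfl
    · exact zero_le_one
    · exact ih _

theorem CC_nonneg (hK : Ker G p) (y : V) (n : ℕ) (s : St V) : 0 ≤ CC G x p y n s := by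
  induction n generalizing s with
  | zero => exact le_rfl
  | succ n ih =>
    rw [CC]
    refine add_nonneg (abs_nonneg _) (Finset.sum_nonneg (fun z _ => mul_nonneg (hK.nonneg _ _ _) ?_))
    split_ifs
    · exact le_rfl
    · exact ih _

theorem PI_nonneg (hK : Ker G p) (y : V) (n : ℕ) (s : St V) : 0 ≤ PI G x p g y n s := by
  unfold PI
  have h1 := RR_le_one (g := g) hK y n s
  have h2 := CC_nonneg (x := x) hK y n s
  linarith

theorem AcLB_nu_nonneg (hx : ∀ v, 0 ≤ x v) (y : V) (s : St V) : 0 ≤ nu G x y s :=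
  AcLB_wt_nonneg hx _

theorem AcLB_nn_nonneg (hx : ∀ v, 0 ≤ x v) (y : V) (s : St V) : 0 ≤ nn G x y s :=
  AcLB_wt_nonneg hx _

theorem KK_nonneg (hx : ∀ v, 0 ≤ x v) (hK : Ker G p) (y : V) (n : ℕ) (s : St V) :
    0 ≤ KK G x p g y n s := by
  induction n generalizing s with
  | zero => exact le_rfl
  | succ n ih =>
    rw [KK]
    refine Finset.sum_nonneg (fun z _ => mul_nonneg (hK.nonneg _ _ _) ?_)
    split_ifs
    · exact AcLB_nu_nonneg hx _ _
    · exact le_rfl
    · exact ih _

/-- part of the unrevealed defect -/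
theorem AcLB_RR_super (hK : Ker G p) (y : V) (n : ℕ) (s : St V) :
    ∑ z ∈ sA G s, p (n + 1) s z * (if G.Adj y z then 0 else 1 - RR G p g y n (step G s z)) ≤
      1 - RR G p g y (n + 1) s := by
  have h1 : ∑ z ∈ sA G s, p (n + 1) s z *
      (if G.Adj y z then 0 else 1 - RR G p g y n (step G s z)) + RR G p g y (n + 1) s ≤ 1 := by
    rw [RR, ← Finset.sum_add_distrib]
    refine le_trans (Finset.sum_le_sum (fun z _ => ?_)) (hK.sum_le (n + 1) s)
    rw [← mul_add]
    refine mul_le_of_le_one_right (hK.nonneg _ _ _) ?_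
    split_ifs <;> linarith
  linarith

theorem PI_super (hK : Ker G p) (y : V) (n : ℕ) (s : St V) :
    ∑ z ∈ sA G s, p (n + 1) s z * (if G.Adj y z then 0 else PI G x p g y n (step G s z)) ≤
      PI G x p g y (n + 1) s := by
  have h1 := AcLB_RR_super (g := g) hK y n s
  have h2 : ∑ z ∈ sA G s, p (n + 1) s z * (if G.Adj y z then 0 else PI G x p g y n (step G s z)) =
      2 * ∑ z ∈ sA G s, p (n + 1) s z * (if G.Adj y z then 0 else 1 - RR G p g y n (step G s z)) +
      ∑ z ∈ sA G s, p (n + 1) s z * (if G.Adj y z then 0 else CC G x p y n (step G s z)) := by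
    rw [Finset.mul_sum, ← Finset.sum_add_distrib]
    refine Finset.sum_congr rfl (fun z _ => ?_)
    unfold PI
    split_ifs <;> ring
  have h3 : ∑ z ∈ sA G s, p (n + 1) s z * (if G.Adj y z then 0 else CC G x p y n (step G s z)) ≤
      CC G x p y (n + 1) s := by
    rw [CC]
    have := abs_nonneg (nu G x y s - ∑ z ∈ sA G s, (if G.Adj y z then p (n + 1) s z else 0))
    linarith
  rw [h2]
  unfold PI
  linarith

/-- part of the unrevealed defect -/
theorem RR_super (hK : Ker G p) (y : V) (n : ℕ) (s : St V) :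
    ∑ z ∈ sA G s, p (n + 1) s z * (if G.Adj y z then 0 else 1 - RR G p g y n (step G s z)) ≤
      1 - RR G p g y (n + 1) s := AcLB_RR_super hK y n s

theorem nn_step (y z : V) (s : St V) :
    nn G x y s = nu G x y (step G s z) + nn G x y (step G s z) := by
  unfold nn nu nbin wt
  have h1 : (sN G (step G s z)).filter (fun u => G.Adj y u) =
      ((up G s).filter (fun u => G.Adj y u)).filter (fun u => G.Adj z u) := by
    unfold sN step
    rw [Finset.filter_filter, Finset.filter_filter]
    refine Finset.filter_congr (fun u _ => ?_)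
    exact and_comm
  have h2 : (up G (step G s z)).filter (fun u => G.Adj y u) =
      ((up G s).filter (fun u => G.Adj y u)).filter (fun u => ¬ G.Adj z u) := by
    rw [show up G (step G s z) = (up G s).filter (fun u => ¬ G.Adj z u) from rfl]
    rw [Finset.filter_filter, Finset.filter_filter]
    refine Finset.filter_congr (fun u _ => ?_)
    exact and_comm
  rw [h1, h2]
  exact (Finset.sum_filter_add_sum_filter_not _ _ _).symm

theorem LB (hx : ∀ v, 0 ≤ x v) (hK : Ker G p) (δ : ℝ) (y : V)
    (hg : ∀ (n : ℕ) (s : St V) (z : V), z ∈ sA G s → G.Adj y z → g n (step G s z) y →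
      |nn G x y (step G s z) - 1| ≤ δ) (n : ℕ) (s : St V) :
    (2 - δ) * RR G p g y n s + KK G x p g y n s - CC G x p y n s ≤ nu G x y s + nn G x y s := by
  induction n generalizing s with
  | zero =>
    rw [RR, KK, CC]
    have h1 := AcLB_nu_nonneg (G := G) hx y s
    have h2 := AcLB_nn_nonneg (G := G) hx y s
    linarith
  | succ n ih =>
    rw [RR, KK, CC]
    have h2 := AcLB_nn_nonneg (G := G) hx y s
    have h3 : ∑ z ∈ sA G s, p (n + 1) s z * (nu G x y (step G s z) + nn G x y (step G s z)) ≤
        nn G x y s := by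
      have : ∑ z ∈ sA G s, p (n + 1) s z * (nu G x y (step G s z) + nn G x y (step G s z)) =
          (∑ z ∈ sA G s, p (n + 1) s z) * nn G x y s := by
        rw [Finset.sum_mul]
        exact Finset.sum_congr rfl (fun z _ => by rw [← nn_step])
      rw [this]
      exact mul_le_of_le_one_left h2 (hK.sum_le (n + 1) s)
    have h4 := neg_abs_le (nu G x y s - ∑ z ∈ sA G s, (if G.Adj y z then p (n + 1) s z else 0))
    have h5 : (2 - δ) * ∑ z ∈ sA G s, p (n + 1) s z *
          (if G.Adj y z then (if g n (step G s z) y then 1 else 0) else RR G p g y n (step G s z)) +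
        ∑ z ∈ sA G s, p (n + 1) s z *
          (if G.Adj y z then (if g n (step G s z) y then nu G x y (step G s z) else 0)
            else KK G x p g y n (step G s z)) -
        ∑ z ∈ sA G s, p (n + 1) s z * (if G.Adj y z then 0 else CC G x p y n (step G s z)) ≤
        ∑ z ∈ sA G s, (if G.Adj y z then p (n + 1) s z else 0) +
        ∑ z ∈ sA G s, p (n + 1) s z * (nu G x y (step G s z) + nn G x y (step G s z)) := by
      rw [Finset.mul_sum, ← Finset.sum_add_distrib, ← Finset.sum_add_distrib,
        ← Finset.sum_sub_distrib]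
      refine Finset.sum_le_sum (fun z hz => ?_)
      have hP := hK.nonneg (n + 1) s z
      have hu := AcLB_nu_nonneg (G := G) hx y (step G s z)
      have hn := AcLB_nn_nonneg (G := G) hx y (step G s z)
      by_cases ha : G.Adj y z
      · rw [if_pos ha, if_pos ha, if_pos ha, if_pos ha]
        by_cases hgz : g n (step G s z) y
        · rw [if_pos hgz, if_pos hgz]
          have h6 := (abs_le.1 (hg n s z hz ha hgz)).1
          have h7 : 0 ≤ p (n + 1) s z * (nn G x y (step G s z) - (1 - δ)) :=
            mul_nonneg hP (by linarith)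
          nlinarith
        · rw [if_neg hgz, if_neg hgz]
          have h7 : 0 ≤ p (n + 1) s z * (nu G x y (step G s z) + nn G x y (step G s z)) :=
            mul_nonneg hP (by linarith)
          linarith
      · rw [if_neg ha, if_neg ha, if_neg ha, if_neg ha]
        have h6 := mul_le_mul_of_nonneg_left (ih (step G s z)) hP
        linarith
    linarith

end Pool.Agent.Icy
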