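import Pool.Agent.Icy.AcLB

/-!
# AC, part 2: `NF ≤ HH + CC`, `HH ≤ 1`, `LF + TF ≤ NF`

All by induction on `n` with the recursions:
`NF_{n+1} = nu + ∑_{z≁y} p NF_n ≤ ∑_{z~y} p + |nu - ∑_{z~y} p| + ∑_{z≁y} p (HH_n + CC_n)`;
`LF_{n+1} + TF_{n+1} = nu * ∑_{z~y, good} p + ∑_{z≁y} p (LF_n + TF_n) + nu ∑_{z≁y} p RR_n
  = nu * RR_{n+1} + ∑_{z≁y} p (LF_n + TF_n) ≤ nu + ∑_{z≁y} p NF_n` (`RR ≤ 1`, `nu ≥ 0`).
-/

set_option autoImplicit false

open Finset
open scoped Classical

namespace Pool.Agent.Icy

variable {V : Type} {G : SimpleGraph V} {x : V → ℝ} {p : ℕ → St V → V → ℝ}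
  {g : ℕ → St V → V → Prop}

theorem AcN_wt_nonneg (hx : ∀ v, 0 ≤ x v) (S : Finset V) : 0 ≤ wt x S :=
  Finset.sum_nonneg fun v _ => hx v

theorem HH_nonneg (hK : Ker G p) (y : V) (n : ℕ) (s : St V) : 0 ≤ HH G p y n s := by
  induction n generalizing s with
  | zero => simp [HH]
  | succ n ih =>
    rw [HH]
    apply Finset.sum_nonneg
    intro z _
    apply mul_nonneg (hK.nonneg _ _ _)
    split_ifs
    · exact zero_le_one
    · exact ih _

theorem HH_le_one (hK : Ker G p) (y : V) (n : ℕ) (s : St V) : HH G p y n s ≤ 1 := by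
  induction n generalizing s with
  | zero => simp [HH]
  | succ n ih =>
    rw [HH]
    refine le_trans ?_ (hK.sum_le (n + 1) s)
    apply Finset.sum_le_sum
    intro z _
    have h0 := hK.nonneg (n + 1) s z
    have : (if G.Adj y z then (1 : ℝ) else HH G p y n (step G s z)) ≤ 1 := by
      split_ifs
      · exact le_rfl
      · exact ih _
    nlinarith

theorem RR_le_HH (hK : Ker G p) (y : V) (n : ℕ) (s : St V) : RR G p g y n s ≤ HH G p y n s := by
  induction n generalizing s with
  | zero => simp [HH, RR]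
  | succ n ih =>
    rw [HH, RR]
    apply Finset.sum_le_sum
    intro z _
    apply mul_le_mul_of_nonneg_left _ (hK.nonneg _ _ _)
    split_ifs
    · exact le_rfl
    · exact zero_le_one
    · exact ih _

theorem NF_le (hK : Ker G p) (y : V) (n : ℕ) (s : St V) :
    NF G x p y n s ≤ HH G p y n s + CC G x p y n s := by
  induction n generalizing s with
  | zero => simp [HH, CC, NF]
  | succ n ih =>
    rw [HH, CC, NF]
    have h1 : nu G x y s ≤ |nu G x y s - ∑ z ∈ sA G s, (if G.Adj y z then p (n + 1) s z else 0)| +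
        ∑ z ∈ sA G s, (if G.Adj y z then p (n + 1) s z else 0) := by
      have := le_abs_self (nu G x y s - ∑ z ∈ sA G s, (if G.Adj y z then p (n + 1) s z else 0))
      linarith
    have h2 : ∑ z ∈ sA G s, (if G.Adj y z then p (n + 1) s z else 0) +
        ∑ z ∈ sA G s, p (n + 1) s z * (if G.Adj y z then 0 else NF G x p y n (step G s z)) ≤
        ∑ z ∈ sA G s, p (n + 1) s z * (if G.Adj y z then 1 else HH G p y n (step G s z)) +
        ∑ z ∈ sA G s, p (n + 1) s z * (if G.Adj y z then 0 else CC G x p y n (step G s z)) := by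
      rw [← Finset.sum_add_distrib, ← Finset.sum_add_distrib]
      apply Finset.sum_le_sum
      intro z _
      by_cases hz : G.Adj y z
      · simp [hz]
      · simp only [hz, if_false, zero_add]
        rw [← mul_add]
        exact mul_le_mul_of_nonneg_left (ih _) (hK.nonneg _ _ _)
    linarith

theorem LF_TF_le (hx : ∀ v, 0 ≤ x v) (hK : Ker G p) (y : V) (n : ℕ) (s : St V) :
    LF G x p g y n s + TF G x p g y n s ≤ NF G x p y n s := by
  induction n generalizing s with
  | zero => simp [LF, TF, NF]
  | succ n ih =>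
    rw [LF, TF, NF]
    have hnu : 0 ≤ nu G x y s := AcN_wt_nonneg hx _
    have h1 : (∑ z ∈ sA G s, p (n + 1) s z) * nu G x y s ≤ nu G x y s :=
      mul_le_of_le_one_left hnu (hK.sum_le (n + 1) s)
    have h2 : ∑ z ∈ sA G s, p (n + 1) s z *
          (if G.Adj y z then (if g n (step G s z) y then nu G x y s else 0)
            else LF G x p g y n (step G s z)) +
        ∑ z ∈ sA G s, p (n + 1) s z *
          (if G.Adj y z then 0 else nu G x y s * RR G p g y n (step G s z) +
            TF G x p g y n (step G s z)) ≤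
        (∑ z ∈ sA G s, p (n + 1) s z) * nu G x y s +
        ∑ z ∈ sA G s, p (n + 1) s z * (if G.Adj y z then 0 else NF G x p y n (step G s z)) := by
      rw [Finset.sum_mul, ← Finset.sum_add_distrib, ← Finset.sum_add_distrib]
      apply Finset.sum_le_sum
      intro z _
      have h0 := hK.nonneg (n + 1) s z
      by_cases hz : G.Adj y z
      · simp only [hz, if_true, mul_zero, add_zero]
        apply mul_le_mul_of_nonneg_left _ h0
        split_ifs
        · exact le_rfl
        · exact hnu
      · simp only [hz, if_false]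
        rw [← mul_add, ← mul_add]
        apply mul_le_mul_of_nonneg_left _ h0
        have h3 := ih (step G s z)
        have h4 := RR_le_one (g := g) hK y n (step G s z)
        nlinarith
    linarith

theorem TF_nonneg (hx : ∀ v, 0 ≤ x v) (hK : Ker G p) (y : V) (n : ℕ) (s : St V) :
    0 ≤ TF G x p g y n s := by
  induction n generalizing s with
  | zero => simp [TF]
  | succ n ih =>
    rw [TF]
    apply Finset.sum_nonneg
    intro z _
    apply mul_nonneg (hK.nonneg _ _ _)
    split_ifs
    · exact le_rfl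
    · exact add_nonneg (mul_nonneg (AcN_wt_nonneg hx _) (RR_nonneg hK y n _)) (ih _)

theorem LF_nonneg (hx : ∀ v, 0 ≤ x v) (hK : Ker G p) (y : V) (n : ℕ) (s : St V) :
    0 ≤ LF G x p g y n s := by
  induction n generalizing s with
  | zero => simp [LF]
  | succ n ih =>
    rw [LF]
    apply Finset.sum_nonneg
    intro z _
    apply mul_nonneg (hK.nonneg _ _ _)
    split_ifs
    · exact AcN_wt_nonneg hx _
    · exact le_rfl
    · exact ih _

end Pool.Agent.Icy
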