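import Pool.Agent.Icy.L1

/-!
# Budgets for `sB` and for bad sizes

The sets `sB (st v p)`, `3 ≤ p ≤ k-2`, are disjoint subsets of `nb (v 0)`.
`badP` by Markov's inequality: `|wt sN - 1| ≤ |wt sA - 1| + wt sB`.
-/

set_option autoImplicit false

open Finset
open scoped Classical

namespace Pool.Agent.Icy

variable {V : Type} [Fintype V] {G : SimpleGraph V} {k : ℕ} [NeZero k] {x : V → ℝ}

noncomputable def bb (G : SimpleGraph V) (k : ℕ) [NeZero k] (x : V → ℝ) (p : ℕ) : ℝ :=
  EE G k x (fun v => wt x (sB G (st G v p)))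

noncomputable def badP (G : SimpleGraph V) (k : ℕ) [NeZero k] (x : V → ℝ) (δ : ℝ) (p : ℕ) : ℝ :=
  EE G k x (fun v => if δ < |wt x (sN G (st G v p)) - 1| then 1 else 0)

theorem bb_nonneg (hx : ∀ v, 0 ≤ x v) (p : ℕ) : 0 ≤ bb G k x p := by
  unfold bb
  refine EE_nonneg hx fun v _ => ?_
  exact Finset.sum_nonneg fun u _ => hx u

theorem bb_sum (hk : 7 ≤ k) (h : Opt G k x) : ∑ p ∈ Icc 3 (k - 2), bb G k x p ≤ 6 := by
  have hx : ∀ v, 0 ≤ x v := fun v => (h.pos v).le
  unfold bb
  rw [← EE_sum (G := G) (k := k) (x := x) (Icc 3 (k - 2)) (fun p v => wt x (sB G (st G v p)))]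
  have hc : EE G k x (fun _ => (6 : ℝ)) = 6 := EE_const (ne_of_gt h.NN_pos) 6
  rw [← hc]
  refine EE_mono hx fun v _ => ?_
  have hdis : Set.PairwiseDisjoint (↑(Icc 3 (k - 2)) : Set ℕ) (fun p => sB G (st G v p)) := by
    have key : ∀ p q : ℕ, 3 ≤ p → p < q → Disjoint (sB G (st G v p)) (sB G (st G v q)) := by
      intro p q hp hpq
      refine Finset.disjoint_left.2 fun u hu hu2 => ?_
      rw [mem_sB_st v (by omega)] at hu hu2
      exact hu2.2.2 (p - 1) (by omega) (by omega) hu.1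
    intro p hp q hq hpq
    rw [Finset.mem_coe, Finset.mem_Icc] at hp hq
    rcases lt_or_gt_of_ne hpq with h1 | h1
    · exact key p q hp.1 h1
    · exact (key q p hq.1 h1).symm
  have e : ∑ p ∈ Icc 3 (k - 2), wt x (sB G (st G v p)) =
      wt x ((Icc 3 (k - 2)).biUnion (fun p => sB G (st G v p))) := by
    unfold wt
    rw [Finset.sum_biUnion hdis]
  rw [e]
  refine o3_sub (by omega) h (v 0) _ ?_
  intro u hu
  rw [Finset.mem_biUnion] at hu
  obtain ⟨p, hp, hu⟩ := hu
  rw [Finset.mem_Icc] at hp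
  rw [mem_sB_st v (by omega)] at hu
  exact hu.2.1

theorem badP_le (hk : 7 ≤ k) (h : Opt G k x) {δ : ℝ} (hδ : 0 < δ) {p : ℕ} (hp : 2 ≤ p)
    (hpk : p + 2 ≤ k) : badP G k x δ p ≤ (ee G k x p + bb G k x p) / δ := by
  have hx : ∀ v, 0 ≤ x v := fun v => (h.pos v).le
  have h1 : badP G k x δ p ≤ EE G k x (fun v => (1 / δ) *
      (|wt x (sA G (st G v p)) - 1| + wt x (sB G (st G v p)))) := by
    unfold badP
    refine EE_mono hx fun v _ => ?_
    have e := wt_sN (G := G) (x := x) (st G v p)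
    have hB : 0 ≤ wt x (sB G (st G v p)) := Finset.sum_nonneg fun u _ => hx u
    have ht : |wt x (sN G (st G v p)) - 1| ≤
        |wt x (sA G (st G v p)) - 1| + wt x (sB G (st G v p)) := by
      rw [e]
      have : wt x (sA G (st G v p)) + wt x (sB G (st G v p)) - 1 =
        (wt x (sA G (st G v p)) - 1) + wt x (sB G (st G v p)) := by ring
      rw [this]
      refine (abs_add_le _ _).trans ?_
      rw [abs_of_nonneg hB]
    by_cases hb : δ < |wt x (sN G (st G v p)) - 1|
    · simp only [hb, if_true]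
      rw [one_div, inv_mul_eq_div, le_div_iff₀ hδ]
      linarith
    · simp only [hb, if_false]
      have h0 : 0 ≤ |wt x (sA G (st G v p)) - 1| := abs_nonneg _
      positivity
  rw [EE_mul, EE_add] at h1
  have h2 := sA_dev hk h hp hpk
  have h3 : (1 / δ) * (EE G k x (fun v => |wt x (sA G (st G v p)) - 1|) +
      EE G k x (fun v => wt x (sB G (st G v p)))) ≤ (1 / δ) * (ee G k x p + bb G k x p) := by
    refine mul_le_mul_of_nonneg_left ?_ (by positivity)
    unfold bb
    linarith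
  calc badP G k x δ p ≤ _ := h1
    _ ≤ _ := h3
    _ = _ := by rw [one_div, inv_mul_eq_div]

end Pool.Agent.Icy
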