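import Pool.Agent.Icy.Defs

/-!
# Basic properties of `EE`
-/

set_option autoImplicit false

open Finset
open scoped Classical

namespace Pool.Agent.Icy

variable {V : Type} [Fintype V] {G : SimpleGraph V} {k : ℕ} [NeZero k] {x : V → ℝ}

theorem cw_nonneg (hx : ∀ v, 0 ≤ x v) (v : ZMod k → V) : 0 ≤ cw x v :=
  Finset.prod_nonneg fun i _ => hx (v i)

theorem cw_pos (hx : ∀ v, 0 < x v) (v : ZMod k → V) : 0 < cw x v :=
  Finset.prod_pos fun i _ => hx (v i)

theorem NN_nonneg (hx : ∀ v, 0 ≤ x v) : 0 ≤ NN G k x :=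
  Finset.sum_nonneg fun v _ => cw_nonneg hx v

theorem EE_mono (hx : ∀ v, 0 ≤ x v) {f g : (ZMod k → V) → ℝ} (h : ∀ v ∈ cyc G k, f v ≤ g v) :
    EE G k x f ≤ EE G k x g := by
  unfold EE
  apply div_le_div_of_nonneg_right _ (NN_nonneg hx)
  exact Finset.sum_le_sum fun v hv => mul_le_mul_of_nonneg_left (h v hv) (cw_nonneg hx v)

theorem EE_congr {f g : (ZMod k → V) → ℝ} (h : ∀ v ∈ cyc G k, f v = g v) :
    EE G k x f = EE G k x g := by
  unfold EE
  congr 1
  exact Finset.sum_congr rfl fun v hv => by rw [h v hv]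

theorem EE_nonneg (hx : ∀ v, 0 ≤ x v) {f : (ZMod k → V) → ℝ} (h : ∀ v ∈ cyc G k, 0 ≤ f v) :
    0 ≤ EE G k x f := by
  unfold EE
  exact div_nonneg (Finset.sum_nonneg fun v hv => mul_nonneg (cw_nonneg hx v) (h v hv))
    (NN_nonneg hx)

theorem EE_add (f g : (ZMod k → V) → ℝ) :
    EE G k x (fun v => f v + g v) = EE G k x f + EE G k x g := by
  unfold EE
  rw [← add_div, ← Finset.sum_add_distrib]
  congr 1
  exact Finset.sum_congr rfl fun v _ => by ring

theorem EE_sub (f g : (ZMod k → V) → ℝ) :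
    EE G k x (fun v => f v - g v) = EE G k x f - EE G k x g := by
  unfold EE
  rw [← sub_div, ← Finset.sum_sub_distrib]
  congr 1
  exact Finset.sum_congr rfl fun v _ => by ring

theorem EE_mul (c : ℝ) (f : (ZMod k → V) → ℝ) :
    EE G k x (fun v => c * f v) = c * EE G k x f := by
  unfold EE
  rw [← mul_div_assoc, Finset.mul_sum]
  congr 1
  exact Finset.sum_congr rfl fun v _ => by ring

theorem EE_sum {ι : Type} (S : Finset ι) (f : ι → (ZMod k → V) → ℝ) :
    EE G k x (fun v => ∑ i ∈ S, f i v) = ∑ i ∈ S, EE G k x (f i) := by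
  unfold EE
  rw [← Finset.sum_div]
  congr 1
  rw [Finset.sum_comm]
  exact Finset.sum_congr rfl fun v _ => by rw [Finset.mul_sum]

theorem EE_const (h : NN G k x ≠ 0) (c : ℝ) : EE G k x (fun _ => c) = c := by
  unfold EE
  rw [← Finset.sum_mul]
  change NN G k x * c / NN G k x = c
  field_simp

/-- a random variable is somewhere at most its expectation -/
theorem exists_le_EE (hx : ∀ v, 0 ≤ x v) (h : 0 < NN G k x) (f : (ZMod k → V) → ℝ) :
    ∃ v ∈ cyc G k, f v ≤ EE G k x f := by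
  by_contra hcon
  push Not at hcon
  obtain ⟨v, hv, hpos⟩ : ∃ v ∈ cyc G k, 0 < cw x v := by
    by_contra hno
    push Not at hno
    have : NN G k x ≤ 0 := Finset.sum_nonpos hno
    linarith
  have h1 : ∑ v ∈ cyc G k, cw x v * EE G k x f < ∑ v ∈ cyc G k, cw x v * f v := by
    apply Finset.sum_lt_sum
    · intro u hu
      exact mul_le_mul_of_nonneg_left (hcon u hu).le (cw_nonneg hx u)
    · exact ⟨v, hv, mul_lt_mul_of_pos_left (hcon v hv) hpos⟩
  rw [← Finset.sum_mul] at h1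
  have h2 : EE G k x f < (∑ v ∈ cyc G k, cw x v * f v) / NN G k x := by
    rw [lt_div_iff₀ h, mul_comm]
    exact h1
  exact lt_irrefl _ h2

/-- Cauchy-Schwarz -/
theorem EE_cs (hx : ∀ v, 0 ≤ x v) (f g : (ZMod k → V) → ℝ) :
    EE G k x (fun v => f v * g v) ^ 2 ≤ EE G k x (fun v => f v ^ 2) * EE G k x (fun v => g v ^ 2) := by
  unfold EE
  rw [div_pow, div_mul_div_comm, ← sq]
  apply div_le_div_of_nonneg_right _ (sq_nonneg _)
  apply Finset.sum_sq_le_sum_mul_sum_of_sq_eq_mul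
  · intro v _
    exact mul_nonneg (cw_nonneg hx v) (sq_nonneg _)
  · intro v _
    exact mul_nonneg (cw_nonneg hx v) (sq_nonneg _)
  · intro v _
    ring

/-- Cauchy-Schwarz with an inner sum -/
theorem EE_cs_sum (hx : ∀ v, 0 ≤ x v) {ι : Type} (S : (ZMod k → V) → Finset ι)
    (c f g : (ZMod k → V) → ι → ℝ) (hc : ∀ v, ∀ i ∈ S v, 0 ≤ c v i) :
    EE G k x (fun v => ∑ i ∈ S v, c v i * (f v i * g v i)) ^ 2 ≤
      EE G k x (fun v => ∑ i ∈ S v, c v i * f v i ^ 2) *
        EE G k x (fun v => ∑ i ∈ S v, c v i * g v i ^ 2) := by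
  unfold EE
  rw [div_pow, div_mul_div_comm, ← sq]
  apply div_le_div_of_nonneg_right _ (sq_nonneg _)
  have e : ∀ h : (ZMod k → V) → ι → ℝ, ∑ v ∈ cyc G k, cw x v * ∑ i ∈ S v, c v i * h v i =
      ∑ p ∈ (cyc G k).sigma S, cw x p.1 * (c p.1 p.2 * h p.1 p.2) := by
    intro h
    rw [Finset.sum_sigma]
    exact Finset.sum_congr rfl fun v _ => by rw [Finset.mul_sum]
  rw [e (fun v i => f v i * g v i), e (fun v i => f v i ^ 2), e (fun v i => g v i ^ 2)]
  apply Finset.sum_sq_le_sum_mul_sum_of_sq_eq_mul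
  · intro p hp
    rw [Finset.mem_sigma] at hp
    exact mul_nonneg (cw_nonneg hx _) (mul_nonneg (hc _ _ hp.2) (sq_nonneg _))
  · intro p hp
    rw [Finset.mem_sigma] at hp
    exact mul_nonneg (cw_nonneg hx _) (mul_nonneg (hc _ _ hp.2) (sq_nonneg _))
  · intro p _
    ring

theorem Opt.NN_pos (h : Opt G k x) : 0 < NN G k x := by
  have h1 := h.one
  have h2 : 0 < (k : ℝ) := Nat.cast_pos.mpr (Nat.pos_of_ne_zero (NeZero.ne k))
  linarith

end Pool.Agent.Icy
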