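import Pool.Agent.Icy.Defs

/-!
# Basic facts on induced cycles and their prefixes

Injectivity: if `v i = v j`, `i ≠ j`, then `v j ~ v (i+1)` gives `i+1 = j±1`, so `j = i+2` and
symmetrically with `i - 1`: `j = i - 2`, so `4 = 0` in `ZMod k`, false for `k ≥ 5`.
-/

set_option autoImplicit false
set_option linter.unusedSectionVars false
set_option linter.unusedVariables false

open Finset
open scoped Classical

namespace Pool.Agent.Icy

variable {V : Type} [Fintype V] {G : SimpleGraph V} {k : ℕ} [NeZero k] {x : V → ℝ}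

theorem CycBasic_four (hk : 5 ≤ k) : (4 : ZMod k) ≠ 0 := by
  intro h
  have h1 : ((4 : ℕ) : ZMod k) = 0 := by exact_mod_cast h
  rw [ZMod.natCast_eq_zero_iff] at h1
  have := Nat.le_of_dvd (by norm_num) h1
  omega

theorem cyc_inj (hk : 5 ≤ k) {v : ZMod k → V} (hv : IsCyc G k v) : Function.Injective v := by
  intro i j hij
  by_contra hne
  have h1 : G.Adj (v j) (v (i + 1)) := by
    rw [← hij]
    exact (hv i (i + 1)).2 (Or.inl rfl)
  have h2 : G.Adj (v i) (v (j + 1)) := by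
    rw [hij]
    exact (hv j (j + 1)).2 (Or.inl rfl)
  have h3 : j = i + 1 + 1 := by
    rcases (hv j (i + 1)).1 h1 with h | h
    · exact absurd (add_right_cancel h) hne
    · exact h
  have h4 : i = j + 1 + 1 := by
    rcases (hv i (j + 1)).1 h2 with h | h
    · exact absurd (add_right_cancel h).symm hne
    · exact h
  apply CycBasic_four (k := k) hk
  have h5 : i = i + 4 := by
    calc i = j + 1 + 1 := h4
      _ = i + 1 + 1 + 1 + 1 := by rw [h3]
      _ = i + 4 := by ring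
  have h6 := h5.symm
  rwa [add_eq_left] at h6

theorem st_two (v : ZMod k → V) : st G v 2 = ⟨v 0, v 1, univ⟩ := by
  unfold st
  have h1 : (((2 - 1 : ℕ)) : ZMod k) = 1 := by norm_num
  rw [h1]
  congr 1
  rw [Finset.filter_true_of_mem]
  intro u _ i hi hi2
  omega

theorem st_succ (v : ZMod k → V) {p : ℕ} (hp : 2 ≤ p) :
    st G v (p + 1) = step G (st G v p) (v (p : ZMod k)) := by
  unfold st step up
  simp only
  congr 1
  ext u
  simp only [Finset.mem_filter, Finset.mem_univ, true_and]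
  constructor
  · intro h
    refine ⟨fun i hi hi2 => h i hi (by omega), h (p - 1) (by omega) (by omega)⟩
  · rintro ⟨h1, h2⟩ i hi hi2
    by_cases h : i = p - 1
    · rw [h]; exact h2
    · exact h1 i hi (by omega)

theorem CycBasic_mem_U (v : ZMod k → V) (p : ℕ) (u : V) :
    u ∈ (st G v p).U ↔ ∀ i : ℕ, 1 ≤ i → i + 1 < p → ¬ G.Adj (v (i : ZMod k)) u := by
  simp [st]

theorem mem_sN_st (v : ZMod k → V) {p : ℕ} (hp : 2 ≤ p) (u : V) :
    u ∈ sN G (st G v p) ↔ G.Adj (v ((p - 1 : ℕ) : ZMod k)) u ∧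
      ∀ i : ℕ, 1 ≤ i → i + 1 < p → ¬ G.Adj (v (i : ZMod k)) u := by
  unfold sN
  rw [Finset.mem_filter, CycBasic_mem_U]
  exact and_comm

theorem mem_sA_st (v : ZMod k → V) {p : ℕ} (hp : 2 ≤ p) (u : V) :
    u ∈ sA G (st G v p) ↔ G.Adj (v ((p - 1 : ℕ) : ZMod k)) u ∧
      ∀ i : ℕ, i + 1 < p → ¬ G.Adj (v (i : ZMod k)) u := by
  unfold sA
  rw [Finset.mem_filter, CycBasic_mem_U]
  have ha : (st G v p).a = v 0 := rfl
  have hb : (st G v p).b = v ((p - 1 : ℕ) : ZMod k) := rfl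
  rw [ha, hb]
  constructor
  · rintro ⟨h1, h2, h3⟩
    refine ⟨h2, fun i hi => ?_⟩
    rcases Nat.eq_zero_or_pos i with h | h
    · rw [h, Nat.cast_zero]; exact h3
    · exact h1 i h hi
  · rintro ⟨h1, h2⟩
    refine ⟨fun i _ hi => h2 i hi, h1, ?_⟩
    have := h2 0 (by omega)
    rwa [Nat.cast_zero] at this

theorem mem_sB_st (v : ZMod k → V) {p : ℕ} (hp : 2 ≤ p) (u : V) :
    u ∈ sB G (st G v p) ↔ G.Adj (v ((p - 1 : ℕ) : ZMod k)) u ∧ G.Adj (v 0) u ∧
      ∀ i : ℕ, 1 ≤ i → i + 1 < p → ¬ G.Adj (v (i : ZMod k)) u := by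
  unfold sB
  rw [Finset.mem_filter, CycBasic_mem_U]
  have ha : (st G v p).a = v 0 := rfl
  have hb : (st G v p).b = v ((p - 1 : ℕ) : ZMod k) := rfl
  rw [ha, hb]
  tauto

theorem mem_up_st (v : ZMod k → V) {p : ℕ} (hp : 2 ≤ p) (u : V) :
    u ∈ up G (st G v p) ↔ ∀ i : ℕ, 1 ≤ i → i < p → ¬ G.Adj (v (i : ZMod k)) u := by
  unfold up
  rw [Finset.mem_filter, CycBasic_mem_U]
  have hb : (st G v p).b = v ((p - 1 : ℕ) : ZMod k) := rfl
  rw [hb]
  constructor
  · rintro ⟨h1, h2⟩ i hi hi2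
    by_cases h : i = p - 1
    · rw [h]; exact h2
    · exact h1 i hi (by omega)
  · intro h
    exact ⟨fun i hi hi2 => h i hi (by omega), h (p - 1) (by omega) (by omega)⟩

theorem CycBasic_cast (hk : 5 ≤ k) {i j : ℕ} (hi : i < k) (hj : j < k) :
    ((j : ZMod k) = (i : ZMod k) + 1) ↔ (j = i + 1 ∨ (j = 0 ∧ i + 1 = k)) := by
  have h1 : ((i : ZMod k) + 1) = ((i + 1 : ℕ) : ZMod k) := by push_cast; rfl
  rw [h1, ZMod.natCast_eq_natCast_iff', Nat.mod_eq_of_lt hj]
  by_cases h : i + 1 < k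
  · rw [Nat.mod_eq_of_lt h]
    omega
  · have h2 : i + 1 = k := by omega
    rw [h2, Nat.mod_self]
    omega

/-- adjacency on a cycle, for natural indices -/
theorem cyc_adj_nat (hk : 5 ≤ k) {v : ZMod k → V} (hv : v ∈ cyc G k) {i j : ℕ} (hi : i < k)
    (hj : j < k) : G.Adj (v (i : ZMod k)) (v (j : ZMod k)) ↔
      (j = i + 1 ∨ i = j + 1 ∨ (i = 0 ∧ j + 1 = k) ∨ (j = 0 ∧ i + 1 = k)) := by
  have hv' : IsCyc G k v := (Finset.mem_filter.1 hv).2
  rw [hv' (i : ZMod k) (j : ZMod k), CycBasic_cast hk hi hj, CycBasic_cast hk hj hi]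
  tauto

theorem mem_sA_cyc (hk : 5 ≤ k) {v : ZMod k → V} (hv : v ∈ cyc G k) {p : ℕ} (hp : 2 ≤ p)
    (hpk : p + 2 ≤ k) : v (p : ZMod k) ∈ sA G (st G v p) := by
  rw [mem_sA_st v hp]
  refine ⟨?_, fun i hi => ?_⟩
  · rw [cyc_adj_nat hk hv (by omega) (by omega)]
    left; omega
  · rw [cyc_adj_nat hk hv (by omega) (by omega)]
    omega

theorem mem_sB_cyc (hk : 5 ≤ k) {v : ZMod k → V} (hv : v ∈ cyc G k) :
    v ((k - 1 : ℕ) : ZMod k) ∈ sB G (st G v (k - 1)) := by
  rw [mem_sB_st v (by omega)]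
  refine ⟨?_, ?_, fun i hi hi2 => ?_⟩
  · rw [cyc_adj_nat hk hv (by omega) (by omega)]
    left; omega
  · rw [← Nat.cast_zero (R := ZMod k), cyc_adj_nat hk hv (by omega) (by omega)]
    right; right; left
    exact ⟨rfl, by omega⟩
  · rw [cyc_adj_nat hk hv (by omega) (by omega)]
    omega

theorem wt_sN (s : St V) : wt x (sN G s) = wt x (sA G s) + wt x (sB G s) := by
  unfold wt sN sA sB
  rw [← Finset.sum_filter_add_sum_filter_not (s.U.filter fun u => G.Adj s.b u)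
    (fun u => ¬ G.Adj s.a u)]
  rw [Finset.filter_filter, Finset.filter_filter]
  congr 1
  apply Finset.sum_congr _ (fun _ _ => rfl)
  ext u
  simp

/-- sets of a state -/
theorem wt_split (s : St V) : wt x s.U = wt x (sA G s) + wt x (sB G s) + wt x (up G s) := by
  rw [← wt_sN]
  unfold wt sN up
  rw [← Finset.sum_filter_add_sum_filter_not s.U (fun u => G.Adj s.b u)]

end Pool.Agent.Icy
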