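import Pool.Agent.Icy.Rot
import Pool.Agent.Icy.CycBasic

/-!
# O2: joint marginals

`y = x + 1_S`.  For a cycle `v` containing all of `S`: `cw y v ≥ cw x v / ∏_{s∈S} x s` (at the
positions of `S` the factor is `x_s + 1 ≥ 1`).  So `∑_{v ⊇ S} cw x v ≤ (∏ x_s) NN y` and
`NN y ≤ NN x (1 + |S|/k)^k ≤ NN x e^{|S|}` by `max`.
`o2_pair`: rotation average: `k EE [v i = u, v j = u'] = EE #{t : v (i+t) = u, v (j+t) = u'} ≤
P(u, u' ∈ v) ≤ e² x_u x_u'` for `u ≠ u'` (injectivity: at most one `t`); it vanishes for `u = u'`.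
`o2_first`: `EE [v 0 = y, S ⊆ v] = P({y} ∪ S ⊆ v)/k` by rotation (`y ∉ S`).
-/

set_option autoImplicit false

open Finset
open scoped Classical

namespace Pool.Agent.Icy

variable {V : Type} [Fintype V] {G : SimpleGraph V} {k : ℕ} [NeZero k] {x : V → ℝ}

private theorem O2_cw (hx : ∀ v, 0 < x v) (S : Finset V) {v : ZMod k → V}
    (hv : Function.Injective v) (hS : ∀ s ∈ S, ∃ i, v i = s) :
    cw x v ≤ (∏ s ∈ S, x s) * cw (fun w => x w + if w ∈ S then 1 else 0) v := by
  unfold cw
  have hsplit : ∀ y : V → ℝ, ∏ i, y (v i) =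
      (∏ i ∈ univ.filter (fun i => v i ∈ S), y (v i)) *
        ∏ i ∈ univ.filter (fun i => ¬ v i ∈ S), y (v i) := fun y =>
    (Finset.prod_filter_mul_prod_filter_not univ (fun i => v i ∈ S) (fun i => y (v i))).symm
  have himg : (univ.filter (fun i => v i ∈ S)).image v = S := by
    ext s
    simp only [mem_image, mem_filter, mem_univ, true_and]
    constructor
    · rintro ⟨i, hi, rfl⟩; exact hi
    · intro hs
      obtain ⟨i, hi⟩ := hS s hs
      exact ⟨i, by rw [hi]; exact hs, hi⟩
  have hprod : ∏ i ∈ univ.filter (fun i => v i ∈ S), x (v i) = ∏ s ∈ S, x s := by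
    conv_rhs => rw [← himg]
    rw [Finset.prod_image (fun a _ b _ h => hv h)]
  rw [hsplit x, hsplit (fun w => x w + if w ∈ S then 1 else 0), hprod]
  have h2 : ∏ i ∈ univ.filter (fun i => ¬ v i ∈ S), (x (v i) + if v i ∈ S then (1:ℝ) else 0) =
      ∏ i ∈ univ.filter (fun i => ¬ v i ∈ S), x (v i) := by
    apply Finset.prod_congr rfl
    intro i hi
    rw [mem_filter] at hi
    simp [hi.2]
  have h1 : (1:ℝ) ≤ ∏ i ∈ univ.filter (fun i => v i ∈ S), (x (v i) + if v i ∈ S then (1:ℝ) else 0) := by
    calc (1:ℝ) = ∏ i ∈ univ.filter (fun i => v i ∈ S), (1:ℝ) := by simp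
      _ ≤ _ := ?_
    apply Finset.prod_le_prod
    · intro i _; norm_num
    · intro i hi
      rw [mem_filter] at hi
      rw [if_pos hi.2]
      linarith [hx (v i)]
  rw [h2]
  have h3 : 0 ≤ ∏ i ∈ univ.filter (fun i => ¬ v i ∈ S), x (v i) :=
    Finset.prod_nonneg (fun i _ => (hx _).le)
  have h4 : 0 ≤ ∏ s ∈ S, x s := Finset.prod_nonneg (fun s _ => (hx s).le)
  apply mul_le_mul_of_nonneg_left _ h4
  exact le_mul_of_one_le_left h3 h1

theorem o2 (hk : 5 ≤ k) (h : Opt G k x) (S : Finset V) :
    EE G k x (fun v => if ∀ s ∈ S, ∃ i, v i = s then 1 else 0) ≤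
      Real.exp S.card * ∏ s ∈ S, x s := by
  have hNN : 0 < NN G k x := h.NN_pos
  set y : V → ℝ := fun w => x w + if w ∈ S then 1 else 0 with hy
  have hy0 : ∀ v, 0 ≤ y v := by
    intro v
    simp only [hy]
    have := (h.pos v).le
    split_ifs <;> linarith
  have hkpos : (0:ℝ) < k := by
    have : 0 < k := by omega
    exact_mod_cast this
  have hsum : ∑ v, y v = k + S.card := by
    simp only [hy]
    rw [Finset.sum_add_distrib, h.sum]
    simp
  have hmax := h.max y hy0
  rw [hsum] at hmax
  have hexp : (((k:ℝ) + S.card) / k) ^ k ≤ Real.exp S.card := by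
    have h1 : ((k:ℝ) + S.card) / k = (S.card:ℝ) / k + 1 := by
      field_simp; ring
    rw [h1]
    have h2 : (S.card:ℝ) / k + 1 ≤ Real.exp ((S.card:ℝ) / k) := Real.add_one_le_exp _
    calc ((S.card:ℝ) / k + 1) ^ k ≤ (Real.exp ((S.card:ℝ) / k)) ^ k := by
          apply pow_le_pow_left₀ (by positivity) h2
      _ = Real.exp S.card := by
          rw [← Real.exp_nat_mul]
          congr 1
          field_simp
  have hP : 0 ≤ ∏ s ∈ S, x s := Finset.prod_nonneg (fun s _ => (h.pos s).le)
  unfold EE
  rw [div_le_iff₀ hNN]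
  calc ∑ v ∈ cyc G k, cw x v * (if ∀ s ∈ S, ∃ i, v i = s then (1:ℝ) else 0)
      ≤ ∑ v ∈ cyc G k, (∏ s ∈ S, x s) * cw y v := by
        apply Finset.sum_le_sum
        intro v hv
        split_ifs with hc
        · rw [mul_one]
          exact O2_cw h.pos S (cyc_inj hk (by simpa [cyc] using hv)) hc
        · rw [mul_zero]
          exact mul_nonneg hP (cw_nonneg hy0 v)
    _ = (∏ s ∈ S, x s) * NN G k y := by
        rw [NN, Finset.mul_sum]
    _ ≤ (∏ s ∈ S, x s) * (NN G k x * (((k:ℝ) + S.card) / k) ^ k) :=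
        mul_le_mul_of_nonneg_left hmax hP
    _ ≤ (∏ s ∈ S, x s) * (NN G k x * Real.exp S.card) := by
        apply mul_le_mul_of_nonneg_left _ hP
        exact mul_le_mul_of_nonneg_left hexp hNN.le
    _ = Real.exp S.card * (∏ s ∈ S, x s) * NN G k x := by ring

private theorem O2_one (hk : 5 ≤ k) (h : Opt G k x) {i j : ZMod k} (hij : i ≠ j) (u u' : V) :
    EE G k x (fun v => if v i = u ∧ v j = u' then 1 else 0) ≤
      Real.exp 2 / k * (x u * x u') := by
  have hkpos : (0:ℝ) < k := by
    have : 0 < k := by omega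
    exact_mod_cast this
  have hx0 : ∀ v, 0 ≤ x v := fun v => (h.pos v).le
  have key : (k:ℝ) * EE G k x (fun v => if v i = u ∧ v j = u' then 1 else 0) ≤
      Real.exp 2 * (x u * x u') := by
    rw [EE_avg]
    by_cases huu : u = u'
    · have h0 : EE G k x (fun v => ∑ t : ZMod k, if v (i + t) = u ∧ v (j + t) = u' then (1:ℝ) else 0)
          ≤ EE G k x (fun v => 0 * 0) := by
        apply EE_mono hx0
        intro v hv
        have hinj := cyc_inj hk (show IsCyc G k v by simpa [cyc] using hv)
        rw [zero_mul]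
        apply le_of_eq
        apply Finset.sum_eq_zero
        intro t _
        rw [if_neg]
        rintro ⟨h1, h2⟩
        apply hij
        have := hinj (h1.trans (huu.trans h2.symm))
        exact add_right_cancel this
      refine h0.trans ?_
      rw [EE_mul, zero_mul]
      have := h.pos u
      have := h.pos u'
      positivity
    · have h0 : EE G k x (fun v => ∑ t : ZMod k, if v (i + t) = u ∧ v (j + t) = u' then (1:ℝ) else 0)
          ≤ EE G k x (fun v => if ∀ s ∈ ({u, u'} : Finset V), ∃ i, v i = s then 1 else 0) := by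
        apply EE_mono hx0
        intro v hv
        have hinj := cyc_inj hk (show IsCyc G k v by simpa [cyc] using hv)
        by_cases hex : ∃ t, v (i + t) = u ∧ v (j + t) = u'
        · obtain ⟨t, ht1, ht2⟩ := hex
          rw [Finset.sum_eq_single t]
          · rw [if_pos ⟨ht1, ht2⟩, if_pos]
            intro s hs
            simp only [mem_insert, mem_singleton] at hs
            rcases hs with rfl | rfl
            · exact ⟨_, ht1⟩
            · exact ⟨_, ht2⟩
          · intro t' _ hne
            rw [if_neg]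
            rintro ⟨h1, _⟩
            apply hne
            have := hinj (h1.trans ht1.symm)
            exact add_left_cancel this
          · intro hn; exact absurd (mem_univ t) hn
        · rw [Finset.sum_eq_zero]
          · split_ifs <;> norm_num
          · intro t _
            rw [if_neg]
            exact fun hc => hex ⟨t, hc⟩
      refine h0.trans ?_
      have := o2 hk h {u, u'}
      rw [Finset.card_pair huu, Finset.prod_pair huu] at this
      simpa using this
  rw [div_mul_eq_mul_div, le_div_iff₀ hkpos]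
  linarith [key]

theorem o2_pair (hk : 5 ≤ k) (h : Opt G k x) {i j : ZMod k} (hij : i ≠ j) (F : V → V → ℝ)
    (hF : ∀ u u', 0 ≤ F u u') :
    EE G k x (fun v => F (v i) (v j)) ≤ Real.exp 2 / k * ∑ u, ∑ u', x u * x u' * F u u' := by
  have h1 : EE G k x (fun v => F (v i) (v j)) =
      ∑ u, ∑ u', F u u' * EE G k x (fun v => if v i = u ∧ v j = u' then 1 else 0) := by
    have h2 : ∀ v : ZMod k → V, F (v i) (v j) =
        ∑ u, ∑ u', F u u' * (if v i = u ∧ v j = u' then (1:ℝ) else 0) := by
      intro v
      rw [Finset.sum_eq_single (v i)]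
      · rw [Finset.sum_eq_single (v j)]
        · simp
        · intro b _ hb
          rw [if_neg, mul_zero]
          rintro ⟨_, h2⟩; exact hb h2.symm
        · intro hn; exact absurd (mem_univ _) hn
      · intro b _ hb
        apply Finset.sum_eq_zero
        intro c _
        rw [if_neg, mul_zero]
        rintro ⟨h2, _⟩; exact hb h2.symm
      · intro hn; exact absurd (mem_univ _) hn
    rw [EE_congr (fun v _ => h2 v), EE_sum]
    apply Finset.sum_congr rfl
    intro u _
    rw [EE_sum]
    apply Finset.sum_congr rfl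
    intro u' _
    rw [EE_mul]
  rw [h1, Finset.mul_sum]
  apply Finset.sum_le_sum
  intro u _
  rw [Finset.mul_sum]
  apply Finset.sum_le_sum
  intro u' _
  have := mul_le_mul_of_nonneg_left (O2_one hk h hij u u') (hF u u')
  calc _ ≤ _ := this
    _ = _ := by ring

theorem o2_first (hk : 5 ≤ k) (h : Opt G k x) (y : V) (S : Finset V) (hy : y ∉ S) :
    EE G k x (fun v => if v 0 = y ∧ ∀ s ∈ S, ∃ i, v i = s then 1 else 0) ≤
      Real.exp (S.card + 1) / k * (x y * ∏ s ∈ S, x s) := by
  have hkpos : (0:ℝ) < k := by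
    have : 0 < k := by omega
    exact_mod_cast this
  have hx0 : ∀ v, 0 ≤ x v := fun v => (h.pos v).le
  have key : (k:ℝ) * EE G k x (fun v => if v 0 = y ∧ ∀ s ∈ S, ∃ i, v i = s then 1 else 0) ≤
      Real.exp (S.card + 1) * (x y * ∏ s ∈ S, x s) := by
    rw [EE_avg]
    have h0 : EE G k x (fun v => ∑ t : ZMod k,
          if v (0 + t) = y ∧ ∀ s ∈ S, ∃ i, v (i + t) = s then (1:ℝ) else 0)
          ≤ EE G k x (fun v => if ∀ s ∈ (insert y S : Finset V), ∃ i, v i = s then 1 else 0) := by
      apply EE_mono hx0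
      intro v hv
      have hinj := cyc_inj hk (show IsCyc G k v by simpa [cyc] using hv)
      by_cases hex : ∃ t, v (0 + t) = y ∧ ∀ s ∈ S, ∃ i, v (i + t) = s
      · obtain ⟨t, ht1, ht2⟩ := hex
        rw [Finset.sum_eq_single t]
        · rw [if_pos ⟨ht1, ht2⟩, if_pos]
          intro s hs
          rw [mem_insert] at hs
          rcases hs with rfl | hs
          · exact ⟨_, ht1⟩
          · obtain ⟨i, hi⟩ := ht2 s hs
            exact ⟨_, hi⟩
        · intro t' _ hne
          rw [if_neg]
          rintro ⟨h1, _⟩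
          apply hne
          have := hinj (h1.trans ht1.symm)
          exact add_left_cancel this
        · intro hn; exact absurd (mem_univ t) hn
      · rw [Finset.sum_eq_zero]
        · split_ifs <;> norm_num
        · intro t _
          rw [if_neg]
          exact fun hc => hex ⟨t, hc⟩
    refine h0.trans ?_
    have := o2 hk h (insert y S)
    rw [Finset.card_insert_of_notMem hy, Finset.prod_insert hy] at this
    push_cast at this
    exact this
  rw [div_mul_eq_mul_div, le_div_iff₀ hkpos]
  linarith [key]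

end Pool.Agent.Icy
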