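import Pool.Agent.Icy.T17

/-!
# An induced cycle does not have exactly one wrong pair

`c i` = class of `v i`; all the pairs except possibly `{i₀, j₀}` are right.  `t17` for the path of `k-1`
vertices avoiding `i₀` (positions `i₀+1, …, i₀+k-1`) and for the path avoiding `j₀`.
If the first is constant `γ`: the second contains `k-2 ≥ 3` vertices of class `γ`, so it is constant and
`c i₀ = γ = c j₀`.  If the first is monotone, `c (i₀+t) = γ ± t`, then the second is monotone in the same
direction and `c i₀ = γ`; so `c i = γ ± (i - i₀)` for all `i` and `{i₀, j₀}` is right as well.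
-/

set_option autoImplicit false

open Finset
open scoped Classical

namespace Pool.Agent.Icy

private theorem OneWrong_cast_inj {k : ℕ} {a b : ℕ} (ha : a < k) (hb : b < k)
    (h : (a : ZMod k) = (b : ZMod k)) : a = b := by
  have := (ZMod.natCast_eq_natCast_iff' a b k).mp h
  rwa [Nat.mod_eq_of_lt ha, Nat.mod_eq_of_lt hb] at this

private theorem OneWrong_path {k : ℕ} [NeZero k] (hk : 7 ≤ k) (c : ZMod k → ZMod k) (p : ZMod k)
    (h : ∀ i j, i ≠ p → j ≠ p → c i ≠ c j →
      ((j = i + 1 ∨ i = j + 1) ↔ (c j = c i + 1 ∨ c i = c j + 1))) :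
    ∃ e γ : ZMod k, (e = 0 ∨ e = 1 ∨ e = -1) ∧ ∀ i, i ≠ p → c i = γ + e * i := by
  have hne : ∀ t : ℕ, t < k - 1 → p + 1 + (t : ZMod k) ≠ p := by
    intro t ht h0
    have h1 : ((t + 1 : ℕ) : ZMod k) = ((0 : ℕ) : ZMod k) := by
      push_cast
      linear_combination h0
    have := OneWrong_cast_inj (by omega) (by omega) h1
    omega
  have hpos : ∀ i : ZMod k, i ≠ p → ∃ t : ℕ, t < k - 1 ∧ (t : ZMod k) = i - p - 1 := by
    intro i hi
    refine ⟨(i - p - 1).val, ?_, ZMod.natCast_zmod_val _⟩
    have h1 : (i - p - 1).val < k := ZMod.val_lt _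
    rcases Nat.lt_or_ge (i - p - 1).val (k - 1) with h2 | h2
    · exact h2
    · exfalso
      apply hi
      have h3 : (i - p - 1).val = k - 1 := by omega
      have h4 : (((i - p - 1).val : ℕ) : ZMod k) = i - p - 1 := ZMod.natCast_zmod_val _
      have h5 : ((k - 1 : ℕ) : ZMod k) = -1 := by
        rw [Nat.cast_sub (by omega)]
        simp
      rw [h3, h5] at h4
      linear_combination -h4
  have key := t17 (k := k) (n := k - 1) hk (by omega) (fun t : ℕ => c (p + 1 + (t : ZMod k))) (by
    intro i j hi hj hc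
    have h1 := h (p + 1 + (i : ZMod k)) (p + 1 + (j : ZMod k)) (hne i hi) (hne j hj) hc
    rw [← h1]
    constructor
    · rintro (hh | hh)
      · left; subst hh; push_cast; ring
      · right; subst hh; push_cast; ring
    · rintro (hh | hh)
      · left
        have h2 : ((j : ℕ) : ZMod k) = ((i + 1 : ℕ) : ZMod k) := by
          push_cast
          linear_combination hh
        exact OneWrong_cast_inj (by omega) (by omega) h2
      · right
        have h2 : ((i : ℕ) : ZMod k) = ((j + 1 : ℕ) : ZMod k) := by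
          push_cast
          linear_combination hh
        exact OneWrong_cast_inj (by omega) (by omega) h2)
  rcases key with key | key | key
  · refine ⟨0, c (p + 1), Or.inl rfl, ?_⟩
    intro i hi
    obtain ⟨t, ht, hti⟩ := hpos i hi
    have h1 := key t ht
    simp only [hti, Nat.cast_zero, add_zero] at h1
    rw [show p + 1 + (i - p - 1) = i by ring] at h1
    rw [h1]; ring
  · refine ⟨1, c (p + 1) - p - 1, Or.inr (Or.inl rfl), ?_⟩
    intro i hi
    obtain ⟨t, ht, hti⟩ := hpos i hi
    have h1 := key t ht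
    simp only [hti, Nat.cast_zero, add_zero] at h1
    rw [show p + 1 + (i - p - 1) = i by ring] at h1
    rw [h1]; ring
  · refine ⟨-1, c (p + 1) + p + 1, Or.inr (Or.inr rfl), ?_⟩
    intro i hi
    obtain ⟨t, ht, hti⟩ := hpos i hi
    have h1 := key t ht
    simp only [hti, Nat.cast_zero, add_zero] at h1
    rw [show p + 1 + (i - p - 1) = i by ring] at h1
    rw [h1]; ring

theorem onewrong {k : ℕ} [NeZero k] (hk : 7 ≤ k) (c : ZMod k → ZMod k) (i₀ j₀ : ZMod k)
    (hij : i₀ ≠ j₀)
    (h : ∀ i j, ¬ ((i = i₀ ∧ j = j₀) ∨ (i = j₀ ∧ j = i₀)) → c i ≠ c j →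
      ((j = i + 1 ∨ i = j + 1) ↔ (c j = c i + 1 ∨ c i = c j + 1)))
    (hc : c i₀ ≠ c j₀) :
    (j₀ = i₀ + 1 ∨ i₀ = j₀ + 1) ↔ (c j₀ = c i₀ + 1 ∨ c i₀ = c j₀ + 1) := by
  obtain ⟨e, γ, he, hA⟩ := OneWrong_path hk c i₀ (by
    intro i j hi hj hcc
    apply h i j _ hcc
    rintro (⟨h1, h2⟩ | ⟨h1, h2⟩)
    · exact hi h1
    · exact hj h2)
  obtain ⟨e', δ, he', hB⟩ := OneWrong_path hk c j₀ (by
    intro i j hi hj hcc
    apply h i j _ hcc
    rintro (⟨h1, h2⟩ | ⟨h1, h2⟩)
    · exact hj h2
    · exact hi h1)
  obtain ⟨m, hm⟩ : ∃ m : ZMod k, m ∉ ({i₀, j₀, i₀ - 1, j₀ - 1} : Finset (ZMod k)) := by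
    by_contra hcon
    push Not at hcon
    have h1 : (univ : Finset (ZMod k)) ⊆ {i₀, j₀, i₀ - 1, j₀ - 1} := fun m _ => hcon m
    have h2 := Finset.card_le_card h1
    have h3 : ({i₀, j₀, i₀ - 1, j₀ - 1} : Finset (ZMod k)).card ≤ 4 := Finset.card_le_four
    rw [Finset.card_univ, ZMod.card] at h2
    omega
  simp only [Finset.mem_insert, Finset.mem_singleton, not_or] at hm
  obtain ⟨m1, m2, m3, m4⟩ := hm
  have n3 : m + 1 ≠ i₀ := fun hh => m3 (by linear_combination hh)
  have n4 : m + 1 ≠ j₀ := fun hh => m4 (by linear_combination hh)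
  have e1 : γ + e * m = δ + e' * m := (hA m m1).symm.trans (hB m m2)
  have e2 : γ + e * (m + 1) = δ + e' * (m + 1) := (hA _ n3).symm.trans (hB _ n4)
  have ee : e = e' := by linear_combination e2 - e1
  subst ee
  have gd : γ = δ := by linear_combination e1
  subst gd
  have hall : ∀ i, c i = γ + e * i := by
    intro i
    by_cases hi : i = i₀
    · subst hi
      exact hB i hij
    · exact hA i hi
  rw [hall i₀, hall j₀] at hc ⊢
  rcases he with he | he | he
  · subst he; exfalso; apply hc; ring
  · subst he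
    constructor
    · rintro (hh | hh)
      · left; linear_combination hh
      · right; linear_combination hh
    · rintro (hh | hh)
      · left; linear_combination hh
      · right; linear_combination hh
  · subst he
    constructor
    · rintro (hh | hh)
      · right; linear_combination hh
      · left; linear_combination hh
    · rintro (hh | hh)
      · right; linear_combination hh
      · left; linear_combination hh

end Pool.Agent.Icy
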