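import Pool.Agent.Icy.EEapi

/-!
# Rotation and reflection invariance
-/

set_option autoImplicit false

open Finset
open scoped Classical

namespace Pool.Agent.Icy

variable {V : Type} [Fintype V] {G : SimpleGraph V} {k : ℕ} [NeZero k] {x : V → ℝ}

theorem cyc_rot (t : ZMod k) {v : ZMod k → V} (hv : v ∈ cyc G k) :
    (fun i => v (i + t)) ∈ cyc G k := by
  simp only [cyc, mem_filter, mem_univ, true_and] at hv ⊢
  intro i j
  rw [hv (i + t) (j + t)]
  constructor
  · rintro (h | h)
    · left
      have h1 : j + t = (i + 1) + t := by rw [h]; ring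
      exact add_right_cancel h1
    · right
      have h1 : i + t = (j + 1) + t := by rw [h]; ring
      exact add_right_cancel h1
  · rintro (h | h)
    · left; rw [h]; ring
    · right; rw [h]; ring

theorem cyc_neg {v : ZMod k → V} (hv : v ∈ cyc G k) : (fun i => v (-i)) ∈ cyc G k := by
  simp only [cyc, mem_filter, mem_univ, true_and] at hv ⊢
  intro i j
  rw [hv (-i) (-j)]
  constructor
  · rintro (h | h)
    · right
      have h1 : i = -(-j) + 1 := by rw [h]; ring
      rw [h1]; ring
    · left
      have h1 : j = -(-i) + 1 := by rw [h]; ring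
      rw [h1]; ring
  · rintro (h | h)
    · right; rw [h]; ring
    · left; rw [h]; ring

theorem EE_rot (t : ZMod k) (f : (ZMod k → V) → ℝ) :
    EE G k x (fun v => f (fun i => v (i + t))) = EE G k x f := by
  unfold EE
  congr 1
  refine Finset.sum_bij' (fun v _ => fun i => v (i + t)) (fun v _ => fun i => v (i + (-t)))
    (fun v hv => cyc_rot t hv) (fun v hv => cyc_rot (-t) hv) ?_ ?_ ?_
  · intro v _
    funext i
    simp only [add_assoc, neg_add_cancel, add_zero]
  · intro v _
    funext i
    simp only [add_assoc, add_neg_cancel, add_zero]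
  · intro v _
    have h1 : cw x (fun i => v (i + t)) = cw x v := by
      unfold cw
      exact Equiv.prod_comp (Equiv.addRight t) (fun i => x (v i))
    rw [h1]

theorem EE_neg (f : (ZMod k → V) → ℝ) :
    EE G k x (fun v => f (fun i => v (-i))) = EE G k x f := by
  unfold EE
  congr 1
  refine Finset.sum_bij' (fun v _ => fun i => v (-i)) (fun v _ => fun i => v (-i))
    (fun v hv => cyc_neg hv) (fun v hv => cyc_neg hv) ?_ ?_ ?_
  · intro v _
    funext i
    simp only [neg_neg]
  · intro v _
    funext i
    simp only [neg_neg]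
  · intro v _
    have h1 : cw x (fun i => v (-i)) = cw x v := by
      unfold cw
      exact Equiv.prod_comp (Equiv.neg (ZMod k)) (fun i => x (v i))
    rw [h1]

/-- average over all rotations -/
theorem EE_avg (f : (ZMod k → V) → ℝ) :
    (k : ℝ) * EE G k x f = EE G k x (fun v => ∑ t : ZMod k, f (fun i => v (i + t))) := by
  rw [EE_sum univ (fun (t : ZMod k) v => f (fun i => v (i + t)))]
  rw [Finset.sum_congr rfl (fun t _ => EE_rot t f)]
  rw [Finset.sum_const, Finset.card_univ, ZMod.card, nsmul_eq_mul]

end Pool.Agent.Icy
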