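import Pool.Agent.Icy.DevDefs
import Pool.Agent.Icy.Rot
import Pool.Agent.Icy.CycBasic

/-!
# (9.2), part B: own class and monotone

`devB1`: apply `max` to `y'` = `x` on `T j`, `0` elsewhere, plus `1` at `y`: total weight `≤ wt (T j) + 1 ≤ 3`.
`NN y' ≥ Σ_t Σ_{v : v t = y, other v i ∈ T j} ∏_{i≠t} x (v i) = k Σ_{v 0 = y, ownc T j} ∏_{i≠0} x (v i)` (`v`
injective), so `Σ_{v 0 = y, ownc T j} cw x v ≤ x_y NN/k (3/k)^k`; sum over `j`.
`devB2`: `cw x v = x_y ∏_{i ≠ 0} x (v i)`, `i ↦ l + i` runs over the classes `≠ l`; `v ∈ cyc` forces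
`v 1 ∈ T (l+1)`, `v (-1) ∈ T (l-1)` adjacent to `y` and the others not.  `NN ≥ 2k`.
-/

set_option autoImplicit false

open Finset
open scoped Classical

namespace Pool.Agent.Icy

variable {V : Type} [Fintype V] {G : SimpleGraph V} {k : ℕ} [NeZero k] {x : V → ℝ}

private theorem DevB_fact {k : ℕ} (hk : 100 ≤ k) : (1 : ZMod k) ≠ 0 ∧ (2 : ZMod k) ≠ 0 := by
  have h : ∀ m : ℕ, 0 < m → m < k → ((m : ℕ) : ZMod k) ≠ 0 := by
    intro m h1 h2 h3
    have := (ZMod.natCast_eq_zero_iff m k).mp h3
    exact absurd (Nat.le_of_dvd h1 this) (by omega)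
  have h1 := h 1 (by norm_num) (by omega)
  have h2 := h 2 (by norm_num) (by omega)
  push_cast at h1 h2
  exact ⟨h1, h2⟩

/-- bound by a product of set weights -/
private theorem DevB_prod (hx : ∀ v, 0 ≤ x v) (t : ZMod k → Finset V)
    (P : (ZMod k → V) → Prop) [DecidablePred P] (h : ∀ v ∈ cyc G k, P v → ∀ i, v i ∈ t i) :
    ∑ v ∈ cyc G k, cw x v * (if P v then 1 else 0) ≤ ∏ i, wt x (t i) := by
  have h1 : ∏ i, wt x (t i) = ∑ v ∈ Fintype.piFinset t, cw x v := by
    unfold wt cw
    rw [Finset.prod_univ_sum]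
  rw [h1]
  have h2 : ∑ v ∈ cyc G k, cw x v * (if P v then 1 else 0) =
      ∑ v ∈ (cyc G k).filter P, cw x v := by
    rw [sum_filter]
    refine sum_congr rfl fun v _ => ?_
    split_ifs <;> simp
  rw [h2]
  apply sum_le_sum_of_subset_of_nonneg
  · intro v hv
    rw [mem_filter] at hv
    rw [Fintype.mem_piFinset]
    exact h v hv.1 hv.2
  · intro v _ _
    exact cw_nonneg hx v

/-- the sets of the classes -/
private noncomputable def DevB_B (G : SimpleGraph V) {k : ℕ} (T : ZMod k → Finset V) (y : V)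
    (l j : ZMod k) : Finset V :=
  if j = l then {y} else if j = l - 1 ∨ j = l + 1 then nbin G (T j) y else nnin G (T j) y

private theorem DevB_B_prod (hk : 100 ≤ k) (T : ZMod k → Finset V) (y : V) (l : ZMod k) :
    ∏ j, wt x (DevB_B G T y l j) = x y * lamy G x T y l := by
  obtain ⟨n1, n2⟩ := DevB_fact hk
  have d1 : l - 1 ≠ l := by
    intro h
    exact n1 (by linear_combination -h)
  have d2 : l + 1 ≠ l := by
    intro h
    exact n1 (by linear_combination h)
  have d3 : l - 1 ≠ l + 1 := by
    intro h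
    exact n2 (by linear_combination -h)
  have hset : (univ : Finset (ZMod k)) = insert (l - 1) (insert l (insert (l + 1)
      (univ.filter (fun j => j ≠ l - 1 ∧ j ≠ l ∧ j ≠ l + 1)))) := by
    ext j
    simp only [mem_univ, mem_insert, mem_filter, true_and, true_iff]
    tauto
  rw [hset, prod_insert, prod_insert, prod_insert]
  · have e1 : DevB_B G T y l (l - 1) = nbin G (T (l - 1)) y := by
      unfold DevB_B
      rw [if_neg d1, if_pos (Or.inl rfl)]
    have e2 : DevB_B G T y l l = {y} := by
      unfold DevB_B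
      rw [if_pos rfl]
    have e3 : DevB_B G T y l (l + 1) = nbin G (T (l + 1)) y := by
      unfold DevB_B
      rw [if_neg d2, if_pos (Or.inr rfl)]
    have e4 : ∏ j ∈ univ.filter (fun j => j ≠ l - 1 ∧ j ≠ l ∧ j ≠ l + 1),
        wt x (DevB_B G T y l j) = ∏ j ∈ univ.filter (fun j => j ≠ l - 1 ∧ j ≠ l ∧ j ≠ l + 1),
        wt x (nnin G (T j) y) := by
      refine prod_congr rfl fun j hj => ?_
      rw [mem_filter] at hj
      unfold DevB_B
      rw [if_neg hj.2.2.1, if_neg]
      tauto
    have e5 : wt x ({y} : Finset V) = x y := by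
      unfold wt
      rw [sum_singleton]
    rw [e1, e2, e3, e4, e5]
    unfold lamy
    ring
  · simp
  · simp [d2.symm]
  · simp [d1, d3]

/-- weight of the closed and monotone cycles -/
private theorem DevB_main (hk : 100 ≤ k) (h : Opt G k x) (T : ZMod k → Finset V) (y : V)
    (l : ZMod k) (σ : ZMod k ≃ ZMod k) (hσ0 : σ 0 = l)
    (hσ : (σ 1 = l + 1 ∧ σ (-1) = l - 1) ∨ (σ 1 = l - 1 ∧ σ (-1) = l + 1)) :
    EE G k x (fun v => if v 0 = y ∧ (∀ i : ZMod k, i ≠ 0 → v i ∈ T (σ i)) then 1 else 0) ≤
      x y / (2 * k) * lamy G x T y l := by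
  have hx : ∀ v, 0 ≤ x v := fun v => (h.pos v).le
  have hk0 : (0 : ℝ) < k := by
    have : 0 < k := by omega
    exact_mod_cast this
  have h1 := DevB_prod (G := G) (k := k) hx (fun i => DevB_B G T y l (σ i))
    (fun v => v 0 = y ∧ (∀ i : ZMod k, i ≠ 0 → v i ∈ T (σ i))) (by
      intro v hv hP i
      have hc : IsCyc G k v := (mem_filter.mp hv).2
      by_cases hi : i = 0
      · subst hi
        unfold DevB_B
        rw [if_pos hσ0, hP.1]
        exact mem_singleton_self y
      · have hne : σ i ≠ l := by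
          intro he
          apply hi
          apply σ.injective
          rw [he, hσ0]
        have hadj := hc 0 i
        rw [hP.1, zero_add] at hadj
        unfold DevB_B
        rw [if_neg hne]
        by_cases hj : σ i = l - 1 ∨ σ i = l + 1
        · rw [if_pos hj]
          refine mem_filter.mpr ⟨hP.2 i hi, hadj.mpr ?_⟩
          have : i = 1 ∨ i = -1 := by
            rcases hσ with ⟨a1, a2⟩ | ⟨a1, a2⟩ <;> rcases hj with hj | hj
            · right; apply σ.injective; rw [hj, a2]
            · left; apply σ.injective; rw [hj, a1]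
            · left; apply σ.injective; rw [hj, a1]
            · right; apply σ.injective; rw [hj, a2]
          rcases this with rfl | rfl
          · exact Or.inl rfl
          · right; ring
        · rw [if_neg hj]
          refine mem_filter.mpr ⟨hP.2 i hi, fun hh => ?_⟩
          apply hj
          rcases hadj.mp hh with h2 | h2
          · rw [h2]
            rcases hσ with ⟨a1, a2⟩ | ⟨a1, a2⟩
            · exact Or.inr a1
            · exact Or.inl a1
          · have h3 : i = -1 := by linear_combination -h2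
            rw [h3]
            rcases hσ with ⟨a1, a2⟩ | ⟨a1, a2⟩
            · exact Or.inl a2
            · exact Or.inr a2)
  have h2 : ∏ i, wt x (DevB_B G T y l (σ i)) = x y * lamy G x T y l := by
    rw [← DevB_B_prod hk]
    exact σ.prod_comp (fun j => wt x (DevB_B G T y l j))
  rw [h2] at h1
  have hN := h.NN_pos
  have hN2 := h.one
  unfold EE
  rw [div_le_iff₀ hN]
  refine (le_trans (le_of_eq (sum_congr rfl fun v _ => ?_)) h1).trans ?_
  · rfl
  have h3 : 0 ≤ x y * lamy G x T y l := by
    rw [← h2]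
    apply prod_nonneg
    intro i _
    exact sum_nonneg fun v _ => hx v
  have h4 : x y / (2 * k) * lamy G x T y l * NN G k x =
      x y * lamy G x T y l * (NN G k x / (2 * k)) := by ring
  rw [h4]
  have h5 : 1 ≤ NN G k x / (2 * k) := by
    rw [le_div_iff₀ (by positivity)]
    linarith
  exact le_mul_of_one_le_right h3 h5

private theorem DevB_own (hk : 100 ≤ k) (h : Opt G k x) {S : Finset V} (hS : wt x S ≤ 2)
    (y : V) :
    (k : ℝ) * EE G k x (fun v => if v 0 = y ∧ (∀ i : ZMod k, i ≠ 0 → v i ∈ S) then 1 else 0) ≤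
      x y * (3 / k) ^ k := by
  have hx : ∀ v, 0 ≤ x v := fun v => (h.pos v).le
  have hN := h.NN_pos
  have hk0 : (0 : ℝ) < k := by
    have : 0 < k := by omega
    exact_mod_cast this
  set y' : V → ℝ := fun u => (if u ∈ S then x u else 0) + (if u = y then 1 else 0) with hy'
  have hy0 : ∀ u, 0 ≤ y' u := by
    intro u
    simp only [hy']
    apply add_nonneg
    · split_ifs
      · exact hx u
      · exact le_refl _
    · split_ifs <;> norm_num
  have hsum : ∑ u, y' u ≤ 3 := by
    simp only [hy']
    rw [sum_add_distrib, sum_ite_mem, univ_inter, sum_ite_eq']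
    simp only [mem_univ, if_true]
    have : ∑ u ∈ S, x u = wt x S := rfl
    rw [this]
    linarith
  have hsum0 : 0 ≤ ∑ u, y' u := sum_nonneg fun u _ => hy0 u
  have hmax := h.max y' hy0
  have hmax2 : NN G k y' ≤ NN G k x * (3 / k) ^ k := by
    refine hmax.trans (mul_le_mul_of_nonneg_left ?_ hN.le)
    apply pow_le_pow_left₀ (by positivity)
    exact div_le_div_of_nonneg_right hsum hk0.le
  rw [EE_avg]
  unfold EE
  rw [div_le_iff₀ hN]
  have hpt : ∀ v ∈ cyc G k, cw x v * (∑ t : ZMod k,
      (if (fun i => v (i + t)) 0 = y ∧ (∀ i : ZMod k, i ≠ 0 → (fun i => v (i + t)) i ∈ S)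
        then (1 : ℝ) else 0)) ≤ x y * cw y' v := by
    intro v hv
    have hc : IsCyc G k v := (mem_filter.mp hv).2
    have hinj := cyc_inj (by omega) hc
    by_cases hex : ∃ t : ZMod k, v t = y ∧ ∀ i : ZMod k, i ≠ 0 → v (i + t) ∈ S
    · obtain ⟨t, ht, hi⟩ := hex
      have h1 : ∑ t : ZMod k, (if (fun i => v (i + t)) 0 = y ∧
          (∀ i : ZMod k, i ≠ 0 → (fun i => v (i + t)) i ∈ S) then (1 : ℝ) else 0) ≤
          ∑ t' : ZMod k, (if t' = t then (1 : ℝ) else 0) := by
        apply sum_le_sum
        intro t' _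
        by_cases ht' : t' = t
        · rw [if_pos ht']
          split_ifs <;> norm_num
        · rw [if_neg ht', if_neg]
          rintro ⟨h2, _⟩
          apply ht'
          apply hinj
          rw [ht, ← h2]
          beta_reduce
          rw [zero_add]
      rw [sum_ite_eq'] at h1
      simp only [mem_univ, if_true] at h1
      have h2 : cw x v ≤ x y * cw y' v := by
        unfold cw
        rw [← mul_prod_erase univ (fun i => x (v i)) (mem_univ t),
          ← mul_prod_erase univ (fun i => y' (v i)) (mem_univ t)]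
        rw [ht]
        apply mul_le_mul_of_nonneg_left _ (hx y)
        have h3 : 1 ≤ y' y := by
          have e : y' y = (if y ∈ S then x y else 0) + 1 := by simp [hy']
          rw [e]
          split_ifs
          · linarith [hx y]
          · norm_num
        have h4 : ∏ i ∈ univ.erase t, x (v i) ≤ ∏ i ∈ univ.erase t, y' (v i) := by
          apply prod_le_prod
          · intro i _
            exact hx _
          · intro i hit
            have h5 : v i ∈ S := by
              have := hi (i - t) (sub_ne_zero.mpr (ne_of_mem_erase hit))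
              rwa [sub_add_cancel] at this
            simp only [hy']
            rw [if_pos h5]
            split_ifs
            · linarith
            · linarith
        have h6 : 0 ≤ ∏ i ∈ univ.erase t, y' (v i) := prod_nonneg fun i _ => hy0 _
        calc ∏ i ∈ univ.erase t, x (v i) ≤ ∏ i ∈ univ.erase t, y' (v i) := h4
          _ ≤ y' y * ∏ i ∈ univ.erase t, y' (v i) := le_mul_of_one_le_left h6 h3
      calc _ ≤ cw x v * 1 := mul_le_mul_of_nonneg_left h1 (cw_nonneg hx v)
        _ = cw x v := mul_one _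
        _ ≤ _ := h2
    · have h1 : ∑ t : ZMod k, (if (fun i => v (i + t)) 0 = y ∧
          (∀ i : ZMod k, i ≠ 0 → (fun i => v (i + t)) i ∈ S) then (1 : ℝ) else 0) = 0 := by
        apply sum_eq_zero
        intro t _
        rw [if_neg]
        rintro ⟨h2, h3⟩
        apply hex
        refine ⟨t, ?_, fun i hi => h3 i hi⟩
        beta_reduce at h2
        rwa [zero_add] at h2
      rw [h1, mul_zero]
      exact mul_nonneg (hx y) (cw_nonneg hy0 v)
  calc _ ≤ ∑ v ∈ cyc G k, x y * cw y' v := sum_le_sum hpt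
    _ = x y * NN G k y' := by
        unfold NN
        rw [mul_sum]
    _ ≤ x y * (NN G k x * (3 / k) ^ k) := mul_le_mul_of_nonneg_left hmax2 (hx y)
    _ = _ := by ring

theorem devB1 (hk : 100 ≤ k) (h : Opt G k x) {T : ZMod k → Finset V}
    (hT : ∀ j, wt x (T j) ≤ 2) (y : V) :
    EE G k x (fun v => if v 0 = y ∧ ∃ j, ownc T j v then 1 else 0) ≤
      x y / k * (k * (3 / k) ^ k) := by
  have hx : ∀ v, 0 ≤ x v := fun v => (h.pos v).le
  have hk0 : (0 : ℝ) < k := by
    have : 0 < k := by omega
    exact_mod_cast this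
  have h1 : EE G k x (fun v => if v 0 = y ∧ ∃ j, ownc T j v then 1 else 0) ≤
      EE G k x (fun v => ∑ j : ZMod k,
        (if v 0 = y ∧ (∀ i : ZMod k, i ≠ 0 → v i ∈ T j) then (1 : ℝ) else 0)) := by
    apply EE_mono hx
    intro v _
    by_cases hc : v 0 = y ∧ ∃ j, ownc T j v
    · rw [if_pos hc]
      obtain ⟨h0, j, hj⟩ := hc
      have h2 : (if v 0 = y ∧ (∀ i : ZMod k, i ≠ 0 → v i ∈ T j) then (1 : ℝ) else 0) ≤
          ∑ j : ZMod k,
            (if v 0 = y ∧ (∀ i : ZMod k, i ≠ 0 → v i ∈ T j) then (1 : ℝ) else 0) := by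
        apply single_le_sum (f := fun j : ZMod k =>
          (if v 0 = y ∧ (∀ i : ZMod k, i ≠ 0 → v i ∈ T j) then (1 : ℝ) else 0))
          (fun j _ => by beta_reduce; split_ifs <;> norm_num) (mem_univ j)
      rw [if_pos ⟨h0, hj⟩] at h2
      exact h2
    · rw [if_neg hc]
      apply sum_nonneg
      intro j _
      split_ifs <;> norm_num
  refine h1.trans ?_
  rw [EE_sum]
  have h2 : ∀ j : ZMod k, EE G k x (fun v =>
      (if v 0 = y ∧ (∀ i : ZMod k, i ≠ 0 → v i ∈ T j) then (1 : ℝ) else 0)) ≤
      x y / k * (3 / k) ^ k := by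
    intro j
    have := DevB_own hk h (hT j) y
    have h3 : x y / k * (3 / k) ^ k = x y * (3 / k) ^ k / k := by ring
    rw [h3, le_div_iff₀ hk0]
    linarith
  refine (sum_le_sum fun j _ => h2 j).trans ?_
  rw [sum_const, card_univ, ZMod.card, nsmul_eq_mul]
  apply le_of_eq
  ring

theorem devB2 (hk : 100 ≤ k) (h : Opt G k x) (T : ZMod k → Finset V) (y : V) (l : ZMod k) :
    EE G k x (fun v => if v 0 = y ∧ monoUp T l v then 1 else 0) ≤
      x y / (2 * k) * lamy G x T y l := by
  refine (le_of_eq (EE_congr fun v _ => ?_)).trans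
    (DevB_main hk h T y l (Equiv.addLeft l) (by simp) (Or.inl ⟨by simp, by simp; ring⟩))
  exact if_congr Iff.rfl rfl rfl

theorem devB3 (hk : 100 ≤ k) (h : Opt G k x) (T : ZMod k → Finset V) (y : V) (l : ZMod k) :
    EE G k x (fun v => if v 0 = y ∧ monoDn T l v then 1 else 0) ≤
      x y / (2 * k) * lamy G x T y l := by
  refine (le_of_eq (EE_congr fun v _ => ?_)).trans
    (DevB_main hk h T y l (Equiv.subLeft l) (by simp) (Or.inr ⟨by simp, by simp⟩))
  exact if_congr Iff.rfl rfl rfl

end Pool.Agent.Icy
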