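import Mathlib

/-!
# A product measure concentrated on clone traces

For `J ⊆ ZMod k` let `p J = ∏_{j∈J} δ j ∏_{j∉J} (1 - δ j)`; `Σ_J p J = 1`.  `CT_l` = the `J` with `J \ {l} =
{l-1, l+1}`; `t_l = p(CT_l) = δ(l-1) δ(l+1) ∏_{j ≠ l-1,l,l+1} (1-δ j)`; the `CT_l` are disjoint (`k ≥ 7`).
For `J ∈ CT_l`, `j ≠ l` let `dev` = `1 - δ j` if `j = l ± 1`, else `δ j`; `p (J Δ {j}) ≥ p J · dev`.
`J Δ {j} ∉ ∪ CT` (two clone traces of different `l` differ in at least two elements).  Each `J' ∉ ∪ CT` is
`J Δ {j}`, `J ∈ CT_l`, for at most 8 pairs `(l, j)` (`|J'| ≤ 4`, `l ∈ J' ± 1`, and `j` is determined by `l`).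
So `Σ_l t_l D_l ≤ 8 ε`, `Σ t_l ≥ 1/2`, hence some `D_l ≤ 16 ε`.
-/

set_option autoImplicit false

open Finset
open scoped Classical

namespace Pool.Agent.Icy

namespace Hdelta

/-- weight of a value -/
noncomputable def w {k : ℕ} (δ : ZMod k → ℝ) (i : ZMod k) (b : Bool) : ℝ :=
  if b = true then δ i else 1 - δ i

/-- clone pattern -/
noncomputable def a {k : ℕ} (l i : ZMod k) : Bool := decide (i = l - 1 ∨ i = l + 1)

/-- the pattern flipped at `j` -/
noncomputable def c {k : ℕ} (l j i : ZMod k) : Bool := if i = j then !(a l i) else a l i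

theorem natNe {k : ℕ} (hk : 7 ≤ k) (n : ℕ) (h1 : 0 < n) (h2 : n < 7) : ((n : ℕ) : ZMod k) ≠ 0 := by
  intro h
  rw [ZMod.natCast_eq_zero_iff] at h
  have := Nat.le_of_dvd h1 h
  omega

theorem marg {k : ℕ} [NeZero k] (δ : ZMod k → ℝ) (l : ZMod k) (c : ZMod k → Bool) :
    ∑ X ∈ univ.filter (fun X : ZMod k → Bool => ∀ i, i ≠ l → X i = c i), ∏ i, w δ i (X i)
      = ∏ i ∈ univ.erase l, w δ i (c i) := by
  have h1 : ∀ X : ZMod k → Bool,
      (if (∀ i, i ≠ l → X i = c i) then ∏ i, w δ i (X i) else 0)
        = ∏ i, (if i = l then w δ i (X i) else if X i = c i then w δ i (X i) else 0) := by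
    intro X
    split_ifs with h
    · apply Finset.prod_congr rfl
      intro i _
      by_cases hi : i = l
      · simp [hi]
      · simp [hi, h i hi]
    · push_neg at h
      obtain ⟨i, hi, hX⟩ := h
      symm
      apply Finset.prod_eq_zero (Finset.mem_univ i)
      simp [hi, hX]
  rw [Finset.sum_filter, Finset.sum_congr rfl (fun X _ => h1 X)]
  have h2 := Finset.prod_univ_sum (fun _ : ZMod k => (univ : Finset Bool))
    (fun i b => if i = l then w δ i b else if b = c i then w δ i b else (0 : ℝ))
  rw [Fintype.piFinset_univ] at h2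
  rw [← h2, ← Finset.mul_prod_erase univ _ (Finset.mem_univ l)]
  have h3 : (∑ j : Bool, (if l = l then w δ l j else if j = c l then w δ l j else (0 : ℝ))) = 1 := by
    simp [w]
  rw [h3, one_mul]
  apply Finset.prod_congr rfl
  intro i hi
  have hil : i ≠ l := Finset.ne_of_mem_erase hi
  simp [hil]

theorem wnn {k : ℕ} {δ : ZMod k → ℝ} (h0 : ∀ j, 0 ≤ δ j) (h1 : ∀ j, δ j ≤ 1) (i : ZMod k) (b : Bool) :
    0 ≤ w δ i b := by
  unfold w
  split_ifs
  · exact h0 i
  · linarith [h1 i]

theorem wle {k : ℕ} {δ : ZMod k → ℝ} (h0 : ∀ j, 0 ≤ δ j) (h1 : ∀ j, δ j ≤ 1) (i : ZMod k) (b : Bool) :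
    w δ i b ≤ 1 := by
  unfold w
  split_ifs
  · exact h1 i
  · linarith [h0 i]

theorem er {k : ℕ} [NeZero k] (hk : 7 ≤ k) (l : ZMod k) :
    (univ : Finset (ZMod k)).erase l = insert (l - 1) (insert (l + 1)
      (univ.filter (fun j => j ≠ l - 1 ∧ j ≠ l ∧ j ≠ l + 1))) := by
  have n1 : (1 : ZMod k) ≠ 0 := by simpa using natNe hk 1 (by norm_num) (by norm_num)
  ext j
  simp only [mem_erase, mem_univ, and_true, mem_insert, mem_filter, true_and]
  constructor
  · intro h
    by_cases h1 : j = l - 1
    · exact Or.inl h1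
    · by_cases h2 : j = l + 1
      · exact Or.inr (Or.inl h2)
      · exact Or.inr (Or.inr ⟨h1, h, h2⟩)
  · rintro (h | h | h)
    · rw [h]
      intro h'
      exact n1 (by linear_combination -h')
    · rw [h]
      intro h'
      exact n1 (by linear_combination h')
    · exact h.2.1

theorem l1 {k : ℕ} [NeZero k] (hk : 7 ≤ k) (l : ZMod k) : l - 1 ≠ l + 1 := by
  have n2 : (2 : ZMod k) ≠ 0 := by simpa using natNe hk 2 (by norm_num) (by norm_num)
  intro h
  exact n2 (by linear_combination -h)

theorem tEq {k : ℕ} [NeZero k] (hk : 7 ≤ k) (δ : ZMod k → ℝ) (l : ZMod k) :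
    ∏ i ∈ univ.erase l, w δ i (a l i) = δ (l - 1) * δ (l + 1) *
      ∏ j ∈ univ.filter (fun j => j ≠ l - 1 ∧ j ≠ l ∧ j ≠ l + 1), (1 - δ j) := by
  rw [er hk, Finset.prod_insert, Finset.prod_insert, mul_assoc]
  · congr 1
    · simp [w, a]
    · congr 1
      · simp [w, a]
      · apply Finset.prod_congr rfl
        intro j hj
        simp only [mem_filter, mem_univ, true_and] at hj
        simp [w, a, hj.1, hj.2.2]
  · simp
  · simp [l1 hk l]

theorem dEq {k : ℕ} [NeZero k] (hk : 7 ≤ k) (δ : ZMod k → ℝ) (l : ZMod k) :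
    ∑ i ∈ univ.erase l, w δ i (!(a l i)) = (1 - δ (l - 1)) + (1 - δ (l + 1)) +
      ∑ j ∈ univ.filter (fun j => j ≠ l - 1 ∧ j ≠ l ∧ j ≠ l + 1), δ j := by
  rw [er hk, Finset.sum_insert, Finset.sum_insert, add_assoc]
  · congr 1
    · simp [w, a]
    · congr 1
      · simp [w, a]
      · apply Finset.sum_congr rfl
        intro j hj
        simp only [mem_filter, mem_univ, true_and] at hj
        simp [w, a, hj.1, hj.2.2]
  · simp
  · simp [l1 hk l]

theorem qLe {k : ℕ} [NeZero k] {δ : ZMod k → ℝ} (h0 : ∀ j, 0 ≤ δ j) (h1 : ∀ j, δ j ≤ 1)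
    (l j : ZMod k) (hj : j ∈ (univ : Finset (ZMod k)).erase l) :
    (∏ i ∈ univ.erase l, w δ i (a l i)) * w δ j (!(a l j))
      ≤ ∏ i ∈ univ.erase l, w δ i (c l j i) := by
  rw [← Finset.mul_prod_erase _ _ hj, ← Finset.mul_prod_erase _ (fun i => w δ i (c l j i)) hj]
  have e1 : ∏ i ∈ (univ.erase l).erase j, w δ i (c l j i)
      = ∏ i ∈ (univ.erase l).erase j, w δ i (a l i) := by
    apply Finset.prod_congr rfl
    intro i hi
    have : i ≠ j := Finset.ne_of_mem_erase hi
    simp [c, this]
  have e2 : c l j j = !(a l j) := by simp [c]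
  simp only [e1, e2]
  have hP : 0 ≤ ∏ i ∈ (univ.erase l).erase j, w δ i (a l i) :=
    Finset.prod_nonneg (fun i _ => wnn h0 h1 i _)
  have hw := wle h0 h1 j (a l j)
  have hw' := wnn h0 h1 j (!(a l j))
  calc w δ j (a l j) * (∏ i ∈ (univ.erase l).erase j, w δ i (a l i)) * w δ j (!(a l j))
      ≤ 1 * (∏ i ∈ (univ.erase l).erase j, w δ i (a l i)) * w δ j (!(a l j)) := by
        apply mul_le_mul_of_nonneg_right _ hw'
        exact mul_le_mul_of_nonneg_right hw hP
    _ = _ := by ring

theorem two {k : ℕ} [NeZero k] (hk : 7 ≤ k) (l m : ZMod k) (h : l ≠ m) :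
    ∃ i j : ZMod k, i ≠ j ∧ i ≠ l ∧ i ≠ m ∧ j ≠ l ∧ j ≠ m ∧ a l i ≠ a m i ∧ a l j ≠ a m j := by
  have n1 : (1 : ZMod k) ≠ 0 := by simpa using natNe hk 1 (by norm_num) (by norm_num)
  have n2 : (2 : ZMod k) ≠ 0 := by simpa using natNe hk 2 (by norm_num) (by norm_num)
  have n3 : (3 : ZMod k) ≠ 0 := by simpa using natNe hk 3 (by norm_num) (by norm_num)
  have n4 : (4 : ZMod k) ≠ 0 := by simpa using natNe hk 4 (by norm_num) (by norm_num)
  have n5 : (5 : ZMod k) ≠ 0 := by simpa using natNe hk 5 (by norm_num) (by norm_num)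
  have aT : ∀ l i : ZMod k, (i = l - 1 ∨ i = l + 1) → a l i = true := by
    intro l i h; simp [a, h]
  have aF : ∀ l i : ZMod k, i ≠ l - 1 → i ≠ l + 1 → a l i = false := by
    intro l i h h'; simp [a, h, h']
  by_cases c1 : m = l + 1
  · subst c1
    refine ⟨l - 1, l + 2, ?_, ?_, ?_, ?_, ?_, ?_, ?_⟩
    · intro h; exact n3 (by linear_combination -h)
    · intro h; exact n1 (by linear_combination -h)
    · intro h; exact n2 (by linear_combination -h)
    · intro h; exact n2 (by linear_combination h)
    · intro h; exact n1 (by linear_combination h)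
    · rw [aT l _ (Or.inl rfl), aF (l + 1)]
      · simp
      · intro h; exact n1 (by linear_combination -h)
      · intro h; exact n3 (by linear_combination -h)
    · rw [aF l _, aT (l + 1) _ (Or.inr (by ring))]
      · simp
      · intro h; exact n3 (by linear_combination h)
      · intro h; exact n1 (by linear_combination h)
  by_cases c2 : m = l - 1
  · subst c2
    refine ⟨l + 1, l - 2, ?_, ?_, ?_, ?_, ?_, ?_, ?_⟩
    · intro h; exact n3 (by linear_combination h)
    · intro h; exact n1 (by linear_combination h)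
    · intro h; exact n2 (by linear_combination h)
    · intro h; exact n2 (by linear_combination -h)
    · intro h; exact n1 (by linear_combination -h)
    · rw [aT l _ (Or.inr rfl), aF (l - 1)]
      · simp
      · intro h; exact n3 (by linear_combination h)
      · intro h; exact n1 (by linear_combination h)
    · rw [aF l _, aT (l - 1) _ (Or.inl (by ring))]
      · simp
      · intro h; exact n1 (by linear_combination -h)
      · intro h; exact n3 (by linear_combination -h)
  by_cases c3 : m = l + 2
  · subst c3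
    refine ⟨l - 1, l + 3, ?_, ?_, ?_, ?_, ?_, ?_, ?_⟩
    · intro h; exact n4 (by linear_combination -h)
    · intro h; exact n1 (by linear_combination -h)
    · intro h; exact n3 (by linear_combination -h)
    · intro h; exact n3 (by linear_combination h)
    · intro h; exact n1 (by linear_combination h)
    · rw [aT l _ (Or.inl rfl), aF (l + 2)]
      · simp
      · intro h; exact n2 (by linear_combination -h)
      · intro h; exact n4 (by linear_combination -h)
    · rw [aF l _, aT (l + 2) _ (Or.inr (by ring))]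
      · simp
      · intro h; exact n4 (by linear_combination h)
      · intro h; exact n2 (by linear_combination h)
  by_cases c4 : m = l - 2
  · subst c4
    refine ⟨l + 1, l - 3, ?_, ?_, ?_, ?_, ?_, ?_, ?_⟩
    · intro h; exact n4 (by linear_combination h)
    · intro h; exact n1 (by linear_combination h)
    · intro h; exact n3 (by linear_combination h)
    · intro h; exact n3 (by linear_combination -h)
    · intro h; exact n1 (by linear_combination -h)
    · rw [aT l _ (Or.inr rfl), aF (l - 2)]
      · simp
      · intro h; exact n4 (by linear_combination h)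
      · intro h; exact n2 (by linear_combination h)
    · rw [aF l _, aT (l - 2) _ (Or.inl (by ring))]
      · simp
      · intro h; exact n2 (by linear_combination -h)
      · intro h; exact n4 (by linear_combination -h)
  refine ⟨l - 1, l + 1, l1 hk l, ?_, ?_, ?_, ?_, ?_, ?_⟩
  · intro h; exact n1 (by linear_combination -h)
  · exact fun h => c2 h.symm
  · intro h; exact n1 (by linear_combination h)
  · exact fun h => c1 h.symm
  · rw [aT l _ (Or.inl rfl), aF m]
    · simp
    · intro h'; exact h (by linear_combination h')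
    · intro h'; exact c4 (by linear_combination -h')
  · rw [aT l _ (Or.inr rfl), aF m]
    · simp
    · intro h'; exact c3 (by linear_combination -h')
    · intro h'; exact h (by linear_combination h')

theorem card8 {k : ℕ} [NeZero k] (hk : 7 ≤ k) (X : ZMod k → Bool) :
    (univ.filter (fun q : ZMod k × ZMod k => q.2 ≠ q.1 ∧ ∀ i, i ≠ q.1 → X i = c q.1 q.2 i)).card
      ≤ 8 := by
  have n1 : (1 : ZMod k) ≠ 0 := by simpa using natNe hk 1 (by norm_num) (by norm_num)
  set Q := univ.filter (fun q : ZMod k × ZMod k => q.2 ≠ q.1 ∧ ∀ i, i ≠ q.1 → X i = c q.1 q.2 i)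
    with hQ
  rcases Finset.eq_empty_or_nonempty Q with he | ⟨q0, hq0⟩
  · rw [he]; simp
  set S := univ.filter (fun i : ZMod k => X i = true) with hS
  have hS4 : S.card ≤ 4 := by
    rw [hQ, mem_filter] at hq0
    have hsub : S ⊆ {q0.1, q0.1 - 1, q0.1 + 1, q0.2} := by
      intro i hi
      rw [hS, mem_filter] at hi
      simp only [mem_insert, mem_singleton]
      by_contra hcon
      push_neg at hcon
      have := hq0.2.2 i hcon.1
      rw [hi.2] at this
      simp [c, a, hcon.2.2.2, hcon.2.1, hcon.2.2.1] at this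
    exact (Finset.card_le_card hsub).trans Finset.card_le_four
  have hX : ∀ q ∈ Q, X (q.1 - 1) = true ∨ X (q.1 + 1) = true := by
    intro q hq
    rw [hQ, mem_filter] at hq
    by_cases h : q.2 = q.1 - 1
    · right
      rw [hq.2.2 (q.1 + 1) (fun h => n1 (by linear_combination h))]
      have : q.1 + 1 ≠ q.2 := by rw [h]; exact (l1 hk q.1).symm
      simp [c, a, this]
    · left
      rw [hq.2.2 (q.1 - 1) (fun h => n1 (by linear_combination -h))]
      have : q.1 - 1 ≠ q.2 := fun h' => h h'.symm
      simp [c, a, this]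
  have hinj : Set.InjOn (fun q : ZMod k × ZMod k =>
      if X (q.1 - 1) = true then (q.1 - 1, true) else (q.1 + 1, false)) (Q : Set (ZMod k × ZMod k)) := by
    intro q hq r hr hqr
    have hl : q.1 = r.1 := by
      simp only at hqr
      split_ifs at hqr
      · have := (Prod.mk.inj hqr).1
        linear_combination this
      · simp at hqr
      · simp at hqr
      · have := (Prod.mk.inj hqr).1
        linear_combination this
    rw [Finset.mem_coe, hQ, mem_filter] at hq hr
    refine Prod.ext hl ?_
    by_contra hne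
    have e1 := hq.2.2 q.2 hq.2.1
    have e2 := hr.2.2 q.2 (by rw [← hl]; exact hq.2.1)
    rw [e1] at e2
    simp only [c, if_true, hne, if_false, hl] at e2
    simp at e2
  have hmaps : ∀ q ∈ Q, (if X (q.1 - 1) = true then (q.1 - 1, true) else (q.1 + 1, false)) ∈
      S ×ˢ (univ : Finset Bool) := by
    intro q hq
    split_ifs with h
    · simp [hS, h]
    · rcases hX q hq with h' | h'
      · exact absurd h' h
      · simp [hS, h']
  have := Finset.card_le_card_of_injOn _ hmaps hinj
  rw [Finset.card_product] at this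
  simp only [Finset.card_univ, Fintype.card_bool] at this
  omega

end Hdelta

open Hdelta in
theorem hdelta {k : ℕ} [NeZero k] (hk : 7 ≤ k) (δ : ZMod k → ℝ) (h0 : ∀ j, 0 ≤ δ j)
    (h1 : ∀ j, δ j ≤ 1) {ε : ℝ} (hε : ε ≤ 1 / 2)
    (hH : 1 - ε ≤ ∑ l : ZMod k, δ (l - 1) * δ (l + 1) *
      ∏ j ∈ univ.filter (fun j => j ≠ l - 1 ∧ j ≠ l ∧ j ≠ l + 1), (1 - δ j)) :
    ∃ l : ZMod k, (1 - δ (l - 1)) + (1 - δ (l + 1)) +
      ∑ j ∈ univ.filter (fun j => j ≠ l - 1 ∧ j ≠ l ∧ j ≠ l + 1), δ j ≤ 16 * ε := by
  by_contra hcon
  push_neg at hcon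
  set T : ZMod k → ℝ := fun l => ∏ i ∈ univ.erase l, w δ i (a l i) with hT
  set D : ZMod k → ℝ := fun l => ∑ i ∈ univ.erase l, w δ i (!(a l i)) with hD
  have hTsum : 1 - ε ≤ ∑ l, T l := by
    refine hH.trans (le_of_eq ?_)
    apply Finset.sum_congr rfl
    intro l _
    exact (tEq hk δ l).symm
  have hDgt : ∀ l, 16 * ε < D l := by
    intro l
    have := hcon l
    rw [← dEq hk δ l] at this
    exact this
  have hTnn : ∀ l, 0 ≤ T l := fun l => Finset.prod_nonneg (fun i _ => wnn h0 h1 i _)
  have hpnn : ∀ X : ZMod k → Bool, 0 ≤ ∏ i, w δ i (X i) :=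
    fun X => Finset.prod_nonneg (fun i _ => wnn h0 h1 i _)
  -- total mass one
  have htot : ∑ X : ZMod k → Bool, ∏ i, w δ i (X i) = 1 := by
    have h2 := Finset.prod_univ_sum (fun _ : ZMod k => (univ : Finset Bool)) (fun i b => w δ i b)
    rw [Fintype.piFinset_univ] at h2
    rw [← h2]
    apply Finset.prod_eq_one
    intro i _
    simp [w]
  -- the main double counting
  have hmain : ∑ l, T l * D l + 8 * ∑ l, T l ≤ 8 := by
    have hA : ∑ l, T l * D l ≤ ∑ l, ∑ j ∈ univ.erase l, ∏ i ∈ univ.erase l, w δ i (c l j i) := by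
      apply Finset.sum_le_sum
      intro l _
      rw [hD, Finset.mul_sum]
      exact Finset.sum_le_sum (fun j hj => qLe h0 h1 l j hj)
    have hB : ∑ l, ∑ j ∈ univ.erase l, ∏ i ∈ univ.erase l, w δ i (c l j i)
        = ∑ X : ZMod k → Bool, (∏ i, w δ i (X i)) *
          ((univ.filter (fun q : ZMod k × ZMod k => q.2 ≠ q.1 ∧
            ∀ i, i ≠ q.1 → X i = c q.1 q.2 i)).card : ℝ) := by
      have e1 : ∀ l : ZMod k, ∑ j ∈ univ.erase l, ∏ i ∈ univ.erase l, w δ i (c l j i)
          = ∑ j : ZMod k, ∑ X : ZMod k → Bool,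
            if (j ≠ l ∧ ∀ i, i ≠ l → X i = c l j i) then ∏ i, w δ i (X i) else 0 := by
        intro l
        rw [← Finset.sum_subset (Finset.subset_univ (univ.erase l))]
        · apply Finset.sum_congr rfl
          intro j hj
          have hjl : j ≠ l := Finset.ne_of_mem_erase hj
          rw [← marg δ l (c l j), Finset.sum_filter]
          apply Finset.sum_congr rfl
          intro X _
          simp [hjl]
        · intro j _ hj
          have hjl : j = l := by
            by_contra h
            exact hj (Finset.mem_erase.mpr ⟨h, Finset.mem_univ _⟩)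
          apply Finset.sum_eq_zero
          intro X _
          simp [hjl]
      rw [Finset.sum_congr rfl (fun l _ => e1 l)]
      have e2 : ∑ l : ZMod k, ∑ j : ZMod k, ∑ X : ZMod k → Bool,
            (if (j ≠ l ∧ ∀ i, i ≠ l → X i = c l j i) then ∏ i, w δ i (X i) else 0)
          = ∑ q : ZMod k × ZMod k, ∑ X : ZMod k → Bool,
            (if (q.2 ≠ q.1 ∧ ∀ i, i ≠ q.1 → X i = c q.1 q.2 i) then ∏ i, w δ i (X i) else 0) := by
        rw [Fintype.sum_prod_type]
      rw [e2, Finset.sum_comm]
      apply Finset.sum_congr rfl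
      intro X _
      rw [← Finset.sum_filter, Finset.sum_const, nsmul_eq_mul, mul_comm]
    have hC : ∑ l, T l = ∑ X : ZMod k → Bool, (∏ i, w δ i (X i)) *
        ((univ.filter (fun l : ZMod k => ∀ i, i ≠ l → X i = a l i)).card : ℝ) := by
      have e1 : ∀ l : ZMod k, T l = ∑ X : ZMod k → Bool,
          if (∀ i, i ≠ l → X i = a l i) then ∏ i, w δ i (X i) else 0 := by
        intro l
        rw [hT]
        simp only
        rw [← marg δ l (a l), Finset.sum_filter]
      rw [Finset.sum_congr rfl (fun l _ => e1 l), Finset.sum_comm]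
      apply Finset.sum_congr rfl
      intro X _
      rw [← Finset.sum_filter, Finset.sum_const, nsmul_eq_mul, mul_comm]
    rw [hC]
    calc _ ≤ ∑ X : ZMod k → Bool, (∏ i, w δ i (X i)) *
          ((univ.filter (fun q : ZMod k × ZMod k => q.2 ≠ q.1 ∧
            ∀ i, i ≠ q.1 → X i = c q.1 q.2 i)).card : ℝ) +
          8 * ∑ X : ZMod k → Bool, (∏ i, w δ i (X i)) *
        ((univ.filter (fun l : ZMod k => ∀ i, i ≠ l → X i = a l i)).card : ℝ) := by
            rw [← hB]; linarith [hA]
      _ = ∑ X : ZMod k → Bool, (∏ i, w δ i (X i)) *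
          (((univ.filter (fun q : ZMod k × ZMod k => q.2 ≠ q.1 ∧
            ∀ i, i ≠ q.1 → X i = c q.1 q.2 i)).card : ℝ) +
            8 * ((univ.filter (fun l : ZMod k => ∀ i, i ≠ l → X i = a l i)).card : ℝ)) := by
            rw [Finset.mul_sum, ← Finset.sum_add_distrib]
            apply Finset.sum_congr rfl
            intro X _
            ring
      _ ≤ ∑ X : ZMod k → Bool, (∏ i, w δ i (X i)) * 8 := by
            apply Finset.sum_le_sum
            intro X _
            apply mul_le_mul_of_nonneg_left _ (hpnn X)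
            rcases Finset.eq_empty_or_nonempty
              (univ.filter (fun l : ZMod k => ∀ i, i ≠ l → X i = a l i)) with he | ⟨m, hm⟩
            · rw [he]
              have := card8 hk X
              have h8 : ((univ.filter (fun q : ZMod k × ZMod k => q.2 ≠ q.1 ∧
                ∀ i, i ≠ q.1 → X i = c q.1 q.2 i)).card : ℝ) ≤ 8 := by exact_mod_cast this
              simpa using h8
            · rw [mem_filter] at hm
              have hone : univ.filter (fun l : ZMod k => ∀ i, i ≠ l → X i = a l i) = {m} := by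
                ext l
                simp only [mem_filter, mem_univ, true_and, mem_singleton]
                constructor
                · intro hl
                  by_contra hne
                  obtain ⟨i, j, _, hil, him, _, _, hai, _⟩ := two hk l m hne
                  exact hai ((hl i hil).symm.trans (hm.2 i him))
                · intro h
                  rw [h]
                  exact hm.2
              have hzero : univ.filter (fun q : ZMod k × ZMod k => q.2 ≠ q.1 ∧
                  ∀ i, i ≠ q.1 → X i = c q.1 q.2 i) = ∅ := by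
                rw [Finset.filter_eq_empty_iff]
                rintro ⟨l, j⟩ _ ⟨hjl, hq⟩
                simp only at hjl hq
                by_cases hlm : l = m
                · have e1 := hq j hjl
                  have e2 := hm.2 j (by rw [← hlm]; exact hjl)
                  rw [e1, hlm] at e2
                  simp [c] at e2
                · obtain ⟨i, i', hii, hil, him, hil', him', hai, hai'⟩ := two hk l m hlm
                  by_cases hij : i = j
                  · have hij' : i' ≠ j := fun h => hii (hij.trans h.symm)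
                    have e1 := hq i' hil'
                    have e2 := hm.2 i' him'
                    rw [e1] at e2
                    simp only [c, hij', if_false] at e2
                    exact hai' e2
                  · have e1 := hq i hil
                    have e2 := hm.2 i him
                    rw [e1] at e2
                    simp only [c, hij, if_false] at e2
                    exact hai e2
              rw [hone, hzero]
              simp
      _ = 8 := by rw [← Finset.sum_mul, htot, one_mul]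
  -- conclusion
  have hlow : 16 * ε * ∑ l, T l ≤ ∑ l, T l * D l := by
    rw [Finset.mul_sum]
    apply Finset.sum_le_sum
    intro l _
    have := mul_le_mul_of_nonneg_left (hDgt l).le (hTnn l)
    linarith
  have hTle : ∑ l, T l ≤ 1 := by
    have hDnn : 0 ≤ ∑ l, T l * D l := by
      apply Finset.sum_nonneg
      intro l _
      exact mul_nonneg (hTnn l) (Finset.sum_nonneg (fun i _ => wnn h0 h1 i _))
    linarith
  -- strictness
  have hpos : ∃ l, 0 < T l := by
    by_contra h
    push_neg at h
    have : ∑ l, T l ≤ 0 := Finset.sum_nonpos (fun l _ => h l)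
    linarith
  obtain ⟨l0, hl0⟩ := hpos
  have hstrict : 16 * ε * ∑ l, T l < ∑ l, T l * D l := by
    rw [Finset.mul_sum]
    apply Finset.sum_lt_sum
    · intro l _
      have := mul_le_mul_of_nonneg_left (hDgt l).le (hTnn l)
      linarith
    · refine ⟨l0, Finset.mem_univ _, ?_⟩
      have := mul_lt_mul_of_pos_left (hDgt l0) hl0
      linarith
  have hε0 : 0 ≤ ε := by linarith
  nlinarith [hstrict, hmain, hTsum, hTle, mul_nonneg hε0 (by linarith : (0:ℝ) ≤ ∑ l, T l - (1 - ε))]

end Pool.Agent.Icy
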