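import Pool.Agent.Icy.DevA
import Pool.Agent.Icy.DevB
import Pool.Agent.Icy.Hdelta

/-!
# (9.2): every vertex looks like a member of one class

`devA`, `devB1..3` divided by `x_y / k`: `1 ≤ 28.5 η + Σ_l lamy l`.  With `t_j = wt (T j)`, `n_j = wt (nbin (T j)
y)`, `δ_j = n_j/t_j ∈ [0,1]`: `lamy l = (∏_{j≠l} t_j) δ_{l-1} δ_{l+1} ∏ (1-δ_j)`, and `∏_{j≠l} t_j ≤ exp (Σ_{j≠l}
(t_j - 1)) ≤ exp (1 - t_l) ≤ e^η` (`Σ t_j ≤ k`).  `hdelta` with `ε = 30.5 η`: `D_l ≤ 488 η`; `t_j ≤ 1 + η`.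
-/

set_option autoImplicit false

open Finset
open scoped Classical

namespace Pool.Agent.Icy

variable {V : Type} [Fintype V] {G : SimpleGraph V} {k : ℕ} [NeZero k] {x : V → ℝ}

theorem Dev92_ne (hk : 100 ≤ k) (l : ZMod k) : l - 1 ≠ l ∧ l ≠ l + 1 ∧ l - 1 ≠ l + 1 := by
  have h1 : ((1 : ℕ) : ZMod k) ≠ 0 := by
    intro h
    rw [ZMod.natCast_eq_zero_iff] at h
    have := Nat.le_of_dvd (by norm_num) h
    omega
  have h2 : ((2 : ℕ) : ZMod k) ≠ 0 := by
    intro h
    rw [ZMod.natCast_eq_zero_iff] at h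
    have := Nat.le_of_dvd (by norm_num) h
    omega
  push_cast at h1 h2
  refine ⟨?_, ?_, ?_⟩
  · intro h
    apply h1
    linear_combination (-1 : ZMod k) * h
  · intro h
    apply h1
    linear_combination (-1 : ZMod k) * h
  · intro h
    apply h2
    linear_combination (-1 : ZMod k) * h

theorem Dev92_sum (hk : 100 ≤ k) (l : ZMod k) (f : ZMod k → ℝ) :
    ∑ j, f j = f (l - 1) + f l + f (l + 1) +
      ∑ j ∈ univ.filter (fun j => j ≠ l - 1 ∧ j ≠ l ∧ j ≠ l + 1), f j := by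
  obtain ⟨n1, n2, n3⟩ := Dev92_ne hk l
  rw [← Finset.sum_filter_add_sum_filter_not univ (fun j => j ≠ l - 1 ∧ j ≠ l ∧ j ≠ l + 1) f]
  have e : (univ.filter (fun j : ZMod k => ¬ (j ≠ l - 1 ∧ j ≠ l ∧ j ≠ l + 1))) =
      {l - 1, l, l + 1} := by
    ext j
    simp only [Finset.mem_filter, Finset.mem_univ, true_and, Finset.mem_insert,
      Finset.mem_singleton]
    tauto
  rw [e, Finset.sum_insert (by simp [n1, n3]), Finset.sum_insert (by simp [n2]),
    Finset.sum_singleton]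
  ring

theorem Dev92_total (h : Opt G k x) {T : ZMod k → Finset V}
    (hd : ∀ i j, i ≠ j → Disjoint (T i) (T j)) : ∑ j, wt x (T j) ≤ k := by
  have e : ∑ j, wt x (T j) = ∑ v ∈ (univ : Finset (ZMod k)).biUnion T, x v := by
    unfold wt
    rw [Finset.sum_biUnion]
    intro i _ j _ hij
    exact hd i j hij
  rw [e, ← h.sum]
  exact Finset.sum_le_sum_of_subset_of_nonneg (Finset.subset_univ _) fun v _ _ => (h.pos v).le

theorem dev92 (hk : 100 ≤ k) (h : Opt G k x) {T : ZMod k → Finset V} {η : ℝ} (hη0 : 0 < η)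
    (hη : η ≤ 1 / 10 ^ 4) (hS : S91 G x T η) (hkη : (k : ℝ) * (3 / k) ^ k ≤ η) (y : V) :
    ∃ l : ZMod k, wt x (nnin G (T (l - 1)) y) + wt x (nnin G (T (l + 1)) y) +
      ∑ j ∈ univ.filter (fun j => j ≠ l - 1 ∧ j ≠ l ∧ j ≠ l + 1), wt x (nbin G (T j) y) ≤
        500 * η := by
  have hx : ∀ v, 0 ≤ x v := fun v => (h.pos v).le
  have hkpos : (0 : ℝ) < k := by
    have : 0 < k := by omega
    exact_mod_cast this
  have ht : ∀ j, 1 - η ≤ wt x (T j) ∧ wt x (T j) ≤ 1 + η := by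
    intro j
    have := abs_le.1 (hS.size j)
    constructor <;> linarith [this.1, this.2]
  have ht2 : ∀ j, wt x (T j) ≤ 2 := fun j => by
    have := (ht j).2
    norm_num at hη
    linarith
  have htpos : ∀ j, 0 < wt x (T j) := fun j => by
    have := (ht j).1
    norm_num at hη
    linarith
  -- the inequality for the sum of `lamy`
  have A := devA hk h hη0 hS y
  have B1 := devB1 hk h ht2 y
  have B2 : ∑ l, EE G k x (fun v => if v 0 = y ∧ monoUp T l v then 1 else 0) ≤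
      ∑ l, x y / (2 * k) * lamy G x T y l := Finset.sum_le_sum fun l _ => devB2 hk h T y l
  have B3 : ∑ l, EE G k x (fun v => if v 0 = y ∧ monoDn T l v then 1 else 0) ≤
      ∑ l, x y / (2 * k) * lamy G x T y l := Finset.sum_le_sum fun l _ => devB3 hk h T y l
  rw [← Finset.mul_sum] at B2 B3
  have hxy : 0 < x y / k := div_pos (h.pos y) hkpos
  have hmain : 1 ≤ (Real.exp 2 + Real.exp 3) * η + η + ∑ l, lamy G x T y l := by
    have e1 : (Real.exp 2 + Real.exp 3) * η * x y / k = x y / k * ((Real.exp 2 + Real.exp 3) * η) := by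
      ring
    have e2 : x y / (2 * k) * ∑ l, lamy G x T y l = x y / k * ((∑ l, lamy G x T y l) / 2) := by
      field_simp
    have e3 : x y / k * (k * (3 / k) ^ k) ≤ x y / k * η := mul_le_mul_of_nonneg_left hkη hxy.le
    rw [e1] at A
    rw [e2] at B2 B3
    have : x y / k * 1 ≤ x y / k * ((Real.exp 2 + Real.exp 3) * η + η + ∑ l, lamy G x T y l) := by
      calc x y / k * 1 = x y / k := by ring
        _ ≤ _ := A
        _ ≤ x y / k * ((Real.exp 2 + Real.exp 3) * η) + x y / k * η +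
            x y / k * ((∑ l, lamy G x T y l) / 2) + x y / k * ((∑ l, lamy G x T y l) / 2) := by
          linarith
        _ = _ := by ring
    exact le_of_mul_le_mul_left this hxy
  have hexp : Real.exp 2 + Real.exp 3 ≤ 27.5 := by
    have h1 := Real.exp_one_lt_d9
    have h0 := Real.exp_pos 1
    have e2 : Real.exp 2 = Real.exp 1 ^ 2 := by
      rw [← Real.exp_nat_mul]; norm_num
    have e3 : Real.exp 3 = Real.exp 1 ^ 3 := by
      rw [← Real.exp_nat_mul]; norm_num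
    have a2 : Real.exp 1 ^ 2 ≤ (2.7182818286 : ℝ) ^ 2 := pow_le_pow_left₀ h0.le h1.le 2
    have a3 : Real.exp 1 ^ 3 ≤ (2.7182818286 : ℝ) ^ 3 := pow_le_pow_left₀ h0.le h1.le 3
    rw [e2, e3]
    norm_num at a2 a3 ⊢
    linarith
  have hmain2 : 1 - 28.5 * η ≤ ∑ l, lamy G x T y l := by
    have := mul_le_mul_of_nonneg_right hexp hη0.le
    linarith
  -- the relative degrees
  set δ : ZMod k → ℝ := fun j => wt x (nbin G (T j) y) / wt x (T j) with hδ
  have hn0 : ∀ j, 0 ≤ wt x (nbin G (T j) y) := fun j => Finset.sum_nonneg fun v _ => hx v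
  have hm0 : ∀ j, 0 ≤ wt x (nnin G (T j) y) := fun j => Finset.sum_nonneg fun v _ => hx v
  have hspl : ∀ j, wt x (T j) = wt x (nbin G (T j) y) + wt x (nnin G (T j) y) := by
    intro j
    unfold wt nbin nnin
    exact (Finset.sum_filter_add_sum_filter_not (T j) (fun u => G.Adj y u) x).symm
  have d0 : ∀ j, 0 ≤ δ j := fun j => div_nonneg (hn0 j) (htpos j).le
  have d1 : ∀ j, δ j ≤ 1 := fun j => by
    rw [hδ]
    simp only
    rw [div_le_one (htpos j)]
    linarith [hspl j, hm0 j]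
  have en : ∀ j, wt x (nbin G (T j) y) = wt x (T j) * δ j := fun j => by
    rw [hδ]
    simp only
    rw [mul_div_cancel₀ _ (htpos j).ne']
  have em : ∀ j, wt x (nnin G (T j) y) = wt x (T j) * (1 - δ j) := fun j => by
    have := hspl j
    have e2 := en j
    linarith
  have htot := Dev92_total h hS.disj
  have hlam : ∀ l, lamy G x T y l ≤ Real.exp η * (δ (l - 1) * δ (l + 1) *
      ∏ j ∈ univ.filter (fun j => j ≠ l - 1 ∧ j ≠ l ∧ j ≠ l + 1), (1 - δ j)) := by
    intro l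
    have hP : (0 : ℝ) ≤ ∏ j ∈ univ.filter (fun j => j ≠ l - 1 ∧ j ≠ l ∧ j ≠ l + 1), (1 - δ j) :=
      Finset.prod_nonneg fun j _ => by linarith [d1 j]
    have e : lamy G x T y l = (wt x (T (l - 1)) * wt x (T (l + 1)) *
        ∏ j ∈ univ.filter (fun j => j ≠ l - 1 ∧ j ≠ l ∧ j ≠ l + 1), wt x (T j)) *
        (δ (l - 1) * δ (l + 1) *
          ∏ j ∈ univ.filter (fun j => j ≠ l - 1 ∧ j ≠ l ∧ j ≠ l + 1), (1 - δ j)) := by
      unfold lamy
      rw [en, en, Finset.prod_congr rfl fun j _ => em j, Finset.prod_mul_distrib]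
      ring
    rw [e]
    refine mul_le_mul_of_nonneg_right ?_ (mul_nonneg (mul_nonneg (d0 _) (d0 _)) hP)
    have hb : ∀ j, wt x (T j) ≤ Real.exp (wt x (T j) - 1) := fun j => by
      have := Real.add_one_le_exp (wt x (T j) - 1)
      linarith
    have hprod : ∏ j ∈ univ.filter (fun j => j ≠ l - 1 ∧ j ≠ l ∧ j ≠ l + 1), wt x (T j) ≤
        Real.exp (∑ j ∈ univ.filter (fun j => j ≠ l - 1 ∧ j ≠ l ∧ j ≠ l + 1), (wt x (T j) - 1)) := by
      rw [Real.exp_sum]
      exact Finset.prod_le_prod (fun j _ => (htpos j).le) fun j _ => hb j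
    have hS1 := Dev92_sum hk l (fun j => wt x (T j) - 1)
    have hS2 : ∑ j : ZMod k, (wt x (T j) - 1) ≤ 0 := by
      rw [Finset.sum_sub_distrib, Finset.sum_const, Finset.card_univ, ZMod.card, nsmul_eq_mul]
      linarith
    calc wt x (T (l - 1)) * wt x (T (l + 1)) *
        ∏ j ∈ univ.filter (fun j => j ≠ l - 1 ∧ j ≠ l ∧ j ≠ l + 1), wt x (T j)
        ≤ Real.exp (wt x (T (l - 1)) - 1) * Real.exp (wt x (T (l + 1)) - 1) *
          Real.exp (∑ j ∈ univ.filter (fun j => j ≠ l - 1 ∧ j ≠ l ∧ j ≠ l + 1),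
            (wt x (T j) - 1)) := by
          refine mul_le_mul (mul_le_mul (hb _) (hb _) (htpos _).le (Real.exp_pos _).le) hprod
            (Finset.prod_nonneg fun j _ => (htpos j).le) (by positivity)
      _ = Real.exp ((wt x (T (l - 1)) - 1) + (wt x (T (l + 1)) - 1) +
          ∑ j ∈ univ.filter (fun j => j ≠ l - 1 ∧ j ≠ l ∧ j ≠ l + 1), (wt x (T j) - 1)) := by
          rw [Real.exp_add, Real.exp_add]
      _ ≤ Real.exp η := by
          refine Real.exp_le_exp.2 ?_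
          have := (ht l).1
          linarith
  have hH0 : 1 - 30.5 * η ≤ ∑ l : ZMod k, δ (l - 1) * δ (l + 1) *
      ∏ j ∈ univ.filter (fun j => j ≠ l - 1 ∧ j ≠ l ∧ j ≠ l + 1), (1 - δ j) := by
    set H := ∑ l : ZMod k, δ (l - 1) * δ (l + 1) *
      ∏ j ∈ univ.filter (fun j => j ≠ l - 1 ∧ j ≠ l ∧ j ≠ l + 1), (1 - δ j) with hHdef
    have hsum : ∑ l, lamy G x T y l ≤ Real.exp η * H := by
      rw [hHdef, Finset.mul_sum]
      exact Finset.sum_le_sum fun l _ => hlam l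
    have h1 : 1 - 28.5 * η ≤ Real.exp η * H := hmain2.trans hsum
    have h2 : Real.exp (-η) * (1 - 28.5 * η) ≤ H := by
      have := mul_le_mul_of_nonneg_left h1 (Real.exp_pos (-η)).le
      rw [← mul_assoc, ← Real.exp_add] at this
      simpa using this
    have h3 : 1 - η ≤ Real.exp (-η) := by
      have := Real.add_one_le_exp (-η)
      linarith
    have h4 : 0 ≤ 1 - 28.5 * η := by
      norm_num at hη ⊢
      linarith
    have h5 := mul_le_mul_of_nonneg_right h3 h4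
    nlinarith
  have hε : 30.5 * η ≤ 1 / 2 := by
    norm_num at hη ⊢
    linarith
  obtain ⟨l, hl⟩ := hdelta (by omega) δ d0 d1 hε hH0
  refine ⟨l, ?_⟩
  have hF0 : ∀ j, wt x (nbin G (T j) y) ≤ (1 + η) * δ j := fun j => by
    rw [en j]
    exact mul_le_mul_of_nonneg_right (ht j).2 (d0 j)
  have hF1 : ∀ j, wt x (nnin G (T j) y) ≤ (1 + η) * (1 - δ j) := fun j => by
    rw [em j]
    exact mul_le_mul_of_nonneg_right (ht j).2 (by linarith [d1 j])
  have hsumF : ∑ j ∈ univ.filter (fun j => j ≠ l - 1 ∧ j ≠ l ∧ j ≠ l + 1),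
      wt x (nbin G (T j) y) ≤ (1 + η) *
      ∑ j ∈ univ.filter (fun j => j ≠ l - 1 ∧ j ≠ l ∧ j ≠ l + 1), δ j := by
    rw [Finset.mul_sum]
    exact Finset.sum_le_sum fun j _ => hF0 j
  have a1 := hF1 (l - 1)
  have a2 := hF1 (l + 1)
  have hle := mul_le_mul_of_nonneg_left hl (by linarith : (0 : ℝ) ≤ 1 + η)
  have hfin : (1 + η) * (16 * (30.5 * η)) ≤ 500 * η := by
    norm_num at hη ⊢
    nlinarith
  calc _ ≤ (1 + η) * (1 - δ (l - 1)) + (1 + η) * (1 - δ (l + 1)) + (1 + η) *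
      ∑ j ∈ univ.filter (fun j => j ≠ l - 1 ∧ j ≠ l ∧ j ≠ l + 1), δ j := by
        linarith
    _ = (1 + η) * ((1 - δ (l - 1)) + (1 - δ (l + 1)) +
      ∑ j ∈ univ.filter (fun j => j ≠ l - 1 ∧ j ≠ l ∧ j ≠ l + 1), δ j) := by ring
    _ ≤ _ := hle
    _ ≤ _ := hfin

end Pool.Agent.Icy
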