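import Pool.Agent.Icy.WrDefs
import Pool.Agent.Icy.Dev92

/-!
# Reassignment

`lab y` = an `l` as in `dev92`, `T' l = {y : lab y = l}`.
If `u ∈ T i`, `l = lab u ≠ i`: some `j ∈ {l-1, l+1}` is not in `{i-1, i, i+1}` (`k ≥ 7`); `u` is adjacent to
weight `≥ 1 - 501 η ≥ 1/2` of `T j`: wrong.  So the weight of these `u` is `≤ 2 η`; with the rest: the
vertices with `lab u ≠` old class or without old class have weight `≤ 3 η`.
`wrv T' l y ≤ 500 η + 3 η`; sizes `|wt (T' l) - 1| ≤ η + 3 η`; `wrM T' ≤ η + 2 · 3η · 503 η ≤ 2 η`.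
-/

set_option autoImplicit false

open Finset
open scoped Classical

namespace Pool.Agent.Icy

set_option linter.unusedSectionVars false

variable {V : Type} [Fintype V] {G : SimpleGraph V} {k : ℕ} [NeZero k] {x : V → ℝ}

theorem Reassign_wt_eq (S : Finset V) (p : V → Prop) :
    wt x (S.filter p) = ∑ u, if u ∈ S ∧ p u then x u else 0 := by
  unfold wt
  rw [← Finset.sum_filter]
  congr 1
  ext u
  simp

theorem Reassign_wt_nonneg (hx : ∀ v, 0 ≤ x v) (S : Finset V) : 0 ≤ wt x S :=
  Finset.sum_nonneg (fun v _ => hx v)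

theorem Reassign_wt_mono (hx : ∀ v, 0 ≤ x v) {S S' : Finset V} (h : S ⊆ S') : wt x S ≤ wt x S' :=
  Finset.sum_le_sum_of_subset_of_nonneg h (fun v _ _ => hx v)

theorem Reassign_wt_union (hx : ∀ v, 0 ≤ x v) (S S' : Finset V) :
    wt x (S ∪ S') ≤ wt x S + wt x S' := by
  unfold wt
  rw [← Finset.sum_union_inter]
  have := Finset.sum_nonneg (s := S ∩ S') (fun v _ => hx v)
  linarith

/-- double counting with labels -/
theorem Reassign_lab (lab : V → ZMod k) (f : ZMod k → V → ℝ) :
    ∑ i, ∑ u ∈ univ.filter (fun u => lab u = i), f i u = ∑ u, f (lab u) u := by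
  have h1 : ∀ i, ∑ u ∈ univ.filter (fun u => lab u = i), f i u =
      ∑ u, if lab u = i then f i u else 0 := fun i => by rw [Finset.sum_filter]
  rw [Finset.sum_congr rfl (fun i _ => h1 i), Finset.sum_comm]
  refine Finset.sum_congr rfl (fun u _ => ?_)
  rw [Finset.sum_ite_eq]
  simp

theorem Reassign_wrv (lab : V → ZMod k) (i : ZMod k) (u : V) :
    wrv G x (fun l => univ.filter (fun y => lab y = l)) i u =
      ∑ u', if lab u' ≠ i ∧ Wr G i (lab u') u u' then x u' else 0 := by
  unfold wrv
  have h1 : ∀ j, wt x ((univ.filter (fun y => lab y = j)).filter (fun u' => Wr G i j u u')) =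
      ∑ u' ∈ univ.filter (fun y => lab y = j), if Wr G i j u u' then x u' else 0 := by
    intro j
    unfold wt
    rw [Finset.sum_filter]
  rw [Finset.sum_filter]
  rw [Finset.sum_congr rfl (fun j _ => by rw [h1 j])]
  have h2 : ∀ j, (if j ≠ i then ∑ u' ∈ univ.filter (fun y => lab y = j),
      (if Wr G i j u u' then x u' else 0) else 0) =
      ∑ u' ∈ univ.filter (fun y => lab y = j),
        (if j ≠ i ∧ Wr G i j u u' then x u' else 0) := by
    intro j
    by_cases hj : j ≠ i
    · simp [hj]
    · simp [hj]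
  rw [Finset.sum_congr rfl (fun j _ => h2 j)]
  rw [Reassign_lab lab (fun j u' => if j ≠ i ∧ Wr G i j u u' then x u' else 0)]

/-- lower bound for the old classes -/
theorem Reassign_wrv_le (hx : ∀ v, 0 ≤ x v) (lab : V → ZMod k) (T : ZMod k → Finset V) (i : ZMod k)
    (u : V) :
    ∑ u' ∈ univ.filter (fun u' => u' ∈ T (lab u')),
      (if lab u' ≠ i ∧ Wr G i (lab u') u u' then x u' else 0) ≤ wrv G x T i u := by
  unfold wrv
  rw [Finset.sum_filter]
  have h3 : ∑ u', (if u' ∈ T (lab u') then
      (if lab u' ≠ i ∧ Wr G i (lab u') u u' then x u' else 0) else 0) =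
      ∑ j, ∑ u' ∈ univ.filter (fun y => lab y = j), (if u' ∈ T j then
      (if j ≠ i ∧ Wr G i j u u' then x u' else 0) else 0) := by
    rw [Reassign_lab lab (fun j u' => if u' ∈ T j then
      (if j ≠ i ∧ Wr G i j u u' then x u' else 0) else 0)]
  rw [h3, Finset.sum_filter]
  refine Finset.sum_le_sum (fun j _ => ?_)
  by_cases hj : j ≠ i
  · rw [if_pos hj]
    unfold wt
    rw [Finset.sum_filter (s := T j)]
    have h4 : ∑ u' ∈ T j, (if Wr G i j u u' then x u' else 0) =
        ∑ u', if u' ∈ T j then (if Wr G i j u u' then x u' else 0) else 0 := by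
      rw [Finset.sum_ite_mem, Finset.univ_inter]
    rw [h4, Finset.sum_filter]
    refine Finset.sum_le_sum (fun u' _ => ?_)
    have := hx u'
    by_cases h5 : u' ∈ T j <;> by_cases h6 : Wr G i j u u' <;> by_cases h7 : lab u' = j <;>
      simp [h5, h6, h7, hj, this]
  · rw [if_neg hj]
    refine le_of_eq (Finset.sum_eq_zero (fun u' _ => ?_))
    simp [hj]

theorem Reassign_neg {k : ℕ} (hk : 100 ≤ k) {i l : ZMod k} (hl : l ≠ i) :
    ∃ j, (j = l - 1 ∨ j = l + 1) ∧ j ≠ i ∧ j ≠ i + 1 ∧ i ≠ j + 1 := by
  have hcast : ∀ n : ℕ, 0 < n → n < 100 → ((n : ℕ) : ZMod k) ≠ 0 := by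
    intro n h0 h1 h2
    rw [ZMod.natCast_eq_zero_iff] at h2
    have := Nat.le_of_dvd h0 h2
    omega
  have c1 := hcast 1 (by norm_num) (by norm_num)
  have c2 := hcast 2 (by norm_num) (by norm_num)
  have c3 := hcast 3 (by norm_num) (by norm_num)
  have c4 := hcast 4 (by norm_num) (by norm_num)
  push_cast at c1 c2 c3 c4
  by_cases h1 : l - 1 ≠ i ∧ l - 1 ≠ i + 1 ∧ i ≠ l - 1 + 1
  · exact ⟨l - 1, Or.inl rfl, h1⟩
  · refine ⟨l + 1, Or.inr rfl, ?_, ?_, ?_⟩
    · intro h2
      apply h1
      subst h2
      refine ⟨?_, ?_, ?_⟩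
      · intro h3; apply c2; linear_combination -h3
      · intro h3; apply c3; linear_combination -h3
      · intro h3; apply c1; linear_combination h3
    · intro h2
      apply hl
      linear_combination h2
    · intro h2
      apply h1
      subst h2
      refine ⟨?_, ?_, ?_⟩
      · intro h3; apply c3; linear_combination -h3
      · intro h3; apply c4; linear_combination -h3
      · intro h3; apply c2; linear_combination h3

theorem Reassign_bad (hk : 100 ≤ k) (hx : ∀ v, 0 ≤ x v) {T : ZMod k → Finset V} {η : ℝ}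
    (hη : η ≤ 1 / 10 ^ 4) (hS : S91 G x T η) {lab : V → ZMod k}
    (hlab : ∀ y, wt x (nnin G (T (lab y - 1)) y) + wt x (nnin G (T (lab y + 1)) y) +
      ∑ j ∈ univ.filter (fun j => j ≠ lab y - 1 ∧ j ≠ lab y ∧ j ≠ lab y + 1),
        wt x (nbin G (T j) y) ≤ 500 * η) {i : ZMod k} {u : V} (hne : lab u ≠ i) :
    1 / 2 ≤ wrv G x T i u := by
  obtain ⟨j, hj, hj1, hj2, hj3⟩ := Reassign_neg hk hne
  have h1 := hlab u
  have hs : 0 ≤ ∑ j ∈ univ.filter (fun j => j ≠ lab u - 1 ∧ j ≠ lab u ∧ j ≠ lab u + 1),
      wt x (nbin G (T j) u) := Finset.sum_nonneg (fun j _ => Reassign_wt_nonneg hx _)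
  have ha := Reassign_wt_nonneg hx (nnin G (T (lab u - 1)) u)
  have hb := Reassign_wt_nonneg hx (nnin G (T (lab u + 1)) u)
  have h2 : wt x (nnin G (T j) u) ≤ 500 * η := by
    rcases hj with rfl | rfl <;> linarith
  have h3 : wt x (nbin G (T j) u) + wt x (nnin G (T j) u) = wt x (T j) := by
    unfold wt nbin nnin
    exact Finset.sum_filter_add_sum_filter_not _ _ _
  have h4 := (abs_le.1 (hS.size j)).1
  have h5 : wt x (nbin G (T j) u) ≤ wrv G x T i u := by
    unfold wrv
    have h6 : wt x (nbin G (T j) u) ≤ wt x ((T j).filter (fun u' => Wr G i j u u')) := by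
      apply Reassign_wt_mono hx
      intro w hw
      unfold nbin at hw
      rw [Finset.mem_filter] at hw ⊢
      refine ⟨hw.1, ?_⟩
      unfold Wr
      intro h7
      rcases h7.1 hw.2 with h8 | h8
      · exact hj2 h8
      · exact hj3 h8
    refine le_trans h6 ?_
    exact Finset.single_le_sum (f := fun j => wt x ((T j).filter (fun u' => Wr G i j u u')))
      (fun j _ => Reassign_wt_nonneg hx _) (by simp [hj1])
  norm_num at hη
  linarith

/-- the wrong pairs of `y` with the old classes, relative to its label -/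
theorem Reassign_good {k : ℕ} [NeZero k] (hk : 100 ≤ k) {x : V → ℝ} {T : ZMod k → Finset V}
    (l : ZMod k) (y : V) :
    wrv G x T l y = wt x (nnin G (T (l - 1)) y) + wt x (nnin G (T (l + 1)) y) +
      ∑ j ∈ univ.filter (fun j => j ≠ l - 1 ∧ j ≠ l ∧ j ≠ l + 1), wt x (nbin G (T j) y) := by
  have hcast : ∀ n : ℕ, 0 < n → n < 100 → ((n : ℕ) : ZMod k) ≠ 0 := by
    intro n h0 h1 h2
    rw [ZMod.natCast_eq_zero_iff] at h2
    have := Nat.le_of_dvd h0 h2
    omega
  have c1 := hcast 1 (by norm_num) (by norm_num)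
  have c2 := hcast 2 (by norm_num) (by norm_num)
  push_cast at c1 c2
  unfold wrv
  have e1 : (univ.filter (fun j : ZMod k => j ≠ l)) =
      insert (l - 1) (insert (l + 1) (univ.filter (fun j => j ≠ l - 1 ∧ j ≠ l ∧ j ≠ l + 1))) := by
    ext j
    simp only [Finset.mem_filter, Finset.mem_univ, true_and, Finset.mem_insert]
    constructor
    · intro h
      by_cases h1 : j = l - 1
      · exact Or.inl h1
      · by_cases h2 : j = l + 1
        · exact Or.inr (Or.inl h2)
        · exact Or.inr (Or.inr ⟨h1, h, h2⟩)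
    · rintro (h | h | h)
      · rw [h]; intro h2; apply c1; linear_combination -h2
      · rw [h]; intro h2; apply c1; linear_combination h2
      · exact h.2.1
  rw [e1, Finset.sum_insert, Finset.sum_insert]
  · have f1 : (T (l - 1)).filter (fun u' => Wr G l (l - 1) y u') = nnin G (T (l - 1)) y := by
      unfold nnin Wr
      ext w
      have : (l - 1 = l + 1 ∨ l = l - 1 + 1) := Or.inr (by ring)
      simp only [Finset.mem_filter, this, iff_true]
    have f2 : (T (l + 1)).filter (fun u' => Wr G l (l + 1) y u') = nnin G (T (l + 1)) y := by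
      unfold nnin Wr
      ext w
      simp only [Finset.mem_filter, true_or, iff_true]
    rw [f1, f2, ← add_assoc]
    congr 1
    refine Finset.sum_congr rfl (fun j hj => ?_)
    simp only [Finset.mem_filter, Finset.mem_univ, true_and] at hj
    congr 1
    unfold nbin Wr
    ext w
    have : ¬ (j = l + 1 ∨ l = j + 1) := by
      rintro (h | h)
      · exact hj.2.2 h
      · exact hj.1 (by rw [h]; ring)
    simp only [Finset.mem_filter, this, iff_false, not_not]
  · simp
  · simp only [Finset.mem_insert, Finset.mem_filter, Finset.mem_univ, true_and, not_or]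
    refine ⟨?_, ?_⟩
    · intro h; apply c2; linear_combination -h
    · intro h; exact h.1 rfl

theorem reassign (hk : 100 ≤ k) (h : Opt G k x) {T : ZMod k → Finset V} {η : ℝ} (hη0 : 0 < η)
    (hη : η ≤ 1 / 10 ^ 4) (hS : S91 G x T η) (hkη : (k : ℝ) * (3 / k) ^ k ≤ η) :
    ∃ T' : ZMod k → Finset V, S92 G x T' (600 * η) := by
  have hx : ∀ v, 0 ≤ x v := fun v => (h.pos v).le
  choose lab hlab using fun y => dev92 hk h hη0 hη hS hkη y
  obtain ⟨M, hM⟩ : ∃ M : Finset V, M = univ.filter (fun w => w ∉ T (lab w)) := ⟨_, rfl⟩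
  have hMmem : ∀ w, w ∈ M ↔ w ∉ T (lab w) := by intro w; rw [hM]; simp
  have hgood : ∀ y, wrv G x T (lab y) y ≤ 500 * η := fun y => by
    rw [Reassign_good hk]; exact hlab y
  have hwrv0 : ∀ i u, 0 ≤ wrv G x T i u := fun i u =>
    Finset.sum_nonneg (fun j _ => Reassign_wt_nonneg hx _)
  -- the weight of `M`
  have hM1 : wt x M ≤ 3 * η := by
    have h1 : wt x (univ.filter (fun w => ∀ j, w ∉ T j)) = ∑ w, if (∀ j, w ∉ T j) then x w else 0 := by
      unfold wt; rw [Finset.sum_filter]
    have h2 : wt x M = ∑ w, if w ∉ T (lab w) then x w else 0 := by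
      rw [hM]; unfold wt; rw [Finset.sum_filter]
    have h3 : ∀ w, (if w ∉ T (lab w) then x w else 0) ≤
        (if (∀ j, w ∉ T j) then x w else 0) +
          ∑ i, (if w ∈ T i then 2 * (x w * wrv G x T i w) else 0) := by
      intro w
      have hnn : ∀ i, 0 ≤ (if w ∈ T i then 2 * (x w * wrv G x T i w) else 0) := by
        intro i
        split_ifs
        · have := mul_nonneg (hx w) (hwrv0 i w); linarith
        · exact le_rfl
      by_cases h4 : ∀ j, w ∉ T j
      · rw [if_pos (h4 _), if_pos h4]
        have := Finset.sum_nonneg (s := univ) (fun i _ => hnn i)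
        linarith
      · push Not at h4
        obtain ⟨i, hi⟩ := h4
        have h5 : (if (∀ j, w ∉ T j) then x w else 0) = 0 := by
          rw [if_neg]; push Not; exact ⟨i, hi⟩
        rw [h5, zero_add]
        by_cases h6 : w ∈ T (lab w)
        · rw [if_neg (by simpa using h6)]
          exact Finset.sum_nonneg (s := univ) (fun i _ => hnn i)
        · rw [if_pos h6]
          have h7 : lab w ≠ i := by rintro rfl; exact h6 hi
          have h8 := Reassign_bad hk hx hη hS hlab h7
          have h9 := Finset.single_le_sum (s := univ)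
            (f := fun i => (if w ∈ T i then 2 * (x w * wrv G x T i w) else 0))
            (fun i _ => hnn i) (Finset.mem_univ i)
          simp only [hi, if_true] at h9
          have h10 := mul_le_mul_of_nonneg_left h8 (hx w)
          linarith
    have h4 : ∑ w, ∑ i, (if w ∈ T i then 2 * (x w * wrv G x T i w) else 0) = 2 * wrM G x T := by
      rw [Finset.sum_comm]
      unfold wrM
      rw [Finset.mul_sum]
      refine Finset.sum_congr rfl (fun i _ => ?_)
      rw [← Finset.sum_filter, Finset.mul_sum]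
      congr 1
      ext; simp
    have h5 := Finset.sum_le_sum (s := (univ : Finset V)) (fun w _ => h3 w)
    rw [Finset.sum_add_distrib, h4, ← h1, ← h2] at h5
    have := hS.rest
    have := hS.wrong
    linarith
  obtain ⟨T', hT'⟩ : ∃ T' : ZMod k → Finset V, T' = fun l => univ.filter (fun y => lab y = l) :=
    ⟨_, rfl⟩
  have hT'mem : ∀ l y, y ∈ T' l ↔ lab y = l := by intro l y; rw [hT']; simp
  -- wrong pairs of a vertex
  have hsplit : ∀ i u, wrv G x T' i u ≤ wrv G x T i u +
      ∑ u' ∈ M, (if lab u' ≠ i ∧ Wr G i (lab u') u u' then x u' else 0) := by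
    intro i u
    rw [hT', Reassign_wrv]
    rw [← Finset.sum_filter_add_sum_filter_not univ (fun u' => u' ∈ T (lab u'))]
    have := Reassign_wrv_le (G := G) hx lab T i u
    have h2 : univ.filter (fun u' => ¬ u' ∈ T (lab u')) = M := hM.symm
    rw [h2]
    linarith
  have hMle : ∀ i u, ∑ u' ∈ M, (if lab u' ≠ i ∧ Wr G i (lab u') u u' then x u' else 0) ≤ wt x M := by
    intro i u
    unfold wt
    refine Finset.sum_le_sum (fun u' _ => ?_)
    split_ifs
    · exact le_rfl
    · exact hx u'
  have hdev : ∀ y, wrv G x T' (lab y) y ≤ 503 * η := by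
    intro y
    have h1 := hsplit (lab y) y
    have h2 := hMle (lab y) y
    have h3 := hgood y
    linarith
  refine ⟨T', ?_, ?_, ?_, ?_, ?_⟩
  · intro i j hij
    rw [Finset.disjoint_left]
    intro w h1 h2
    rw [hT'mem] at h1 h2
    exact hij (h1.symm.trans h2)
  · intro w
    exact ⟨lab w, (hT'mem _ _).2 rfl⟩
  · intro j
    have h1 : wt x (T' j) ≤ wt x (T j) + wt x M := by
      refine le_trans (Reassign_wt_mono hx ?_) (Reassign_wt_union hx _ _)
      intro w hw
      rw [hT'mem] at hw
      rw [Finset.mem_union, hMmem, hw]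
      exact em _
    have h2 : wt x (T j) ≤ wt x (T' j) + wt x M := by
      refine le_trans (Reassign_wt_mono hx ?_) (Reassign_wt_union hx _ _)
      intro w hw
      rw [Finset.mem_union, hMmem, hT'mem]
      by_cases h3 : lab w = j
      · exact Or.inl h3
      · right
        intro h4
        exact Finset.disjoint_left.1 (hS.disj _ _ h3) h4 hw
    have h3 := abs_le.1 (hS.size j)
    rw [abs_le]
    constructor <;> linarith
  · -- total weight of the wrong pairs
    have h1 : wrM G x T' = ∑ y, x y * wrv G x T' (lab y) y := by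
      unfold wrM
      conv_lhs => rw [hT']
      rw [Reassign_lab lab (fun i u => x u * wrv G x (fun l => univ.filter (fun y => lab y = l)) i u)]
      rw [hT']
    have h2 : ∑ y ∈ M, x y * wrv G x T' (lab y) y ≤ 3 * η * (503 * η) := by
      have : ∑ y ∈ M, x y * wrv G x T' (lab y) y ≤ ∑ y ∈ M, x y * (503 * η) :=
        Finset.sum_le_sum (fun y _ => mul_le_mul_of_nonneg_left (hdev y) (hx y))
      rw [← Finset.sum_mul] at this
      refine le_trans this (mul_le_mul_of_nonneg_right hM1 (by linarith))
    have h3 : ∑ y ∈ univ.filter (fun y => y ∈ T (lab y)), x y * wrv G x T (lab y) y ≤ η := by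
      refine le_trans ?_ hS.wrong
      unfold wrM
      have h4 : ∑ y ∈ univ.filter (fun y => y ∈ T (lab y)), x y * wrv G x T (lab y) y =
          ∑ i, ∑ y ∈ univ.filter (fun y => lab y = i),
            (if y ∈ T i then x y * wrv G x T i y else 0) := by
        rw [Reassign_lab lab (fun i y => if y ∈ T i then x y * wrv G x T i y else 0),
          Finset.sum_filter]
      rw [h4]
      refine Finset.sum_le_sum (fun i _ => ?_)
      rw [← Finset.sum_filter]
      refine Finset.sum_le_sum_of_subset_of_nonneg ?_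
        (fun y _ _ => mul_nonneg (hx y) (hwrv0 _ _))
      intro y hy
      exact (Finset.mem_filter.1 hy).2
    have h5 : ∑ y, x y * ∑ u' ∈ M, (if lab u' ≠ lab y ∧ Wr G (lab y) (lab u') y u'
        then x u' else 0) ≤ 3 * η * (503 * η) := by
      have h6 : ∑ y, x y * ∑ u' ∈ M, (if lab u' ≠ lab y ∧ Wr G (lab y) (lab u') y u'
          then x u' else 0) = ∑ u' ∈ M, x u' * wrv G x T' (lab u') u' := by
        simp_rw [Finset.mul_sum]
        rw [Finset.sum_comm]
        refine Finset.sum_congr rfl (fun u' _ => ?_)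
        conv_rhs => rw [hT', Reassign_wrv, Finset.mul_sum]
        refine Finset.sum_congr rfl (fun y _ => ?_)
        have h7 : (lab u' ≠ lab y ∧ Wr G (lab y) (lab u') y u') ↔
            (lab y ≠ lab u' ∧ Wr G (lab u') (lab y) u' y) := by
          rw [Wr_symm (i := lab y) (j := lab u'), ne_comm]
        by_cases h8 : (lab u' ≠ lab y ∧ Wr G (lab y) (lab u') y u')
        · rw [if_pos h8, if_pos (h7.1 h8), mul_comm]
        · rw [if_neg h8, if_neg (fun h9 => h8 (h7.2 h9))]; ring
      rw [h6]; exact h2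
    have h6 : ∑ y ∈ univ.filter (fun y => y ∈ T (lab y)), x y * wrv G x T' (lab y) y ≤
        ∑ y ∈ univ.filter (fun y => y ∈ T (lab y)), x y * wrv G x T (lab y) y +
        ∑ y, x y * ∑ u' ∈ M, (if lab u' ≠ lab y ∧ Wr G (lab y) (lab u') y u'
          then x u' else 0) := by
      have h7 : ∑ y ∈ univ.filter (fun y => y ∈ T (lab y)),
          x y * ∑ u' ∈ M, (if lab u' ≠ lab y ∧ Wr G (lab y) (lab u') y u' then x u' else 0) ≤
          ∑ y, x y * ∑ u' ∈ M, (if lab u' ≠ lab y ∧ Wr G (lab y) (lab u') y u'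
            then x u' else 0) := by
        refine Finset.sum_le_sum_of_subset_of_nonneg (Finset.filter_subset _ _) (fun y _ _ => ?_)
        refine mul_nonneg (hx y) (Finset.sum_nonneg (fun u' _ => ?_))
        split_ifs
        · exact hx u'
        · exact le_rfl
      refine le_trans ?_ (add_le_add_right h7 _)
      rw [← Finset.sum_add_distrib]
      refine Finset.sum_le_sum (fun y _ => ?_)
      rw [← mul_add]
      exact mul_le_mul_of_nonneg_left (hsplit _ _) (hx y)
    rw [h1, ← Finset.sum_filter_add_sum_filter_not univ (fun y => y ∈ T (lab y))]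
    have h8 : univ.filter (fun y => ¬ y ∈ T (lab y)) = M := hM.symm
    rw [h8]
    have h9 : 3 * η * (503 * η) ≤ η := by
      norm_num at hη
      nlinarith
    linarith
  · intro i u hu
    rw [hT'mem] at hu
    subst hu
    have := hdev u
    linarith

end Pool.Agent.Icy
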