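import Pool.Agent.Icy.WrDefs
import Pool.Agent.Icy.OneWrong
import Pool.Agent.Icy.O2
import Pool.Agent.Icy.EEapi
import Pool.Agent.Icy.Reassign

/-!
# Cycles with wrong pairs, and the decomposition

`badB`: a cycle with a wrong pair `{u, u'}` has another one (`onewrong` for the classes of `v i`): either
`{z, z'}` disjoint from it, or `{u, z}` or `{u', z}`.  `[hasWr v] ≤ Σ_{(u,u') wrong} (Σ_{(z,z') wrong, disjoint}
[u,u',z,z' ∈ v] + Σ_{z ≠ u', wrong with u} [u,u',z ∈ v] + Σ_{z ≠ u, wrong with u'} [..])`; `o2` with 4 resp. 3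
vertices: `≤ e⁴ wrM² + 2 e³ η wrM ≤ 100 η wrM`.
`splitB`: every cycle is of one of the three kinds (`t17_cyc`, `cover`).
-/

set_option autoImplicit false

open Finset
open scoped Classical

namespace Pool.Agent.Icy

set_option linter.unusedSectionVars false

variable {V : Type} [Fintype V] {G : SimpleGraph V} {k : ℕ} [NeZero k] {x : V → ℝ}

/-- the relation of wrong pairs for a class function -/
def BadB_R (G : SimpleGraph V) (cl : V → ZMod k) (u u' : V) : Prop :=
  cl u' ≠ cl u ∧ Wr G (cl u) (cl u') u u'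

theorem BadB_symm {cl : V → ZMod k} {u u' : V} (h : BadB_R G cl u u') : BadB_R G cl u' u :=
  ⟨h.1.symm, Wr_symm.1 h.2⟩

theorem BadB_ne {cl : V → ZMod k} {u u' : V} (h : BadB_R G cl u u') : u ≠ u' := by
  rintro rfl
  exact h.1 rfl

theorem BadB_T {T : ZMod k → Finset V} {η : ℝ} (hS : S92 G x T η) :
    ∃ cl : V → ZMod k, (∀ w j, w ∈ T j ↔ cl w = j) ∧
      T = fun l => univ.filter (fun y => cl y = l) := by
  choose cl hcl using hS.cover
  have h1 : ∀ w j, w ∈ T j ↔ cl w = j := by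
    intro w j
    constructor
    · intro h
      by_contra h2
      exact Finset.disjoint_left.1 (hS.disj _ _ h2) (hcl w) h
    · rintro rfl
      exact hcl w
  refine ⟨cl, h1, ?_⟩
  funext l
  ext w
  rw [h1]
  simp

theorem BadB_wrv {cl : V → ZMod k} {T : ZMod k → Finset V}
    (hT : T = fun l => univ.filter (fun y => cl y = l)) (u : V) :
    wrv G x T (cl u) u = ∑ u', if BadB_R G cl u u' then x u' else 0 := by
  rw [hT, Reassign_wrv]
  refine Finset.sum_congr rfl (fun u' _ => ?_)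
  by_cases h : BadB_R G cl u u'
  · rw [if_pos h]
    exact if_pos h
  · rw [if_neg h]
    exact if_neg h

theorem BadB_wrM {cl : V → ZMod k} {T : ZMod k → Finset V}
    (hT : T = fun l => univ.filter (fun y => cl y = l)) :
    wrM G x T = ∑ u, ∑ u', if BadB_R G cl u u' then x u * x u' else 0 := by
  have h1 : wrM G x T = ∑ y, x y * wrv G x T (cl y) y := by
    unfold wrM
    conv_lhs => rw [hT]
    rw [Reassign_lab cl (fun i u => x u * wrv G x (fun l => univ.filter (fun y => cl y = l)) i u)]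
    rw [hT]
  rw [h1]
  refine Finset.sum_congr rfl (fun u _ => ?_)
  rw [BadB_wrv hT, Finset.mul_sum]
  refine Finset.sum_congr rfl (fun u' _ => ?_)
  split_ifs <;> ring

/-- a cycle with one wrong pair has another one -/
theorem BadB_two (hk : 7 ≤ k) {T : ZMod k → Finset V} {cl : V → ZMod k}
    (hcl : ∀ w j, w ∈ T j ↔ cl w = j) {v : ZMod k → V} (hv : v ∈ cyc G k) (hw : hasWr G T v) :
    (∃ u u' z z', BadB_R G cl u u' ∧ BadB_R G cl z z' ∧ z ≠ u ∧ z ≠ u' ∧ z' ≠ u ∧ z' ≠ u' ∧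
      (∃ i, v i = u) ∧ (∃ i, v i = u') ∧ (∃ i, v i = z) ∧ (∃ i, v i = z')) ∨
    (∃ u u' z, BadB_R G cl u u' ∧ BadB_R G cl u z ∧ z ≠ u' ∧
      (∃ i, v i = u) ∧ (∃ i, v i = u') ∧ (∃ i, v i = z)) := by
  have hvc : IsCyc G k v := (Finset.mem_filter.1 hv).2
  have hinj := cyc_inj (by omega : 5 ≤ k) hvc
  obtain ⟨i, j, a, b, hab, hi, hj, hWr⟩ := hw
  rw [hcl] at hi hj
  subst hi
  subst hj
  have hij : i ≠ j := by rintro rfl; exact hab rfl
  have h1 : ∃ i' j', ¬ ((i' = i ∧ j' = j) ∨ (i' = j ∧ j' = i)) ∧ cl (v i') ≠ cl (v j') ∧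
      Wr G (cl (v i')) (cl (v j')) (v i') (v j') := by
    by_contra hno
    push Not at hno
    have h2 := onewrong hk (fun m => cl (v m)) i j hij (by
      intro i' j' h3 h4
      have h5 := hno i' j' (by
        constructor
        · intro h6 h7; exact h3 (Or.inl ⟨h6, h7⟩)
        · intro h6 h7; exact h3 (Or.inr ⟨h6, h7⟩)) h4
      unfold Wr at h5
      rw [not_not] at h5
      rw [← h5]
      exact (hvc i' j').symm) hab
    apply hWr
    rw [hvc i j]
    exact h2
  obtain ⟨i', j', h2, h3, h4⟩ := h1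
  have hR : BadB_R G cl (v i) (v j) := ⟨hab.symm, hWr⟩
  have hR' : BadB_R G cl (v i') (v j') := ⟨h3.symm, h4⟩
  by_cases e1 : i' = i
  · subst e1
    have e2 : j' ≠ j := fun e => h2 (Or.inl ⟨rfl, e⟩)
    exact Or.inr ⟨v i', v j, v j', hR, hR', fun e => e2 (hinj e), ⟨_, rfl⟩, ⟨_, rfl⟩, ⟨_, rfl⟩⟩
  · by_cases e2 : i' = j
    · subst e2
      have e3 : j' ≠ i := fun e => h2 (Or.inr ⟨rfl, e⟩)
      exact Or.inr ⟨v i', v i, v j', BadB_symm hR, hR', fun e => e3 (hinj e), ⟨_, rfl⟩, ⟨_, rfl⟩,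
        ⟨_, rfl⟩⟩
    · by_cases e3 : j' = i
      · subst e3
        exact Or.inr ⟨v j', v j, v i', hR, BadB_symm hR', fun e => e2 (hinj e), ⟨_, rfl⟩, ⟨_, rfl⟩,
          ⟨_, rfl⟩⟩
      · by_cases e4 : j' = j
        · subst e4
          exact Or.inr ⟨v j', v i, v i', BadB_symm hR, BadB_symm hR', fun e => e1 (hinj e),
            ⟨_, rfl⟩, ⟨_, rfl⟩, ⟨_, rfl⟩⟩
        · exact Or.inl ⟨v i, v j, v i', v j', hR, hR', fun e => e1 (hinj e), fun e => e2 (hinj e),
            fun e => e3 (hinj e), fun e => e4 (hinj e), ⟨_, rfl⟩, ⟨_, rfl⟩, ⟨_, rfl⟩, ⟨_, rfl⟩⟩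

theorem BadB_exp : Real.exp 4 + Real.exp 3 ≤ 100 := by
  have h1 := Real.exp_one_lt_d9
  have h2 : Real.exp 3 = Real.exp 1 ^ 3 := by rw [← Real.exp_nat_mul]; norm_num
  have h3 : Real.exp 4 = Real.exp 1 ^ 4 := by rw [← Real.exp_nat_mul]; norm_num
  have h4 := Real.exp_pos 1
  have h5 : Real.exp 1 ≤ 2.8 := by linarith
  have h6 : Real.exp 1 ^ 3 ≤ 2.8 ^ 3 := pow_le_pow_left₀ h4.le h5 3
  have h7 : Real.exp 1 ^ 4 ≤ 2.8 ^ 4 := pow_le_pow_left₀ h4.le h5 4
  rw [h2, h3]
  norm_num at h6 h7 ⊢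
  linarith

theorem BadB_EE (hk : 7 ≤ k) (h : Opt G k x) {T : ZMod k → Finset V} {η : ℝ} (hS : S92 G x T η) :
    EE G k x (fun v => if hasWr G T v then 1 else 0) ≤ 100 * η * wrM G x T := by
  have hx : ∀ v, 0 ≤ x v := fun v => (h.pos v).le
  obtain ⟨cl, hcl, hT⟩ := BadB_T hS
  obtain ⟨P₁, hP₁⟩ : ∃ P₁ : Finset (V × V × V × V), P₁ = univ.filter (fun q =>
    BadB_R G cl q.1 q.2.1 ∧ BadB_R G cl q.2.2.1 q.2.2.2 ∧ q.2.2.1 ≠ q.1 ∧ q.2.2.1 ≠ q.2.1 ∧
      q.2.2.2 ≠ q.1 ∧ q.2.2.2 ≠ q.2.1) := ⟨_, rfl⟩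
  obtain ⟨P₂, hP₂⟩ : ∃ P₂ : Finset (V × V × V), P₂ = univ.filter (fun q =>
    BadB_R G cl q.1 q.2.1 ∧ BadB_R G cl q.1 q.2.2 ∧ q.2.2 ≠ q.2.1) := ⟨_, rfl⟩
  obtain ⟨S₁, hS₁⟩ : ∃ S₁ : V × V × V × V → Finset V,
    S₁ = fun q => {q.1, q.2.1, q.2.2.1, q.2.2.2} := ⟨_, rfl⟩
  obtain ⟨S₂, hS₂⟩ : ∃ S₂ : V × V × V → Finset V, S₂ = fun q => {q.1, q.2.1, q.2.2} := ⟨_, rfl⟩
  have h1 : ∀ v ∈ cyc G k, (if hasWr G T v then (1 : ℝ) else 0) ≤
      ∑ q ∈ P₁, (if ∀ s ∈ S₁ q, ∃ i, v i = s then (1 : ℝ) else 0) +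
        ∑ q ∈ P₂, (if ∀ s ∈ S₂ q, ∃ i, v i = s then (1 : ℝ) else 0) := by
    intro v hv
    have n1 : 0 ≤ ∑ q ∈ P₁, (if ∀ s ∈ S₁ q, ∃ i, v i = s then (1 : ℝ) else 0) :=
      Finset.sum_nonneg (fun q _ => by split_ifs <;> norm_num)
    have n2 : 0 ≤ ∑ q ∈ P₂, (if ∀ s ∈ S₂ q, ∃ i, v i = s then (1 : ℝ) else 0) :=
      Finset.sum_nonneg (fun q _ => by split_ifs <;> norm_num)
    by_cases hw : hasWr G T v
    · rw [if_pos hw]
      rcases BadB_two hk hcl hv hw with ⟨u, u', z, z', a1, a2, a3, a4, a5, a6, b1, b2, b3, b4⟩ |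
        ⟨u, u', z, a1, a2, a3, b1, b2, b3⟩
      · have h2 := Finset.single_le_sum (s := P₁)
          (f := fun q => (if ∀ s ∈ S₁ q, ∃ i, v i = s then (1 : ℝ) else 0))
          (fun q _ => by split_ifs <;> norm_num)
          (a := (u, u', z, z')) (by rw [hP₁]; simp only [Finset.mem_filter, Finset.mem_univ, true_and]; exact ⟨a1, a2, a3, a4, a5, a6⟩)
        have h3 : ∀ s ∈ S₁ (u, u', z, z'), ∃ i, v i = s := by
          rw [hS₁]
          intro s hs
          simp only [Finset.mem_insert, Finset.mem_singleton] at hs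
          rcases hs with rfl | rfl | rfl | rfl
          · exact b1
          · exact b2
          · exact b3
          · exact b4
        rw [if_pos h3] at h2
        linarith
      · have h2 := Finset.single_le_sum (s := P₂)
          (f := fun q => (if ∀ s ∈ S₂ q, ∃ i, v i = s then (1 : ℝ) else 0))
          (fun q _ => by split_ifs <;> norm_num)
          (a := (u, u', z)) (by rw [hP₂]; simp only [Finset.mem_filter, Finset.mem_univ, true_and]; exact ⟨a1, a2, a3⟩)
        have h3 : ∀ s ∈ S₂ (u, u', z), ∃ i, v i = s := by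
          rw [hS₂]
          intro s hs
          simp only [Finset.mem_insert, Finset.mem_singleton] at hs
          rcases hs with rfl | rfl | rfl
          · exact b1
          · exact b2
          · exact b3
        rw [if_pos h3] at h2
        linarith
    · rw [if_neg hw]
      linarith
  refine le_trans (EE_mono hx h1) ?_
  rw [EE_add, EE_sum, EE_sum]
  have hR0 : ∀ u u', 0 ≤ (if BadB_R G cl u u' then x u * x u' else 0) := by
    intro u u'
    split_ifs
    · exact mul_nonneg (hx u) (hx u')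
    · exact le_rfl
  have hW0 : 0 ≤ wrM G x T := by
    rw [BadB_wrM hT]
    exact Finset.sum_nonneg (fun u _ => Finset.sum_nonneg (fun u' _ => hR0 u u'))
  have h2 : ∑ q ∈ P₁, EE G k x (fun v => if ∀ s ∈ S₁ q, ∃ i, v i = s then (1 : ℝ) else 0) ≤
      Real.exp 4 * wrM G x T ^ 2 := by
    have h3 : ∀ q ∈ P₁, EE G k x (fun v => if ∀ s ∈ S₁ q, ∃ i, v i = s then (1 : ℝ) else 0) ≤
        Real.exp 4 * ((if BadB_R G cl q.1 q.2.1 then x q.1 * x q.2.1 else 0) *
          (if BadB_R G cl q.2.2.1 q.2.2.2 then x q.2.2.1 * x q.2.2.2 else 0)) := by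
      intro q hq
      rw [hP₁, Finset.mem_filter] at hq
      obtain ⟨-, a1, a2, a3, a4, a5, a6⟩ := hq
      refine le_trans (o2 (by omega) h (S₁ q)) ?_
      rw [if_pos a1, if_pos a2, hS₁]
      have n1 : q.2.2.1 ∉ ({q.2.2.2} : Finset V) := by
        rw [Finset.mem_singleton]; exact BadB_ne a2
      have n2 : q.2.1 ∉ ({q.2.2.1, q.2.2.2} : Finset V) := by
        rw [Finset.mem_insert, Finset.mem_singleton, not_or]; exact ⟨a4.symm, a6.symm⟩
      have n3 : q.1 ∉ ({q.2.1, q.2.2.1, q.2.2.2} : Finset V) := by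
        rw [Finset.mem_insert, Finset.mem_insert, Finset.mem_singleton, not_or, not_or]
        exact ⟨BadB_ne a1, a3.symm, a5.symm⟩
      rw [Finset.card_insert_of_notMem n3, Finset.card_insert_of_notMem n2,
        Finset.card_insert_of_notMem n1, Finset.card_singleton, Finset.prod_insert n3,
        Finset.prod_insert n2, Finset.prod_insert n1, Finset.prod_singleton]
      have e : ((1 + 1 + 1 + 1 : ℕ) : ℝ) = 4 := by norm_num
      rw [e]
      exact le_of_eq (by ring)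
    refine le_trans (Finset.sum_le_sum h3) ?_
    rw [← Finset.mul_sum]
    refine mul_le_mul_of_nonneg_left ?_ (Real.exp_pos _).le
    refine le_trans (Finset.sum_le_sum_of_subset_of_nonneg (Finset.subset_univ _)
      (fun q _ _ => mul_nonneg (hR0 _ _) (hR0 _ _))) ?_
    rw [Fintype.sum_prod_type]
    have e1 : ∀ u, ∑ y : V × V × V, ((if BadB_R G cl (u, y).1 (u, y).2.1 then
        x (u, y).1 * x (u, y).2.1 else 0) *
        (if BadB_R G cl (u, y).2.2.1 (u, y).2.2.2 then x (u, y).2.2.1 * x (u, y).2.2.2 else 0)) =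
        (∑ u', if BadB_R G cl u u' then x u * x u' else 0) * wrM G x T := by
      intro u
      rw [Fintype.sum_prod_type, Finset.sum_mul]
      refine Finset.sum_congr rfl (fun u' _ => ?_)
      rw [Fintype.sum_prod_type, BadB_wrM hT, Finset.mul_sum]
      refine Finset.sum_congr rfl (fun z _ => ?_)
      rw [Finset.mul_sum]
    rw [Finset.sum_congr rfl (fun u _ => e1 u), ← Finset.sum_mul, ← BadB_wrM hT, sq]
  have h3 : ∑ q ∈ P₂, EE G k x (fun v => if ∀ s ∈ S₂ q, ∃ i, v i = s then (1 : ℝ) else 0) ≤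
      Real.exp 3 * (η * wrM G x T) := by
    have h4 : ∀ q ∈ P₂, EE G k x (fun v => if ∀ s ∈ S₂ q, ∃ i, v i = s then (1 : ℝ) else 0) ≤
        Real.exp 3 * ((if BadB_R G cl q.1 q.2.1 then x q.1 * x q.2.1 else 0) *
          (if BadB_R G cl q.1 q.2.2 then x q.2.2 else 0)) := by
      intro q hq
      rw [hP₂, Finset.mem_filter] at hq
      obtain ⟨-, a1, a2, a3⟩ := hq
      refine le_trans (o2 (by omega) h (S₂ q)) ?_
      rw [if_pos a1, if_pos a2, hS₂]
      have n2 : q.2.1 ∉ ({q.2.2} : Finset V) := by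
        rw [Finset.mem_singleton]; exact a3.symm
      have n3 : q.1 ∉ ({q.2.1, q.2.2} : Finset V) := by
        rw [Finset.mem_insert, Finset.mem_singleton, not_or]
        exact ⟨BadB_ne a1, BadB_ne a2⟩
      rw [Finset.card_insert_of_notMem n3, Finset.card_insert_of_notMem n2,
        Finset.card_singleton, Finset.prod_insert n3,
        Finset.prod_insert n2, Finset.prod_singleton]
      have e : ((1 + 1 + 1 : ℕ) : ℝ) = 3 := by norm_num
      rw [e]
      exact le_of_eq (by ring)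
    refine le_trans (Finset.sum_le_sum h4) ?_
    rw [← Finset.mul_sum]
    refine mul_le_mul_of_nonneg_left ?_ (Real.exp_pos _).le
    have hx0 : ∀ u u', 0 ≤ (if BadB_R G cl u u' then x u' else 0) := by
      intro u u'
      split_ifs
      · exact hx u'
      · exact le_rfl
    refine le_trans (Finset.sum_le_sum_of_subset_of_nonneg (Finset.subset_univ _)
      (fun q _ _ => mul_nonneg (hR0 _ _) (hx0 _ _))) ?_
    rw [Fintype.sum_prod_type, BadB_wrM hT, Finset.mul_sum]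
    refine Finset.sum_le_sum (fun u _ => ?_)
    rw [Fintype.sum_prod_type, Finset.mul_sum]
    refine Finset.sum_le_sum (fun u' _ => ?_)
    have e1 : ∑ z, ((if BadB_R G cl (u, u', z).1 (u, u', z).2.1 then
        x (u, u', z).1 * x (u, u', z).2.1 else 0) *
        (if BadB_R G cl (u, u', z).1 (u, u', z).2.2 then x (u, u', z).2.2 else 0)) =
        (if BadB_R G cl u u' then x u * x u' else 0) * wrv G x T (cl u) u := by
      rw [BadB_wrv hT, Finset.mul_sum]
    rw [e1, mul_comm]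
    exact mul_le_mul_of_nonneg_right (hS.dev _ _ ((hcl _ _).2 rfl)) (hR0 _ _)
  have h5 : Real.exp 4 * wrM G x T ^ 2 ≤ Real.exp 4 * (η * wrM G x T) := by
    refine mul_le_mul_of_nonneg_left ?_ (Real.exp_pos _).le
    rw [sq]
    exact mul_le_mul_of_nonneg_right hS.wrong hW0
  have h6 : (Real.exp 4 + Real.exp 3) * (η * wrM G x T) ≤ 100 * (η * wrM G x T) :=
    mul_le_mul_of_nonneg_right BadB_exp (mul_nonneg (le_trans hW0 hS.wrong) hW0)
  linarith

theorem badB (hk : 7 ≤ k) (h : Opt G k x) {T : ZMod k → Finset V} {η : ℝ} (hS : S92 G x T η) :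
    ∑ v ∈ (cyc G k).filter (fun v => hasWr G T v), cw x v ≤
      NN G k x * (100 * η * wrM G x T) := by
  have h1 := BadB_EE hk h hS
  have hN := h.NN_pos
  unfold EE at h1
  rw [div_le_iff₀ hN] at h1
  rw [Finset.sum_filter]
  have h2 : ∑ v ∈ cyc G k, cw x v * (if hasWr G T v then (1 : ℝ) else 0) =
      ∑ v ∈ cyc G k, if hasWr G T v then cw x v else 0 := by
    refine Finset.sum_congr rfl (fun v _ => ?_)
    split_ifs <;> ring
  rw [h2] at h1
  linarith

theorem splitB (hk : 7 ≤ k) (h : Opt G k x) {T : ZMod k → Finset V} {η : ℝ} (hS : S92 G x T η) :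
    NN G k x ≤ (∑ v ∈ (cyc G k).filter (fun v => hasWr G T v), cw x v) +
      (∑ v ∈ (cyc G k).filter (fun v => ¬ hasWr G T v ∧
        ((∃ j, ∀ i, v i ∈ T (j + i)) ∨ (∃ j, ∀ i, v i ∈ T (j - i)))), cw x v) +
      ∑ j, ∑ v ∈ (cyc G k).filter (fun v => ∀ i, v i ∈ T j), cw x v := by
  have hx : ∀ v, 0 ≤ x v := fun v => (h.pos v).le
  obtain ⟨cl, hcl, hT⟩ := BadB_T hS
  unfold NN
  rw [Finset.sum_filter, Finset.sum_filter]
  have e1 : ∑ j, ∑ v ∈ (cyc G k).filter (fun v => ∀ i, v i ∈ T j), cw x v =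
      ∑ v ∈ cyc G k, ∑ j, if ∀ i, v i ∈ T j then cw x v else 0 := by
    rw [Finset.sum_comm]
    refine Finset.sum_congr rfl (fun j _ => ?_)
    rw [Finset.sum_filter]
  rw [e1, ← Finset.sum_add_distrib, ← Finset.sum_add_distrib]
  refine Finset.sum_le_sum (fun v hv => ?_)
  have hc := cw_nonneg hx v
  have n3 : 0 ≤ ∑ j, (if ∀ i, v i ∈ T j then cw x v else 0) :=
    Finset.sum_nonneg (fun j _ => by split_ifs <;> simp [hc])
  by_cases hw : hasWr G T v
  · rw [if_pos hw, if_neg (by tauto)]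
    linarith
  · rw [if_neg hw]
    have hvc : IsCyc G k v := (Finset.mem_filter.1 hv).2
    have h1 : ∀ i j, cl (v i) ≠ cl (v j) → ((j = i + 1 ∨ i = j + 1) ↔
        (cl (v j) = cl (v i) + 1 ∨ cl (v i) = cl (v j) + 1)) := by
      intro i j hij
      by_contra h2
      apply hw
      refine ⟨i, j, cl (v i), cl (v j), hij, (hcl _ _).2 rfl, (hcl _ _).2 rfl, ?_⟩
      unfold Wr
      rw [hvc i j]
      exact h2
    rcases t17_cyc hk (fun i => cl (v i)) h1 with h2 | h2 | h2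
    · have h3 := Finset.single_le_sum (s := univ)
        (f := fun j => (if ∀ i, v i ∈ T j then cw x v else 0))
        (fun j _ => by
          show 0 ≤ (if ∀ i, v i ∈ T j then cw x v else 0)
          split_ifs <;> simp [hc]) (Finset.mem_univ (cl (v 0)))
      have h4 : ∀ i, v i ∈ T (cl (v 0)) := fun i => (hcl _ _).2 (h2 i)
      rw [if_pos h4] at h3
      split_ifs <;> linarith
    · rw [if_pos]
      · linarith
      · exact ⟨hw, Or.inl ⟨cl (v 0), fun i => (hcl _ _).2 (h2 i)⟩⟩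
    · rw [if_pos]
      · linarith
      · exact ⟨hw, Or.inr ⟨cl (v 0), fun i => (hcl _ _).2 (h2 i)⟩⟩

end Pool.Agent.Icy
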