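import Pool.Agent.Icy.KMu
import Pool.Agent.Icy.BB

/-!
# Budget 1: the error functional `CC` along the random cycle

For fixed `w, y` let `E = [w ∈ sA (st v p), y ∈ sA (step (st v p) w)]` (depends on the prefix `p`).
By induction on `n` (unfold `CC`, `kmu_markov`): for `q = p + i`, `n = S - i`,
`EE [E ∧ y ≁ v p..v(q-1)] CC_n y (st v q) = Σ_{j ≥ i} EE [E ∧ y ≁ v p..v(p+j-1)] |nu y s_j -
Σ_{z~y} kmu|`, `s_j = st v (p+j)`, and `|..| ≤ Σ_{z∈sA s_j, z~y} x_z |1 - rho z| + wt (sB s_j)`.
Sum over `w, y` with weights: for fixed `z`, `Σ_w Σ_y x_w x_y [w ∈ sA(st v p)][y ~ w][y ~ z] ≤ Σ_{y ~ z}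
x_y wt(nb y) ≤ 36`, and `Σ_w Σ_y x_w x_y ≤ 36`.  Hence `≤ 36 Σ_{i<S} (ee (p+i) + bb (p+i))`.
-/

set_option autoImplicit false

open Finset
open scoped Classical

namespace Pool.Agent.Icy

variable {V : Type} [Fintype V] {G : SimpleGraph V} {k : ℕ} [NeZero k] {x : V → ℝ}

/-- the pair `(w, y)` is chosen at time `p`, and `y` is not adjacent to `v p, …, v (p + i - 1)` -/
noncomputable def Bud1_P (G : SimpleGraph V) (k p : ℕ) (w y : V) (i : ℕ) (v : ZMod k → V) : ℝ :=
  if (w ∈ sA G (st G v p) ∧ y ∈ sA G (step G (st G v p) w)) ∧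
    (∀ c : ℕ, p ≤ c → c < p + i → ¬ G.Adj y (v (c : ZMod k))) then 1 else 0

theorem Bud1_P_nonneg (p : ℕ) (w y : V) (i : ℕ) (v : ZMod k → V) :
    0 ≤ Bud1_P G k p w y i v := by
  unfold Bud1_P; split_ifs <;> norm_num

theorem Bud1_P_dep {p : ℕ} (hp : 1 ≤ p) (w y : V) (i : ℕ) :
    Dep k (p + i) (fun v => Bud1_P G k p w y i v) := by
  intro v v' hvv
  have h1 : st G v p = st G v' p :=
    dep_st (G := G) hp (le_refl p) v v' (fun j hj => hvv j (by omega))
  have h2 : (∀ c : ℕ, p ≤ c → c < p + i → ¬ G.Adj y (v (c : ZMod k))) ↔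
      (∀ c : ℕ, p ≤ c → c < p + i → ¬ G.Adj y (v' (c : ZMod k))) := by
    refine forall_congr' fun c => ?_
    constructor
    · intro h hc1 hc2
      rw [← hvv c hc2]; exact h hc1 hc2
    · intro h hc1 hc2
      rw [hvv c hc2]; exact h hc1 hc2
  simp only [Bud1_P, h1, h2]

theorem Bud1_P_succ (p : ℕ) (w y : V) (i : ℕ) (v : ZMod k → V) (t : ℝ) :
    Bud1_P G k p w y i v * (if G.Adj y (v ((p + i : ℕ) : ZMod k)) then 0 else t) =
      Bud1_P G k p w y (i + 1) v * t := by
  have h2 : (∀ c : ℕ, p ≤ c → c < p + (i + 1) → ¬ G.Adj y (v (c : ZMod k))) ↔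
      ((∀ c : ℕ, p ≤ c → c < p + i → ¬ G.Adj y (v (c : ZMod k))) ∧
        ¬ G.Adj y (v ((p + i : ℕ) : ZMod k))) := by
    constructor
    · intro h
      exact ⟨fun c h1 h2 => h c h1 (by omega), h (p + i) (by omega) (by omega)⟩
    · rintro ⟨h1, h2⟩ c hc1 hc2
      rcases Nat.lt_or_ge c (p + i) with hc | hc
      · exact h1 c hc1 hc
      · have : c = p + i := by omega
        rw [this]; exact h2
  unfold Bud1_P
  by_cases ha : G.Adj y (v ((p + i : ℕ) : ZMod k))
  · rw [if_pos ha, mul_zero, if_neg, zero_mul]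
    rintro ⟨_, h3⟩
    exact (h2.mp h3).2 ha
  · rw [if_neg ha]
    congr 1
    by_cases hb : (w ∈ sA G (st G v p) ∧ y ∈ sA G (step G (st G v p) w)) ∧
        (∀ c : ℕ, p ≤ c → c < p + i → ¬ G.Adj y (v (c : ZMod k)))
    · rw [if_pos hb, if_pos ⟨hb.1, h2.mpr ⟨hb.2, ha⟩⟩]
    · rw [if_neg hb, if_neg]
      rintro ⟨h3, h4⟩
      exact hb ⟨h3, (h2.mp h4).1⟩

/-- sums over `sN` -/
theorem Bud1_sN (s : St V) (f : V → ℝ) :
    ∑ z ∈ sN G s, f z = ∑ z ∈ sA G s, f z + ∑ z ∈ sB G s, f z := by
  have hA : sA G s = (sN G s).filter (fun u => ¬ G.Adj s.a u) := by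
    unfold sA sN; rw [Finset.filter_filter]
  have hB : sB G s = (sN G s).filter (fun u => G.Adj s.a u) := by
    unfold sB sN; rw [Finset.filter_filter]
  rw [hA, hB, add_comm, Finset.sum_filter_add_sum_filter_not]

theorem Bud1_nu (s : St V) (y : V) : nu G x y s =
    ∑ z ∈ sA G s, (if G.Adj y z then x z else 0) +
      ∑ z ∈ sB G s, (if G.Adj y z then x z else 0) := by
  unfold nu wt nbin
  rw [Finset.sum_filter, Bud1_sN]

theorem Bud1_D (hx : ∀ v, 0 ≤ x v) {q R n : ℕ} (hn : R + n = k - q) (v : ZMod k → V) (y : V) :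
    |nu G x y (st G v q) - ∑ z ∈ sA G (st G v q),
        (if G.Adj y z then kmu G x R n (st G v q) z else 0)| ≤
      ∑ z ∈ sA G (st G v q), (if G.Adj y z then x z * |rho G k x q v z - 1| else 0) +
        ∑ z ∈ sB G (st G v q), (if G.Adj y z then x z else 0) := by
  rw [Bud1_nu]
  have e1 : ∑ z ∈ sA G (st G v q), (if G.Adj y z then x z else 0) +
      ∑ z ∈ sB G (st G v q), (if G.Adj y z then x z else 0) -
      ∑ z ∈ sA G (st G v q), (if G.Adj y z then kmu G x R n (st G v q) z else 0) =
      ∑ z ∈ sA G (st G v q), (if G.Adj y z then x z * (1 - rho G k x q v z) else 0) +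
      ∑ z ∈ sB G (st G v q), (if G.Adj y z then x z else 0) := by
    rw [add_sub_right_comm, ← Finset.sum_sub_distrib]
    congr 1
    refine Finset.sum_congr rfl fun z _ => ?_
    rw [kmu_st hn]
    split_ifs <;> ring
  rw [e1]
  refine le_trans (abs_add_le _ _) (add_le_add ?_ ?_)
  · refine le_trans (Finset.abs_sum_le_sum_abs _ _) (Finset.sum_le_sum fun z _ => ?_)
    split_ifs
    · rw [abs_mul, abs_of_nonneg (hx z), abs_sub_comm]
    · simp
  · rw [abs_of_nonneg]
    refine Finset.sum_nonneg fun z _ => ?_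
    split_ifs
    · exact hx z
    · exact le_refl 0

theorem Bud1_ind (hk : 7 ≤ k) (hx : ∀ v, 0 ≤ x v) {p S : ℕ} (hp : 3 ≤ p) (hpS : p + S + 4 ≤ k)
    (w y : V) : ∀ (n i : ℕ), n + i = S →
    EE G k x (fun v => Bud1_P G k p w y i v * CC G x (kmu G x (k - p - S)) y n (st G v (p + i))) =
      ∑ j ∈ Ico i S, EE G k x (fun v => Bud1_P G k p w y j v *
        |nu G x y (st G v (p + j)) - ∑ z ∈ sA G (st G v (p + j)),
          (if G.Adj y z then kmu G x (k - p - S) (S - j) (st G v (p + j)) z else 0)|) := by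
  intro n
  induction n with
  | zero =>
    intro i hi
    have : i = S := by omega
    subst this
    simp only [CC, mul_zero, Finset.Ico_self, Finset.sum_empty]
    unfold EE
    simp
  | succ n ih =>
    intro i hi
    have hSi : S - i = n + 1 := by omega
    rw [Finset.sum_eq_sum_Ico_succ_bot (show i < S by omega), ← ih (i + 1) (by omega), hSi]
    have e1 : (fun v => Bud1_P G k p w y i v *
        CC G x (kmu G x (k - p - S)) y (n + 1) (st G v (p + i))) =
        (fun v => Bud1_P G k p w y i v * |nu G x y (st G v (p + i)) -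
          ∑ z ∈ sA G (st G v (p + i)),
            (if G.Adj y z then kmu G x (k - p - S) (n + 1) (st G v (p + i)) z else 0)| +
          ∑ z ∈ sA G (st G v (p + i)), kmu G x (k - p - S) (n + 1) (st G v (p + i)) z *
            (Bud1_P G k p w y i v * (if G.Adj y z then 0 else
              CC G x (kmu G x (k - p - S)) y n (step G (st G v (p + i)) z)))) := by
      funext v
      simp only [CC]
      rw [mul_add]
      congr 1
      rw [Finset.mul_sum]
      refine Finset.sum_congr rfl fun z _ => ?_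
      ring
    rw [e1, EE_add]
    congr 1
    rw [kmu_markov (p := p + i) (R := k - p - S) (n := n + 1) (by omega) hx (by omega) (by omega)
      (by omega) (fun v z => Bud1_P G k p w y i v * (if G.Adj y z then 0 else
              CC G x (kmu G x (k - p - S)) y n (step G (st G v (p + i)) z))) ?_]
    · refine EE_congr fun v _ => ?_
      rw [Bud1_P_succ, ← st_succ v (show 2 ≤ p + i by omega)]
      rfl
    · intro z v v' hvv
      have h1 := Bud1_P_dep (G := G) (show 1 ≤ p by omega) w y i v v' hvv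
      have h2 : st G v (p + i) = st G v' (p + i) :=
        dep_st (G := G) (show 1 ≤ p + i by omega) (le_refl _) v v' hvv
      simp only at h1 ⊢
      rw [h1, h2]

theorem Bud1_EE_le (hk : 7 ≤ k) (h : Opt G k x) (v : ZMod k → V) {p : ℕ} (i : ℕ) (D : V → ℝ)
    (c : V → ℝ) (S : Finset V) (hD : ∀ y, 0 ≤ D y) (hc : ∀ z, 0 ≤ c z)
    (hDc : ∀ y, D y ≤ ∑ z ∈ S, (if G.Adj y z then c z else 0)) :
    ∑ w, ∑ y, x w * x y * (Bud1_P G k p w y i v * D y) ≤ 36 * ∑ z ∈ S, c z := by
  have hx : ∀ u, 0 ≤ x u := fun u => (h.pos u).le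
  have hnb : ∀ y, ∑ w, (if G.Adj y w then x w else 0) ≤ 6 := by
    intro y
    have := o3 (by omega) h y
    unfold wt nb at this
    rw [Finset.sum_filter] at this
    exact this.le
  calc ∑ w, ∑ y, x w * x y * (Bud1_P G k p w y i v * D y)
      ≤ ∑ w, ∑ y, (if G.Adj y w then x w else 0) * (x y * D y) := by
        refine Finset.sum_le_sum fun w _ => Finset.sum_le_sum fun y _ => ?_
        have h0 : 0 ≤ x w * x y * D y := mul_nonneg (mul_nonneg (hx w) (hx y)) (hD y)
        by_cases ha : G.Adj y w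
        · rw [if_pos ha]
          have : Bud1_P G k p w y i v ≤ 1 := by
            unfold Bud1_P; split_ifs <;> norm_num
          nlinarith
        · rw [if_neg ha, zero_mul]
          have : Bud1_P G k p w y i v = 0 := by
            unfold Bud1_P
            rw [if_neg]
            rintro ⟨⟨_, h2⟩, _⟩
            apply ha
            have h3 : G.Adj w y := by
              have := (Finset.mem_filter.mp h2).2.1
              exact this
            exact h3.symm
          rw [this]; simp
    _ = ∑ y, (∑ w, (if G.Adj y w then x w else 0)) * (x y * D y) := by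
        rw [Finset.sum_comm]
        refine Finset.sum_congr rfl fun y _ => ?_
        rw [Finset.sum_mul]
    _ ≤ ∑ y, 6 * (x y * D y) := by
        refine Finset.sum_le_sum fun y _ => ?_
        exact mul_le_mul_of_nonneg_right (hnb y) (mul_nonneg (hx y) (hD y))
    _ ≤ ∑ y, 6 * (x y * ∑ z ∈ S, (if G.Adj y z then c z else 0)) := by
        refine Finset.sum_le_sum fun y _ => ?_
        have := mul_le_mul_of_nonneg_left (hDc y) (hx y)
        linarith
    _ = ∑ z ∈ S, 6 * (c z * ∑ y, (if G.Adj z y then x y else 0)) := by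
        have : ∀ y, 6 * (x y * ∑ z ∈ S, (if G.Adj y z then c z else 0)) =
            ∑ z ∈ S, 6 * (c z * (if G.Adj z y then x y else 0)) := by
          intro y
          rw [Finset.mul_sum, Finset.mul_sum]
          refine Finset.sum_congr rfl fun z _ => ?_
          by_cases ha : G.Adj y z
          · rw [if_pos ha, if_pos ha.symm]; ring
          · rw [if_neg ha, if_neg (fun h => ha h.symm)]; ring
        simp_rw [this]
        rw [Finset.sum_comm]
        refine Finset.sum_congr rfl fun z _ => ?_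
        rw [Finset.mul_sum, Finset.mul_sum]
    _ ≤ ∑ z ∈ S, 6 * (c z * 6) := by
        refine Finset.sum_le_sum fun z _ => ?_
        have := mul_le_mul_of_nonneg_left (hnb z) (hc z)
        linarith
    _ = 36 * ∑ z ∈ S, c z := by
        rw [Finset.mul_sum]
        refine Finset.sum_congr rfl fun z _ => ?_
        ring

/-- expand the double sum -/
theorem Bud1_expand (p : ℕ) (f : V → (ZMod k → V) → ℝ) :
    EE G k x (fun v => ∑ w ∈ sA G (st G v p), x w * ∑ y ∈ sA G (step G (st G v p) w),
      x y * f y v) = ∑ w, ∑ y, x w * x y * EE G k x (fun v => Bud1_P G k p w y 0 v * f y v) := by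
  have e1 : ∀ v : ZMod k → V, ∑ w ∈ sA G (st G v p), x w * ∑ y ∈ sA G (step G (st G v p) w),
      x y * f y v = ∑ w, ∑ y, x w * x y * (Bud1_P G k p w y 0 v * f y v) := by
    intro v
    rw [← Finset.sum_filter_add_sum_filter_not univ (fun w => w ∈ sA G (st G v p))]
    have hz : ∑ w ∈ univ.filter (fun w => ¬ w ∈ sA G (st G v p)),
        ∑ y, x w * x y * (Bud1_P G k p w y 0 v * f y v) = 0 := by
      refine Finset.sum_eq_zero fun w hw => Finset.sum_eq_zero fun y _ => ?_
      have hw' := (Finset.mem_filter.mp hw).2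
      have : Bud1_P G k p w y 0 v = 0 := by
        unfold Bud1_P
        rw [if_neg]
        rintro ⟨⟨h1, _⟩, _⟩
        exact hw' h1
      rw [this]; simp
    rw [hz, add_zero]
    have hs : univ.filter (fun w => w ∈ sA G (st G v p)) = sA G (st G v p) := by
      ext w; simp
    rw [hs]
    refine Finset.sum_congr rfl fun w hw => ?_
    rw [← Finset.sum_filter_add_sum_filter_not univ (fun y => y ∈ sA G (step G (st G v p) w))]
    have hz' : ∑ y ∈ univ.filter (fun y => ¬ y ∈ sA G (step G (st G v p) w)),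
        x w * x y * (Bud1_P G k p w y 0 v * f y v) = 0 := by
      refine Finset.sum_eq_zero fun y hy => ?_
      have hy' := (Finset.mem_filter.mp hy).2
      have : Bud1_P G k p w y 0 v = 0 := by
        unfold Bud1_P
        rw [if_neg]
        rintro ⟨⟨_, h1⟩, _⟩
        exact hy' h1
      rw [this]; simp
    rw [hz', add_zero]
    have hs' : univ.filter (fun y => y ∈ sA G (step G (st G v p) w)) =
        sA G (step G (st G v p) w) := by
      ext y; simp
    rw [hs', Finset.mul_sum]
    refine Finset.sum_congr rfl fun y hy => ?_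
    have : Bud1_P G k p w y 0 v = 1 := by
      unfold Bud1_P
      rw [if_pos]
      exact ⟨⟨hw, hy⟩, fun c h1 h2 => by omega⟩
    rw [this]; ring
  simp_rw [e1]
  rw [EE_sum]
  refine Finset.sum_congr rfl fun w _ => ?_
  rw [EE_sum]
  refine Finset.sum_congr rfl fun y _ => ?_
  rw [← EE_mul]

theorem bud1 (hk : 7 ≤ k) (h : Opt G k x) {p S : ℕ} (hp : 3 ≤ p) (hS : 1 ≤ S) (hpS : p + S + 4 ≤ k) :
    EE G k x (fun v => ∑ w ∈ sA G (st G v p), x w * ∑ y ∈ sA G (step G (st G v p) w),
      x y * CC G x (kmu G x (k - p - S)) y S (st G v p)) ≤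
      36 * ∑ i ∈ range S, (ee G k x (p + i) + bb G k x (p + i)) := by
  have hx : ∀ u, 0 ≤ x u := fun u => (h.pos u).le
  rw [Bud1_expand p (fun y v => CC G x (kmu G x (k - p - S)) y S (st G v p))]
  have e1 : ∀ w y : V, EE G k x (fun v => Bud1_P G k p w y 0 v *
      CC G x (kmu G x (k - p - S)) y S (st G v p)) =
      ∑ j ∈ range S, EE G k x (fun v => Bud1_P G k p w y j v *
        |nu G x y (st G v (p + j)) - ∑ z ∈ sA G (st G v (p + j)),
          (if G.Adj y z then kmu G x (k - p - S) (S - j) (st G v (p + j)) z else 0)|) := by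
    intro w y
    have := Bud1_ind (G := G) hk hx hp hpS w y S 0 (by omega)
    rw [← Finset.range_eq_Ico] at this
    exact this
  simp_rw [e1]
  have e2 : ∑ w, ∑ y, x w * x y * ∑ j ∈ range S, EE G k x (fun v => Bud1_P G k p w y j v *
        |nu G x y (st G v (p + j)) - ∑ z ∈ sA G (st G v (p + j)),
          (if G.Adj y z then kmu G x (k - p - S) (S - j) (st G v (p + j)) z else 0)|) =
      ∑ j ∈ range S, EE G k x (fun v => ∑ w, ∑ y, x w * x y * (Bud1_P G k p w y j v *
        |nu G x y (st G v (p + j)) - ∑ z ∈ sA G (st G v (p + j)),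
          (if G.Adj y z then kmu G x (k - p - S) (S - j) (st G v (p + j)) z else 0)|)) := by
    have : ∀ w y : V, x w * x y * ∑ j ∈ range S, EE G k x (fun v => Bud1_P G k p w y j v *
        |nu G x y (st G v (p + j)) - ∑ z ∈ sA G (st G v (p + j)),
          (if G.Adj y z then kmu G x (k - p - S) (S - j) (st G v (p + j)) z else 0)|) =
        ∑ j ∈ range S, EE G k x (fun v => x w * x y * (Bud1_P G k p w y j v *
        |nu G x y (st G v (p + j)) - ∑ z ∈ sA G (st G v (p + j)),
          (if G.Adj y z then kmu G x (k - p - S) (S - j) (st G v (p + j)) z else 0)|)) := by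
      intro w y
      rw [Finset.mul_sum]
      refine Finset.sum_congr rfl fun j _ => ?_
      rw [EE_mul]
    simp_rw [this]
    have e3 : ∀ w : V, ∑ y, ∑ j ∈ range S, EE G k x (fun v => x w * x y * (Bud1_P G k p w y j v *
        |nu G x y (st G v (p + j)) - ∑ z ∈ sA G (st G v (p + j)),
          (if G.Adj y z then kmu G x (k - p - S) (S - j) (st G v (p + j)) z else 0)|)) =
        ∑ j ∈ range S, EE G k x (fun v => ∑ y, x w * x y * (Bud1_P G k p w y j v *
        |nu G x y (st G v (p + j)) - ∑ z ∈ sA G (st G v (p + j)),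
          (if G.Adj y z then kmu G x (k - p - S) (S - j) (st G v (p + j)) z else 0)|)) := by
      intro w
      rw [Finset.sum_comm]
      refine Finset.sum_congr rfl fun j _ => ?_
      rw [EE_sum]
    simp_rw [e3]
    rw [Finset.sum_comm]
    refine Finset.sum_congr rfl fun j _ => ?_
    rw [EE_sum]
  rw [e2, Finset.mul_sum]
  refine Finset.sum_le_sum fun j hj => ?_
  have hj' : j < S := Finset.mem_range.mp hj
  have hRn : k - p - S + (S - j) = k - (p + j) := by omega
  unfold ee bb
  rw [← EE_add, ← EE_mul]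
  refine EE_mono hx fun v _ => ?_
  have hb := Bud1_EE_le hk h v (p := p) j
    (fun y => |nu G x y (st G v (p + j)) - ∑ z ∈ sA G (st G v (p + j)),
          (if G.Adj y z then kmu G x (k - p - S) (S - j) (st G v (p + j)) z else 0)|)
    (fun z => if z ∈ sA G (st G v (p + j)) then x z * |rho G k x (p + j) v z - 1| else x z)
    (sN G (st G v (p + j))) (fun y => abs_nonneg _) ?_ ?_
  · refine le_trans hb ?_
    rw [Bud1_sN]
    refine mul_le_mul_of_nonneg_left (add_le_add ?_ ?_) (by norm_num)
    · refine Finset.sum_le_sum fun z hz => ?_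
      rw [if_pos hz]
    · unfold wt
      refine Finset.sum_le_sum fun z hz => ?_
      rw [if_neg]
      intro hz'
      have h1 := (Finset.mem_filter.mp hz).2.2
      have h2 := (Finset.mem_filter.mp hz').2.2
      exact h2 h1
  · intro z
    split_ifs
    · exact mul_nonneg (hx z) (abs_nonneg _)
    · exact hx z
  · intro y
    refine le_trans (Bud1_D hx hRn v y) ?_
    rw [Bud1_sN]
    refine add_le_add ?_ ?_
    · refine Finset.sum_le_sum fun z hz => ?_
      rw [if_pos hz]
    · refine Finset.sum_le_sum fun z hz => ?_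
      rw [if_neg (c := z ∈ sA G (st G v (p + j)))]
      intro hz'
      have h1 := (Finset.mem_filter.mp hz).2.2
      have h2 := (Finset.mem_filter.mp hz').2.2
      exact h2 h1

end Pool.Agent.Icy
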