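import Pool.Agent.Icy.Defs

/-!
# Growth bounds

`cnt_le_exp` by induction on `r`: `∑_{z∈A} x_z cnt_r ≤ a exp (wt (up s) - r)`, `wt (up s) ≤ wt U - a`
(`a = wt (sA s)`) and `a exp (1 - a) ≤ 1`.  `cnt_le'`: the same with `U` split into neighbours and
non-neighbours of `a`: `sA`, `up` lose only non-neighbours, the last vertex is a neighbour.
`mm_rec`: unfold, `wt U = wt sA + wt sB + wt up`.
-/

set_option autoImplicit false

open Finset
open scoped Classical

namespace Pool.Agent.Icy

variable {V : Type} {G : SimpleGraph V} {x : V → ℝ}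

/-- `exp (1 - a - b)` -/
noncomputable def ex (G : SimpleGraph V) (x : V → ℝ) (s : St V) : ℝ :=
  Real.exp (1 - wt x (sA G s) - wt x (sB G s))

theorem MmBasic_wt_nonneg (hx : ∀ v, 0 ≤ x v) (S : Finset V) : 0 ≤ wt x S :=
  Finset.sum_nonneg fun v _ => hx v

theorem MmBasic_wt_mono (hx : ∀ v, 0 ≤ x v) {S T : Finset V} (h : S ⊆ T) : wt x S ≤ wt x T :=
  Finset.sum_le_sum_of_subset_of_nonneg h fun v _ _ => hx v

theorem MmBasic_split (x : V → ℝ) (S : Finset V) (p : V → Prop) :
    wt x (S.filter p) + wt x (S.filter (fun u => ¬ p u)) = wt x S :=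
  Finset.sum_filter_add_sum_filter_not S p x

theorem MmBasic_wtU (x : V → ℝ) (s : St V) :
    wt x s.U = wt x (sA G s) + wt x (sB G s) + wt x (up G s) := by
  have h1 := MmBasic_split x s.U (fun u => G.Adj s.b u)
  have h2 := MmBasic_split x (s.U.filter (fun u => G.Adj s.b u)) (fun u => G.Adj s.a u)
  rw [Finset.filter_filter, Finset.filter_filter] at h2
  have e1 : wt x (up G s) = wt x (s.U.filter (fun u => ¬ G.Adj s.b u)) := rfl
  have e2 : wt x (sB G s) = wt x (s.U.filter (fun u => G.Adj s.b u ∧ G.Adj s.a u)) := rfl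
  have e3 : wt x (sA G s) = wt x (s.U.filter (fun u => G.Adj s.b u ∧ ¬ G.Adj s.a u)) := rfl
  rw [e1, e2, e3]
  linarith

theorem MmBasic_ne {s : St V} : wt x (sA G s) + wt x (nnin G (up G s) s.a) =
    wt x (nnin G s.U s.a) := by
  have h1 := MmBasic_split x (nnin G s.U s.a) (fun u => G.Adj s.b u)
  have e1 : (nnin G s.U s.a).filter (fun u => G.Adj s.b u) = sA G s := by
    ext u
    simp only [nnin, sA, Finset.mem_filter]
    tauto
  have e2 : (nnin G s.U s.a).filter (fun u => ¬ G.Adj s.b u) = nnin G (up G s) s.a := by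
    ext u
    simp only [nnin, up, Finset.mem_filter]
    tauto
  rw [e1, e2] at h1
  exact h1

theorem MmBasic_le_exp (t : ℝ) : t ≤ Real.exp (t - 1) := by
  have := Real.add_one_le_exp (t - 1)
  linarith

theorem cnt_nonneg (hx : ∀ v, 0 ≤ x v) (r : ℕ) (s : St V) : 0 ≤ cnt G x r s := by
  induction r using Nat.strong_induction_on generalizing s with
  | _ r ih =>
    match r, ih with
    | 0, _ => simp [cnt]
    | 1, _ =>
      rw [cnt]
      exact MmBasic_wt_nonneg hx _
    | (r + 2), ih =>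
      rw [cnt]
      exact Finset.sum_nonneg fun z _ => mul_nonneg (hx z) (ih (r + 1) (by omega) _)

theorem cnt_le_exp (hx : ∀ v, 0 ≤ x v) {r : ℕ} (hr : 1 ≤ r) (s : St V) :
    cnt G x r s ≤ Real.exp (wt x s.U - r) := by
  induction r, hr using Nat.le_induction generalizing s with
  | base =>
    rw [cnt]
    have h1 : wt x (sB G s) ≤ wt x s.U := MmBasic_wt_mono hx (Finset.filter_subset _ _)
    have h2 := MmBasic_le_exp (wt x s.U)
    simp only [Nat.cast_one]
    linarith
  | succ r hr ih =>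
    obtain ⟨r, rfl⟩ : ∃ r', r = r' + 1 := ⟨r - 1, by omega⟩
    rw [cnt]
    have h1 : ∑ z ∈ sA G s, x z * cnt G x (r + 1) (step G s z) ≤
        ∑ z ∈ sA G s, x z * Real.exp (wt x (up G s) - ((r + 1 : ℕ) : ℝ)) :=
      Finset.sum_le_sum fun z _ => mul_le_mul_of_nonneg_left (ih (step G s z)) (hx z)
    rw [← Finset.sum_mul] at h1
    refine h1.trans ?_
    change wt x (sA G s) * _ ≤ _
    have hU := MmBasic_wtU (G := G) x s
    have hB : 0 ≤ wt x (sB G s) := MmBasic_wt_nonneg hx _
    have hA : 0 ≤ wt x (sA G s) := MmBasic_wt_nonneg hx _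
    have h2 := MmBasic_le_exp (wt x (sA G s))
    calc wt x (sA G s) * Real.exp (wt x (up G s) - ((r + 1 : ℕ) : ℝ))
        ≤ Real.exp (wt x (sA G s) - 1) * Real.exp (wt x (up G s) - ((r + 1 : ℕ) : ℝ)) :=
          mul_le_mul_of_nonneg_right h2 (Real.exp_pos _).le
      _ = Real.exp (wt x (sA G s) - 1 + (wt x (up G s) - ((r + 1 : ℕ) : ℝ))) :=
          (Real.exp_add _ _).symm
      _ ≤ _ := by
          apply Real.exp_le_exp.mpr
          push_cast
          linarith

theorem cnt_le' (hx : ∀ v, 0 ≤ x v) {r : ℕ} (hr : 1 ≤ r) (s : St V) :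
    cnt G x r s ≤ wt x (nbin G s.U s.a) * Real.exp (wt x (nnin G s.U s.a) - (r - 1)) := by
  induction r, hr using Nat.le_induction generalizing s with
  | base =>
    rw [cnt]
    have h1 : wt x (sB G s) ≤ wt x (nbin G s.U s.a) := by
      apply MmBasic_wt_mono hx
      intro u hu
      simp only [sB, nbin, Finset.mem_filter] at hu ⊢
      exact ⟨hu.1, hu.2.2⟩
    have h0 : 0 ≤ wt x (nbin G s.U s.a) := MmBasic_wt_nonneg hx _
    have h2 : 0 ≤ wt x (nnin G s.U s.a) := MmBasic_wt_nonneg hx _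
    have h3 : 1 ≤ Real.exp (wt x (nnin G s.U s.a) - (((1 : ℕ) : ℝ) - 1)) := by
      apply Real.one_le_exp
      simp only [Nat.cast_one]
      linarith
    calc wt x (sB G s) ≤ wt x (nbin G s.U s.a) * 1 := by rw [mul_one]; exact h1
      _ ≤ _ := mul_le_mul_of_nonneg_left h3 h0
  | succ r hr ih =>
    obtain ⟨r, rfl⟩ : ∃ r', r = r' + 1 := ⟨r - 1, by omega⟩
    rw [cnt]
    have hNb : 0 ≤ wt x (nbin G s.U s.a) := MmBasic_wt_nonneg hx _
    have hmono : wt x (nbin G (up G s) s.a) ≤ wt x (nbin G s.U s.a) := by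
      apply MmBasic_wt_mono hx
      intro u hu
      simp only [up, nbin, Finset.mem_filter] at hu ⊢
      exact ⟨hu.1.1, hu.2⟩
    have h1 : ∑ z ∈ sA G s, x z * cnt G x (r + 1) (step G s z) ≤
        ∑ z ∈ sA G s, x z * (wt x (nbin G s.U s.a) *
          Real.exp (wt x (nnin G (up G s) s.a) - (((r + 1 : ℕ) : ℝ) - 1))) := by
      refine Finset.sum_le_sum fun z _ => mul_le_mul_of_nonneg_left ?_ (hx z)
      refine (ih (step G s z)).trans ?_
      exact mul_le_mul_of_nonneg_right hmono (Real.exp_pos _).le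
    rw [← Finset.sum_mul] at h1
    refine h1.trans ?_
    change wt x (sA G s) * _ ≤ _
    have hne := MmBasic_ne (G := G) (x := x) (s := s)
    have h2 := MmBasic_le_exp (wt x (sA G s))
    calc wt x (sA G s) * (wt x (nbin G s.U s.a) *
          Real.exp (wt x (nnin G (up G s) s.a) - (((r + 1 : ℕ) : ℝ) - 1)))
        = wt x (nbin G s.U s.a) * (wt x (sA G s) *
          Real.exp (wt x (nnin G (up G s) s.a) - (((r + 1 : ℕ) : ℝ) - 1))) := by ring
      _ ≤ wt x (nbin G s.U s.a) * (Real.exp (wt x (sA G s) - 1) *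
          Real.exp (wt x (nnin G (up G s) s.a) - (((r + 1 : ℕ) : ℝ) - 1))) :=
          mul_le_mul_of_nonneg_left
            (mul_le_mul_of_nonneg_right h2 (Real.exp_pos _).le) hNb
      _ = _ := by
          rw [← Real.exp_add]
          congr 2
          push_cast
          linarith

theorem mm_nonneg (hx : ∀ v, 0 ≤ x v) {r : ℕ} (hr : 1 ≤ r) (s : St V) : 0 ≤ mm G x r s := by
  unfold mm
  have h := mul_le_mul_of_nonneg_right (cnt_le_exp (G := G) hx hr s)
    (Real.exp_pos ((r : ℝ) - wt x s.U)).le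
  rw [← Real.exp_add] at h
  have e : wt x s.U - (r : ℝ) + ((r : ℝ) - wt x s.U) = 0 := by ring
  rw [e, Real.exp_zero] at h
  linarith

theorem mm_le_one (hx : ∀ v, 0 ≤ x v) (r : ℕ) (s : St V) : mm G x r s ≤ 1 := by
  unfold mm
  have h := mul_nonneg (cnt_nonneg (G := G) hx r s) (Real.exp_pos ((r : ℝ) - wt x s.U)).le
  linarith

theorem mm_rec (r : ℕ) (s : St V) :
    1 - mm G x (r + 2) s = ex G x s * ∑ z ∈ sA G s, x z * (1 - mm G x (r + 1) (step G s z)) := by
  have e : ∀ z, 1 - mm G x (r + 1) (step G s z) =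
      cnt G x (r + 1) (step G s z) * Real.exp (((r + 1 : ℕ) : ℝ) - wt x (up G s)) := by
    intro z
    unfold mm
    have : (step G s z).U = up G s := rfl
    rw [this]
    ring
  have hU := MmBasic_wtU (G := G) x s
  unfold mm ex
  rw [sub_sub_cancel, cnt, Finset.sum_mul, Finset.mul_sum]
  refine Finset.sum_congr rfl fun z _ => ?_
  have e2 := e z
  unfold mm at e2
  rw [e2]
  have e3 : (((r + 2 : ℕ) : ℝ) - wt x s.U) = (1 - wt x (sA G s) - wt x (sB G s)) +
      (((r + 1 : ℕ) : ℝ) - wt x (up G s)) := by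
    push_cast
    linarith
  rw [e3, Real.exp_add]
  ring

theorem mm_one (s : St V) : 1 - mm G x 1 s = wt x (sB G s) * Real.exp (1 - wt x s.U) := by
  unfold mm
  rw [sub_sub_cancel, cnt, Nat.cast_one]

end Pool.Agent.Icy
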