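import Pool.Agent.Icy.PreSum
import Pool.Agent.Icy.EEapi
import Pool.Agent.Icy.MmBasic

/-!
# Markov property

`rho v z = cnt (k-p-1) (step (st v p) z) / cnt (k-p) (st v p)` is the density (w.r.t. `x`) of `v p`
given the prefix.  Group the cycles by their prefix of length `p`.  By `prefix_sum` for `p` and
`p + 1`: the class of `v` has weight `W cnt(k-p)(st v p)`, `W = ∏_{i<p} x (v i)`, and the part with
`v' p = z` has weight `W x z cnt(k-p-1)(step (st v p) z)` for `z ∈ sA`, `0` otherwise.
-/

set_option autoImplicit false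
set_option linter.unusedSectionVars false

open Finset
open scoped Classical

namespace Pool.Agent.Icy

variable {V : Type} [Fintype V] {G : SimpleGraph V} {k : ℕ} [NeZero k] {x : V → ℝ}

/-- `f v` depends only on `v 0, …, v (p-1)` -/
def Dep {α : Type} (k p : ℕ) (f : (ZMod k → V) → α) : Prop :=
  ∀ v v' : ZMod k → V, (∀ i : ℕ, i < p → v (i : ZMod k) = v' (i : ZMod k)) → f v = f v'

noncomputable def rho (G : SimpleGraph V) (k : ℕ) (x : V → ℝ) (p : ℕ) (v : ZMod k → V) (z : V) : ℝ :=
  cnt G x (k - p - 1) (step G (st G v p) z) / cnt G x (k - p) (st G v p)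

theorem dep_st {p q : ℕ} (hp : 1 ≤ p) (hpq : p ≤ q) : Dep k q (fun v : ZMod k → V => st G v p) := by
  intro v v' h
  have h0 : v 0 = v' 0 := by
    have := h 0 (by omega)
    simpa using this
  have h1 : v ((p - 1 : ℕ) : ZMod k) = v' ((p - 1 : ℕ) : ZMod k) := h (p - 1) (by omega)
  have h2 : (univ.filter (fun u => ∀ i : ℕ, 1 ≤ i → i + 1 < p → ¬ G.Adj (v ((i : ℕ) : ZMod k)) u)) =
      (univ.filter (fun u => ∀ i : ℕ, 1 ≤ i → i + 1 < p → ¬ G.Adj (v' ((i : ℕ) : ZMod k)) u)) := by
    apply Finset.filter_congr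
    intro u _
    constructor
    · intro hh i hi hip
      rw [← h i (by omega)]
      exact hh i hi hip
    · intro hh i hi hip
      rw [h i (by omega)]
      exact hh i hi hip
  show st G v p = st G v' p
  unfold st
  rw [h0, h1, h2]

private theorem mk_cast_ne {i p : ℕ} (hi : i < p) (hp : p < k) : ((i : ℕ) : ZMod k) ≠ ((p : ℕ) : ZMod k) := by
  intro h
  rw [ZMod.natCast_eq_natCast_iff'] at h
  rw [Nat.mod_eq_of_lt (by omega), Nat.mod_eq_of_lt hp] at h
  omega

private theorem mk_prefix (hk : 5 ≤ k) (x : V → ℝ) {v : ZMod k → V} (hv : v ∈ cyc G k) {p : ℕ} (hp : 2 ≤ p)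
    (hpk : p + 1 ≤ k) :
    ∑ v' ∈ (cyc G k).filter (fun v' => ∀ i : ℕ, i < p → v' (i : ZMod k) = v (i : ZMod k)), cw x v' =
      (∏ i ∈ range p, x (v (i : ZMod k))) * cnt G x (k - p) (st G v p) :=
  prefix_sum hk x v hp hpk (pathTo_of_cyc hk hv hpk)

theorem cnt_pos_cyc (hk : 5 ≤ k) (hx : ∀ v, 0 < x v) {v : ZMod k → V} (hv : v ∈ cyc G k) {p : ℕ}
    (hp : 2 ≤ p) (hpk : p + 1 ≤ k) : 0 < cnt G x (k - p) (st G v p) := by
  have h1 := mk_prefix (G := G) hk x hv hp hpk
  have hnn : 0 ≤ cnt G x (k - p) (st G v p) := cnt_nonneg (fun v => (hx v).le) _ _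
  have hs : 0 < ∑ v' ∈ (cyc G k).filter (fun v' => ∀ i : ℕ, i < p → v' (i : ZMod k) = v (i : ZMod k)),
      cw x v' := by
    apply Finset.sum_pos
    · intro v' _
      exact cw_pos hx v'
    · exact ⟨v, by simp [hv]⟩
  rw [h1] at hs
  rcases hnn.eq_or_lt with h | h
  · rw [← h] at hs
    simp at hs
  · exact h

theorem rho_nonneg (hx : ∀ v, 0 ≤ x v) (p : ℕ) (v : ZMod k → V) (z : V) :
    0 ≤ rho G k x p v z :=
  div_nonneg (cnt_nonneg hx _ _) (cnt_nonneg hx _ _)

private theorem mk_cnt {p : ℕ} (hpk : p + 2 ≤ k) (s : St V) :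
    cnt G x (k - p) s = ∑ z ∈ sA G s, x z * cnt G x (k - p - 1) (step G s z) := by
  obtain ⟨r, hr⟩ : ∃ r, k - p = r + 2 := ⟨k - p - 2, by omega⟩
  rw [hr]
  rfl

theorem rho_sum (hk : 5 ≤ k) (hx : ∀ v, 0 < x v) {v : ZMod k → V} (hv : v ∈ cyc G k) {p : ℕ}
    (hp : 2 ≤ p) (hpk : p + 2 ≤ k) : ∑ z ∈ sA G (st G v p), x z * rho G k x p v z = 1 := by
  have hpos : 0 < cnt G x (k - p) (st G v p) := cnt_pos_cyc hk hx hv hp (by omega)
  unfold rho
  have h1 : ∑ z ∈ sA G (st G v p), x z * (cnt G x (k - p - 1) (step G (st G v p) z) / cnt G x (k - p) (st G v p))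
      = (∑ z ∈ sA G (st G v p), x z * cnt G x (k - p - 1) (step G (st G v p) z)) / cnt G x (k - p) (st G v p) := by
    rw [Finset.sum_div]
    apply Finset.sum_congr rfl
    intro z _
    ring
  rw [h1, ← mk_cnt hpk]
  exact div_self hpos.ne'

/-- weight of the part of a prefix class with next vertex `z` -/
private theorem mk_part (hk : 5 ≤ k) (x : V → ℝ) {v : ZMod k → V} (hv : v ∈ cyc G k) {p : ℕ} (hp : 2 ≤ p)
    (hpk : p + 2 ≤ k) (z : V) (hz : z ∈ sA G (st G v p)) :
    ∑ v' ∈ ((cyc G k).filter (fun v' => ∀ i : ℕ, i < p → v' (i : ZMod k) = v (i : ZMod k))).filter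
      (fun v' => v' (p : ZMod k) = z), cw x v' =
      (∏ i ∈ range p, x (v (i : ZMod k))) * (x z * cnt G x (k - p - 1) (step G (st G v p) z)) := by
  set u : ZMod k → V := Function.update v (p : ZMod k) z with hu
  have hup : u (p : ZMod k) = z := by simp [hu]
  have hui : ∀ i : ℕ, i < p → u (i : ZMod k) = v (i : ZMod k) := by
    intro i hi
    rw [hu, Function.update_of_ne (mk_cast_ne hi (by omega))]
  have hpath : PathTo G k v p := pathTo_of_cyc hk hv (by omega)
  rw [mem_sA_st v hp] at hz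
  have key : ∀ i : ℕ, i < p → (G.Adj (v (i : ZMod k)) z ↔ p = i + 1) := by
    intro i hi
    by_cases h : i + 1 < p
    · constructor
      · intro h'
        exact absurd h' (hz.2 i h)
      · intro h'; omega
    · have : i = p - 1 := by omega
      subst this
      constructor
      · intro _; omega
      · intro _; exact hz.1
  have hpathu : PathTo G k u (p + 1) := by
    intro i j hi hj
    rcases Nat.lt_or_ge i p with hip | hip <;> rcases Nat.lt_or_ge j p with hjp | hjp
    · rw [hui i hip, hui j hjp]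
      exact hpath i j hip hjp
    · have hj' : j = p := by omega
      subst hj'
      rw [hui i hip, hup, key i hip]
      omega
    · have hi' : i = p := by omega
      subst hi'
      rw [hui j hjp, hup, G.adj_comm, key j hjp]
      omega
    · have hi' : i = p := by omega
      have hj' : j = p := by omega
      subst hi'
      subst hj'
      constructor
      · intro h; exact absurd h (G.irrefl)
      · intro h; omega
  have h1 := prefix_sum (G := G) hk x u (p := p + 1) (by omega) (by omega) hpathu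
  have h2 : st G u (p + 1) = step G (st G v p) z := by
    rw [st_succ u hp, hup]
    have : st G u p = st G v p := dep_st (G := G) (k := k) (p := p) (q := p) (by omega) le_rfl u v hui
    rw [this]
  rw [h2, prod_range_succ, hup] at h1
  have h3 : ∏ i ∈ range p, x (u (i : ZMod k)) = ∏ i ∈ range p, x (v (i : ZMod k)) := by
    apply Finset.prod_congr rfl
    intro i hi
    rw [hui i (Finset.mem_range.mp hi)]
  rw [h3] at h1
  rw [Finset.filter_filter]
  have h4 : (cyc G k).filter (fun v' => (∀ i : ℕ, i < p → v' (i : ZMod k) = v (i : ZMod k)) ∧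
      v' (p : ZMod k) = z) =
      (cyc G k).filter (fun v' => ∀ i : ℕ, i < p + 1 → v' (i : ZMod k) = u (i : ZMod k)) := by
    apply Finset.filter_congr
    intro v' _
    constructor
    · rintro ⟨ha, hb⟩ i hi
      rcases Nat.lt_or_ge i p with hip | hip
      · rw [hui i hip]; exact ha i hip
      · have hi' : i = p := by omega
        subst hi'
        rw [hup]; exact hb
    · intro ha
      refine ⟨fun i hi => ?_, ?_⟩
      · rw [← hui i hi]; exact ha i (by omega)
      · rw [← hup]; exact ha p (by omega)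
  rw [h4, h1]
  have h5 : k - (p + 1) = k - p - 1 := by omega
  rw [h5]
  ring

/-- sum over one prefix class -/
private theorem mk_class (hk : 5 ≤ k) (hx : ∀ v, 0 ≤ x v) {p : ℕ} (hp : 2 ≤ p) (hpk : p + 2 ≤ k)
    (F : (ZMod k → V) → V → ℝ) (hF : ∀ z, Dep k p (fun v => F v z)) {v : ZMod k → V} (hv : v ∈ cyc G k) :
    ∑ v' ∈ (cyc G k).filter (fun v' => ∀ i : ℕ, i < p → v' (i : ZMod k) = v (i : ZMod k)),
      cw x v' * F v' (v' (p : ZMod k)) =
    ∑ v' ∈ (cyc G k).filter (fun v' => ∀ i : ℕ, i < p → v' (i : ZMod k) = v (i : ZMod k)),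
      cw x v' * ∑ z ∈ sA G (st G v' p), x z * rho G k x p v' z * F v' z := by
  set C := (cyc G k).filter (fun v' => ∀ i : ℕ, i < p → v' (i : ZMod k) = v (i : ZMod k)) with hC
  have hCst : ∀ v' ∈ C, st G v' p = st G v p := by
    intro v' hv'
    rw [hC, Finset.mem_filter] at hv'
    exact dep_st (G := G) (k := k) (p := p) (q := p) (by omega) le_rfl v' v hv'.2
  have hCF : ∀ v' ∈ C, ∀ z, F v' z = F v z := by
    intro v' hv' z
    rw [hC, Finset.mem_filter] at hv'
    exact hF z v' v hv'.2
  have hR : ∑ v' ∈ C, cw x v' * ∑ z ∈ sA G (st G v' p), x z * rho G k x p v' z * F v' z =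
      (∑ v' ∈ C, cw x v') * ∑ z ∈ sA G (st G v p), x z * rho G k x p v z * F v z := by
    rw [Finset.sum_mul]
    apply Finset.sum_congr rfl
    intro v' hv'
    congr 1
    rw [hCst v' hv']
    apply Finset.sum_congr rfl
    intro z _
    rw [hCF v' hv' z]
    unfold rho
    rw [hCst v' hv']
  have hL : ∑ v' ∈ C, cw x v' * F v' (v' (p : ZMod k)) =
      ∑ z ∈ sA G (st G v p), F v z * ∑ v' ∈ C.filter (fun v' => v' (p : ZMod k) = z), cw x v' := by
    have e1 : ∑ v' ∈ C, cw x v' * F v' (v' (p : ZMod k)) =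
        ∑ z ∈ sA G (st G v p), ∑ v' ∈ C.filter (fun v' => v' (p : ZMod k) = z),
          cw x v' * F v' (v' (p : ZMod k)) := by
      refine (Finset.sum_fiberwise_of_maps_to (s := C) (t := sA G (st G v p))
        (g := fun v' => v' (p : ZMod k)) ?_ (fun v' => cw x v' * F v' (v' (p : ZMod k)))).symm
      intro v' hv'
      rw [← hCst v' hv']
      rw [hC, Finset.mem_filter] at hv'
      exact mem_sA_cyc hk hv'.1 hp hpk
    rw [e1]
    apply Finset.sum_congr rfl
    intro z _
    rw [Finset.mul_sum]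
    apply Finset.sum_congr rfl
    intro v' hv'
    rw [Finset.mem_filter] at hv'
    rw [hCF v' hv'.1, hv'.2]
    ring
  rw [hR, hL, mk_prefix hk x hv hp (by omega), Finset.mul_sum]
  apply Finset.sum_congr rfl
  intro z hz
  rw [mk_part hk x hv hp hpk z hz]
  unfold rho
  by_cases h0 : cnt G x (k - p) (st G v p) = 0
  · have h1 : x z * cnt G x (k - p - 1) (step G (st G v p) z) = 0 := by
      rw [mk_cnt hpk] at h0
      have := (Finset.sum_eq_zero_iff_of_nonneg (fun z _ => mul_nonneg (hx z) (cnt_nonneg hx _ _))).mp h0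
      exact this z hz
    rw [h1, h0]
    simp
  · field_simp

theorem markov (hk : 5 ≤ k) (hx : ∀ v, 0 ≤ x v) {p : ℕ} (hp : 2 ≤ p) (hpk : p + 2 ≤ k)
    (F : (ZMod k → V) → V → ℝ) (hF : ∀ z, Dep k p (fun v => F v z)) :
    EE G k x (fun v => F v (v (p : ZMod k))) =
      EE G k x (fun v => ∑ z ∈ sA G (st G v p), x z * rho G k x p v z * F v z) := by
  unfold EE
  congr 1
  have hfib : ∀ f : (ZMod k → V) → ℝ, ∑ v ∈ cyc G k, f v =
      ∑ u : Fin p → V, ∑ v ∈ (cyc G k).filter (fun v => (fun i : Fin p => v ((i : ℕ) : ZMod k)) = u), f v := by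
    intro f
    rw [Finset.sum_fiberwise]
  rw [hfib, hfib (fun v => cw x v * ∑ z ∈ sA G (st G v p), x z * rho G k x p v z * F v z)]
  apply Finset.sum_congr rfl
  intro u _
  rcases ((cyc G k).filter (fun v => (fun i : Fin p => v ((i : ℕ) : ZMod k)) = u)).eq_empty_or_nonempty with h | h
  · rw [h]; simp
  · obtain ⟨v0, hv0⟩ := h
    rw [Finset.mem_filter] at hv0
    have h2 : (cyc G k).filter (fun v => (fun i : Fin p => v ((i : ℕ) : ZMod k)) = u) =
        (cyc G k).filter (fun v' => ∀ i : ℕ, i < p → v' (i : ZMod k) = v0 (i : ZMod k)) := by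
      apply Finset.filter_congr
      intro v' _
      rw [← hv0.2]
      constructor
      · intro hh i hi
        exact congrFun hh ⟨i, hi⟩
      · intro hh
        funext i
        exact hh i i.2
    rw [h2]
    exact mk_class hk hx hp hpk F hF hv0.1

theorem bridge2 (hk : 5 ≤ k) (f : V → V → ℝ) :
    ∑ v ∈ cyc G k, cw x v * f (v 0) (v 1) =
      ∑ a, ∑ b ∈ nb G a, x a * x b * cnt G x (k - 2) ⟨a, b, univ⟩ * f a b := by
  have h1 : ∑ v ∈ cyc G k, cw x v * f (v 0) (v 1) =
      ∑ a, ∑ b, ∑ v ∈ ((cyc G k).filter (fun v => v 0 = a)).filter (fun v => v 1 = b), cw x v * f (v 0) (v 1) := by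
    rw [← Finset.sum_fiberwise (cyc G k) (fun v => v 0)]
    apply Finset.sum_congr rfl
    intro a _
    rw [← Finset.sum_fiberwise _ (fun v => v 1)]
  rw [h1]
  apply Finset.sum_congr rfl
  intro a _
  have h2 : ∑ b, ∑ v ∈ ((cyc G k).filter (fun v => v 0 = a)).filter (fun v => v 1 = b), cw x v * f (v 0) (v 1) =
      ∑ b ∈ nb G a, ∑ v ∈ ((cyc G k).filter (fun v => v 0 = a)).filter (fun v => v 1 = b), cw x v * f (v 0) (v 1) := by
    symm
    apply Finset.sum_subset (Finset.subset_univ _)
    intro b _ hb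
    apply Finset.sum_eq_zero
    intro v hv
    exfalso
    rw [Finset.mem_filter, Finset.mem_filter] at hv
    apply hb
    unfold nb
    rw [Finset.mem_filter]
    refine ⟨Finset.mem_univ _, ?_⟩
    have h3 := hv.1.1
    unfold cyc at h3
    rw [Finset.mem_filter] at h3
    have h4 := (h3.2 0 1).mpr (Or.inl (by simp))
    rw [hv.1.2, hv.2] at h4
    exact h4
  rw [h2]
  apply Finset.sum_congr rfl
  intro b hb
  unfold nb at hb
  rw [Finset.mem_filter] at hb
  have hab : G.Adj a b := hb.2
  set u : ZMod k → V := fun i => if i = 0 then a else b with hu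
  have h01 : (1 : ZMod k) ≠ 0 := by
    have := mk_cast_ne (k := k) (i := 0) (p := 1) (by omega) (by omega)
    simpa using this.symm
  have hu0 : u 0 = a := by simp [hu]
  have hu1 : u 1 = b := by simp [hu, h01]
  have hpath : PathTo G k u 2 := by
    intro i j hi hj
    interval_cases i <;> interval_cases j
    · simp [hu0]
    · simp [hu0, hu1, hab]
    · simp [hu0, hu1, hab.symm]
    · simp [hu1]
  have h3 := prefix_sum (G := G) hk x u (p := 2) le_rfl (by omega) hpath
  rw [st_two, prod_range_succ, prod_range_succ, prod_range_zero] at h3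
  simp only [Nat.cast_zero, Nat.cast_one, hu0, hu1, one_mul] at h3
  have h4 : ((cyc G k).filter (fun v => v 0 = a)).filter (fun v => v 1 = b) =
      (cyc G k).filter (fun v' => ∀ i : ℕ, i < 2 → v' (i : ZMod k) = u (i : ZMod k)) := by
    rw [Finset.filter_filter]
    apply Finset.filter_congr
    intro v' _
    constructor
    · rintro ⟨ha, hb⟩ i hi
      interval_cases i
      · simp [hu0, ha]
      · simp [hu1, hb]
    · intro h
      have e0 := h 0 (by omega)
      have e1 := h 1 (by omega)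
      simp only [Nat.cast_zero, Nat.cast_one, hu0, hu1] at e0 e1
      exact ⟨e0, e1⟩
  rw [← h4] at h3
  rw [← h3, Finset.sum_mul]
  apply Finset.sum_congr rfl
  intro v hv
  rw [Finset.mem_filter, Finset.mem_filter] at hv
  rw [hv.1.2, hv.2]

/-- the first five vertices -/
def pre5 (v : ZMod k → V) : Fin 5 → V := fun i => v ((i : ℕ) : ZMod k)

theorem bridge5 (hk : 6 ≤ k) (hx : ∀ v, 0 < x v) (S : Finset (Fin 5 → V)) :
    ∑ v ∈ cyc G k, cw x v * ((if pre5 v ∈ S then 1 else 0) / cnt G x (k - 5) (st G v 5)) ≤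
      ∑ u ∈ S, ∏ i, x (u i) := by
  have h1 : ∑ v ∈ cyc G k, cw x v * ((if pre5 v ∈ S then 1 else 0) / cnt G x (k - 5) (st G v 5)) =
      ∑ v ∈ (cyc G k).filter (fun v => pre5 v ∈ S), cw x v * (1 / cnt G x (k - 5) (st G v 5)) := by
    rw [Finset.sum_filter]
    apply Finset.sum_congr rfl
    intro v _
    split_ifs <;> simp
  rw [h1]
  rw [← Finset.sum_fiberwise_of_maps_to (s := (cyc G k).filter (fun v => pre5 v ∈ S)) (t := S)
    (g := fun v => pre5 v) (fun v hv => (Finset.mem_filter.mp hv).2)]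
  apply Finset.sum_le_sum
  intro u hu
  have hprod : 0 ≤ ∏ i, x (u i) := Finset.prod_nonneg (fun i _ => (hx _).le)
  rcases (((cyc G k).filter (fun v => pre5 v ∈ S)).filter (fun v => pre5 v = u)).eq_empty_or_nonempty with h | h
  · rw [h]; simpa using hprod
  · obtain ⟨v0, hv0⟩ := h
    rw [Finset.mem_filter, Finset.mem_filter] at hv0
    have h2 : ((cyc G k).filter (fun v => pre5 v ∈ S)).filter (fun v => pre5 v = u) =
        (cyc G k).filter (fun v' => ∀ i : ℕ, i < 5 → v' (i : ZMod k) = v0 (i : ZMod k)) := by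
      rw [Finset.filter_filter]
      apply Finset.filter_congr
      intro v' _
      constructor
      · rintro ⟨_, hh⟩ i hi
        rw [← hv0.2] at hh
        exact congrFun hh ⟨i, hi⟩
      · intro hh
        have : pre5 v' = u := by
          rw [← hv0.2]
          funext i
          exact hh i i.2
        exact ⟨by rw [this]; exact hu, this⟩
    rw [h2]
    have hpos : 0 < cnt G x (k - 5) (st G v0 5) :=
      cnt_pos_cyc (by omega) hx hv0.1.1 (by omega) (by omega)
    have h3 : ∑ v' ∈ (cyc G k).filter (fun v' => ∀ i : ℕ, i < 5 → v' (i : ZMod k) = v0 (i : ZMod k)),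
        cw x v' * (1 / cnt G x (k - 5) (st G v' 5)) =
        (∑ v' ∈ (cyc G k).filter (fun v' => ∀ i : ℕ, i < 5 → v' (i : ZMod k) = v0 (i : ZMod k)),
        cw x v') * (1 / cnt G x (k - 5) (st G v0 5)) := by
      rw [Finset.sum_mul]
      apply Finset.sum_congr rfl
      intro v' hv'
      rw [Finset.mem_filter] at hv'
      have : st G v' 5 = st G v0 5 := dep_st (G := G) (k := k) (p := 5) (q := 5) (by omega) le_rfl v' v0 hv'.2
      rw [this]
    rw [h3, mk_prefix (by omega) x hv0.1.1 (p := 5) (by omega) (by omega)]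
    have h4 : ∏ i ∈ range 5, x (v0 (i : ZMod k)) = ∏ i, x (u i) := by
      rw [← hv0.2, Finset.prod_range]
      rfl
    rw [h4]
    apply le_of_eq
    field_simp

end Pool.Agent.Icy
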