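import Pool.Agent.Icy.O1
import Pool.Agent.Icy.Markov

/-!
# O3: every neighbourhood has weight `< 6`

`EE [v 0 = y] = x y / k` (o1) and by `bridge2` with `f a b = [a = y]`:
`NN x y / k = x y ∑_{b ~ y} x b cnt (k-2) ⟨y, b, univ⟩ ≤ x y d · d exp (3 - d)`, `d = wt (nb y)`
(`cnt_le'` with `wt (nnin univ y) = k - d`).  So `2 ≤ NN/k ≤ d² exp(3-d)`; for `d ≥ 6` this is `< 2`
(`d² < 2 exp (d-3)`).
-/

set_option autoImplicit false

open Finset
open scoped Classical

namespace Pool.Agent.Icy

variable {V : Type} [Fintype V] {G : SimpleGraph V} {k : ℕ} [NeZero k] {x : V → ℝ}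

private theorem O3_real {d : ℝ} (hd : 6 ≤ d) : d ^ 2 * Real.exp (3 - d) < 2 := by
  -- d² ≤ 36 exp ((d - 6)/3)·... : use d/6 ≤ exp (d/6 - 1)
  have h1 : d / 6 ≤ Real.exp (d / 6 - 1) := by
    have := Real.add_one_le_exp (d / 6 - 1)
    linarith
  have h2 : (d / 6) ^ 2 ≤ Real.exp (d / 3 - 2) := by
    calc (d / 6) ^ 2 ≤ (Real.exp (d / 6 - 1)) ^ 2 := by
          apply pow_le_pow_left₀ (by positivity) h1
      _ = Real.exp (d / 3 - 2) := by
          rw [← Real.exp_nat_mul]; congr 1; push_cast; ring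
  have h3 : d ^ 2 * Real.exp (3 - d) ≤ 36 * Real.exp (-3) := by
    calc d ^ 2 * Real.exp (3 - d) = 36 * ((d / 6) ^ 2 * Real.exp (3 - d)) := by ring
      _ ≤ 36 * (Real.exp (d / 3 - 2) * Real.exp (3 - d)) := by
          apply mul_le_mul_of_nonneg_left _ (by norm_num)
          exact mul_le_mul_of_nonneg_right h2 (Real.exp_pos _).le
      _ = 36 * Real.exp (1 - 2 * d / 3) := by
          rw [← Real.exp_add]; congr 2; ring
      _ ≤ 36 * Real.exp (-3) := by
          apply mul_le_mul_of_nonneg_left _ (by norm_num)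
          apply Real.exp_le_exp.mpr; linarith
  have h4 : (18:ℝ) < Real.exp 3 := by
    have h5 : (2.7:ℝ) < Real.exp 1 := by
      have := Real.exp_one_gt_d9
      linarith
    calc (18:ℝ) < 2.7 ^ 3 := by norm_num
      _ ≤ (Real.exp 1) ^ 3 := by
          apply pow_le_pow_left₀ (by norm_num) h5.le
      _ = Real.exp 3 := by
          rw [← Real.exp_nat_mul]; norm_num
  have h5 : 36 * Real.exp (-3) < 2 := by
    rw [Real.exp_neg, ← div_eq_mul_inv, div_lt_iff₀ (Real.exp_pos _)]
    linarith
  linarith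

theorem o3 (hk : 6 ≤ k) (h : Opt G k x) (y : V) : wt x (nb G y) < 6 := by
  by_contra hcon
  rw [not_lt] at hcon
  set d := wt x (nb G y) with hd
  have hkpos : (0:ℝ) < k := by
    have : 0 < k := by omega
    exact_mod_cast this
  have hNN : 0 < NN G k x := h.NN_pos
  have hx0 : ∀ v, 0 ≤ x v := fun v => (h.pos v).le
  have h1 := o1 (by omega) h (0 : ZMod k) (fun u => if u = y then (1:ℝ) else 0)
  have h1' : EE G k x (fun v => if v 0 = y then (1:ℝ) else 0) = x y / k := by
    rw [h1]; congr 1; simp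
  have h2 := bridge2 (G := G) (x := x) (k := k) (by omega) (fun a _ => if a = y then (1:ℝ) else 0)
  have h3 : ∑ v ∈ cyc G k, cw x v * (if v 0 = y then (1:ℝ) else 0) = NN G k x * (x y / k) := by
    rw [← h1', EE]; field_simp
  rw [h3] at h2
  have h4 : ∑ a, ∑ b ∈ nb G a, x a * x b * cnt G x (k - 2) ⟨a, b, univ⟩ * (if a = y then (1:ℝ) else 0)
      = ∑ b ∈ nb G y, x y * x b * cnt G x (k - 2) ⟨y, b, univ⟩ := by
    rw [Finset.sum_eq_single y]
    · simp
    · intro a _ ha
      simp [ha]
    · intro hn; exact absurd (mem_univ y) hn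
  rw [h4] at h2
  have hwt : wt x (nnin G univ y) = k - d := by
    have : wt x (nnin G univ y) + wt x (nb G y) = k := by
      unfold wt nnin nb
      rw [add_comm, Finset.sum_filter_add_sum_filter_not]
      exact h.sum
    rw [hd]; linarith
  have hnb : wt x (nbin G univ y) = d := rfl
  have hcnt : ∀ b, cnt G x (k - 2) ⟨y, b, univ⟩ ≤ d * Real.exp (3 - d) := by
    intro b
    have := cnt_le' (G := G) (x := x) hx0 (r := k - 2) (by omega) ⟨y, b, univ⟩
    simp only [hwt, hnb] at this
    have hc : ((k - 2 : ℕ) : ℝ) = k - 2 := by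
      rw [Nat.cast_sub (by omega)]; norm_num
    rw [hc] at this
    convert this using 3
    ring
  have h5 : NN G k x * (x y / k) ≤ x y * (d ^ 2 * Real.exp (3 - d)) := by
    rw [h2]
    calc ∑ b ∈ nb G y, x y * x b * cnt G x (k - 2) ⟨y, b, univ⟩
        ≤ ∑ b ∈ nb G y, x y * x b * (d * Real.exp (3 - d)) := by
          apply Finset.sum_le_sum
          intro b _
          apply mul_le_mul_of_nonneg_left (hcnt b)
          exact mul_nonneg (hx0 _) (hx0 _)
      _ = x y * (d ^ 2 * Real.exp (3 - d)) := by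
          rw [← Finset.sum_mul, ← Finset.mul_sum]
          change x y * wt x (nb G y) * _ = _
          rw [← hd]; ring
  have h6 : NN G k x / k ≤ d ^ 2 * Real.exp (3 - d) := by
    have hy := h.pos y
    have : x y * (NN G k x / k) ≤ x y * (d ^ 2 * Real.exp (3 - d)) := by
      calc x y * (NN G k x / k) = NN G k x * (x y / k) := by ring
        _ ≤ _ := h5
    exact le_of_mul_le_mul_left this hy
  have h7 : 2 ≤ NN G k x / k := by
    rw [le_div_iff₀ hkpos]; exact h.one
  have := O3_real hcon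
  linarith

theorem o3' (hk : 6 ≤ k) (h : Opt G k x) (y : V) (S : Finset V) : wt x (nbin G S y) ≤ 6 := by
  have h1 : wt x (nbin G S y) ≤ wt x (nb G y) := by
    unfold wt
    apply Finset.sum_le_sum_of_subset_of_nonneg
    · intro u hu
      simp only [nbin, nb, mem_filter, mem_univ, true_and] at hu ⊢
      exact hu.2
    · intro i _ _; exact (h.pos i).le
  linarith [o3 hk h y]

/-- subsets of a neighbourhood -/
theorem o3_sub (hk : 6 ≤ k) (h : Opt G k x) (y : V) (S : Finset V) (hS : ∀ u ∈ S, G.Adj y u) :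
    wt x S ≤ 6 := by
  have h1 : wt x S ≤ wt x (nb G y) := by
    unfold wt
    apply Finset.sum_le_sum_of_subset_of_nonneg
    · intro u hu
      simp only [nb, mem_filter, mem_univ, true_and]
      exact hS u hu
    · intro i _ _; exact (h.pos i).le
  linarith [o3 hk h y]

end Pool.Agent.Icy
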