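import Pool.Agent.Icy.O2
import Pool.Agent.Icy.O3

/-!
# Moments of the trace

`EE ∑_w x_w |tr v w|² = ∑_w x_w EE #{(i,j) : v i, v j ~ w}`; `i = j`: `∑_w x_w wt(nb w) ≤ 6k`;
`i ≠ j`: `EE #{..} ≤ ∑_{u≠u' ∈ nb w} P(u, u' ∈ v) ≤ e² wt(nb w)² ≤ 36 e²` (`o2`, at most one position
for every vertex).
-/

set_option autoImplicit false

open Finset
open scoped Classical

namespace Pool.Agent.Icy

variable {V : Type} [Fintype V] {G : SimpleGraph V} {k : ℕ} [NeZero k] {x : V → ℝ}

theorem SecMom_card (v : ZMod k → V) (w : V) :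
    ((tr G v w).card : ℝ) = ∑ i : ZMod k, (if G.Adj (v i) w then (1 : ℝ) else 0) := by
  rw [tr, Finset.sum_boole]

theorem SecMom_card' (hk : 5 ≤ k) {v : ZMod k → V} (hv : v ∈ cyc G k) (w : V) :
    ((tr G v w).card : ℝ) = ∑ u ∈ nb G w, (if ∃ i, v i = u then (1 : ℝ) else 0) := by
  have hinj : Function.Injective v := cyc_inj hk (by simpa [cyc] using hv)
  rw [Finset.sum_boole]
  norm_cast
  rw [← Finset.card_image_of_injective (tr G v w) hinj]
  congr 1
  ext u
  simp only [mem_image, tr, mem_filter, mem_univ, true_and, nb]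
  constructor
  · rintro ⟨i, hi, rfl⟩
    exact ⟨hi.symm, i, rfl⟩
  · rintro ⟨hu, i, rfl⟩
    exact ⟨i, hu.symm, rfl⟩

theorem SecMom_one_pt (hk : 7 ≤ k) (h : Opt G k x) (v : ZMod k → V) :
    ∑ w, x w * ((tr G v w).card : ℝ) ≤ 6 * k := by
  have h1 : ∀ w, x w * ((tr G v w).card : ℝ) =
      ∑ i : ZMod k, (if G.Adj (v i) w then x w else 0) := by
    intro w
    rw [SecMom_card, Finset.mul_sum]
    refine Finset.sum_congr rfl fun i _ => ?_
    split_ifs <;> simp
  simp_rw [h1]
  rw [Finset.sum_comm]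
  have h2 : ∀ i : ZMod k, ∑ w, (if G.Adj (v i) w then x w else 0) ≤ 6 := by
    intro i
    have h3 := o3 (by omega) h (v i)
    have h4 : ∑ w, (if G.Adj (v i) w then x w else 0) = wt x (nb G (v i)) := by
      rw [wt, nb, Finset.sum_filter]
    rw [h4]
    exact h3.le
  refine (Finset.sum_le_sum fun i _ => h2 i).trans ?_
  rw [Finset.sum_const, Finset.card_univ, ZMod.card, nsmul_eq_mul]
  linarith

theorem SecMom_sq (hk : 5 ≤ k) {v : ZMod k → V} (hv : v ∈ cyc G k) (w : V) :
    ((tr G v w).card : ℝ) ^ 2 = (tr G v w).card +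
      ∑ u ∈ nb G w, ∑ u' ∈ (nb G w).erase u,
        (if ∀ s ∈ ({u, u'} : Finset V), ∃ i, v i = s then (1 : ℝ) else 0) := by
  have h1 := SecMom_card' hk hv w
  set I : V → ℝ := fun u => if ∃ i, v i = u then (1 : ℝ) else 0 with hI
  have h2 : ∀ u u', (if ∀ s ∈ ({u, u'} : Finset V), ∃ i, v i = s then (1 : ℝ) else 0) =
      I u * I u' := by
    intro u u'
    simp only [hI]
    by_cases hu : ∃ i, v i = u <;> by_cases hu' : ∃ i, v i = u' <;> simp [hu, hu']
  simp_rw [h2]
  have h3 : ∀ u ∈ nb G w, ∑ u' ∈ (nb G w).erase u, I u * I u' =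
      I u * (∑ u' ∈ nb G w, I u') - I u := by
    intro u hu
    rw [← Finset.mul_sum, ← Finset.add_sum_erase (nb G w) I hu]
    have : I u * I u = I u := by
      simp only [hI]
      split_ifs <;> simp
    rw [mul_add, this]
    ring
  rw [Finset.sum_congr rfl h3, Finset.sum_sub_distrib, ← Finset.sum_mul, h1]
  ring

theorem tr_one (hk : 7 ≤ k) (h : Opt G k x) :
    EE G k x (fun v => ∑ w, x w * ((tr G v w).card : ℝ)) ≤ 6 * k := by
  refine (EE_mono (fun v => (h.pos v).le) (g := fun _ => 6 * (k : ℝ)) fun v _ =>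
    SecMom_one_pt hk h v).trans ?_
  rw [EE_const h.NN_pos.ne']

theorem tr_two (hk : 7 ≤ k) (h : Opt G k x) :
    EE G k x (fun v => ∑ w, x w * ((tr G v w).card : ℝ) ^ 2) ≤ 273 * k := by
  have hx : ∀ v, 0 ≤ x v := fun v => (h.pos v).le
  have h0 : EE G k x (fun v => ∑ w, x w * ((tr G v w).card : ℝ) ^ 2) =
      EE G k x (fun v => ∑ w, x w * ((tr G v w).card : ℝ)) +
      ∑ w, x w * ∑ u ∈ nb G w, ∑ u' ∈ (nb G w).erase u,
        EE G k x (fun v => if ∀ s ∈ ({u, u'} : Finset V), ∃ i, v i = s then (1 : ℝ) else 0) := by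
    rw [EE_congr (g := fun v => (∑ w, x w * ((tr G v w).card : ℝ)) +
      ∑ w, x w * ∑ u ∈ nb G w, ∑ u' ∈ (nb G w).erase u,
        (if ∀ s ∈ ({u, u'} : Finset V), ∃ i, v i = s then (1 : ℝ) else 0))]
    · rw [EE_add]
      congr 1
      rw [EE_sum]
      refine Finset.sum_congr rfl fun w _ => ?_
      rw [EE_mul, EE_sum]
      congr 1
      refine Finset.sum_congr rfl fun u _ => ?_
      rw [EE_sum]
    · intro v hv
      rw [← Finset.sum_add_distrib]
      refine Finset.sum_congr rfl fun w _ => ?_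
      rw [SecMom_sq (by omega) hv w]
      ring
  rw [h0]
  have h1 := tr_one hk h
  have h2 : ∀ w, ∑ u ∈ nb G w, ∑ u' ∈ (nb G w).erase u,
      EE G k x (fun v => if ∀ s ∈ ({u, u'} : Finset V), ∃ i, v i = s then (1 : ℝ) else 0) ≤
      Real.exp 2 * 36 := by
    intro w
    have h3 : ∀ u ∈ nb G w, ∑ u' ∈ (nb G w).erase u,
        EE G k x (fun v => if ∀ s ∈ ({u, u'} : Finset V), ∃ i, v i = s then (1 : ℝ) else 0) ≤
        Real.exp 2 * (x u * wt x (nb G w)) := by
      intro u hu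
      have h4 : ∀ u' ∈ (nb G w).erase u,
          EE G k x (fun v => if ∀ s ∈ ({u, u'} : Finset V), ∃ i, v i = s then (1 : ℝ) else 0) ≤
          Real.exp 2 * (x u * x u') := by
        intro u' hu'
        have hne : u ≠ u' := (Finset.ne_of_mem_erase hu').symm
        have h5 := o2 (by omega) h ({u, u'} : Finset V)
        rw [Finset.card_pair hne, Finset.prod_pair hne] at h5
        exact_mod_cast h5
      refine (Finset.sum_le_sum h4).trans ?_
      rw [← Finset.mul_sum, ← Finset.mul_sum]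
      apply mul_le_mul_of_nonneg_left _ (Real.exp_pos 2).le
      apply mul_le_mul_of_nonneg_left _ (hx u)
      exact Finset.sum_le_sum_of_subset_of_nonneg (Finset.erase_subset _ _) fun z _ _ => hx z
    refine (Finset.sum_le_sum h3).trans ?_
    rw [← Finset.mul_sum, ← Finset.sum_mul]
    apply mul_le_mul_of_nonneg_left _ (Real.exp_pos 2).le
    have h4 := o3 (by omega) h w
    have h5 : 0 ≤ wt x (nb G w) := Finset.sum_nonneg fun z _ => hx z
    change wt x (nb G w) * wt x (nb G w) ≤ 36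
    nlinarith
  have h3 : ∑ w, x w * ∑ u ∈ nb G w, ∑ u' ∈ (nb G w).erase u,
      EE G k x (fun v => if ∀ s ∈ ({u, u'} : Finset V), ∃ i, v i = s then (1 : ℝ) else 0) ≤
      k * (Real.exp 2 * 36) := by
    rw [← h.sum, Finset.sum_mul]
    exact Finset.sum_le_sum fun w _ => mul_le_mul_of_nonneg_left (h2 w) (hx w)
  have h4 : Real.exp 2 < 7.4 := by
    have h5 := Real.exp_one_lt_d9
    have h6 : Real.exp 2 = Real.exp 1 * Real.exp 1 := by
      rw [← Real.exp_add]; norm_num
    rw [h6]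
    have h7 := Real.exp_pos 1
    nlinarith
  have hk0 : (0 : ℝ) < k := by
    have : 0 < k := by omega
    exact_mod_cast this
  have h5 : (k : ℝ) * (Real.exp 2 * 36) ≤ k * (7.4 * 36) := by
    apply mul_le_mul_of_nonneg_left _ hk0.le
    linarith
  have h6 : (k : ℝ) * (7.4 * 36) = 266.4 * k := by ring
  linarith

/-- Cauchy-Schwarz: for a set `S v` of vertices -/
theorem tr_cs (hk : 7 ≤ k) (h : Opt G k x) (S : (ZMod k → V) → Finset V) :
    EE G k x (fun v => ∑ w ∈ S v, x w * ((tr G v w).card : ℝ)) ≤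
      Real.sqrt (273 * k * EE G k x (fun v => wt x (S v))) := by
  have hx : ∀ v, 0 ≤ x v := fun v => (h.pos v).le
  have h1 := EE_cs_sum (G := G) (k := k) hx S (fun _ w => x w)
    (fun v w => ((tr G v w).card : ℝ)) (fun _ _ => (1 : ℝ)) (fun _ w _ => hx w)
  simp only [mul_one, one_pow] at h1
  have h2 : EE G k x (fun v => ∑ w ∈ S v, x w * ((tr G v w).card : ℝ) ^ 2) ≤ 273 * k := by
    refine (EE_mono hx fun v _ => ?_).trans (tr_two hk h)
    exact Finset.sum_le_sum_of_subset_of_nonneg (Finset.subset_univ _)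
      fun z _ _ => mul_nonneg (hx z) (by positivity)
  have h3 : 0 ≤ EE G k x (fun v => wt x (S v)) :=
    EE_nonneg hx fun v _ => Finset.sum_nonneg fun z _ => hx z
  apply Real.le_sqrt_of_sq_le
  refine h1.trans ?_
  exact mul_le_mul_of_nonneg_right h2 h3

end Pool.Agent.Icy
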