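import Pool.Agent.Icy.FarTail
import Pool.Agent.Icy.SecMom

/-!
# REV

For each `y` (fixed `v`) let `c` be the first natural number with `v (c-1) ~ y` (so `y ∈ sA (st v c)`
if `2 ≤ c ≤ k-2`).  In `rev S p` the vertex `y` satisfies `y ≁ v 0, …, v (p+S-1)`; so `c ≥ p+S+1` or
`tr v y = ∅`.  Exchange the sums: `Σ_p rev S p ≤ EE Σ_y x_y Σ_{p ∈ Mid, p + S + 1 ≤ c} wt (nbin (sA
(st v p)) y)` and the `sA (st v p)` are disjoint, so the inner sum is `≤ 6`.
(1) `tr v y = ∅`: `≤ 6 EE emp ≤ 6`.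
(2) `c ∈ {k-1, k}`: `y ∈ nb (v (k-2)) ∪ nb (v (k-1))`: `≤ 6 · 12`.
(3) `c ≤ k-2`: for each `c`, `y ∈ sA (st v c)`; change of measure (`cm`, `F v y = Σ_{p∈Mid,p+S+1≤c}
wt (nbin (sA (st v p)) y) ≤ 6`) gives `≤ EE Σ_c Σ_p wt (nbin (sA (st v p)) (v c)) + 6 Σ ee c`; the
first term counts triples `(w, p, c)`: `w ∈ sA (st v p)`, `w ~ v c`, `c ≥ p + S + 1`: then `tr v w`
contains `p-1` and `c`, not `0..p-2`, and is not contained in a window of length `S` (as `p ≥ k/3 ≥
S`).  So it is `≤ EE Σ_{w : Far S} x_w |tr v w| ≤ √(273 k · EE farm)` (`tr_cs`; `p` is determined by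
`w`).
-/

set_option autoImplicit false

open Finset
open scoped Classical

namespace Pool.Agent.Icy

variable {V : Type} [Fintype V] {G : SimpleGraph V} {k : ℕ} [NeZero k] {x : V → ℝ}

/-- `w` ghost at time `p`, `y` next ghost, `y` not adjacent to `v p, …, v (p + S - 1)` -/
noncomputable def rev (G : SimpleGraph V) (k : ℕ) [NeZero k] (x : V → ℝ) (S p : ℕ) : ℝ :=
  EE G k x (fun v => ∑ w ∈ sA G (st G v p), x w * ∑ y ∈ sA G (step G (st G v p) w),
    x y * (if ∀ c : ℕ, p ≤ c → c < p + S → ¬ G.Adj (v (c : ZMod k)) y then 1 else 0))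

theorem Rev_disj (v : ZMod k → V) {p q : ℕ} (hp : 2 ≤ p) (hpq : p < q) {w : V}
    (h1 : w ∈ sA G (st G v p)) (h2 : w ∈ sA G (st G v q)) : False := by
  rw [mem_sA_st v hp] at h1
  rw [mem_sA_st v (by omega)] at h2
  exact h2.2 (p - 1) (by omega) h1.1

theorem Rev_six (hk : 6 ≤ k) (h : Opt G k x) (v : ZMod k → V) (y : V) (T : Finset ℕ)
    (hT : ∀ p ∈ T, 2 ≤ p) : ∑ p ∈ T, wt x (nbin G (sA G (st G v p)) y) ≤ 6 := by
  have h1 : ∑ p ∈ T, wt x (nbin G (sA G (st G v p)) y) =
      wt x (T.biUnion fun p => nbin G (sA G (st G v p)) y) := by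
    rw [wt, Finset.sum_biUnion]
    · rfl
    · intro p hp q hq hpq
      show Disjoint (nbin G (sA G (st G v p)) y) (nbin G (sA G (st G v q)) y)
      rw [Finset.disjoint_left]
      intro w hw hw'
      rw [nbin, mem_filter] at hw hw'
      rcases lt_or_gt_of_ne hpq with hlt | hlt
      · exact Rev_disj v (hT p hp) hlt hw.1 hw'.1
      · exact Rev_disj v (hT q hq) hlt hw'.1 hw.1
  rw [h1]
  apply o3_sub hk h y
  intro u hu
  rw [mem_biUnion] at hu
  obtain ⟨p, -, hu⟩ := hu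
  rw [nbin, mem_filter] at hu
  exact hu.2

noncomputable def RevF (G : SimpleGraph V) (k : ℕ) (x : V → ℝ) (S c : ℕ) (v : ZMod k → V)
    (y : V) : ℝ :=
  ∑ p ∈ (Icc (k / 3) (2 * k / 3)).filter (fun p => p + S + 1 ≤ c),
    wt x (nbin G (sA G (st G v p)) y)

theorem Rev_pt1 (hx : ∀ v, 0 ≤ x v) (v : ZMod k → V) {S p : ℕ} (hp : 2 ≤ p) :
    ∑ w ∈ sA G (st G v p), x w * ∑ y ∈ sA G (step G (st G v p) w),
      x y * (if ∀ c : ℕ, p ≤ c → c < p + S → ¬ G.Adj (v (c : ZMod k)) y then (1 : ℝ) else 0) ≤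
    ∑ y, x y * ((if ∀ i : ℕ, i < p + S → ¬ G.Adj (v (i : ZMod k)) y then (1 : ℝ) else 0) *
      wt x (nbin G (sA G (st G v p)) y)) := by
  have hR : ∀ y, x y * ((if ∀ i : ℕ, i < p + S → ¬ G.Adj (v (i : ZMod k)) y then (1 : ℝ) else 0) *
      wt x (nbin G (sA G (st G v p)) y)) = ∑ w ∈ sA G (st G v p),
        (if (∀ i : ℕ, i < p + S → ¬ G.Adj (v (i : ZMod k)) y) ∧ G.Adj y w
          then x w * x y else 0) := by
    intro y
    rw [wt, nbin, Finset.sum_filter, Finset.mul_sum, Finset.mul_sum]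
    refine Finset.sum_congr rfl fun w _ => ?_
    by_cases h1 : (∀ i : ℕ, i < p + S → ¬ G.Adj (v (i : ZMod k)) y)
    · by_cases h2 : G.Adj y w
      · rw [if_pos h1, if_pos h2, if_pos ⟨h1, h2⟩]; ring
      · rw [if_pos h1, if_neg h2, if_neg (fun h => h2 h.2)]; ring
    · rw [if_neg h1, zero_mul, mul_zero, if_neg (fun h => h1 h.1)]
  simp_rw [hR]
  rw [Finset.sum_comm (s := (univ : Finset V))]
  refine Finset.sum_le_sum fun w hw => ?_
  rw [Finset.mul_sum]
  have hg : ∀ y, 0 ≤ (if (∀ i : ℕ, i < p + S → ¬ G.Adj (v (i : ZMod k)) y) ∧ G.Adj y w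
      then x w * x y else 0) := by
    intro y
    split_ifs
    · exact mul_nonneg (hx _) (hx _)
    · exact le_rfl
  refine le_trans (Finset.sum_le_sum fun y hy => ?_)
    (Finset.sum_le_sum_of_subset_of_nonneg (Finset.subset_univ _) fun y _ _ => hg y)
  by_cases hc : ∀ c : ℕ, p ≤ c → c < p + S → ¬ G.Adj (v (c : ZMod k)) y
  · rw [if_pos hc, mul_one]
    have hy' := hy
    rw [sA, mem_filter] at hy'
    obtain ⟨hy1, hy2, hy3⟩ := hy'
    have hy4 : y ∈ up G (st G v p) := hy1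
    rw [mem_up_st v hp] at hy4
    have hy5 : G.Adj w y := hy2
    have hy6 : ¬ G.Adj (v 0) y := hy3
    have hall : ∀ i : ℕ, i < p + S → ¬ G.Adj (v (i : ZMod k)) y := by
      intro i hi
      rcases Nat.eq_zero_or_pos i with h0 | h0
      · subst h0
        simpa using hy6
      · rcases lt_or_ge i p with h1 | h1
        · exact hy4 i h0 h1
        · exact hc i h1 hi
    rw [if_pos ⟨hall, hy5.symm⟩]
  · rw [if_neg hc, mul_zero, mul_zero]
    exact hg y

theorem Rev_pt2 (hk : 100 ≤ k) (h : Opt G k x) {S : ℕ} (v : ZMod k → V) (y : V) :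
    ∑ p ∈ Icc (k / 3) (2 * k / 3),
      (if ∀ i : ℕ, i < p + S → ¬ G.Adj (v (i : ZMod k)) y then (1 : ℝ) else 0) *
        wt x (nbin G (sA G (st G v p)) y) ≤
    6 * (if tr G v y = ∅ then (1 : ℝ) else 0) +
      6 * (if G.Adj (v ((k - 2 : ℕ) : ZMod k)) y then (1 : ℝ) else 0) +
      6 * (if G.Adj (v ((k - 1 : ℕ) : ZMod k)) y then (1 : ℝ) else 0) +
      ∑ c ∈ Icc 3 (k - 2), (if y ∈ sA G (st G v c) then RevF G k x S c v y else 0) := by
  have hx : ∀ v, 0 ≤ x v := fun v => (h.pos v).le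
  have hwt : ∀ A : Finset V, 0 ≤ wt x A := fun A => Finset.sum_nonneg fun z _ => hx z
  have hF0 : ∀ c, 0 ≤ RevF G k x S c v y := fun c => Finset.sum_nonneg fun p _ => hwt _
  have h6 : ∑ p ∈ Icc (k / 3) (2 * k / 3),
      (if ∀ i : ℕ, i < p + S → ¬ G.Adj (v (i : ZMod k)) y then (1 : ℝ) else 0) *
        wt x (nbin G (sA G (st G v p)) y) ≤ 6 := by
    refine le_trans (Finset.sum_le_sum fun p _ => ?_)
      (Rev_six (by omega) h v y (Icc (k / 3) (2 * k / 3)) ?_)
    · split_ifs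
      · rw [one_mul]
      · rw [zero_mul]; exact hwt _
    · intro p hp
      rw [mem_Icc] at hp
      omega
  have hS0 : 0 ≤ ∑ c ∈ Icc 3 (k - 2),
      (if y ∈ sA G (st G v c) then RevF G k x S c v y else 0) := by
    apply Finset.sum_nonneg
    intro c _
    split_ifs
    · exact hF0 c
    · exact le_rfl
  have i1 : (0 : ℝ) ≤ (if tr G v y = ∅ then (1 : ℝ) else 0) := by split_ifs <;> norm_num
  have i2 : (0 : ℝ) ≤ (if G.Adj (v ((k - 2 : ℕ) : ZMod k)) y then (1 : ℝ) else 0) := by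
    split_ifs <;> norm_num
  have i3 : (0 : ℝ) ≤ (if G.Adj (v ((k - 1 : ℕ) : ZMod k)) y then (1 : ℝ) else 0) := by
    split_ifs <;> norm_num
  by_cases hT : tr G v y = ∅
  · rw [if_pos hT] at i1 ⊢
    linarith
  obtain ⟨i, hi⟩ := Finset.nonempty_iff_ne_empty.2 hT
  rw [tr, mem_filter] at hi
  have hex : ∃ c : ℕ, G.Adj (v (c : ZMod k)) y := ⟨i.val, by
    rw [ZMod.natCast_zmod_val]; exact hi.2⟩
  have hc1 := Nat.find_spec hex
  have hc2 : ∀ m : ℕ, m < Nat.find hex → ¬ G.Adj (v (m : ZMod k)) y :=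
    fun m hm => Nat.find_min hex hm
  have hc3 : Nat.find hex < k := lt_of_le_of_lt
    (Nat.find_min' hex (by rw [ZMod.natCast_zmod_val]; exact hi.2)) (ZMod.val_lt i)
  generalize Nat.find hex = c₀ at hc1 hc2 hc3
  by_cases ha : c₀ = k - 1
  · rw [ha] at hc1
    rw [if_pos hc1] at i3 ⊢
    linarith
  by_cases hb : c₀ = k - 2
  · rw [hb] at hc1
    rw [if_pos hc1] at i2 ⊢
    linarith
  by_cases hE : ∃ p ∈ Icc (k / 3) (2 * k / 3), ∀ i : ℕ, i < p + S → ¬ G.Adj (v (i : ZMod k)) y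
  · obtain ⟨p₀, hp₀, hC⟩ := hE
    rw [mem_Icc] at hp₀
    have hlt : ∀ p : ℕ, (∀ i : ℕ, i < p + S → ¬ G.Adj (v (i : ZMod k)) y) → p + S + 1 ≤ c₀ + 1 := by
      intro p hp
      by_contra hcon
      exact hp c₀ (by omega) hc1
    have hp1 := hlt p₀ hC
    have hmem : c₀ + 1 ∈ Icc 3 (k - 2) := by
      rw [mem_Icc]; omega
    have hysA : y ∈ sA G (st G v (c₀ + 1)) := by
      rw [mem_sA_st v (by omega)]
      exact ⟨by simpa using hc1, fun i hi => hc2 i (by omega)⟩
    have h7 : RevF G k x S (c₀ + 1) v y ≤ ∑ c ∈ Icc 3 (k - 2),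
        (if y ∈ sA G (st G v c) then RevF G k x S c v y else 0) := by
      have h8 := Finset.single_le_sum (s := Icc 3 (k - 2))
        (f := fun c => if y ∈ sA G (st G v c) then RevF G k x S c v y else 0)
        (fun c _ => by
          show (0 : ℝ) ≤ if y ∈ sA G (st G v c) then RevF G k x S c v y else 0
          split_ifs
          · exact hF0 c
          · exact le_rfl) hmem
      rw [if_pos hysA] at h8
      exact h8
    have h9 : ∑ p ∈ Icc (k / 3) (2 * k / 3),
        (if ∀ i : ℕ, i < p + S → ¬ G.Adj (v (i : ZMod k)) y then (1 : ℝ) else 0) *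
          wt x (nbin G (sA G (st G v p)) y) ≤ RevF G k x S (c₀ + 1) v y := by
      rw [RevF, Finset.sum_filter]
      refine Finset.sum_le_sum fun p _ => ?_
      by_cases hp : ∀ i : ℕ, i < p + S → ¬ G.Adj (v (i : ZMod k)) y
      · rw [if_pos hp, if_pos (hlt p hp), one_mul]
      · rw [if_neg hp, zero_mul]
        split_ifs
        · exact hwt _
        · exact le_rfl
    linarith
  · have h0 : ∑ p ∈ Icc (k / 3) (2 * k / 3),
        (if ∀ i : ℕ, i < p + S → ¬ G.Adj (v (i : ZMod k)) y then (1 : ℝ) else 0) *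
          wt x (nbin G (sA G (st G v p)) y) = 0 := by
      apply Finset.sum_eq_zero
      intro p hp
      rw [if_neg, zero_mul]
      intro hcon
      exact hE ⟨p, hp, hcon⟩
    rw [h0]
    linarith

theorem Rev_wt_nbin (A : Finset V) (y : V) :
    wt x (nbin G A y) = ∑ w, x w * (if w ∈ A ∧ G.Adj y w then (1 : ℝ) else 0) := by
  have h1 : nbin G A y = univ.filter (fun w => w ∈ A ∧ G.Adj y w) := by
    ext w
    simp [nbin]
  rw [h1, wt, Finset.sum_filter]
  refine Finset.sum_congr rfl fun w _ => ?_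
  split_ifs <;> simp

theorem Rev_w (hk : 100 ≤ k) {S : ℕ} (hSk : 3 * S + 3 ≤ k) (v : ZMod k → V) (w : V) :
    ∑ c ∈ Icc 3 (k - 2), ∑ p ∈ (Icc (k / 3) (2 * k / 3)).filter (fun p => p + S + 1 ≤ c),
      (if w ∈ sA G (st G v p) ∧ G.Adj (v (c : ZMod k)) w then (1 : ℝ) else 0) ≤
    if Far S (tr G v w) then ((tr G v w).card : ℝ) else 0 := by
  split_ifs with hF
  · have h1 : ∀ c ∈ Icc 3 (k - 2),
        ∑ p ∈ (Icc (k / 3) (2 * k / 3)).filter (fun p => p + S + 1 ≤ c),
          (if w ∈ sA G (st G v p) ∧ G.Adj (v (c : ZMod k)) w then (1 : ℝ) else 0) ≤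
        if G.Adj (v (c : ZMod k)) w then (1 : ℝ) else 0 := by
      intro c _
      by_cases hc : G.Adj (v (c : ZMod k)) w
      · rw [if_pos hc, Finset.sum_boole]
        have : (((Icc (k / 3) (2 * k / 3)).filter (fun p => p + S + 1 ≤ c)).filter
            (fun p => w ∈ sA G (st G v p) ∧ G.Adj (v (c : ZMod k)) w)).card ≤ 1 := by
          rw [Finset.card_le_one]
          intro a ha b hb
          rw [mem_filter, mem_filter, mem_Icc] at ha hb
          by_contra hne
          rcases lt_or_gt_of_ne hne with hlt | hlt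
          · exact Rev_disj v (by omega) hlt ha.2.1 hb.2.1
          · exact Rev_disj v (by omega) hlt hb.2.1 ha.2.1
        exact_mod_cast this
      · rw [if_neg hc]
        apply le_of_eq
        apply Finset.sum_eq_zero
        intro p _
        rw [if_neg (fun h => hc h.2)]
    refine (Finset.sum_le_sum h1).trans ?_
    rw [Finset.sum_boole]
    have h2 : ((Icc 3 (k - 2)).filter (fun c : ℕ => G.Adj (v (c : ZMod k)) w)).card ≤
        (tr G v w).card := by
      apply Finset.card_le_card_of_injOn (fun c : ℕ => (c : ZMod k))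
      · intro c hc
        simp only [coe_filter, Set.mem_ofPred_eq] at hc
        simp [tr, hc.2]
      · intro c hc c' hc' hcc
        simp only [coe_filter, Set.mem_ofPred_eq, mem_Icc] at hc hc'
        have h3 := (ZMod.natCast_eq_natCast_iff c c' k).1 hcc
        exact Nat.ModEq.eq_of_lt_of_lt h3 (by omega) (by omega)
    exact_mod_cast h2
  · apply le_of_eq
    apply Finset.sum_eq_zero
    intro c hc
    apply Finset.sum_eq_zero
    intro p hp
    rw [if_neg]
    rintro ⟨h1, h2⟩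
    rw [mem_filter, mem_Icc] at hp
    rw [mem_Icc] at hc
    rw [mem_sA_st v (by omega)] at h1
    unfold Far at hF
    push Not at hF
    obtain ⟨s, hs⟩ := hF
    obtain ⟨j1, hj1, e1⟩ := hs ((p - 1 : ℕ) : ZMod k) (by simp [tr, h1.1])
    obtain ⟨j2, hj2, e2⟩ := hs (c : ZMod k) (by simp [tr, h2])
    have h3 : (((p - 1) + j2 : ℕ) : ZMod k) = ((c + j1 : ℕ) : ZMod k) := by
      rw [Nat.cast_add, Nat.cast_add, e1, e2]
      ring
    have h4 := (ZMod.natCast_eq_natCast_iff _ _ k).1 h3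
    have h5 := (Nat.modEq_iff_dvd' (by omega)).1 h4
    have h6 := Nat.le_of_dvd (by omega) h5
    omega

theorem Rev_pt3 (hk : 100 ≤ k) (hx : ∀ v, 0 ≤ x v) {S : ℕ} (hSk : 3 * S + 3 ≤ k)
    (v : ZMod k → V) :
    ∑ c ∈ Icc 3 (k - 2), RevF G k x S c v (v (c : ZMod k)) ≤
      ∑ w ∈ univ.filter (fun w => Far S (tr G v w)), x w * ((tr G v w).card : ℝ) := by
  have h1 : ∑ c ∈ Icc 3 (k - 2), RevF G k x S c v (v (c : ZMod k)) =
      ∑ w, x w * ∑ c ∈ Icc 3 (k - 2),
        ∑ p ∈ (Icc (k / 3) (2 * k / 3)).filter (fun p => p + S + 1 ≤ c),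
          (if w ∈ sA G (st G v p) ∧ G.Adj (v (c : ZMod k)) w then (1 : ℝ) else 0) := by
    simp_rw [RevF, Rev_wt_nbin, Finset.mul_sum]
    rw [Finset.sum_comm (s := (univ : Finset V))]
    refine Finset.sum_congr rfl fun c _ => ?_
    rw [Finset.sum_comm]
  rw [h1, Finset.sum_filter]
  refine Finset.sum_le_sum fun w _ => ?_
  refine (mul_le_mul_of_nonneg_left (Rev_w hk hSk v w) (hx w)).trans (le_of_eq ?_)
  split_ifs <;> simp

theorem Rev_dep (hk : 100 ≤ k) {S c : ℕ} (y : V) :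
    Dep k c (fun v : ZMod k → V => RevF G k x S c v y) := by
  intro v v' hvv
  unfold RevF
  refine Finset.sum_congr rfl fun p hp => ?_
  rw [mem_filter, mem_Icc] at hp
  have h1 := dep_st (G := G) (k := k) (p := p) (q := c) (by omega) (by omega) v v' hvv
  simp only at h1
  rw [h1]

theorem Rev_cm (hk : 100 ≤ k) (h : Opt G k x) {S c : ℕ} (hc : 3 ≤ c) (hck : c + 2 ≤ k) :
    EE G k x (fun v => ∑ y ∈ sA G (st G v c), x y * RevF G k x S c v y) ≤
      EE G k x (fun v => RevF G k x S c v (v (c : ZMod k))) + 6 * ee G k x c := by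
  have hx : ∀ v, 0 ≤ x v := fun v => (h.pos v).le
  have h1 := cm (p := c) (by omega) h (by omega) hck (fun v y => RevF G k x S c v y)
    (fun y => Rev_dep hk y) 6 (by
      intro v y
      have h0 : 0 ≤ RevF G k x S c v y :=
        Finset.sum_nonneg fun p _ => Finset.sum_nonneg fun z _ => hx z
      rw [abs_of_nonneg h0]
      apply Rev_six (by omega) h v y
      intro p hp
      rw [mem_filter, mem_Icc] at hp
      omega)
  have h2 := (abs_le.1 h1).2
  linarith

theorem rev_nonneg (hx : ∀ v, 0 ≤ x v) (S p : ℕ) : 0 ≤ rev G k x S p := by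
  apply EE_nonneg hx
  intro v _
  apply Finset.sum_nonneg
  intro w _
  apply mul_nonneg (hx w)
  apply Finset.sum_nonneg
  intro y _
  apply mul_nonneg (hx y)
  split_ifs <;> norm_num

theorem rev_sum (hk : 100 ≤ k) (h : Opt G k x) {S : ℕ} (hS : 3 ≤ S) (hSk : 3 * S + 3 ≤ k) :
    ∑ p ∈ Icc (k / 3) (2 * k / 3), rev G k x S p ≤
      78 + 18 * Real.sqrt k + Real.sqrt (273 * k * EE G k x (farm G x S)) := by
  have hx : ∀ v, 0 ≤ x v := fun v => (h.pos v).le
  have hpt : ∀ v ∈ cyc G k, ∑ p ∈ Icc (k / 3) (2 * k / 3), ∑ w ∈ sA G (st G v p), x w *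
      ∑ y ∈ sA G (step G (st G v p) w),
        x y * (if ∀ c : ℕ, p ≤ c → c < p + S → ¬ G.Adj (v (c : ZMod k)) y then (1 : ℝ) else 0) ≤
      (6 * emp G x v + 72) +
        ∑ c ∈ Icc 3 (k - 2), ∑ y ∈ sA G (st G v c), x y * RevF G k x S c v y := by
    intro v _
    have h1 : ∑ p ∈ Icc (k / 3) (2 * k / 3), ∑ w ∈ sA G (st G v p), x w *
        ∑ y ∈ sA G (step G (st G v p) w),
          x y * (if ∀ c : ℕ, p ≤ c → c < p + S → ¬ G.Adj (v (c : ZMod k)) y then (1 : ℝ) else 0) ≤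
        ∑ y, x y * ∑ p ∈ Icc (k / 3) (2 * k / 3),
          (if ∀ i : ℕ, i < p + S → ¬ G.Adj (v (i : ZMod k)) y then (1 : ℝ) else 0) *
            wt x (nbin G (sA G (st G v p)) y) := by
      simp_rw [Finset.mul_sum (s := Icc (k / 3) (2 * k / 3))]
      rw [Finset.sum_comm (s := (univ : Finset V))]
      refine Finset.sum_le_sum fun p hp => ?_
      rw [mem_Icc] at hp
      exact Rev_pt1 hx v (by omega)
    refine h1.trans ?_
    refine (Finset.sum_le_sum fun y _ =>
      mul_le_mul_of_nonneg_left (Rev_pt2 hk h (S := S) v y) (hx y)).trans ?_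
    have e1 : ∑ y, x y * (6 * (if tr G v y = ∅ then (1 : ℝ) else 0) +
        6 * (if G.Adj (v ((k - 2 : ℕ) : ZMod k)) y then (1 : ℝ) else 0) +
        6 * (if G.Adj (v ((k - 1 : ℕ) : ZMod k)) y then (1 : ℝ) else 0) +
        ∑ c ∈ Icc 3 (k - 2), (if y ∈ sA G (st G v c) then RevF G k x S c v y else 0)) =
        6 * emp G x v + 6 * wt x (nb G (v ((k - 2 : ℕ) : ZMod k))) +
        6 * wt x (nb G (v ((k - 1 : ℕ) : ZMod k))) +
        ∑ c ∈ Icc 3 (k - 2), ∑ y ∈ sA G (st G v c), x y * RevF G k x S c v y := by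
      have e2 : emp G x v = ∑ y, x y * (if tr G v y = ∅ then (1 : ℝ) else 0) := by
        rw [emp, wt, Finset.sum_filter]
        refine Finset.sum_congr rfl fun y _ => ?_
        split_ifs <;> simp
      have e3 : ∀ z, wt x (nb G z) = ∑ y, x y * (if G.Adj z y then (1 : ℝ) else 0) := by
        intro z
        rw [nb, wt, Finset.sum_filter]
        refine Finset.sum_congr rfl fun y _ => ?_
        split_ifs <;> simp
      have e4 : ∀ c, ∑ y ∈ sA G (st G v c), x y * RevF G k x S c v y =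
          ∑ y, x y * (if y ∈ sA G (st G v c) then RevF G k x S c v y else 0) := by
        intro c
        rw [← Finset.sum_filter_add_sum_filter_not univ (fun y => y ∈ sA G (st G v c))]
        have e5 : univ.filter (fun y => y ∈ sA G (st G v c)) = sA G (st G v c) := by
          ext y; simp
        rw [e5]
        have e6 : ∑ y ∈ univ.filter (fun y => y ∉ sA G (st G v c)),
            x y * (if y ∈ sA G (st G v c) then RevF G k x S c v y else 0) = 0 := by
          apply Finset.sum_eq_zero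
          intro y hy
          rw [mem_filter] at hy
          rw [if_neg hy.2, mul_zero]
        rw [e6, add_zero]
        refine Finset.sum_congr rfl fun y hy => ?_
        rw [if_pos hy]
      simp_rw [e4]
      rw [e2, e3, e3, Finset.sum_comm (s := Icc 3 (k - 2)), Finset.mul_sum, Finset.mul_sum,
        Finset.mul_sum, ← Finset.sum_add_distrib, ← Finset.sum_add_distrib,
        ← Finset.sum_add_distrib]
      refine Finset.sum_congr rfl fun y _ => ?_
      rw [← Finset.mul_sum]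
      ring
    rw [e1]
    have h2 := o3 (by omega) h (v ((k - 2 : ℕ) : ZMod k))
    have h3 := o3 (by omega) h (v ((k - 1 : ℕ) : ZMod k))
    linarith
  have h1 : ∑ p ∈ Icc (k / 3) (2 * k / 3), rev G k x S p =
      EE G k x (fun v => ∑ p ∈ Icc (k / 3) (2 * k / 3), ∑ w ∈ sA G (st G v p), x w *
      ∑ y ∈ sA G (step G (st G v p) w),
        x y * (if ∀ c : ℕ, p ≤ c → c < p + S → ¬ G.Adj (v (c : ZMod k)) y then (1 : ℝ) else 0)) := by
    rw [EE_sum]
    rfl
  rw [h1]
  refine (EE_mono hx hpt).trans ?_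
  rw [EE_add, EE_add, EE_const h.NN_pos.ne', EE_mul, EE_sum]
  have h2 := emp_le (by omega) h
  have h3 : ∑ c ∈ Icc 3 (k - 2),
      EE G k x (fun v => ∑ y ∈ sA G (st G v c), x y * RevF G k x S c v y) ≤
      ∑ c ∈ Icc 3 (k - 2), (EE G k x (fun v => RevF G k x S c v (v (c : ZMod k))) +
        6 * ee G k x c) := by
    refine Finset.sum_le_sum fun c hc => ?_
    rw [mem_Icc] at hc
    exact Rev_cm hk h hc.1 (by omega)
  rw [Finset.sum_add_distrib, ← Finset.mul_sum] at h3
  have h4 := ee_sum (by omega) h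
  have h5 : EE G k x (fun v => ∑ c ∈ Icc 3 (k - 2), RevF G k x S c v (v (c : ZMod k))) ≤
      Real.sqrt (273 * k * EE G k x (farm G x S)) := by
    refine (EE_mono hx fun v _ => Rev_pt3 hk hx hSk v).trans ?_
    exact tr_cs (by omega) h (fun v => univ.filter (fun w => Far S (tr G v w)))
  rw [EE_sum] at h5
  have h6 : EE G k x (fun v => emp G x v) = EE G k x (emp G x) := rfl
  rw [h6]
  linarith

end Pool.Agent.Icy
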