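import Pool.Agent.Icy.KMu
import Pool.Agent.Icy.BB
import Pool.Agent.Icy.Rev
import Pool.Agent.Icy.Bud1

/-!
# Budget 2: the probability that the reveal is not good

For `w, y` as in Budget 1, by induction on the number of steps (`kmu_markov`, total mass of `kmu` is 1
on states of cycles): `EE [E] (1 - RR_S y (st v p)) = EE [E] [y ≁ v p, …, v (p+S-1)] + Σ_{i<S} EE [E]
[y ≁ v p .. v(p+i-1), y ~ v (p+i), ¬ good (st v (p+i+1))]`.  Summed over `w, y` the first term is
`rev S p`.  In the second `y ∈ sA (st v (p+i+1))` (as `y ≁ v 0`) and the weight of the `w` is at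
most `wt (nb y) ≤ 6`; `nn y (st v q) = wt (sN (step (st v q) y))`, so with `q = p+i+1`:
`≤ 6 EE Σ_{y ∈ sA (st v q)} x_y [|wt (sN (step (st v q) y)) - 1| > δ] ≤ 6 (badP (q+1) + ee q)` (`cm`).
-/

set_option autoImplicit false

open Finset
open scoped Classical

namespace Pool.Agent.Icy

variable {V : Type} [Fintype V] {G : SimpleGraph V} {k : ℕ} [NeZero k] {x : V → ℝ}

/-- a bad reveal at the step `p + i` -/
noncomputable def Bud2_b (G : SimpleGraph V) (x : V → ℝ) (k p : ℕ) (δ : ℝ) (y : V) (i : ℕ)
    (v : ZMod k → V) : ℝ :=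
  if G.Adj y (v ((p + i : ℕ) : ZMod k)) ∧ ¬ |nn G x y (st G v (p + i + 1)) - 1| ≤ δ then 1 else 0

theorem Bud2_ind (hk : 7 ≤ k) (hx : ∀ v, 0 < x v) {p S : ℕ} (hp : 3 ≤ p) (hpS : p + S + 4 ≤ k)
    (δ : ℝ) (w y : V) : ∀ (n i : ℕ), n + i = S →
    EE G k x (fun v => Bud1_P G k p w y i v *
      (1 - RR G (kmu G x (k - p - S)) (gmu G x δ) y n (st G v (p + i)))) =
      EE G k x (fun v => Bud1_P G k p w y S v) +
      ∑ j ∈ Ico i S, EE G k x (fun v => Bud1_P G k p w y j v * Bud2_b G x k p δ y j v) := by
  intro n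
  induction n with
  | zero =>
    intro i hi
    have : i = S := by omega
    subst this
    simp only [RR, sub_zero, mul_one, Finset.Ico_self, Finset.sum_empty, add_zero]
  | succ n ih =>
    intro i hi
    have hx0 : ∀ v, 0 ≤ x v := fun v => (hx v).le
    have hSi : S - i = n + 1 := by omega
    rw [Finset.sum_eq_sum_Ico_succ_bot (show i < S by omega)]
    have hih := ih (i + 1) (by omega)
    have e1 : EE G k x (fun v => Bud1_P G k p w y i v *
      (1 - RR G (kmu G x (k - p - S)) (gmu G x δ) y (n + 1) (st G v (p + i)))) =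
        EE G k x (fun v => ∑ z ∈ sA G (st G v (p + i)),
          kmu G x (k - p - S) (n + 1) (st G v (p + i)) z *
            (Bud1_P G k p w y i v * (if G.Adj y z then
              (if |nn G x y (step G (st G v (p + i)) z) - 1| ≤ δ then 0 else 1) else
              (1 - RR G (kmu G x (k - p - S)) (gmu G x δ) y n (step G (st G v (p + i)) z))))) := by
      refine EE_congr fun v hv => ?_
      simp only [RR]
      have h1 : ∑ z ∈ sA G (st G v (p + i)), kmu G x (k - p - S) (n + 1) (st G v (p + i)) z = 1 := by
        rw [← rho_sum (by omega) hx hv (show 2 ≤ p + i by omega) (by omega)]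
        refine Finset.sum_congr rfl fun z _ => ?_
        exact kmu_st (by omega) v z
      nth_rewrite 1 [← h1]
      rw [← Finset.sum_sub_distrib, Finset.mul_sum]
      refine Finset.sum_congr rfl fun z _ => ?_
      by_cases ha : G.Adj y z
      · rw [if_pos ha, if_pos ha]
        by_cases hb : |nn G x y (step G (st G v (p + i)) z) - 1| ≤ δ
        · have hb' : gmu G x δ n (step G (st G v (p + i)) z) y := hb
          rw [if_pos hb', if_pos hb]; ring
        · have hb' : ¬ gmu G x δ n (step G (st G v (p + i)) z) y := hb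
          rw [if_neg hb', if_neg hb]; ring
      · rw [if_neg ha, if_neg ha]; ring
    rw [e1]
    rw [kmu_markov (p := p + i) (R := k - p - S) (n := n + 1) (by omega) hx0 (by omega) (by omega)
      (by omega) (fun v z => Bud1_P G k p w y i v * (if G.Adj y z then
              (if |nn G x y (step G (st G v (p + i)) z) - 1| ≤ δ then 0 else 1) else
              (1 - RR G (kmu G x (k - p - S)) (gmu G x δ) y n (step G (st G v (p + i)) z)))) ?_]
    · have e2 : EE G k x (fun v => Bud1_P G k p w y i v *
          (if G.Adj y (v ((p + i : ℕ) : ZMod k)) then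
              (if |nn G x y (step G (st G v (p + i)) (v ((p + i : ℕ) : ZMod k))) - 1| ≤ δ
                then 0 else 1) else
              (1 - RR G (kmu G x (k - p - S)) (gmu G x δ) y n
                (step G (st G v (p + i)) (v ((p + i : ℕ) : ZMod k)))))) =
          EE G k x (fun v => Bud1_P G k p w y i v * Bud2_b G x k p δ y i v +
            Bud1_P G k p w y (i + 1) v *
            (1 - RR G (kmu G x (k - p - S)) (gmu G x δ) y n (st G v (p + (i + 1))))) := by
        refine EE_congr fun v _ => ?_
        rw [← Bud1_P_succ, ← st_succ v (show 2 ≤ p + i by omega), ← mul_add]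
        congr 1
        unfold Bud2_b
        by_cases ha : G.Adj y (v ((p + i : ℕ) : ZMod k))
        · rw [if_pos ha, if_pos ha, add_zero]
          by_cases hb : |nn G x y (st G v (p + i + 1)) - 1| ≤ δ
          · rw [if_pos hb, if_neg (fun h => h.2 hb)]
          · rw [if_neg hb, if_pos ⟨ha, hb⟩]
        · rw [if_neg ha, if_neg ha, if_neg (fun h => ha h.1), zero_add]
          rfl
      rw [e2, EE_add, hih]
      ring
    · intro z v v' hvv
      have h1 := Bud1_P_dep (G := G) (show 1 ≤ p by omega) w y i v v' hvv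
      have h2 : st G v (p + i) = st G v' (p + i) :=
        dep_st (G := G) (show 1 ≤ p + i by omega) (le_refl _) v v' hvv
      simp only at h1 ⊢
      rw [h1, h2]

theorem Bud2_step (hk : 7 ≤ k) (h : Opt G k x) (v : ZMod k → V) {p : ℕ} (hp : 3 ≤ p) (i : ℕ)
    (δ : ℝ) :
    ∑ w, ∑ y, x w * x y * (Bud1_P G k p w y i v * Bud2_b G x k p δ y i v) ≤
      6 * ∑ y ∈ sA G (st G v (p + i + 1)), x y *
        (if δ < |wt x (sN G (step G (st G v (p + i + 1)) y)) - 1| then 1 else 0) := by
  have hx : ∀ u, 0 ≤ x u := fun u => (h.pos u).le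
  have hnb : ∀ y, ∑ w, (if G.Adj y w then x w else 0) ≤ 6 := by
    intro y
    have := o3 (by omega) h y
    unfold wt nb at this
    rw [Finset.sum_filter] at this
    exact this.le
  have hnn : ∀ y, nn G x y (st G v (p + i + 1)) =
      wt x (sN G (step G (st G v (p + i + 1)) y)) := fun y => rfl
  have hterm : ∀ w y, x w * x y * (Bud1_P G k p w y i v * Bud2_b G x k p δ y i v) ≤
      (if G.Adj y w then x w else 0) * (if y ∈ sA G (st G v (p + i + 1)) then x y *
        (if δ < |wt x (sN G (step G (st G v (p + i + 1)) y)) - 1| then 1 else 0) else 0) := by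
    intro w y
    have hR : 0 ≤ (if G.Adj y w then x w else 0) * (if y ∈ sA G (st G v (p + i + 1)) then x y *
        (if δ < |wt x (sN G (step G (st G v (p + i + 1)) y)) - 1| then 1 else 0) else 0) := by
      refine mul_nonneg ?_ ?_
      · split_ifs
        · exact hx w
        · exact le_refl 0
      · split_ifs
        · simpa using hx y
        · simp
        · exact le_refl 0
    unfold Bud1_P Bud2_b
    by_cases hA : (w ∈ sA G (st G v p) ∧ y ∈ sA G (step G (st G v p) w)) ∧
        (∀ c : ℕ, p ≤ c → c < p + i → ¬ G.Adj y (v (c : ZMod k)))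
    · by_cases hB : G.Adj y (v ((p + i : ℕ) : ZMod k)) ∧
          ¬ |nn G x y (st G v (p + i + 1)) - 1| ≤ δ
      · rw [if_pos hA, if_pos hB]
        obtain ⟨⟨h1, h2⟩, h3⟩ := hA
        obtain ⟨h4, h5⟩ := hB
        have h2' := Finset.mem_filter.mp h2
        have hup : y ∈ up G (st G v p) := h2'.1
        have hwy : G.Adj w y := h2'.2.1
        have h0y : ¬ G.Adj (v 0) y := h2'.2.2
        have hmem : y ∈ sA G (st G v (p + i + 1)) := by
          rw [mem_sA_st v (show 2 ≤ p + i + 1 by omega)]
          refine ⟨?_, ?_⟩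
          · rw [show p + i + 1 - 1 = p + i by omega]; exact h4.symm
          · intro j hj
            rcases Nat.eq_zero_or_pos j with hj0 | hj0
            · subst hj0; simpa using h0y
            · rcases Nat.lt_or_ge j p with hjp | hjp
              · exact (mem_up_st v (show 2 ≤ p by omega) y).mp hup j hj0 hjp
              · intro hadj
                exact h3 j hjp (by omega) hadj.symm
        rw [if_pos hwy.symm, if_pos hmem, if_pos]
        · linarith
        · rw [hnn] at h5
          exact not_le.mp h5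
      · rw [if_neg hB]
        simpa using hR
    · rw [if_neg hA]
      simpa using hR
  calc ∑ w, ∑ y, x w * x y * (Bud1_P G k p w y i v * Bud2_b G x k p δ y i v)
      ≤ ∑ w, ∑ y, (if G.Adj y w then x w else 0) * (if y ∈ sA G (st G v (p + i + 1)) then x y *
        (if δ < |wt x (sN G (step G (st G v (p + i + 1)) y)) - 1| then 1 else 0) else 0) :=
        Finset.sum_le_sum fun w _ => Finset.sum_le_sum fun y _ => hterm w y
    _ = ∑ y, (∑ w, (if G.Adj y w then x w else 0)) *
          (if y ∈ sA G (st G v (p + i + 1)) then x y *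
        (if δ < |wt x (sN G (step G (st G v (p + i + 1)) y)) - 1| then 1 else 0) else 0) := by
        rw [Finset.sum_comm]
        refine Finset.sum_congr rfl fun y _ => ?_
        rw [Finset.sum_mul]
    _ ≤ ∑ y, 6 * (if y ∈ sA G (st G v (p + i + 1)) then x y *
        (if δ < |wt x (sN G (step G (st G v (p + i + 1)) y)) - 1| then 1 else 0) else 0) := by
        refine Finset.sum_le_sum fun y _ => mul_le_mul_of_nonneg_right (hnb y) ?_
        split_ifs
        · simpa using hx y
        · simp
        · exact le_refl 0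
    _ = 6 * ∑ y ∈ sA G (st G v (p + i + 1)), x y *
        (if δ < |wt x (sN G (step G (st G v (p + i + 1)) y)) - 1| then 1 else 0) := by
        rw [← Finset.mul_sum]
        congr 1
        rw [← Finset.sum_filter]
        refine Finset.sum_congr ?_ fun _ _ => rfl
        ext y; simp

theorem bud2 (hk : 7 ≤ k) (h : Opt G k x) {p S : ℕ} (hp : 3 ≤ p) (hS : 1 ≤ S) (hpS : p + S + 4 ≤ k)
    {δ : ℝ} (hδ : 0 < δ) :
    EE G k x (fun v => ∑ w ∈ sA G (st G v p), x w * ∑ y ∈ sA G (step G (st G v p) w),
      x y * (1 - RR G (kmu G x (k - p - S)) (gmu G x δ) y S (st G v p))) ≤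
      rev G k x S p +
        6 * ∑ i ∈ range S, (badP G k x δ (p + i + 2) + ee G k x (p + i + 1)) := by
  have hx : ∀ u, 0 ≤ x u := fun u => (h.pos u).le
  rw [Bud1_expand p (fun y v => 1 - RR G (kmu G x (k - p - S)) (gmu G x δ) y S (st G v p))]
  have e1 : ∀ w y : V, EE G k x (fun v => Bud1_P G k p w y 0 v *
      (1 - RR G (kmu G x (k - p - S)) (gmu G x δ) y S (st G v p))) =
      EE G k x (fun v => Bud1_P G k p w y S v) +
      ∑ j ∈ range S, EE G k x (fun v => Bud1_P G k p w y j v * Bud2_b G x k p δ y j v) := by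
    intro w y
    have := Bud2_ind (G := G) hk h.pos hp hpS δ w y S 0 (by omega)
    rw [← Finset.range_eq_Ico] at this
    exact this
  simp_rw [e1]
  have e2 : ∑ w, ∑ y, x w * x y * (EE G k x (fun v => Bud1_P G k p w y S v) +
      ∑ j ∈ range S, EE G k x (fun v => Bud1_P G k p w y j v * Bud2_b G x k p δ y j v)) =
      ∑ w, ∑ y, x w * x y * EE G k x (fun v => Bud1_P G k p w y S v) +
      ∑ j ∈ range S, EE G k x (fun v => ∑ w, ∑ y, x w * x y *
        (Bud1_P G k p w y j v * Bud2_b G x k p δ y j v)) := by
    have : ∀ w y : V, x w * x y * (EE G k x (fun v => Bud1_P G k p w y S v) +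
        ∑ j ∈ range S, EE G k x (fun v => Bud1_P G k p w y j v * Bud2_b G x k p δ y j v)) =
        x w * x y * EE G k x (fun v => Bud1_P G k p w y S v) +
        ∑ j ∈ range S, EE G k x (fun v => x w * x y *
          (Bud1_P G k p w y j v * Bud2_b G x k p δ y j v)) := by
      intro w y
      rw [mul_add, Finset.mul_sum]
      congr 1
      refine Finset.sum_congr rfl fun j _ => ?_
      rw [EE_mul]
    simp_rw [this, Finset.sum_add_distrib]
    congr 1
    have e3 : ∀ w : V, ∑ y, ∑ j ∈ range S, EE G k x (fun v => x w * x y *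
          (Bud1_P G k p w y j v * Bud2_b G x k p δ y j v)) =
        ∑ j ∈ range S, EE G k x (fun v => ∑ y, x w * x y *
          (Bud1_P G k p w y j v * Bud2_b G x k p δ y j v)) := by
      intro w
      rw [Finset.sum_comm]
      refine Finset.sum_congr rfl fun j _ => ?_
      rw [EE_sum]
    simp_rw [e3]
    rw [Finset.sum_comm]
    refine Finset.sum_congr rfl fun j _ => ?_
    rw [EE_sum]
  rw [e2]
  refine add_le_add ?_ ?_
  · refine le_of_eq ?_
    unfold rev
    have e4 : (fun v : ZMod k → V => ∑ w ∈ sA G (st G v p), x w *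
        ∑ y ∈ sA G (step G (st G v p) w),
        x y * (if ∀ c : ℕ, p ≤ c → c < p + S → ¬ G.Adj (v (c : ZMod k)) y then (1 : ℝ) else 0)) =
        (fun v : ZMod k → V => ∑ w ∈ sA G (st G v p), x w *
        ∑ y ∈ sA G (step G (st G v p) w),
        x y * (fun (y : V) (v : ZMod k → V) => if ∀ c : ℕ, p ≤ c → c < p + S →
          ¬ G.Adj (v (c : ZMod k)) y then (1 : ℝ) else 0) y v) := rfl
    rw [e4, Bud1_expand]
    refine Finset.sum_congr rfl fun w _ => Finset.sum_congr rfl fun y _ => ?_
    congr 1
    congr 1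
    funext v
    unfold Bud1_P
    by_cases hA : w ∈ sA G (st G v p) ∧ y ∈ sA G (step G (st G v p) w)
    · by_cases hB : ∀ c : ℕ, p ≤ c → c < p + S → ¬ G.Adj (v (c : ZMod k)) y
      · have hB' : ∀ c : ℕ, p ≤ c → c < p + S → ¬ G.Adj y (v (c : ZMod k)) :=
          fun c h1 h2 h3 => hB c h1 h2 h3.symm
        rw [if_pos ⟨hA, hB'⟩, if_pos ⟨hA, fun c h1 h2 => by omega⟩, if_pos hB, one_mul]
      · rw [if_neg hB, mul_zero, if_neg]
        rintro ⟨_, h2⟩
        exact hB (fun c h3 h4 h5 => h2 c h3 h4 h5.symm)
    · rw [if_neg (fun h1 => hA h1.1), if_neg (fun h1 => hA h1.1), zero_mul]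
  · rw [Finset.mul_sum]
    refine Finset.sum_le_sum fun j hj => ?_
    have hj' : j < S := Finset.mem_range.mp hj
    have hcm := cm (p := p + j + 1) hk h (by omega) (by omega)
      (fun v y => if δ < |wt x (sN G (step G (st G v (p + j + 1)) y)) - 1| then (1 : ℝ) else 0)
      (by
        intro z v v' hvv
        have h2 : st G v (p + j + 1) = st G v' (p + j + 1) :=
          dep_st (G := G) (show 1 ≤ p + j + 1 by omega) (le_refl _) v v' hvv
        simp only [h2]) 1
      (by
        intro v z
        split_ifs <;> simp)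
    have h3 := (abs_le.mp hcm).2
    have h4 : EE G k x (fun v => (fun v y => if δ < |wt x (sN G (step G (st G v (p + j + 1)) y)) - 1|
        then (1 : ℝ) else 0) v (v ((p + j + 1 : ℕ) : ZMod k))) = badP G k x δ (p + j + 2) := by
      unfold badP
      refine EE_congr fun v _ => ?_
      simp only
      rw [← st_succ v (show 2 ≤ p + j + 1 by omega)]
    have h5 : EE G k x (fun v => ∑ w, ∑ y, x w * x y *
        (Bud1_P G k p w y j v * Bud2_b G x k p δ y j v)) ≤
        6 * EE G k x (fun v => ∑ y ∈ sA G (st G v (p + j + 1)), x y *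
        (if δ < |wt x (sN G (step G (st G v (p + j + 1)) y)) - 1| then 1 else 0)) := by
      rw [← EE_mul]
      exact EE_mono hx fun v _ => Bud2_step hk h v hp j δ
    rw [h4] at h3
    linarith

end Pool.Agent.Icy
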