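import Pool.Agent.Icy.T9Defs

/-!
# T9, case A

`Y = sN (step s w)`, `M = sN (step (step s w) y)`, `σ = 4√θ ≤ 4·10⁻⁴`.  Masses of `sA s`, `Y`, `M` are
`1 ± σ`; `wt (sB (step s w)) ≤ 2θ`.  `T8P` at `(s, w)`: `Σ_{u∈sA s} x_u wt (nnin Y u) ≤ η`; at
`(step s w, y)`: `Σ_{v ∈ sA (step s w)} x_v wt (nnin M v) ≤ η`.
Pairs `(u, v)`: `u ∈ nnin (sA s) y`, `v ∈ sA (step s w)`, `v ~ y`, `v ~ u` (then `v ∈ sA (step s u)`):
weight `≥ 1/10 (1/2 - σ - 2θ) - η`.  Remove `¬ mm (s_u) < θ` (`≤ Hz 0 · 1.01`) and `¬ mm (s_uv) < θ`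
(`≤ Hz 1`).  For the others `y ∈ sA (s_uv)`.  If `mm (s_uvy) < θ` then `1 - σ ≤ wt (sN (s_uvy)) ≤
wt (nnin M v) + wt (nnin Y u)` (`sN (s_uvy) = {z ∈ up s : z ~ y, z ≁ u, z ≁ v}`: `z ≁ w` gives `z ∈ M`,
`z ~ w` gives `z ∈ Y`); so the weight of such pairs is `≤ 2.2 η`.  The rest is in `hz3`.
-/

set_option autoImplicit false

open Finset
open scoped Classical

namespace Pool.Agent.Icy

variable {V : Type} {G : SimpleGraph V} {x : V → ℝ}

theorem CaseA_swap (Y A : Finset V) :
    ∑ y ∈ Y, x y * wt x (nnin G A y) = ∑ u ∈ A, x u * wt x (nnin G Y u) := by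
  unfold wt nnin
  simp_rw [Finset.sum_filter, Finset.mul_sum]
  rw [Finset.sum_comm]
  refine Finset.sum_congr rfl fun u _ => Finset.sum_congr rfl fun y _ => ?_
  rw [G.adj_comm]
  split_ifs
  · ring
  · ring

theorem CaseA_mono (hx : ∀ v, 0 ≤ x v) {S T : Finset V} (h : S ⊆ T) : wt x S ≤ wt x T :=
  Finset.sum_le_sum_of_subset_of_nonneg h fun v _ _ => hx v

theorem CaseA_nonneg (hx : ∀ v, 0 ≤ x v) (S : Finset V) : 0 ≤ wt x S :=
  Finset.sum_nonneg fun v _ => hx v

theorem CaseA_ite (B S : Finset V) (f : V → ℝ) (hf : ∀ v, 0 ≤ f v) :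
    ∑ v ∈ B, (if v ∈ S then f v else 0) ≤ ∑ v ∈ S, f v := by
  rw [← Finset.sum_filter]
  refine Finset.sum_le_sum_of_subset_of_nonneg ?_ fun v _ _ => hf v
  intro v hv
  exact (Finset.mem_filter.1 hv).2

theorem CaseA_Hz1 (θ : ℝ) {r : ℕ} (hr : 6 ≤ r) (s : St V) :
    Hz G x θ 1 r s = ∑ z ∈ sA G s, x z * (if mm G x (r - 1) (step G s z) < θ then
      ∑ v ∈ sA G (step G s z), x v *
        (if mm G x (r - 2) (step G (step G s z) v) < θ then 0 else 1) else 0) := by
  have h1 : ¬ r ≤ 1 := by omega
  have h2 : ¬ r - 1 ≤ 1 := by omega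
  have h3 : r - 1 - 1 = r - 2 := by omega
  simp only [Hz, if_neg h1, if_neg h2, h3]

theorem CaseA_Hz0 (θ : ℝ) {r : ℕ} (hr : 6 ≤ r) (s : St V) :
    Hz G x θ 0 r s = ∑ z ∈ sA G s, x z * (if mm G x (r - 1) (step G s z) < θ then 0 else 1) := by
  have h1 : ¬ r ≤ 1 := by omega
  simp only [Hz, if_neg h1]

theorem caseA (hB : Base G x) {θ₂ θ η : ℝ} (h0 : 0 < θ) (h1 : θ ≤ 1 / 10 ^ 8)
    (hη : η ≤ 1 / 10 ^ 4) (h8 : T8P G x θ₂ θ η) {r : ℕ} (hr : 6 ≤ r) {s : St V}
    (hm : mm G x r s < θ) (hz0 : Hz G x θ 0 r s ≤ 1 / 1000) (hz1 : Hz G x θ 1 r s ≤ 1 / 1000)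
    {w y : V} (hw : w ∈ sA G s) (hmw : mm G x (r - 1) (step G s w) < θ)
    (hy : y ∈ sA G (step G s w)) (hmy : mm G x (r - 2) (step G (step G s w) y) < θ)
    (hmiss : 1 / 10 < wt x (nnin G (sA G s) y))
    (hd : wt x (nnin G (sN G (step G s w)) y) < 1 / 2) : 1 / 100 ≤ hz3 G x θ r s y := by
  have hx := hB.nonneg
  have hθ16 : θ ≤ 1 / 16 := h1.trans (by norm_num)
  have hsq : Real.sqrt θ ≤ 1 / 10 ^ 4 := by
    rw [Real.sqrt_le_left (by norm_num)]
    calc θ ≤ 1 / 10 ^ 8 := h1
      _ = (1 / 10 ^ 4) ^ 2 := by norm_num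
  have hsq0 : 0 ≤ Real.sqrt θ := Real.sqrt_nonneg _
  set σ : ℝ := 4 * Real.sqrt θ with hσ
  have hσ0 : 0 ≤ σ := by positivity
  have hσ1 : σ ≤ 4 / 10 ^ 4 := by rw [hσ]; linarith
  -- masses
  have mA := mass_A hx hθ16 (by omega : 2 ≤ r) hm
  have mY := mass_N hx hθ16 (by omega : 1 ≤ r - 1) hmw
  have mM := mass_N hx hθ16 (by omega : 1 ≤ r - 2) hmy
  have mB := mass_B hx hθ16 (by omega : 2 ≤ r - 1) hmw
  rw [abs_le] at mA mY mM
  set Y : Finset V := sN G (step G s w) with hY
  set M : Finset V := sN G (step G (step G s w) y) with hM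
  set A' : Finset V := nnin G (sA G s) y with hA'
  set B' : Finset V := (sA G (step G s w)).filter (fun v => G.Adj y v) with hB'
  -- the two T8 inequalities
  have t1 : ∑ u ∈ sA G s, x u * wt x (nnin G Y u) ≤ η := by
    have := (h8 r s w (by omega) hw hm hmw).1
    rwa [CaseA_swap] at this
  have hr12 : r - 1 - 1 = r - 2 := by omega
  have t2 : ∑ v ∈ sA G (step G s w), x v * wt x (nnin G M v) ≤ η := by
    have := (h8 (r - 1) (step G s w) y (by omega) hy hmw (by rw [hr12]; exact hmy)).1
    rwa [CaseA_swap] at this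
  have hη0 : 0 ≤ η := le_trans (Finset.sum_nonneg fun u _ => mul_nonneg (hx u)
    (CaseA_nonneg hx _)) t1
  -- facts about `y`
  have hy' := Finset.mem_filter.1 hy
  have hyU : y ∈ up G s := hy'.1
  have hya : ¬ G.Adj s.a y := hy'.2.2
  -- inclusions
  have hB'Y : B' ⊆ Y := by
    intro v hv
    have hv1 := (Finset.mem_filter.1 hv).1
    have hv2 := Finset.mem_filter.1 hv1
    exact Finset.mem_filter.2 ⟨hv2.1, hv2.2.1⟩
  have hA'A : A' ⊆ sA G s := Finset.filter_subset _ _
  have wB'1 : wt x B' ≤ 1 + σ := le_trans (CaseA_mono hx hB'Y) (by linarith [mY.2])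
  have wA'1 : wt x A' ≤ 1 + σ := le_trans (CaseA_mono hx hA'A) (by linarith [mA.2])
  have wB'2 : 1 / 2 - σ - 2 * θ ≤ wt x B' := by
    have h2 : wt x Y ≤ wt x B' + (wt x (sB G (step G s w)) + wt x (nnin G Y y)) := by
      unfold wt
      have hsub : Y ⊆ B' ∪ (sB G (step G s w) ∪ nnin G Y y) := by
        intro v hv
        rw [Finset.mem_union, Finset.mem_union]
        have hv' := Finset.mem_filter.1 hv
        by_cases ha : G.Adj (step G s w).a v
        · right; left
          exact Finset.mem_filter.2 ⟨hv'.1, hv'.2, ha⟩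
        · by_cases hyv : G.Adj y v
          · left
            exact Finset.mem_filter.2 ⟨Finset.mem_filter.2 ⟨hv'.1, hv'.2, ha⟩, hyv⟩
          · right; right
            exact Finset.mem_filter.2 ⟨hv, hyv⟩
      calc ∑ v ∈ Y, x v ≤ ∑ v ∈ B' ∪ (sB G (step G s w) ∪ nnin G Y y), x v :=
            Finset.sum_le_sum_of_subset_of_nonneg hsub fun v _ _ => hx v
        _ ≤ ∑ v ∈ B', x v + ∑ v ∈ sB G (step G s w) ∪ nnin G Y y, x v := by
            rw [← Finset.sum_union_inter (s₁ := B')]
            exact le_add_of_nonneg_right (Finset.sum_nonneg fun v _ => hx v)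
        _ ≤ _ := by
            gcongr
            rw [← Finset.sum_union_inter (s₁ := sB G (step G s w))]
            exact le_add_of_nonneg_right (Finset.sum_nonneg fun v _ => hx v)
    linarith [mY.1]
  have wA'0 : 0 ≤ wt x A' := CaseA_nonneg hx _
  have wB'0 : 0 ≤ wt x B' := CaseA_nonneg hx _
  have h1σ : 0 < 1 - σ := by
    have : σ ≤ 4 / 10 ^ 4 := hσ1
    norm_num at this ⊢
    linarith
  set κ : ℝ := 1 / (1 - σ) with hκ
  have hκ0 : 0 < κ := by positivity
  -- the summand of hz3
  set hzu : V → ℝ := fun u => (if mm G x (r - 1) (step G s u) < θ then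
    ∑ v ∈ sA G (step G s u), x v * (if mm G x (r - 2) (step G (step G s u) v) < θ ∧
      y ∈ sA G (step G (step G s u) v) ∧
      ¬ mm G x (r - 3) (step G (step G (step G s u) v) y) < θ then 1 else 0) else 0) with hhzu
  have hhz : hz3 G x θ r s y = ∑ u ∈ sA G s, x u * hzu u := rfl
  have hzu0 : ∀ u, 0 ≤ hzu u := by
    intro u
    simp only [hhzu]
    split_ifs
    · refine Finset.sum_nonneg fun v _ => mul_nonneg (hx v) ?_
      split_ifs <;> norm_num
    · exact le_refl _
  set g1 : V → ℝ := fun u => (if mm G x (r - 1) (step G s u) < θ then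
      ∑ v ∈ sA G (step G s u), x v *
        (if mm G x (r - 2) (step G (step G s u) v) < θ then 0 else 1) else 0) with hg1
  have hg10 : ∀ u, 0 ≤ g1 u := by
    intro u
    simp only [hg1]
    split_ifs
    · refine Finset.sum_nonneg fun v _ => mul_nonneg (hx v) ?_
      split_ifs <;> norm_num
    · exact le_refl _
  set g0 : V → ℝ := fun u => (if mm G x (r - 1) (step G s u) < θ then (0 : ℝ) else 1) with hg0
  have hg00 : ∀ u, 0 ≤ g0 u := by
    intro u
    simp only [hg0]
    split_ifs <;> norm_num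
  set ηM : ℝ := ∑ v ∈ sA G (step G s w), x v * wt x (nnin G M v) with hηM
  -- pointwise in u
  have key : ∀ u ∈ A', wt x B' ≤ wt x (nnin G Y u) + g0 u * wt x B' + g1 u + hzu u +
      κ * (ηM + wt x B' * wt x (nnin G Y u)) := by
    intro u hu
    have hu' := Finset.mem_filter.1 hu
    have hyu : ¬ G.Adj y u := hu'.2
    have hn1 : 0 ≤ wt x (nnin G Y u) := CaseA_nonneg hx _
    have hηM0 : 0 ≤ ηM := Finset.sum_nonneg fun v _ => mul_nonneg (hx v) (CaseA_nonneg hx _)
    have hlast : 0 ≤ κ * (ηM + wt x B' * wt x (nnin G Y u)) := by positivity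
    by_cases hp : mm G x (r - 1) (step G s u) < θ
    · have eg0 : g0 u = 0 := by simp only [hg0, if_pos hp]
      have eg1 : g1 u = ∑ v ∈ sA G (step G s u), x v *
        (if mm G x (r - 2) (step G (step G s u) v) < θ then 0 else 1) := by
        simp only [hg1, if_pos hp]
      have ehz : hzu u = ∑ v ∈ sA G (step G s u), x v *
        (if mm G x (r - 2) (step G (step G s u) v) < θ ∧
        y ∈ sA G (step G (step G s u) v) ∧
        ¬ mm G x (r - 3) (step G (step G (step G s u) v) y) < θ then 1 else 0) := by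
        simp only [hhzu, if_pos hp]
      have pt : ∀ v ∈ B', x v ≤ (if ¬ G.Adj u v then x v else 0) +
          (if v ∈ sA G (step G s u) then x v *
            (if mm G x (r - 2) (step G (step G s u) v) < θ then (0 : ℝ) else 1) else 0) +
          (if v ∈ sA G (step G s u) then x v *
            (if mm G x (r - 2) (step G (step G s u) v) < θ ∧
              y ∈ sA G (step G (step G s u) v) ∧
              ¬ mm G x (r - 3) (step G (step G (step G s u) v) y) < θ then (1 : ℝ) else 0) else 0) +
          κ * (x v * wt x (nnin G M v) + x v * wt x (nnin G Y u)) := by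
        intro v hv
        have hv1 := Finset.mem_filter.1 hv
        have hv2 := Finset.mem_filter.1 hv1.1
        have hvU : v ∈ up G s := hv2.1
        have hwv : G.Adj w v := hv2.2.1
        have hva : ¬ G.Adj s.a v := hv2.2.2
        have hyv : G.Adj y v := hv1.2
        have hxv := hx v
        have hl : 0 ≤ κ * (x v * wt x (nnin G M v) + x v * wt x (nnin G Y u)) := by
          have := CaseA_nonneg hx (nnin G M v)
          positivity
        by_cases huv : G.Adj u v
        · have hvin : v ∈ sA G (step G s u) := Finset.mem_filter.2 ⟨hvU, huv, hva⟩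
          rw [if_neg (not_not.2 huv), if_pos hvin, if_pos hvin]
          by_cases hq : mm G x (r - 2) (step G (step G s u) v) < θ
          · have hyin : y ∈ sA G (step G (step G s u) v) := by
              refine Finset.mem_filter.2 ⟨Finset.mem_filter.2 ⟨hyU, ?_⟩, ?_, hya⟩
              · exact fun h => hyu ((G.adj_comm _ _).1 h)
              · exact (G.adj_comm _ _).1 hyv
            by_cases hq3 : mm G x (r - 3) (step G (step G (step G s u) v) y) < θ
            · have mm3 := mass_N hx hθ16 (by omega : 1 ≤ r - 3) hq3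
              rw [abs_le] at mm3
              have hcov : wt x (sN G (step G (step G (step G s u) v) y)) ≤
                  wt x (nnin G M v) + wt x (nnin G Y u) := by
                have hsub : sN G (step G (step G (step G s u) v) y) ⊆
                    nnin G M v ∪ nnin G Y u := by
                  intro z hz
                  have hz1 := Finset.mem_filter.1 hz
                  have hyz : G.Adj y z := hz1.2
                  have hz2 := Finset.mem_filter.1 hz1.1
                  have hvz : ¬ G.Adj v z := hz2.2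
                  have hz3 := Finset.mem_filter.1 hz2.1
                  have huz : ¬ G.Adj u z := hz3.2
                  have hzU : z ∈ up G s := hz3.1
                  rw [Finset.mem_union]
                  by_cases hwz : G.Adj w z
                  · right
                    exact Finset.mem_filter.2 ⟨Finset.mem_filter.2 ⟨hzU, hwz⟩, huz⟩
                  · left
                    exact Finset.mem_filter.2 ⟨Finset.mem_filter.2
                      ⟨Finset.mem_filter.2 ⟨hzU, hwz⟩, hyz⟩, hvz⟩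
                unfold wt
                calc _ ≤ ∑ z ∈ nnin G M v ∪ nnin G Y u, x z :=
                      Finset.sum_le_sum_of_subset_of_nonneg hsub fun z _ _ => hx z
                  _ ≤ _ := by
                      rw [← Finset.sum_union_inter (s₁ := nnin G M v)]
                      exact le_add_of_nonneg_right (Finset.sum_nonneg fun z _ => hx z)
              have h1le : 1 ≤ κ * (wt x (nnin G M v) + wt x (nnin G Y u)) := by
                rw [hκ, one_div, inv_mul_eq_div, le_div_iff₀ h1σ, one_mul]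
                linarith [mm3.1]
              have h2 : x v ≤ κ * (x v * wt x (nnin G M v) + x v * wt x (nnin G Y u)) := by
                calc x v = x v * 1 := (mul_one _).symm
                  _ ≤ x v * (κ * (wt x (nnin G M v) + wt x (nnin G Y u))) :=
                      mul_le_mul_of_nonneg_left h1le hxv
                  _ = _ := by ring
              rw [if_pos hq, if_neg (by tauto)]
              linarith
            · rw [if_pos hq, if_pos ⟨hq, hyin, hq3⟩]
              linarith
          · rw [if_neg hq, if_neg (by tauto)]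
            linarith
        · rw [if_pos huv]
          have a1 : 0 ≤ (if v ∈ sA G (step G s u) then x v *
            (if mm G x (r - 2) (step G (step G s u) v) < θ then (0 : ℝ) else 1) else 0) := by
            split_ifs <;> simp [hxv]
          have a2 : 0 ≤ (if v ∈ sA G (step G s u) then x v *
            (if mm G x (r - 2) (step G (step G s u) v) < θ ∧
              y ∈ sA G (step G (step G s u) v) ∧
              ¬ mm G x (r - 3) (step G (step G (step G s u) v) y) < θ then (1 : ℝ) else 0)
              else 0) := by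
            split_ifs <;> simp [hxv]
          linarith
      have hsum := Finset.sum_le_sum pt
      rw [Finset.sum_add_distrib, Finset.sum_add_distrib, Finset.sum_add_distrib,
        ← Finset.mul_sum, Finset.sum_add_distrib] at hsum
      have c1 : ∑ v ∈ B', (if ¬ G.Adj u v then x v else 0) ≤ wt x (nnin G Y u) := by
        rw [← Finset.sum_filter]
        exact Finset.sum_le_sum_of_subset_of_nonneg (Finset.filter_subset_filter _ hB'Y)
          fun v _ _ => hx v
      have c2 := CaseA_ite B' (sA G (step G s u)) (fun v => x v *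
            (if mm G x (r - 2) (step G (step G s u) v) < θ then (0 : ℝ) else 1))
            (fun v => mul_nonneg (hx v) (by split_ifs <;> norm_num))
      have c3 := CaseA_ite B' (sA G (step G s u)) (fun v => x v *
            (if mm G x (r - 2) (step G (step G s u) v) < θ ∧
              y ∈ sA G (step G (step G s u) v) ∧
              ¬ mm G x (r - 3) (step G (step G (step G s u) v) y) < θ then (1 : ℝ) else 0))
            (fun v => mul_nonneg (hx v) (by split_ifs <;> norm_num))
      have c4 : ∑ v ∈ B', x v * wt x (nnin G M v) ≤ ηM := by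
        exact Finset.sum_le_sum_of_subset_of_nonneg (Finset.filter_subset _ _)
          fun v _ _ => mul_nonneg (hx v) (CaseA_nonneg hx _)
      have c5 : ∑ v ∈ B', x v * wt x (nnin G Y u) = wt x B' * wt x (nnin G Y u) := by
        rw [← Finset.sum_mul]; rfl
      have c6 : κ * (∑ v ∈ B', x v * wt x (nnin G M v) + ∑ v ∈ B', x v * wt x (nnin G Y u)) ≤
          κ * (ηM + wt x B' * wt x (nnin G Y u)) := by
        rw [c5]
        exact mul_le_mul_of_nonneg_left (by linarith) hκ0.le
      have c0 : wt x B' = ∑ v ∈ B', x v := rfl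
      rw [eg0, eg1, ehz]
      rw [c0] at c6 ⊢
      linarith
    · have eg0 : g0 u = 1 := by simp only [hg0, if_neg hp]
      have := hg10 u
      have := hzu0 u
      rw [eg0]
      linarith
  -- sum over u
  have hsum : wt x A' * wt x B' ≤ η + Hz G x θ 0 r s * wt x B' + Hz G x θ 1 r s +
      hz3 G x θ r s y + κ * (wt x A' * ηM + wt x B' * η) := by
    have e0 : wt x A' * wt x B' = ∑ u ∈ A', x u * wt x B' := by
      rw [← Finset.sum_mul]; rfl
    have e1 : ∑ u ∈ A', x u * wt x B' ≤ ∑ u ∈ A', x u * (wt x (nnin G Y u) + g0 u * wt x B' +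
        g1 u + hzu u + κ * (ηM + wt x B' * wt x (nnin G Y u))) :=
      Finset.sum_le_sum fun u hu => mul_le_mul_of_nonneg_left (key u hu) (hx u)
    have e2 : ∑ u ∈ A', x u * (wt x (nnin G Y u) + g0 u * wt x B' +
        g1 u + hzu u + κ * (ηM + wt x B' * wt x (nnin G Y u))) =
        ∑ u ∈ A', x u * wt x (nnin G Y u) + (∑ u ∈ A', x u * g0 u) * wt x B' +
        ∑ u ∈ A', x u * g1 u + ∑ u ∈ A', x u * hzu u +
        κ * (wt x A' * ηM + wt x B' * ∑ u ∈ A', x u * wt x (nnin G Y u)) := by
      have ewA : wt x A' = ∑ u ∈ A', x u := rfl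
      have e3 : ∑ u ∈ A', x u * (wt x (nnin G Y u) + g0 u * wt x B' +
        g1 u + hzu u + κ * (ηM + wt x B' * wt x (nnin G Y u))) =
        ∑ u ∈ A', (x u * wt x (nnin G Y u) + x u * g0 u * wt x B' + x u * g1 u + x u * hzu u +
          κ * ηM * x u + κ * wt x B' * (x u * wt x (nnin G Y u))) :=
        Finset.sum_congr rfl fun u _ => by ring
      rw [e3, Finset.sum_add_distrib, Finset.sum_add_distrib, Finset.sum_add_distrib,
        Finset.sum_add_distrib, Finset.sum_add_distrib, ← Finset.sum_mul, ← Finset.mul_sum,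
        ← Finset.mul_sum, ← ewA]
      ring
    have sub : ∀ f : V → ℝ, (∀ u, 0 ≤ f u) → ∑ u ∈ A', x u * f u ≤ ∑ u ∈ sA G s, x u * f u :=
      fun f hf => Finset.sum_le_sum_of_subset_of_nonneg hA'A
        fun u _ _ => mul_nonneg (hx u) (hf u)
    have f1 : ∑ u ∈ A', x u * wt x (nnin G Y u) ≤ η :=
      le_trans (sub _ fun u => CaseA_nonneg hx _) t1
    have f2 : ∑ u ∈ A', x u * g0 u ≤ Hz G x θ 0 r s := by
      rw [CaseA_Hz0 θ hr s]; exact sub _ hg00
    have f3 : ∑ u ∈ A', x u * g1 u ≤ Hz G x θ 1 r s := by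
      rw [CaseA_Hz1 θ hr s]; exact sub _ hg10
    have f4 : ∑ u ∈ A', x u * hzu u ≤ hz3 G x θ r s y := by
      rw [hhz]; exact sub _ hzu0
    have f5 : κ * (wt x A' * ηM + wt x B' * ∑ u ∈ A', x u * wt x (nnin G Y u)) ≤
        κ * (wt x A' * ηM + wt x B' * η) := by
      refine mul_le_mul_of_nonneg_left ?_ hκ0.le
      have := mul_le_mul_of_nonneg_left f1 wB'0
      linarith
    have f6 : (∑ u ∈ A', x u * g0 u) * wt x B' ≤ Hz G x θ 0 r s * wt x B' :=
      mul_le_mul_of_nonneg_right f2 wB'0
    rw [e0]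
    linarith [e1, e2]
  -- numerics
  have hσ1' : σ ≤ 4 / 10000 := by norm_num at hσ1 ⊢; linarith
  have hκ1 : κ ≤ 101 / 100 := by
    rw [hκ, div_le_iff₀ h1σ]
    linarith
  have hη1 : η ≤ 1 / 10000 := by norm_num at hη ⊢; linarith
  have hθ1 : θ ≤ 1 / 10000 := by norm_num at h1 ⊢; linarith
  have n1 : wt x B' ≤ 10004 / 10000 := by linarith
  have n2 : wt x A' ≤ 10004 / 10000 := by linarith
  have n3 : 4993 / 10000 ≤ wt x B' := by linarith
  have n4 : 1 / 10 * (4993 / 10000) ≤ wt x A' * wt x B' :=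
    mul_le_mul hmiss.le n3 (by norm_num) wA'0
  have n5 : Hz G x θ 0 r s * wt x B' ≤ 1 / 1000 * (10004 / 10000) := by
    refine mul_le_mul hz0 n1 wB'0 (by norm_num)
  have hηM0 : 0 ≤ ηM := Finset.sum_nonneg fun v _ => mul_nonneg (hx v) (CaseA_nonneg hx _)
  have n6 : wt x A' * ηM + wt x B' * η ≤ 3 / 10000 := by
    have a1 : wt x A' * ηM ≤ 10004 / 10000 * (1 / 10000) :=
      mul_le_mul n2 (by linarith) hηM0 (by norm_num)
    have a2 : wt x B' * η ≤ 10004 / 10000 * (1 / 10000) :=
      mul_le_mul n1 hη1 hη0 (by norm_num)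
    linarith
  have n7 : κ * (wt x A' * ηM + wt x B' * η) ≤ 101 / 100 * (3 / 10000) := by
    refine mul_le_mul hκ1 n6 ?_ (by norm_num)
    positivity
  linarith

end Pool.Agent.Icy
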