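import Pool.Agent.Icy.T9Defs

/-!
# T9, missing pairs

`y ∈ up s`, `y ≁ a`, `wt (nnin (sA s) y) ≤ 1/10`, `w ∈ sA s`, `w ≁ y`.
Choose `u ∈ sA s`, `u ~ y`, `mm (s_u) < θ`, `mm (s_uy) < θ` (weight `≥ 1/2`) with `wt (nnin Y_w u) ≤ √η`
(`T8P` at `(s, w)` + Markov), `Y_w = sN (step s w)`.  Then `wt (nnin Y_u w) ≤ 2σ + √η` (masses).
`M = sN (step (step s u) y)`; `T8P` at `(step s u, y)`: `Σ_{v∈sA(step s u)} x_v wt (nnin M v) ≤ η`.
Case `wt (nbin Y_w y) ≥ 1/4`: `v ∈ sA (s_w)`, `v ~ y`, `mm (s_wv) < θ`: weight `≥ 1/4 - 2θ - 1/20`, and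
`y ∈ sA (s_wv)`.  If `mm (s_wvy) < θ`: `1 - σ ≤ wt (nnin M v) + wt (nnin Y_u w)`, so `wt (nnin M v) ≥ .9`;
weight of such `v`: `≤ √η` (not adjacent to `u`) `+ 2η`.  So `hw3 ≥ 1/8`.
Case `< 1/4`: `v ∈ sA (s_w)`, `v ≁ y`, `mm (s_wv) < θ`, `v ~ u`, `wt (nnin M v) ≤ √η`: weight `≥ 1 - σ -
2θ - 1/4 - 1/20 - 2√η`.  Then `wt (nbin (sA (s_wv)) y) ≥ wt (M ∩ N_v \ N_w \ N_a) ≥ 1 - σ - 2√η - 2θ`.
For `v'` in it with `mm (s_wvv') < θ`: `y ∈ sA (s_wvv')` and if `mm (s_wvv'y) < θ` then `1 - σ ≤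
wt (nnin M v) + wt (nnin Y_u w) ≤ 2√η + 2σ`, false.  So `hw4 ≥ .67 · .97 - 1/20 ≥ 1/8`.
-/

set_option autoImplicit false

open Finset
open scoped Classical

namespace Pool.Agent.Icy

variable {V : Type} {G : SimpleGraph V} {x : V → ℝ}

private theorem cm_nonneg (hx : ∀ v, 0 ≤ x v) (A : Finset V) : 0 ≤ wt x A :=
  sum_nonneg (fun i _ => hx i)

private theorem cm_mono (hx : ∀ v, 0 ≤ x v) {A B : Finset V} (h : A ⊆ B) : wt x A ≤ wt x B :=
  sum_le_sum_of_subset_of_nonneg h (fun i _ _ => hx i)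

private theorem cm_union (hx : ∀ v, 0 ≤ x v) (A B : Finset V) :
    wt x (A ∪ B) ≤ wt x A + wt x B := by
  have h := sum_union_inter (s₁ := A) (s₂ := B) (f := x)
  have h2 := cm_nonneg hx (A ∩ B)
  unfold wt at *
  linarith

private theorem cm_add_le (hx : ∀ v, 0 ≤ x v) {A B C : Finset V} (hd : Disjoint A B)
    (hA : A ⊆ C) (hB : B ⊆ C) : wt x A + wt x B ≤ wt x C := by
  have : wt x A + wt x B = wt x (A ∪ B) := by
    unfold wt
    rw [sum_union hd]
  rw [this]
  exact cm_mono hx (union_subset hA hB)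

private theorem cm_markov (hx : ∀ v, 0 ≤ x v) (S : Finset V) (f : V → ℝ)
    (hf : ∀ v, 0 ≤ f v) {η c : ℝ} (h : ∑ v ∈ S, x v * f v ≤ η) :
    wt x (S.filter (fun v => c ≤ f v)) * c ≤ η := by
  refine le_trans ?_ h
  unfold wt
  rw [sum_mul]
  refine le_trans (sum_le_sum (fun v hv => mul_le_mul_of_nonneg_left (mem_filter.1 hv).2 (hx v))) ?_
  exact sum_le_sum_of_subset_of_nonneg (filter_subset _ _) (fun i _ _ => mul_nonneg (hx i) (hf i))

private theorem cm_exch (A B : Finset V) :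
    ∑ y ∈ A, x y * wt x (nnin G B y) = ∑ z ∈ B, x z * wt x (nnin G A z) := by
  unfold wt nnin
  simp only [mul_sum, sum_filter]
  rw [sum_comm]
  refine sum_congr rfl (fun u _ => sum_congr rfl (fun u' _ => ?_))
  by_cases h : G.Adj u' u
  · rw [if_neg (not_not.2 h), if_neg (not_not.2 h.symm)]; simp
  · rw [if_pos h, if_pos (fun h' => h h'.symm), mul_comm]

theorem caseMis (hB : Base G x) {θ₂ θ η : ℝ} (h0 : 0 < θ) (h1 : θ ≤ 1 / 10 ^ 8)
    (hη0 : 0 < η) (hη : η ≤ 1 / 10 ^ 4) (h8 : T8P G x θ₂ θ η) {r : ℕ} (hr : 6 ≤ r) {s : St V}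
    (hm : mm G x r s < θ) {w y : V} (hw : w ∈ sA G s) (hmw : mm G x (r - 1) (step G s w) < θ)
    (hy : y ∈ up G s) (hya : ¬ G.Adj s.a y) (hmiss : wt x (nnin G (sA G s) y) ≤ 1 / 10)
    (hwy : ¬ G.Adj w y)
    (hU : 1 / 2 ≤ wt x ((sA G s).filter (fun u => G.Adj y u ∧ mm G x (r - 1) (step G s u) < θ ∧
      mm G x (r - 2) (step G (step G s u) y) < θ)))
    (hz0 : Hz G x θ 0 (r - 1) (step G s w) ≤ 1 / 20)
    (hz1 : Hz G x θ 1 (r - 1) (step G s w) ≤ 1 / 20) :
    1 / 8 ≤ hw3 G x θ r s w y + hw4 G x θ r s w y := by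
  obtain ⟨q, rfl⟩ : ∃ q, r = q + 6 := ⟨r - 6, by omega⟩
  have e1 : q + 6 - 1 = q + 5 := rfl
  have e2 : q + 6 - 2 = q + 4 := rfl
  have e3 : q + 6 - 3 = q + 3 := rfl
  have e4 : q + 6 - 4 = q + 2 := rfl
  rw [e1] at hmw hU hz0 hz1
  rw [e2] at hU
  have hx := hB.nonneg
  -- constants
  obtain ⟨e, he⟩ : ∃ e : ℝ, e = Real.sqrt η := ⟨_, rfl⟩
  have he0 : 0 < e := by rw [he]; exact Real.sqrt_pos.2 hη0
  have hee : e * e = η := by rw [he]; exact Real.mul_self_sqrt hη0.le
  have he1 : e ≤ 1 / 100 := by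
    rw [he]; refine Real.sqrt_le_iff.2 ⟨by norm_num, ?_⟩
    refine le_trans hη (by norm_num)
  obtain ⟨σ, hσ⟩ : ∃ σ : ℝ, σ = 4 * Real.sqrt θ := ⟨_, rfl⟩
  have hσ1 : σ ≤ 4 / 10000 := by
    have : Real.sqrt θ ≤ 1 / 10000 := by
      refine Real.sqrt_le_iff.2 ⟨by norm_num, ?_⟩
      refine le_trans h1 (by norm_num)
    rw [hσ]; linarith
  have hσ0 : 0 ≤ σ := by rw [hσ]; positivity
  have hθ : θ ≤ 1 / 16 := le_trans h1 (by norm_num)
  have hθ1 : θ ≤ 1 / 100000000 := le_trans h1 (by norm_num)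
  -- the states
  obtain ⟨sw, hsw⟩ : ∃ sw, sw = step G s w := ⟨_, rfl⟩
  rw [← hsw] at hmw hz0 hz1
  -- T8 at (s, w)
  have h8w := (h8 (q + 6) s w (by omega) hw hm (by rw [e1, ← hsw]; exact hmw)).1
  rw [cm_exch, ← hsw] at h8w
  -- choice of u
  obtain ⟨u, huU, hue⟩ : ∃ u ∈ (sA G s).filter (fun u => G.Adj y u ∧
      mm G x (q + 5) (step G s u) < θ ∧ mm G x (q + 4) (step G (step G s u) y) < θ),
      wt x (nnin G (sN G sw) u) ≤ e := by
    by_contra hcon
    push Not at hcon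
    have hsub : (sA G s).filter (fun u => G.Adj y u ∧
      mm G x (q + 5) (step G s u) < θ ∧ mm G x (q + 4) (step G (step G s u) y) < θ) ⊆
      (sA G s).filter (fun u => e ≤ wt x (nnin G (sN G sw) u)) := by
      intro u hu
      exact mem_filter.2 ⟨(mem_filter.1 hu).1, (hcon u hu).le⟩
    have h2 := cm_mono hx hsub
    have h3 := cm_markov (c := e) hx (sA G s) (fun u => wt x (nnin G (sN G sw) u))
      (fun v => cm_nonneg hx _) h8w
    have h4 : 1 / 2 * e ≤ η := le_trans (mul_le_mul_of_nonneg_right (le_trans hU h2) he0.le) h3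
    rw [← hee] at h4
    nlinarith
  rw [mem_filter] at huU
  obtain ⟨hus, hyu, hmu, hmuy⟩ := huU
  obtain ⟨su, hsu⟩ : ∃ su, su = step G s u := ⟨_, rfl⟩
  rw [← hsu] at hmu hmuy
  obtain ⟨suy, hsuy⟩ : ∃ suy, suy = step G su y := ⟨_, rfl⟩
  rw [← hsuy] at hmuy
  -- memberships
  have mN_sw : ∀ z, z ∈ sN G sw ↔ z ∈ up G s ∧ G.Adj w z := by
    intro z; rw [hsw]; exact mem_filter
  have mA_sw : ∀ z, z ∈ sA G sw ↔ z ∈ up G s ∧ G.Adj w z ∧ ¬ G.Adj s.a z := by
    intro z; rw [hsw]; exact mem_filter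
  have mB_sw : ∀ z, z ∈ sB G sw ↔ z ∈ up G s ∧ G.Adj w z ∧ G.Adj s.a z := by
    intro z; rw [hsw]; exact mem_filter
  have mup_sw : ∀ z, z ∈ up G sw ↔ z ∈ up G s ∧ ¬ G.Adj w z := by
    intro z; rw [hsw]; exact mem_filter
  have mN_su : ∀ z, z ∈ sN G su ↔ z ∈ up G s ∧ G.Adj u z := by
    intro z; rw [hsu]; exact mem_filter
  have mA_su : ∀ z, z ∈ sA G su ↔ z ∈ up G s ∧ G.Adj u z ∧ ¬ G.Adj s.a z := by
    intro z; rw [hsu]; exact mem_filter
  have mup_su : ∀ z, z ∈ up G su ↔ z ∈ up G s ∧ ¬ G.Adj u z := by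
    intro z; rw [hsu]; exact mem_filter
  have mN_suy : ∀ z, z ∈ sN G suy ↔ (z ∈ up G s ∧ ¬ G.Adj u z) ∧ G.Adj y z := by
    intro z; rw [hsuy, ← mup_su]; exact mem_filter
  have hsua : su.a = s.a := by rw [hsu]; rfl
  have hswa : sw.a = s.a := by rw [hsw]; rfl
  have mB_suy : ∀ z, z ∈ sB G suy ↔ (z ∈ up G s ∧ ¬ G.Adj u z) ∧ G.Adj y z ∧ G.Adj s.a z := by
    intro z; rw [hsuy, ← mup_su, ← hsua]; exact mem_filter
  have mnn : ∀ (S : Finset V) (y z : V), z ∈ nnin G S y ↔ z ∈ S ∧ ¬ G.Adj y z :=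
    fun S y z => mem_filter
  have mnb : ∀ (S : Finset V) (y z : V), z ∈ nbin G S y ↔ z ∈ S ∧ G.Adj y z :=
    fun S y z => mem_filter
  have hysu : y ∈ sA G su := (mA_su y).2 ⟨hy, hyu.symm, hya⟩
  -- T8 at (su, y)
  have h8u := (h8 (q + 5) su y (by omega) hysu hmu (by
    rw [← hsuy]; exact hmuy)).1
  rw [cm_exch, ← hsuy] at h8u
  -- masses
  have f1 := mass_A hx hθ (r := q + 5) (by omega) hmw
  have f2 := mass_N hx hθ (r := q + 5) (by omega) hmw
  have f3 := mass_N hx hθ (r := q + 5) (by omega) hmu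
  have f4 := mass_N hx hθ (r := q + 4) (by omega) hmuy
  have f5 := mass_B hx hθ (r := q + 4) (by omega) hmuy
  have f6 := mass_B hx hθ (r := q + 5) (by omega) hmw
  rw [← hσ, abs_le] at f1 f2 f3 f4
  have f7 : wt x (nnin G (sN G su) w) ≤ 2 * σ + e := by
    have g1 : wt x (sN G sw) ≤ wt x (nnin G (sN G sw) u) + wt x (nbin G (sN G sw) u) := by
      refine le_trans (cm_mono hx ?_) (cm_union hx _ _)
      intro z hz
      rw [mem_union, mnn, mnb]
      by_cases h : G.Adj u z
      · right; exact ⟨hz, h⟩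
      · left; exact ⟨hz, h⟩
    have g2 : wt x (nbin G (sN G sw) u) + wt x (nnin G (sN G su) w) ≤ wt x (sN G su) := by
      refine cm_add_le hx ?_ ?_ ?_
      · rw [disjoint_left]
        intro z hz hz'
        rw [mnb, mN_sw] at hz
        rw [mnn] at hz'
        exact hz'.2 hz.1.2
      · intro z hz
        rw [mnb, mN_sw] at hz
        rw [mN_su]
        exact ⟨hz.1.1, hz.2⟩
      · intro z hz
        rw [mnn] at hz
        exact hz.1
    linarith [f2.1, f3.2]
  -- killed v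
  obtain ⟨K, hK⟩ : ∃ K : Finset V, K = (sA G sw).filter
    (fun v => ¬ mm G x (q + 4) (step G sw v) < θ) := ⟨_, rfl⟩
  have hKw : wt x K ≤ 1 / 20 := by
    refine le_trans (le_of_eq ?_) hz0
    unfold Hz wt
    rw [if_neg (by omega), hK, sum_filter]
    refine sum_congr rfl (fun z _ => ?_)
    have e5 : q + 5 - 1 = q + 4 := rfl
    rw [e5]
    by_cases h : mm G x (q + 4) (step G sw z) < θ
    · rw [if_pos h, if_neg (not_not.2 h)]; simp
    · rw [if_neg h, if_pos h]; simp
  by_cases hcase : 1 / 4 ≤ wt x (nbin G (sN G sw) y)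
  · -- case 1
    have h4nn : 0 ≤ hw4 G x θ (q + 6) s w y := by
      unfold hw4
      refine sum_nonneg (fun v _ => mul_nonneg (hx v) ?_)
      split_ifs
      · refine sum_nonneg (fun v' _ => mul_nonneg (hx v') ?_)
        split_ifs <;> norm_num
      · exact le_refl _
    obtain ⟨A1, hA1⟩ : ∃ A1 : Finset V, A1 = (sA G sw).filter (fun v =>
      mm G x (q + 4) (step G sw v) < θ ∧ y ∈ sA G (step G sw v) ∧
      ¬ mm G x (q + 3) (step G (step G sw v) y) < θ) := ⟨_, rfl⟩
    have hA1w : hw3 G x θ (q + 6) s w y = wt x A1 := by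
      unfold hw3 wt
      rw [hA1, sum_filter, ← hsw]
      refine sum_congr rfl (fun z _ => ?_)
      rw [e2, e3]
      split_ifs <;> simp
    have hcov : nbin G (sN G sw) y ⊆ ((A1 ∪ sB G sw) ∪ (K ∪ nnin G (sN G sw) u)) ∪
        (sA G su).filter (fun v => 9 / 10 ≤ wt x (nnin G (sN G suy) v)) := by
      intro v hv
      rw [mnb, mN_sw] at hv
      obtain ⟨⟨hvup, hwv⟩, hyv⟩ := hv
      rw [mem_union, mem_union, mem_union, mem_union]
      by_cases ha : G.Adj s.a v
      · left; left; right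
        exact (mB_sw v).2 ⟨hvup, hwv, ha⟩
      have hvA : v ∈ sA G sw := (mA_sw v).2 ⟨hvup, hwv, ha⟩
      by_cases hmv : mm G x (q + 4) (step G sw v) < θ
      swap
      · left; right; left
        rw [hK]; exact mem_filter.2 ⟨hvA, hmv⟩
      by_cases huv : G.Adj u v
      swap
      · left; right; right
        rw [mnn, mN_sw]; exact ⟨⟨hvup, hwv⟩, huv⟩
      have hyA : y ∈ sA G (step G sw v) := by
        refine mem_filter.2 ⟨(mup_sw y).2 ⟨hy, hwy⟩, hyv.symm, ?_⟩
        show ¬ G.Adj sw.a y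
        rw [hswa]; exact hya
      by_cases hmy : mm G x (q + 3) (step G (step G sw v) y) < θ
      swap
      · left; left; left
        rw [hA1]; exact mem_filter.2 ⟨hvA, hmv, hyA, hmy⟩
      right
      refine mem_filter.2 ⟨(mA_su v).2 ⟨hvup, huv, ha⟩, ?_⟩
      have g1 := mass_N hx hθ (r := q + 3) (by omega) hmy
      rw [← hσ, abs_le] at g1
      have g2 : wt x (sN G (step G (step G sw v) y)) ≤
          wt x (nnin G (sN G suy) v) + wt x (nnin G (sN G su) w) := by
        refine le_trans (cm_mono hx ?_) (cm_union hx _ _)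
        intro z hz
        have hz2 := mem_filter.1 hz
        have hz3 : z ∈ up G (step G sw v) := hz2.1
        have hyz : G.Adj y z := hz2.2
        have hz4 := mem_filter.1 hz3
        have hz5 : z ∈ up G sw := hz4.1
        have hvz : ¬ G.Adj v z := hz4.2
        rw [mup_sw] at hz5
        rw [mem_union, mnn, mnn, mN_suy, mN_su]
        by_cases huz : G.Adj u z
        · right; exact ⟨⟨hz5.1, huz⟩, hz5.2⟩
        · left; exact ⟨⟨⟨hz5.1, huz⟩, hyz⟩, hvz⟩
      linarith [g1.1]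
    have g3 := cm_mono hx hcov
    have g4 := cm_markov (c := 9 / 10) hx (sA G su) (fun v => wt x (nnin G (sN G suy) v))
      (fun v => cm_nonneg hx _) h8u
    have g5 := cm_union hx ((A1 ∪ sB G sw) ∪ (K ∪ nnin G (sN G sw) u))
      ((sA G su).filter (fun v => 9 / 10 ≤ wt x (nnin G (sN G suy) v)))
    have g6 := cm_union hx (A1 ∪ sB G sw) (K ∪ nnin G (sN G sw) u)
    have g7 := cm_union hx A1 (sB G sw)
    have g8 := cm_union hx K (nnin G (sN G sw) u)
    rw [hA1w]
    have hη1 : η ≤ 1 / 10000 := le_trans hη (by norm_num)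
    linarith
  · -- case 2
    push Not at hcase
    have h3nn : 0 ≤ hw3 G x θ (q + 6) s w y := by
      unfold hw3
      refine sum_nonneg (fun v _ => mul_nonneg (hx v) ?_)
      split_ifs <;> norm_num
    obtain ⟨V2, hV2⟩ : ∃ V2 : Finset V, V2 = (sA G sw).filter (fun v =>
      ¬ G.Adj y v ∧ mm G x (q + 4) (step G sw v) < θ ∧ G.Adj u v ∧
        wt x (nnin G (sN G suy) v) < e) := ⟨_, rfl⟩
    have hcov : sA G sw ⊆ ((V2 ∪ nbin G (sN G sw) y) ∪ (K ∪ nnin G (sN G sw) u)) ∪
        (sA G su).filter (fun v => e ≤ wt x (nnin G (sN G suy) v)) := by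
      intro v hv
      have hv' := (mA_sw v).1 hv
      rw [mem_union, mem_union, mem_union, mem_union]
      by_cases hyv : G.Adj y v
      · left; left; right
        rw [mnb, mN_sw]; exact ⟨⟨hv'.1, hv'.2.1⟩, hyv⟩
      by_cases hmv : mm G x (q + 4) (step G sw v) < θ
      swap
      · left; right; left
        rw [hK]; exact mem_filter.2 ⟨hv, hmv⟩
      by_cases huv : G.Adj u v
      swap
      · left; right; right
        rw [mnn, mN_sw]; exact ⟨⟨hv'.1, hv'.2.1⟩, huv⟩
      by_cases hle : e ≤ wt x (nnin G (sN G suy) v)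
      · right
        exact mem_filter.2 ⟨(mA_su v).2 ⟨hv'.1, huv, hv'.2.2⟩, hle⟩
      · left; left; left
        rw [hV2]; exact mem_filter.2 ⟨hv, hyv, hmv, huv, not_le.1 hle⟩
    have g3 := cm_mono hx hcov
    have g4 := cm_markov (c := e) hx (sA G su) (fun v => wt x (nnin G (sN G suy) v))
      (fun v => cm_nonneg hx _) h8u
    have g4' : wt x ((sA G su).filter (fun v => e ≤ wt x (nnin G (sN G suy) v))) ≤ e := by
      rw [← hee] at g4
      exact le_of_mul_le_mul_right g4 he0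
    have g5 := cm_union hx ((V2 ∪ nbin G (sN G sw) y) ∪ (K ∪ nnin G (sN G sw) u))
      ((sA G su).filter (fun v => e ≤ wt x (nnin G (sN G suy) v)))
    have g6 := cm_union hx (V2 ∪ nbin G (sN G sw) y) (K ∪ nnin G (sN G sw) u)
    have g7 := cm_union hx V2 (nbin G (sN G sw) y)
    have g8 := cm_union hx K (nnin G (sN G sw) u)
    have hV2w : 67 / 100 ≤ wt x V2 := by linarith [f1.1]
    -- inner sums
    obtain ⟨Bv, hBv⟩ : ∃ Bv : V → Finset V, Bv = fun v => (sA G (step G sw v)).filter (fun v' =>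
      mm G x (q + 3) (step G (step G sw v) v') < θ ∧ y ∈ sA G (step G (step G sw v) v') ∧
        ¬ mm G x (q + 2) (step G (step G (step G sw v) v') y) < θ) := ⟨_, rfl⟩
    obtain ⟨Kv, hKv⟩ : ∃ Kv : V → Finset V, Kv = fun v => (sA G (step G sw v)).filter (fun v' =>
      ¬ mm G x (q + 3) (step G (step G sw v) v') < θ) := ⟨_, rfl⟩
    have h4eq : hw4 G x θ (q + 6) s w y = ∑ v ∈ sA G sw, x v *
        (if mm G x (q + 4) (step G sw v) < θ then wt x (Bv v) else 0) := by
      unfold hw4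
      rw [← hsw]
      refine sum_congr rfl (fun v _ => ?_)
      rw [e2]
      congr 1
      by_cases h : mm G x (q + 4) (step G sw v) < θ
      · rw [if_pos h, if_pos h, hBv]
        unfold wt
        simp only []
        rw [sum_filter]
        refine sum_congr rfl (fun v' _ => ?_)
        rw [e3, e4]
        split_ifs <;> simp
      · rw [if_neg h, if_neg h]
    have hzeq : Hz G x θ 1 (q + 5) sw = ∑ v ∈ sA G sw, x v *
        (if mm G x (q + 4) (step G sw v) < θ then wt x (Kv v) else 0) := by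
      show (if q + 5 ≤ 1 then 0 else ∑ z ∈ sA G sw, x z * (if mm G x (q + 5 - 1) (step G sw z) < θ
        then Hz G x θ 0 (q + 5 - 1) (step G sw z) else 0)) = _
      rw [if_neg (by omega)]
      refine sum_congr rfl (fun v _ => ?_)
      have e5 : q + 5 - 1 = q + 4 := rfl
      rw [e5]
      congr 1
      by_cases h : mm G x (q + 4) (step G sw v) < θ
      · rw [if_pos h, if_pos h, hKv]
        show (if q + 4 ≤ 1 then 0 else ∑ z ∈ sA G (step G sw v), x z *
          (if mm G x (q + 4 - 1) (step G (step G sw v) z) < θ then 0 else 1)) = _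
        rw [if_neg (by omega)]
        unfold wt
        simp only []
        rw [sum_filter]
        refine sum_congr rfl (fun v' _ => ?_)
        have e6 : q + 4 - 1 = q + 3 := rfl
        rw [e6]
        split_ifs <;> simp
      · rw [if_neg h, if_neg h]
    have hinner : ∀ v ∈ V2, 1 - σ - 2 * e - 2 * θ - wt x (Kv v) ≤ wt x (Bv v) := by
      intro v hv
      rw [hV2] at hv
      obtain ⟨hvA, hyv, hmv, huv, hMv⟩ := mem_filter.1 hv
      have hcov2 : sN G suy ⊆ ((Bv v ∪ Kv v) ∪ (nnin G (sN G suy) v ∪ nnin G (sN G sw) u)) ∪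
          sB G suy := by
        intro z hz
        have hz' := (mN_suy z).1 hz
        obtain ⟨⟨hzup, huz⟩, hyz⟩ := hz'
        rw [mem_union, mem_union, mem_union, mem_union]
        by_cases hvz : G.Adj v z
        swap
        · left; right; left
          rw [mnn]; exact ⟨hz, hvz⟩
        by_cases hwz : G.Adj w z
        · left; right; right
          rw [mnn, mN_sw]; exact ⟨⟨hzup, hwz⟩, huz⟩
        by_cases haz : G.Adj s.a z
        · right
          exact (mB_suy z).2 ⟨⟨hzup, huz⟩, hyz, haz⟩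
        have hzA : z ∈ sA G (step G sw v) := by
          refine mem_filter.2 ⟨(mup_sw z).2 ⟨hzup, hwz⟩, hvz, ?_⟩
          show ¬ G.Adj sw.a z
          rw [hswa]; exact haz
        by_cases hmz : mm G x (q + 3) (step G (step G sw v) z) < θ
        swap
        · left; left; right
          rw [hKv]; exact mem_filter.2 ⟨hzA, hmz⟩
        left; left; left
        rw [hBv]
        refine mem_filter.2 ⟨hzA, hmz, ?_, ?_⟩
        · refine mem_filter.2 ⟨mem_filter.2 ⟨(mup_sw y).2 ⟨hy, hwy⟩, fun h => hyv h.symm⟩,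
            hyz.symm, ?_⟩
          show ¬ G.Adj sw.a y
          rw [hswa]; exact hya
        · intro hmy
          have g1 := mass_N hx hθ (r := q + 2) (by omega) hmy
          rw [← hσ, abs_le] at g1
          have g2 : wt x (sN G (step G (step G (step G sw v) z) y)) ≤
              wt x (nnin G (sN G suy) v) + wt x (nnin G (sN G su) w) := by
            refine le_trans (cm_mono hx ?_) (cm_union hx _ _)
            intro z' hz'
            have k2 := mem_filter.1 hz'
            have k3 : z' ∈ up G (step G (step G sw v) z) := k2.1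
            have hyz' : G.Adj y z' := k2.2
            have k4 := mem_filter.1 k3
            have k5 : z' ∈ up G (step G sw v) := k4.1
            have k6 := mem_filter.1 k5
            have k7 : z' ∈ up G sw := k6.1
            have hvz' : ¬ G.Adj v z' := k6.2
            rw [mup_sw] at k7
            rw [mem_union, mnn, mnn, mN_suy, mN_su]
            by_cases huz' : G.Adj u z'
            · right; exact ⟨⟨k7.1, huz'⟩, k7.2⟩
            · left; exact ⟨⟨⟨k7.1, huz'⟩, hyz'⟩, hvz'⟩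
          linarith [g1.1]
      have k3 := cm_mono hx hcov2
      have k5 := cm_union hx ((Bv v ∪ Kv v) ∪ (nnin G (sN G suy) v ∪ nnin G (sN G sw) u))
        (sB G suy)
      have k6 := cm_union hx (Bv v ∪ Kv v) (nnin G (sN G suy) v ∪ nnin G (sN G sw) u)
      have k7 := cm_union hx (Bv v) (Kv v)
      have k8 := cm_union hx (nnin G (sN G suy) v) (nnin G (sN G sw) u)
      linarith [f4.1]
    have hV2sub : V2 ⊆ sA G sw := by rw [hV2]; exact filter_subset _ _
    have hV2m : ∀ v ∈ V2, mm G x (q + 4) (step G sw v) < θ := by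
      intro v hv
      rw [hV2] at hv
      exact (mem_filter.1 hv).2.2.1
    have hlow : ∑ v ∈ V2, x v * wt x (Bv v) ≤ hw4 G x θ (q + 6) s w y := by
      rw [h4eq]
      refine le_trans (le_of_eq ?_) (sum_le_sum_of_subset_of_nonneg hV2sub ?_)
      · refine sum_congr rfl (fun v hv => ?_)
        rw [if_pos (hV2m v hv)]
      · intro v _ _
        refine mul_nonneg (hx v) ?_
        split_ifs
        · exact cm_nonneg hx _
        · exact le_refl _
    have hupK : ∑ v ∈ V2, x v * wt x (Kv v) ≤ 1 / 20 := by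
      refine le_trans ?_ hz1
      rw [hzeq]
      refine le_trans (le_of_eq ?_) (sum_le_sum_of_subset_of_nonneg hV2sub ?_)
      · refine sum_congr rfl (fun v hv => ?_)
        rw [if_pos (hV2m v hv)]
      · intro v _ _
        refine mul_nonneg (hx v) ?_
        split_ifs
        · exact cm_nonneg hx _
        · exact le_refl _
    have hkey : wt x V2 * (1 - σ - 2 * e - 2 * θ) - ∑ v ∈ V2, x v * wt x (Kv v) ≤
        ∑ v ∈ V2, x v * wt x (Bv v) := by
      have : ∑ v ∈ V2, x v * (1 - σ - 2 * e - 2 * θ - wt x (Kv v)) ≤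
          ∑ v ∈ V2, x v * wt x (Bv v) :=
        sum_le_sum (fun v hv => mul_le_mul_of_nonneg_left (hinner v hv) (hx v))
      refine le_trans (le_of_eq ?_) this
      unfold wt
      rw [sum_mul, ← sum_sub_distrib]
      refine sum_congr rfl (fun v _ => by ring)
    have hc : 97 / 100 ≤ 1 - σ - 2 * e - 2 * θ := by linarith
    have hfin : 67 / 100 * (97 / 100) ≤ wt x V2 * (1 - σ - 2 * e - 2 * θ) :=
      mul_le_mul hV2w hc (by norm_num) (by linarith)
    linarith

end Pool.Agent.Icy
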