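import Pool.Agent.Icy.T8a

/-!
# Sum of the suspicious pairs

For `y` put `V_r y s = wt (nbin (sA s) y) [κ ≤ chi θ₂ y (r-2) s] + Σ_{z ≁ y} lk θ r s z V_{r-1} y (s_z)`
(`r ≥ 2`).  Then `SS θ f r s = Σ_{y ∈ nnin (up s) a} x_y V_r y s` (induction, exchange of sums).
`V_r y s ≤ wt (nbin s.U y) ≤ 6` (induction), and `V_r y s ≤ (6/κ) chi θ₂ y (r-2) s`: if `chi ≥ κ` clear;
else `V_r y s = Σ_{z≁y} lk θ V_{r-1} ≤ (6/κ) Σ_{z≁y} lk θ₂ chi (s_z) ≤ (6/κ) chi` (`r ≥ 3`, `lk_mono`; `r =
2`: `chi = 1`).  Then `t8_x`.
`bsum`: `Σ_w x_w wt (sB (s_w)) ≤ 3 Σ_w lk θ wt (sB (s_w)) + 6 Hz 0`, `wt sB ≤ 2 l1` for defect `< θ`, `ss_l1`,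
`ss_hz`.
-/

set_option autoImplicit false

open Finset
open scoped Classical

namespace Pool.Agent.Icy

variable {V : Type} {G : SimpleGraph V} {x : V → ℝ}

private noncomputable def ChiSum_V (G : SimpleGraph V) (x : V → ℝ) (θ₂ θ κ : ℝ) (y : V) :
    ℕ → St V → ℝ
  | 0, _ => 0
  | 1, _ => 0
  | (r + 2), s => wt x (nbin G (sA G s) y) * (if κ ≤ chi G x θ₂ y r s then 1 else 0) +
      ∑ z ∈ sA G s, (if G.Adj y z then 0 else
        lk G x θ (r + 2) s z * ChiSum_V G x θ₂ θ κ y (r + 1) (step G s z))

private theorem ChiSum_wt_nonneg (hx : ∀ v, 0 ≤ x v) (S : Finset V) : 0 ≤ wt x S :=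
  Finset.sum_nonneg (fun v _ => hx v)

private theorem ChiSum_wt_mono (hx : ∀ v, 0 ≤ x v) {S T : Finset V} (h : S ⊆ T) :
    wt x S ≤ wt x T :=
  Finset.sum_le_sum_of_subset_of_nonneg h (fun v _ _ => hx v)

private theorem ChiSum_eq (θ₂ θ κ : ℝ) (r : ℕ) : ∀ s : St V,
    SS G x θ (fun r s => ∑ y ∈ nnin G (up G s) s.a, x y * (wt x (nbin G (sA G s) y) *
      (if κ ≤ chi G x θ₂ y (r - 2) s then 1 else 0))) r s =
    ∑ y ∈ nnin G (up G s) s.a, x y * ChiSum_V G x θ₂ θ κ y r s := by
  induction r using Nat.strong_induction_on with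
  | _ r ih =>
    intro s
    match r, ih with
    | 0, _ => simp [SS, ChiSum_V]
    | 1, _ => simp [SS, ChiSum_V]
    | (r + 2), ih =>
      simp only [SS, ChiSum_V]
      have h1 : ∀ z ∈ sA G s, lk G x θ (r + 2) s z *
          SS G x θ (fun r s => ∑ y ∈ nnin G (up G s) s.a, x y * (wt x (nbin G (sA G s) y) *
            (if κ ≤ chi G x θ₂ y (r - 2) s then 1 else 0))) (r + 1) (step G s z) =
          ∑ y ∈ nnin G (up G s) s.a, x y * (if G.Adj y z then 0 else
            lk G x θ (r + 2) s z * ChiSum_V G x θ₂ θ κ y (r + 1) (step G s z)) := by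
        intro z hz
        rw [ih (r + 1) (by omega) (step G s z)]
        have h2 : nnin G (up G (step G s z)) (step G s z).a =
            (nnin G (up G s) s.a).filter (fun y => ¬ G.Adj y z) := by
          ext u
          have e1 : (step G s z).U = up G s := rfl
          have e2 : (step G s z).a = s.a := rfl
          have e3 : (step G s z).b = z := rfl
          unfold nnin
          rw [Finset.mem_filter, Finset.mem_filter, Finset.mem_filter, up, Finset.mem_filter,
            e1, e2, e3, G.adj_comm z u]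
          tauto
        rw [h2, Finset.sum_filter, Finset.mul_sum]
        apply Finset.sum_congr rfl
        intro y hy
        by_cases hyz : G.Adj y z
        · simp [hyz]
        · simp only [hyz, not_false_eq_true, if_true, if_false]
          ring
      rw [Finset.sum_congr rfl h1, Finset.sum_comm, ← Finset.sum_add_distrib]
      apply Finset.sum_congr rfl
      intro y hy
      rw [← Finset.mul_sum, ← mul_add]
      simp only [Nat.add_sub_cancel]

private theorem ChiSum_nonneg (hx : ∀ v, 0 ≤ x v) (θ₂ θ κ : ℝ) (y : V) (r : ℕ) : ∀ s : St V,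
    0 ≤ ChiSum_V G x θ₂ θ κ y r s := by
  induction r using Nat.strong_induction_on with
  | _ r ih =>
    intro s
    match r, ih with
    | 0, _ => simp [ChiSum_V]
    | 1, _ => simp [ChiSum_V]
    | (r + 2), ih =>
      simp only [ChiSum_V]
      apply add_nonneg
      · apply mul_nonneg (ChiSum_wt_nonneg hx _)
        split_ifs <;> norm_num
      · apply Finset.sum_nonneg
        intro z _
        split_ifs
        · exact le_refl _
        · exact mul_nonneg (lk_nonneg hx _ _ _ _) (ih (r + 1) (by omega) _)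

private theorem ChiSum_le_wt (hx : ∀ v, 0 ≤ x v) (θ₂ θ κ : ℝ) (y : V) (r : ℕ) : ∀ s : St V,
    ChiSum_V G x θ₂ θ κ y r s ≤ wt x (nbin G s.U y) := by
  induction r using Nat.strong_induction_on with
  | _ r ih =>
    intro s
    match r, ih with
    | 0, _ => simp only [ChiSum_V]; exact ChiSum_wt_nonneg hx _
    | 1, _ => simp only [ChiSum_V]; exact ChiSum_wt_nonneg hx _
    | (r + 2), ih =>
      simp only [ChiSum_V]
      have h1 : wt x (nbin G (sA G s) y) * (if κ ≤ chi G x θ₂ y r s then (1 : ℝ) else 0) ≤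
          wt x (nbin G (sA G s) y) := by
        have := ChiSum_wt_nonneg hx (nbin G (sA G s) y)
        split_ifs
        · simp
        · simpa using this
      have h2 : ∑ z ∈ sA G s, (if G.Adj y z then 0 else
          lk G x θ (r + 2) s z * ChiSum_V G x θ₂ θ κ y (r + 1) (step G s z)) ≤
          wt x (nbin G (up G s) y) := by
        calc ∑ z ∈ sA G s, (if G.Adj y z then 0 else
              lk G x θ (r + 2) s z * ChiSum_V G x θ₂ θ κ y (r + 1) (step G s z))
            ≤ ∑ z ∈ sA G s, lk G x θ (r + 2) s z * wt x (nbin G (up G s) y) := by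
              apply Finset.sum_le_sum
              intro z _
              have h3 := lk_nonneg (G := G) hx θ (r + 2) s z
              have h4 : ChiSum_V G x θ₂ θ κ y (r + 1) (step G s z) ≤ wt x (nbin G (up G s) y) :=
                ih (r + 1) (by omega) (step G s z)
              split_ifs
              · exact mul_nonneg h3 (ChiSum_wt_nonneg hx _)
              · exact mul_le_mul_of_nonneg_left h4 h3
          _ = (∑ z ∈ sA G s, lk G x θ (r + 2) s z) * wt x (nbin G (up G s) y) := by
              rw [Finset.sum_mul]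
          _ ≤ 1 * wt x (nbin G (up G s) y) :=
              mul_le_mul_of_nonneg_right (lk_sum_le hx θ (r + 2) s) (ChiSum_wt_nonneg hx _)
          _ = _ := one_mul _
      have h5 : wt x (nbin G (sA G s) y) + wt x (nbin G (up G s) y) ≤ wt x (nbin G s.U y) := by
        have hd : Disjoint (nbin G (sA G s) y) (nbin G (up G s) y) := by
          rw [Finset.disjoint_left]
          intro u hu hv
          simp only [nbin, sA, up, Finset.mem_filter] at hu hv
          tauto
        have : wt x (nbin G (sA G s) y) + wt x (nbin G (up G s) y) =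
            wt x (nbin G (sA G s) y ∪ nbin G (up G s) y) := by
          unfold wt
          rw [Finset.sum_union hd]
        rw [this]
        apply ChiSum_wt_mono hx
        intro u hu
        simp only [nbin, sA, up, Finset.mem_filter, Finset.mem_union] at hu ⊢
        tauto
      linarith

private theorem ChiSum_le_chi (hB : Base G x) {θ₂ θ κ : ℝ} (h1 : θ ≤ θ₂) (hκ : 0 < κ)
    (y : V) (n : ℕ) : ∀ s : St V,
    ChiSum_V G x θ₂ θ κ y (n + 2) s ≤ 6 / κ * chi G x θ₂ y n s := by
  have hx := hB.nonneg
  induction n with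
  | zero =>
    intro s
    by_cases hc : κ ≤ chi G x θ₂ y 0 s
    · calc ChiSum_V G x θ₂ θ κ y (0 + 2) s ≤ wt x (nbin G s.U y) := ChiSum_le_wt hx _ _ _ _ _ _
        _ ≤ 6 := hB.six _ _
        _ = 6 / κ * κ := by field_simp
        _ ≤ 6 / κ * chi G x θ₂ y 0 s := mul_le_mul_of_nonneg_left hc (by positivity)
    · simp only [ChiSum_V, if_neg hc]
      have := chi_nonneg (G := G) hx θ₂ y 0 s
      simp only [mul_zero, ite_self, Finset.sum_const_zero, add_zero]
      positivity
  | succ n ih =>
    intro s
    by_cases hc : κ ≤ chi G x θ₂ y (n + 1) s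
    · calc ChiSum_V G x θ₂ θ κ y (n + 1 + 2) s ≤ wt x (nbin G s.U y) :=
            ChiSum_le_wt hx _ _ _ _ _ _
        _ ≤ 6 := hB.six _ _
        _ = 6 / κ * κ := by field_simp
        _ ≤ 6 / κ * chi G x θ₂ y (n + 1) s := mul_le_mul_of_nonneg_left hc (by positivity)
    · have h2 : ChiSum_V G x θ₂ θ κ y (n + 1 + 2) s = ∑ z ∈ sA G s, (if G.Adj y z then 0 else
          lk G x θ (n + 1 + 2) s z * ChiSum_V G x θ₂ θ κ y (n + 1 + 1) (step G s z)) := by
        rw [ChiSum_V, if_neg hc, mul_zero, zero_add]
      rw [h2, chi, Finset.mul_sum]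
      apply Finset.sum_le_sum
      intro z _
      have h3 := lk_nonneg (G := G) hx θ (n + 3) s z
      have h4 := lk_nonneg (G := G) hx θ₂ (n + 3) s z
      have h5 := lk_mono (G := G) hx h1 (n + 3) s z
      have h6 := ih (step G s z)
      have h7 := ChiSum_nonneg (G := G) hx θ₂ θ κ y (n + 2) (step G s z)
      by_cases hyz : G.Adj y z
      · simp only [hyz, if_true]
        apply mul_nonneg (by positivity)
        apply mul_nonneg h4
        split_ifs <;> norm_num
      · simp only [hyz, if_false]
        calc lk G x θ (n + 1 + 2) s z * ChiSum_V G x θ₂ θ κ y (n + 1 + 1) (step G s z)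
            ≤ lk G x θ₂ (n + 3) s z * ChiSum_V G x θ₂ θ κ y (n + 2) (step G s z) :=
              mul_le_mul_of_nonneg_right h5 h7
          _ ≤ lk G x θ₂ (n + 3) s z * (6 / κ * chi G x θ₂ y n (step G s z)) :=
              mul_le_mul_of_nonneg_left h6 h4
          _ = 6 / κ * (lk G x θ₂ (n + 3) s z * chi G x θ₂ y n (step G s z)) := by ring

theorem chisum (hB : Base G x) {θ₂ θ κ : ℝ} (h0 : 0 < θ) (h1 : θ ≤ θ₂) (h2 : θ₂ ≤ 1 / 16)
    (hκ : 0 < κ) (r : ℕ) (hr : 2 ≤ r) (s : St V) (hm : mm G x r s < θ) :
    SS G x θ (fun r s => ∑ y ∈ nnin G (up G s) s.a, x y * (wt x (nbin G (sA G s) y) *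
      (if κ ≤ chi G x θ₂ y (r - 2) s then 1 else 0))) r s ≤ 24 / (κ * θ₂) * mm G x r s := by
  have hx := hB.nonneg
  obtain ⟨n, rfl⟩ : ∃ n, r = n + 2 := ⟨r - 2, by omega⟩
  rw [ChiSum_eq]
  have hθ₂ : 0 < θ₂ := lt_of_lt_of_le h0 h1
  calc ∑ y ∈ nnin G (up G s) s.a, x y * ChiSum_V G x θ₂ θ κ y (n + 2) s
      ≤ ∑ y ∈ nnin G (up G s) s.a, 6 / κ * (x y * chi G x θ₂ y n s) := by
        apply Finset.sum_le_sum
        intro y _
        have h3 := ChiSum_le_chi hB h1 hκ y n s
        calc x y * ChiSum_V G x θ₂ θ κ y (n + 2) s ≤ x y * (6 / κ * chi G x θ₂ y n s) :=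
              mul_le_mul_of_nonneg_left h3 (hx y)
          _ = _ := by ring
    _ = 6 / κ * ∑ y ∈ nnin G (up G s) s.a, x y * chi G x θ₂ y n s := by rw [Finset.mul_sum]
    _ ≤ 6 / κ * (4 / θ₂ * mm G x (n + 2) s) := by
        apply mul_le_mul_of_nonneg_left _ (by positivity)
        exact t8_x hx hθ₂ h2 n s (lt_of_lt_of_le hm h1)
    _ = 24 / (κ * θ₂) * mm G x (n + 2) s := by
        field_simp
        ring

theorem bsum (hB : Base G x) {θ : ℝ} (h0 : 0 < θ) (h2 : θ ≤ 1 / 16) (r : ℕ) (hr : 2 ≤ r)
    (s : St V) (hm : mm G x r s < θ) :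
    SS G x θ (fun r s => if 3 ≤ r then ∑ w ∈ sA G s, x w * wt x (sB G (step G s w)) else 0) r s ≤
      24 / θ * mm G x r s := by
  have hx := hB.nonneg
  have hl1mm : ∀ r : ℕ, 2 ≤ r → ∀ s : St V, l1 G x s ≤ mm G x r s := by
    intro r hr s
    have hd := drift (G := G) hx θ hr s
    have h3 : 0 ≤ ∑ z ∈ sA G s, lk G x θ r s z * mm G x (r - 1) (step G s z) :=
      Finset.sum_nonneg (fun z _ => mul_nonneg (lk_nonneg hx _ _ _ _)
        (mm_nonneg hx (by omega) _))
    have h4 : 0 ≤ θ * ex G x s * Hz G x θ 0 r s :=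
      mul_nonneg (mul_nonneg h0.le (Real.exp_pos _).le) (Hz_nonneg hx _ _ _ _)
    linarith
  have hA : (6 : ℝ) ≤ 18 / θ := by
    rw [le_div_iff₀ h0]
    linarith
  have key := ss_super (G := G) hx θ
    (fun r s => if 3 ≤ r then ∑ w ∈ sA G s, x w * wt x (sB G (step G s w)) else 0)
    (fun r s => 18 / θ * mm G x r s - (if 2 ≤ r then 6 * l1 G x s else 0))
    (by
      intro r s hr
      have h3 := mm_nonneg (G := G) hx hr s
      by_cases h4 : 2 ≤ r
      · have h5 := hl1mm r h4 s
        have h6 := l1_nonneg (G := G) hx s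
        simp only [h4, if_true]
        nlinarith
      · simp only [h4, if_false]
        have : (0 : ℝ) < 18 / θ := by positivity
        nlinarith)
    (by
      intro r s hr hm
      have hd := drift (G := G) hx θ hr s
      have hex := ex_bounds (G := G) hx h2 (by omega : 1 ≤ r) hm
      have hl := l1_nonneg (G := G) hx s
      have hH := Hz_nonneg (G := G) hx θ 0 r s
      have hApos : (0 : ℝ) < 18 / θ := by positivity
      have hd2 : ∑ z ∈ sA G s, lk G x θ r s z * mm G x (r - 1) (step G s z) ≤
          mm G x r s - l1 G x s - θ / 3 * Hz G x θ 0 r s := by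
        have : θ / 3 * Hz G x θ 0 r s ≤ θ * ex G x s * Hz G x θ 0 r s := by
          apply mul_le_mul_of_nonneg_right _ hH
          nlinarith [hex.1]
        linarith
      have hd3 : 18 / θ * ∑ z ∈ sA G s, lk G x θ r s z * mm G x (r - 1) (step G s z) ≤
          18 / θ * mm G x r s - 18 / θ * l1 G x s - 6 * Hz G x θ 0 r s := by
        have h5 := mul_le_mul_of_nonneg_left hd2 hApos.le
        have h6 : 18 / θ * (mm G x r s - l1 G x s - θ / 3 * Hz G x θ 0 r s) =
            18 / θ * mm G x r s - 18 / θ * l1 G x s - 6 * Hz G x θ 0 r s := by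
          field_simp
          ring
        linarith
      have hd4 : 6 * l1 G x s ≤ 18 / θ * l1 G x s := mul_le_mul_of_nonneg_right hA hl
      by_cases h3 : 3 ≤ r
      · have h32 : 2 ≤ r - 1 := by omega
        have h22 : 2 ≤ r := hr
        simp only [h3, if_true, h32, h22]
        have h5 : ∑ w ∈ sA G s, x w * wt x (sB G (step G s w)) ≤
            ∑ w ∈ sA G s, lk G x θ r s w * (6 * l1 G x (step G s w)) +
              6 * Hz G x θ 0 r s := by
          obtain ⟨m, rfl⟩ : ∃ m, r = m + 2 := ⟨r - 2, by omega⟩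
          have hHz : Hz G x θ 0 (m + 2) s = ∑ z ∈ sA G s, x z *
              (if mm G x (m + 2 - 1) (step G s z) < θ then 0 else 1) := by
            rw [Hz, if_neg (by omega)]
          rw [hHz, Finset.mul_sum, ← Finset.sum_add_distrib]
          apply Finset.sum_le_sum
          intro w _
          have hxw := hx w
          have hlw := l1_nonneg (G := G) hx (step G s w)
          by_cases hmw : mm G x (m + 2 - 1) (step G s w) < θ
          · have h6 : lk G x θ (m + 2) s w = x w * ex G x s := by
              rw [lk, if_pos hmw, mul_one]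
            rw [h6, if_pos hmw]
            have h7 := mass_B (G := G) hx h2 (by omega : 2 ≤ m + 2 - 1) hmw
            have h8 := b_le_l1 (G := G) hx (s := step G s w) (by linarith)
            have h9 := hex.1
            calc x w * wt x (sB G (step G s w)) ≤ x w * (2 * l1 G x (step G s w)) :=
                  mul_le_mul_of_nonneg_left h8 hxw
              _ = x w * (1 / 3) * (6 * l1 G x (step G s w)) := by ring
              _ ≤ x w * ex G x s * (6 * l1 G x (step G s w)) := by
                  apply mul_le_mul_of_nonneg_right _ (by positivity)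
                  exact mul_le_mul_of_nonneg_left h9 hxw
              _ = _ := by ring
          · rw [if_neg hmw]
            have h7 : wt x (sB G (step G s w)) ≤ 6 := by
              calc wt x (sB G (step G s w)) ≤ wt x (nbin G (step G s w).U (step G s w).b) := by
                    apply ChiSum_wt_mono hx
                    intro u hu
                    simp only [sB, nbin, Finset.mem_filter] at hu ⊢
                    tauto
                _ ≤ 6 := hB.six _ _
            have h8 := lk_nonneg (G := G) hx θ (m + 2) s w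
            have h9 : 0 ≤ lk G x θ (m + 2) s w * (6 * l1 G x (step G s w)) := by positivity
            have h10 : x w * wt x (sB G (step G s w)) ≤ x w * 6 :=
              mul_le_mul_of_nonneg_left h7 hxw
            linarith
        have h6 : ∑ z ∈ sA G s, lk G x θ r s z *
            (18 / θ * mm G x (r - 1) (step G s z) - 6 * l1 G x (step G s z)) =
            18 / θ * ∑ z ∈ sA G s, lk G x θ r s z * mm G x (r - 1) (step G s z) -
            ∑ w ∈ sA G s, lk G x θ r s w * (6 * l1 G x (step G s w)) := by
          rw [Finset.mul_sum, ← Finset.sum_sub_distrib]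
          apply Finset.sum_congr rfl
          intro z _
          ring
        rw [h6]
        linarith
      · have hr2 : r = 2 := by omega
        subst hr2
        have n3 : ¬ (3 ≤ 2) := by norm_num
        have n2 : ¬ (2 ≤ 2 - 1) := by norm_num
        simp only [n3, if_false, n2, le_refl, if_true, sub_zero, zero_add]
        have h6 : ∑ z ∈ sA G s, lk G x θ 2 s z *
            (18 / θ * mm G x (2 - 1) (step G s z)) =
            18 / θ * ∑ z ∈ sA G s, lk G x θ 2 s z * mm G x (2 - 1) (step G s z) := by
          rw [Finset.mul_sum]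
          apply Finset.sum_congr rfl
          intro z _
          ring
        rw [h6]
        linarith)
    r (by omega) s hm
  have h3 := mm_nonneg (G := G) hx (by omega : 1 ≤ r) s
  have h4 := l1_nonneg (G := G) hx s
  have h5 : 18 / θ * mm G x r s ≤ 24 / θ * mm G x r s := by
    apply mul_le_mul_of_nonneg_right _ h3
    gcongr
    norm_num
  simp only [hr, if_true] at key
  linarith

end Pool.Agent.Icy
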