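import Pool.Agent.Icy.L1

/-!
# Far tail

`Far S R`: `R` is not contained in a cyclic window of length `S`.  Let `R` be far, `p ≥ k - S + 1`.
Then no start `s` has `fh R s p`: else `s, …, s+p-2 ∉ R`, so `R` is contained in the window
`s + (p-1), …, s + (k-1)` of length `k - p + 1 ≤ S`.  And for `2 p > k` at most one `s` has `fh R s p`
(two starts `s ≠ s'` give two disjoint blocks of length `p` (the `p-1` elements not in `R` and the
element hit)).  So by `EE_sA_eq`, for `p ∈ [k-S+1, k-2]` with `2p > k`: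
`EE wt sA(st v p) ≤ (1/k) EE wt {w : ¬ Far} = 1 - q`, `q = EE (farm) / k`, and `q ≤ ee p` by
`sA_dev`.  Sum of `q² ≤ ee² ≤ 9 loss` over the `S - 2` values of `p`.
-/

set_option autoImplicit false

open Finset
open scoped Classical

namespace Pool.Agent.Icy

variable {V : Type} [Fintype V] {G : SimpleGraph V} {k : ℕ} [NeZero k] {x : V → ℝ}

def Far {k : ℕ} (S : ℕ) (R : Finset (ZMod k)) : Prop :=
  ∀ s : ZMod k, ¬ ∀ i ∈ R, ∃ j : ℕ, j < S ∧ i = s + (j : ZMod k)

noncomputable def farm (G : SimpleGraph V) {k : ℕ} [NeZero k] (x : V → ℝ) (S : ℕ)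
    (v : ZMod k → V) : ℝ :=
  wt x (univ.filter (fun w => Far S (tr G v w)))

theorem FarTail_sub {k : ℕ} [NeZero k] {p : ℕ} {R : Finset (ZMod k)} {s s' : ZMod k}
    (hne : s ≠ s') (h : fh R s p) (h' : fh R s' p) : p ≤ (s' - s).val := by
  by_contra hlt
  push Not at hlt
  have h0 : (s' - s).val ≠ 0 := by
    intro h
    rw [ZMod.val_eq_zero] at h
    exact hne (sub_eq_zero.1 h).symm
  have h1 := h'.2 (p - 1 - (s' - s).val) (by omega)
  apply h1
  have h2 : s' + ((p - 1 - (s' - s).val : ℕ) : ZMod k) = s + ((p - 1 : ℕ) : ZMod k) := by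
    rw [Nat.cast_sub (by omega), ZMod.natCast_zmod_val]
    ring
  rw [h2]
  exact h.1

theorem FarTail_cnt {k : ℕ} [NeZero k] {S p : ℕ} (h2 : k < 2 * p) (hS : k + 1 ≤ p + S)
    (R : Finset (ZMod k)) :
    ∑ s : ZMod k, (if fh R s p then (1 : ℝ) else 0) ≤ if Far S R then 0 else 1 := by
  split_ifs with hF
  · apply le_of_eq
    apply Finset.sum_eq_zero
    intro s _
    rw [if_neg]
    intro hs
    apply hF (s + ((p - 1 : ℕ) : ZMod k))
    intro i hi
    have hj : i = s + (((i - s).val : ℕ) : ZMod k) := by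
      rw [ZMod.natCast_zmod_val]; ring
    have hjk := ZMod.val_lt (i - s)
    have hjp : p ≤ (i - s).val + 1 := by
      by_contra hlt
      push Not at hlt
      apply hs.2 _ hlt
      rw [← hj]
      exact hi
    refine ⟨(i - s).val + 1 - p, by omega, ?_⟩
    have h3 : (i - s).val = (p - 1) + ((i - s).val + 1 - p) := by omega
    rw [add_assoc, ← Nat.cast_add, ← h3]
    exact hj
  · rw [Finset.sum_boole]
    have : (univ.filter (fun s : ZMod k => fh R s p)).card ≤ 1 := by
      rw [Finset.card_le_one]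
      intro s hs s' hs'
      rw [mem_filter] at hs hs'
      by_contra hne
      have h3 := FarTail_sub hne hs.2 hs'.2
      have h4 := FarTail_sub (Ne.symm hne) hs'.2 hs.2
      have h5 : (s - s').val + (s' - s).val = k := by
        have h0 : s - s' ≠ 0 := sub_ne_zero.2 hne
        have : NeZero (s - s') := ⟨h0⟩
        have h4 := ZMod.val_neg_of_ne_zero (s - s')
        rw [neg_sub] at h4
        have h5 := ZMod.val_lt (s - s')
        omega
      omega
    exact_mod_cast this

theorem FarTail_q (hk : 7 ≤ k) (h : Opt G k x) {S p : ℕ} (hp : 2 ≤ p) (hpk : p + 2 ≤ k)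
    (h2 : k < 2 * p) (hS : k + 1 ≤ p + S) : EE G k x (farm G x S) / k ≤ ee G k x p := by
  have hx : ∀ v, 0 ≤ x v := fun v => (h.pos v).le
  have hk0 : (0 : ℝ) < k := by
    have : 0 < k := by omega
    exact_mod_cast this
  have h1 := EE_sA_eq (G := G) (k := k) (x := x) hp
  have h3 : EE G k x (fun v => ∑ w, x w * ∑ s : ZMod k, if fh (tr G v w) s p then 1 else 0) ≤
      EE G k x (fun v => (k : ℝ) - farm G x S v) := by
    apply EE_mono hx
    intro v _
    have h4 : (k : ℝ) - farm G x S v = ∑ w, x w * (if Far S (tr G v w) then 0 else 1) := by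
      rw [← h.sum, farm, wt, Finset.sum_filter, ← Finset.sum_sub_distrib]
      refine Finset.sum_congr rfl fun w _ => ?_
      split_ifs <;> simp
    rw [h4]
    exact Finset.sum_le_sum fun w _ => mul_le_mul_of_nonneg_left (FarTail_cnt h2 hS _) (hx w)
  rw [← h1, EE_sub, EE_const h.NN_pos.ne'] at h3
  have h4 : 1 - EE G k x (fun v => wt x (sA G (st G v p))) ≤ ee G k x p := by
    have h5 : 1 - EE G k x (fun v => wt x (sA G (st G v p))) =
        EE G k x (fun v => 1 - wt x (sA G (st G v p))) := by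
      rw [EE_sub, EE_const h.NN_pos.ne']
    rw [h5]
    refine (EE_mono hx fun v _ => ?_).trans (sA_dev hk h hp hpk)
    rw [abs_sub_comm]
    exact le_abs_self _
  refine le_trans ?_ h4
  rw [div_le_iff₀ hk0]
  have h6 : EE G k x (fun v => farm G x S v) = EE G k x (farm G x S) := rfl
  rw [h6] at h3
  linarith

theorem far_tail (hk : 7 ≤ k) (h : Opt G k x) {S : ℕ} (hS : 3 ≤ S) (hSk : 2 * S ≤ k) :
    ((S : ℝ) - 2) * (EE G k x (farm G x S) / k) ^ 2 ≤ 7 := by
  have hx : ∀ v, 0 ≤ x v := fun v => (h.pos v).le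
  have hk0 : (0 : ℝ) < k := by
    have : 0 < k := by omega
    exact_mod_cast this
  set q : ℝ := EE G k x (farm G x S) / k with hq
  have hq0 : 0 ≤ q := by
    apply div_nonneg _ hk0.le
    exact EE_nonneg hx fun v _ => Finset.sum_nonneg fun z _ => hx z
  have h1 : ∀ p ∈ Icc (k - S + 1) (k - 2), q ^ 2 ≤ 9 * loss G k x p := by
    intro p hp
    rw [mem_Icc] at hp
    have h2 := FarTail_q hk h (S := S) (p := p) (by omega) (by omega) (by omega) (by omega)
    refine le_trans ?_ (ee_sq hk h (by omega) (by omega))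
    exact pow_le_pow_left₀ hq0 h2 2
  have h2 : ∑ p ∈ Icc (k - S + 1) (k - 2), q ^ 2 ≤ ∑ p ∈ Icc 3 (k - 2), 9 * loss G k x p := by
    refine (Finset.sum_le_sum h1).trans ?_
    apply Finset.sum_le_sum_of_subset_of_nonneg
    · apply Finset.Icc_subset_Icc_left
      omega
    · intro p hp _
      rw [mem_Icc] at hp
      exact (sq_nonneg _).trans (ee_sq hk h (p := p) (by omega) (by omega))
  rw [Finset.sum_const, Nat.card_Icc, nsmul_eq_mul, ← Finset.mul_sum] at h2
  have h3 : ((k - 2 + 1 - (k - S + 1) : ℕ) : ℝ) = (S : ℝ) - 2 := by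
    have : k - 2 + 1 - (k - S + 1) = S - 2 := by omega
    rw [this, Nat.cast_sub (by omega)]
    norm_num
  rw [h3] at h2
  have h4 := loss_sum hk h
  have h5 := Real.log_two_lt_d9
  linarith

end Pool.Agent.Icy
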