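import Pool.Agent.Icy.ClDefs
import Pool.Agent.Icy.FarTail

/-!
# Clones, part A

A non-clone `w` has `tr v w = ∅`, or `Far S (tr v w)`, or `tr v w` lies in a window `m, …, m+S-1` with
`m ∈ tr v w` (start the window at its first element).  In the last case let `v' i = v (i + m - (p-1))`:
then `w ~ v' (p-1)`, `w ≁ v' i` for `i < p-1` (`p - 1 + S ≤ k`), so `w ∈ sA (st v' p)`, and being no clone of
`v' p` (i.e. of `v (m+1)`) it is in `badA v' S p`.  So `[w in last case] ≤ Σ_t [w ∈ badA (v (· + t)) S p]`;
take weights, `EE`, rotation invariance (`EE_avg`).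
-/

set_option autoImplicit false

open Finset
open scoped Classical

namespace Pool.Agent.Icy

variable {V : Type} [Fintype V] {G : SimpleGraph V} {k : ℕ} [NeZero k] {x : V → ℝ}

theorem ClA_val {a b : ℕ} (ha : a < k) (hb : b < k) (h : (a : ZMod k) = (b : ZMod k)) :
    a = b := by
  have h1 := congrArg ZMod.val h
  rwa [ZMod.val_natCast_of_lt ha, ZMod.val_natCast_of_lt hb] at h1

theorem ClA_window {S : ℕ} {R : Finset (ZMod k)} (h1 : R ≠ ∅) (h2 : ¬ Far S R) :
    ∃ m ∈ R, ∀ i ∈ R, ∃ j : ℕ, j < S ∧ i = m + (j : ZMod k) := by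
  unfold Far at h2
  push Not at h2
  obtain ⟨s, hs⟩ := h2
  obtain ⟨i0, hi0⟩ := Finset.nonempty_iff_ne_empty.2 h1
  obtain ⟨j0, hj0, hi0'⟩ := hs i0 hi0
  have hex : ∃ j : ℕ, (s + (j : ZMod k)) ∈ R := ⟨j0, by rw [← hi0']; exact hi0⟩
  refine ⟨s + (Nat.find hex : ℕ), Nat.find_spec hex, ?_⟩
  intro i hi
  obtain ⟨j, hj, hij⟩ := hs i hi
  have h3 : Nat.find hex ≤ j := Nat.find_min' hex (by rw [← hij]; exact hi)
  refine ⟨j - Nat.find hex, by omega, ?_⟩
  rw [hij, Nat.cast_sub h3]
  ring

theorem ClA_pt {S p : ℕ} (hS : 3 ≤ S) (hp : 3 ≤ p) (hpS : p + S + 4 ≤ k)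
    (v : ZMod k → V) {w : V} (hw : w ∈ NC G v) (h1 : tr G v w ≠ ∅) (h2 : ¬ Far S (tr G v w)) :
    ∃ t : ZMod k, w ∈ badA G (fun i => v (i + t)) S p := by
  obtain ⟨m, hm, hwin⟩ := ClA_window h1 h2
  have hmadj : G.Adj (v m) w := by
    unfold tr at hm
    exact (Finset.mem_filter.1 hm).2
  refine ⟨m - ((p - 1 : ℕ) : ZMod k), ?_⟩
  set t : ZMod k := m - ((p - 1 : ℕ) : ZMod k) with ht
  -- the claim
  have hA : ∀ n : ℕ, n < k → G.Adj (v ((n : ZMod k) + t)) w → p - 1 ≤ n ∧ n < p - 1 + S := by
    intro n hn hadj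
    have h3 : ((n : ZMod k) + t) ∈ tr G v w := by
      unfold tr
      exact Finset.mem_filter.2 ⟨Finset.mem_univ _, hadj⟩
    obtain ⟨j, hj, hj'⟩ := hwin _ h3
    have h4 : (n : ZMod k) = ((p - 1 + j : ℕ) : ZMod k) := by
      have h5 : (n : ZMod k) = m + (j : ZMod k) - t := by rw [← hj']; ring
      rw [h5, ht, Nat.cast_add]
      ring
    have h6 := ClA_val hn (by omega) h4
    omega
  have hbase : G.Adj (v (((p - 1 : ℕ) : ZMod k) + t)) w := by
    have h3 : ((p - 1 : ℕ) : ZMod k) + t = m := by rw [ht]; ring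
    rw [h3]
    exact hmadj
  unfold badA
  refine Finset.mem_filter.2 ⟨?_, ?_⟩
  · rw [mem_sA_st _ (by omega)]
    refine ⟨hbase, ?_⟩
    intro i hi hadj
    have h3 := hA i (by omega) hadj
    omega
  · by_contra hcon
    push Not at hcon
    obtain ⟨hc1, hc2⟩ := hcon
    unfold NC at hw
    simp only [Finset.mem_filter] at hw
    refine hw.2 ((p : ZMod k) + t) ?_
    unfold Cl
    simp only [Finset.mem_filter]
    refine ⟨Finset.mem_univ _, ?_⟩
    intro i hi
    set n := (i - t).val with hn
    have hnk : n < k := ZMod.val_lt _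
    have hni : (n : ZMod k) = i - t := by
      rw [hn]
      exact ZMod.natCast_zmod_val _
    have hi' : i = (n : ZMod k) + t := by rw [hni]; ring
    have hnp : n ≠ p := by
      intro h
      apply hi
      rw [hi', h]
    constructor
    · intro hadj
      rw [hi'] at hadj
      have h3 := hA n hnk hadj
      have h4 : ¬ (p + 2 ≤ n ∧ n ≤ p + S) := fun h => hc2 n h.1 h.2 hadj
      have h5 : n + 1 = p ∨ n = p + 1 := by omega
      rcases h5 with h5 | h5
      · left
        rw [hi', ← h5]
        push_cast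
        ring
      · right
        rw [hi', h5]
        push_cast
        ring
    · rintro (h | h)
      · have h3 : (n : ZMod k) = ((p - 1 : ℕ) : ZMod k) := by
          rw [Nat.cast_sub (by omega), hni]
          have : (p : ZMod k) = i + 1 - t := by rw [← h]; ring
          rw [this]
          push_cast
          ring
        have h4 := ClA_val hnk (by omega) h3
        rw [hi', h4]
        exact hbase
      · have h3 : (n : ZMod k) = ((p + 1 : ℕ) : ZMod k) := by
          rw [hni, h]
          push_cast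
          ring
        rw [hi', h3]
        exact hc1

theorem ClA_wt (S : Finset V) : wt x S = ∑ w, if w ∈ S then x w else 0 := by
  unfold wt
  rw [Finset.sum_ite_mem, Finset.univ_inter]

theorem clA (hk : 7 ≤ k) (h : Opt G k x) {S p : ℕ} (hS : 3 ≤ S) (hp : 3 ≤ p) (hpS : p + S + 4 ≤ k) :
    EE G k x (fun v => wt x (NC G v)) ≤ EE G k x (emp G x) + EE G k x (farm G x S) +
      k * EE G k x (fun v => wt x (badA G v S p)) := by
  have hx : ∀ v, 0 ≤ x v := fun v => (h.pos v).le
  rw [EE_avg, ← EE_add, ← EE_add]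
  refine EE_mono hx (fun v hv => ?_)
  unfold emp farm
  simp only [ClA_wt]
  rw [Finset.sum_comm, ← Finset.sum_add_distrib, ← Finset.sum_add_distrib]
  refine Finset.sum_le_sum (fun w _ => ?_)
  have hpos : ∀ t : ZMod k, 0 ≤ (if w ∈ badA G (fun i => v (i + t)) S p then x w else 0) := by
    intro t
    split_ifs
    · exact hx w
    · exact le_rfl
  by_cases hw : w ∈ NC G v
  · rw [if_pos hw]
    by_cases h1 : tr G v w = ∅
    · rw [if_pos (show w ∈ univ.filter (fun w => tr G v w = ∅) from
        Finset.mem_filter.2 ⟨Finset.mem_univ _, h1⟩)]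
      have h3 := Finset.sum_nonneg (fun t (_ : t ∈ (univ : Finset (ZMod k))) => hpos t)
      have h4 : 0 ≤ (if w ∈ univ.filter (fun w => Far S (tr G v w)) then x w else 0) := by
        split_ifs
        · exact hx w
        · exact le_rfl
      linarith
    · by_cases h2 : Far S (tr G v w)
      · rw [if_pos (show w ∈ univ.filter (fun w => Far S (tr G v w)) from
          Finset.mem_filter.2 ⟨Finset.mem_univ _, h2⟩)]
        have h3 := Finset.sum_nonneg (fun t (_ : t ∈ (univ : Finset (ZMod k))) => hpos t)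
        have h4 : 0 ≤ (if w ∈ univ.filter (fun w => tr G v w = ∅) then x w else 0) := by
          split_ifs
          · exact hx w
          · exact le_rfl
        linarith
      · obtain ⟨t, ht⟩ := ClA_pt hS hp hpS v hw h1 h2
        have h3 := Finset.single_le_sum (f := fun t : ZMod k =>
          (if w ∈ badA G (fun i => v (i + t)) S p then x w else 0)) (fun t _ => hpos t)
          (Finset.mem_univ t)
        beta_reduce at h3
        rw [if_pos ht] at h3
        have h4 : 0 ≤ (if w ∈ univ.filter (fun w => tr G v w = ∅) then x w else 0) := by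
          split_ifs
          · exact hx w
          · exact le_rfl
        have h5 : 0 ≤ (if w ∈ univ.filter (fun w => Far S (tr G v w)) then x w else 0) := by
          split_ifs
          · exact hx w
          · exact le_rfl
        linarith
  · rw [if_neg hw]
    have h3 := Finset.sum_nonneg (fun t (_ : t ∈ (univ : Finset (ZMod k))) => hpos t)
    have h4 : 0 ≤ (if w ∈ univ.filter (fun w => tr G v w = ∅) then x w else 0) := by
      split_ifs
      · exact hx w
      · exact le_rfl
    have h5 : 0 ≤ (if w ∈ univ.filter (fun w => Far S (tr G v w)) then x w else 0) := by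
      split_ifs
      · exact hx w
      · exact le_rfl
    linarith

end Pool.Agent.Icy
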