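import Pool.Agent.Icy.T4Defs

/-!
# T4: what is left out

`s = st v p`.  The event `|wt (sN s) - 1| > δ` : `≤ 36 badP p` (`Σ_w x_w wt (sN (step s w)) ≤ 36`).  The `w` with
`|wt (sN (step s w)) - 1| > δ`: `≤ 6 EE Σ_w x_w [..] ≤ 6 (badP (p+1) + ee p)` (`cm`, `step (st v p) (v p) =
st v (p+1)`).  `y ∈ sB (step s w)`: `EE Σ_w x_w wt (sB (step s w)) ≤ bb (p+1) + 6 ee p` (`cm`).
`y ∈ sA (step s w) \ Qg`: `EE Σ_w x_w Σ_y x_y [|wt (sN (step (step s w) y)) - 1| > δ] ≤ EE Σ_{y ∈ sA(st v
(p+1))} x_y [..] + 6 ee p ≤ badP (p+2) + ee (p+1) + 6 ee p` (`cm` twice).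
-/

set_option autoImplicit false

open Finset
open scoped Classical

namespace Pool.Agent.Icy

variable {V : Type} [Fintype V] {G : SimpleGraph V} {k : ℕ} [NeZero k] {x : V → ℝ}

omit [Fintype V] in
theorem T4left_mem_sB (s : St V) (u : V) :
    u ∈ sB G s ↔ u ∈ s.U ∧ G.Adj s.b u ∧ G.Adj s.a u := Finset.mem_filter

omit [Fintype V] in
theorem T4left_mem_sA (s : St V) (u : V) :
    u ∈ sA G s ↔ u ∈ s.U ∧ G.Adj s.b u ∧ ¬ G.Adj s.a u := Finset.mem_filter

omit [Fintype V] in
theorem T4left_mem_sN (s : St V) (u : V) :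
    u ∈ sN G s ↔ u ∈ s.U ∧ G.Adj s.b u := Finset.mem_filter

omit [Fintype V] in
theorem T4left_mem_nnin (S : Finset V) (y u : V) :
    u ∈ nnin G S y ↔ u ∈ S ∧ ¬ G.Adj y u := Finset.mem_filter

omit [Fintype V] in
theorem T4left_mem_Qg (δ : ℝ) (s : St V) (w y : V) :
    y ∈ Qg G x δ s w ↔ y ∈ sA G (step G s w) ∧
      |wt x (sN G (step G (step G s w) y)) - 1| ≤ δ := Finset.mem_filter

omit [Fintype V] in
theorem T4left_wt_mono (hx : ∀ v, 0 ≤ x v) {S T : Finset V} (h : S ⊆ T) : wt x S ≤ wt x T :=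
  Finset.sum_le_sum_of_subset_of_nonneg h (fun v _ _ => hx v)

omit [Fintype V] in
theorem T4left_wt_nonneg (hx : ∀ v, 0 ≤ x v) (S : Finset V) : 0 ≤ wt x S :=
  Finset.sum_nonneg (fun v _ => hx v)

theorem extI_nonneg (hx : ∀ v, 0 ≤ x v) (p : ℕ) : 0 ≤ extI G k x p := by
  refine EE_nonneg hx (fun v _ => Finset.sum_nonneg (fun w _ => ?_))
  exact mul_nonneg (hx w) (T4left_wt_nonneg hx _)

omit [Fintype V] in
theorem T4left_wt_le (hx : ∀ v, 0 ≤ x v) (δ : ℝ) (s : St V) (w z : V) :
    wt x (nnin G (sN G (step G s w)) z) ≤ wt x (nnin G (Qg G x δ s w) z) +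
      wt x (sB G (step G s w)) + ∑ y ∈ sA G (step G s w), x y *
        (if δ < |wt x (sN G (step G (step G s w) y)) - 1| then 1 else 0) := by
  have h1 : ∑ y ∈ sA G (step G s w), x y *
        (if δ < |wt x (sN G (step G (step G s w) y)) - 1| then (1 : ℝ) else 0) =
      wt x ((sA G (step G s w)).filter
        (fun y => δ < |wt x (sN G (step G (step G s w) y)) - 1|)) := by
    unfold wt
    rw [Finset.sum_filter]
    refine Finset.sum_congr rfl (fun y _ => ?_)
    split_ifs <;> simp
  rw [h1]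
  have h2 : nnin G (sN G (step G s w)) z ⊆ (nnin G (Qg G x δ s w) z ∪
      sB G (step G s w)) ∪ (sA G (step G s w)).filter
        (fun y => δ < |wt x (sN G (step G (step G s w) y)) - 1|) := by
    intro y hy
    rw [T4left_mem_nnin, T4left_mem_sN] at hy
    rw [Finset.mem_union, Finset.mem_union, T4left_mem_nnin, T4left_mem_Qg, T4left_mem_sB,
      Finset.mem_filter, T4left_mem_sA]
    by_cases ha : G.Adj (step G s w).a y
    · exact Or.inl (Or.inr ⟨hy.1.1, hy.1.2, ha⟩)
    · by_cases hb : δ < |wt x (sN G (step G (step G s w) y)) - 1|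
      · exact Or.inr ⟨⟨hy.1.1, hy.1.2, ha⟩, hb⟩
      · exact Or.inl (Or.inl ⟨⟨⟨hy.1.1, hy.1.2, ha⟩, not_lt.mp hb⟩, hy.2⟩)
  have h3 : ∀ S T : Finset V, wt x (S ∪ T) ≤ wt x S + wt x T := by
    intro S T
    have := Finset.sum_union_inter (s₁ := S) (s₂ := T) (f := x)
    have h0 := T4left_wt_nonneg hx (S ∩ T)
    unfold wt at *
    linarith
  refine (T4left_wt_mono hx h2).trans ((h3 _ _).trans ?_)
  have := h3 (nnin G (Qg G x δ s w) z) (sB G (step G s w))
  linarith

theorem t4left (hk : 7 ≤ k) (h : Opt G k x) {p : ℕ} (hp : 3 ≤ p) (hpk : p + 4 ≤ k)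
    {δ : ℝ} (hδ : 0 < δ) :
    extI G k x p ≤ extG G k x δ p + 36 * badP G k x δ p +
      6 * badP G k x δ (p + 1) + badP G k x δ (p + 2) + bb G k x (p + 1) + 18 * ee G k x p +
      ee G k x (p + 1) := by
  have hx : ∀ v, 0 ≤ x v := fun v => (h.pos v).le
  -- the five functions
  set f1 : (ZMod k → V) → ℝ := fun v => ∑ w ∈ sA G (st G v p), if |wt x (sN G (st G v p)) - 1| ≤ δ ∧
    |wt x (sN G (step G (st G v p) w)) - 1| ≤ δ then
      x w * wt x (nnin G (Qg G x δ (st G v p) w) (v (p : ZMod k))) else 0 with hf1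
  set f2 : (ZMod k → V) → ℝ := fun v => if δ < |wt x (sN G (st G v p)) - 1| then 1 else 0 with hf2
  set F3 : (ZMod k → V) → V → ℝ := fun v w =>
    if δ < |wt x (sN G (step G (st G v p) w)) - 1| then 1 else 0 with hF3
  set F4 : (ZMod k → V) → V → ℝ := fun v w => wt x (sB G (step G (st G v p) w)) with hF4
  set F5 : (ZMod k → V) → V → ℝ := fun v w => ∑ y ∈ sA G (step G (st G v p) w), x y *
        (if δ < |wt x (sN G (step G (step G (st G v p) w) y)) - 1| then 1 else 0) with hF5
  set F6 : (ZMod k → V) → V → ℝ := fun v y =>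
        (if δ < |wt x (sN G (step G (st G v (p + 1)) y)) - 1| then 1 else 0) with hF6
  have hst1 : ∀ v : ZMod k → V, step G (st G v p) (v (p : ZMod k)) = st G v (p + 1) :=
    fun v => (st_succ v (by omega)).symm
  have hst2 : ∀ v : ZMod k → V, step G (st G v (p + 1)) (v ((p + 1 : ℕ) : ZMod k)) =
      st G v (p + 2) := fun v => (st_succ v (by omega)).symm
  have dep : ∀ {α : Type} (q : ℕ) (hq : 1 ≤ q) (Φ : St V → α),
      Dep k q (fun v : ZMod k → V => Φ (st G v q)) := by
    intro α q hq Φ v v' hv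
    exact congrArg Φ (dep_st hq le_rfl v v' hv)
  -- change of measure
  have c3 := cm hk h (p := p) (by omega) (by omega) F3
    (fun z => dep p (by omega) (fun s => if δ < |wt x (sN G (step G s z)) - 1| then (1 : ℝ) else 0))
    1 (fun v z => by simp only [hF3]; split_ifs <;> simp)
  have c4 := cm hk h (p := p) (by omega) (by omega) F4
    (fun z => dep p (by omega) (fun s => wt x (sB G (step G s z))))
    6 (fun v z => by
      simp only [hF4]
      rw [abs_of_nonneg (T4left_wt_nonneg hx _)]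
      refine o3_sub (by omega) h z _ (fun u hu => ?_)
      exact ((T4left_mem_sB _ _).mp hu).2.1)
  have hF5' : ∀ v z, F5 v z ≤ wt x (sA G (step G (st G v p) z)) ∧ 0 ≤ F5 v z := by
    intro v z
    constructor
    · refine Finset.sum_le_sum (fun y _ => ?_)
      have := hx y
      split_ifs <;> simp [this]
    · refine Finset.sum_nonneg (fun y _ => mul_nonneg (hx y) ?_)
      split_ifs <;> simp
  have c5 := cm hk h (p := p) (by omega) (by omega) F5
    (fun z => dep p (by omega) (fun s => ∑ y ∈ sA G (step G s z), x y *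
        (if δ < |wt x (sN G (step G (step G s z) y)) - 1| then (1 : ℝ) else 0)))
    6 (fun v z => by
      rw [abs_of_nonneg (hF5' v z).2]
      refine (hF5' v z).1.trans (o3_sub (by omega) h z _ (fun u hu => ?_))
      exact ((T4left_mem_sA _ _).mp hu).2.1)
  have c6 := cm hk h (p := p + 1) (by omega) (by omega) F6
    (fun z => dep (p + 1) (by omega)
      (fun s => if δ < |wt x (sN G (step G s z)) - 1| then (1 : ℝ) else 0))
    1 (fun v z => by simp only [hF6]; split_ifs <;> simp)
  have e3 : EE G k x (fun v => F3 v (v (p : ZMod k))) = badP G k x δ (p + 1) := by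
    refine EE_congr (fun v _ => ?_)
    simp only [hF3, hst1]
  have e4 : EE G k x (fun v => F4 v (v (p : ZMod k))) = bb G k x (p + 1) := by
    refine EE_congr (fun v _ => ?_)
    simp only [hF4, hst1]
  have e5 : EE G k x (fun v => F5 v (v (p : ZMod k))) =
      EE G k x (fun v => ∑ y ∈ sA G (st G v (p + 1)), x y * F6 v y) := by
    refine EE_congr (fun v _ => ?_)
    simp only [hF5, hF6, hst1]
  have e6 : EE G k x (fun v => F6 v (v ((p + 1 : ℕ) : ZMod k))) = badP G k x δ (p + 2) := by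
    refine EE_congr (fun v _ => ?_)
    simp only [hF6, hst2]
  rw [e3] at c3
  rw [e4] at c4
  rw [e5] at c5
  rw [e6] at c6
  rw [abs_le] at c3 c4 c5 c6
  -- pointwise bound
  have main : extI G k x p ≤ EE G k x (fun v => f1 v + (36 * f2 v +
      (6 * (∑ w ∈ sA G (st G v p), x w * F3 v w) + ((∑ w ∈ sA G (st G v p), x w * F4 v w) +
        ∑ w ∈ sA G (st G v p), x w * F5 v w)))) := by
    refine EE_mono hx (fun v _ => ?_)
    have h6 : ∑ w ∈ sA G (st G v p), x w ≤ 6 := by
      refine o3_sub (by omega) h (st G v p).b _ (fun u hu => ?_)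
      exact ((T4left_mem_sA _ _).mp hu).2.1
    have hf2n : 0 ≤ f2 v := by
      simp only [hf2]; split_ifs <;> simp
    have h7 : ∑ w ∈ sA G (st G v p), x w * (6 * f2 v) ≤ 36 * f2 v := by
      rw [← Finset.sum_mul]
      nlinarith
    have h8 : ∑ w ∈ sA G (st G v p),
        x w * wt x (nnin G (sN G (step G (st G v p) w)) (v (p : ZMod k))) ≤
        ∑ w ∈ sA G (st G v p), ((if |wt x (sN G (st G v p)) - 1| ≤ δ ∧
          |wt x (sN G (step G (st G v p) w)) - 1| ≤ δ then
          x w * wt x (nnin G (Qg G x δ (st G v p) w) (v (p : ZMod k))) else 0) +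
          x w * (6 * f2 v) + 6 * (x w * F3 v w) + x w * F4 v w + x w * F5 v w) := by
      refine Finset.sum_le_sum (fun w _ => ?_)
      have hxw := hx w
      have hF4n : 0 ≤ F4 v w := T4left_wt_nonneg hx _
      have hF5n : 0 ≤ F5 v w := (hF5' v w).2
      have hle := T4left_wt_le (G := G) hx δ (st G v p) w (v (p : ZMod k))
      have hle6 : wt x (nnin G (sN G (step G (st G v p) w)) (v (p : ZMod k))) ≤ 6 := by
        refine o3_sub (by omega) h w _ (fun u hu => ?_)
        exact ((T4left_mem_sN _ _).mp ((T4left_mem_nnin _ _ _).mp hu).1).2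
      have hQn : 0 ≤ wt x (nnin G (Qg G x δ (st G v p) w) (v (p : ZMod k))) :=
        T4left_wt_nonneg hx _
      have q1 : 0 ≤ x w * F4 v w := mul_nonneg hxw hF4n
      have q2 : 0 ≤ x w * F5 v w := mul_nonneg hxw hF5n
      have q3 : x w * wt x (nnin G (sN G (step G (st G v p) w)) (v (p : ZMod k))) ≤ x w * 6 :=
        mul_le_mul_of_nonneg_left hle6 hxw
      have q4 := mul_le_mul_of_nonneg_left hle hxw
      have q5 : 0 ≤ x w * wt x (nnin G (Qg G x δ (st G v p) w) (v (p : ZMod k))) :=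
        mul_nonneg hxw hQn
      by_cases hA : |wt x (sN G (st G v p)) - 1| ≤ δ
      · have hf20 : f2 v = 0 := by simp only [hf2]; rw [if_neg (not_lt.mpr hA)]
        by_cases hB : |wt x (sN G (step G (st G v p) w)) - 1| ≤ δ
        · have hF30 : F3 v w = 0 := by simp only [hF3]; rw [if_neg (not_lt.mpr hB)]
          rw [if_pos ⟨hA, hB⟩, hf20, hF30]
          simp only [hF4, hF5]
          rw [mul_add, mul_add] at q4
          linarith
        · have hF31 : F3 v w = 1 := by simp only [hF3]; rw [if_pos (not_le.mp hB)]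
          rw [if_neg (fun hc => hB hc.2), hf20, hF31]
          linarith
      · have hf21 : f2 v = 1 := by simp only [hf2]; rw [if_pos (not_le.mp hA)]
        have hF3n : 0 ≤ F3 v w := by simp only [hF3]; split_ifs <;> simp
        have q6 : 0 ≤ x w * F3 v w := mul_nonneg hxw hF3n
        rw [if_neg (fun hc => hA hc.1), hf21]
        linarith
    refine h8.trans ?_
    rw [Finset.sum_add_distrib, Finset.sum_add_distrib, Finset.sum_add_distrib,
      Finset.sum_add_distrib, ← Finset.mul_sum]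
    simp only [hf1]
    linarith
  rw [EE_add, EE_add, EE_add, EE_add, EE_mul, EE_mul] at main
  have g1 : EE G k x f1 = extG G k x δ p := rfl
  have g2 : EE G k x f2 = badP G k x δ p := rfl
  rw [g1, g2] at main
  linarith [c3.2, c4.2, c5.2, c6.2]

end Pool.Agent.Icy
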