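import Pool.Agent.Icy.Bud1
import Pool.Agent.Icy.Bud2
import Pool.Agent.Icy.AcFinal
import Pool.Agent.Icy.T4left

/-!
# T4 at one position, the main part

Put `s = st v p`, `R = k - p - S`, kernel `kmu x R` (`kmu_ker`), `g = gmu δ`, `n + 1 = S`.  On the event
`|wt (sN s) - 1| ≤ δ` and for `w` with `|wt (sN (step s w)) - 1| ≤ δ`, `ac_final` with `Q = Qg δ s w` gives
`Σ_z kmu wt(nnin Q z)² ≤ 2 Σ_{y∈Q} x_y (20δ + δ' + (14+1/δ') PI)`, `PI = 2 (1 - RR) + CC ≥ 0`; times `x_w`, sum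
over `w`, `EE`; `kmu_markov` on the left (`F v z = Σ_w [..] x_w wt (nnin Q z)²`), `Σ_w Σ_y x_w x_y ≤ 36`, `bud1`,
`bud2` (`Q ⊆ sA (step s w)`): the left side is at most `Mp`.  Cauchy-Schwarz (`EE_cs_sum`) with
`EE Σ_w x_w ≤ 6` gives `extG ≤ √(6 Mp)`.
-/

set_option autoImplicit false

open Finset
open scoped Classical

namespace Pool.Agent.Icy

variable {V : Type} [Fintype V] {G : SimpleGraph V} {k : ℕ} [NeZero k] {x : V → ℝ}

/-- the good event -/
noncomputable def T4pt_ind (G : SimpleGraph V) (x : V → ℝ) (δ : ℝ) (s : St V) (w : V) : ℝ :=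
  if |wt x (sN G s) - 1| ≤ δ ∧ |wt x (sN G (step G s w)) - 1| ≤ δ then 1 else 0

/-- the square sum -/
noncomputable def T4pt_F (G : SimpleGraph V) (x : V → ℝ) (δ : ℝ) (s : St V) (z : V) : ℝ :=
  ∑ w ∈ sA G s, x w * (T4pt_ind G x δ s w * wt x (nnin G (Qg G x δ s w) z)) ^ 2

theorem T4pt_wt_nonneg (hx : ∀ v, 0 ≤ x v) (S : Finset V) : 0 ≤ wt x S :=
  Finset.sum_nonneg fun v _ => hx v

theorem T4pt_sA6 (hk : 7 ≤ k) (h : Opt G k x) (s : St V) : wt x (sA G s) ≤ 6 :=
  o3_sub (by omega) h s.b (sA G s) fun _ hu => (Finset.mem_filter.1 hu).2.1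

theorem T4pt_state (hx : ∀ v, 0 ≤ x v) {R n : ℕ} (hR : 2 ≤ R) {δ δ' : ℝ} (hδ : 0 < δ)
    (hδ4 : δ ≤ 1 / 4) (hδ' : 0 < δ') (s : St V) :
    ∑ z ∈ sA G s, kmu G x R (n + 1) s z * T4pt_F G x δ s z ≤
      ∑ w ∈ sA G s, x w * (2 * ∑ y ∈ sA G (step G s w), x y * (20 * δ + δ' +
        (14 + 1 / δ') * PI G x (kmu G x R) (gmu G x δ) y (n + 1) s)) := by
  have hK := kmu_ker (G := G) (x := x) hx hR
  unfold T4pt_F
  simp only [Finset.mul_sum]
  rw [Finset.sum_comm]
  refine Finset.sum_le_sum fun w hw => ?_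
  have hPI : ∀ y, 0 ≤ x y * (20 * δ + δ' +
        (14 + 1 / δ') * PI G x (kmu G x R) (gmu G x δ) y (n + 1) s) := by
    intro y
    have h1 := PI_nonneg (G := G) (x := x) (g := gmu G x δ) hK y (n + 1) s
    have h2 : 0 ≤ 14 + 1 / δ' := by positivity
    exact mul_nonneg (hx y) (add_nonneg (by positivity) (mul_nonneg h2 h1))
  by_cases hc : |wt x (sN G s) - 1| ≤ δ ∧ |wt x (sN G (step G s w)) - 1| ≤ δ
  · have hind : T4pt_ind G x δ s w = 1 := if_pos hc
    have h1 := ac_final (G := G) (x := x) (p := kmu G x R) (g := gmu G x δ) hx hK δ δ' hδ.le hδ4 hδ'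
      (fun n s z y _ _ hg => hg) n s w (by linarith [(abs_le.1 hc.1).2])
      (by linarith [(abs_le.1 hc.2).2]) (Qg G x δ s w)
      (fun u hu => by
        have h2 := (Finset.mem_filter.1 hu).1
        have h3 := Finset.mem_filter.1 h2
        exact Finset.mem_filter.2 ⟨h3.1, h3.2.1⟩)
      (fun y hy => (Finset.mem_filter.1 hy).2)
    have h2 : ∑ z ∈ sA G s, kmu G x R (n + 1) s z *
        (x w * (T4pt_ind G x δ s w * wt x (nnin G (Qg G x δ s w) z)) ^ 2) =
        x w * ∑ z ∈ sA G s, kmu G x R (n + 1) s z * wt x (nnin G (Qg G x δ s w) z) ^ 2 := by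
      rw [Finset.mul_sum]
      refine Finset.sum_congr rfl fun z _ => ?_
      rw [hind]
      ring
    rw [h2]
    refine (mul_le_mul_of_nonneg_left h1 (hx w)).trans ?_
    rw [Finset.mul_sum, Finset.mul_sum]
    refine Finset.sum_le_sum_of_subset_of_nonneg (Finset.filter_subset _ _) ?_
    intro y _ _
    exact mul_nonneg (hx w) (mul_nonneg (by norm_num) (hPI y))
  · have hind : T4pt_ind G x δ s w = 0 := if_neg hc
    have h2 : ∑ z ∈ sA G s, kmu G x R (n + 1) s z *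
        (x w * (T4pt_ind G x δ s w * wt x (nnin G (Qg G x δ s w) z)) ^ 2) = 0 := by
      refine Finset.sum_eq_zero fun z _ => ?_
      rw [hind]
      ring
    rw [h2]
    refine Finset.sum_nonneg fun y _ => ?_
    exact mul_nonneg (hx w) (mul_nonneg (by norm_num) (hPI y))

theorem T4pt_main (hk : 7 ≤ k) (h : Opt G k x) {p S : ℕ} (hp : 3 ≤ p) (hS : 1 ≤ S)
    (hpS : p + S + 4 ≤ k) {δ δ' : ℝ} (hδ : 0 < δ) (hδ4 : δ ≤ 1 / 4) (hδ' : 0 < δ') :
    EE G k x (fun v => T4pt_F G x δ (st G v p) (v (p : ZMod k))) ≤ Mp G k x δ δ' S p := by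
  have hx : ∀ v, 0 ≤ x v := fun v => (h.pos v).le
  obtain ⟨n, rfl⟩ : ∃ n, S = n + 1 := ⟨S - 1, by omega⟩
  have h1 := kmu_markov (G := G) (x := x) (by omega : 5 ≤ k) hx (p := p) (R := k - p - (n + 1))
    (n := n + 1) (by omega) (by omega) (by omega) (fun v z => T4pt_F G x δ (st G v p) z)
    (fun z v v' hvv => by
      have h2 := dep_st (G := G) (k := k) (p := p) (q := p) (by omega) le_rfl v v' hvv
      have h3 : st G v p = st G v' p := h2
      simp only [h3])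
  rw [← h1]
  have h2 : EE G k x (fun v => ∑ z ∈ sA G (st G v p), kmu G x (k - p - (n + 1)) (n + 1) (st G v p) z *
      T4pt_F G x δ (st G v p) z) ≤ EE G k x (fun v =>
      ∑ w ∈ sA G (st G v p), x w * (2 * ∑ y ∈ sA G (step G (st G v p) w), x y * (20 * δ + δ' +
        (14 + 1 / δ') * PI G x (kmu G x (k - p - (n + 1))) (gmu G x δ) y (n + 1) (st G v p)))) :=
    EE_mono hx fun v _ => T4pt_state hx (by omega) hδ hδ4 hδ' _
  refine h2.trans ?_
  have b1 := bud1 hk h hp hS hpS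
  have b2 := bud2 hk h hp hS hpS hδ
  have b0 : EE G k x (fun v => ∑ w ∈ sA G (st G v p), x w *
      ∑ y ∈ sA G (step G (st G v p) w), x y) ≤ 36 := by
    have hN : NN G k x ≠ 0 := h.NN_pos.ne'
    rw [← EE_const (G := G) (k := k) (x := x) hN 36]
    refine EE_mono hx fun v _ => ?_
    calc ∑ w ∈ sA G (st G v p), x w * ∑ y ∈ sA G (step G (st G v p) w), x y
        ≤ ∑ w ∈ sA G (st G v p), x w * 6 := Finset.sum_le_sum fun w _ =>
          mul_le_mul_of_nonneg_left (T4pt_sA6 hk h _) (hx w)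
      _ = wt x (sA G (st G v p)) * 6 := by rw [wt, Finset.sum_mul]
      _ ≤ 6 * 6 := mul_le_mul_of_nonneg_right (T4pt_sA6 hk h _) (by norm_num)
      _ = 36 := by norm_num
  have e : EE G k x (fun v =>
      ∑ w ∈ sA G (st G v p), x w * (2 * ∑ y ∈ sA G (step G (st G v p) w), x y * (20 * δ + δ' +
        (14 + 1 / δ') * PI G x (kmu G x (k - p - (n + 1))) (gmu G x δ) y (n + 1) (st G v p)))) =
      2 * ((20 * δ + δ') * EE G k x (fun v => ∑ w ∈ sA G (st G v p), x w *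
        ∑ y ∈ sA G (step G (st G v p) w), x y) +
      (14 + 1 / δ') * (2 * EE G k x (fun v => ∑ w ∈ sA G (st G v p), x w *
        ∑ y ∈ sA G (step G (st G v p) w), x y * (1 - RR G (kmu G x (k - p - (n + 1)))
          (gmu G x δ) y (n + 1) (st G v p))) +
        EE G k x (fun v => ∑ w ∈ sA G (st G v p), x w * ∑ y ∈ sA G (step G (st G v p) w),
          x y * CC G x (kmu G x (k - p - (n + 1))) y (n + 1) (st G v p)))) := by
    rw [← EE_mul, ← EE_mul 2, ← EE_add, ← EE_mul, ← EE_add, ← EE_mul]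
    refine EE_congr fun v _ => ?_
    simp only [Finset.mul_sum, ← Finset.sum_add_distrib]
    refine Finset.sum_congr rfl fun w _ => Finset.sum_congr rfl fun y _ => ?_
    unfold PI
    ring
  rw [e]
  unfold Mp
  have hD : 0 ≤ 14 + 1 / δ' := by positivity
  have q1 := mul_le_mul_of_nonneg_left b0 (by positivity : 0 ≤ 20 * δ + δ')
  have q2 : 2 * EE G k x (fun v => ∑ w ∈ sA G (st G v p), x w *
        ∑ y ∈ sA G (step G (st G v p) w), x y * (1 - RR G (kmu G x (k - p - (n + 1)))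
          (gmu G x δ) y (n + 1) (st G v p))) +
        EE G k x (fun v => ∑ w ∈ sA G (st G v p), x w * ∑ y ∈ sA G (step G (st G v p) w),
          x y * CC G x (kmu G x (k - p - (n + 1))) y (n + 1) (st G v p)) ≤
      2 * (rev G k x (n + 1) p +
        6 * ∑ i ∈ range (n + 1), (badP G k x δ (p + i + 2) + ee G k x (p + i + 1))) +
      36 * ∑ i ∈ range (n + 1), (ee G k x (p + i) + bb G k x (p + i)) :=
    add_le_add (mul_le_mul_of_nonneg_left b2 (by norm_num)) b1
  have q3 := mul_le_mul_of_nonneg_left q2 hD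
  have q4 : (20 * δ + δ') * 36 = 36 * (20 * δ + δ') := by ring
  rw [q4] at q1
  exact mul_le_mul_of_nonneg_left (add_le_add q1 q3) (by norm_num)

theorem t4pt (hk : 7 ≤ k) (h : Opt G k x) {p S : ℕ} (hp : 3 ≤ p) (hS : 1 ≤ S) (hpS : p + S + 4 ≤ k)
    {δ δ' : ℝ} (hδ : 0 < δ) (hδ4 : δ ≤ 1 / 4) (hδ' : 0 < δ') :
    extG G k x δ p ≤ Real.sqrt (6 * Mp G k x δ δ' S p) := by
  have hx : ∀ v, 0 ≤ x v := fun v => (h.pos v).le
  have hm := T4pt_main hk h hp hS hpS hδ hδ4 hδ'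
  have h1 : extG G k x δ p = EE G k x (fun v => ∑ w ∈ sA G (st G v p), x w *
      (1 * (T4pt_ind G x δ (st G v p) w *
        wt x (nnin G (Qg G x δ (st G v p) w) (v (p : ZMod k)))))) := by
    unfold extG
    refine EE_congr fun v _ => Finset.sum_congr rfl fun w _ => ?_
    unfold T4pt_ind
    split_ifs <;> ring
  have h2 := EE_cs_sum (G := G) (k := k) hx (fun v => sA G (st G v p)) (fun _ w => x w)
    (fun _ _ => (1 : ℝ)) (fun v w => T4pt_ind G x δ (st G v p) w *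
        wt x (nnin G (Qg G x δ (st G v p) w) (v (p : ZMod k)))) (fun _ w _ => hx w)
  have h3 : EE G k x (fun v => ∑ w ∈ sA G (st G v p), x w * (1 : ℝ) ^ 2) ≤ 6 := by
    have hN : NN G k x ≠ 0 := h.NN_pos.ne'
    rw [← EE_const (G := G) (k := k) (x := x) hN 6]
    refine EE_mono hx fun v _ => ?_
    calc ∑ w ∈ sA G (st G v p), x w * (1 : ℝ) ^ 2 = wt x (sA G (st G v p)) := by
          rw [wt]
          exact Finset.sum_congr rfl fun w _ => by ring
      _ ≤ 6 := T4pt_sA6 hk h _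
  rw [h1]
  refine Real.le_sqrt_of_sq_le (h2.trans ?_)
  have h4 : 0 ≤ EE G k x (fun v => T4pt_F G x δ (st G v p) (v (p : ZMod k))) := by
    refine EE_nonneg hx fun v _ => Finset.sum_nonneg fun w _ => ?_
    exact mul_nonneg (hx w) (sq_nonneg _)
  exact mul_le_mul h3 hm h4 (by norm_num)

end Pool.Agent.Icy
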