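import Pool.Agent.Icy.ClDefs
import Pool.Agent.Icy.T4pt

/-!
# Clones, part B

`s = st v p`.  `w ≁ v (p+1)`: `cm` at `p+1` with `F v z = Σ_{w∈sA(st v p)} x_w [w ≁ z] ≤ 6`:
`≤ EE Σ_w x_w wt (nnin (sA (st v (p+1))) w) + 6 ee (p+1)`, and `sA (st v (p+1)) ⊆ sN (step s (v p))`; `cm` at `p`
with `F v z = Σ_w x_w wt (nnin (sN (step s z)) w) ≤ 36`, exchange of `w` and `z`, `cm` at `p` again:
`≤ extI p + 72 ee p + 6 ee (p+1)`.
`w ~ v c`, `p + 2 ≤ c ≤ p + S`: `cm` at `c` with `F v z = Σ_{w ∈ sA (st v p)} x_w [w ~ z] ≤ 6`; the sets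
`nbin (sA (st v c)) w` are disjoint parts of `nnin (sN (step s w)) (v p)`: `≤ extI p + 6 Σ ee c`.
-/

set_option autoImplicit false

open Finset
open scoped Classical

namespace Pool.Agent.Icy

variable {V : Type} [Fintype V] {G : SimpleGraph V} {k : ℕ} [NeZero k] {x : V → ℝ}

theorem ClB_wt_nonneg (h : Opt G k x) (S : Finset V) : 0 ≤ wt x S :=
  Finset.sum_nonneg (fun v _ => (h.pos v).le)

theorem ClB_wt_mono (h : Opt G k x) {S T : Finset V} (hST : S ⊆ T) : wt x S ≤ wt x T :=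
  Finset.sum_le_sum_of_subset_of_nonneg hST (fun v _ _ => (h.pos v).le)

theorem ClB_sA6 (hk : 7 ≤ k) (h : Opt G k x) (s : St V) : wt x (sA G s) ≤ 6 := by
  refine o3_sub (by omega) h s.b _ (fun u hu => ?_)
  unfold sA at hu
  exact (Finset.mem_filter.1 hu).2.1

theorem ClB_sN6 (hk : 7 ≤ k) (h : Opt G k x) (s : St V) : wt x (sN G s) ≤ 6 := by
  refine o3_sub (by omega) h s.b _ (fun u hu => ?_)
  unfold sN at hu
  exact (Finset.mem_filter.1 hu).2

theorem ClB_sum_le (hk : 7 ≤ k) (h : Opt G k x) (s : St V) (f : V → ℝ) {M : ℝ}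
    (h0 : ∀ w, 0 ≤ f w) (hM : ∀ w, f w ≤ M) : |∑ w ∈ sA G s, x w * f w| ≤ 6 * M := by
  have hM0 : 0 ≤ M := (h0 s.a).trans (hM s.a)
  rw [abs_of_nonneg (Finset.sum_nonneg (fun w _ => mul_nonneg (h.pos w).le (h0 w)))]
  calc ∑ w ∈ sA G s, x w * f w ≤ ∑ w ∈ sA G s, x w * M :=
        Finset.sum_le_sum (fun w _ => mul_le_mul_of_nonneg_left (hM w) (h.pos w).le)
    _ = wt x (sA G s) * M := by rw [wt, Finset.sum_mul]
    _ ≤ 6 * M := mul_le_mul_of_nonneg_right (ClB_sA6 hk h s) hM0

theorem ClB_nnin (h : Opt G k x) (S : Finset V) (y : V) : wt x (nnin G S y) ≤ wt x S :=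
  ClB_wt_mono h (Finset.filter_subset _ _)

theorem ClB_dep {q p : ℕ} (hp : 1 ≤ p) (hpq : p ≤ q) (F : St V → V → ℝ) (z : V) :
    Dep k q (fun v : ZMod k → V => F (st G v p) z) := by
  intro v v' hv
  have h1 := dep_st (G := G) (k := k) hp hpq v v' hv
  have h2 : st G v p = st G v' p := h1
  show F (st G v p) z = F (st G v' p) z
  rw [h2]

theorem ClB_sum_nnin (S T : Finset V) :
    ∑ z ∈ S, x z * ∑ w ∈ T, x w * (if G.Adj w z then 0 else 1) =
      ∑ w ∈ T, x w * wt x (nnin G S w) := by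
  have h1 : ∀ w, wt x (nnin G S w) = ∑ z ∈ S, x z * (if G.Adj w z then 0 else 1) := by
    intro w
    unfold wt nnin
    rw [Finset.sum_filter]
    refine Finset.sum_congr rfl (fun z _ => ?_)
    by_cases ha : G.Adj w z
    · rw [if_neg (not_not.2 ha), if_pos ha, mul_zero]
    · rw [if_pos ha, if_neg ha, mul_one]
  simp only [h1, Finset.mul_sum]
  rw [Finset.sum_comm]
  refine Finset.sum_congr rfl (fun w _ => Finset.sum_congr rfl (fun z _ => ?_))
  ring

theorem ClB_sum_nbin (S T : Finset V) :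
    ∑ z ∈ S, x z * ∑ w ∈ T, x w * (if G.Adj w z then 1 else 0) =
      ∑ w ∈ T, x w * wt x (nbin G S w) := by
  have h1 : ∀ w, wt x (nbin G S w) = ∑ z ∈ S, x z * (if G.Adj w z then 1 else 0) := by
    intro w
    unfold wt nbin
    rw [Finset.sum_filter]
    refine Finset.sum_congr rfl (fun z _ => ?_)
    by_cases ha : G.Adj w z
    · rw [if_pos ha, if_pos ha, mul_one]
    · rw [if_neg ha, if_neg ha, mul_zero]
  simp only [h1, Finset.mul_sum]
  rw [Finset.sum_comm]
  refine Finset.sum_congr rfl (fun w _ => Finset.sum_congr rfl (fun z _ => ?_))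
  ring

theorem ClB_part1 (hk : 7 ≤ k) (h : Opt G k x) {p : ℕ} (hp : 3 ≤ p) (hpk : p + 3 ≤ k) :
    EE G k x (fun v => ∑ w ∈ sA G (st G v p), x w *
      (if G.Adj w (v ((p + 1 : ℕ) : ZMod k)) then 0 else 1)) ≤
      extI G k x p + 72 * ee G k x p + 6 * ee G k x (p + 1) := by
  have hx : ∀ v, 0 ≤ x v := fun v => (h.pos v).le
  -- step 1
  have e1 := cm hk h (p := p + 1) (by omega) (by omega)
    (fun v z => ∑ w ∈ sA G (st G v p), x w * (if G.Adj w z then 0 else 1))
    (fun z => ClB_dep (by omega) (by omega)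
      (fun s z => ∑ w ∈ sA G s, x w * (if G.Adj w z then 0 else 1)) z) (6 * 1)
    (fun v z => ClB_sum_le hk h _ _ (fun w => by split_ifs <;> norm_num)
      (fun w => by split_ifs <;> norm_num))
  have e1' := (abs_le.1 e1).1
  -- step 2
  have e2 : EE G k x (fun v => ∑ z ∈ sA G (st G v (p + 1)), x z *
      ∑ w ∈ sA G (st G v p), x w * (if G.Adj w z then 0 else 1)) ≤
      EE G k x (fun v => ∑ w ∈ sA G (st G v p), x w *
        wt x (nnin G (sN G (step G (st G v p) (v (p : ZMod k)))) w)) := by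
    refine EE_mono hx (fun v _ => ?_)
    rw [ClB_sum_nnin]
    refine Finset.sum_le_sum (fun w _ => mul_le_mul_of_nonneg_left ?_ (hx w))
    rw [st_succ v (by omega)]
    refine ClB_wt_mono h ?_
    intro u hu
    unfold nnin sA at hu
    unfold nnin sN
    rw [Finset.mem_filter, Finset.mem_filter] at hu ⊢
    exact ⟨⟨hu.1.1, hu.1.2.1⟩, hu.2⟩
  -- step 3
  have e3 := cm hk h (p := p) (by omega) (by omega)
    (fun v z => ∑ w ∈ sA G (st G v p), x w * wt x (nnin G (sN G (step G (st G v p) z)) w))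
    (fun z => ClB_dep (by omega) (by omega)
      (fun s z => ∑ w ∈ sA G s, x w * wt x (nnin G (sN G (step G s z)) w)) z) (6 * 6)
    (fun v z => ClB_sum_le hk h _ _ (fun w => ClB_wt_nonneg h _)
      (fun w => (ClB_nnin h _ _).trans (ClB_sN6 hk h _)))
  have e3' := (abs_le.1 e3).1
  -- step 4
  have e4 : EE G k x (fun v => ∑ z ∈ sA G (st G v p), x z *
      ∑ w ∈ sA G (st G v p), x w * wt x (nnin G (sN G (step G (st G v p) z)) w)) =
      EE G k x (fun v => ∑ z ∈ sA G (st G v p), x z *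
      ∑ w ∈ sA G (st G v p), x w * wt x (nnin G (sN G (step G (st G v p) w)) z)) := by
    refine EE_congr (fun v _ => ?_)
    simp only [Finset.mul_sum]
    rw [Finset.sum_comm]
    refine Finset.sum_congr rfl (fun w _ => Finset.sum_congr rfl (fun z _ => ?_))
    ring
  -- step 5
  have e5 := cm hk h (p := p) (by omega) (by omega)
    (fun v z => ∑ w ∈ sA G (st G v p), x w * wt x (nnin G (sN G (step G (st G v p) w)) z))
    (fun z => ClB_dep (by omega) (by omega)
      (fun s z => ∑ w ∈ sA G s, x w * wt x (nnin G (sN G (step G s w)) z)) z) (6 * 6)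
    (fun v z => ClB_sum_le hk h _ _ (fun w => ClB_wt_nonneg h _)
      (fun w => (ClB_nnin h _ _).trans (ClB_sN6 hk h _)))
  have e5' := (abs_le.1 e5).2
  have e6 : extI G k x p = EE G k x (fun v => ∑ w ∈ sA G (st G v p), x w *
    wt x (nnin G (sN G (step G (st G v p) w)) (v (p : ZMod k)))) := rfl
  rw [e6]
  linarith

theorem ClB_part2 (hk : 7 ≤ k) (h : Opt G k x) {S p : ℕ} (hp : 3 ≤ p) (hpS : p + S + 4 ≤ k) :
    EE G k x (fun v => ∑ c ∈ Icc (p + 2) (p + S), ∑ w ∈ sA G (st G v p), x w *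
      (if G.Adj w (v (c : ZMod k)) then 1 else 0)) ≤
      extI G k x p + 6 * ∑ c ∈ Icc (p + 2) (p + S), ee G k x c := by
  have hx : ∀ v, 0 ≤ x v := fun v => (h.pos v).le
  rw [EE_sum]
  have f1 : ∀ c ∈ Icc (p + 2) (p + S),
      EE G k x (fun v => ∑ w ∈ sA G (st G v p), x w * (if G.Adj w (v (c : ZMod k)) then 1 else 0)) ≤
      EE G k x (fun v => ∑ w ∈ sA G (st G v p), x w * wt x (nbin G (sA G (st G v c)) w)) +
        6 * ee G k x c := by
    intro c hc
    rw [Finset.mem_Icc] at hc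
    have e1 := cm hk h (p := c) (by omega) (by omega)
      (fun v z => ∑ w ∈ sA G (st G v p), x w * (if G.Adj w z then 1 else 0))
      (fun z => ClB_dep (by omega) (by omega)
        (fun s z => ∑ w ∈ sA G s, x w * (if G.Adj w z then 1 else 0)) z) (6 * 1)
      (fun v z => ClB_sum_le hk h _ _ (fun w => by split_ifs <;> norm_num)
        (fun w => by split_ifs <;> norm_num))
    have e1' := (abs_le.1 e1).1
    have e2 : EE G k x (fun v => ∑ z ∈ sA G (st G v c), x z *
        ∑ w ∈ sA G (st G v p), x w * (if G.Adj w z then 1 else 0)) =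
        EE G k x (fun v => ∑ w ∈ sA G (st G v p), x w * wt x (nbin G (sA G (st G v c)) w)) :=
      EE_congr (fun v _ => ClB_sum_nbin _ _)
    linarith
  refine le_trans (Finset.sum_le_sum f1) ?_
  rw [Finset.sum_add_distrib, ← Finset.mul_sum, ← EE_sum]
  have f2 : EE G k x (fun v => ∑ c ∈ Icc (p + 2) (p + S),
      ∑ w ∈ sA G (st G v p), x w * wt x (nbin G (sA G (st G v c)) w)) ≤ extI G k x p := by
    unfold extI
    refine EE_mono hx (fun v _ => ?_)
    rw [Finset.sum_comm]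
    refine Finset.sum_le_sum (fun w _ => ?_)
    rw [← Finset.mul_sum]
    refine mul_le_mul_of_nonneg_left ?_ (hx w)
    have hdisj : (Icc (p + 2) (p + S) : Set ℕ).PairwiseDisjoint
        (fun c => nbin G (sA G (st G v c)) w) := by
      intro c hc c' hc' hne
      have hc1 : p + 2 ≤ c := (Finset.mem_Icc.1 (Finset.mem_coe.1 hc)).1
      have hc1' : p + 2 ≤ c' := (Finset.mem_Icc.1 (Finset.mem_coe.1 hc')).1
      refine Finset.disjoint_left.2 (fun z hz hz' => ?_)
      unfold nbin at hz hz'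
      rw [Finset.mem_filter, mem_sA_st v (by omega)] at hz hz'
      rcases Nat.lt_or_gt_of_ne hne with hlt | hlt
      · exact hz'.1.2 (c - 1) (by omega) hz.1.1
      · exact hz.1.2 (c' - 1) (by omega) hz'.1.1
    have hsum : ∑ c ∈ Icc (p + 2) (p + S), wt x (nbin G (sA G (st G v c)) w) =
        wt x ((Icc (p + 2) (p + S)).biUnion (fun c => nbin G (sA G (st G v c)) w)) := by
      unfold wt
      rw [Finset.sum_biUnion (by exact_mod_cast hdisj)]
    rw [hsum]
    refine ClB_wt_mono h ?_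
    intro z hz
    rw [Finset.mem_biUnion] at hz
    obtain ⟨c, hc, hz⟩ := hz
    rw [Finset.mem_Icc] at hc
    unfold nbin at hz
    rw [Finset.mem_filter, mem_sA_st v (by omega)] at hz
    unfold nnin
    rw [Finset.mem_filter]
    refine ⟨?_, hz.1.2 p (by omega)⟩
    unfold sN
    rw [Finset.mem_filter]
    refine ⟨?_, hz.2⟩
    show z ∈ up G (st G v p)
    rw [mem_up_st v (by omega)]
    intro i hi hip
    exact hz.1.2 i (by omega)
  have f3 : EE G k x (fun v => ∑ c ∈ Icc (p + 2) (p + S),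
      (fun v => ∑ w ∈ sA G (st G v p), x w * wt x (nbin G (sA G (st G v c)) w)) v) =
      EE G k x (fun v => ∑ c ∈ Icc (p + 2) (p + S),
      ∑ w ∈ sA G (st G v p), x w * wt x (nbin G (sA G (st G v c)) w)) := rfl
  linarith

theorem clB (hk : 7 ≤ k) (h : Opt G k x) {S p : ℕ} (hS : 3 ≤ S) (hp : 3 ≤ p) (hpS : p + S + 4 ≤ k) :
    EE G k x (fun v => wt x (badA G v S p)) ≤ 2 * extI G k x p + 72 * ee G k x p +
      6 * ee G k x (p + 1) + 6 * ∑ c ∈ Icc (p + 2) (p + S), ee G k x c := by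
  have hx : ∀ v, 0 ≤ x v := fun v => (h.pos v).le
  have h1 := ClB_part1 hk h hp (by omega)
  have h2 := ClB_part2 hk h hp hpS
  have h3 : EE G k x (fun v => wt x (badA G v S p)) ≤
      EE G k x (fun v => ∑ w ∈ sA G (st G v p), x w *
        (if G.Adj w (v ((p + 1 : ℕ) : ZMod k)) then 0 else 1)) +
      EE G k x (fun v => ∑ c ∈ Icc (p + 2) (p + S), ∑ w ∈ sA G (st G v p), x w *
        (if G.Adj w (v (c : ZMod k)) then 1 else 0)) := by
    rw [← EE_add]
    refine EE_mono hx (fun v _ => ?_)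
    rw [Finset.sum_comm, ← Finset.sum_add_distrib]
    unfold wt badA
    rw [Finset.sum_filter]
    refine Finset.sum_le_sum (fun w _ => ?_)
    have hn1 : 0 ≤ x w * (if G.Adj w (v ((p + 1 : ℕ) : ZMod k)) then (0 : ℝ) else 1) := by
      refine mul_nonneg (hx w) ?_
      split_ifs <;> norm_num
    have hn2 : ∀ c ∈ Icc (p + 2) (p + S),
        0 ≤ x w * (if G.Adj w (v (c : ZMod k)) then (1 : ℝ) else 0) := by
      intro c _
      refine mul_nonneg (hx w) ?_
      split_ifs <;> norm_num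
    split_ifs with hbad hadj
    · rcases hbad with hb | ⟨c, hc1, hc2, hc3⟩
      · exact absurd hadj.symm hb
      · have h4 := Finset.single_le_sum hn2 (Finset.mem_Icc.2 ⟨hc1, hc2⟩)
        rw [if_pos hc3.symm, mul_one] at h4
        linarith
    · have h4 := Finset.sum_nonneg hn2
      linarith
    · have h4 := Finset.sum_nonneg hn2
      linarith
    · have h4 := Finset.sum_nonneg hn2
      have h5 := hx w
      linarith
  linarith

end Pool.Agent.Icy
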