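import Pool.Agent.Icy.CycBasic

/-!
# Clone sets

Combinatorics of `Cl v j` (`7 ≤ k`): disjoint; contained in neighbourhoods; `v j ∈ Cl v j`.
`cl_sA`: for `3 ≤ p ≤ k-2`, `Cl v p ⊆ sA (st v p)` and the rest of `sA (st v p)` consists of
non-clones (the trace of a clone of `v j` is `{j-1, j+1}` or with `j`; its first hit from `0` is
`p - 1 ≥ 2` only if `j = p`).
-/

set_option autoImplicit false

open Finset
open scoped Classical

namespace Pool.Agent.Icy

variable {V : Type} [Fintype V] {G : SimpleGraph V} {k : ℕ} [NeZero k] {x : V → ℝ}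

omit [NeZero k] in
private theorem ClBasic_cast_ne {k : ℕ} {a : ℕ} (h0 : 0 < a) (ha : a < k) : (a : ZMod k) ≠ 0 := by
  intro h
  rw [ZMod.natCast_eq_zero_iff] at h
  exact absurd (Nat.le_of_dvd h0 h) (by omega)

private theorem ClBasic_cast_inj {k : ℕ} {a b : ℕ} (ha : a < k) (hb : b < k)
    (h : (a : ZMod k) = (b : ZMod k)) : a = b := by
  rw [ZMod.natCast_eq_natCast_iff] at h
  exact Nat.ModEq.eq_of_lt_of_lt h ha hb

private theorem ClBasic_mem_Cl {v : ZMod k → V} {j : ZMod k} {w : V} :
    w ∈ Cl G v j ↔ ∀ i, i ≠ j → (G.Adj (v i) w ↔ (j = i + 1 ∨ i = j + 1)) := by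
  simp [Cl]

theorem cl_self (hk : 7 ≤ k) {v : ZMod k → V} (hv : v ∈ cyc G k) (j : ZMod k) : v j ∈ Cl G v j := by
  have hv' : IsCyc G k v := by simpa [cyc] using hv
  rw [ClBasic_mem_Cl]
  intro i _
  exact hv' i j

theorem cl_adj (hk : 7 ≤ k) (v : ZMod k → V) {j : ZMod k} {w : V} (hw : w ∈ Cl G v j) :
    G.Adj (v (j + 1)) w ∧ G.Adj (v (j - 1)) w := by
  rw [ClBasic_mem_Cl] at hw
  have h1 : (1 : ZMod k) ≠ 0 := by
    have := ClBasic_cast_ne (k := k) (a := 1) (by norm_num) (by omega)
    simpa using this
  refine ⟨(hw (j + 1) ?_).2 (Or.inr rfl), (hw (j - 1) ?_).2 (Or.inl (by ring))⟩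
  · intro h; exact h1 (by simpa using h)
  · intro h; exact h1 (by simpa using h)

theorem cl_disj (hk : 7 ≤ k) (v : ZMod k → V) {i j : ZMod k} (hij : i ≠ j) :
    Disjoint (Cl G v i) (Cl G v j) := by
  rw [Finset.disjoint_left]
  intro w hi hj
  have ai := cl_adj hk v hi
  rw [ClBasic_mem_Cl] at hj
  have h2 : (2 : ZMod k) ≠ 0 := by
    have := ClBasic_cast_ne (k := k) (a := 2) (by norm_num) (by omega)
    simpa using this
  have h3 : (3 : ZMod k) ≠ 0 := by
    have := ClBasic_cast_ne (k := k) (a := 3) (by norm_num) (by omega)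
    simpa using this
  have h4 : (4 : ZMod k) ≠ 0 := by
    have := ClBasic_cast_ne (k := k) (a := 4) (by norm_num) (by omega)
    simpa using this
  have e1 : j = i + 1 ∨ j = i + 2 := by
    by_cases h : i + 1 = j
    · exact Or.inl h.symm
    · rcases (hj (i + 1) h).1 ai.1 with h' | h'
      · right; rw [h']; ring
      · exact absurd (add_right_cancel h') hij
  have e2 : j = i - 1 ∨ j = i - 2 := by
    by_cases h : i - 1 = j
    · exact Or.inl h.symm
    · rcases (hj (i - 1) h).1 ai.2 with h' | h'
      · exact absurd (by rw [h']; ring) hij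
      · right
        have : j = i - 1 - 1 := by rw [h']; ring
        rw [this]; ring
  rcases e1 with e1 | e1 <;> rcases e2 with e2 | e2
  · apply h2; linear_combination e1 * (-1) + e2
  · apply h3; linear_combination e1 * (-1) + e2
  · apply h3; linear_combination e1 * (-1) + e2
  · apply h4; linear_combination e1 * (-1) + e2

theorem nc_mem (v : ZMod k → V) (w : V) : w ∈ NC G v ↔ ∀ j, w ∉ Cl G v j := by
  simp [NC]

theorem cl_sA (hk : 7 ≤ k) (v : ZMod k → V) {p : ℕ} (hp : 3 ≤ p) (hpk : p + 2 ≤ k) :
    Cl G v (p : ZMod k) ⊆ sA G (st G v p) ∧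
      ∀ w ∈ sA G (st G v p), w ∉ Cl G v (p : ZMod k) → w ∈ NC G v := by
  constructor
  · intro w hw
    rw [ClBasic_mem_Cl] at hw
    rw [mem_sA_st v (by omega)]
    constructor
    · refine (hw _ ?_).2 (Or.inl ?_)
      · intro h
        have := ClBasic_cast_inj (by omega) (by omega) h
        omega
      · have : p = (p - 1) + 1 := by omega
        rw [this]; push_cast; simp
    · intro i hi hadj
      have hne : (i : ZMod k) ≠ (p : ZMod k) := by
        intro h
        have := ClBasic_cast_inj (by omega) (by omega) h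
        omega
      rcases (hw _ hne).1 hadj with h | h
      · have h' : ((p : ℕ) : ZMod k) = ((i + 1 : ℕ) : ZMod k) := by rw [h]; push_cast; rfl
        have := ClBasic_cast_inj (by omega) (by omega) h'
        omega
      · have h' : ((i : ℕ) : ZMod k) = ((p + 1 : ℕ) : ZMod k) := by rw [h]; push_cast; rfl
        have := ClBasic_cast_inj (by omega) (by omega) h'
        omega
  · intro w hw hnp
    rw [nc_mem]
    intro j hj
    rw [mem_sA_st v (by omega)] at hw
    obtain ⟨hw1, hw2⟩ := hw
    have hadj := cl_adj hk v hj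
    have hjp : j ≠ (p : ZMod k) := by
      rintro rfl
      exact hnp hj
    by_cases h : ((p - 1 : ℕ) : ZMod k) = j
    · have : j - 1 = ((p - 2 : ℕ) : ZMod k) := by
        rw [← h]
        have e : p - 1 = (p - 2) + 1 := by omega
        rw [e]; push_cast; ring
      rw [this] at hadj
      exact hw2 (p - 2) (by omega) hadj.2
    · rw [ClBasic_mem_Cl] at hj
      rcases (hj _ h).1 hw1 with h' | h'
      · apply hjp
        rw [h']
        have e : p = (p - 1) + 1 := by omega
        conv_rhs => rw [e]
        push_cast; rfl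
      · have : j - 1 = ((p - 3 : ℕ) : ZMod k) := by
          have e : p - 1 = (p - 3) + 2 := by omega
          rw [e] at h'
          push_cast at h'
          linear_combination (-1 : ZMod k) * h'
        rw [this] at hadj
        exact hw2 (p - 3) (by omega) hadj.2

/-- replacing `v j` by a clone -/
theorem cl_update (hk : 7 ≤ k) {v : ZMod k → V} (hv : v ∈ cyc G k) {j : ZMod k} {u : V}
    (hu : u ∈ Cl G v j) : Function.update v j u ∈ cyc G k ∧
      v j ∈ Cl G (Function.update v j u) j := by
  have hv' : IsCyc G k v := by simpa [cyc] using hv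
  have h1 : (1 : ZMod k) ≠ 0 := by
    have := ClBasic_cast_ne (k := k) (a := 1) (by norm_num) (by omega)
    simpa using this
  rw [ClBasic_mem_Cl] at hu
  constructor
  · have : IsCyc G k (Function.update v j u) := by
      intro a b
      by_cases ha : a = j
      · subst ha
        by_cases hb : b = a
        · subst hb
          simp [h1]
        · rw [Function.update_self, Function.update_of_ne hb, G.adj_comm, hu b hb, or_comm]
      · by_cases hb : b = j
        · subst hb
          rw [Function.update_self, Function.update_of_ne ha, hu a ha]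
        · rw [Function.update_of_ne ha, Function.update_of_ne hb]
          exact hv' a b
    simpa [cyc] using this
  · rw [ClBasic_mem_Cl]
    intro i hi
    rw [Function.update_of_ne hi]
    exact hv' i j

end Pool.Agent.Icy
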