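import Pool.Agent.Icy.Markov

/-!
# Bad ghosts at position `p`
-/

set_option autoImplicit false

open Finset
open scoped Classical

namespace Pool.Agent.Icy

variable {V : Type} [Fintype V]

/-- `w ∈ sA (st v p)` with `w ≁ v (p+1)` or `w ~ v c` for some `p + 2 ≤ c ≤ p + S` -/
noncomputable def badA (G : SimpleGraph V) {k : ℕ} [NeZero k] (v : ZMod k → V) (S p : ℕ) :
    Finset V :=
  (sA G (st G v p)).filter (fun w => ¬ G.Adj (v ((p + 1 : ℕ) : ZMod k)) w ∨
    ∃ c : ℕ, p + 2 ≤ c ∧ c ≤ p + S ∧ G.Adj (v (c : ZMod k)) w)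

end Pool.Agent.Icy
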