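import Pool.Agent.Icy.T4avg
import Pool.Agent.Icy.ClA
import Pool.Agent.Icy.ClB
import Pool.Agent.Icy.ClBasic
import Pool.Agent.Icy.SecMom

/-!
# Clones: conclusion of the first part

(a) Average `clA`, `clB` over `p ∈ Mid = Icc (k/3) (2k/3)` (at least `k/3 - 1` positions): `EE wt NC ≤
EE emp + EE farm + k/|Mid| Σ (2 extI + 78.. ee + 6 S ee)`, all small compared to `k` (`emp_le`,
`far_small`, `t4`, `ee_sum`).  Then `Σ_{w∈NC} x_w |tr|` by `tr_cs`.
(b) Choose `p ∈ [3, k-2]` with `ee p ≤ 4/√k` (`ee_sum`).  `|wt (Cl v p) - 1| ≤ |wt (sA (st v p)) - 1| +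
wt {w ∈ NC v : w ~ v (p-1)}` (`cl_sA`), and by rotation `k EE wt {w ∈ NC v : w ~ v i} =
EE Σ_{w∈NC v} x_w |tr v w|`.  Rotation invariance gives all `j`.
(c) `ncv`: the weight of the non-clones adjacent to `v i`.
-/

set_option autoImplicit false

open Finset
open scoped Classical

namespace Pool.Agent.Icy

section rot

variable {V : Type} [Fintype V] {G : SimpleGraph V} {k : ℕ} [NeZero k] {x : V → ℝ}

private theorem Clones_rotCl (v : ZMod k → V) (t j : ZMod k) :
    Cl G (fun i => v (i + t)) j = Cl G v (j + t) := by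
  ext w
  simp only [Cl, mem_filter, mem_univ, true_and]
  constructor
  · intro h i hi
    have h1 := h (i - t) (fun h2 => hi (by rw [← h2]; ring))
    rw [sub_add_cancel] at h1
    rw [h1]
    constructor
    · rintro (h2 | h2)
      · left; rw [h2]; ring
      · right
        have : i = (i - t) + t := by ring
        rw [this, h2]; ring
    · rintro (h2 | h2)
      · left
        have : j = (j + t) - t := by ring
        rw [this, h2]; ring
      · right; rw [h2]; ring
  · intro h i hi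
    have h1 := h (i + t) (fun h2 => hi (add_right_cancel h2))
    rw [h1]
    constructor
    · rintro (h2 | h2)
      · left
        have : j = (j + t) - t := by ring
        rw [this, h2]; ring
      · right
        have : i = (i + t) - t := by ring
        rw [this, h2]; ring
    · rintro (h2 | h2)
      · left; rw [h2]; ring
      · right; rw [h2]; ring

private theorem Clones_rotNC (v : ZMod k → V) (t : ZMod k) :
    NC G (fun i => v (i + t)) = NC G v := by
  ext w
  rw [nc_mem, nc_mem]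
  constructor
  · intro h j
    have := h (j - t)
    rwa [Clones_rotCl, sub_add_cancel] at this
  · intro h j
    rw [Clones_rotCl]
    exact h _

/-- the weight of the non-clones adjacent to `v i`, in the mean -/
private theorem Clones_nci (i : ZMod k) :
    (k : ℝ) * EE G k x (fun v => wt x ((NC G v).filter (fun w => G.Adj (v i) w))) =
      EE G k x (fun v => ∑ w ∈ NC G v, x w * ((tr G v w).card : ℝ)) := by
  rw [EE_avg]
  apply EE_congr
  intro v _
  have h1 : ∀ t : ZMod k, wt x ((NC G (fun i => v (i + t))).filter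
      (fun w => G.Adj (v (i + t)) w)) =
      ∑ w ∈ NC G v, x w * (if G.Adj (v (i + t)) w then (1 : ℝ) else 0) := by
    intro t
    rw [Clones_rotNC]
    unfold wt
    rw [Finset.sum_filter]
    apply Finset.sum_congr rfl
    intro w _
    split_ifs <;> simp
  have h2 : ∀ t : ZMod k, wt x (filter (fun w => G.Adj ((fun i => v (i + t)) i) w)
      (NC G (fun i => v (i + t)))) =
      ∑ w ∈ NC G v, x w * (if G.Adj (v (i + t)) w then (1 : ℝ) else 0) := h1
  rw [Finset.sum_congr rfl (fun t _ => h2 t), Finset.sum_comm]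
  apply Finset.sum_congr rfl
  intro w _
  rw [← Finset.mul_sum]
  congr 1
  have h3 := Equiv.sum_comp (Equiv.addLeft i) (fun s => if G.Adj (v s) w then (1 : ℝ) else 0)
  simp only [Equiv.coe_addLeft] at h3
  refine Eq.trans h3 ?_
  rw [Finset.sum_ite, Finset.sum_const_zero, add_zero, Finset.sum_const, nsmul_eq_mul, mul_one]
  rfl

omit [Fintype V] in
private theorem Clones_wt_mono (hx : ∀ v, 0 ≤ x v) {S T : Finset V} (h : S ⊆ T) :
    wt x S ≤ wt x T := by
  unfold wt
  exact Finset.sum_le_sum_of_subset_of_nonneg h (fun i _ _ => hx i)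

private theorem Clones_pt (hk : 7 ≤ k) (hx : ∀ v, 0 ≤ x v) (v : ZMod k → V) {p : ℕ} (hp : 3 ≤ p)
    (hpk : p + 2 ≤ k) : |wt x (Cl G v (p : ZMod k)) - 1| ≤ |wt x (sA G (st G v p)) - 1| +
      wt x ((NC G v).filter (fun w => G.Adj (v ((p - 1 : ℕ) : ZMod k)) w)) := by
  obtain ⟨h1, h2⟩ := cl_sA (G := G) hk v hp hpk
  have h3 : wt x (sA G (st G v p)) = wt x (Cl G v (p : ZMod k)) +
      wt x (sA G (st G v p) \ Cl G v (p : ZMod k)) := by
    unfold wt
    rw [add_comm, Finset.sum_sdiff h1]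
  have h4 : sA G (st G v p) \ Cl G v (p : ZMod k) ⊆
      (NC G v).filter (fun w => G.Adj (v ((p - 1 : ℕ) : ZMod k)) w) := by
    intro w hw
    rw [mem_sdiff] at hw
    rw [mem_filter]
    refine ⟨h2 w hw.1 hw.2, ?_⟩
    have := hw.1
    rw [mem_sA_st v (by omega)] at this
    exact this.1
  have h5 := Clones_wt_mono hx h4
  have h6 : 0 ≤ wt x (sA G (st G v p) \ Cl G v (p : ZMod k)) :=
    Finset.sum_nonneg (fun i _ => hx i)
  have h7 : wt x (Cl G v (p : ZMod k)) - 1 = (wt x (sA G (st G v p)) - 1) -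
      wt x (sA G (st G v p) \ Cl G v (p : ZMod k)) := by linarith
  rw [h7]
  refine (abs_sub _ _).trans ?_
  rw [abs_of_nonneg h6]
  linarith

private theorem Clones_ee_shift (hk : 7 ≤ k) (h : Opt G k x) {a b i : ℕ} (ha : 3 ≤ a + i)
    (hb : b + i + 2 ≤ k) : ∑ p ∈ Icc a b, ee G k x (p + i) ≤ 3 * Real.sqrt k := by
  have hx : ∀ v, 0 ≤ x v := fun v => (h.pos v).le
  refine le_trans ?_ (ee_sum hk h)
  have h1 : ∑ p ∈ Icc a b, ee G k x (p + i) = ∑ q ∈ (Icc a b).map (addRightEmbedding i), ee G k x q := by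
    rw [Finset.sum_map]
    rfl
  rw [h1]
  apply Finset.sum_le_sum_of_subset_of_nonneg
  · intro q hq
    rw [mem_map] at hq
    obtain ⟨p, hp, rfl⟩ := hq
    rw [mem_Icc] at hp ⊢
    simp only [addRightEmbedding_apply]
    omega
  · intro q _ _
    exact ee_nonneg hx q

/-- `EE wt NC`, with explicit error -/
private theorem Clones_nc (h : Opt G k x) {S : ℕ} (hS : 4 ≤ S) (hkS : 3 * (S + 5) ≤ k)
    {η₁ η₂ : ℝ} (hfar : EE G k x (farm G x S) ≤ η₁ * k)
    (ht4 : ∑ p ∈ Icc (k / 3) (2 * k / 3), extI G k x p ≤ η₂ * k) :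
    EE G k x (fun v => wt x (NC G v)) ≤ 1 + η₁ * k + 6 * η₂ * k + 9 * (78 + 6 * S) * Real.sqrt k := by
  have hx : ∀ v, 0 ≤ x v := fun v => (h.pos v).le
  have hk : 7 ≤ k := by omega
  set m := EE G k x (fun v => wt x (NC G v)) with hm
  set M := Icc (k / 3) (2 * k / 3) with hM
  have hkr : (0 : ℝ) < k := Nat.cast_pos.2 (by omega)
  have hpt : ∀ p ∈ M, m ≤ 1 + η₁ * k + k * (2 * extI G k x p + 72 * ee G k x p +
      6 * ee G k x (p + 1) + 6 * ∑ c ∈ Icc (p + 2) (p + S), ee G k x c) := by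
    intro p hp
    rw [hM, mem_Icc] at hp
    have h1 := clA (G := G) (x := x) hk h (S := S) (p := p) (by omega) (by omega) (by omega)
    have h2 := clB (G := G) (x := x) hk h (S := S) (p := p) (by omega) (by omega) (by omega)
    have h3 := emp_le (G := G) (x := x) hk h
    have h4 := mul_le_mul_of_nonneg_left h2 hkr.le
    linarith
  have hsum := Finset.sum_le_sum hpt
  rw [Finset.sum_const, nsmul_eq_mul, Finset.sum_add_distrib, Finset.sum_const, nsmul_eq_mul,
    ← Finset.mul_sum, Finset.sum_add_distrib, Finset.sum_add_distrib, Finset.sum_add_distrib,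
    ← Finset.mul_sum, ← Finset.mul_sum, ← Finset.mul_sum, ← Finset.mul_sum] at hsum
  have hs1 : ∑ p ∈ M, ee G k x p ≤ 3 * Real.sqrt k := by
    have := Clones_ee_shift (G := G) (x := x) hk h (a := k / 3) (b := 2 * k / 3) (i := 0)
      (by omega) (by omega)
    simpa using this
  have hs2 : ∑ p ∈ M, ee G k x (p + 1) ≤ 3 * Real.sqrt k :=
    Clones_ee_shift (G := G) (x := x) hk h (a := k / 3) (b := 2 * k / 3) (i := 1)
      (by omega) (by omega)
  have hs3 : ∑ p ∈ M, ∑ c ∈ Icc (p + 2) (p + S), ee G k x c ≤ S * (3 * Real.sqrt k) := by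
    have h1 : ∀ p ∈ M, ∑ c ∈ Icc (p + 2) (p + S), ee G k x c =
        ∑ i ∈ Icc 2 S, ee G k x (p + i) := by
      intro p _
      have h2 : Icc (p + 2) (p + S) = (Icc 2 S).map (addLeftEmbedding p) := by
        rw [Finset.map_add_left_Icc]
      rw [h2, Finset.sum_map]
      rfl
    rw [Finset.sum_congr rfl h1, Finset.sum_comm]
    have h3 : ∀ i ∈ Icc 2 S, ∑ p ∈ M, ee G k x (p + i) ≤ 3 * Real.sqrt k := by
      intro i hi
      rw [mem_Icc] at hi
      exact Clones_ee_shift (G := G) (x := x) hk h (by omega) (by omega)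
    refine (Finset.sum_le_sum h3).trans ?_
    rw [Finset.sum_const, nsmul_eq_mul, Nat.card_Icc]
    have h4 : ((S + 1 - 2 : ℕ) : ℝ) ≤ S := by
      have : S + 1 - 2 ≤ S := by omega
      exact_mod_cast this
    have h5 : 0 ≤ 3 * Real.sqrt k := by positivity
    exact mul_le_mul_of_nonneg_right h4 h5
  have hcard : (k : ℝ) ≤ 3 * (M.card : ℝ) := by
    rw [hM, Nat.card_Icc]
    have : k ≤ 3 * (2 * k / 3 + 1 - k / 3) := by omega
    exact_mod_cast this
  have hMpos : (0 : ℝ) < M.card := by linarith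
  have h6 : (M.card : ℝ) * m ≤ M.card * (1 + η₁ * k) + k * (2 * (η₂ * k) + (78 + 6 * S) *
      (3 * Real.sqrt k)) := by
    refine hsum.trans ?_
    have h7 : 2 * ∑ i ∈ M, extI G k x i + 72 * ∑ i ∈ M, ee G k x i +
        6 * ∑ i ∈ M, ee G k x (i + 1) + 6 * ∑ i ∈ M, ∑ c ∈ Icc (i + 2) (i + S), ee G k x c ≤
        2 * (η₂ * k) + (78 + 6 * S) * (3 * Real.sqrt k) := by
      linarith
    have h8 := mul_le_mul_of_nonneg_left h7 hkr.le
    linarith
  -- divide
  have hE : 0 ≤ m := EE_nonneg hx (fun v _ => Finset.sum_nonneg (fun i _ => hx i))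
  have h7 : 0 ≤ 2 * (η₂ * k) + (78 + 6 * S) * (3 * Real.sqrt k) := by
    by_contra hneg
    push Not at hneg
    -- then `extI` sum negative : impossible
    have h8 : 0 ≤ ∑ p ∈ M, extI G k x p := by
      apply Finset.sum_nonneg
      intro p _
      unfold extI
      apply EE_nonneg hx
      intro v _
      apply Finset.sum_nonneg
      intro w _
      exact mul_nonneg (hx w) (Finset.sum_nonneg (fun i _ => hx i))
    have h9 : 0 ≤ (78 + 6 * (S : ℝ)) * (3 * Real.sqrt k) := by positivity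
    linarith
  have h8 : (k : ℝ) * (2 * (η₂ * k) + (78 + 6 * S) * (3 * Real.sqrt k)) ≤
      3 * M.card * (2 * (η₂ * k) + (78 + 6 * S) * (3 * Real.sqrt k)) :=
    mul_le_mul_of_nonneg_right hcard h7
  have h9 : (M.card : ℝ) * m ≤ M.card * (1 + η₁ * k + 3 * (2 * (η₂ * k) + (78 + 6 * S) *
      (3 * Real.sqrt k))) := by
    linarith
  have h10 := le_of_mul_le_mul_left h9 hMpos
  linarith

end rot

theorem clones (η : ℝ) (hη : 0 < η) : ∃ k₀ : ℕ, ∀ (V : Type) [Fintype V] (G : SimpleGraph V)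
    (k : ℕ) [NeZero k] (x : V → ℝ), k₀ ≤ k → Opt G k x →
    EE G k x (fun v => ∑ w ∈ NC G v, x w * (1 + ((tr G v w).card : ℝ))) ≤ η * k ∧
    (∀ j, EE G k x (fun v => |wt x (Cl G v j) - 1|) ≤ η) ∧
    (∀ i, EE G k x (fun v => wt x ((NC G v).filter (fun w => G.Adj (v i) w))) ≤ η) := by
  set η₃ : ℝ := min (η / 4) (η ^ 2 / (16 * 273)) with hη₃
  have hη₃p : 0 < η₃ := by
    apply lt_min <;> positivity
  obtain ⟨S, k₁, hS, hfar⟩ := far_small (η₃ / 4) (by positivity)
  obtain ⟨k₂, ht4⟩ := t4 (η₃ / 24) (by positivity)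
  set B : ℝ := 9 * (78 + 6 * S) with hB
  have hBp : 0 ≤ B := by rw [hB]; positivity
  obtain ⟨K, hK⟩ := exists_nat_ge (max (((B + 1) * (2 / η₃)) ^ 2) ((12 / η) ^ 2))
  refine ⟨max (max k₁ k₂) (max (3 * (S + 5)) (max K 100)), ?_⟩
  intro V _ G k _ x hk h
  have hx : ∀ v, 0 ≤ x v := fun v => (h.pos v).le
  have hk1 : k₁ ≤ k := le_trans (le_trans (le_max_left _ _) (le_max_left _ _)) hk
  have hk2 : k₂ ≤ k := le_trans (le_trans (le_max_right _ _) (le_max_left _ _)) hk
  have hk3 : max (3 * (S + 5)) (max K 100) ≤ k := le_trans (le_max_right _ _) hk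
  have hkS : 3 * (S + 5) ≤ k := le_trans (le_max_left _ _) hk3
  have hkK : K ≤ k := le_trans (le_trans (le_max_left _ _) (le_max_right _ _)) hk3
  have hk100 : 100 ≤ k := le_trans (le_trans (le_max_right _ _) (le_max_right _ _)) hk3
  have hk7 : 7 ≤ k := by omega
  have hkr : (0 : ℝ) < k := Nat.cast_pos.2 (by omega)
  have hKk : max (((B + 1) * (2 / η₃)) ^ 2) ((12 / η) ^ 2) ≤ (k : ℝ) :=
    hK.trans (Nat.cast_le.2 hkK)
  have hsq1 : (B + 1) * (2 / η₃) ≤ Real.sqrt k :=
    Real.le_sqrt_of_sq_le ((le_max_left _ _).trans hKk)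
  have hsq2 : 12 / η ≤ Real.sqrt k := Real.le_sqrt_of_sq_le ((le_max_right _ _).trans hKk)
  have hsq : Real.sqrt k * Real.sqrt k = k := Real.mul_self_sqrt hkr.le
  have hsq0 : 1 ≤ Real.sqrt k := by
    rw [Real.one_le_sqrt]
    have : 1 ≤ k := by omega
    exact_mod_cast this
  -- the mean weight of the non-clones
  have hnc := Clones_nc h hS hkS (hfar V G k x hk1 h) (ht4 V G k x hk2 h)
  set m := EE G k x (fun v => wt x (NC G v)) with hm
  have hm0 : 0 ≤ m := EE_nonneg hx (fun v _ => Finset.sum_nonneg (fun i _ => hx i))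
  have hm3 : m ≤ η₃ * k := by
    have h1 : (B + 1) * Real.sqrt k ≤ η₃ / 2 * k := by
      have h2 : (B + 1) * (2 / η₃) * (η₃ / 2) = B + 1 := by
        field_simp
      have h3 : B + 1 ≤ Real.sqrt k * (η₃ / 2) := by
        rw [← h2]
        exact mul_le_mul_of_nonneg_right hsq1 (by positivity)
      calc (B + 1) * Real.sqrt k ≤ (Real.sqrt k * (η₃ / 2)) * Real.sqrt k := by gcongr
        _ = η₃ / 2 * (Real.sqrt k * Real.sqrt k) := by ring
        _ = η₃ / 2 * k := by rw [hsq]
    have h2 : 1 + B * Real.sqrt k ≤ (B + 1) * Real.sqrt k := by linarith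
    have h3 : 9 * (78 + 6 * (S : ℝ)) * Real.sqrt k = B * Real.sqrt k := by rw [hB]
    have h4 : (0 : ℝ) ≤ η₃ * k := by positivity
    linarith
  have hcs := tr_cs (G := G) (x := x) hk7 h (fun v => NC G v)
  have hsqrt : Real.sqrt (273 * k * m) ≤ η / 4 * k := by
    apply Real.sqrt_le_iff.2
    refine ⟨by positivity, ?_⟩
    have h1 : η₃ ≤ η ^ 2 / (16 * 273) := min_le_right _ _
    have h2 : m ≤ η ^ 2 / (16 * 273) * k := hm3.trans (by gcongr)
    calc 273 * k * m ≤ 273 * k * (η ^ 2 / (16 * 273) * k) := by gcongr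
      _ = (η / 4 * k) ^ 2 := by ring
  have htr : EE G k x (fun v => ∑ w ∈ NC G v, x w * ((tr G v w).card : ℝ)) ≤ η / 4 * k :=
    hcs.trans hsqrt
  have hnci : ∀ i, EE G k x (fun v => wt x ((NC G v).filter (fun w => G.Adj (v i) w))) ≤ η / 4 := by
    intro i
    have h1 := Clones_nci (G := G) (x := x) (k := k) i
    rw [← h1, mul_comm (η / 4)] at htr
    exact le_of_mul_le_mul_left htr hkr
  refine ⟨?_, ?_, fun i => (hnci i).trans (by linarith)⟩
  · have h1 : EE G k x (fun v => ∑ w ∈ NC G v, x w * (1 + ((tr G v w).card : ℝ))) =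
        m + EE G k x (fun v => ∑ w ∈ NC G v, x w * ((tr G v w).card : ℝ)) := by
      rw [hm, ← EE_add]
      apply EE_congr
      intro v _
      unfold wt
      rw [← Finset.sum_add_distrib]
      apply Finset.sum_congr rfl
      intro w _
      ring
    rw [h1]
    have h2 : η₃ ≤ η / 4 := min_le_left _ _
    have h3 : m ≤ η / 4 * k := hm3.trans (by gcongr)
    have h4 : 0 ≤ η * k := by positivity
    linarith
  · -- choose `p`
    obtain ⟨p, hp, hpe⟩ : ∃ p ∈ Icc 3 (k - 2), ee G k x p ≤ η / 2 := by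
      by_contra hcon
      push Not at hcon
      have h1 := ee_sum (G := G) (x := x) hk7 h
      have h2 : ∑ p ∈ Icc 3 (k - 2), (η / 2) ≤ ∑ p ∈ Icc 3 (k - 2), ee G k x p :=
        Finset.sum_le_sum (fun p hp => (hcon p hp).le)
      rw [Finset.sum_const, nsmul_eq_mul, Nat.card_Icc] at h2
      have h3 : (k : ℝ) / 2 + 1 ≤ ((k - 2 + 1 - 3 : ℕ) : ℝ) := by
        have h4 : k + 2 ≤ 2 * (k - 2 + 1 - 3) := by omega
        have h5 : (k : ℝ) + 2 ≤ 2 * ((k - 2 + 1 - 3 : ℕ) : ℝ) := by exact_mod_cast h4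
        linarith
      have h4 : ((k : ℝ) / 2 + 1) * (η / 2) ≤ 3 * Real.sqrt k :=
        ((mul_le_mul_of_nonneg_right h3 (by positivity)).trans h2).trans h1
      have h5 : 12 ≤ Real.sqrt k * η := by
        rwa [div_le_iff₀ hη] at hsq2
      have h6 : 12 * Real.sqrt k ≤ k * η := by
        calc 12 * Real.sqrt k ≤ (Real.sqrt k * η) * Real.sqrt k := by gcongr
          _ = (Real.sqrt k * Real.sqrt k) * η := by ring
          _ = k * η := by rw [hsq]
      have h7 : ((k : ℝ) / 2 + 1) * (η / 2) = (k * η) / 4 + η / 2 := by ring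
      rw [h7] at h4
      linarith
    rw [mem_Icc] at hp
    have h1 : EE G k x (fun v => |wt x (Cl G v (p : ZMod k)) - 1|) ≤ η := by
      have h2 : EE G k x (fun v => |wt x (Cl G v (p : ZMod k)) - 1|) ≤
          EE G k x (fun v => |wt x (sA G (st G v p)) - 1| +
            wt x ((NC G v).filter (fun w => G.Adj (v ((p - 1 : ℕ) : ZMod k)) w))) :=
        EE_mono hx (fun v _ => Clones_pt hk7 hx v hp.1 (by omega))
      rw [EE_add] at h2
      have h3 := sA_dev (G := G) (x := x) hk7 h (p := p) (by omega) (by omega)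
      have h4 := hnci ((p - 1 : ℕ) : ZMod k)
      linarith
    intro j
    have h2 := EE_rot (G := G) (k := k) (x := x) (j - (p : ZMod k))
      (fun v => |wt x (Cl G v (p : ZMod k)) - 1|)
    have h3 : (fun v : ZMod k → V => |wt x (Cl G (fun i => v (i + (j - (p : ZMod k)))) (p : ZMod k)) - 1|) =
        fun v => |wt x (Cl G v j) - 1| := by
      funext v
      rw [Clones_rotCl, add_sub_cancel]
    rw [h3] at h2
    rw [h2]
    exact h1

end Pool.Agent.Icy
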