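import Pool.Agent.Icy.Defs
import Pool.Agent.H68.Ind.Basic

/-!
# From weights to copies

For `G` on `n ≥ 1` vertices put `x v = k/n`.  Every copy of `C_k` in `G` (a `k`-set) carries at least `2k`
labelled induced cycles `ZMod k → V` (rotations and reflections of one labelling, pairwise different for
`k ≥ 3`), and different copies carry different ones.  So `2k · copies · (k/n)^k ≤ NN G k (k/n)`.
-/

set_option autoImplicit false

open Finset
open scoped Classical

namespace Pool.Agent.Icy

open Pool.Agent.H68.Ind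

private theorem CopyLe_adj {m : ℕ} (a b : Fin (m + 5)) :
    (SimpleGraph.cycleGraph (m + 5)).Adj a b ↔ (a - b = 1 ∨ b - a = 1) := by
  have h1 : SimpleGraph.cycleGraph (m + 5) = SimpleGraph.circulantGraph {1} :=
    SimpleGraph.cycleGraph_eq_circulantGraph (m + 4)
  rw [h1, SimpleGraph.circulantGraph_adj]
  simp only [Set.mem_singleton_iff]
  constructor
  · exact fun h => h.2
  · intro h
    refine ⟨?_, h⟩
    rintro rfl
    have h01 : (0 : Fin (m + 5)) ≠ 1 := by
      intro h0
      have := congrArg Fin.val h0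
      simp at this
    rw [sub_self] at h
    rcases h with h | h <;> exact h01 h

/-- the rotations and reflections -/
private def CopyLe_r {m : ℕ} (t : ZMod (m + 5)) (b : Bool) (i : ZMod (m + 5)) : ZMod (m + 5) :=
  (if b then i else -i) + t

private theorem CopyLe_adj' {m : ℕ} (t : ZMod (m + 5)) (b : Bool) (i j : ZMod (m + 5)) :
    (SimpleGraph.cycleGraph (m + 5)).Adj (CopyLe_r t b i) (CopyLe_r t b j) ↔
      (j = i + 1 ∨ i = j + 1) := by
  refine (CopyLe_adj (CopyLe_r t b i) (CopyLe_r t b j)).trans ?_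
  have h : ∀ a c : ZMod (m + 5), (a - c : ZMod (m + 5)) = 1 ↔ a = c + 1 := by
    intro a c
    rw [sub_eq_iff_eq_add, add_comm 1 c]
  have h1 : ((CopyLe_r t b i - CopyLe_r t b j : ZMod (m + 5)) = 1 ∨
      (CopyLe_r t b j - CopyLe_r t b i : ZMod (m + 5)) = 1) ↔ (j = i + 1 ∨ i = j + 1) := by
    cases b
    · simp only [CopyLe_r, Bool.false_eq_true, if_false]
      have e1 : -i + t - (-j + t) = j - i := by ring
      have e2 : -j + t - (-i + t) = i - j := by ring
      rw [e1, e2, h, h]
    · simp only [CopyLe_r, if_true]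
      have e1 : i + t - (j + t) = i - j := by ring
      have e2 : j + t - (i + t) = j - i := by ring
      rw [e1, e2, h, h]
      exact or_comm
  exact h1

private theorem CopyLe_surj {m : ℕ} (t : ZMod (m + 5)) (b : Bool) :
    Function.Surjective (CopyLe_r t b) := by
  intro a
  cases b
  · refine ⟨-(a - t), ?_⟩
    simp [CopyLe_r]
  · refine ⟨a - t, ?_⟩
    simp [CopyLe_r]

private theorem CopyLe_inj {m : ℕ} {t t' : ZMod (m + 5)} {b b' : Bool}
    (h : ∀ i, CopyLe_r t b i = CopyLe_r t' b' i) : t = t' ∧ b = b' := by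
  have h0 := h 0
  have h1 := h 1
  have ht : t = t' := by
    cases b <;> cases b' <;> simpa [CopyLe_r] using h0
  refine ⟨ht, ?_⟩
  have h2 : (2 : ZMod (m + 5)) ≠ 0 := by
    intro h3
    have h4 : ((2 : ℕ) : ZMod (m + 5)) = 0 := by exact_mod_cast h3
    rw [ZMod.natCast_eq_zero_iff] at h4
    have := Nat.le_of_dvd (by norm_num) h4
    omega
  subst ht
  cases b <;> cases b'
  · rfl
  · exfalso
    simp only [CopyLe_r, Bool.false_eq_true, if_false, if_true] at h1
    apply h2
    have h5 := add_right_cancel h1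
    have h6 : (2 : ZMod (m + 5)) = 1 - (-1) := by ring
    rw [h6, h5, sub_self]
  · exfalso
    simp only [CopyLe_r, Bool.false_eq_true, if_false, if_true] at h1
    apply h2
    have h5 := add_right_cancel h1
    have h6 : (2 : ZMod (m + 5)) = 1 - (-1) := by ring
    rw [h6, ← h5, sub_self]
  · rfl

private theorem CopyLe_card (m : ℕ) {V : Type} [Fintype V] (G : SimpleGraph V) :
    copies (SimpleGraph.cycleGraph (m + 5)) G * ((m + 5) * 2) ≤ (cyc G (m + 5)).card := by
  rw [copies_eq]
  have e1 : (cyc G (m + 5)).card = Nat.card {v // v ∈ cyc G (m + 5)} := by simp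
  have e2 : (m + 5) * 2 = Nat.card (ZMod (m + 5) × Bool) := by
    rw [Nat.card_prod]
    simp
  rw [e1, e2, ← Nat.card_prod]
  have hS : ∀ S : {S : Finset V // IsCopy (SimpleGraph.cycleGraph (m + 5)) G S},
      ∃ φ : SimpleGraph.cycleGraph (m + 5) ↪g G, Set.range φ = (S.1 : Set V) := fun S => S.2
  choose φ hφ using hS
  refine Nat.card_le_card_of_injective
    (fun p : {S : Finset V // IsCopy (SimpleGraph.cycleGraph (m + 5)) G S} ×
      (ZMod (m + 5) × Bool) => (⟨fun i => φ p.1 (CopyLe_r p.2.1 p.2.2 i), ?_⟩ :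
        {v // v ∈ cyc G (m + 5)})) ?_
  · rw [cyc, mem_filter]
    refine ⟨mem_univ _, fun i j => ?_⟩
    exact (SimpleGraph.Embedding.map_adj_iff (φ p.1)).trans (CopyLe_adj' _ _ _ _)
  · rintro ⟨S, t, b⟩ ⟨S', t', b'⟩ h
    have h1 : (fun i => φ S (CopyLe_r t b i)) = fun i => φ S' (CopyLe_r t' b' i) :=
      congrArg Subtype.val h
    have hr : ∀ (S : {S : Finset V // IsCopy (SimpleGraph.cycleGraph (m + 5)) G S})
        (t : ZMod (m + 5)) (b : Bool), Set.range (fun i => φ S (CopyLe_r t b i)) =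
        (S.1 : Set V) := by
      intro S t b
      rw [← hφ S]
      exact (CopyLe_surj t b).range_comp (φ S)
    have hSS : S = S' := by
      apply Subtype.ext
      apply Finset.coe_injective
      rw [← hr S t b, ← hr S' t' b', h1]
    subst hSS
    have h2 : ∀ i, CopyLe_r t b i = CopyLe_r t' b' i := fun i =>
      (φ S).injective (congrFun h1 i)
    obtain ⟨h3, h4⟩ := CopyLe_inj h2
    rw [h3, h4]

theorem copies_NN (k : ℕ) [NeZero k] (hk : 5 ≤ k) (n : ℕ) (hn : 1 ≤ n)
    (G : SimpleGraph (Fin n)) :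
    2 * (k : ℝ) * (copies (SimpleGraph.cycleGraph k) G : ℝ) * ((k : ℝ) / n) ^ k ≤
      NN G k (fun _ => (k : ℝ) / n) := by
  obtain ⟨m, rfl⟩ : ∃ m, k = m + 5 := ⟨k - 5, by omega⟩
  have h1 := CopyLe_card m G
  have h2 : NN G (m + 5) (fun _ => ((m + 5 : ℕ) : ℝ) / n) =
      ((cyc G (m + 5)).card : ℝ) * (((m + 5 : ℕ) : ℝ) / n) ^ (m + 5) := by
    unfold NN cw
    simp only [prod_const, card_univ, ZMod.card, sum_const, nsmul_eq_mul]
  rw [h2]
  refine mul_le_mul_of_nonneg_right ?_ (by positivity)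
  have h3 : ((copies (SimpleGraph.cycleGraph (m + 5)) G * ((m + 5) * 2) : ℕ) : ℝ) ≤
      ((cyc G (m + 5)).card : ℝ) := by exact_mod_cast h1
  push_cast at h3 ⊢
  linarith

end Pool.Agent.Icy
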