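import Mathlib

/-!
# Induced cycles in weighted graphs: definitions

`V` finite, `G` a graph on `V`, `x : V → ℝ` weights.  A labelled induced `k`-cycle is a function
`v : ZMod k → V` such that `v i ~ v j` iff `j = i + 1` or `i = j + 1`.
States `⟨a, b, U⟩` describe the end of an induced path `a = v_0, …, v_{p-1} = b`, where `U` is the
set of the vertices which are not adjacent to any of `v_1, …, v_{p-2}`.
-/

set_option autoImplicit false

open Finset
open scoped Classical

namespace Pool.Agent.Icy

variable {V : Type}

/-- weight of a set -/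
noncomputable def wt (x : V → ℝ) (S : Finset V) : ℝ := ∑ v ∈ S, x v

/-- a state -/
structure St (V : Type) where
  a : V
  b : V
  U : Finset V

section graph

variable (G : SimpleGraph V)

/-- vertices of `U` adjacent to `b` -/
noncomputable def sN (s : St V) : Finset V := s.U.filter (fun u => G.Adj s.b u)
/-- vertices of `U` adjacent to `b`, not to `a` : the possible next vertices -/
noncomputable def sA (s : St V) : Finset V := s.U.filter (fun u => G.Adj s.b u ∧ ¬ G.Adj s.a u)
/-- vertices of `U` adjacent to `b` and `a` : the possible last vertices -/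
noncomputable def sB (s : St V) : Finset V := s.U.filter (fun u => G.Adj s.b u ∧ G.Adj s.a u)
/-- vertices of `U` not adjacent to `b` -/
noncomputable def up (s : St V) : Finset V := s.U.filter (fun u => ¬ G.Adj s.b u)
/-- the state after the next vertex `z` -/
noncomputable def step (s : St V) (z : V) : St V := ⟨s.a, z, up G s⟩

/-- weighted number of ways to complete the path by `r` more vertices to an induced cycle -/
noncomputable def cnt (x : V → ℝ) : ℕ → St V → ℝ
  | 0, _ => 1
  | 1, s => wt x (sB G s)
  | (r + 2), s => ∑ z ∈ sA G s, x z * cnt x (r + 1) (step G s z)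

/-- defect of a state with `r` vertices to go: `1 - mm = cnt r s * exp (r - x (U))` -/
noncomputable def mm (x : V → ℝ) (r : ℕ) (s : St V) : ℝ :=
  1 - cnt G x r s * Real.exp ((r : ℝ) - wt x s.U)

/-- neighbours of `y` inside a set -/
noncomputable def nbin (S : Finset V) (y : V) : Finset V := S.filter (fun u => G.Adj y u)
/-- non-neighbours of `y` inside a set -/
noncomputable def nnin (S : Finset V) (y : V) : Finset V := S.filter (fun u => ¬ G.Adj y u)

/-- neighbourhood -/
noncomputable def nb [Fintype V] (y : V) : Finset V := univ.filter (fun u => G.Adj y u)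

/-- labelled induced `k`-cycles -/
def IsCyc (k : ℕ) (v : ZMod k → V) : Prop :=
  ∀ i j, G.Adj (v i) (v j) ↔ (j = i + 1 ∨ i = j + 1)

end graph

section cyc

variable [Fintype V] (G : SimpleGraph V)

noncomputable def cyc (k : ℕ) [NeZero k] : Finset (ZMod k → V) := univ.filter (fun v => IsCyc G k v)

/-- weight of a labelled cycle -/
noncomputable def cw {k : ℕ} [NeZero k] (x : V → ℝ) (v : ZMod k → V) : ℝ := ∏ i, x (v i)

/-- total weight of the labelled induced `k`-cycles (`2 k` times the weight `P` of the unlabelled) -/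
noncomputable def NN (k : ℕ) [NeZero k] (x : V → ℝ) : ℝ := ∑ v ∈ cyc G k, cw x v

/-- expectation for a random labelled induced cycle, with probability proportional to weight -/
noncomputable def EE (k : ℕ) [NeZero k] (x : V → ℝ) (f : (ZMod k → V) → ℝ) : ℝ :=
  (∑ v ∈ cyc G k, cw x v * f v) / NN G k x

/-- the state of the prefix `v 0, …, v (p - 1)`, for `2 ≤ p` -/
noncomputable def st {k : ℕ} (v : ZMod k → V) (p : ℕ) : St V :=
  ⟨v 0, v ((p - 1 : ℕ) : ZMod k),
    univ.filter (fun u => ∀ i : ℕ, 1 ≤ i → i + 1 < p → ¬ G.Adj (v ((i : ℕ) : ZMod k)) u)⟩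

/-- trace of `w` on the cycle `v` -/
noncomputable def tr {k : ℕ} [NeZero k] (v : ZMod k → V) (w : V) : Finset (ZMod k) :=
  univ.filter (fun i => G.Adj (v i) w)

/-- clones of `v j` : `w` is adjacent to the same `v i`, `i ≠ j`, as `v j` -/
noncomputable def Cl {k : ℕ} (v : ZMod k → V) (j : ZMod k) : Finset V :=
  univ.filter (fun w => ∀ i, i ≠ j → (G.Adj (v i) w ↔ (j = i + 1 ∨ i = j + 1)))

/-- non-clones -/
noncomputable def NC {k : ℕ} (v : ZMod k → V) : Finset V :=
  univ.filter (fun w => ∀ j, w ∉ Cl G v j)

/-- optimal weights: positive, total weight `k`, at least `2 k` labelled cycles (`P ≥ 1`), and no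
other weights give more -/
structure Opt (k : ℕ) [NeZero k] (x : V → ℝ) : Prop where
  pos : ∀ v, 0 < x v
  sum : ∑ v, x v = k
  one : 2 * (k : ℝ) ≤ NN G k x
  max : ∀ y : V → ℝ, (∀ v, 0 ≤ y v) → NN G k y ≤ NN G k x * ((∑ v, y v) / k) ^ k

end cyc

end Pool.Agent.Icy
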