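import Pool.Agent.Icy.Rot
import Pool.Agent.Icy.CycBasic

/-!
# O1: the marginals of an optimal `x`

For `t ≥ - x u` let `y = x + t e_u`.  A cycle contains `u` at most once (injectivity), so
`NN y = NN x + t D`, `x u * D = ∑_{v ∈ cyc, u ∈ v} cw x v`.  `max` gives
`NN x + t D ≤ NN x (1 + t/k)^k` for all `t ≥ -x u`; both sides agree at `t = 0`, so the derivatives
agree: `D = NN x`.  So `EE [u ∈ v] = x u`, and by rotation invariance `EE [v i = u] = x u / k`.
-/

set_option autoImplicit false

open Finset
open scoped Classical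

namespace Pool.Agent.Icy

variable {V : Type} [Fintype V] {G : SimpleGraph V} {k : ℕ} [NeZero k] {x : V → ℝ}

theorem O1_inj (hk : 5 ≤ k) {v : ZMod k → V} (hv : v ∈ cyc G k) : Function.Injective v := by
  unfold cyc at hv
  rw [Finset.mem_filter] at hv
  exact cyc_inj hk hv.2

theorem O1_cw_update (hk : 5 ≤ k) {v : ZMod k → V} (hv : v ∈ cyc G k) (x : V → ℝ) (u : V) (t : ℝ)
    (hx : x u ≠ 0) :
    cw (Function.update x u (x u + t)) v =
      cw x v + t * (if ∃ i, v i = u then cw x v / x u else 0) := by
  have hinj : Function.Injective v := O1_inj hk hv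
  by_cases h : ∃ i, v i = u
  · rw [if_pos h]
    obtain ⟨i, hi⟩ := h
    unfold cw
    rw [← Finset.mul_prod_erase univ _ (Finset.mem_univ i),
      ← Finset.mul_prod_erase univ (fun i => x (v i)) (mem_univ i)]
    have : ∏ j ∈ univ.erase i, Function.update x u (x u + t) (v j) =
        ∏ j ∈ univ.erase i, x (v j) := by
      apply Finset.prod_congr rfl
      intro j hj
      rw [Function.update_of_ne]
      rw [← hi]
      exact fun h => (Finset.ne_of_mem_erase hj) (hinj h)
    rw [this, hi, Function.update_self]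
    field_simp
  · rw [if_neg h]
    unfold cw
    rw [mul_zero, add_zero]
    apply Finset.prod_congr rfl
    intro j hj
    rw [Function.update_of_ne]
    exact fun h' => h ⟨j, h'⟩

theorem o1_on (hk : 5 ≤ k) (h : Opt G k x) (u : V) :
    EE G k x (fun v => if ∃ i, v i = u then 1 else 0) = x u := by
  have hxu := h.pos u
  have hk0 : (0 : ℝ) < k := by
    have : 0 < k := by omega
    exact_mod_cast this
  set D : ℝ := ∑ v ∈ cyc G k, (if ∃ i, v i = u then cw x v / x u else 0) with hD
  have hNy : ∀ t : ℝ, NN G k (Function.update x u (x u + t)) = NN G k x + t * D := by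
    intro t
    unfold NN
    rw [hD, Finset.mul_sum, ← Finset.sum_add_distrib]
    exact Finset.sum_congr rfl fun v hv => O1_cw_update hk hv x u t hxu.ne'
  have hsum : ∀ t : ℝ, ∑ v, Function.update x u (x u + t) v = k + t := by
    intro t
    rw [Finset.sum_update_of_mem (Finset.mem_univ u), ← h.sum,
      ← Finset.add_sum_erase univ x (Finset.mem_univ u), Finset.sdiff_singleton_eq_erase]
    ring
  have hle : ∀ t : ℝ, -x u ≤ t → 0 ≤ NN G k x * (1 + t / k) ^ k - (NN G k x + t * D) := by
    intro t ht
    have h1 := h.max (Function.update x u (x u + t)) (fun v => by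
      by_cases hv : v = u
      · subst hv
        rw [Function.update_self]
        linarith
      · rw [Function.update_of_ne hv]
        exact (h.pos v).le)
    rw [hNy, hsum] at h1
    have h2 : ((k : ℝ) + t) / k = 1 + t / k := by field_simp
    rw [h2] at h1
    linarith
  have hder : HasDerivAt (fun t : ℝ => NN G k x * (1 + t / k) ^ k - (NN G k x + t * D))
      (NN G k x - D) 0 := by
    have h1 : HasDerivAt (fun t : ℝ => 1 + t / k) (1 / k) 0 :=
      ((hasDerivAt_id (0 : ℝ)).div_const (k : ℝ)).const_add 1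
    have h2 := (h1.pow k).const_mul (NN G k x)
    have h3 : HasDerivAt (fun t : ℝ => NN G k x + t * D) (1 * D) 0 :=
      ((hasDerivAt_id (0 : ℝ)).mul_const D).const_add (NN G k x)
    have h4 := h2.sub h3
    refine h4.congr_deriv ?_
    rw [zero_div, add_zero, one_pow]
    field_simp
  have hmin : IsLocalMin (fun t : ℝ => NN G k x * (1 + t / k) ^ k - (NN G k x + t * D)) 0 := by
    have h1 : ∀ᶠ t : ℝ in nhds 0, -x u < t := lt_mem_nhds (by linarith)
    filter_upwards [h1] with t ht
    have h2 := hle t ht.le
    simpa using h2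
  have hDN : NN G k x - D = 0 := hmin.hasDerivAt_eq_zero hder
  have hN := h.NN_pos
  unfold EE
  rw [div_eq_iff hN.ne']
  have h5 : NN G k x = D := by linarith
  rw [h5, hD, Finset.mul_sum]
  apply Finset.sum_congr rfl
  intro v _
  beta_reduce
  by_cases hv : ∃ i, v i = u
  · rw [if_pos hv, if_pos hv]
    field_simp
  · rw [if_neg hv, if_neg hv]
    ring

theorem O1_pt (hk : 5 ≤ k) (h : Opt G k x) (i : ZMod k) (u : V) :
    (k : ℝ) * EE G k x (fun v => if v i = u then 1 else 0) = x u := by
  have h0 : ∀ t : ZMod k, EE G k x (fun v => if v t = u then 1 else 0) =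
      EE G k x (fun v => if v 0 = u then 1 else 0) := by
    intro t
    have := EE_rot (G := G) (x := x) t (fun v => if v 0 = u then (1 : ℝ) else 0)
    simpa using this
  have h1 : EE G k x (fun v => ∑ t ∈ (univ : Finset (ZMod k)), if v t = u then (1 : ℝ) else 0) =
      ∑ t ∈ (univ : Finset (ZMod k)), EE G k x (fun v => if v t = u then 1 else 0) := by
    rw [EE_sum]
  have h2 : ∑ t ∈ (univ : Finset (ZMod k)), EE G k x (fun v => if v t = u then 1 else 0) =
      (k : ℝ) * EE G k x (fun v => if v i = u then 1 else 0) := by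
    rw [Finset.sum_congr rfl (fun t _ => h0 t), Finset.sum_const, Finset.card_univ, ZMod.card,
      nsmul_eq_mul, h0 i]
  rw [← h2, ← h1, ← o1_on hk h u]
  apply EE_congr
  intro v hv
  have hinj := O1_inj hk hv
  by_cases hu : ∃ i, v i = u
  · rw [if_pos hu]
    obtain ⟨j, hj⟩ := hu
    rw [Finset.sum_eq_single j]
    · rw [if_pos hj]
    · intro t _ htj
      rw [if_neg]
      intro h3
      exact htj (hinj (h3.trans hj.symm))
    · intro h3
      exact absurd (Finset.mem_univ j) h3
  · rw [if_neg hu]
    apply Finset.sum_eq_zero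
    intro t _
    rw [if_neg]
    exact fun h3 => hu ⟨t, h3⟩

theorem o1 (hk : 5 ≤ k) (h : Opt G k x) (i : ZMod k) (f : V → ℝ) :
    EE G k x (fun v => f (v i)) = (∑ u, x u * f u) / k := by
  have hk0 : (0 : ℝ) < k := by
    have : 0 < k := by omega
    exact_mod_cast this
  have h1 : EE G k x (fun v => f (v i)) =
      EE G k x (fun v => ∑ u ∈ (univ : Finset V), f u * (if v i = u then (1 : ℝ) else 0)) := by
    apply EE_congr
    intro v _
    simp
  rw [h1, EE_sum, eq_div_iff hk0.ne', Finset.sum_mul]
  apply Finset.sum_congr rfl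
  intro u _
  rw [EE_mul, ← O1_pt hk h i u]
  ring

/-- sums over the whole cycle -/
theorem o1_sum (hk : 5 ≤ k) (h : Opt G k x) (f : V → ℝ) :
    EE G k x (fun v => ∑ i, f (v i)) = ∑ u, x u * f u := by
  have hk0 : (0 : ℝ) < k := by
    have : 0 < k := by omega
    exact_mod_cast this
  have h1 := EE_sum (G := G) (x := x) (univ : Finset (ZMod k)) (fun i v => f (v i))
  rw [h1, Finset.sum_congr rfl (fun i _ => o1 hk h i f), Finset.sum_const, Finset.card_univ,
    ZMod.card, nsmul_eq_mul]
  field_simp

end Pool.Agent.Icy
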