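import Mathlib

/-!
# Induced paths in a ring of classes

`c i` = class of the `i`-th vertex of an induced path without wrong pairs: for `i ≠ j` with
`c i ≠ c j`, the vertices are adjacent (`|i-j| = 1`) iff the classes are neighbours.  Then `c` is
constant, or increases by `1`, or decreases by `1`, if the path has at least four vertices.
Proof: consecutive classes differ by `0, 1, -1`.  If `c i ≠ c (i+1)`, say `c (i+1) = c i + 1`; then
`c (i+2) ∈ {c i, c i + 2}` (`c i + 1` would be a neighbour class of `c i` at distance 2).  If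
`c (i+2) = c i`, a further vertex `i+3` (or `i-1`) has class `c i + {-1, 0, 1}` and conflicts with `i`,
`i+1` or `i+2`.  So `c (i+2) = c i + 2`.  Same backwards.
Also: for a whole labelled induced cycle (`k ≥ 7`) : `t17_cyc`.
-/

set_option autoImplicit false

open Finset
open scoped Classical

namespace Pool.Agent.Icy

theorem T17_ne {k : ℕ} (_hk : 7 ≤ k) (m : ℕ) (hm : 0 < m) (hmk : m < k) : ((m : ℕ) : ZMod k) ≠ 0 := by
  intro h
  rw [ZMod.natCast_eq_zero_iff] at h
  have := Nat.le_of_dvd hm h
  omega

theorem T17_window {k : ℕ} {a b e : ZMod k} (ha : a = 0 ∨ a = 1 ∨ a = -1)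
    (hb : b = 0 ∨ b = 1 ∨ b = -1) (he : e = 0 ∨ e = 1 ∨ e = -1) (h1 : a + b ≠ 1)
    (h2 : a + b ≠ -1) (h3 : b + e ≠ 1) (h4 : b + e ≠ -1) (h5 : a + b + e ≠ 1)
    (h6 : a + b + e ≠ -1) : a = b ∧ b = e := by
  rcases ha with rfl | rfl | rfl <;> rcases hb with rfl | rfl | rfl <;>
    rcases he with rfl | rfl | rfl
  all_goals first
    | exact ⟨rfl, rfl⟩
    | exact absurd (by ring1) h1
    | exact absurd (by ring1) h2
    | exact absurd (by ring1) h3
    | exact absurd (by ring1) h4
    | exact absurd (by ring1) h5
    | exact absurd (by ring1) h6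

theorem T17_dvals {k : ℕ} {u v : ZMod k} (h : u ≠ v → (v = u + 1 ∨ u = v + 1)) :
    v - u = 0 ∨ v - u = 1 ∨ v - u = -1 := by
  by_cases huv : u = v
  · left; rw [huv, sub_self]
  · rcases h huv with h1 | h1
    · right; left; rw [h1]; ring
    · right; right; rw [h1]; ring

theorem t17 {k n : ℕ} (hk : 7 ≤ k) (hn : 4 ≤ n) (c : ℕ → ZMod k)
    (h : ∀ i j, i < n → j < n → c i ≠ c j →
      ((j = i + 1 ∨ i = j + 1) ↔ (c j = c i + 1 ∨ c i = c j + 1))) :
    (∀ i, i < n → c i = c 0) ∨ (∀ i : ℕ, i < n → c i = c 0 + (i : ZMod k)) ∨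
      (∀ i : ℕ, i < n → c i = c 0 - (i : ZMod k)) := by
  have h10 : (1 : ZMod k) ≠ 0 := by
    have := T17_ne hk 1 (by norm_num) (by omega)
    simpa using this
  have hP : ∀ i j, i < n → j < n → (c j - c i = 1 ∨ c j - c i = -1) → (j = i + 1 ∨ i = j + 1) := by
    intro i j hi hj hc
    have hne : c i ≠ c j := by
      intro he
      rcases hc with hc | hc
      · rw [he, sub_self] at hc
        exact h10 hc.symm
      · rw [he, sub_self] at hc
        exact h10 (neg_eq_zero.1 hc.symm)
    rw [h i j hi hj hne]
    rcases hc with hc | hc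
    · left; rw [← hc]; ring
    · right
      have : c j = c i - 1 := by
        rw [sub_eq_iff_eq_add] at hc
        rw [hc]; ring
      rw [this]; ring
  have hD : ∀ i, i + 1 < n → (c (i + 1) - c i = 0 ∨ c (i + 1) - c i = 1 ∨ c (i + 1) - c i = -1) := by
    intro i hi
    apply T17_dvals
    intro hne
    exact (h i (i + 1) (by omega) hi hne).1 (Or.inl rfl)
  have hW : ∀ i, i + 3 < n → (c (i + 1) - c i = c (i + 2) - c (i + 1) ∧
      c (i + 2) - c (i + 1) = c (i + 3) - c (i + 2)) := by
    intro i hi
    apply T17_window (hD i (by omega)) (hD (i + 1) (by omega)) (hD (i + 2) (by omega))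
    · intro h1
      have := hP i (i + 2) (by omega) (by omega) (Or.inl (by linear_combination h1))
      omega
    · intro h1
      have := hP i (i + 2) (by omega) (by omega) (Or.inr (by linear_combination h1))
      omega
    · intro h1
      have := hP (i + 1) (i + 3) (by omega) (by omega) (Or.inl (by linear_combination h1))
      omega
    · intro h1
      have := hP (i + 1) (i + 3) (by omega) (by omega) (Or.inr (by linear_combination h1))
      omega
    · intro h1
      have := hP i (i + 3) (by omega) (by omega) (Or.inl (by linear_combination h1))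
      omega
    · intro h1
      have := hP i (i + 3) (by omega) (by omega) (Or.inr (by linear_combination h1))
      omega
  have hE : ∀ i, i + 2 < n → c (i + 1) - c i = c (i + 2) - c (i + 1) := by
    intro i hi
    by_cases h3 : i + 3 < n
    · exact (hW i h3).1
    · obtain ⟨j, rfl⟩ : ∃ j, i = j + 1 := ⟨i - 1, by omega⟩
      exact (hW j (by omega)).2
  have hC : ∀ i, i + 1 < n → c (i + 1) - c i = c 1 - c 0 := by
    intro i
    induction i with
    | zero => intro _; rfl
    | succ i ih =>
      intro hi
      rw [← ih (by omega)]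
      exact (hE i (by omega)).symm
  have hL : ∀ i : ℕ, i < n → c i = c 0 + (i : ZMod k) * (c 1 - c 0) := by
    intro i
    induction i with
    | zero => intro _; simp
    | succ i ih =>
      intro hi
      have h1 := hC i hi
      have h2 := ih (by omega)
      rw [sub_eq_iff_eq_add] at h1
      rw [h1, h2]
      push_cast
      ring
  rcases hD 0 (by omega) with h0 | h0 | h0
  · left
    intro i hi
    rw [hL i hi]
    rw [zero_add] at h0
    rw [h0]; ring
  · right; left
    intro i hi
    rw [hL i hi]
    rw [zero_add] at h0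
    rw [h0]; ring
  · right; right
    intro i hi
    rw [hL i hi]
    rw [zero_add] at h0
    rw [h0]; ring

theorem t17_cyc {k : ℕ} [NeZero k] (hk : 7 ≤ k) (c : ZMod k → ZMod k)
    (h : ∀ i j, c i ≠ c j → ((j = i + 1 ∨ i = j + 1) ↔ (c j = c i + 1 ∨ c i = c j + 1))) :
    (∀ i, c i = c 0) ∨ (∀ i, c i = c 0 + i) ∨ (∀ i, c i = c 0 - i) := by
  have h10 : (1 : ZMod k) ≠ 0 := by
    have := T17_ne hk 1 (by norm_num) (by omega)
    simpa using this
  have h20 : (2 : ZMod k) ≠ 0 := by
    have := T17_ne hk 2 (by norm_num) (by omega)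
    simpa using this
  have h30 : (3 : ZMod k) ≠ 0 := by
    have := T17_ne hk 3 (by norm_num) (by omega)
    simpa using this
  have h40 : (4 : ZMod k) ≠ 0 := by
    have := T17_ne hk 4 (by norm_num) (by omega)
    simpa using this
  have hP : ∀ i j, (c j - c i = 1 ∨ c j - c i = -1) → (j = i + 1 ∨ i = j + 1) := by
    intro i j hc
    have hne : c i ≠ c j := by
      intro he
      rcases hc with hc | hc
      · rw [he, sub_self] at hc
        exact h10 hc.symm
      · rw [he, sub_self] at hc
        exact h10 (neg_eq_zero.1 hc.symm)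
    rw [h i j hne]
    rcases hc with hc | hc
    · left; rw [← hc]; ring
    · right
      have : c j = c i - 1 := by
        rw [sub_eq_iff_eq_add] at hc
        rw [hc]; ring
      rw [this]; ring
  have hD : ∀ i, (c (i + 1) - c i = 0 ∨ c (i + 1) - c i = 1 ∨ c (i + 1) - c i = -1) := by
    intro i
    apply T17_dvals
    intro hne
    exact (h i (i + 1) hne).1 (Or.inl rfl)
  have hN2 : ∀ i : ZMod k, ¬ (i + 2 = i + 1 ∨ i = i + 2 + 1) := by
    rintro i (h1 | h1)
    · apply h10
      have : (2 : ZMod k) = 1 := add_left_cancel h1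
      linear_combination this
    · apply h30
      linear_combination -h1
  have hN3 : ∀ i : ZMod k, ¬ (i + 3 = i + 1 ∨ i = i + 3 + 1) := by
    rintro i (h1 | h1)
    · apply h20
      linear_combination h1
    · apply h40
      linear_combination -h1
  have hE : ∀ i, c (i + 1) - c i = c (i + 2) - c (i + 1) := by
    intro i
    have hD1 := hD (i + 1)
    have hD2 := hD (i + 2)
    have e1 : i + 1 + 1 = i + 2 := by ring
    have e2 : i + 2 + 1 = i + 3 := by ring
    rw [e1] at hD1
    rw [e2] at hD2
    have hN1 := hN2 (i + 1)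
    have e3 : i + 1 + 2 = i + 3 := by ring
    rw [e3] at hN1
    refine (T17_window (hD i) hD1 hD2 ?_ ?_ ?_ ?_ ?_ ?_).1
    · intro h1
      exact hN2 i (hP i (i + 2) (Or.inl (by linear_combination h1)))
    · intro h1
      exact hN2 i (hP i (i + 2) (Or.inr (by linear_combination h1)))
    · intro h1
      exact hN1 (hP (i + 1) (i + 3) (Or.inl (by linear_combination h1)))
    · intro h1
      exact hN1 (hP (i + 1) (i + 3) (Or.inr (by linear_combination h1)))
    · intro h1
      exact hN3 i (hP i (i + 3) (Or.inl (by linear_combination h1)))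
    · intro h1
      exact hN3 i (hP i (i + 3) (Or.inr (by linear_combination h1)))
  have hC : ∀ i : ℕ, c ((i : ZMod k) + 1) - c (i : ZMod k) = c 1 - c 0 := by
    intro i
    induction i with
    | zero => simp
    | succ i ih =>
      have h1 := hE (i : ZMod k)
      rw [← ih, h1]
      have e1 : (((i + 1 : ℕ) : ZMod k) + 1) = (i : ZMod k) + 2 := by push_cast; ring
      rw [e1]
      push_cast
      rfl
  have hL : ∀ i : ℕ, c (i : ZMod k) = c 0 + (i : ZMod k) * (c 1 - c 0) := by
    intro i
    induction i with
    | zero => simp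
    | succ i ih =>
      have h1 := hC i
      rw [sub_eq_iff_eq_add] at h1
      have e1 : ((i + 1 : ℕ) : ZMod k) = (i : ZMod k) + 1 := by push_cast; rfl
      rw [e1, h1, ih]
      ring
  have hL' : ∀ i : ZMod k, c i = c 0 + i * (c 1 - c 0) := by
    intro i
    have := hL (ZMod.val i)
    rwa [ZMod.natCast_zmod_val] at this
  have h0 := hD 0
  rw [zero_add] at h0
  rcases h0 with h0 | h0 | h0
  · left
    intro i
    rw [hL' i, h0]; ring
  · right; left
    intro i
    rw [hL' i, h0]; ring
  · right; right
    intro i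
    rw [hL' i, h0]; ring

end Pool.Agent.Icy
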