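import Pool.Agent.Icy.DevDefs
import Pool.Agent.Icy.O2
import Pool.Agent.Icy.O1
import Pool.Agent.Icy.T17

/-!
# (9.2), part A: the cycles with `v 0 = y`

Let `v ∈ cyc`, `v 0 = y`.  (a) some `v i`, `i ≠ 0`, in no class: expectation `≤ Σ_{x'} (e²/k) x_y x_{x'} ≤ e² η
x_y/k` (`o2_first` with `S = {x'}`, `x' ≠ y` by injectivity).  (b) some wrong pair among `v i`, `i ≠ 0`:
`≤ e³ η x_y / k` (`o2_first` with `S = {u, u'}`).  (c) otherwise, by `t17` for the path `v 1, …, v (k-1)`, one of
`ownc T j`, `monoUp T l`, `monoDn T l` holds.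
-/

set_option autoImplicit false

open Finset
open scoped Classical

namespace Pool.Agent.Icy

variable {V : Type} [Fintype V] {G : SimpleGraph V} {k : ℕ} [NeZero k] {x : V → ℝ}

/-- indicator: `v 0 = y`, `u` on the cycle -/
noncomputable def DevA_a {V : Type} {k : ℕ} (y u : V) (v : ZMod k → V) : ℝ :=
  if v 0 = y ∧ ∀ s ∈ ({u} : Finset V), ∃ i, v i = s then 1 else 0

/-- indicator: `v 0 = y`, `u, u'` on the cycle, different from `y` -/
noncomputable def DevA_b {V : Type} {k : ℕ} (y u u' : V) (v : ZMod k → V) : ℝ :=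
  if y = u ∨ y = u' then 0 else
    if v 0 = y ∧ ∀ s ∈ ({u, u'} : Finset V), ∃ i, v i = s then 1 else 0

theorem DevA_a_nonneg {V : Type} {k : ℕ} (y u : V) (v : ZMod k → V) : 0 ≤ DevA_a y u v := by
  unfold DevA_a
  split_ifs <;> norm_num

theorem DevA_b_nonneg {V : Type} {k : ℕ} (y u u' : V) (v : ZMod k → V) : 0 ≤ DevA_b y u u' v := by
  unfold DevA_b
  split_ifs <;> norm_num

theorem DevA_path (hk : 100 ≤ k) {T : ZMod k → Finset V} {v : ZMod k → V} (hv : v ∈ cyc G k)
    (hA : ∀ i : ZMod k, i ≠ 0 → ∃ j, v i ∈ T j)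
    (hB : ∀ i j a b : ZMod k, i ≠ 0 → j ≠ 0 → a ≠ b → v i ∈ T a → v j ∈ T b →
      ¬ Wr G a b (v i) (v j)) :
    (∃ j, ownc T j v) ∨ (∃ l, monoUp T l v) ∨ ∃ l, monoDn T l v := by
  have hA' : ∀ i : ZMod k, ∃ j, i ≠ 0 → v i ∈ T j := by
    intro i
    by_cases hi : i = 0
    · exact ⟨0, fun h => absurd hi h⟩
    · obtain ⟨j, hj⟩ := hA i hi
      exact ⟨j, fun _ => hj⟩
  choose c hc using hA'
  have hne : ∀ i : ℕ, i < k - 1 → (((i + 1 : ℕ) : ℕ) : ZMod k) ≠ 0 := by
    intro i hi h0
    rw [ZMod.natCast_eq_zero_iff] at h0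
    have := Nat.le_of_dvd (by omega) h0
    omega
  have h17 := t17 (k := k) (n := k - 1) (by omega) (by omega) (fun i => c ((i + 1 : ℕ) : ZMod k)) (by
    intro i j hi hj hcc
    have h1 := hB ((i + 1 : ℕ) : ZMod k) ((j + 1 : ℕ) : ZMod k) _ _ (hne i hi) (hne j hj) hcc
      (hc _ (hne i hi)) (hc _ (hne j hj))
    unfold Wr at h1
    rw [not_not] at h1
    rw [← h1, cyc_adj_nat (by omega) hv (by omega) (by omega)]
    omega)
  have hval : ∀ i : ZMod k, i ≠ 0 → ∃ m : ℕ, m < k - 1 ∧ i = ((m + 1 : ℕ) : ZMod k) := by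
    intro i hi
    have h1 : i.val < k := ZMod.val_lt i
    have h2 : i.val ≠ 0 := by
      intro h
      apply hi
      rwa [ZMod.val_eq_zero] at h
    refine ⟨i.val - 1, by omega, ?_⟩
    have h3 : i.val - 1 + 1 = i.val := by omega
    rw [h3, ZMod.natCast_zmod_val]
  rcases h17 with h | h | h
  · left
    refine ⟨c ((0 + 1 : ℕ) : ZMod k), fun i hi => ?_⟩
    obtain ⟨m, hm, rfl⟩ := hval i hi
    have := hc _ hi
    rw [h m hm] at this
    exact this
  · right; left
    refine ⟨c ((0 + 1 : ℕ) : ZMod k) - 1, fun i hi => ?_⟩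
    obtain ⟨m, hm, rfl⟩ := hval i hi
    have := hc _ hi
    rw [h m hm] at this
    have e : c ((0 + 1 : ℕ) : ZMod k) - 1 + ((m + 1 : ℕ) : ZMod k)
        = c ((0 + 1 : ℕ) : ZMod k) + (m : ZMod k) := by
      push_cast; ring
    rw [e]
    exact this
  · right; right
    refine ⟨c ((0 + 1 : ℕ) : ZMod k) + 1, fun i hi => ?_⟩
    obtain ⟨m, hm, rfl⟩ := hval i hi
    have := hc _ hi
    rw [h m hm] at this
    have e : c ((0 + 1 : ℕ) : ZMod k) + 1 - ((m + 1 : ℕ) : ZMod k)
        = c ((0 + 1 : ℕ) : ZMod k) - (m : ZMod k) := by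
      push_cast; ring
    rw [e]
    exact this

theorem DevA_pt (hk : 100 ≤ k) {T : ZMod k → Finset V} (y : V) {v : ZMod k → V}
    (hv : v ∈ cyc G k) :
    (if v 0 = y then (1 : ℝ) else 0) ≤
      ∑ u ∈ (univ.filter (fun w => ∀ j, w ∉ T j)).erase y, DevA_a y u v +
      ∑ a, ∑ u ∈ T a, ∑ b ∈ univ.filter (fun b => b ≠ a),
        ∑ u' ∈ (T b).filter (fun u' => Wr G a b u u'), DevA_b y u u' v +
      (if v 0 = y ∧ ∃ j, ownc T j v then 1 else 0) +
      ∑ l, (if v 0 = y ∧ monoUp T l v then 1 else 0) +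
      ∑ l, (if v 0 = y ∧ monoDn T l v then 1 else 0) := by
  have n1 : 0 ≤ ∑ u ∈ (univ.filter (fun w => ∀ j, w ∉ T j)).erase y, DevA_a y u v :=
    Finset.sum_nonneg fun u _ => DevA_a_nonneg y u v
  have n2a : ∀ (a : ZMod k) (u : V) (b : ZMod k),
      0 ≤ ∑ u' ∈ (T b).filter (fun u' => Wr G a b u u'), DevA_b y u u' v :=
    fun a u b => Finset.sum_nonneg fun u' _ => DevA_b_nonneg y u u' v
  have n2b : ∀ (a : ZMod k) (u : V), 0 ≤ ∑ b ∈ univ.filter (fun b => b ≠ a),
        ∑ u' ∈ (T b).filter (fun u' => Wr G a b u u'), DevA_b y u u' v :=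
    fun a u => Finset.sum_nonneg fun b _ => n2a a u b
  have n2c : ∀ (a : ZMod k), 0 ≤ ∑ u ∈ T a, ∑ b ∈ univ.filter (fun b => b ≠ a),
        ∑ u' ∈ (T b).filter (fun u' => Wr G a b u u'), DevA_b y u u' v :=
    fun a => Finset.sum_nonneg fun u _ => n2b a u
  have n2 : 0 ≤ ∑ a, ∑ u ∈ T a, ∑ b ∈ univ.filter (fun b => b ≠ a),
        ∑ u' ∈ (T b).filter (fun u' => Wr G a b u u'), DevA_b y u u' v :=
    Finset.sum_nonneg fun a _ => n2c a
  have n3 : (0 : ℝ) ≤ if v 0 = y ∧ ∃ j, ownc T j v then 1 else 0 := by split_ifs <;> norm_num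
  have n4a : ∀ l, (0 : ℝ) ≤ if v 0 = y ∧ monoUp T l v then 1 else 0 := by
    intro l; split_ifs <;> norm_num
  have n5a : ∀ l, (0 : ℝ) ≤ if v 0 = y ∧ monoDn T l v then 1 else 0 := by
    intro l; split_ifs <;> norm_num
  have n4 : (0 : ℝ) ≤ ∑ l, (if v 0 = y ∧ monoUp T l v then 1 else 0) :=
    Finset.sum_nonneg fun l _ => n4a l
  have n5 : (0 : ℝ) ≤ ∑ l, (if v 0 = y ∧ monoDn T l v then 1 else 0) :=
    Finset.sum_nonneg fun l _ => n5a l
  by_cases hy : v 0 = y
  swap
  · rw [if_neg hy]
    linarith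
  rw [if_pos hy]
  have hinj := cyc_inj (G := G) (by omega : 5 ≤ k) (Finset.mem_filter.1 hv).2
  by_cases hA : ∀ i : ZMod k, i ≠ 0 → ∃ j, v i ∈ T j
  swap
  · rw [not_forall] at hA
    obtain ⟨i, hi⟩ := hA
    rw [Classical.not_imp] at hi
    obtain ⟨hi0, hi1⟩ := hi
    have hmem : v i ∈ (univ.filter (fun w => ∀ j, w ∉ T j)).erase y := by
      rw [Finset.mem_erase, Finset.mem_filter]
      refine ⟨?_, Finset.mem_univ _, fun j hj => hi1 ⟨j, hj⟩⟩
      intro h
      apply hi0
      exact hinj (h.trans hy.symm)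
    have h1 := Finset.single_le_sum (f := fun u => DevA_a y u v)
      (fun u _ => DevA_a_nonneg y u v) hmem
    have h2 : DevA_a y (v i) v = 1 := by
      unfold DevA_a
      rw [if_pos]
      refine ⟨hy, fun s hs => ⟨i, ?_⟩⟩
      rw [Finset.mem_singleton.1 hs]
    beta_reduce at h1
    rw [h2] at h1
    linarith
  by_cases hB : ∀ i j a b : ZMod k, i ≠ 0 → j ≠ 0 → a ≠ b → v i ∈ T a → v j ∈ T b →
      ¬ Wr G a b (v i) (v j)
  swap
  · simp only [not_forall, not_not] at hB
    obtain ⟨i, j, a, b, hi, hj, hab, hia, hjb, hw⟩ := hB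
    have h1 : DevA_b y (v i) (v j) v = 1 := by
      unfold DevA_b
      rw [if_neg, if_pos]
      · refine ⟨hy, fun s hs => ?_⟩
        rcases Finset.mem_insert.1 hs with h | h
        · exact ⟨i, h.symm⟩
        · exact ⟨j, (Finset.mem_singleton.1 h).symm⟩
      · rintro (h | h)
        · exact hi (hinj (h.symm.trans hy.symm))
        · exact hj (hinj (h.symm.trans hy.symm))
    have s1 := Finset.single_le_sum (f := fun u' => DevA_b y (v i) u' v)
      (fun u' _ => DevA_b_nonneg y (v i) u' v)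
      (Finset.mem_filter.2 ⟨hjb, hw⟩ : v j ∈ (T b).filter (fun u' => Wr G a b (v i) u'))
    have s2 := Finset.single_le_sum (f := fun b => ∑ u' ∈ (T b).filter (fun u' => Wr G a b (v i) u'),
      DevA_b y (v i) u' v) (fun b _ => n2a a (v i) b)
      (Finset.mem_filter.2 ⟨Finset.mem_univ b, hab.symm⟩ : b ∈ univ.filter (fun b => b ≠ a))
    have s3 := Finset.single_le_sum (f := fun u => ∑ b ∈ univ.filter (fun b => b ≠ a),
      ∑ u' ∈ (T b).filter (fun u' => Wr G a b u u'), DevA_b y u u' v) (fun u _ => n2b a u) hia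
    have s4 := Finset.single_le_sum (f := fun a => ∑ u ∈ T a, ∑ b ∈ univ.filter (fun b => b ≠ a),
      ∑ u' ∈ (T b).filter (fun u' => Wr G a b u u'), DevA_b y u u' v) (fun a _ => n2c a)
      (Finset.mem_univ a)
    beta_reduce at s1 s2 s3 s4
    rw [h1] at s1
    linarith
  rcases DevA_path hk hv hA hB with h | ⟨l, h⟩ | ⟨l, h⟩
  · rw [if_pos ⟨hy, h⟩]
    linarith
  · have s1 := Finset.single_le_sum (f := fun l => if v 0 = y ∧ monoUp T l v then (1 : ℝ) else 0)
      (fun l _ => n4a l) (Finset.mem_univ l)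
    beta_reduce at s1
    rw [if_pos ⟨hy, h⟩] at s1
    linarith
  · have s1 := Finset.single_le_sum (f := fun l => if v 0 = y ∧ monoDn T l v then (1 : ℝ) else 0)
      (fun l _ => n5a l) (Finset.mem_univ l)
    beta_reduce at s1
    rw [if_pos ⟨hy, h⟩] at s1
    linarith

theorem devA (hk : 100 ≤ k) (h : Opt G k x) {T : ZMod k → Finset V} {η : ℝ} (hη0 : 0 < η)
    (hS : S91 G x T η) (y : V) :
    x y / k ≤ (Real.exp 2 + Real.exp 3) * η * x y / k +
      EE G k x (fun v => if v 0 = y ∧ ∃ j, ownc T j v then 1 else 0) +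
      ∑ l, EE G k x (fun v => if v 0 = y ∧ monoUp T l v then 1 else 0) +
      ∑ l, EE G k x (fun v => if v 0 = y ∧ monoDn T l v then 1 else 0) := by
  have hx : ∀ v, 0 ≤ x v := fun v => (h.pos v).le
  have hk0 : (0 : ℝ) < k := by
    have : 0 < k := by omega
    exact_mod_cast this
  have h0 : x y / k = EE G k x (fun v => if v 0 = y then (1 : ℝ) else 0) := by
    have h1 := o1 (by omega : 5 ≤ k) h 0 (fun u => if u = y then (1 : ℝ) else 0)
    rw [h1]
    simp
  rw [h0]
  refine (EE_mono hx fun v hv => DevA_pt (T := T) hk y hv).trans ?_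
  rw [EE_add, EE_add, EE_add, EE_add, EE_sum, EE_sum, EE_sum, EE_sum]
  have hA : ∑ u ∈ (univ.filter (fun w => ∀ j, w ∉ T j)).erase y, EE G k x (DevA_a y u) ≤
      Real.exp 2 * η * x y / k := by
    calc ∑ u ∈ (univ.filter (fun w => ∀ j, w ∉ T j)).erase y, EE G k x (DevA_a y u)
        ≤ ∑ u ∈ (univ.filter (fun w => ∀ j, w ∉ T j)).erase y, Real.exp 2 / k * (x y * x u) := by
          refine Finset.sum_le_sum fun u hu => ?_
          have hyu : y ∉ ({u} : Finset V) := by
            rw [Finset.mem_singleton]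
            exact fun he => (Finset.mem_erase.1 hu).1 he.symm
          have h1 := o2_first (by omega : 5 ≤ k) h y {u} hyu
          rw [Finset.card_singleton, Finset.prod_singleton] at h1
          have e : Real.exp (((1 : ℕ) : ℝ) + 1) = Real.exp 2 := by norm_num
          rw [e] at h1
          refine le_trans (EE_mono hx fun v _ => ?_) h1
          unfold DevA_a
          exact le_of_eq (by congr)
      _ = Real.exp 2 / k * x y * wt x ((univ.filter (fun w => ∀ j, w ∉ T j)).erase y) := by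
          rw [wt, Finset.mul_sum]
          exact Finset.sum_congr rfl fun u _ => by ring
      _ ≤ Real.exp 2 / k * x y * η := by
          refine mul_le_mul_of_nonneg_left ?_ (mul_nonneg (by positivity) (hx y))
          refine le_trans ?_ hS.rest
          exact Finset.sum_le_sum_of_subset_of_nonneg (Finset.erase_subset _ _) fun u _ _ => hx u
      _ = _ := by ring
  have hB : ∑ a, EE G k x (fun v => ∑ u ∈ T a, ∑ b ∈ univ.filter (fun b => b ≠ a),
        ∑ u' ∈ (T b).filter (fun u' => Wr G a b u u'), DevA_b y u u' v) ≤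
      Real.exp 3 * η * x y / k := by
    calc ∑ a, EE G k x (fun v => ∑ u ∈ T a, ∑ b ∈ univ.filter (fun b => b ≠ a),
        ∑ u' ∈ (T b).filter (fun u' => Wr G a b u u'), DevA_b y u u' v)
        = ∑ a, ∑ u ∈ T a, ∑ b ∈ univ.filter (fun b => b ≠ a),
        ∑ u' ∈ (T b).filter (fun u' => Wr G a b u u'), EE G k x (DevA_b y u u') := by
          refine Finset.sum_congr rfl fun a _ => ?_
          rw [EE_sum]
          refine Finset.sum_congr rfl fun u _ => ?_
          rw [EE_sum]
          refine Finset.sum_congr rfl fun b _ => ?_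
          rw [EE_sum]
      _ ≤ ∑ a, ∑ u ∈ T a, ∑ b ∈ univ.filter (fun b => b ≠ a),
        ∑ u' ∈ (T b).filter (fun u' => Wr G a b u u'), Real.exp 3 / k * (x y * (x u * x u')) := by
          refine Finset.sum_le_sum fun a _ => Finset.sum_le_sum fun u hu =>
            Finset.sum_le_sum fun b hb => Finset.sum_le_sum fun u' hu' => ?_
          by_cases hyy : y = u ∨ y = u'
          · have h1 : EE G k x (DevA_b y u u') ≤ EE G k x (fun _ => 0) := by
              refine EE_mono hx fun v _ => ?_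
              unfold DevA_b
              rw [if_pos hyy]
            have h2 : EE G k x (fun _ => (0 : ℝ)) = 0 := EE_const h.NN_pos.ne' 0
            rw [h2] at h1
            refine h1.trans ?_
            have := hx y
            have := hx u
            have := hx u'
            positivity
          · have huu : u ≠ u' := by
              intro he
              have hba : b ≠ a := (Finset.mem_filter.1 hb).2
              have h1 := Finset.disjoint_left.1 (hS.disj a b hba.symm) hu
              rw [he] at h1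
              exact h1 (Finset.mem_filter.1 hu').1
            have hyS : y ∉ ({u, u'} : Finset V) := by
              rw [Finset.mem_insert, Finset.mem_singleton]
              exact hyy
            have h1 := o2_first (by omega : 5 ≤ k) h y {u, u'} hyS
            rw [Finset.card_pair huu, Finset.prod_pair huu] at h1
            have e : Real.exp (((2 : ℕ) : ℝ) + 1) = Real.exp 3 := by norm_num
            rw [e] at h1
            refine le_trans (EE_mono hx fun v _ => ?_) h1
            unfold DevA_b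
            rw [if_neg hyy]
            exact le_of_eq (by congr)
      _ = Real.exp 3 / k * x y * wrM G x T := by
          unfold wrM wrv wt
          simp only [Finset.mul_sum]
          refine Finset.sum_congr rfl fun a _ => Finset.sum_congr rfl fun u _ =>
            Finset.sum_congr rfl fun b _ => Finset.sum_congr rfl fun u' _ => by ring
      _ ≤ Real.exp 3 / k * x y * η :=
          mul_le_mul_of_nonneg_left hS.wrong (mul_nonneg (by positivity) (hx y))
      _ = _ := by ring
  have e : (Real.exp 2 + Real.exp 3) * η * x y / k =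
      Real.exp 2 * η * x y / k + Real.exp 3 * η * x y / k := by ring
  rw [e]
  linarith

end Pool.Agent.Icy
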