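import Pool.Agent.Icy.WrDefs

/-!
# Definitions for (9.2)
-/

set_option autoImplicit false

open Finset
open scoped Classical

namespace Pool.Agent.Icy

variable {V : Type} [Fintype V]

/-- positions `1, …, k-1` of `v` follow the classes, missing the class `l`, up or down -/
def monoUp {V : Type} {k : ℕ} (T : ZMod k → Finset V) (l : ZMod k) (v : ZMod k → V) : Prop :=
  ∀ i : ZMod k, i ≠ 0 → v i ∈ T (l + i)

def monoDn {V : Type} {k : ℕ} (T : ZMod k → Finset V) (l : ZMod k) (v : ZMod k → V) : Prop :=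
  ∀ i : ZMod k, i ≠ 0 → v i ∈ T (l - i)

/-- all the vertices of `v` except `v 0` in the class `j` -/
def ownc {V : Type} {k : ℕ} (T : ZMod k → Finset V) (j : ZMod k) (v : ZMod k → V) : Prop :=
  ∀ i : ZMod k, i ≠ 0 → v i ∈ T j

/-- the weight of the transversals which form a cycle with `y` in place of the class `l` -/
noncomputable def lamy {V : Type} (G : SimpleGraph V) {k : ℕ} [NeZero k] (x : V → ℝ)
    (T : ZMod k → Finset V) (y : V) (l : ZMod k) : ℝ :=
  wt x (nbin G (T (l - 1)) y) * wt x (nbin G (T (l + 1)) y) *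
    ∏ j ∈ univ.filter (fun j => j ≠ l - 1 ∧ j ≠ l ∧ j ≠ l + 1), wt x (nnin G (T j) y)

end Pool.Agent.Icy
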