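import Pool.Agent.Icy.LkDefs

/-!
# The defect is a supermartingale for the growth kernel

By `mm_rec`, `ex ∑_{z∈sA} x z mm_{r-1}(s_z) = ex wt(sA) - (1 - mm_r s) = mm_r s - l1 s`; dropping the
killed `z` (defect `≥ θ`, total weight `Hz θ 0 r s`) gives `drift`.
`ss_super`: induction on `r`.
`ss_hz`: for `h = 3 mm/θ`: `Hz 0 + Σ lk h ≤ Hz 0 + (3/θ)(mm - θ ex Hz 0) ≤ h` as `ex ≥ 1/3`; and
`SS (Hz (j+1)) r s ≤ 3 (SS (Hz j) r s - Hz j r s)` by induction on `r` (`Hz (j+1) r s ≤ 3 Σ lk Hz j
(s_z)`; `Hz j 1 = 0`).  `ss_l1`: `h = mm`.  `ss_last`: `h r = mm` for `r ≥ 2`, `h 1 = 0`.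
-/

set_option autoImplicit false

open Finset
open scoped Classical

namespace Pool.Agent.Icy

variable {V : Type} {G : SimpleGraph V} {x : V → ℝ}

theorem Drift_ex_pos (s : St V) : 0 < ex G x s := Real.exp_pos _

theorem Drift_wt_nonneg (hx : ∀ v, 0 ≤ x v) (S : Finset V) : 0 ≤ wt x S :=
  Finset.sum_nonneg fun v _ => hx v

theorem Drift_aexp (a : ℝ) : a * Real.exp (1 - a) ≤ 1 := by
  have h := Real.add_one_le_exp (a - 1)
  have h2 : a ≤ Real.exp (a - 1) := by linarith
  calc a * Real.exp (1 - a) ≤ Real.exp (a - 1) * Real.exp (1 - a) :=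
        mul_le_mul_of_nonneg_right h2 (Real.exp_pos _).le
    _ = 1 := by rw [← Real.exp_add]; simp

theorem Drift_aex (hx : ∀ v, 0 ≤ x v) (s : St V) : wt x (sA G s) * ex G x s ≤ 1 := by
  have hb := Drift_wt_nonneg hx (sB G s)
  have ha := Drift_wt_nonneg hx (sA G s)
  refine le_trans ?_ (Drift_aexp (wt x (sA G s)))
  refine mul_le_mul_of_nonneg_left ?_ ha
  apply Real.exp_le_exp.mpr
  linarith

theorem Drift_l1_nonneg (hx : ∀ v, 0 ≤ x v) (s : St V) : 0 ≤ l1 G x s := by
  have := Drift_aex (G := G) hx s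
  unfold l1; linarith

theorem lk_nonneg (hx : ∀ v, 0 ≤ x v) (θ : ℝ) (r : ℕ) (s : St V) (z : V) : 0 ≤ lk G x θ r s z := by
  unfold lk
  have h1 := hx z
  have h2 := (Drift_ex_pos (G := G) (x := x) s).le
  have h3 : (0:ℝ) ≤ (if mm G x (r - 1) (step G s z) < θ then 1 else 0) := by split_ifs <;> norm_num
  positivity

theorem lk_sum_le (hx : ∀ v, 0 ≤ x v) (θ : ℝ) (r : ℕ) (s : St V) :
    ∑ z ∈ sA G s, lk G x θ r s z ≤ 1 := by
  refine le_trans ?_ (Drift_aex (G := G) hx s)
  unfold wt
  rw [Finset.sum_mul]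
  refine Finset.sum_le_sum fun z _ => ?_
  unfold lk
  have h1 := hx z
  have h2 := (Drift_ex_pos (G := G) (x := x) s).le
  have h3 : (if mm G x (r - 1) (step G s z) < θ then (1:ℝ) else 0) ≤ 1 := by split_ifs <;> norm_num
  have h4 : 0 ≤ x z * ex G x s := by positivity
  nlinarith

theorem lk_mono (hx : ∀ v, 0 ≤ x v) {θ θ' : ℝ} (h : θ ≤ θ') (r : ℕ) (s : St V) (z : V) :
    lk G x θ r s z ≤ lk G x θ' r s z := by
  unfold lk
  have h1 := hx z
  have h2 := (Drift_ex_pos (G := G) (x := x) s).le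
  have h4 : 0 ≤ x z * ex G x s := by positivity
  refine mul_le_mul_of_nonneg_left ?_ h4
  split_ifs with h5 h6 h6
  · exact le_rfl
  · exact absurd (lt_of_lt_of_le h5 h) h6
  · norm_num
  · exact le_rfl

theorem drift (hx : ∀ v, 0 ≤ x v) (θ : ℝ) {r : ℕ} (hr : 2 ≤ r) (s : St V) :
    ∑ z ∈ sA G s, lk G x θ r s z * mm G x (r - 1) (step G s z) ≤
      mm G x r s - l1 G x s - θ * ex G x s * Hz G x θ 0 r s := by
  obtain ⟨m, rfl⟩ : ∃ m, r = m + 2 := ⟨r - 2, by omega⟩
  have hrec := mm_rec (G := G) (x := x) m s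
  have e1 : m + 2 - 1 = m + 1 := by omega
  have hz : Hz G x θ 0 (m + 2) s =
      ∑ z ∈ sA G s, x z * (if mm G x (m + 1) (step G s z) < θ then 0 else 1) := by
    simp only [Hz]
    rw [if_neg (by omega)]
    rfl
  have hsum : mm G x (m + 2) s - l1 G x s =
      ∑ z ∈ sA G s, x z * ex G x s * mm G x (m + 1) (step G s z) := by
    have : ex G x s * ∑ z ∈ sA G s, x z * (1 - mm G x (m + 1) (step G s z)) =
        wt x (sA G s) * ex G x s - ∑ z ∈ sA G s, x z * ex G x s * mm G x (m + 1) (step G s z) := by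
      unfold wt
      rw [Finset.sum_mul, Finset.mul_sum, ← Finset.sum_sub_distrib]
      refine Finset.sum_congr rfl fun z _ => ?_
      ring
    rw [this] at hrec
    unfold l1
    linarith
  rw [hsum, hz, Finset.mul_sum, ← Finset.sum_sub_distrib]
  refine Finset.sum_le_sum fun z _ => ?_
  unfold lk
  rw [e1]
  have h1 := hx z
  have h2 := (Drift_ex_pos (G := G) (x := x) s).le
  have h4 : 0 ≤ x z * ex G x s := by positivity
  split_ifs with h5
  · simp
  · push Not at h5
    have := mul_le_mul_of_nonneg_left h5 h4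
    simp only [mul_zero, zero_mul, mul_one]
    nlinarith

theorem Hz_nonneg (hx : ∀ v, 0 ≤ x v) (θ : ℝ) (j r : ℕ) (s : St V) : 0 ≤ Hz G x θ j r s := by
  induction j generalizing r s with
  | zero =>
    simp only [Hz]
    split_ifs with h
    · exact le_rfl
    · refine Finset.sum_nonneg fun z _ => mul_nonneg (hx z) ?_
      split_ifs <;> norm_num
  | succ j ih =>
    simp only [Hz]
    split_ifs with h
    · exact le_rfl
    · refine Finset.sum_nonneg fun z _ => mul_nonneg (hx z) ?_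
      split_ifs
      · exact ih _ _
      · exact le_rfl

theorem ss_nonneg (hx : ∀ v, 0 ≤ x v) (θ : ℝ) (f : ℕ → St V → ℝ) (hf : ∀ r s, 0 ≤ f r s) (r : ℕ)
    (s : St V) : 0 ≤ SS G x θ f r s := by
  induction r generalizing s with
  | zero => simp only [SS]; exact le_rfl
  | succ n ih =>
    cases n with
    | zero => simp only [SS]; exact le_rfl
    | succ m =>
      simp only [SS]
      have h1 := hf (m + 2) s
      have h2 : 0 ≤ ∑ z ∈ sA G s, lk G x θ (m + 2) s z * SS G x θ f (m + 1) (step G s z) :=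
        Finset.sum_nonneg fun z _ => mul_nonneg (lk_nonneg hx _ _ _ _) (ih _)
      linarith

theorem Drift_lk_mul_le (hx : ∀ v, 0 ≤ x v) (θ : ℝ) (m : ℕ) (s : St V) (z : V) {a b : ℝ}
    (h : mm G x (m + 1) (step G s z) < θ → a ≤ b) :
    lk G x θ (m + 2) s z * a ≤ lk G x θ (m + 2) s z * b := by
  by_cases h5 : mm G x (m + 1) (step G s z) < θ
  · exact mul_le_mul_of_nonneg_left (h h5) (lk_nonneg hx _ _ _ _)
  · have : lk G x θ (m + 2) s z = 0 := by
      unfold lk
      rw [show m + 2 - 1 = m + 1 by omega, if_neg h5, mul_zero]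
    rw [this]; simp

theorem ss_mono (hx : ∀ v, 0 ≤ x v) (θ : ℝ) (f g : ℕ → St V → ℝ)
    (hfg : ∀ r s, 2 ≤ r → mm G x r s < θ → f r s ≤ g r s) (r : ℕ) (s : St V)
    (hm : mm G x r s < θ) : SS G x θ f r s ≤ SS G x θ g r s := by
  induction r generalizing s with
  | zero => simp only [SS]; exact le_rfl
  | succ n ih =>
    cases n with
    | zero => simp only [SS]; exact le_rfl
    | succ m =>
      simp only [SS]
      have h1 := hfg (m + 2) s (by omega) hm
      have h2 : ∑ z ∈ sA G s, lk G x θ (m + 2) s z * SS G x θ f (m + 1) (step G s z) ≤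
          ∑ z ∈ sA G s, lk G x θ (m + 2) s z * SS G x θ g (m + 1) (step G s z) :=
        Finset.sum_le_sum fun z _ => Drift_lk_mul_le hx θ m s z fun h => ih _ h
      linarith

theorem ss_add (θ : ℝ) (f g : ℕ → St V → ℝ) (r : ℕ) (s : St V) :
    SS G x θ (fun r s => f r s + g r s) r s = SS G x θ f r s + SS G x θ g r s := by
  induction r generalizing s with
  | zero => simp only [SS]; norm_num
  | succ n ih =>
    cases n with
    | zero => simp only [SS]; norm_num
    | succ m =>
      simp only [SS]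
      have h2 : ∑ z ∈ sA G s, lk G x θ (m + 2) s z *
          SS G x θ (fun r s => f r s + g r s) (m + 1) (step G s z) =
          ∑ z ∈ sA G s, lk G x θ (m + 2) s z * SS G x θ f (m + 1) (step G s z) +
          ∑ z ∈ sA G s, lk G x θ (m + 2) s z * SS G x θ g (m + 1) (step G s z) := by
        rw [← Finset.sum_add_distrib]
        refine Finset.sum_congr rfl fun z _ => ?_
        rw [ih]; ring
      rw [h2]; ring

theorem ss_mul (θ c : ℝ) (f : ℕ → St V → ℝ) (r : ℕ) (s : St V) :
    SS G x θ (fun r s => c * f r s) r s = c * SS G x θ f r s := by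
  induction r generalizing s with
  | zero => simp only [SS]; norm_num
  | succ n ih =>
    cases n with
    | zero => simp only [SS]; norm_num
    | succ m =>
      simp only [SS]
      rw [mul_add, Finset.mul_sum]
      congr 1
      refine Finset.sum_congr rfl fun z _ => ?_
      rw [ih]; ring

theorem ss_super (hx : ∀ v, 0 ≤ x v) (θ : ℝ) (f h : ℕ → St V → ℝ) (hh : ∀ r s, 1 ≤ r → 0 ≤ h r s)
    (hf : ∀ r s, 2 ≤ r → mm G x r s < θ →
      f r s + ∑ z ∈ sA G s, lk G x θ r s z * h (r - 1) (step G s z) ≤ h r s)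
    (r : ℕ) (hr : 1 ≤ r) (s : St V) (hm : mm G x r s < θ) : SS G x θ f r s ≤ h r s := by
  induction r generalizing s with
  | zero => omega
  | succ n ih =>
    cases n with
    | zero => simp only [SS]; exact hh _ _ (by omega)
    | succ m =>
      simp only [SS]
      have h1 := hf (m + 2) s (by omega) hm
      rw [show m + 2 - 1 = m + 1 by omega] at h1
      have h2 : ∑ z ∈ sA G s, lk G x θ (m + 2) s z * SS G x θ f (m + 1) (step G s z) ≤
          ∑ z ∈ sA G s, lk G x θ (m + 2) s z * h (m + 1) (step G s z) :=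
        Finset.sum_le_sum fun z _ => Drift_lk_mul_le hx θ m s z fun h => ih (by omega) _ h
      linarith

theorem Drift_ex_ge (hx : ∀ v, 0 ≤ x v) {θ : ℝ} (hθ : θ ≤ 1 / 16) (m : ℕ) (s : St V)
    (hm : mm G x (m + 2) s < θ) : 1 / 3 ≤ ex G x s := by
  have ha := Drift_wt_nonneg hx (sA G s)
  have hb := Drift_wt_nonneg hx (sB G s)
  have hrec := mm_rec (G := G) (x := x) m s
  have hE := Drift_ex_pos (G := G) (x := x) s
  have h1 : ∑ z ∈ sA G s, x z * (1 - mm G x (m + 1) (step G s z)) ≤ wt x (sA G s) := by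
    unfold wt
    refine Finset.sum_le_sum fun z _ => ?_
    have := mm_nonneg (G := G) hx (r := m + 1) (by omega) (step G s z)
    have hz := hx z
    nlinarith
  have h2 : 15 / 16 ≤ ex G x s * wt x (sA G s) := by
    have := mul_le_mul_of_nonneg_left h1 hE.le
    linarith
  have h3 : wt x (sA G s) ≤ 2 := by
    by_contra hc
    push Not at hc
    have h4 : ex G x s ≤ Real.exp (1 - wt x (sA G s)) := Real.exp_le_exp.mpr (by linarith)
    have h5 : 15 / 16 ≤ wt x (sA G s) * Real.exp (1 - wt x (sA G s)) := by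
      have := mul_le_mul_of_nonneg_right h4 ha
      linarith
    have h6 := Drift_aexp (wt x (sA G s) / 2)
    have h7 : Real.exp (- (wt x (sA G s) / 2)) ≤ Real.exp (-1) := Real.exp_le_exp.mpr (by linarith)
    have h8 : Real.exp (-1) < 0.37 := by
      have := Real.exp_neg_one_lt_d9
      linarith
    have h9 : wt x (sA G s) * Real.exp (1 - wt x (sA G s)) =
        2 * (wt x (sA G s) / 2 * Real.exp (1 - wt x (sA G s) / 2)) *
          Real.exp (- (wt x (sA G s) / 2)) := by
      rw [show (1 - wt x (sA G s)) = (1 - wt x (sA G s) / 2) + (- (wt x (sA G s) / 2)) by ring,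
        Real.exp_add]
      ring
    have h10 : 0 ≤ Real.exp (- (wt x (sA G s) / 2)) := (Real.exp_pos _).le
    rw [h9] at h5
    nlinarith
  by_contra hc
  push Not at hc
  nlinarith

theorem ss_hz0 (hx : ∀ v, 0 ≤ x v) {θ : ℝ} (hθ0 : 0 < θ) (hθ : θ ≤ 1 / 16) (r : ℕ) (hr : 1 ≤ r)
    (s : St V) (hm : mm G x r s < θ) :
    SS G x θ (Hz G x θ 0) r s ≤ 3 / θ * mm G x r s := by
  refine ss_super hx θ (Hz G x θ 0) (fun r s => 3 / θ * mm G x r s) ?_ ?_ r hr s hm
  · intro r s hr
    have := mm_nonneg (G := G) hx hr s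
    positivity
  · intro r s hr hm
    obtain ⟨m, rfl⟩ : ∃ m, r = m + 2 := ⟨r - 2, by omega⟩
    have h1 := drift (G := G) hx θ hr s
    have h2 := Drift_ex_ge hx hθ m s hm
    have h3 := Drift_l1_nonneg (G := G) hx s
    have h4 := Hz_nonneg (G := G) hx θ 0 (m + 2) s
    have h5 : ∑ z ∈ sA G s, lk G x θ (m + 2) s z * (3 / θ * mm G x (m + 2 - 1) (step G s z)) =
        3 / θ * ∑ z ∈ sA G s, lk G x θ (m + 2) s z * mm G x (m + 2 - 1) (step G s z) := by
      rw [Finset.mul_sum]
      refine Finset.sum_congr rfl fun z _ => ?_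
      ring
    show Hz G x θ 0 (m + 2) s +
      ∑ z ∈ sA G s, lk G x θ (m + 2) s z * (3 / θ * mm G x (m + 2 - 1) (step G s z)) ≤
        3 / θ * mm G x (m + 2) s
    rw [h5]
    have h6 : 0 < 3 / θ := by positivity
    have h7 : 3 / θ * ∑ z ∈ sA G s, lk G x θ (m + 2) s z * mm G x (m + 2 - 1) (step G s z) ≤
        3 / θ * (mm G x (m + 2) s - l1 G x s - θ * ex G x s * Hz G x θ 0 (m + 2) s) :=
      mul_le_mul_of_nonneg_left h1 h6.le
    have h8 : 3 / θ * (mm G x (m + 2) s - l1 G x s - θ * ex G x s * Hz G x θ 0 (m + 2) s) =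
        3 / θ * mm G x (m + 2) s - 3 / θ * l1 G x s - 3 * ex G x s * Hz G x θ 0 (m + 2) s := by
      field_simp
    have h9 : 0 ≤ 3 / θ * l1 G x s := by positivity
    have h10 : Hz G x θ 0 (m + 2) s ≤ 3 * ex G x s * Hz G x θ 0 (m + 2) s := by nlinarith
    linarith

theorem ss_hz_succ (hx : ∀ v, 0 ≤ x v) {θ : ℝ} (hθ : θ ≤ 1 / 16) (j r : ℕ)
    (hr : 1 ≤ r) (s : St V) (hm : mm G x r s < θ) :
    SS G x θ (Hz G x θ (j + 1)) r s ≤ 3 * (SS G x θ (Hz G x θ j) r s - Hz G x θ j r s) := by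
  induction r generalizing s with
  | zero => omega
  | succ n ih =>
    cases n with
    | zero =>
      have h0 : Hz G x θ j (0 + 1) s = 0 := by
        cases j with
        | zero => simp only [Hz]; rw [if_pos (by omega)]
        | succ j => simp only [Hz]; rw [if_pos (by omega)]
      rw [h0]
      simp only [SS]; norm_num
    | succ m =>
      have hE := Drift_ex_ge hx hθ m s hm
      have h1 : ∑ z ∈ sA G s, lk G x θ (m + 2) s z * SS G x θ (Hz G x θ (j + 1)) (m + 1) (step G s z) ≤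
          ∑ z ∈ sA G s, lk G x θ (m + 2) s z *
            (3 * (SS G x θ (Hz G x θ j) (m + 1) (step G s z) - Hz G x θ j (m + 1) (step G s z))) :=
        Finset.sum_le_sum fun z _ => Drift_lk_mul_le hx θ m s z fun h => ih (by omega) _ h
      have h2 : Hz G x θ (j + 1) (m + 2) s ≤
          ∑ z ∈ sA G s, lk G x θ (m + 2) s z * (3 * Hz G x θ j (m + 1) (step G s z)) := by
        rw [Hz, if_neg (by omega)]
        refine Finset.sum_le_sum fun z _ => ?_
        unfold lk
        rw [show m + 2 - 1 = m + 1 by omega]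
        have hz := hx z
        split_ifs with h5
        · have h6 := Hz_nonneg (G := G) hx θ j (m + 1) (step G s z)
          have h7 : 0 ≤ x z * Hz G x θ j (m + 1) (step G s z) := mul_nonneg hz h6
          nlinarith
        · simp
      have h3 : SS G x θ (Hz G x θ (j + 1)) (m + 1 + 1) s =
          Hz G x θ (j + 1) (m + 2) s + ∑ z ∈ sA G s, lk G x θ (m + 2) s z *
            SS G x θ (Hz G x θ (j + 1)) (m + 1) (step G s z) := by
        simp only [SS]
      have h4 : SS G x θ (Hz G x θ j) (m + 1 + 1) s =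
          Hz G x θ j (m + 2) s + ∑ z ∈ sA G s, lk G x θ (m + 2) s z *
            SS G x θ (Hz G x θ j) (m + 1) (step G s z) := by
        simp only [SS]
      rw [h3, h4]
      have h5 : ∑ z ∈ sA G s, lk G x θ (m + 2) s z *
            (3 * (SS G x θ (Hz G x θ j) (m + 1) (step G s z) - Hz G x θ j (m + 1) (step G s z))) +
          ∑ z ∈ sA G s, lk G x θ (m + 2) s z * (3 * Hz G x θ j (m + 1) (step G s z)) =
          3 * ∑ z ∈ sA G s, lk G x θ (m + 2) s z * SS G x θ (Hz G x θ j) (m + 1) (step G s z) := by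
        rw [Finset.mul_sum, ← Finset.sum_add_distrib]
        refine Finset.sum_congr rfl fun z _ => ?_
        ring
      have e2 : m + 1 + 1 = m + 2 := rfl
      rw [e2]
      linarith

theorem ss_hz (hx : ∀ v, 0 ≤ x v) {θ : ℝ} (hθ0 : 0 < θ) (hθ : θ ≤ 1 / 16) (j r : ℕ) (hr : 1 ≤ r)
    (s : St V) (hm : mm G x r s < θ) :
    SS G x θ (Hz G x θ j) r s ≤ 3 ^ (j + 1) / θ * mm G x r s := by
  induction j with
  | zero => simpa using ss_hz0 hx hθ0 hθ r hr s hm
  | succ j ih =>
    have h1 := ss_hz_succ hx hθ j r hr s hm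
    have h2 := Hz_nonneg (G := G) hx θ j r s
    have h3 : (3:ℝ) ^ (j + 1 + 1) / θ * mm G x r s = 3 * (3 ^ (j + 1) / θ * mm G x r s) := by
      ring
    rw [h3]
    linarith

theorem ss_l1 (hx : ∀ v, 0 ≤ x v) (θ : ℝ) (r : ℕ) (hr : 1 ≤ r) (s : St V)
    (hm : mm G x r s < θ) (hθ0 : 0 < θ) : SS G x θ (fun _ s => l1 G x s) r s ≤ mm G x r s := by
  refine ss_super hx θ (fun _ s => l1 G x s) (fun r s => mm G x r s) ?_ ?_ r hr s hm
  · intro r s hr
    exact mm_nonneg hx hr s
  · intro r s hr hm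
    have h1 := drift (G := G) hx θ hr s
    have h4 := Hz_nonneg (G := G) hx θ 0 r s
    have h5 := (Drift_ex_pos (G := G) (x := x) s).le
    have h6 : 0 ≤ θ * ex G x s * Hz G x θ 0 r s := by positivity
    show l1 G x s + ∑ z ∈ sA G s, lk G x θ r s z * mm G x (r - 1) (step G s z) ≤ mm G x r s
    linarith

theorem ss_last (hx : ∀ v, 0 ≤ x v) {θ : ℝ} (hθ0 : 0 < θ) (r : ℕ) (hr : 1 ≤ r) (s : St V)
    (hm : mm G x r s < θ) :
    SS G x θ (fun r s => if r = 2 then mm G x 2 s else 0) r s ≤ mm G x r s := by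
  have key : SS G x θ (fun r s => if r = 2 then mm G x 2 s else 0) r s ≤
      (fun (r : ℕ) (s : St V) => if r = 1 then 0 else mm G x r s) r s := by
    refine ss_super hx θ _ (fun r s => if r = 1 then 0 else mm G x r s) ?_ ?_ r hr s hm
    · intro r s hr
      show 0 ≤ if r = 1 then 0 else mm G x r s
      split_ifs
      · exact le_rfl
      · exact mm_nonneg hx hr s
    · intro r s hr hm
      have h1 := drift (G := G) hx θ hr s
      have h3 := Drift_l1_nonneg (G := G) hx s
      have h4 := Hz_nonneg (G := G) hx θ 0 r s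
      have h5 := (Drift_ex_pos (G := G) (x := x) s).le
      have h6 : 0 ≤ θ * ex G x s * Hz G x θ 0 r s := by positivity
      show (if r = 2 then mm G x 2 s else 0) + ∑ z ∈ sA G s, lk G x θ r s z *
        (if r - 1 = 1 then 0 else mm G x (r - 1) (step G s z)) ≤ if r = 1 then 0 else mm G x r s
      rw [if_neg (show r ≠ 1 by omega)]
      by_cases hr2 : r = 2
      · subst hr2
        simp
      · have h7 : r - 1 ≠ 1 := by omega
        simp only [if_neg hr2, if_neg h7]
        linarith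
  refine key.trans ?_
  show (if r = 1 then 0 else mm G x r s) ≤ mm G x r s
  split_ifs
  · exact mm_nonneg hx hr s
  · exact le_rfl

end Pool.Agent.Icy
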