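import Pool.Agent.Icy.Defs

/-!
# Existence of optimal weights

`NN` is a polynomial, so it attains its maximum `M` over the compact set `{y ≥ 0, Σ y = k}` at some `y`.
Let `V' = {v : y v > 0}` with the induced graph, `x' = y` on `V'`.  `NN` is not changed (cycles through
vertices of weight 0 have weight 0).  `max` for `z ≥ 0` on `V'`: extend by 0; if `Σ z = 0` then `NN z = 0`
(`k ≥ 1`); else scale by `k/Σ z` (`NN` is homogeneous of degree `k`).
-/

set_option autoImplicit false

open Finset
open scoped Classical

namespace Pool.Agent.Icy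

theorem ExOpt_NN_smul {V : Type} [Fintype V] (G : SimpleGraph V) (k : ℕ) [NeZero k] (c : ℝ)
    (z : V → ℝ) : NN G k (fun v => c * z v) = c ^ k * NN G k z := by
  unfold NN cw
  rw [Finset.mul_sum]
  refine Finset.sum_congr rfl fun v _ => ?_
  rw [Finset.prod_mul_distrib, Finset.prod_const, Finset.card_univ, ZMod.card]

theorem ExOpt_NN_ext {V : Type} [Fintype V] (G : SimpleGraph V) (k : ℕ) [NeZero k]
    (P : V → Prop) (z : V → ℝ) (hz : ∀ v, ¬ P v → z v = 0) :
    NN (G.comap (Subtype.val : {v // P v} → V)) k (fun v => z v.1) = NN G k z := by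
  unfold NN
  have hinj : Function.Injective (fun (v : ZMod k → {v // P v}) (i : ZMod k) => (v i).1) := by
    intro v w h
    funext i
    exact Subtype.ext (congrFun h i)
  rw [← Finset.sum_subset (s₁ := (cyc (G.comap (Subtype.val : {v // P v} → V)) k).map
    ⟨fun v i => (v i).1, hinj⟩)]
  · rw [Finset.sum_map]
    rfl
  · intro v hv
    rw [Finset.mem_map] at hv
    obtain ⟨w, hw, rfl⟩ := hv
    have hw' := (Finset.mem_filter.1 hw).2
    exact Finset.mem_filter.2 ⟨Finset.mem_univ _, fun i j => hw' i j⟩
  · intro v hv hv'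
    by_contra hne
    apply hv'
    have hP : ∀ i, P (v i) := by
      intro i
      by_contra hi
      apply hne
      unfold cw
      exact Finset.prod_eq_zero (Finset.mem_univ i) (hz _ hi)
    rw [Finset.mem_map]
    refine ⟨fun i => ⟨v i, hP i⟩, ?_, rfl⟩
    have hv2 := (Finset.mem_filter.1 hv).2
    exact Finset.mem_filter.2 ⟨Finset.mem_univ _, fun i j => hv2 i j⟩

theorem ExOpt_cont {V : Type} [Fintype V] (G : SimpleGraph V) (k : ℕ) [NeZero k] :
    Continuous (fun z : V → ℝ => NN G k z) := by
  unfold NN cw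
  exact continuous_finset_sum _ fun v _ => continuous_finset_prod _ fun i _ => continuous_apply _

theorem exists_opt {V : Type} [Fintype V] (G : SimpleGraph V) (k : ℕ) [NeZero k] (hk : 5 ≤ k)
    (x : V → ℝ) (hx : ∀ v, 0 ≤ x v) (hs : ∑ v, x v = k) (hN : 2 * (k : ℝ) ≤ NN G k x) :
    ∃ (V' : Type) (_ : Fintype V') (G' : SimpleGraph V') (x' : V' → ℝ), Opt G' k x' ∧
      NN G k x ≤ NN G' k x' := by
  have hk0 : (0 : ℝ) < k := by
    have : (5 : ℝ) ≤ k := by exact_mod_cast hk
    linarith
  set K : Set (V → ℝ) := {y | (∀ v, 0 ≤ y v) ∧ ∑ v, y v = k} with hKdef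
  have hKc : IsCompact K := by
    refine IsCompact.of_isClosed_subset (isCompact_Icc (a := (0 : V → ℝ))
      (b := fun _ : V => (k : ℝ))) ?_ ?_
    · have h1 : IsClosed {y : V → ℝ | ∀ v, 0 ≤ y v} := by
        rw [Set.setOf_forall]
        exact isClosed_iInter fun v => isClosed_le continuous_const (continuous_apply v)
      have h2 : IsClosed {y : V → ℝ | ∑ v, y v = k} :=
        isClosed_eq (continuous_finset_sum _ fun v _ => continuous_apply v) continuous_const
      exact h1.inter h2
    · intro y hy
      refine ⟨fun v => hy.1 v, fun v => ?_⟩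
      calc y v ≤ ∑ w, y w := Finset.single_le_sum (fun w _ => hy.1 w) (Finset.mem_univ v)
        _ = k := hy.2
  obtain ⟨y, hyK, hymax⟩ := hKc.exists_isMaxOn ⟨x, hx, hs⟩ (ExOpt_cont G k).continuousOn
  have hy0 : ∀ v, ¬ 0 < y v → y v = 0 := fun v hv => le_antisymm (not_lt.1 hv) (hyK.1 v)
  have hNy : NN (G.comap (Subtype.val : {v // 0 < y v} → V)) k (fun v => y v.1) = NN G k y :=
    ExOpt_NN_ext G k (fun v => 0 < y v) y hy0
  have hxy : NN G k x ≤ NN G k y := hymax ⟨hx, hs⟩
  refine ⟨{v // 0 < y v}, inferInstance, G.comap Subtype.val, fun v => y v.1, ?_, ?_⟩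
  · refine ⟨fun v => v.2, ?_, ?_, ?_⟩
    · have h1 : ∑ v : {v // 0 < y v}, y v.1 = ∑ v ∈ univ.filter (fun v => 0 < y v), y v := by
        rw [← Finset.sum_subtype_eq_sum_filter, Finset.subtype_univ]
      rw [h1, Finset.sum_filter_of_ne]
      · exact hyK.2
      · intro v _ hv
        exact lt_of_le_of_ne (hyK.1 v) (Ne.symm hv)
    · rw [hNy]; exact hN.trans hxy
    · intro z hz
      set z' : V → ℝ := fun v => if h : 0 < y v then z ⟨v, h⟩ else 0 with hz'
      have hz'z : (fun v : {v // 0 < y v} => z' v.1) = z := by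
        funext v
        simp only [hz', v.2, dif_pos]
      have hz'0 : ∀ v, ¬ 0 < y v → z' v = 0 := by
        intro v hv
        simp only [hz', hv, dif_neg, not_false_eq_true]
      have hz'nn : ∀ v, 0 ≤ z' v := by
        intro v
        by_cases hv : 0 < y v
        · simp only [hz', hv, dif_pos]; exact hz _
        · rw [hz'0 v hv]
      have e1 : NN (G.comap (Subtype.val : {v // 0 < y v} → V)) k z = NN G k z' := by
        rw [← ExOpt_NN_ext G k (fun v => 0 < y v) z' hz'0, hz'z]
      have e2 : ∑ v, z v = ∑ v, z' v := by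
        have h1 : ∑ v : {v // 0 < y v}, z' v.1 = ∑ v ∈ univ.filter (fun v => 0 < y v), z' v := by
          rw [← Finset.sum_subtype_eq_sum_filter, Finset.subtype_univ]
        have h2 : ∑ v ∈ univ.filter (fun v => 0 < y v), z' v = ∑ v, z' v := by
          apply Finset.sum_filter_of_ne
          intro v _ hv
          by_contra hc
          exact hv (hz'0 v hc)
        rw [← h2, ← h1]
        exact Finset.sum_congr rfl fun v _ => (congrFun hz'z v).symm
      rw [e1, e2, hNy]
      set S : ℝ := ∑ v, z' v with hS
      have hS0 : 0 ≤ S := Finset.sum_nonneg fun v _ => hz'nn v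
      rcases hS0.eq_or_lt with h0 | hpos
      · have hz0 : ∀ v, z' v = 0 := by
          intro v
          have := (Finset.sum_eq_zero_iff_of_nonneg (fun v _ => hz'nn v)).1 h0.symm
          exact this v (Finset.mem_univ v)
        have e3 : NN G k z' = 0 := by
          unfold NN cw
          refine Finset.sum_eq_zero fun v _ => ?_
          exact Finset.prod_eq_zero (Finset.mem_univ 0) (hz0 _)
        rw [e3, ← h0, zero_div, zero_pow (NeZero.ne k), mul_zero]
      · have hmem : (fun v => (k / S) * z' v) ∈ K := by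
          refine ⟨fun v => mul_nonneg (by positivity) (hz'nn v), ?_⟩
          rw [← Finset.mul_sum, ← hS]
          field_simp
        have h3 : NN G k (fun v => (k / S) * z' v) ≤ NN G k y := hymax hmem
        rw [ExOpt_NN_smul] at h3
        have h4 : (0 : ℝ) < (S / k) ^ k := by positivity
        have h5 := mul_le_mul_of_nonneg_right h3 h4.le
        have h6 : (k / S : ℝ) ^ k * NN G k z' * (S / k) ^ k = NN G k z' := by
          have : (k / S : ℝ) ^ k * (S / k) ^ k = 1 := by
            rw [← mul_pow]
            have : (k / S : ℝ) * (S / k) = 1 := by field_simp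
            rw [this, one_pow]
          calc (k / S : ℝ) ^ k * NN G k z' * (S / k) ^ k
              = ((k / S : ℝ) ^ k * (S / k) ^ k) * NN G k z' := by ring
            _ = NN G k z' := by rw [this, one_mul]
        rw [h6] at h5
        exact h5
  · rw [hNy]; exact hxy

end Pool.Agent.Icy
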