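import Pool.Agent.Icy.ClBasic
import Pool.Agent.Icy.EEapi

/-!
# Exchange of a vertex with a clone

The map `(v, u) ↦ (update v j u, v j)` is an involution of `{(v, u) : v ∈ cyc, u ∈ Cl v j}` and
`cw x v * x u = cw x (update v j u) * x (v j)`.
-/

set_option autoImplicit false

open Finset
open scoped Classical

namespace Pool.Agent.Icy

variable {V : Type} [Fintype V] {G : SimpleGraph V} {k : ℕ} [NeZero k] {x : V → ℝ}

private theorem Exch_cl (v : ZMod k → V) (j : ZMod k) (u : V) :
    Cl G (Function.update v j u) j = Cl G v j := by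
  unfold Cl
  ext w
  simp only [mem_filter, mem_univ, true_and]
  constructor
  · intro h i hi
    have := h i hi
    rwa [Function.update_of_ne hi] at this
  · intro h i hi
    rw [Function.update_of_ne hi]
    exact h i hi

private theorem Exch_cw (v : ZMod k → V) (j : ZMod k) (u : V) :
    cw x v * x u = cw x (Function.update v j u) * x (v j) := by
  unfold cw
  have h1 : ∏ i, x (v i) = x (v j) * ∏ i ∈ univ.erase j, x (v i) :=
    (Finset.mul_prod_erase univ (fun i => x (v i)) (mem_univ j)).symm
  have h2 : ∏ i, x (Function.update v j u i) =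
      x (Function.update v j u j) * ∏ i ∈ univ.erase j, x (Function.update v j u i) :=
    (Finset.mul_prod_erase univ (fun i => x (Function.update v j u i)) (mem_univ j)).symm
  have h3 : ∏ i ∈ univ.erase j, x (Function.update v j u i) = ∏ i ∈ univ.erase j, x (v i) := by
    apply Finset.prod_congr rfl
    intro i hi
    rw [Function.update_of_ne (Finset.ne_of_mem_erase hi)]
  rw [h1, h2, h3, Function.update_self]
  ring

theorem exch (hk : 7 ≤ k) (j : ZMod k) (F : (ZMod k → V) → V → ℝ) :
    EE G k x (fun v => ∑ u ∈ Cl G v j, x u * F v u) =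
      EE G k x (fun v => ∑ u ∈ Cl G v j, x u * F (Function.update v j u) (v j)) := by
  unfold EE
  congr 1
  simp only [Finset.mul_sum]
  rw [Finset.sum_sigma', Finset.sum_sigma']
  refine Finset.sum_bij' (fun p _ => ⟨Function.update p.1 j p.2, p.1 j⟩)
    (fun p _ => ⟨Function.update p.1 j p.2, p.1 j⟩) ?_ ?_ ?_ ?_ ?_
  · rintro ⟨v, u⟩ hp
    simp only [mem_sigma] at hp ⊢
    exact cl_update hk hp.1 hp.2
  · rintro ⟨v, u⟩ hp
    simp only [mem_sigma] at hp ⊢
    exact cl_update hk hp.1 hp.2
  · rintro ⟨v, u⟩ hp
    simp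
  · rintro ⟨v, u⟩ hp
    simp
  · rintro ⟨v, u⟩ hp
    simp only [Function.update_idem, Function.update_eq_self, Function.update_self]
    rw [← mul_assoc, Exch_cw, mul_assoc]

end Pool.Agent.Icy
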