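import Pool.Agent.H68.Ind.Basic

/-!
# Members from an upper bound

The ratio `maxCopies H n / binom n h` is non-increasing for `n ≥ h` (average over the `n + 1` subgraphs on
`n` vertices of an extremal graph on `n + 1` vertices: each copy is in `n + 1 - h` of them).  Along
`n = h^j` the iterated blow-up (`max_pow` with `G = H`, `copies H H ≥ 1`) gives `maxCopies H (h^j) ≥
(h^{hj} - h^j)/(h^h - h)`, so the ratio along this sequence is asymptotically `≥ h!/(h^h - h)`, hence for
all `n` by monotonicity.  With the upper bound `maxCopies H n ≤ n^h/(h^h - h)` the limit is `h!/(h^h-h)`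
(`binom n h ~ n^h/h!`).
-/

set_option autoImplicit false

open Filter

namespace Pool.Agent.Icy

open Pool.Agent.H68.Ind

theorem MonoRatio_del {h : ℕ} (H : SimpleGraph (Fin h)) {n : ℕ} (G : SimpleGraph (Fin (n + 1)))
    (v : Fin (n + 1)) :
    Nat.card {S : Finset (Fin (n + 1)) // IsCopy H G S ∧ v ∉ S} ≤ maxCopies H n := by
  classical
  choose φ hφ using fun S : {S : Finset (Fin (n + 1)) // IsCopy H G S ∧ v ∉ S} => S.2.1
  have hv : ∀ (S : {S : Finset (Fin (n + 1)) // IsCopy H G S ∧ v ∉ S}) (a : Fin h), φ S a ≠ v := by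
    intro S a hav
    apply S.2.2
    have h1 : φ S a ∈ Set.range (φ S) := ⟨a, rfl⟩
    rw [hφ S, hav] at h1
    exact_mod_cast h1
  choose g hg using fun (S : {S : Finset (Fin (n + 1)) // IsCopy H G S ∧ v ∉ S}) (a : Fin h) =>
    Fin.exists_succAbove_eq (hv S a)
  let ψ : {S : Finset (Fin (n + 1)) // IsCopy H G S ∧ v ∉ S} → H ↪g G.comap v.succAbove := fun S =>
    { toFun := g S
      inj' := by
        intro a b hab
        have h1 := congrArg v.succAbove hab
        rw [hg, hg] at h1
        exact (φ S).injective h1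
      map_rel_iff' := by
        intro a b
        change G.Adj (v.succAbove (g S a)) (v.succAbove (g S b)) ↔ _
        rw [hg, hg]
        exact (φ S).map_rel_iff }
  have hψ : ∀ S, v.succAbove '' Set.range (ψ S) = (S.1 : Set (Fin (n + 1))) := by
    intro S
    rw [← Set.range_comp, ← hφ S]
    congr 1
    funext a
    exact hg S a
  have h1 := le_copies H (G.comap v.succAbove) ψ (by
    intro S T hST
    have h2 := congrArg (fun X => v.succAbove '' X) hST
    simp only [hψ] at h2
    exact Subtype.ext (Finset.coe_injective h2))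
  refine h1.trans ?_
  have h2 := copies_le_max H (G.comap v.succAbove)
  rwa [Fintype.card_fin] at h2

theorem MonoRatio_step {h : ℕ} (H : SimpleGraph (Fin h)) {n : ℕ} :
    maxCopies H (n + 1) * (n + 1 - h) ≤ (n + 1) * maxCopies H n := by
  classical
  obtain ⟨G, hG⟩ := exists_max H (n + 1)
  set C : Finset (Finset (Fin (n + 1))) := Finset.univ.filter (fun S => IsCopy H G S) with hC
  have hcard : maxCopies H (n + 1) = C.card := by
    rw [← hG, copies_eq, Nat.card_eq_fintype_card, Fintype.card_subtype]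
  have h1 : ∑ v : Fin (n + 1), (C.filter (fun S => v ∉ S)).card
      = ∑ S ∈ C, (Finset.univ.filter (fun v : Fin (n + 1) => v ∉ S)).card := by
    simp only [Finset.card_filter]
    exact Finset.sum_comm
  have h2 : ∀ S ∈ C, (Finset.univ.filter (fun v : Fin (n + 1) => v ∉ S)).card = n + 1 - h := by
    intro S hS
    rw [hC, Finset.mem_filter] at hS
    have h3 := ((isCopy_iff H G S).1 hS.2).1
    have h4 : Finset.univ.filter (fun v : Fin (n + 1) => v ∉ S) = Sᶜ := by
      ext v; simp
    rw [h4, Finset.card_compl, Fintype.card_fin, h3]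
  have h3 : ∀ v : Fin (n + 1), (C.filter (fun S => v ∉ S)).card ≤ maxCopies H n := by
    intro v
    have h4 := MonoRatio_del H G v
    rw [Nat.card_eq_fintype_card, Fintype.card_subtype] at h4
    refine le_trans (le_of_eq ?_) h4
    congr 1
    ext S
    simp [hC]
  rw [Finset.sum_congr rfl h2, Finset.sum_const, smul_eq_mul, ← hcard] at h1
  rw [← h1]
  refine (Finset.sum_le_sum (fun v _ => h3 v)).trans (le_of_eq ?_)
  rw [Finset.sum_const, Finset.card_univ, Fintype.card_fin, smul_eq_mul]

theorem member_of_le {h : ℕ} (hh : 2 ≤ h) (H : SimpleGraph (Fin h))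
    (hup : ∀ n : ℕ, (maxCopies H n : ℝ) * ((h : ℝ) ^ h - h) ≤ (n : ℝ) ^ h) : Member H := by
  have hh1 : (1 : ℝ) < (h : ℝ) := by exact_mod_cast hh
  have hhh : (h : ℝ) < (h : ℝ) ^ h := by
    have := pow_lt_pow_right₀ hh1 (show 1 < h by omega)
    rwa [pow_one] at this
  have hpos : (0 : ℝ) < (h : ℝ) ^ h - h := by linarith
  have hf : (0 : ℝ) < (h.factorial : ℝ) := by exact_mod_cast Nat.factorial_pos h
  set r : ℕ → ℝ := fun n => (maxCopies H n : ℝ) / (n.choose h : ℝ) with hr
  -- monotonicity
  have hstep : ∀ n, h ≤ n → r (n + 1) ≤ r n := by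
    intro n hn
    have c1 : (0 : ℝ) < (n.choose h : ℝ) := by exact_mod_cast Nat.choose_pos hn
    have c2 : (0 : ℝ) < ((n + 1).choose h : ℝ) := by
      exact_mod_cast Nat.choose_pos (by omega : h ≤ n + 1)
    rw [hr]
    simp only
    rw [div_le_div_iff₀ c2 c1]
    have h1 := MonoRatio_step H (n := n)
    have h2 := Nat.choose_mul_succ_eq n h
    have h3 : maxCopies H (n + 1) * n.choose h * (n + 1 - h) ≤
        maxCopies H n * (n + 1).choose h * (n + 1 - h) := by
      calc maxCopies H (n + 1) * n.choose h * (n + 1 - h)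
          = (maxCopies H (n + 1) * (n + 1 - h)) * n.choose h := by ring
        _ ≤ ((n + 1) * maxCopies H n) * n.choose h := Nat.mul_le_mul_right _ h1
        _ = maxCopies H n * (n.choose h * (n + 1)) := by ring
        _ = maxCopies H n * ((n + 1).choose h * (n + 1 - h)) := by rw [h2]
        _ = _ := by ring
    have h4 := Nat.le_of_mul_le_mul_right h3 (by omega)
    exact_mod_cast h4
  have hanti : ∀ n m, h ≤ n → n ≤ m → r m ≤ r n := by
    intro n m hn hnm
    induction m, hnm using Nat.le_induction with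
    | base => exact le_rfl
    | succ m hm ih => exact (hstep m (hn.trans hm)).trans ih
  -- lower bound along the powers of `h`
  have hcHH : (1 : ℝ) ≤ (copies H H : ℝ) := by
    have h1 := le_copies H H (ι := Unit) (fun _ => SimpleGraph.Embedding.refl)
      (fun i j _ => Subsingleton.elim i j)
    rw [Nat.card_unique] at h1
    exact_mod_cast h1
  have hlow : ∀ j : ℕ, h ≤ h ^ j → (h.factorial : ℝ) / ((h : ℝ) ^ h - h) *
      (1 - (((h : ℝ) ^ (h - 1))⁻¹) ^ j) ≤ r (h ^ j) := by
    intro j hj
    have c1 : (0 : ℝ) < ((h ^ j).choose h : ℝ) := by exact_mod_cast Nat.choose_pos hj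
    have c2 : ((h ^ j).choose h : ℝ) * (h.factorial : ℝ) ≤ (h : ℝ) ^ (h * j) := by
      have := Nat.choose_le_pow_div (α := ℝ) h (h ^ j)
      rw [le_div_iff₀ (by positivity)] at this
      refine this.trans (le_of_eq ?_)
      push_cast
      rw [← pow_mul, mul_comm]
    have c3 := max_pow hh H H j
    rw [Fintype.card_fin] at c3
    have c4 : (h : ℝ) ^ (h * j) * (1 - ((h : ℝ) ^ (h - 1))⁻¹ ^ j) = (h : ℝ) ^ (h * j) - h ^ j := by
      have : (h : ℝ) ^ (h * j) = (h : ℝ) ^ j * ((h : ℝ) ^ (h - 1)) ^ j := by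
        rw [← pow_mul, ← pow_add]
        congr 1
        obtain ⟨m, rfl⟩ := Nat.exists_eq_add_of_le hh
        have : 2 + m - 1 = 1 + m := by omega
        rw [this]
        ring
      rw [this, inv_pow]
      have hne : ((h : ℝ) ^ (h - 1)) ^ j ≠ 0 := by positivity
      field_simp
    have hinv : ((h : ℝ) ^ (h - 1))⁻¹ ^ j ≤ 1 := by
      apply pow_le_one₀ (by positivity)
      rw [inv_le_one₀ (by positivity)]
      exact one_le_pow₀ hh1.le
    have hnn : 0 ≤ (h : ℝ) ^ (h * j) - h ^ j := by
      rw [← c4]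
      apply mul_nonneg (by positivity)
      linarith
    have c5 : (h : ℝ) ^ (h * j) - h ^ j ≤ (maxCopies H (h ^ j) : ℝ) * ((h : ℝ) ^ h - h) := by
      refine le_trans ?_ c3
      nlinarith
    rw [hr]
    simp only
    rw [div_mul_eq_mul_div, div_le_div_iff₀ hpos c1]
    calc (h.factorial : ℝ) * (1 - ((h : ℝ) ^ (h - 1))⁻¹ ^ j) * ((h ^ j).choose h : ℝ)
        = (1 - ((h : ℝ) ^ (h - 1))⁻¹ ^ j) * (((h ^ j).choose h : ℝ) * (h.factorial : ℝ)) := by ring
      _ ≤ (1 - ((h : ℝ) ^ (h - 1))⁻¹ ^ j) * (h : ℝ) ^ (h * j) := by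
          apply mul_le_mul_of_nonneg_left c2
          linarith
      _ = (h : ℝ) ^ (h * j) - h ^ j := by rw [← c4]; ring
      _ ≤ _ := c5
  have hlim : Tendsto (fun j : ℕ => (h.factorial : ℝ) / ((h : ℝ) ^ h - h) *
      (1 - (((h : ℝ) ^ (h - 1))⁻¹) ^ j)) atTop (nhds ((h.factorial : ℝ) / ((h : ℝ) ^ h - h))) := by
    have h3 : Tendsto (fun k : ℕ => ((h : ℝ) ^ (h - 1))⁻¹ ^ k) atTop (nhds 0) := by
      apply tendsto_pow_atTop_nhds_zero_of_lt_one
      · positivity
      · rw [inv_lt_one₀ (by positivity)]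
        exact one_lt_pow₀ hh1 (by omega)
    have h4 := (tendsto_const_nhds (x := (h.factorial : ℝ) / ((h : ℝ) ^ h - h))).mul
      ((tendsto_const_nhds (x := (1 : ℝ))).sub h3)
    simpa using h4
  have hge : ∀ n, h ≤ n → (h.factorial : ℝ) / ((h : ℝ) ^ h - h) ≤ r n := by
    intro n hn
    apply le_of_tendsto hlim
    have ht : Tendsto (fun k : ℕ => h ^ k) atTop atTop :=
      tendsto_pow_atTop_atTop_of_one_lt (by omega)
    filter_upwards [ht.eventually_ge_atTop n] with j hj
    exact (hlow j (hn.trans hj)).trans (hanti n (h ^ j) hn hj)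
  -- upper bound
  have hupper : ∀ n, h ≤ n → r n ≤ ((n : ℝ) ^ h / (h.factorial : ℝ)) / (n.choose h : ℝ) *
      ((h.factorial : ℝ) / ((h : ℝ) ^ h - h)) := by
    intro n hn
    have c1 : (0 : ℝ) < (n.choose h : ℝ) := by exact_mod_cast Nat.choose_pos hn
    have h1 := hup n
    have h2 : (maxCopies H n : ℝ) ≤ (n : ℝ) ^ h / ((h : ℝ) ^ h - h) := by
      rw [le_div_iff₀ hpos]
      exact h1
    rw [hr]
    simp only
    refine (div_le_div_of_nonneg_right h2 c1.le).trans (le_of_eq ?_)
    field_simp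
  have hlim2 : Tendsto (fun n : ℕ => ((n : ℝ) ^ h / (h.factorial : ℝ)) / (n.choose h : ℝ) *
      ((h.factorial : ℝ) / ((h : ℝ) ^ h - h))) atTop (nhds ((h.factorial : ℝ) / ((h : ℝ) ^ h - h))) := by
    have h1 := (isEquivalent_choose h).symm
    have h2 : ∀ᶠ n : ℕ in atTop, ((n.choose h : ℕ) : ℝ) ≠ 0 := by
      filter_upwards [eventually_ge_atTop h] with n hn
      have : 0 < n.choose h := Nat.choose_pos hn
      positivity
    rw [Asymptotics.isEquivalent_iff_tendsto_one h2] at h1
    have h3 := h1.mul_const ((h.factorial : ℝ) / ((h : ℝ) ^ h - h))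
    rw [one_mul] at h3
    exact h3
  unfold Member
  exact tendsto_of_tendsto_of_tendsto_of_le_of_le' tendsto_const_nhds hlim2
    (by filter_upwards [eventually_ge_atTop h] with n hn; exact hge n hn)
    (by filter_upwards [eventually_ge_atTop h] with n hn; exact hupper n hn)

end Pool.Agent.Icy
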