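import Pool.Agent.Icy.MainW
import Pool.Agent.Icy.CopyLe
import Pool.Agent.Icy.MonoRatio

/-!
# The Pippenger-Golumbic conjecture for all large cycles
-/

set_option autoImplicit false

open Finset
open scoped Classical

namespace Pool.Agent.Icy

open Pool.Agent.H68.Ind

theorem cycles_member : ∃ k₀ : ℕ, ∀ k : ℕ, k₀ ≤ k → Member (SimpleGraph.cycleGraph k) := by
  obtain ⟨k₀, hk₀⟩ := mainW
  refine ⟨max k₀ 5, fun k hk => ?_⟩
  have hk1 : k₀ ≤ k := le_trans (le_max_left _ _) hk
  have hk5 : 5 ≤ k := le_trans (le_max_right _ _) hk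
  haveI : NeZero k := ⟨by omega⟩
  apply member_of_le (by omega)
  intro n
  have hkR : (5 : ℝ) ≤ (k : ℝ) := by exact_mod_cast hk5
  have hkk : (k : ℝ) < (k : ℝ) ^ k := by
    have h1 : (k : ℝ) ^ 1 < (k : ℝ) ^ k := pow_lt_pow_right₀ (by linarith) (by omega)
    simpa using h1
  rcases Nat.eq_zero_or_pos n with hn | hn
  · subst hn
    obtain ⟨G, hG⟩ := exists_max (SimpleGraph.cycleGraph k) 0
    have h0 : copies (SimpleGraph.cycleGraph k) G = 0 := by
      unfold copies
      have : {S : Finset (Fin 0) | S.card = k ∧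
          Nonempty (G.induce (S : Set (Fin 0)) ≃g SimpleGraph.cycleGraph k)} = ∅ := by
        ext S
        simp only [Set.mem_setOf_eq, Set.mem_empty_iff_false, iff_false, not_and]
        intro hS
        have : S.card ≤ 0 := by simpa using Finset.card_le_univ S
        omega
      rw [this, Set.ncard_empty]
    rw [← hG, h0]
    simp only [Nat.cast_zero, zero_mul]
    positivity
  · obtain ⟨G, hG⟩ := exists_max (SimpleGraph.cycleGraph k) n
    rw [← hG]
    have hn1 : (0 : ℝ) < (n : ℝ) := by exact_mod_cast hn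
    have h1 := copies_NN k hk5 n hn G
    have h2 := hk₀ k hk1 (Fin n) G (fun _ => (k : ℝ) / n) (fun _ => by positivity) (by
      rw [Finset.sum_const, Finset.card_univ, Fintype.card_fin, nsmul_eq_mul]
      field_simp)
    have hc : (0 : ℝ) < 1 - (k : ℝ) / (k : ℝ) ^ k := by
      have : (k : ℝ) / (k : ℝ) ^ k < 1 := by
        rw [div_lt_one (by linarith)]; exact hkk
      linarith
    have h3 := mul_le_mul_of_nonneg_right h1 hc.le
    have h4 := h3.trans h2
    have hk0 : (0 : ℝ) < (k : ℝ) := by linarith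
    have hkk0 : (0 : ℝ) < (k : ℝ) ^ k := by positivity
    have h5 : 2 * (k : ℝ) * (copies (SimpleGraph.cycleGraph k) G : ℝ) * ((k : ℝ) / n) ^ k *
        (1 - (k : ℝ) / (k : ℝ) ^ k) =
        2 * (k : ℝ) * ((copies (SimpleGraph.cycleGraph k) G : ℝ) * ((k : ℝ) ^ k - k) / (n : ℝ) ^ k)
        := by
      rw [div_pow]
      field_simp
    rw [h5] at h4
    have h6 : (copies (SimpleGraph.cycleGraph k) G : ℝ) * ((k : ℝ) ^ k - k) / (n : ℝ) ^ k ≤ 1 := by
      have : 2 * (k : ℝ) * ((copies (SimpleGraph.cycleGraph k) G : ℝ) * ((k : ℝ) ^ k - k) /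
          (n : ℝ) ^ k) ≤ 2 * (k : ℝ) * 1 := by linarith
      exact le_of_mul_le_mul_left this (by positivity)
    rwa [div_le_one (by positivity)] at h6

end Pool.Agent.Icy
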