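import Pool.Agent.Icy.WrDefs

/-!
# Cycles inside one class, monotone cycles

`ownB`: `max` for the weights `x` restricted to `T j`.
`monoB`: for each `j` and each direction the cycles with `v i ∈ T (j ± i)` for all `i` and no wrong pair
correspond to elements of `piFinset T` without wrong pair (`u l = v (±(l - j))`): total `≤ 2 k WR`.
-/

set_option autoImplicit false

open Finset
open scoped Classical

namespace Pool.Agent.Icy

variable {V : Type} [Fintype V] {G : SimpleGraph V} {k : ℕ} [NeZero k] {x : V → ℝ}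

theorem ownB (h : Opt G k x) (T : ZMod k → Finset V) (j : ZMod k) :
    ∑ v ∈ (cyc G k).filter (fun v => ∀ i, v i ∈ T j), cw x v ≤
      NN G k x * (wt x (T j) / k) ^ k := by
  set y : V → ℝ := fun v => if v ∈ T j then x v else 0 with hy
  have hy0 : ∀ v, 0 ≤ y v := by
    intro v
    simp only [hy]
    split_ifs
    · exact (h.pos v).le
    · exact le_refl _
  have hsum : ∑ v, y v = wt x (T j) := by
    unfold wt
    simp only [hy]
    rw [← Finset.sum_filter]
    congr 1
    ext v
    simp
  have hNN : NN G k y = ∑ v ∈ (cyc G k).filter (fun v => ∀ i, v i ∈ T j), cw x v := by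
    unfold NN
    rw [Finset.sum_filter]
    refine Finset.sum_congr rfl fun v _ => ?_
    split_ifs with hv
    · unfold cw
      refine Finset.prod_congr rfl fun i _ => ?_
      simp only [hy, hv i, if_true]
    · push Not at hv
      obtain ⟨i, hi⟩ := hv
      unfold cw
      refine Finset.prod_eq_zero (Finset.mem_univ i) ?_
      simp only [hy, hi, if_false]
  have := h.max y hy0
  rw [hNN, hsum] at this
  exact this

theorem OwnMono_one (hx : ∀ v, 0 ≤ x v) (T : ZMod k → Finset V) (e : ZMod k ≃ ZMod k) :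
    ∑ v ∈ (cyc G k).filter (fun v => ¬ hasWr G T v ∧ ∀ l, v (e l) ∈ T l), cw x v ≤ WR G x T := by
  have hinj : Function.Injective (fun (v : ZMod k → V) (l : ZMod k) => v (e l)) := by
    intro v w hvw
    funext i
    have := congrFun hvw (e.symm i)
    simpa using this
  have e1 : ∑ v ∈ (cyc G k).filter (fun v => ¬ hasWr G T v ∧ ∀ l, v (e l) ∈ T l), cw x v =
      ∑ u ∈ ((cyc G k).filter (fun v => ¬ hasWr G T v ∧ ∀ l, v (e l) ∈ T l)).map
        ⟨fun v l => v (e l), hinj⟩, ∏ l, x (u l) := by
    rw [Finset.sum_map]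
    refine Finset.sum_congr rfl fun v _ => ?_
    unfold cw
    exact (Equiv.prod_comp e (fun i => x (v i))).symm
  rw [e1]
  unfold WR
  refine Finset.sum_le_sum_of_subset_of_nonneg ?_ ?_
  · intro u hu
    rw [Finset.mem_map] at hu
    obtain ⟨v, hv, rfl⟩ := hu
    rw [Finset.mem_filter] at hv
    obtain ⟨_, hwr, hT⟩ := hv
    rw [Finset.mem_filter]
    refine ⟨Fintype.mem_piFinset.2 fun l => hT l, ?_⟩
    rintro ⟨a, b, hab, hW⟩
    exact hwr ⟨e a, e b, a, b, hab, hT a, hT b, hW⟩
  · intro u _ _
    exact Finset.prod_nonneg fun l _ => hx _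

theorem monoB (hk : 7 ≤ k) (hx : ∀ v, 0 ≤ x v) (T : ZMod k → Finset V) :
    ∑ v ∈ (cyc G k).filter (fun v => ¬ hasWr G T v ∧
      ((∃ j, ∀ i, v i ∈ T (j + i)) ∨ (∃ j, ∀ i, v i ∈ T (j - i)))), cw x v ≤
      2 * k * WR G x T := by
  have hcw : ∀ v : ZMod k → V, 0 ≤ cw x v := fun v => Finset.prod_nonneg fun i _ => hx _
  have hA : ∀ j : ZMod k, ∑ v ∈ (cyc G k).filter (fun v => ¬ hasWr G T v ∧
      ∀ i, v i ∈ T (j + i)), cw x v ≤ WR G x T := by
    intro j
    refine le_trans (le_of_eq ?_) (OwnMono_one (G := G) hx T (Equiv.subRight j))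
    congr 1
    apply Finset.filter_congr
    intro v _
    refine and_congr_right fun _ => ⟨fun hv l => ?_, fun hv i => ?_⟩
    · have := hv (l - j)
      simpa using this
    · have := hv (j + i)
      simpa using this
  have hB : ∀ j : ZMod k, ∑ v ∈ (cyc G k).filter (fun v => ¬ hasWr G T v ∧
      ∀ i, v i ∈ T (j - i)), cw x v ≤ WR G x T := by
    intro j
    refine le_trans (le_of_eq ?_) (OwnMono_one (G := G) hx T (Equiv.subLeft j))
    congr 1
    apply Finset.filter_congr
    intro v _
    refine and_congr_right fun _ => ⟨fun hv l => ?_, fun hv i => ?_⟩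
    · have := hv (j - l)
      simpa using this
    · have := hv (j - i)
      simpa using this
  calc ∑ v ∈ (cyc G k).filter (fun v => ¬ hasWr G T v ∧
      ((∃ j, ∀ i, v i ∈ T (j + i)) ∨ (∃ j, ∀ i, v i ∈ T (j - i)))), cw x v
      ≤ ∑ v ∈ cyc G k, ∑ j : ZMod k,
        ((if (¬ hasWr G T v ∧ ∀ i, v i ∈ T (j + i)) then cw x v else 0) +
          (if (¬ hasWr G T v ∧ ∀ i, v i ∈ T (j - i)) then cw x v else 0)) := by
        rw [Finset.sum_filter]
        refine Finset.sum_le_sum fun v _ => ?_
        have hnn : ∀ j : ZMod k, 0 ≤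
            ((if (¬ hasWr G T v ∧ ∀ i, v i ∈ T (j + i)) then cw x v else 0) +
            (if (¬ hasWr G T v ∧ ∀ i, v i ∈ T (j - i)) then cw x v else 0)) := by
          intro j
          have := hcw v
          split_ifs <;> simp [this]
        split_ifs with hv
        · obtain ⟨h1, ⟨j, hj⟩ | ⟨j, hj⟩⟩ := hv
          · refine le_trans ?_ (Finset.single_le_sum (fun j _ => hnn j) (Finset.mem_univ j))
            rw [if_pos ⟨h1, hj⟩]
            have := hcw v
            split_ifs <;> simp [this]
          · refine le_trans ?_ (Finset.single_le_sum (fun j _ => hnn j) (Finset.mem_univ j))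
            rw [if_pos (c := ¬ hasWr G T v ∧ ∀ i, v i ∈ T (j - i)) ⟨h1, hj⟩]
            have := hcw v
            split_ifs <;> simp [this]
        · exact Finset.sum_nonneg fun j _ => hnn j
    _ = ∑ j : ZMod k, (∑ v ∈ (cyc G k).filter (fun v => ¬ hasWr G T v ∧
          ∀ i, v i ∈ T (j + i)), cw x v + ∑ v ∈ (cyc G k).filter (fun v => ¬ hasWr G T v ∧
          ∀ i, v i ∈ T (j - i)), cw x v) := by
        rw [Finset.sum_comm]
        refine Finset.sum_congr rfl fun j _ => ?_
        rw [Finset.sum_add_distrib, Finset.sum_filter, Finset.sum_filter]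
    _ ≤ ∑ j : ZMod k, (WR G x T + WR G x T) :=
        Finset.sum_le_sum fun j _ => add_le_add (hA j) (hB j)
    _ = 2 * k * WR G x T := by
        rw [Finset.sum_const, Finset.card_univ, ZMod.card, nsmul_eq_mul]
        ring

end Pool.Agent.Icy
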