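import Pool.Agent.Icy.RightB
import Pool.Agent.Icy.OwnMono
import Pool.Agent.Icy.BadB

/-!
# The exact inequality

`splitB`, `badB`, `monoB`, `rightB`, `ownB`: with `Π = ∏ wt (T j)`, `W = wrM ≤ η`, `o = Σ (wt (T j)/k)^k ≤ 1/4`,
`NN ≤ 100 η W NN + 2k Π (1 - W/2 (1-6η)) + NN o`.  First `2kΠ ≥ NN (1 - 100 η W - o) ≥ NN/2`; then
`2k Π W/2 (1-6η) ≥ NN W (1-6η)/4 ≥ 100 η W NN`.
-/

set_option autoImplicit false

open Finset
open scoped Classical

namespace Pool.Agent.Icy

variable {V : Type} [Fintype V] {G : SimpleGraph V} {k : ℕ} [NeZero k] {x : V → ℝ}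

theorem FinalP_wt_nonneg (h : Opt G k x) (S : Finset V) : 0 ≤ wt x S :=
  Finset.sum_nonneg fun v _ => (h.pos v).le

theorem FinalP_own (hk : 100 ≤ k) (h : Opt G k x) {T : ZMod k → Finset V} {η : ℝ}
    (hη : η ≤ 1 / 1000) (hS : S92 G x T η) : ∑ j, (wt x (T j) / k) ^ k ≤ 1 / 4 := by
  have hk' : (100 : ℝ) ≤ k := by exact_mod_cast hk
  have hk0 : (0 : ℝ) < k := by linarith
  have h1 : ∀ j ∈ (univ : Finset (ZMod k)), (wt x (T j) / k) ^ k ≤ 2 / (k : ℝ) ^ 2 := by
    intro j _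
    have ht0 := FinalP_wt_nonneg h (T j)
    have ht1 : wt x (T j) ≤ 1001 / 1000 := by
      have := (abs_le.mp (hS.size j)).2
      linarith
    have hq0 : 0 ≤ wt x (T j) / k := div_nonneg ht0 hk0.le
    have hq1 : wt x (T j) / k ≤ 1 := by
      rw [div_le_one hk0]
      linarith
    have h2 : (wt x (T j) / k) ^ k ≤ (wt x (T j) / k) ^ 2 :=
      pow_le_pow_of_le_one hq0 hq1 (by omega)
    refine h2.trans ?_
    rw [div_pow]
    apply div_le_div_of_nonneg_right _ (by positivity)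
    nlinarith
  have h3 : ∑ j : ZMod k, (wt x (T j) / k) ^ k ≤ ∑ _j : ZMod k, 2 / (k : ℝ) ^ 2 :=
    Finset.sum_le_sum h1
  refine h3.trans ?_
  rw [Finset.sum_const, Finset.card_univ, ZMod.card, nsmul_eq_mul]
  have : (k : ℝ) * (2 / (k : ℝ) ^ 2) = 2 / k := by
    field_simp
  rw [this, div_le_iff₀ hk0]
  linarith

theorem finalP (hk : 100 ≤ k) (h : Opt G k x) {T : ZMod k → Finset V} {η : ℝ} (hη0 : 0 ≤ η)
    (hη : η ≤ 1 / 1000) (hS : S92 G x T η) :
    NN G k x ≤ 2 * k * (∏ j, wt x (T j)) + NN G k x * ∑ j, (wt x (T j) / k) ^ k := by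
  have hk' : (100 : ℝ) ≤ k := by exact_mod_cast hk
  have hx : ∀ v, 0 ≤ x v := fun v => (h.pos v).le
  have e1 := splitB (by omega) h hS
  have e2 := badB (by omega) h hS
  have e3 := monoB (G := G) (k := k) (x := x) (by omega) hx T
  have e4 := rightB (G := G) (k := k) (x := x) (by omega) hx hη0 (by linarith) hS
  have e5 : ∑ j, ∑ v ∈ (cyc G k).filter (fun v => ∀ i, v i ∈ T j), cw x v ≤
      NN G k x * ∑ j, (wt x (T j) / k) ^ k := by
    rw [Finset.mul_sum]
    exact Finset.sum_le_sum fun j _ => ownB h T j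
  have e6 := FinalP_own hk h hη hS
  have hN : 0 ≤ NN G k x := by
    have := h.one
    linarith
  have hP : 0 ≤ ∏ j, wt x (T j) := Finset.prod_nonneg fun j _ => FinalP_wt_nonneg h (T j)
  have hW0 : 0 ≤ wrM G x T := by
    unfold wrM
    apply Finset.sum_nonneg
    intro i _
    apply Finset.sum_nonneg
    intro u _
    apply mul_nonneg (hx u)
    unfold wrv
    exact Finset.sum_nonneg fun j _ => FinalP_wt_nonneg h _
  have hW1 : wrM G x T ≤ η := hS.wrong
  set W := wrM G x T with hW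
  set PP := ∏ j, wt x (T j) with hPP
  set o := ∑ j, (wt x (T j) / k) ^ k with ho
  set N := NN G k x with hNN
  have f1 : N ≤ N * (100 * η * W) + 2 * k * (PP * (1 - W / 2 * (1 - 6 * η))) + N * o := by
    have := mul_le_mul_of_nonneg_left e4 (show (0 : ℝ) ≤ 2 * k by linarith)
    linarith
  have hηW0 : 0 ≤ η * W := mul_nonneg hη0 hW0
  have hηW : 100 * η * W ≤ 1 / 4 := by
    have : η * W ≤ 1 / 1000 * (1 / 1000) := mul_le_mul hη (hW1.trans hη) hW0 (by norm_num)
    linarith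
  have hkP : 0 ≤ 2 * (k : ℝ) * PP := mul_nonneg (by linarith) hP
  have hWη : 0 ≤ W / 2 * (1 - 6 * η) := mul_nonneg (by linarith) (by linarith)
  have f2 : N / 2 ≤ 2 * k * PP := by
    have g1 : 2 * (k : ℝ) * (PP * (1 - W / 2 * (1 - 6 * η))) ≤ 2 * k * PP := by
      have := mul_nonneg hkP hWη
      nlinarith
    have g2 : N * (100 * η * W) ≤ N * (1 / 4) := mul_le_mul_of_nonneg_left hηW hN
    have g3 : N * o ≤ N * (1 / 4) := mul_le_mul_of_nonneg_left e6 hN
    linarith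
  have f3 : N * (100 * η * W) ≤ 2 * k * PP * (W / 2 * (1 - 6 * η)) := by
    have g1 : N / 2 * (W / 2 * (1 - 6 * η)) ≤ 2 * k * PP * (W / 2 * (1 - 6 * η)) :=
      mul_le_mul_of_nonneg_right f2 hWη
    have hNW : 0 ≤ N * W := mul_nonneg hN hW0
    have g2 : N * (100 * η * W) ≤ N / 2 * (W / 2 * (1 - 6 * η)) := by
      have : (0 : ℝ) ≤ N * W * ((1 - 6 * η) / 4 - 100 * η) := mul_nonneg hNW (by linarith)
      nlinarith
    linarith
  have f4 : 2 * (k : ℝ) * (PP * (1 - W / 2 * (1 - 6 * η))) =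
      2 * k * PP - 2 * k * PP * (W / 2 * (1 - 6 * η)) := by ring
  rw [f4] at f1
  linarith

theorem sum_wt (h : Opt G k x) {T : ZMod k → Finset V} {η : ℝ} (hS : S92 G x T η) :
    ∑ j, wt x (T j) = k := by
  rw [← h.sum]
  have hU : (univ : Finset (ZMod k)).biUnion T = univ := by
    ext w
    simp only [Finset.mem_biUnion, Finset.mem_univ, true_and, iff_true]
    exact hS.cover w
  rw [← hU, Finset.sum_biUnion]
  · rfl
  · intro i _ j _ hij
    exact hS.disj i j hij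

end Pool.Agent.Icy
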