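import Pool.Agent.Icy.AcDefs
import Pool.Agent.Icy.Markov

/-!
# The kernel of the random cycle

`kmu x R n s z` : `R + n` vertices to go at `s`, horizon after `n` steps.
At `s = st v p`, `R + n = k - p` : `kmu = x z * rho v z`.
`kmu_markov`: `G`-prefix function times a state function: `markov` with `F v z = Gf v * H (step z)`.
-/

set_option autoImplicit false

open Finset
open scoped Classical

namespace Pool.Agent.Icy

variable {V : Type} [Fintype V] {G : SimpleGraph V} {k : ℕ} [NeZero k] {x : V → ℝ}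

noncomputable def kmu {V : Type} (G : SimpleGraph V) (x : V → ℝ) (R n : ℕ) (s : St V) (z : V) : ℝ :=
  x z * cnt G x (R + n - 1) (step G s z) / cnt G x (R + n) s

/-- the good reveals for the random cycle -/
def gmu {V : Type} (G : SimpleGraph V) (x : V → ℝ) (δ : ℝ) (_ : ℕ) (s : St V) (y : V) : Prop :=
  |nn G x y s - 1| ≤ δ

theorem KMu_wt_nonneg {V : Type} {x : V → ℝ} (hx : ∀ v, 0 ≤ x v) (S : Finset V) :
    0 ≤ wt x S :=
  Finset.sum_nonneg fun v _ => hx v

theorem KMu_cnt_nonneg {V : Type} {G : SimpleGraph V} {x : V → ℝ} (hx : ∀ v, 0 ≤ x v) :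
    ∀ (r : ℕ) (s : St V), 0 ≤ cnt G x r s
  | 0, _ => by rw [cnt]; exact zero_le_one
  | 1, s => by rw [cnt]; exact KMu_wt_nonneg hx _
  | (r + 2), s => by
    rw [cnt]
    exact Finset.sum_nonneg fun z _ => mul_nonneg (hx z) (KMu_cnt_nonneg hx (r + 1) _)

theorem kmu_ker {V : Type} {G : SimpleGraph V} {x : V → ℝ} (hx : ∀ v, 0 ≤ x v) {R : ℕ}
    (hR : 2 ≤ R) : Ker G (kmu G x R) := by
  constructor
  · intro n s z
    unfold kmu
    exact div_nonneg (mul_nonneg (hx z) (KMu_cnt_nonneg hx _ _)) (KMu_cnt_nonneg hx _ _)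
  · intro n s
    unfold kmu
    obtain ⟨r, hr⟩ : ∃ r, R + n = r + 2 := ⟨R + n - 2, by omega⟩
    rw [hr, ← Finset.sum_div]
    have : r + 2 - 1 = r + 1 := by omega
    rw [this]
    have h2 : ∑ z ∈ sA G s, x z * cnt G x (r + 1) (step G s z) = cnt G x (r + 2) s := by
      rw [cnt]
    rw [h2]
    exact div_self_le_one _

theorem kmu_st {p R n : ℕ} (hn : R + n = k - p) (v : ZMod k → V) (z : V) :
    kmu G x R n (st G v p) z = x z * rho G k x p v z := by
  unfold kmu rho
  rw [hn, mul_div_assoc]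

theorem kmu_markov (hk : 5 ≤ k) (hx : ∀ v, 0 ≤ x v) {p R n : ℕ} (hp : 2 ≤ p) (hpk : p + 2 ≤ k)
    (hn : R + n = k - p) (F : (ZMod k → V) → V → ℝ) (hF : ∀ z, Dep k p (fun v => F v z)) :
    EE G k x (fun v => ∑ z ∈ sA G (st G v p), kmu G x R n (st G v p) z * F v z) =
      EE G k x (fun v => F v (v (p : ZMod k))) := by
  rw [markov hk hx hp hpk F hF]
  congr 1
  funext v
  apply Finset.sum_congr rfl
  intro z _
  rw [kmu_st hn]

end Pool.Agent.Icy
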