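import Pool.Agent.Icy.T2
import Pool.Agent.Icy.O3

/-!
# L1 errors and change of measure

`ee p = EE ∑_{z∈sA(st v p)} x z |rho z - 1|`.  `phi t ≥ (3/2)(t-1)²/(t+2)` for `t ≥ 0`;
Cauchy-Schwarz (`EE_cs_sum`): `ee² ≤ EE ∑ x (rho-1)²/(rho+2) · EE ∑ x (rho+2) ≤ (2/3) loss · 13`
(`∑ x rho = 1`, `wt sA ≤ 6`).  `Σ ee ≤ √k √(9 log 2) ≤ 3 √k`.
`cm`: by `markov` the difference is `EE ∑ x (1 - rho) F`.
-/

set_option autoImplicit false

open Finset
open scoped Classical

namespace Pool.Agent.Icy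

variable {V : Type} [Fintype V] {G : SimpleGraph V} {k : ℕ} [NeZero k] {x : V → ℝ}

noncomputable def ee (G : SimpleGraph V) (k : ℕ) [NeZero k] (x : V → ℝ) (p : ℕ) : ℝ :=
  EE G k x (fun v => ∑ z ∈ sA G (st G v p), x z * |rho G k x p v z - 1|)

/-- auxiliary function: `log t ≥ (t-1)(5t+1)/(2t(t+2))` -/
noncomputable def L1_F (t : ℝ) : ℝ := Real.log t - (t - 1) * (5 * t + 1) / (2 * (t * (t + 2)))

theorem L1_F_deriv {t : ℝ} (ht : 0 < t) :
    HasDerivAt L1_F ((t - 1) ^ 3 / (t ^ 2 * (t + 2) ^ 2)) t := by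
  have h1 : HasDerivAt Real.log t⁻¹ t := Real.hasDerivAt_log ht.ne'
  have h2 : HasDerivAt (fun t : ℝ => (t - 1) * (5 * t + 1)) (1 * (5 * t + 1) + (t - 1) * (5 * 1)) t := by
    refine HasDerivAt.mul ((hasDerivAt_id t).sub_const 1) ?_
    exact ((hasDerivAt_id t).const_mul 5).add_const 1
  have h3 : HasDerivAt (fun t : ℝ => 2 * (t * (t + 2))) (2 * (1 * (t + 2) + t * 1)) t := by
    refine HasDerivAt.const_mul 2 ?_
    exact HasDerivAt.mul (hasDerivAt_id t) ((hasDerivAt_id t).add_const 2)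
  have hne : (2 * (t * (t + 2)) : ℝ) ≠ 0 := by positivity
  have h4 := h1.sub (h2.div h3 hne)
  have h5 : t⁻¹ - ((1 * (5 * t + 1) + (t - 1) * (5 * 1)) * (2 * (t * (t + 2))) -
      (t - 1) * (5 * t + 1) * (2 * (1 * (t + 2) + t * 1))) / (2 * (t * (t + 2))) ^ 2 =
      (t - 1) ^ 3 / (t ^ 2 * (t + 2) ^ 2) := by
    have ht2 : t + 2 ≠ 0 := by positivity
    field_simp
    ring
  rw [h5] at h4
  exact h4

theorem L1_F_nonneg {t : ℝ} (ht : 0 < t) : 0 ≤ L1_F t := by
  have hF1 : L1_F 1 = 0 := by simp [L1_F]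
  rcases le_total 1 t with h | h
  · have hmono : MonotoneOn L1_F (Set.Ici 1) := by
      apply monotoneOn_of_deriv_nonneg (convex_Ici 1)
      · intro s hs
        exact (L1_F_deriv (lt_of_lt_of_le one_pos hs)).continuousAt.continuousWithinAt
      · intro s hs
        rw [interior_Ici] at hs
        exact (L1_F_deriv (lt_trans one_pos hs)).differentiableAt.differentiableWithinAt
      · intro s hs
        rw [interior_Ici] at hs
        rw [(L1_F_deriv (lt_trans one_pos hs)).deriv]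
        have h1 : 0 < s - 1 := sub_pos.2 hs
        have h2 : 0 < s := lt_trans one_pos hs
        positivity
    rw [← hF1]
    exact hmono (Set.mem_Ici.2 le_rfl) (Set.mem_Ici.2 h) h
  · have hanti : AntitoneOn L1_F (Set.Ioc 0 1) := by
      apply antitoneOn_of_deriv_nonpos (convex_Ioc 0 1)
      · intro s hs
        exact (L1_F_deriv hs.1).continuousAt.continuousWithinAt
      · intro s hs
        rw [interior_Ioc] at hs
        exact (L1_F_deriv hs.1).differentiableAt.differentiableWithinAt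
      · intro s hs
        rw [interior_Ioc] at hs
        rw [(L1_F_deriv hs.1).deriv]
        apply div_nonpos_of_nonpos_of_nonneg
        · have h1 : 0 < 1 - s := sub_pos.2 hs.2
          have h2 : (s - 1) ^ 3 = - (1 - s) ^ 3 := by ring
          rw [h2]
          have := pow_pos h1 3
          linarith
        · positivity
    rw [← hF1]
    exact hanti ⟨ht, h⟩ ⟨one_pos, le_rfl⟩ h

theorem L1_phi {t : ℝ} (ht : 0 ≤ t) : (t - 1) ^ 2 / (t + 2) ≤ 2 / 3 * phi t := by
  rcases eq_or_lt_of_le ht with h | h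
  · subst h
    unfold phi
    norm_num
  · have h1 := L1_F_nonneg h
    unfold L1_F at h1
    have h2 : (t - 1) * (5 * t + 1) / (2 * (t * (t + 2))) ≤ Real.log t := by linarith
    have h3 : t * ((t - 1) * (5 * t + 1) / (2 * (t * (t + 2)))) ≤ t * Real.log t :=
      mul_le_mul_of_nonneg_left h2 h.le
    have h4 : t * ((t - 1) * (5 * t + 1) / (2 * (t * (t + 2)))) - t + 1 =
        3 / 2 * ((t - 1) ^ 2 / (t + 2)) := by
      have ht2 : t + 2 ≠ 0 := by positivity
      field_simp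
      ring
    unfold phi
    linarith

theorem L1_EE_abs (hx : ∀ v, 0 ≤ x v) (f : (ZMod k → V) → ℝ) :
    |EE G k x f| ≤ EE G k x (fun v => |f v|) := by
  have h1 : EE G k x f ≤ EE G k x (fun v => |f v|) := EE_mono hx fun v _ => le_abs_self _
  have h2 : EE G k x (fun v => (-1) * f v) ≤ EE G k x (fun v => |f v|) :=
    EE_mono hx fun v _ => by rw [neg_one_mul]; exact neg_le_abs _
  rw [EE_mul] at h2
  rw [abs_le]
  constructor <;> linarith

theorem ee_nonneg (hx : ∀ v, 0 ≤ x v) (p : ℕ) : 0 ≤ ee G k x p := by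
  unfold ee
  apply EE_nonneg hx
  intro v _
  exact Finset.sum_nonneg fun z _ => mul_nonneg (hx z) (abs_nonneg _)

theorem ee_sq (hk : 7 ≤ k) (h : Opt G k x) {p : ℕ} (hp : 2 ≤ p) (hpk : p + 2 ≤ k) :
    ee G k x p ^ 2 ≤ 9 * loss G k x p := by
  have hx : ∀ v, 0 ≤ x v := fun v => (h.pos v).le
  have h1 : ee G k x p = EE G k x (fun v => ∑ z ∈ sA G (st G v p), x z *
      ((|rho G k x p v z - 1| / Real.sqrt (rho G k x p v z + 2)) *
        Real.sqrt (rho G k x p v z + 2))) := by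
    unfold ee
    apply EE_congr
    intro v _
    refine Finset.sum_congr rfl fun z _ => ?_
    have : 0 < Real.sqrt (rho G k x p v z + 2) :=
      Real.sqrt_pos.2 (by have := rho_nonneg (G := G) (k := k) hx p v z; linarith)
    rw [div_mul_cancel₀ _ this.ne']
  have h2 := EE_cs_sum (G := G) (k := k) hx (fun v => sA G (st G v p)) (fun _ z => x z)
    (fun v z => |rho G k x p v z - 1| / Real.sqrt (rho G k x p v z + 2))
    (fun v z => Real.sqrt (rho G k x p v z + 2)) (fun v z _ => hx z)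
  rw [← h1] at h2
  have h3 : EE G k x (fun v => ∑ z ∈ sA G (st G v p), x z *
      (|rho G k x p v z - 1| / Real.sqrt (rho G k x p v z + 2)) ^ 2) ≤ 2 / 3 * loss G k x p := by
    unfold loss
    rw [← EE_mul]
    apply EE_mono hx
    intro v _
    rw [Finset.mul_sum]
    refine Finset.sum_le_sum fun z _ => ?_
    have hr := rho_nonneg (G := G) (k := k) hx p v z
    rw [div_pow, sq_abs, Real.sq_sqrt (by linarith)]
    have := mul_le_mul_of_nonneg_left (L1_phi hr) (hx z)
    calc _ ≤ _ := this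
      _ = _ := by ring
  have h4 : EE G k x (fun v => ∑ z ∈ sA G (st G v p), x z *
      (Real.sqrt (rho G k x p v z + 2)) ^ 2) ≤ 13 := by
    have h5 : EE G k x (fun v => ∑ z ∈ sA G (st G v p), x z *
      (Real.sqrt (rho G k x p v z + 2)) ^ 2) ≤ EE G k x (fun _ => 13) := by
      apply EE_mono hx
      intro v hv
      have h6 : ∑ z ∈ sA G (st G v p), x z * (Real.sqrt (rho G k x p v z + 2)) ^ 2 =
          (∑ z ∈ sA G (st G v p), x z * rho G k x p v z) + 2 * wt x (sA G (st G v p)) := by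
        unfold wt
        rw [Finset.mul_sum, ← Finset.sum_add_distrib]
        refine Finset.sum_congr rfl fun z _ => ?_
        rw [Real.sq_sqrt (by have := rho_nonneg (G := G) (k := k) hx p v z; linarith)]
        ring
      rw [h6, rho_sum (by omega) h.pos hv hp hpk]
      have h7 : wt x (sA G (st G v p)) ≤ 6 := by
        apply o3_sub (by omega) h (st G v p).b
        intro u hu
        unfold sA at hu
        exact (Finset.mem_filter.1 hu).2.1
      linarith
    rwa [EE_const h.NN_pos.ne'] at h5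
  have h8 : 0 ≤ loss G k x p := loss_nonneg hx p
  have h9 : 0 ≤ EE G k x (fun v => ∑ z ∈ sA G (st G v p), x z *
      (|rho G k x p v z - 1| / Real.sqrt (rho G k x p v z + 2)) ^ 2) := by
    apply EE_nonneg hx
    intro v _
    exact Finset.sum_nonneg fun z _ => mul_nonneg (hx z) (sq_nonneg _)
  calc ee G k x p ^ 2 ≤ _ := h2
    _ ≤ (2 / 3 * loss G k x p) * 13 := mul_le_mul h3 h4 (by
        apply EE_nonneg hx
        intro v _
        exact Finset.sum_nonneg fun z _ => mul_nonneg (hx z) (sq_nonneg _)) (by linarith)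
    _ ≤ 9 * loss G k x p := by linarith

theorem ee_sum (hk : 7 ≤ k) (h : Opt G k x) :
    ∑ p ∈ Icc 3 (k - 2), ee G k x p ≤ 3 * Real.sqrt k := by
  have hx : ∀ v, 0 ≤ x v := fun v => (h.pos v).le
  have h1 : (∑ p ∈ Icc 3 (k - 2), ee G k x p) ^ 2 ≤
      ((Icc 3 (k - 2)).card : ℝ) * ∑ p ∈ Icc 3 (k - 2), ee G k x p ^ 2 :=
    sq_sum_le_card_mul_sum_sq
  have h2 : ∑ p ∈ Icc 3 (k - 2), ee G k x p ^ 2 ≤ 9 * ∑ p ∈ Icc 3 (k - 2), loss G k x p := by
    rw [Finset.mul_sum]
    refine Finset.sum_le_sum fun p hp => ?_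
    rw [Finset.mem_Icc] at hp
    exact ee_sq hk h (by omega) (by omega)
  have h3 := loss_sum hk h
  have h4 : Real.log 2 ≤ 1 := by
    have := Real.log_two_lt_d9
    linarith
  have h5 : ((Icc 3 (k - 2)).card : ℝ) ≤ k := by
    rw [Nat.card_Icc]
    exact_mod_cast (by omega : k - 2 + 1 - 3 ≤ k)
  have h6 : 0 ≤ ∑ p ∈ Icc 3 (k - 2), ee G k x p ^ 2 := Finset.sum_nonneg fun p _ => sq_nonneg _
  have h7 : (∑ p ∈ Icc 3 (k - 2), ee G k x p) ^ 2 ≤ 9 * k := by
    calc _ ≤ _ := h1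
      _ ≤ (k : ℝ) * 9 := by
          apply mul_le_mul h5 _ h6 (Nat.cast_nonneg _)
          linarith
      _ = 9 * k := by ring
  have h8 : 0 ≤ ∑ p ∈ Icc 3 (k - 2), ee G k x p := Finset.sum_nonneg fun p _ => ee_nonneg hx p
  have h9 : Real.sqrt ((∑ p ∈ Icc 3 (k - 2), ee G k x p) ^ 2) ≤ Real.sqrt (9 * k) :=
    Real.sqrt_le_sqrt h7
  rw [Real.sqrt_sq h8, Real.sqrt_mul (by norm_num)] at h9
  have h10 : Real.sqrt 9 = 3 := by
    rw [show (9 : ℝ) = 3 ^ 2 by norm_num]
    exact Real.sqrt_sq (by norm_num)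
  rw [h10] at h9
  exact h9

/-- change of measure -/
theorem cm (hk : 7 ≤ k) (h : Opt G k x) {p : ℕ} (hp : 2 ≤ p) (hpk : p + 2 ≤ k)
    (F : (ZMod k → V) → V → ℝ) (hF : ∀ z, Dep k p (fun v => F v z)) (M : ℝ)
    (hM : ∀ v z, |F v z| ≤ M) :
    |EE G k x (fun v => ∑ z ∈ sA G (st G v p), x z * F v z) -
      EE G k x (fun v => F v (v (p : ZMod k)))| ≤ M * ee G k x p := by
  have hx : ∀ v, 0 ≤ x v := fun v => (h.pos v).le
  rw [markov (by omega) hx hp hpk F hF, ← EE_sub]
  refine le_trans (L1_EE_abs hx _) ?_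
  unfold ee
  rw [← EE_mul]
  apply EE_mono hx
  intro v _
  rw [← Finset.sum_sub_distrib, Finset.mul_sum]
  refine le_trans (Finset.abs_sum_le_sum_abs _ _) ?_
  refine Finset.sum_le_sum fun z _ => ?_
  have h1 : x z * F v z - x z * rho G k x p v z * F v z =
      x z * ((1 - rho G k x p v z) * F v z) := by ring
  rw [h1, abs_mul, abs_mul, abs_of_nonneg (hx z), abs_sub_comm]
  have h2 : |rho G k x p v z - 1| * |F v z| ≤ |rho G k x p v z - 1| * M :=
    mul_le_mul_of_nonneg_left (hM v z) (abs_nonneg _)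
  calc x z * (|rho G k x p v z - 1| * |F v z|) ≤ x z * (|rho G k x p v z - 1| * M) :=
        mul_le_mul_of_nonneg_left h2 (hx z)
    _ = _ := by ring

/-- `|wt sA - 1|` in the mean -/
theorem sA_dev (hk : 7 ≤ k) (h : Opt G k x) {p : ℕ} (hp : 2 ≤ p) (hpk : p + 2 ≤ k) :
    EE G k x (fun v => |wt x (sA G (st G v p)) - 1|) ≤ ee G k x p := by
  have hx : ∀ v, 0 ≤ x v := fun v => (h.pos v).le
  unfold ee
  apply EE_mono hx
  intro v hv
  have h1 := rho_sum (G := G) (by omega) h.pos hv hp hpk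
  have h2 : wt x (sA G (st G v p)) - 1 =
      ∑ z ∈ sA G (st G v p), x z * (1 - rho G k x p v z) := by
    have h3 : ∑ z ∈ sA G (st G v p), x z * (1 - rho G k x p v z) =
        ∑ z ∈ sA G (st G v p), x z - ∑ z ∈ sA G (st G v p), x z * rho G k x p v z := by
      rw [← Finset.sum_sub_distrib]
      refine Finset.sum_congr rfl fun z _ => ?_
      ring
    rw [h3, h1]
    rfl
  rw [h2]
  refine le_trans (Finset.abs_sum_le_sum_abs _ _) ?_
  refine Finset.sum_le_sum fun z _ => ?_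
  rw [abs_mul, abs_of_nonneg (hx z), abs_sub_comm]

end Pool.Agent.Icy
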