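import Pool.Agent.Icy.MmBasic
import Pool.Agent.Icy.AcDefs

/-!
# The growth kernel, hazards, stopped sums, bad reveals

`r` = number of vertices to go at `s`; all for `r ≥ 2`.
-/

set_option autoImplicit false

open Finset
open scoped Classical

namespace Pool.Agent.Icy

variable {V : Type} (G : SimpleGraph V) (x : V → ℝ)

/-- growth kernel, killed when the defect reaches `θ` -/
noncomputable def lk (θ : ℝ) (r : ℕ) (s : St V) (z : V) : ℝ :=
  x z * ex G x s * (if mm G x (r - 1) (step G s z) < θ then 1 else 0)

/-- `j`-step hazards: weight of the `j`-step extensions whose defect reaches `θ` first at step `j`;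
`Hz θ 0` is the one-step hazard, `Hz θ j` the `(j+1)`-step hazard (only for `r ≥ 2`) -/
noncomputable def Hz (θ : ℝ) : ℕ → ℕ → St V → ℝ
  | 0, r, s => if r ≤ 1 then 0 else
      ∑ z ∈ sA G s, x z * (if mm G x (r - 1) (step G s z) < θ then 0 else 1)
  | (j + 1), r, s => if r ≤ 1 then 0 else
      ∑ z ∈ sA G s, x z * (if mm G x (r - 1) (step G s z) < θ then
        Hz θ j (r - 1) (step G s z) else 0)

/-- expected sum of `f` along the growth process (states with `r ≥ 2`), killed at `θ` -/
noncomputable def SS (θ : ℝ) (f : ℕ → St V → ℝ) : ℕ → St V → ℝ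
  | 0, _ => 0
  | 1, _ => 0
  | (r + 2), s => f (r + 2) s + ∑ z ∈ sA G s, lk G x θ (r + 2) s z * SS θ f (r + 1) (step G s z)

/-- probability that the ghost `y` is not revealed, or revealed with a defect `≥ θ`;
`n` steps to go, `n + 2` vertices to go at `s` -/
noncomputable def chi (θ : ℝ) (y : V) : ℕ → St V → ℝ
  | 0, _ => 1
  | (n + 1), s => ∑ z ∈ sA G s, lk G x θ (n + 3) s z *
      (if G.Adj y z then (if mm G x (n + 1) (step G (step G s z) y) < θ then 0 else 1)
        else chi θ y n (step G s z))

/-- `1 - a exp (1 - a - b)`, the loss of mass of a step -/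
noncomputable def l1 (s : St V) : ℝ := 1 - wt x (sA G s) * ex G x s

/-- kernel and good reveals of the growth process, in the form used by the core -/
noncomputable def pL (θ : ℝ) (n : ℕ) (s : St V) (z : V) : ℝ := lk G x θ (n + 2) s z

def gL (θ : ℝ) (n : ℕ) (s : St V) (y : V) : Prop := mm G x (n + 1) (step G s y) < θ

/-- weights and neighbourhoods `≤ 6` -/
structure Base : Prop where
  nonneg : ∀ v, 0 ≤ x v
  six : ∀ (y : V) (S : Finset V), wt x (nbin G S y) ≤ 6

end Pool.Agent.Icy
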