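import Mathlib

/-!
# A real inequality

`u_j = a_j - 1`, `Σ u_j = 0`, `s = Σ u_j²`.  `log (1+u) ≤ u - u²/3` for `|u| ≤ 1/2`, so `∏ a_j ≤ exp(-s/3)`.
`a^k ≤ 1 + k u + k² (3/2)^k u²` (`0 ≤ a ≤ 3/2`), so `Σ a_j^k ≤ k + k² (3/2)^k s`.
`1 - exp (-s/3) ≥ 2 s / k` (`s ≤ k/4`, concavity) and `(1 - k/k^k) ≥ 1/2`, `1/k ≥ k² (3/(2k))^k`.
-/

set_option autoImplicit false

open Finset

namespace Pool.Agent.Icy

namespace RealIneq

theorem expB (u : ℝ) (h : |u| ≤ 1 / 2) : 1 + u ≤ Real.exp (u - u ^ 2 / 3) := by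
  rw [abs_le] at h
  obtain ⟨h1, h2⟩ := h
  rcases le_total 0 u with hu | hu
  · have hx : 0 ≤ u - u ^ 2 / 3 := by nlinarith
    refine le_trans ?_ (Real.quadratic_le_exp_of_nonneg hx)
    have h3 : 5 / 6 * u ≤ u - u ^ 2 / 3 := by nlinarith
    have h4 : (5 / 6 * u) ^ 2 ≤ (u - u ^ 2 / 3) ^ 2 :=
      pow_le_pow_left₀ (by positivity) h3 2
    nlinarith
  · set x : ℝ := u - u ^ 2 / 3 with hx
    have hxl : -(59 / 100 : ℝ) ≤ x := by rw [hx]; nlinarith
    have hxu : x ≤ u := by rw [hx]; nlinarith [sq_nonneg u]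
    have hx0 : x ≤ 0 := hxu.trans hu
    have hxx : u ^ 2 ≤ x ^ 2 := by nlinarith
    have h5 : (1 + x / 4) ^ 4 ≤ Real.exp x := by
      have h6 : 1 + x / 4 ≤ Real.exp (x / 4) := by linarith [Real.add_one_le_exp (x / 4)]
      have h7 : (1 + x / 4) ^ 4 ≤ Real.exp (x / 4) ^ 4 :=
        pow_le_pow_left₀ (by linarith) h6 4
      rw [← Real.exp_nat_mul] at h7
      have h8 : ((4 : ℕ) : ℝ) * (x / 4) = x := by push_cast; ring
      rw [h8] at h7
      exact h7
    refine le_trans ?_ h5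
    have h9 : -(59 / 100 : ℝ) * x ^ 2 ≤ x ^ 3 := by nlinarith [sq_nonneg x, mul_nonneg (sq_nonneg x) (by linarith : (0:ℝ) ≤ x + 59 / 100)]
    have h10 : (1 + x / 4) ^ 4 = 1 + x + 3 / 8 * x ^ 2 + x ^ 3 / 16 + x ^ 4 / 256 := by ring
    rw [h10]
    have h11 : 0 ≤ x ^ 4 := by positivity
    have h12 : u = x + u ^ 2 / 3 := by rw [hx]; ring
    nlinarith [sq_nonneg x]

theorem powB (k : ℕ) (u : ℝ) (h0 : 0 ≤ 1 + u) (h1 : 1 + u ≤ 3 / 2) :
    (1 + u) ^ k ≤ 1 + k * u + (k : ℝ) ^ 2 * (3 / 2) ^ k * u ^ 2 := by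
  induction k with
  | zero => simp
  | succ k ih =>
    have hc : (1 : ℝ) ≤ (3 / 2) ^ k := one_le_pow₀ (by norm_num)
    have hk : (0 : ℝ) ≤ k := Nat.cast_nonneg k
    have h2 := mul_le_mul_of_nonneg_left ih h0
    rw [pow_succ]
    have h3 : (1 + u) ^ k * (1 + u) = (1 + u) * (1 + u) ^ k := by ring
    rw [h3]
    refine h2.trans ?_
    push_cast
    have hp : (3 / 2 : ℝ) ^ (k + 1) = (3 / 2) ^ k * (3 / 2) := pow_succ _ _
    rw [hp]
    set c : ℝ := (3 / 2) ^ k with hcdef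
    have h4 : (1 + u) * ((k : ℝ) ^ 2 * c * u ^ 2) ≤ 3 / 2 * ((k : ℝ) ^ 2 * c * u ^ 2) :=
      mul_le_mul_of_nonneg_right h1 (by positivity)
    have h5 : 0 ≤ u ^ 2 := sq_nonneg u
    have h6 : (k : ℝ) + 3 / 2 * (k : ℝ) ^ 2 * c ≤ ((k : ℝ) + 1) ^ 2 * (c * (3 / 2)) := by
      nlinarith [mul_nonneg hk (by linarith : (0:ℝ) ≤ c - 1)]
    have h7 := mul_le_mul_of_nonneg_right h6 h5
    nlinarith

end RealIneq

open RealIneq in
theorem realineq {k : ℕ} [NeZero k] (hk : 20 ≤ k) (a : ZMod k → ℝ) (hs : ∑ j, a j = k)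
    (ha : ∀ j, |a j - 1| ≤ 1 / 2) :
    (∏ j, a j) * (1 - (k : ℝ) / (k : ℝ) ^ k) + ∑ j, (a j / k) ^ k ≤ 1 := by
  have hkR : (20 : ℝ) ≤ k := by exact_mod_cast hk
  have hkpos : (0 : ℝ) < k := by linarith
  set K : ℝ := (k : ℝ) ^ k with hK
  have hKpos : 0 < K := by positivity
  set s : ℝ := ∑ j, (a j - 1) ^ 2 with hsdef
  have hs0 : 0 ≤ s := Finset.sum_nonneg (fun j _ => sq_nonneg _)
  have hcard : (Finset.univ : Finset (ZMod k)).card = k := by
    rw [Finset.card_univ, ZMod.card]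
  have hs4 : s ≤ k / 4 := by
    have : s ≤ ∑ _j : ZMod k, (1 / 4 : ℝ) := by
      apply Finset.sum_le_sum
      intro j _
      have := abs_le.mp (ha j)
      nlinarith [this.1, this.2]
    rw [Finset.sum_const, hcard, nsmul_eq_mul] at this
    linarith
  have hu0 : ∑ j, (a j - 1) = 0 := by
    rw [Finset.sum_sub_distrib, hs, Finset.sum_const, hcard]
    simp
  -- product
  have hprod : ∏ j, a j ≤ Real.exp (-(s / 3)) := by
    have h1 : ∏ j, a j ≤ ∏ j, Real.exp ((a j - 1) - (a j - 1) ^ 2 / 3) := by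
      apply Finset.prod_le_prod
      · intro j _
        have := abs_le.mp (ha j)
        linarith [this.1]
      · intro j _
        have := expB (a j - 1) (ha j)
        linarith
    rw [← Real.exp_sum, Finset.sum_sub_distrib, hu0, ← Finset.sum_div] at h1
    have h2 : (0 : ℝ) - (∑ j, (a j - 1) ^ 2) / 3 = -(s / 3) := by rw [hsdef]; ring
    rw [h2] at h1
    exact h1
  -- power sum
  have hpow : ∑ j, (a j / k) ^ k ≤ k / K + (k : ℝ) ^ 2 * (3 / 2) ^ k * s / K := by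
    have h1 : ∑ j, (a j / k) ^ k = (∑ j, (a j) ^ k) / K := by
      rw [Finset.sum_div]
      apply Finset.sum_congr rfl
      intro j _
      rw [div_pow]
    have h2 : ∑ j, (a j) ^ k ≤ k + (k : ℝ) ^ 2 * (3 / 2) ^ k * s := by
      have h3 : ∀ j, (a j) ^ k ≤ 1 + k * (a j - 1) + (k : ℝ) ^ 2 * (3 / 2) ^ k * (a j - 1) ^ 2 := by
        intro j
        have := abs_le.mp (ha j)
        have h4 := powB k (a j - 1) (by linarith [this.1]) (by linarith [this.2])
        have h5 : 1 + (a j - 1) = a j := by ring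
        rw [h5] at h4
        exact h4
      refine (Finset.sum_le_sum (fun j _ => h3 j)).trans (le_of_eq ?_)
      rw [Finset.sum_add_distrib, Finset.sum_add_distrib, ← Finset.mul_sum, ← Finset.mul_sum, hu0,
        Finset.sum_const, hcard]
      simp [hsdef]
    rw [h1, ← add_div]
    exact div_le_div_of_nonneg_right h2 hKpos.le
  -- E
  have hE : 2 * s / k ≤ 1 - Real.exp (-(s / 3)) := by
    have h1 : Real.exp (-(s / 3)) ≤ 1 / (1 + s / 3) := by
      rw [Real.exp_neg, ← one_div]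
      apply one_div_le_one_div_of_le (by linarith)
      linarith [Real.add_one_le_exp (s / 3)]
    have h2 : 1 - 1 / (1 + s / 3) = (s / 3) / (1 + s / 3) := by
      field_simp
      ring
    have h3 : 2 * s / k ≤ (s / 3) / (1 + s / 3) := by
      rw [div_le_div_iff₀ hkpos (by linarith)]
      nlinarith
    linarith
  -- F
  have hkk : 2 * (k : ℝ) ≤ K := by
    have h1 : (k : ℝ) ^ 2 ≤ K := pow_le_pow_right₀ (by linarith) (by omega)
    nlinarith
  have hF : (k : ℝ) / K ≤ 1 / 2 := by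
    rw [div_le_div_iff₀ hKpos (by norm_num)]
    linarith
  have hG : (k : ℝ) ^ 2 * (3 / 2) ^ k * s / K ≤ s / k := by
    have h1 : (k : ℝ) ^ 3 * (3 / 2) ^ k ≤ K := by
      have h2 : K = (2 * k / 3) ^ k * (3 / 2) ^ k := by
        rw [← mul_pow, hK]
        congr 1
        field_simp
      rw [h2]
      apply mul_le_mul_of_nonneg_right _ (by positivity)
      have h3 : (2 * (k : ℝ) / 3) ^ 6 ≤ (2 * k / 3) ^ k :=
        pow_le_pow_right₀ (by linarith) (by omega)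
      refine le_trans ?_ h3
      have h4 : (k : ℝ) ≤ (2 * k / 3) ^ 2 := by nlinarith
      calc (k : ℝ) ^ 3 ≤ ((2 * (k : ℝ) / 3) ^ 2) ^ 3 := pow_le_pow_left₀ hkpos.le h4 3
        _ = (2 * (k : ℝ) / 3) ^ 6 := by ring
    rw [div_le_div_iff₀ hKpos hkpos]
    have h5 := mul_le_mul_of_nonneg_left h1 hs0
    nlinarith
  have hFn : 0 ≤ (k : ℝ) / K := by positivity
  have hfin1 : (∏ j, a j) * (1 - (k : ℝ) / K) ≤ Real.exp (-(s / 3)) * (1 - (k : ℝ) / K) :=
    mul_le_mul_of_nonneg_right hprod (by linarith)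
  have hfin2 : s / k ≤ (1 - Real.exp (-(s / 3))) * (1 - (k : ℝ) / K) := by
    have h1 : 2 * s / k * (1 / 2) ≤ (1 - Real.exp (-(s / 3))) * (1 - (k : ℝ) / K) := by
      apply mul_le_mul hE (by linarith) (by norm_num)
      have : 0 ≤ 2 * s / k := by positivity
      linarith
    have h2 : 2 * s / k * (1 / 2) = s / k := by ring
    linarith
  nlinarith [hfin1, hfin2, hpow, hG]

end Pool.Agent.Icy
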