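import Pool.Agent.Icy.T6win
import Pool.Agent.Icy.Markov
import Pool.Agent.Icy.O3

/-!
# Weight of the monotone patterns, entropy of the first five vertices

`P5 T` = set of the `u : Fin 5 → V` lying in five consecutive classes (up or down).
`p5_mass`: `Σ_{u ∈ P5} ∏ x ≤ 2 Σ_j ∏_{i<5} wt (T (j+i))` and `|∏_{i<5} t_{j+i} - 1| ≤ 6^4 Σ_i
|t_{j+i} - 1|` for `0 ≤ t ≤ 6`, `Σ_j 1 = k`.
`path_mass`: all induced 5-paths: `≤ k 6^4`.
`t6ent`: `N = NN`, `c = cnt (k-5) (st v 5)`.  On `P5`: `log (N/c) ≤ (N/c)/(2k) - 1 + log (2k)`; off `P5`: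
`log (N/c) ≤ (N/c)/(L k) - 1 + log (L k)`.  By `bridge5`: `EE [P5] N/c ≤ wt P5`, `EE [not P5] N/c ≤
path mass ≤ 1296 k`.  Sum: `≤ log (2k) + wt(P5)/(2k) - 1 + 1296/L + P(not P5) log L`.
-/

set_option autoImplicit false

open Finset
open scoped Classical

namespace Pool.Agent.Icy

variable {V : Type} [Fintype V] {G : SimpleGraph V} {k : ℕ} [NeZero k] {x : V → ℝ}

noncomputable def P5 {k : ℕ} (T : ZMod k → Finset V) : Finset (Fin 5 → V) :=
  univ.filter (fun u => ∃ j : ZMod k, (∀ i : Fin 5, u i ∈ T (j + (i : ℕ))) ∨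
    (∀ i : Fin 5, u i ∈ T (j - (i : ℕ))))

theorem mono5_iff {T : ZMod k → Finset V} (v : ZMod k → V) : mono5 T v ↔ pre5 v ∈ P5 T := by
  simp only [mono5, P5, pre5, Finset.mem_filter, Finset.mem_univ, true_and]
  constructor
  · rintro ⟨j, h | h⟩
    · exact ⟨j, Or.inl (fun i => h i i.isLt)⟩
    · exact ⟨j, Or.inr (fun i => h i i.isLt)⟩
  · rintro ⟨j, h | h⟩
    · exact ⟨j, Or.inl (fun i hi => h ⟨i, hi⟩)⟩
    · exact ⟨j, Or.inr (fun i hi => h ⟨i, hi⟩)⟩

private theorem T6mass_prod (t : Fin 5 → ℝ) (h0 : ∀ i, 0 ≤ t i) (h6 : ∀ i, t i ≤ 6) :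
    ∏ i, t i ≤ 1 + 1296 * ∑ i, |t i - 1| := by
  rw [Fin.prod_univ_five, Fin.sum_univ_five]
  have a0 := le_abs_self (t 0 - 1)
  have a1 := le_abs_self (t 1 - 1)
  have a2 := le_abs_self (t 2 - 1)
  have a3 := le_abs_self (t 3 - 1)
  have a4 := le_abs_self (t 4 - 1)
  have b0 := abs_nonneg (t 0 - 1)
  have b1 := abs_nonneg (t 1 - 1)
  have b2 := abs_nonneg (t 2 - 1)
  have b3 := abs_nonneg (t 3 - 1)
  have b4 := abs_nonneg (t 4 - 1)
  have p1 : t 0 ≤ 6 := h6 0
  have p2 : t 0 * t 1 ≤ 36 := by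
    nlinarith [h0 0, h0 1, h6 0, h6 1, mul_nonneg (h0 0) (sub_nonneg.mpr (h6 1))]
  have q2 : 0 ≤ t 0 * t 1 := mul_nonneg (h0 0) (h0 1)
  have p3 : t 0 * t 1 * t 2 ≤ 216 := by
    nlinarith [h0 2, h6 2, mul_nonneg q2 (sub_nonneg.mpr (h6 2))]
  have q3 : 0 ≤ t 0 * t 1 * t 2 := mul_nonneg q2 (h0 2)
  have p4 : t 0 * t 1 * t 2 * t 3 ≤ 1296 := by
    nlinarith [h0 3, h6 3, mul_nonneg q3 (sub_nonneg.mpr (h6 3))]
  have q4 : 0 ≤ t 0 * t 1 * t 2 * t 3 := mul_nonneg q3 (h0 3)
  have e1 : t 0 * (t 1 - 1) ≤ 1296 * |t 1 - 1| := by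
    calc t 0 * (t 1 - 1) ≤ t 0 * |t 1 - 1| := mul_le_mul_of_nonneg_left a1 (h0 0)
      _ ≤ 1296 * |t 1 - 1| := mul_le_mul_of_nonneg_right (by linarith) b1
  have e2 : t 0 * t 1 * (t 2 - 1) ≤ 1296 * |t 2 - 1| := by
    calc t 0 * t 1 * (t 2 - 1) ≤ t 0 * t 1 * |t 2 - 1| := mul_le_mul_of_nonneg_left a2 q2
      _ ≤ 1296 * |t 2 - 1| := mul_le_mul_of_nonneg_right (by linarith) b2
  have e3 : t 0 * t 1 * t 2 * (t 3 - 1) ≤ 1296 * |t 3 - 1| := by
    calc t 0 * t 1 * t 2 * (t 3 - 1) ≤ t 0 * t 1 * t 2 * |t 3 - 1| :=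
          mul_le_mul_of_nonneg_left a3 q3
      _ ≤ 1296 * |t 3 - 1| := mul_le_mul_of_nonneg_right (by linarith) b3
  have e4 : t 0 * t 1 * t 2 * t 3 * (t 4 - 1) ≤ 1296 * |t 4 - 1| := by
    calc t 0 * t 1 * t 2 * t 3 * (t 4 - 1) ≤ t 0 * t 1 * t 2 * t 3 * |t 4 - 1| :=
          mul_le_mul_of_nonneg_left a4 q4
      _ ≤ 1296 * |t 4 - 1| := mul_le_mul_of_nonneg_right p4 b4
  have e5 : t 0 * t 1 * t 2 * t 3 * t 4 = 1 + (t 0 - 1) + t 0 * (t 1 - 1) +
      t 0 * t 1 * (t 2 - 1) + t 0 * t 1 * t 2 * (t 3 - 1) +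
      t 0 * t 1 * t 2 * t 3 * (t 4 - 1) := by ring
  rw [e5]
  nlinarith

private theorem T6mass_pi (T : Fin 5 → Finset V) :
    ∑ u ∈ Fintype.piFinset T, ∏ i, x (u i) = ∏ i, wt x (T i) := by
  unfold wt
  rw [Finset.prod_univ_sum]

theorem p5_mass (hk : 7 ≤ k) (hx : ∀ v, 0 ≤ x v) (T : ZMod k → Finset V)
    (hT6 : ∀ j, wt x (T j) ≤ 6) :
    ∑ u ∈ P5 T, ∏ i, x (u i) ≤ 2 * (k + 1296 * 5 * ∑ j, |wt x (T j) - 1|) := by
  have hwt : ∀ j, 0 ≤ wt x (T j) := fun j => Finset.sum_nonneg (fun v _ => hx v)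
  have hsub : P5 T ⊆ (univ.biUnion (fun j : ZMod k =>
        Fintype.piFinset (fun i : Fin 5 => T (j + ((i : ℕ) : ZMod k))))) ∪
      (univ.biUnion (fun j : ZMod k =>
        Fintype.piFinset (fun i : Fin 5 => T (j - ((i : ℕ) : ZMod k))))) := by
    intro u hu
    simp only [P5, Finset.mem_filter, Finset.mem_univ, true_and] at hu
    obtain ⟨j, h | h⟩ := hu
    · apply Finset.mem_union_left
      rw [Finset.mem_biUnion]
      exact ⟨j, Finset.mem_univ _, Fintype.mem_piFinset.mpr h⟩
    · apply Finset.mem_union_right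
      rw [Finset.mem_biUnion]
      exact ⟨j, Finset.mem_univ _, Fintype.mem_piFinset.mpr h⟩
  have hpos : ∀ u : Fin 5 → V, 0 ≤ ∏ i, x (u i) := fun u => Finset.prod_nonneg (fun i _ => hx _)
  have hun : ∀ A B : Finset (Fin 5 → V),
      ∑ u ∈ A ∪ B, ∏ i, x (u i) ≤ ∑ u ∈ A, ∏ i, x (u i) + ∑ u ∈ B, ∏ i, x (u i) := by
    intro A B
    rw [← Finset.sum_union_inter]
    have : 0 ≤ ∑ u ∈ A ∩ B, ∏ i, x (u i) := Finset.sum_nonneg (fun u _ => hpos u)
    linarith
  have hbi : ∀ F : ZMod k → Finset (Fin 5 → V),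
      ∑ u ∈ univ.biUnion F, ∏ i, x (u i) ≤ ∑ j, ∑ u ∈ F j, ∏ i, x (u i) := by
    intro F
    have hgen : ∀ S : Finset (ZMod k),
        ∑ u ∈ S.biUnion F, ∏ i, x (u i) ≤ ∑ j ∈ S, ∑ u ∈ F j, ∏ i, x (u i) := by
      intro S
      induction S using Finset.induction_on with
      | empty => simp
      | insert a S ha ih =>
        rw [Finset.biUnion_insert, Finset.sum_insert ha]
        exact le_trans (hun _ _) (add_le_add_right ih _)
    exact hgen univ
  have hplus : ∑ j : ZMod k, ∑ u ∈ Fintype.piFinset (fun i : Fin 5 => T (j + ((i : ℕ) : ZMod k))),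
      ∏ i, x (u i) ≤ k + 1296 * 5 * ∑ j, |wt x (T j) - 1| := by
    calc ∑ j : ZMod k, ∑ u ∈ Fintype.piFinset (fun i : Fin 5 => T (j + ((i : ℕ) : ZMod k))),
          ∏ i, x (u i)
        ≤ ∑ j : ZMod k, (1 + 1296 * ∑ i : Fin 5, |wt x (T (j + ((i : ℕ) : ZMod k))) - 1|) := by
          apply Finset.sum_le_sum
          intro j _
          rw [T6mass_pi]
          exact T6mass_prod _ (fun i => hwt _) (fun i => hT6 _)
      _ = k + 1296 * ∑ i : Fin 5, ∑ j : ZMod k, |wt x (T (j + ((i : ℕ) : ZMod k))) - 1| := by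
          rw [Finset.sum_add_distrib, ← Finset.mul_sum, Finset.sum_comm]
          simp [ZMod.card]
      _ = k + 1296 * ∑ i : Fin 5, ∑ j : ZMod k, |wt x (T j) - 1| := by
          congr 2
          apply Finset.sum_congr rfl
          intro i _
          exact Fintype.sum_equiv (Equiv.addRight ((i : ℕ) : ZMod k)) _ _ (fun j => rfl)
      _ = _ := by
          simp only [Finset.sum_const, Finset.card_univ, Fintype.card_fin, nsmul_eq_mul]
          push_cast
          ring
  have hminus : ∑ j : ZMod k, ∑ u ∈ Fintype.piFinset (fun i : Fin 5 => T (j - ((i : ℕ) : ZMod k))),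
      ∏ i, x (u i) ≤ k + 1296 * 5 * ∑ j, |wt x (T j) - 1| := by
    calc ∑ j : ZMod k, ∑ u ∈ Fintype.piFinset (fun i : Fin 5 => T (j - ((i : ℕ) : ZMod k))),
          ∏ i, x (u i)
        ≤ ∑ j : ZMod k, (1 + 1296 * ∑ i : Fin 5, |wt x (T (j - ((i : ℕ) : ZMod k))) - 1|) := by
          apply Finset.sum_le_sum
          intro j _
          rw [T6mass_pi]
          exact T6mass_prod _ (fun i => hwt _) (fun i => hT6 _)
      _ = k + 1296 * ∑ i : Fin 5, ∑ j : ZMod k, |wt x (T (j - ((i : ℕ) : ZMod k))) - 1| := by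
          rw [Finset.sum_add_distrib, ← Finset.mul_sum, Finset.sum_comm]
          simp [ZMod.card]
      _ = k + 1296 * ∑ i : Fin 5, ∑ j : ZMod k, |wt x (T j) - 1| := by
          congr 2
          apply Finset.sum_congr rfl
          intro i _
          exact Fintype.sum_equiv (Equiv.subRight ((i : ℕ) : ZMod k)) _ _ (fun j => rfl)
      _ = _ := by
          simp only [Finset.sum_const, Finset.card_univ, Fintype.card_fin, nsmul_eq_mul]
          push_cast
          ring
  calc ∑ u ∈ P5 T, ∏ i, x (u i) ≤ _ :=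
        Finset.sum_le_sum_of_subset_of_nonneg hsub (fun u _ _ => hpos u)
    _ ≤ _ := hun _ _
    _ ≤ _ := add_le_add (hbi _) (hbi _)
    _ ≤ _ := add_le_add hplus hminus
    _ = _ := by ring

private def T6mass_walk (G : SimpleGraph V) (n : ℕ) (u : Fin (n + 1) → V) : Prop :=
  ∀ i : Fin n, G.Adj (u i.castSucc) (u i.succ)

private theorem T6mass_path (hx : ∀ v, 0 ≤ x v) (h6 : ∀ y, wt x (nb G y) ≤ 6) (n : ℕ) :
    ∑ u : Fin (n + 1) → V, (if T6mass_walk G n u then ∏ i, x (u i) else 0) ≤
      6 ^ n * ∑ v, x v := by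
  induction n with
  | zero =>
    have h1 : ∑ u : Fin (0 + 1) → V, (if T6mass_walk G 0 u then ∏ i, x (u i) else 0) =
        ∑ v, x v := by
      apply Fintype.sum_equiv (Equiv.funUnique (Fin 1) V)
      intro u
      have h2 : T6mass_walk G 0 u := fun i => i.elim0
      rw [if_pos h2]
      simp
    rw [h1]
    simp
  | succ n ih =>
    have h1 : ∑ u : Fin (n + 1 + 1) → V, (if T6mass_walk G (n + 1) u then ∏ i, x (u i) else 0) =
        ∑ p : V × (Fin (n + 1) → V), (if T6mass_walk G (n + 1) (Fin.cons p.1 p.2 : Fin (n + 2) → V)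
          then ∏ i, x ((Fin.cons p.1 p.2 : Fin (n + 2) → V) i) else 0) := by
      symm
      apply Fintype.sum_equiv (Fin.consEquiv (fun _ : Fin (n + 1 + 1) => V))
      intro p
      rfl
    rw [h1, Fintype.sum_prod_type, Finset.sum_comm]
    calc ∑ u : Fin (n + 1) → V, ∑ a : V,
          (if T6mass_walk G (n + 1) (Fin.cons a u : Fin (n + 2) → V)
          then ∏ i, x ((Fin.cons a u : Fin (n + 2) → V) i) else 0)
        ≤ ∑ u : Fin (n + 1) → V, (if T6mass_walk G n u then ∏ i, x (u i) else 0) * 6 := by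
          apply Finset.sum_le_sum
          intro u _
          have hp : 0 ≤ ∏ i, x (u i) := Finset.prod_nonneg (fun i _ => hx _)
          calc ∑ a : V, (if T6mass_walk G (n + 1) (Fin.cons a u : Fin (n + 2) → V)
                then ∏ i, x ((Fin.cons a u : Fin (n + 2) → V) i) else 0)
              ≤ ∑ a : V, (if T6mass_walk G n u then ∏ i, x (u i) else 0) *
                  (if G.Adj (u 0) a then x a else 0) := by
                apply Finset.sum_le_sum
                intro a _
                by_cases hw : T6mass_walk G (n + 1) (Fin.cons a u : Fin (n + 2) → V)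
                · have hw1 : G.Adj (u 0) a := by
                    have := hw 0
                    have e1 : (Fin.cons a u : Fin (n + 2) → V) (Fin.castSucc 0) = a := by
                      rw [Fin.castSucc_zero, Fin.cons_zero]
                    have e2 : (Fin.cons a u : Fin (n + 2) → V) (Fin.succ 0) = u 0 := by
                      rw [Fin.cons_succ]
                    rw [e1, e2] at this
                    exact this.symm
                  have hw2 : T6mass_walk G n u := by
                    intro i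
                    have := hw i.succ
                    rw [Fin.castSucc_succ, Fin.cons_succ, Fin.cons_succ] at this
                    exact this
                  rw [if_pos hw, if_pos hw1, if_pos hw2, Fin.prod_univ_succ]
                  simp only [Fin.cons_zero, Fin.cons_succ]
                  rw [mul_comm]
                · rw [if_neg hw]
                  apply mul_nonneg
                  · split_ifs
                    · exact hp
                    · exact le_refl _
                  · split_ifs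
                    · exact hx a
                    · exact le_refl _
            _ = (if T6mass_walk G n u then ∏ i, x (u i) else 0) * wt x (nb G (u 0)) := by
                rw [← Finset.mul_sum]
                congr 1
                unfold wt nb
                rw [Finset.sum_filter]
            _ ≤ (if T6mass_walk G n u then ∏ i, x (u i) else 0) * 6 := by
                apply mul_le_mul_of_nonneg_left (h6 _)
                split_ifs
                · exact hp
                · exact le_refl _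
      _ = (∑ u : Fin (n + 1) → V, (if T6mass_walk G n u then ∏ i, x (u i) else 0)) * 6 := by
          rw [Finset.sum_mul]
      _ ≤ (6 ^ n * ∑ v, x v) * 6 := mul_le_mul_of_nonneg_right ih (by norm_num)
      _ = _ := by ring

theorem t6ent (hk : 7 ≤ k) (h : Opt G k x) (T : ZMod k → Finset V) {L : ℝ} (hL : 2 ≤ L) :
    EE G k x (fun v => Real.log (NN G k x / cnt G x (k - 5) (st G v 5))) ≤
      Real.log (2 * k) + (∑ u ∈ P5 T, ∏ i, x (u i)) / (2 * k) - 1 + 1296 / L +
        EE G k x (fun v => if mono5 T v then 0 else 1) * Real.log L := by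
  have hx : ∀ v, 0 ≤ x v := fun v => (h.pos v).le
  have hN : 0 < NN G k x := h.NN_pos
  have hkR : (0 : ℝ) < k := by
    have : 0 < k := by omega
    exact_mod_cast this
  have hL0 : 0 < L := by linarith
  set N := NN G k x with hNdef
  set W : Finset (Fin 5 → V) := univ.filter (fun u => T6mass_walk G 4 u) with hW
  have hcyc : ∀ v ∈ cyc G k, pre5 v ∈ W := by
    intro v hv
    unfold cyc at hv
    rw [Finset.mem_filter] at hv
    rw [hW, Finset.mem_filter]
    refine ⟨Finset.mem_univ _, ?_⟩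
    intro i
    unfold pre5
    rw [hv.2]
    left
    push_cast [Fin.val_succ, Fin.val_castSucc]
    rfl
  have hWmass : ∑ u ∈ W, ∏ i, x (u i) ≤ 1296 * k := by
    have h1 := T6mass_path (G := G) hx (fun y => (o3 (by omega) h y).le) 4
    rw [h.sum] at h1
    rw [hW, Finset.sum_filter]
    norm_num at h1 ⊢
    exact h1
  -- the pointwise bound
  have hpt : ∀ v ∈ cyc G k, Real.log (N / cnt G x (k - 5) (st G v 5)) ≤
      (Real.log (2 * k) - 1) + (1 / (2 * k)) *
        (N * ((if pre5 v ∈ P5 T then 1 else 0) / cnt G x (k - 5) (st G v 5))) +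
      (1 / (L * k)) * (N * ((if pre5 v ∈ W then 1 else 0) / cnt G x (k - 5) (st G v 5))) +
      Real.log L * (if mono5 T v then 0 else 1) := by
    intro v hv
    have hc := cnt_pos_cyc (G := G) (x := x) (by omega) h.pos hv (p := 5) (by norm_num) (by omega)
    set c := cnt G x (k - 5) (st G v 5) with hcdef
    have hNc : 0 < N / c := div_pos hN hc
    have hWv := hcyc v hv
    rw [if_pos hWv]
    by_cases hm : mono5 T v
    · have hP := (mono5_iff v).mp hm
      rw [if_pos hm, if_pos hP]
      have h1 : Real.log (N / c) = Real.log ((N / c) / (2 * k)) + Real.log (2 * k) := by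
        rw [Real.log_div hNc.ne' (by positivity)]
        ring
      have h2 : Real.log ((N / c) / (2 * k)) ≤ (N / c) / (2 * k) - 1 :=
        Real.log_le_sub_one_of_pos (by positivity)
      have h3 : 0 ≤ (1 / (L * k)) * (N * (1 / c)) := by positivity
      have h4 : (1 / (2 * (k : ℝ))) * (N * (1 / c)) = (N / c) / (2 * k) := by
        field_simp
      rw [h1, h4]
      linarith
    · have hP : pre5 v ∉ P5 T := fun hh => hm ((mono5_iff v).mpr hh)
      rw [if_neg hm, if_neg hP]
      have h1 : Real.log (N / c) = Real.log ((N / c) / (L * k)) + Real.log (L * k) := by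
        rw [Real.log_div hNc.ne' (by positivity)]
        ring
      have h2 : Real.log ((N / c) / (L * k)) ≤ (N / c) / (L * k) - 1 :=
        Real.log_le_sub_one_of_pos (by positivity)
      have h4 : (1 / (L * (k : ℝ))) * (N * (1 / c)) = (N / c) / (L * k) := by
        field_simp
      have h5 : Real.log (L * k) = Real.log L + Real.log k := by
        rw [Real.log_mul hL0.ne' hkR.ne']
      have h6 : Real.log (2 * k) = Real.log 2 + Real.log k := by
        rw [Real.log_mul (by norm_num) hkR.ne']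
      have h7 : 0 ≤ Real.log 2 := Real.log_nonneg (by norm_num)
      rw [h1, h4, h5, h6]
      simp only [zero_div, mul_zero, mul_one]
      linarith
  have hb1 : EE G k x (fun v => N * ((if pre5 v ∈ P5 T then 1 else 0) /
      cnt G x (k - 5) (st G v 5))) ≤ ∑ u ∈ P5 T, ∏ i, x (u i) := by
    have h1 := bridge5 (G := G) (k := k) (x := x) (by omega) h.pos (P5 T)
    unfold EE
    rw [div_le_iff₀ hN]
    calc ∑ v ∈ cyc G k, cw x v * (N * ((if pre5 v ∈ P5 T then 1 else 0) /
          cnt G x (k - 5) (st G v 5)))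
        = N * ∑ v ∈ cyc G k, cw x v * ((if pre5 v ∈ P5 T then 1 else 0) /
          cnt G x (k - 5) (st G v 5)) := by
          rw [Finset.mul_sum]
          apply Finset.sum_congr rfl
          intro v _
          ring
      _ ≤ N * ∑ u ∈ P5 T, ∏ i, x (u i) := mul_le_mul_of_nonneg_left h1 hN.le
      _ = _ := by rw [hNdef]; ring
  have hb2 : EE G k x (fun v => N * ((if pre5 v ∈ W then 1 else 0) /
      cnt G x (k - 5) (st G v 5))) ≤ 1296 * k := by
    have h1 := bridge5 (G := G) (k := k) (x := x) (by omega) h.pos W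
    unfold EE
    rw [div_le_iff₀ hN]
    calc ∑ v ∈ cyc G k, cw x v * (N * ((if pre5 v ∈ W then 1 else 0) /
          cnt G x (k - 5) (st G v 5)))
        = N * ∑ v ∈ cyc G k, cw x v * ((if pre5 v ∈ W then 1 else 0) /
          cnt G x (k - 5) (st G v 5)) := by
          rw [Finset.mul_sum]
          apply Finset.sum_congr rfl
          intro v _
          ring
      _ ≤ N * ∑ u ∈ W, ∏ i, x (u i) := mul_le_mul_of_nonneg_left h1 hN.le
      _ ≤ N * (1296 * k) := mul_le_mul_of_nonneg_left hWmass hN.le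
      _ = _ := by rw [hNdef]; ring
  calc EE G k x (fun v => Real.log (N / cnt G x (k - 5) (st G v 5)))
      ≤ EE G k x (fun v => (Real.log (2 * k) - 1) + (1 / (2 * k)) *
        (N * ((if pre5 v ∈ P5 T then 1 else 0) / cnt G x (k - 5) (st G v 5))) +
      (1 / (L * k)) * (N * ((if pre5 v ∈ W then 1 else 0) / cnt G x (k - 5) (st G v 5))) +
      Real.log L * (if mono5 T v then 0 else 1)) := EE_mono hx hpt
    _ = (Real.log (2 * k) - 1) + (1 / (2 * k)) * EE G k x (fun v =>
        (N * ((if pre5 v ∈ P5 T then 1 else 0) / cnt G x (k - 5) (st G v 5)))) +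
      (1 / (L * k)) * EE G k x (fun v =>
        (N * ((if pre5 v ∈ W then 1 else 0) / cnt G x (k - 5) (st G v 5)))) +
      Real.log L * EE G k x (fun v => (if mono5 T v then 0 else 1)) := by
        rw [EE_add, EE_add, EE_add, EE_mul (1 / (2 * (k : ℝ))), EE_mul (1 / (L * (k : ℝ))),
          EE_mul (Real.log L), EE_const hN.ne']
    _ ≤ (Real.log (2 * k) - 1) + (1 / (2 * k)) * (∑ u ∈ P5 T, ∏ i, x (u i)) +
      (1 / (L * k)) * (1296 * k) +
      Real.log L * EE G k x (fun v => (if mono5 T v then 0 else 1)) := by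
        have h1 : (0 : ℝ) ≤ 1 / (2 * k) := by positivity
        have h2 : (0 : ℝ) ≤ 1 / (L * k) := by positivity
        have h3 := mul_le_mul_of_nonneg_left hb1 h1
        have h4 := mul_le_mul_of_nonneg_left hb2 h2
        linarith
    _ = _ := by
        have h1 : (1 / (L * k)) * (1296 * k) = 1296 / L := by
          field_simp
        rw [h1]
        ring

end Pool.Agent.Icy
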