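import Pool.Agent.Icy.T5
import Pool.Agent.Icy.T6mass

/-!
# T6: the defect of the first five vertices is small in the mean (contains Theorem I)

`1 - mm = cnt exp (k - 5 - wt U)` at `st v 5`, so `- log (1 - mm) = D + log (N/cnt) - log N` with
`D = wt U - (k-5) = 5 - wt (nb (v 1) ∪ nb (v 2) ∪ nb (v 3)) ≤ Σ_{j<5} |wt (Cl v j) - 1|` (the clone sets
of `v 0, …, v 4` are disjoint subsets of the union).  `EE D ≤ 5 η` (`clones`).  `N ≥ 2k`.
`T := Cl v₀` with `v₀` of `t5`; `wt (Cl v₀ j) ≤ 6`, `wt (rest) = wt (NC v₀)`; `t6win`, `p5_mass`, `t6ent`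
give `EE log (N/cnt) ≤ log (2k) + small` : choose `L` large, then `S` large, then `η` small.
-/

set_option autoImplicit false

open Finset
open scoped Classical

namespace Pool.Agent.Icy

private theorem T6_cast_inj {k : ℕ} [NeZero k] {i j : ℕ} (hi : i < k) (hj : j < k)
    (h : ((i : ℕ) : ZMod k) = ((j : ℕ) : ZMod k)) : i = j := by
  have := congrArg ZMod.val h
  rwa [ZMod.val_cast_of_lt hi, ZMod.val_cast_of_lt hj] at this

private theorem T6_D {V : Type} [Fintype V] {G : SimpleGraph V} {k : ℕ} [NeZero k] {x : V → ℝ}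
    (hk : 7 ≤ k) (h : Opt G k x) (v : ZMod k → V) :
    wt x (st G v 5).U - (k - 5) ≤ ∑ j ∈ range 5, |wt x (Cl G v ((j : ℕ) : ZMod k)) - 1| := by
  set W : Finset V := (range 5).biUnion (fun j => Cl G v ((j : ℕ) : ZMod k)) with hW
  have hdisjW : ∀ i ∈ range 5, ∀ j ∈ range 5, i ≠ j →
      Disjoint (Cl G v ((i : ℕ) : ZMod k)) (Cl G v ((j : ℕ) : ZMod k)) := by
    intro i hi j hj hij
    refine cl_disj hk v ?_
    intro hc
    rw [mem_range] at hi hj
    exact hij (T6_cast_inj (by omega) (by omega) hc)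
  have hWw : wt x W = ∑ j ∈ range 5, wt x (Cl G v ((j : ℕ) : ZMod k)) := by
    unfold wt
    rw [hW, sum_biUnion]
    intro i hi j hj hij
    exact hdisjW i (by simpa using hi) j (by simpa using hj) hij
  have hdis : Disjoint (st G v 5).U W := by
    rw [disjoint_left]
    intro w hwU hwW
    simp only [st, mem_filter, mem_univ, true_and] at hwU
    rw [hW, mem_biUnion] at hwW
    obtain ⟨j, hj, hwj⟩ := hwW
    rw [mem_range] at hj
    obtain ⟨h1, h2⟩ := cl_adj hk v hwj
    interval_cases j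
    · refine hwU 1 (by norm_num) (by norm_num) ?_
      simpa using h1
    · refine hwU 2 (by norm_num) (by norm_num) ?_
      have : ((1 : ℕ) : ZMod k) + 1 = ((2 : ℕ) : ZMod k) := by push_cast; ring
      rw [this] at h1; exact h1
    · refine hwU 3 (by norm_num) (by norm_num) ?_
      have : ((2 : ℕ) : ZMod k) + 1 = ((3 : ℕ) : ZMod k) := by push_cast; ring
      rw [this] at h1; exact h1
    · refine hwU 2 (by norm_num) (by norm_num) ?_
      have : ((3 : ℕ) : ZMod k) - 1 = ((2 : ℕ) : ZMod k) := by push_cast; ring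
      rw [this] at h2; exact h2
    · refine hwU 3 (by norm_num) (by norm_num) ?_
      have : ((4 : ℕ) : ZMod k) - 1 = ((3 : ℕ) : ZMod k) := by push_cast; ring
      rw [this] at h2; exact h2
  have htot : wt x (st G v 5).U + wt x W ≤ k := by
    have h1 : wt x (st G v 5).U + wt x W = wt x ((st G v 5).U ∪ W) := by
      unfold wt
      rw [sum_union hdis]
    rw [h1, ← h.sum]
    unfold wt
    exact sum_le_sum_of_subset_of_nonneg (subset_univ _) (fun i _ _ => (h.pos i).le)
  have hsum : (5 : ℝ) - ∑ j ∈ range 5, |wt x (Cl G v ((j : ℕ) : ZMod k)) - 1| ≤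
      ∑ j ∈ range 5, wt x (Cl G v ((j : ℕ) : ZMod k)) := by
    have : ∑ j ∈ range 5, (1 - |wt x (Cl G v ((j : ℕ) : ZMod k)) - 1|) ≤
        ∑ j ∈ range 5, wt x (Cl G v ((j : ℕ) : ZMod k)) := by
      refine sum_le_sum (fun j _ => ?_)
      have := neg_abs_le (wt x (Cl G v ((j : ℕ) : ZMod k)) - 1)
      linarith
    rw [sum_sub_distrib] at this
    simpa using this
  linarith

private theorem T6_main (ε : ℝ) (hε : 0 < ε) : ∃ k₀ : ℕ, ∀ (V : Type) [Fintype V]
    (G : SimpleGraph V) (k : ℕ) [NeZero k] (x : V → ℝ), k₀ ≤ k → Opt G k x →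
    EE G k x (fun v => Real.log (NN G k x / cnt G x (k - 5) (st G v 5))) ≤
      Real.log (2 * k) + 4 * (ε / 5) := by
  -- parameters
  set L : ℝ := 2 + 6480 / ε with hL
  have hq : 0 < 6480 / ε := by positivity
  have hL2 : 2 ≤ L := by rw [hL]; linarith
  have hL0 : 0 < L := by linarith
  have hlogL : 0 < Real.log L := Real.log_pos (by linarith)
  have hLa : 1296 / L ≤ ε / 5 := by
    rw [div_le_iff₀ hL0]
    have : ε / 5 * (6480 / ε) = 1296 := by field_simp; norm_num
    rw [hL]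
    nlinarith
  set S : ℕ := ⌈230 * Real.log L / ε⌉₊ + 5 with hS
  have hS5 : 5 ≤ S := by omega
  have hSpos : (0 : ℝ) < S := by
    have : 0 < S := by omega
    exact_mod_cast this
  have hSa : 46 / (S : ℝ) * Real.log L ≤ ε / 5 := by
    have h1 : 230 * Real.log L / ε ≤ S := by
      have := Nat.le_ceil (230 * Real.log L / ε)
      have h2 : ((⌈230 * Real.log L / ε⌉₊ : ℕ) : ℝ) ≤ (S : ℝ) := by
        rw [hS]; push_cast; linarith
      linarith
    rw [div_le_iff₀ hε] at h1
    rw [div_mul_eq_mul_div, div_le_iff₀ hSpos]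
    linarith
  set K : ℝ := 6480 + ((S : ℝ) + (S : ℝ) ^ 2 * Real.exp 2) * Real.log L with hK
  have hK1 : 0 ≤ ((S : ℝ) + (S : ℝ) ^ 2 * Real.exp 2) * Real.log L := by positivity
  have hK0 : 0 < K := by rw [hK]; linarith
  set η : ℝ := ε / (5 * K) with hη
  have hη0 : 0 < η := by positivity
  have hηK : K * η = ε / 5 := by rw [hη]; field_simp
  have hη1 : 6480 * η ≤ ε / 5 := by
    rw [← hηK]
    refine mul_le_mul_of_nonneg_right ?_ hη0.le
    rw [hK]; linarith
  have hη2 : ((S : ℝ) + (S : ℝ) ^ 2 * Real.exp 2) * Real.log L * η ≤ ε / 5 := by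
    rw [← hηK]
    refine mul_le_mul_of_nonneg_right ?_ hη0.le
    rw [hK]; linarith
  obtain ⟨k₁, hk₁⟩ := t5 η hη0
  refine ⟨max k₁ (max 7 (S + 1)), ?_⟩
  intro V _ G k _ x hk h
  have hk1 : k₁ ≤ k := le_trans (le_max_left _ _) hk
  have hk7 : 7 ≤ k := le_trans (le_trans (le_max_left _ _) (le_max_right _ _)) hk
  have hkS : S + 1 ≤ k := le_trans (le_trans (le_max_right _ _) (le_max_right _ _)) hk
  have hx : ∀ v, 0 ≤ x v := fun v => (h.pos v).le
  have hkpos : (0 : ℝ) < k := by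
    have : 0 < k := by omega
    exact_mod_cast this
  obtain ⟨v₀, hv₀, hv₀b⟩ := hk₁ V G k x hk1 h
  set T : ZMod k → Finset V := Cl G v₀ with hT
  have hTd : ∀ i j, i ≠ j → Disjoint (T i) (T j) := fun i j hij => cl_disj hk7 v₀ hij
  have hT6 : ∀ j, wt x (T j) ≤ 6 := by
    intro j
    refine o3_sub (by omega) h (v₀ (j + 1)) (T j) ?_
    intro u hu
    exact (cl_adj hk7 v₀ hu).1
  have hwtnn : ∀ A : Finset V, 0 ≤ wt x A := fun A => sum_nonneg (fun i _ => hx i)
  have hwrv : ∀ i u, 0 ≤ wrv G x T i u := by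
    intro i u
    unfold wrv
    exact sum_nonneg (fun j _ => hwtnn _)
  have hwrM : 0 ≤ wrM G x T := by
    unfold wrM
    exact sum_nonneg (fun i _ => sum_nonneg (fun u _ => mul_nonneg (hx u) (hwrv i u)))
  have hNC0 : 0 ≤ wt x (NC G v₀) := hwtnn _
  have habs : 0 ≤ ∑ j, |wt x (T j) - 1| := sum_nonneg (fun j _ => abs_nonneg _)
  have hb1 : wt x (NC G v₀) ≤ η * k := by linarith
  have hb2 : wrM G x T ≤ η * k := by linarith
  have hb3 : ∑ j, |wt x (T j) - 1| ≤ η * k := by linarith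
  have hrest : (univ.filter (fun w => ∀ j, w ∉ T j)) = NC G v₀ := by
    ext w
    simp only [NC, mem_filter, mem_univ, true_and, hT]
  have hwin := t6win hk7 h T hTd hT6 hS5 hkS
  rw [hrest] at hwin
  have hwin' : EE G k x (fun v => if mono5 T v then 0 else 1) ≤
      (S : ℝ) * η + (S : ℝ) ^ 2 * Real.exp 2 * η + 46 / S := by
    refine le_trans hwin ?_
    have e1 : (S : ℝ) * wt x (NC G v₀) / k ≤ S * η := by
      rw [div_le_iff₀ hkpos]
      nlinarith
    have e2 : (S : ℝ) ^ 2 * Real.exp 2 * wrM G x T / k ≤ (S : ℝ) ^ 2 * Real.exp 2 * η := by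
      rw [div_le_iff₀ hkpos]
      have : 0 ≤ (S : ℝ) ^ 2 * Real.exp 2 := by positivity
      nlinarith
    linarith
  have hmass := p5_mass hk7 hx T hT6
  have hmass' : (∑ u ∈ P5 T, ∏ i, x (u i)) / (2 * k) - 1 ≤ 6480 * η := by
    rw [sub_le_iff_le_add, div_le_iff₀ (by positivity)]
    nlinarith
  have hent := t6ent hk7 h T hL2
  have hwl : EE G k x (fun v => if mono5 T v then 0 else 1) * Real.log L ≤
      ((S : ℝ) * η + (S : ℝ) ^ 2 * Real.exp 2 * η + 46 / S) * Real.log L :=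
    mul_le_mul_of_nonneg_right hwin' hlogL.le
  have hexp : ((S : ℝ) * η + (S : ℝ) ^ 2 * Real.exp 2 * η + 46 / S) * Real.log L =
      ((S : ℝ) + (S : ℝ) ^ 2 * Real.exp 2) * Real.log L * η + 46 / (S : ℝ) * Real.log L := by
    ring
  rw [hexp] at hwl
  linarith

theorem t6 (ε : ℝ) (hε : 0 < ε) : ∃ k₀ : ℕ, ∀ (V : Type) [Fintype V] (G : SimpleGraph V)
    (k : ℕ) [NeZero k] (x : V → ℝ), k₀ ≤ k → Opt G k x →
    EE G k x (fun v => - Real.log (1 - mm G x (k - 5) (st G v 5))) ≤ ε := by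
  obtain ⟨k₁, hk₁⟩ := T6_main ε hε
  obtain ⟨k₂, hk₂⟩ := clones (ε / 25) (by positivity)
  refine ⟨max k₁ (max k₂ 7), ?_⟩
  intro V _ G k _ x hk h
  have hk1 : k₁ ≤ k := le_trans (le_max_left _ _) hk
  have hk2 : k₂ ≤ k := le_trans (le_trans (le_max_left _ _) (le_max_right _ _)) hk
  have hk7 : 7 ≤ k := le_trans (le_trans (le_max_right _ _) (le_max_right _ _)) hk
  have hx : ∀ v, 0 ≤ x v := fun v => (h.pos v).le
  have hkpos : (0 : ℝ) < k := by
    have : 0 < k := by omega
    exact_mod_cast this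
  have hN := h.NN_pos
  have hmain := hk₁ V G k x hk1 h
  obtain ⟨-, hcl, -⟩ := hk₂ V G k x hk2 h
  have hpt : ∀ v ∈ cyc G k, - Real.log (1 - mm G x (k - 5) (st G v 5)) ≤
      (∑ j ∈ range 5, |wt x (Cl G v ((j : ℕ) : ZMod k)) - 1|) +
        (Real.log (NN G k x / cnt G x (k - 5) (st G v 5)) - Real.log (NN G k x)) := by
    intro v hv
    have hc := cnt_pos_cyc (x := x) (by omega) h.pos hv (p := 5) (by norm_num) (by omega)
    have e1 : 1 - mm G x (k - 5) (st G v 5) =
        cnt G x (k - 5) (st G v 5) * Real.exp (((k - 5 : ℕ) : ℝ) - wt x (st G v 5).U) := by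
      unfold mm; ring
    rw [e1, Real.log_mul hc.ne' (Real.exp_pos _).ne', Real.log_exp,
      Real.log_div hN.ne' hc.ne']
    have hD := T6_D hk7 h v
    have hcast : ((k - 5 : ℕ) : ℝ) = (k : ℝ) - 5 := by
      rw [Nat.cast_sub (by omega)]; norm_num
    rw [hcast]
    linarith
  have h1 := EE_mono (G := G) (k := k) (x := x) hx hpt
  rw [EE_add, EE_sum, EE_sub, EE_const hN.ne'] at h1
  have h2 : ∑ j ∈ range 5, EE G k x (fun v => |wt x (Cl G v ((j : ℕ) : ZMod k)) - 1|) ≤
      ε / 5 := by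
    have : ∑ j ∈ range 5, EE G k x (fun v => |wt x (Cl G v ((j : ℕ) : ZMod k)) - 1|) ≤
        ∑ j ∈ range 5, ε / 25 := sum_le_sum (fun j _ => hcl _)
    refine le_trans this ?_
    rw [sum_const, card_range]
    simp only [nsmul_eq_mul]
    push_cast
    linarith
  have h3 : Real.log (2 * k) ≤ Real.log (NN G k x) :=
    Real.log_le_log (by positivity) h.one
  linarith

/-- and so `mm (k-5) (st v 5) ≤ ε` with probability at least `1 - ε` -/
theorem t6' (ε : ℝ) (hε : 0 < ε) : ∃ k₀ : ℕ, ∀ (V : Type) [Fintype V] (G : SimpleGraph V)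
    (k : ℕ) [NeZero k] (x : V → ℝ), k₀ ≤ k → Opt G k x →
    EE G k x (fun v => if mm G x (k - 5) (st G v 5) ≤ ε then 0 else 1) ≤ ε := by
  obtain ⟨k₁, hk₁⟩ := t6 (ε * ε) (by positivity)
  refine ⟨max k₁ 7, ?_⟩
  intro V _ G k _ x hk h
  have hk1 : k₁ ≤ k := le_trans (le_max_left _ _) hk
  have hk7 : 7 ≤ k := le_trans (le_max_right _ _) hk
  have hx : ∀ v, 0 ≤ x v := fun v => (h.pos v).le
  have hmain := hk₁ V G k x hk1 h
  have hpt : ∀ v ∈ cyc G k, (if mm G x (k - 5) (st G v 5) ≤ ε then (0 : ℝ) else 1) ≤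
      (1 / ε) * (- Real.log (1 - mm G x (k - 5) (st G v 5))) := by
    intro v hv
    have hc := cnt_pos_cyc (x := x) (by omega) h.pos hv (p := 5) (by norm_num) (by omega)
    have e1 : 1 - mm G x (k - 5) (st G v 5) =
        cnt G x (k - 5) (st G v 5) * Real.exp (((k - 5 : ℕ) : ℝ) - wt x (st G v 5).U) := by
      unfold mm; ring
    have hpos : 0 < 1 - mm G x (k - 5) (st G v 5) := by
      rw [e1]; exact mul_pos hc (Real.exp_pos _)
    have hlog := Real.log_le_sub_one_of_pos hpos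
    have hm0 := mm_nonneg (G := G) (x := x) hx (r := k - 5) (by omega) (st G v 5)
    have hge : mm G x (k - 5) (st G v 5) ≤ - Real.log (1 - mm G x (k - 5) (st G v 5)) := by
      linarith
    have hinv : 0 < 1 / ε := by positivity
    split_ifs with hle
    · exact mul_nonneg hinv.le (le_trans hm0 hge)
    · have : ε ≤ - Real.log (1 - mm G x (k - 5) (st G v 5)) := by
        push Not at hle
        linarith
      calc (1 : ℝ) = 1 / ε * ε := by field_simp
        _ ≤ _ := mul_le_mul_of_nonneg_left this hinv.le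
  have h1 := EE_mono (G := G) (k := k) (x := x) hx hpt
  rw [EE_mul] at h1
  refine le_trans h1 ?_
  have hinv : 0 < 1 / ε := by positivity
  calc 1 / ε * EE G k x (fun v => - Real.log (1 - mm G x (k - 5) (st G v 5)))
      ≤ 1 / ε * (ε * ε) := mul_le_mul_of_nonneg_left hmain hinv.le
    _ = ε := by field_simp

end Pool.Agent.Icy
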