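import Pool.Agent.Icy.T9pt
import Pool.Agent.Icy.ChiSum

/-!
# T9: the triples are summable along the growth process

`t8` with `η = 10⁻⁴`, `θ₀ = 10⁻⁸`; `t9pt` bounds `TT` at the states with `r ≥ 6`; `ss_mono`, `ss_add`,
`ss_mul`, `ss_hz`, `bsum`, `chisum` (`κ = 1/200`).  The constant `C` depends on `θ, θ₂` only.
-/

set_option autoImplicit false

open Finset
open scoped Classical

namespace Pool.Agent.Icy

theorem t9 : ∃ θ C : ℝ, 0 < θ ∧ θ ≤ 1 / 10 ^ 8 ∧ 0 < C ∧ ∀ (V : Type) (G : SimpleGraph V)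
    (x : V → ℝ), Base G x → ∀ (r : ℕ) (s : St V), 2 ≤ r → mm G x r s < θ →
    SS G x θ (fun r s => if 6 ≤ r then TT G x s else 0) r s ≤ C * mm G x r s := by
  obtain ⟨θ₂, θ, hθ0, hθθ₂, hθ₂, hθ₂', h8⟩ := t8 (1 / 10 ^ 4) (1 / 10 ^ 8) (by norm_num) (by norm_num)
  have hθ₂0 : 0 < θ₂ := lt_of_lt_of_le hθ0 hθθ₂
  have hθ : θ ≤ 1 / 10 ^ 8 := le_trans hθθ₂ hθ₂
  have hθ16 : θ ≤ 1 / 16 := le_trans hθ (by norm_num)
  refine ⟨θ, 24000 * (120 / θ) + 48 / θ + 9600 / θ₂, hθ0, hθ, by positivity, ?_⟩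
  intro V G x hB r s hr hm
  have hx := hB.nonneg
  have h8' := h8 V G x hB
  have hmm0 : 0 ≤ mm G x r s := mm_nonneg hx (by omega) s
  have hwt : ∀ S : Finset V, 0 ≤ wt x S := fun S => Finset.sum_nonneg (fun v _ => hx v)
  obtain ⟨fb, hfb⟩ : ∃ fb : ℕ → St V → ℝ, fb = fun r s =>
    if 3 ≤ r then ∑ w ∈ sA G s, x w * wt x (sB G (step G s w)) else 0 := ⟨_, rfl⟩
  obtain ⟨fc, hfc⟩ : ∃ fc : ℕ → St V → ℝ, fc = fun r s =>
    ∑ y ∈ nnin G (up G s) s.a, x y * (wt x (nbin G (sA G s) y) *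
      (if 1 / 200 ≤ chi G x θ₂ y (r - 2) s then 1 else 0)) := ⟨_, rfl⟩
  have hfb0 : ∀ r s, 0 ≤ fb r s := by
    intro r s
    rw [hfb]
    show 0 ≤ (if 3 ≤ r then ∑ w ∈ sA G s, x w * wt x (sB G (step G s w)) else 0)
    split_ifs
    · exact Finset.sum_nonneg (fun w _ => mul_nonneg (hx w) (hwt _))
    · exact le_rfl
  have hfc0 : ∀ r s, 0 ≤ fc r s := by
    intro r s
    rw [hfc]
    refine Finset.sum_nonneg (fun w _ => mul_nonneg (hx w) (mul_nonneg (hwt _) ?_))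
    split_ifs
    · exact zero_le_one
    · exact le_rfl
  have h1 := ss_mono hx θ (fun r s => if 6 ≤ r then TT G x s else 0)
    (fun r s => 24000 * (Hz G x θ 0 r s + Hz G x θ 1 r s + Hz G x θ 2 r s + Hz G x θ 3 r s) +
      2 * fb r s + 2 * fc r s) (by
      intro r s hr hm
      have e0 := Hz_nonneg (G := G) hx θ 0 r s
      have e1 := Hz_nonneg (G := G) hx θ 1 r s
      have e2 := Hz_nonneg (G := G) hx θ 2 r s
      have e3 := Hz_nonneg (G := G) hx θ 3 r s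
      have e4 := hfb0 r s
      have e5 := hfc0 r s
      show (if 6 ≤ r then TT G x s else 0) ≤ _
      split_ifs with h6
      · have h7 := t9pt hB hθ0 hθ (by norm_num) le_rfl h8' h6 hm
        have h9 : fb r s = ∑ w ∈ sA G s, x w * wt x (sB G (step G s w)) := by
          rw [hfb]
          show (if 3 ≤ r then ∑ w ∈ sA G s, x w * wt x (sB G (step G s w)) else 0) = _
          rw [if_pos (by omega)]
        have h10 : fc r s = ∑ y ∈ nnin G (up G s) s.a, x y * (wt x (nbin G (sA G s) y) *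
          (if 1 / 200 ≤ chi G x θ₂ y (r - 2) s then 1 else 0)) := by rw [hfc]
        rw [← h9, ← h10] at h7
        exact h7
      · positivity) r s hm
  have h2 : SS G x θ (fun r s => 24000 * (Hz G x θ 0 r s + Hz G x θ 1 r s + Hz G x θ 2 r s +
      Hz G x θ 3 r s) + 2 * fb r s + 2 * fc r s) r s =
      24000 * (SS G x θ (Hz G x θ 0) r s + SS G x θ (Hz G x θ 1) r s +
        SS G x θ (Hz G x θ 2) r s + SS G x θ (Hz G x θ 3) r s) + 2 * SS G x θ fb r s +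
        2 * SS G x θ fc r s := by
    rw [ss_add θ (fun r s => 24000 * (Hz G x θ 0 r s + Hz G x θ 1 r s + Hz G x θ 2 r s +
      Hz G x θ 3 r s) + 2 * fb r s) (fun r s => 2 * fc r s)]
    rw [ss_add θ (fun r s => 24000 * (Hz G x θ 0 r s + Hz G x θ 1 r s + Hz G x θ 2 r s +
      Hz G x θ 3 r s)) (fun r s => 2 * fb r s)]
    rw [ss_mul θ 24000, ss_mul θ 2 fb, ss_mul θ 2 fc]
    rw [ss_add θ (fun r s => Hz G x θ 0 r s + Hz G x θ 1 r s + Hz G x θ 2 r s)
      (fun r s => Hz G x θ 3 r s)]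
    rw [ss_add θ (fun r s => Hz G x θ 0 r s + Hz G x θ 1 r s) (fun r s => Hz G x θ 2 r s)]
    rw [ss_add θ (fun r s => Hz G x θ 0 r s) (fun r s => Hz G x θ 1 r s)]
  rw [h2] at h1
  have g0 := ss_hz (G := G) hx hθ0 hθ16 0 r (by omega) s hm
  have g1 := ss_hz (G := G) hx hθ0 hθ16 1 r (by omega) s hm
  have g2 := ss_hz (G := G) hx hθ0 hθ16 2 r (by omega) s hm
  have g3 := ss_hz (G := G) hx hθ0 hθ16 3 r (by omega) s hm
  have gb : SS G x θ fb r s ≤ 24 / θ * mm G x r s := by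
    rw [hfb]; exact bsum hB hθ0 hθ16 r hr s hm
  have gc : SS G x θ fc r s ≤ 24 / (1 / 200 * θ₂) * mm G x r s := by
    rw [hfc]
    exact chisum hB hθ0 hθθ₂ (le_trans hθ₂' (by norm_num)) (by norm_num) r hr s hm
  have k1 : (24000 * (120 / θ) + 48 / θ + 9600 / θ₂) * mm G x r s =
      24000 * (3 ^ (0 + 1) / θ * mm G x r s + 3 ^ (1 + 1) / θ * mm G x r s +
        3 ^ (2 + 1) / θ * mm G x r s + 3 ^ (3 + 1) / θ * mm G x r s) +
      2 * (24 / θ * mm G x r s) + 2 * (24 / (1 / 200 * θ₂) * mm G x r s) := by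
    field_simp
    ring
  rw [k1]
  linarith

end Pool.Agent.Icy
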