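import Pool.Agent.Icy.W1

/-!
# Expectation of `q2`

First part at time `c + 1`: `markov` with `F v z = [strt ∧ unst (c+1)] Σ_{w∈sA(st v c)} x_w [w ≁ z]`,
`rho ≤ 6`: `≤ 6 EE [strt ∧ unst (c+1)] Σ_w x_w wt (nnin (sA (st v (c+1))) w)` and `sA (st v (c+1)) ⊆ sN (step
(st v c) (v c))`.  Second part at time `c'`: `markov` with `F v z = [strt ∧ unst c'] Σ_{w ∈ sA (st v c)} x_w
[w ~ z]`: `≤ 6 EE [strt ∧ unst c'] Σ_w x_w wt (nbin (sA (st v c')) w)`, and the sets `nbin (sA (st v c')) w`,
`c' ≥ c+2`, are disjoint parts of `nnin (sN (step (st v c) w)) (v c)`.  So the total is `≤ 6 · 24 C ε` (`w1`;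
`unst c'` implies `unst (c+1)`).
-/

set_option autoImplicit false

open Finset
open scoped Classical

namespace Pool.Agent.Icy

variable {V : Type} [Fintype V] {G : SimpleGraph V} {k : ℕ} [NeZero k] {x : V → ℝ}

theorem W2_unst_mono {θ : ℝ} {c c' : ℕ} (hcc : c ≤ c') {v : ZMod k → V}
    (hu : unst G x θ c' v) : unst G x θ c v :=
  fun d hd hdc => hu d hd (hdc.trans hcc)

/-- the Markov property with the density bound 6 -/
theorem W2_mk (hk : 7 ≤ k) (hx : ∀ v, 0 < x v) {θ ε : ℝ} (hθ : θ ≤ 1 / 2) {p : ℕ} (hp : 5 ≤ p)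
    (hpk : p + 2 ≤ k) (g : (ZMod k → V) → V → ℝ) (hg : ∀ v z, 0 ≤ g v z)
    (hgd : ∀ z, Dep k p (fun v => g v z)) :
    EE G k x (fun v => if strt G x ε v ∧ unst G x θ p v then g v (v (p : ZMod k)) else 0) ≤
      6 * EE G k x (fun v => if strt G x ε v ∧ unst G x θ p v then
        ∑ z ∈ sA G (st G v p), x z * g v z else 0) := by
  have hx0 : ∀ v, 0 ≤ x v := fun v => (hx v).le
  have hdep : ∀ z, Dep k p (fun v => if strt G x ε v ∧ unst G x θ p v then g v z else 0) := by
    intro z v v' hvv
    have h1 : ∀ c : ℕ, 1 ≤ c → c ≤ p → st G v c = st G v' c := by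
      intro c hc hcp
      exact dep_st (G := G) hc hcp v v' hvv
    have h2 : strt G x ε v ↔ strt G x ε v' := by
      unfold strt
      rw [h1 5 (by norm_num) hp]
    have h3 : unst G x θ p v ↔ unst G x θ p v' := by
      unfold unst
      constructor
      · intro hh c hc hcp
        rw [← h1 c (by omega) hcp]
        exact hh c hc hcp
      · intro hh c hc hcp
        rw [h1 c (by omega) hcp]
        exact hh c hc hcp
    have h4 := hgd z v v' hvv
    simp only at h4
    simp only [h2, h3, h4]
  have hm := markov (G := G) (x := x) (by omega : 5 ≤ k) hx0 (p := p) (by omega) hpk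
    (fun v z => if strt G x ε v ∧ unst G x θ p v then g v z else 0) hdep
  rw [hm, ← EE_mul]
  apply EE_mono hx0
  intro v _
  by_cases hc : strt G x ε v ∧ unst G x θ p v
  · simp only [if_pos hc]
    rw [Finset.mul_sum]
    refine Finset.sum_le_sum fun z _ => ?_
    have hr : rho G k x p v z ≤ 6 := by
      apply rho_le hk hx (by omega) hpk v z
      have := hc.2 p hp le_rfl
      linarith
    have h1 := hx0 z
    have h2 := hg v z
    calc x z * rho G k x p v z * g v z = rho G k x p v z * (x z * g v z) := by ring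
      _ ≤ 6 * (x z * g v z) := mul_le_mul_of_nonneg_right hr (mul_nonneg h1 h2)
  · simp only [if_neg hc, mul_zero, Finset.sum_const_zero]
    exact le_rfl

/-- first part -/
theorem W2_first (hk : 20 ≤ k) (hx : ∀ v, 0 < x v) {θ ε : ℝ} (hθ : θ ≤ 1 / 2) {c : ℕ}
    (hc : 5 ≤ c) (hck : c + 8 ≤ k) :
    EE G k x (fun v => if strt G x ε v ∧ unst G x θ (c + 1) v then
      ∑ w ∈ sA G (st G v c), x w * (if G.Adj (v ((c + 1 : ℕ) : ZMod k)) w then 0 else 1) else 0) ≤
    6 * EE G k x (fun v => if strt G x ε v ∧ unst G x θ (c + 1) v then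
      ∑ w ∈ sA G (st G v c), x w *
        wt x (nnin G (sN G (step G (st G v c) (v (c : ZMod k)))) w) else 0) := by
  have hx0 : ∀ v, 0 ≤ x v := fun v => (hx v).le
  refine (W2_mk (by omega) hx hθ (p := c + 1) (by omega) (by omega)
    (fun v z => ∑ w ∈ sA G (st G v c), x w * (if G.Adj z w then 0 else 1)) ?_ ?_).trans ?_
  · intro v z
    exact Finset.sum_nonneg fun w _ => mul_nonneg (hx0 w) (by split_ifs <;> norm_num)
  · intro z v v' hvv
    have := dep_st (G := G) (k := k) (p := c) (q := c + 1) (by omega) (by omega) v v' hvv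
    simp only at this
    simp only [this]
  · apply mul_le_mul_of_nonneg_left _ (by norm_num)
    apply EE_mono hx0
    intro v _
    by_cases hcc : strt G x ε v ∧ unst G x θ (c + 1) v
    · simp only [if_pos hcc]
      have e1 : ∑ z ∈ sA G (st G v (c + 1)), x z *
          ∑ w ∈ sA G (st G v c), x w * (if G.Adj z w then (0 : ℝ) else 1) =
          ∑ w ∈ sA G (st G v c), x w * wt x (nnin G (sA G (st G v (c + 1))) w) := by
        simp only [Finset.mul_sum]
        rw [Finset.sum_comm]
        refine Finset.sum_congr rfl fun w _ => ?_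
        unfold wt nnin
        rw [Finset.sum_filter, Finset.mul_sum]
        refine Finset.sum_congr rfl fun z _ => ?_
        by_cases hz : G.Adj z w
        · rw [if_pos hz, if_neg (fun h : ¬ G.Adj w z => h (G.adj_symm hz))]
          ring
        · rw [if_neg hz, if_pos (fun h : G.Adj w z => hz (G.adj_symm h))]
          ring
      rw [e1]
      refine Finset.sum_le_sum fun w _ => mul_le_mul_of_nonneg_left ?_ (hx0 w)
      apply Finset.sum_le_sum_of_subset_of_nonneg _ fun v _ _ => hx0 v
      intro u hu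
      unfold nnin at hu ⊢
      rw [Finset.mem_filter] at hu ⊢
      refine ⟨?_, hu.2⟩
      have h1 := hu.1
      rw [st_succ v (by omega : 2 ≤ c)] at h1
      unfold sA at h1
      unfold sN
      rw [Finset.mem_filter] at h1 ⊢
      exact ⟨h1.1, h1.2.1⟩
    · simp only [if_neg hcc]
      exact le_rfl

/-- second part -/
theorem W2_second (hk : 20 ≤ k) (hx : ∀ v, 0 < x v) {θ ε : ℝ} (hθ : θ ≤ 1 / 2) {c : ℕ}
    (hc : 5 ≤ c) (hck : c + 8 ≤ k) :
    ∑ c' ∈ Icc (c + 2) (k - 6), EE G k x (fun v => if strt G x ε v ∧ unst G x θ c' v then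
      ∑ w ∈ sA G (st G v c), x w * (if G.Adj (v (c' : ZMod k)) w then 1 else 0) else 0) ≤
    6 * EE G k x (fun v => if strt G x ε v ∧ unst G x θ (c + 1) v then
      ∑ w ∈ sA G (st G v c), x w *
        wt x (nnin G (sN G (step G (st G v c) w)) (v (c : ZMod k))) else 0) := by
  have hx0 : ∀ v, 0 ≤ x v := fun v => (hx v).le
  have h1 : ∀ c' ∈ Icc (c + 2) (k - 6),
      EE G k x (fun v => if strt G x ε v ∧ unst G x θ c' v then
        ∑ w ∈ sA G (st G v c), x w * (if G.Adj (v (c' : ZMod k)) w then 1 else 0) else 0) ≤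
      6 * EE G k x (fun v => if strt G x ε v ∧ unst G x θ c' v then
        ∑ w ∈ sA G (st G v c), x w * wt x (nbin G (sA G (st G v c')) w) else 0) := by
    intro c' hc'
    rw [Finset.mem_Icc] at hc'
    refine (W2_mk (by omega) hx hθ (p := c') (by omega) (by omega)
      (fun v z => ∑ w ∈ sA G (st G v c), x w * (if G.Adj z w then 1 else 0)) ?_ ?_).trans ?_
    · intro v z
      exact Finset.sum_nonneg fun w _ => mul_nonneg (hx0 w) (by split_ifs <;> norm_num)
    · intro z v v' hvv
      have := dep_st (G := G) (k := k) (p := c) (q := c') (by omega) (by omega) v v' hvv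
      simp only at this
      simp only [this]
    · apply mul_le_mul_of_nonneg_left _ (by norm_num)
      apply EE_mono hx0
      intro v _
      by_cases hcc : strt G x ε v ∧ unst G x θ c' v
      · simp only [if_pos hcc]
        apply le_of_eq
        simp only [Finset.mul_sum]
        rw [Finset.sum_comm]
        refine Finset.sum_congr rfl fun w _ => ?_
        unfold wt nbin
        rw [Finset.sum_filter, Finset.mul_sum]
        refine Finset.sum_congr rfl fun z _ => ?_
        by_cases hz : G.Adj z w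
        · rw [if_pos hz, if_pos (G.adj_symm hz)]
          ring
        · rw [if_neg hz, if_neg (fun h : G.Adj w z => hz (G.adj_symm h))]
          ring
      · simp only [if_neg hcc]
        exact le_rfl
  refine (Finset.sum_le_sum h1).trans ?_
  rw [← Finset.mul_sum, ← EE_sum]
  apply mul_le_mul_of_nonneg_left _ (by norm_num)
  apply EE_mono hx0
  intro v _
  -- the sets are disjoint parts
  have hdisj : ∀ w, ∑ c' ∈ Icc (c + 2) (k - 6), wt x (nbin G (sA G (st G v c')) w) ≤
      wt x (nnin G (sN G (step G (st G v c) w)) (v (c : ZMod k))) := by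
    intro w
    have e1 : ∑ c' ∈ Icc (c + 2) (k - 6), wt x (nbin G (sA G (st G v c')) w) =
        wt x ((Icc (c + 2) (k - 6)).biUnion fun c' => nbin G (sA G (st G v c')) w) := by
      unfold wt
      rw [Finset.sum_biUnion]
      intro a ha b hb hab
      rw [Finset.mem_coe, Finset.mem_Icc] at ha hb
      rw [Function.onFun, Finset.disjoint_left]
      intro u hua hub
      unfold nbin at hua hub
      rw [Finset.mem_filter, mem_sA_st v (by omega)] at hua hub
      rcases lt_or_gt_of_ne hab with hlt | hlt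
      · exact hub.1.2 (a - 1) (by omega) hua.1.1
      · exact hua.1.2 (b - 1) (by omega) hub.1.1
    rw [e1]
    apply Finset.sum_le_sum_of_subset_of_nonneg _ fun v _ _ => hx0 v
    intro u hu
    rw [Finset.mem_biUnion] at hu
    obtain ⟨c', hc', hu⟩ := hu
    rw [Finset.mem_Icc] at hc'
    unfold nbin at hu
    rw [Finset.mem_filter, mem_sA_st v (by omega)] at hu
    unfold nnin
    rw [Finset.mem_filter]
    refine ⟨?_, hu.1.2 c (by omega)⟩
    unfold sN step
    rw [Finset.mem_filter]
    refine ⟨?_, hu.2⟩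
    simp only
    rw [mem_up_st v (by omega)]
    intro i _ hi
    exact hu.1.2 i (by omega)
  by_cases hcc : strt G x ε v ∧ unst G x θ (c + 1) v
  · rw [if_pos hcc]
    have e2 : ∑ c' ∈ Icc (c + 2) (k - 6), (if strt G x ε v ∧ unst G x θ c' v then
        ∑ w ∈ sA G (st G v c), x w * wt x (nbin G (sA G (st G v c')) w) else 0) ≤
        ∑ c' ∈ Icc (c + 2) (k - 6),
          ∑ w ∈ sA G (st G v c), x w * wt x (nbin G (sA G (st G v c')) w) := by
      refine Finset.sum_le_sum fun c' _ => ?_
      by_cases h2 : strt G x ε v ∧ unst G x θ c' v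
      · rw [if_pos h2]
      · rw [if_neg h2]
        exact Finset.sum_nonneg fun w _ => mul_nonneg (hx0 w)
          (Finset.sum_nonneg fun u _ => hx0 u)
    refine e2.trans ?_
    rw [Finset.sum_comm]
    refine Finset.sum_le_sum fun w _ => ?_
    rw [← Finset.mul_sum]
    exact mul_le_mul_of_nonneg_left (hdisj w) (hx0 w)
  · rw [if_neg hcc]
    apply le_of_eq
    apply Finset.sum_eq_zero
    intro c' hc'
    rw [Finset.mem_Icc] at hc'
    rw [if_neg]
    rintro ⟨h3, h4⟩
    exact hcc ⟨h3, W2_unst_mono (by omega) h4⟩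

theorem w2 (hk : 20 ≤ k) (h : Opt G k x) {θ C ε : ℝ} (hε : 0 ≤ ε) (hεθ : ε < θ)
    (hθ : θ ≤ 1 / 10 ^ 8) (hC : 0 ≤ C) (h9 : T9P G x θ C) :
    EE G k x (fun v => if strt G x ε v ∧ unst G x θ (k - 2) v then q2 G x v else 0) ≤
      144 * C * ε := by
  have hx := h.pos
  have hx0 : ∀ v, 0 ≤ x v := fun v => (hx v).le
  have hθ2 : θ ≤ 1 / 2 := hθ.trans (by norm_num)
  have hw1 := w1 hk h hε hεθ hθ hC h9
  have hw0 : ∀ A : Finset V, 0 ≤ wt x A := fun A => Finset.sum_nonneg fun v _ => hx0 v
  -- split
  have h1 : EE G k x (fun v => if strt G x ε v ∧ unst G x θ (k - 2) v then q2 G x v else 0) ≤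
      EE G k x (fun v => ∑ c ∈ Icc 5 (k - 8),
        ((if strt G x ε v ∧ unst G x θ (c + 1) v then
          ∑ w ∈ sA G (st G v c), x w *
            (if G.Adj (v ((c + 1 : ℕ) : ZMod k)) w then 0 else 1) else 0) +
        ∑ c' ∈ Icc (c + 2) (k - 6), (if strt G x ε v ∧ unst G x θ c' v then
          ∑ w ∈ sA G (st G v c), x w *
            (if G.Adj (v (c' : ZMod k)) w then 1 else 0) else 0))) := by
    apply EE_mono hx0
    intro v _
    by_cases hg : strt G x ε v ∧ unst G x θ (k - 2) v
    · rw [if_pos hg]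
      unfold q2
      refine Finset.sum_le_sum fun c hc => ?_
      rw [Finset.mem_Icc] at hc
      rw [if_pos ⟨hg.1, W2_unst_mono (by omega) hg.2⟩]
      apply le_of_eq
      have e1 : ∑ c' ∈ Icc (c + 2) (k - 6), (if strt G x ε v ∧ unst G x θ c' v then
          ∑ w ∈ sA G (st G v c), x w *
            (if G.Adj (v (c' : ZMod k)) w then (1 : ℝ) else 0) else 0) =
          ∑ c' ∈ Icc (c + 2) (k - 6), ∑ w ∈ sA G (st G v c), x w *
            (if G.Adj (v (c' : ZMod k)) w then (1 : ℝ) else 0) := by
        refine Finset.sum_congr rfl fun c' hc' => ?_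
        rw [Finset.mem_Icc] at hc'
        rw [if_pos ⟨hg.1, W2_unst_mono (by omega) hg.2⟩]
      rw [e1, Finset.sum_comm, ← Finset.sum_add_distrib]
      refine Finset.sum_congr rfl fun w _ => ?_
      rw [mul_add, Finset.mul_sum]
    · rw [if_neg hg]
      refine Finset.sum_nonneg fun c _ => add_nonneg ?_ (Finset.sum_nonneg fun c' _ => ?_)
      · split_ifs
        · exact Finset.sum_nonneg fun w _ => mul_nonneg (hx0 w) (by split_ifs <;> norm_num)
        · exact le_rfl
      · split_ifs
        · exact Finset.sum_nonneg fun w _ => mul_nonneg (hx0 w) (by split_ifs <;> norm_num)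
        · exact le_rfl
  refine h1.trans ?_
  rw [EE_sum]
  have h2 : ∀ c ∈ Icc 5 (k - 8), EE G k x (fun v =>
        ((if strt G x ε v ∧ unst G x θ (c + 1) v then
          ∑ w ∈ sA G (st G v c), x w *
            (if G.Adj (v ((c + 1 : ℕ) : ZMod k)) w then 0 else 1) else 0) +
        ∑ c' ∈ Icc (c + 2) (k - 6), (if strt G x ε v ∧ unst G x θ c' v then
          ∑ w ∈ sA G (st G v c), x w *
            (if G.Adj (v (c' : ZMod k)) w then 1 else 0) else 0))) ≤
      6 * EE G k x (fun v => if strt G x ε v ∧ unst G x θ (c + 1) v then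
        q1 G x c v else 0) := by
    intro c hc
    rw [Finset.mem_Icc] at hc
    rw [EE_add, EE_sum]
    have a := W2_first (G := G) (ε := ε) hk hx hθ2 (c := c) hc.1 (by omega)
    have b := W2_second (G := G) (ε := ε) hk hx hθ2 (c := c) hc.1 (by omega)
    have e : EE G k x (fun v => if strt G x ε v ∧ unst G x θ (c + 1) v then
        q1 G x c v else 0) =
        EE G k x (fun v => if strt G x ε v ∧ unst G x θ (c + 1) v then
          ∑ w ∈ sA G (st G v c), x w *
            wt x (nnin G (sN G (step G (st G v c) w)) (v (c : ZMod k))) else 0) +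
        EE G k x (fun v => if strt G x ε v ∧ unst G x θ (c + 1) v then
          ∑ w ∈ sA G (st G v c), x w *
            wt x (nnin G (sN G (step G (st G v c) (v (c : ZMod k)))) w) else 0) := by
      rw [← EE_add]
      apply EE_congr
      intro v _
      unfold q1
      by_cases hcc : strt G x ε v ∧ unst G x θ (c + 1) v
      · simp only [if_pos hcc, mul_add, Finset.sum_add_distrib]
      · simp only [if_neg hcc, add_zero]
    rw [e]
    linarith
  refine (Finset.sum_le_sum h2).trans ?_
  rw [← Finset.mul_sum, ← EE_sum]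
  have h3 : EE G k x (fun v => ∑ c ∈ Icc 5 (k - 8), if strt G x ε v ∧ unst G x θ (c + 1) v then
      q1 G x c v else 0) ≤ EE G k x (fun v => ∑ c ∈ Icc 5 (k - 6),
        if strt G x ε v ∧ unst G x θ (c + 1) v then q1 G x c v else 0) := by
    apply EE_mono hx0
    intro v _
    apply Finset.sum_le_sum_of_subset_of_nonneg
    · exact Finset.Icc_subset_Icc_right (by omega)
    · intro c _ _
      split_ifs
      · unfold q1
        exact Finset.sum_nonneg fun w _ => mul_nonneg (hx0 w) (add_nonneg (hw0 _) (hw0 _))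
      · exact le_rfl
  linarith

end Pool.Agent.Icy
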