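import Pool.Agent.Icy.Transfer
import Pool.Agent.Icy.EEapi

/-!
# Expectation of the sum of `l1` and of the last defect

`transfer'` with `ss_l1` and `ss_last`.
-/

set_option autoImplicit false

open Finset
open scoped Classical

namespace Pool.Agent.Icy

variable {V : Type} [Fintype V] {G : SimpleGraph V} {k : ℕ} [NeZero k] {x : V → ℝ}

omit [Fintype V] in
theorem W34_l1_nonneg (hx : ∀ v, 0 ≤ x v) (s : St V) : 0 ≤ l1 G x s := by
  unfold l1 ex
  have ha : 0 ≤ wt x (sA G s) := Finset.sum_nonneg (fun v _ => hx v)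
  have hb : 0 ≤ wt x (sB G s) := Finset.sum_nonneg (fun v _ => hx v)
  have h1 : wt x (sA G s) ≤ Real.exp (wt x (sA G s) - 1) := by
    have := Real.add_one_le_exp (wt x (sA G s) - 1)
    linarith
  have h2 : wt x (sA G s) * Real.exp (1 - wt x (sA G s) - wt x (sB G s)) ≤
      Real.exp (wt x (sA G s) - 1) * Real.exp (1 - wt x (sA G s) - wt x (sB G s)) := by gcongr
  rw [← Real.exp_add] at h2
  have h3 : Real.exp (wt x (sA G s) - 1 + (1 - wt x (sA G s) - wt x (sB G s))) ≤ 1 := by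
    rw [Real.exp_le_one_iff]
    linarith
  linarith

theorem w3 (hk : 20 ≤ k) (h : Opt G k x) {θ ε : ℝ} (hε : 0 ≤ ε) (hεθ : ε < θ)
    (hθ : θ ≤ 1 / 10 ^ 8) :
    EE G k x (fun v => if strt G x ε v ∧ unst G x θ (k - 2) v then
      ∑ c ∈ Icc 5 (k - 2), l1 G x (st G v c) else 0) ≤ 2 * ε := by
  have hx : ∀ v, 0 ≤ x v := fun v => (h.pos v).le
  have h1 := transfer' (G := G) (k := k) (x := x) (θ := θ) (ε := ε) (C := 1) (by omega) h.pos
    h.NN_pos hε hεθ (le_trans hθ (by norm_num)) zero_le_one (fun _ s => l1 G x s)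
    (fun r s => W34_l1_nonneg hx s) (fun r s hr hm => by
      rw [one_mul]
      exact ss_l1 hx θ r (by omega) s hm (lt_of_le_of_lt hε hεθ))
  refine le_trans (EE_mono hx (fun v _ => ?_)) (le_trans h1 (by linarith))
  split_ifs with hv
  · refine Finset.sum_le_sum (fun c hc => ?_)
    rw [mem_Icc] at hc
    rw [if_pos ⟨hv.1, fun c' h5 hc' => hv.2 c' h5 (le_trans hc' hc.2)⟩]
  · refine Finset.sum_nonneg (fun c _ => ?_)
    split_ifs
    · exact W34_l1_nonneg hx _
    · exact le_rfl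

theorem w4 (hk : 20 ≤ k) (h : Opt G k x) {θ ε : ℝ} (hε : 0 ≤ ε) (hεθ : ε < θ)
    (hθ : θ ≤ 1 / 10 ^ 8) :
    EE G k x (fun v => if strt G x ε v ∧ unst G x θ (k - 2) v then
      mm G x 2 (st G v (k - 2)) else 0) ≤ 2 * ε := by
  have hx : ∀ v, 0 ≤ x v := fun v => (h.pos v).le
  have hθ0 : 0 < θ := lt_of_le_of_lt hε hεθ
  have hf : ∀ (r : ℕ) (s : St V), 0 ≤ (fun (r : ℕ) (s : St V) => if r = 2 then mm G x 2 s else 0) r s := by
    intro r s
    show 0 ≤ (if r = 2 then mm G x 2 s else 0)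
    split_ifs
    · exact mm_nonneg hx (by norm_num) s
    · exact le_rfl
  have h1 := transfer' (G := G) (k := k) (x := x) (θ := θ) (ε := ε) (C := 1) (by omega) h.pos
    h.NN_pos hε hεθ (le_trans hθ (by norm_num)) zero_le_one
    (fun (r : ℕ) (s : St V) => if r = 2 then mm G x 2 s else 0) hf
    (fun r s hr hm => by
      rw [one_mul]
      exact ss_last hx hθ0 r (by omega) s hm)
  refine le_trans (EE_mono hx (fun v _ => ?_)) (le_trans h1 (by linarith))
  have hpos : ∀ c ∈ Icc 5 (k - 2), (0:ℝ) ≤ (if strt G x ε v ∧ unst G x θ c v then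
      (fun (r : ℕ) (s : St V) => if r = 2 then mm G x 2 s else 0) (k - c) (st G v c) else 0) := by
    intro c _
    split_ifs
    · exact hf _ _
    · exact le_rfl
  split_ifs with hv
  · have hmem : k - 2 ∈ Icc 5 (k - 2) := by rw [mem_Icc]; omega
    refine le_trans (le_of_eq ?_) (Finset.single_le_sum hpos hmem)
    rw [if_pos hv]
    show mm G x 2 (st G v (k - 2)) = (if k - (k - 2) = 2 then mm G x 2 (st G v (k - 2)) else 0)
    rw [if_pos (by omega)]
  · exact Finset.sum_nonneg hpos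

end Pool.Agent.Icy
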