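import Pool.Agent.Icy.S91fin
import Pool.Agent.Icy.W2
import Pool.Agent.Icy.W34
import Pool.Agent.Icy.T9sum
import Pool.Agent.Icy.T6

/-!
# (9.1) for every optimal `x`

`t9` gives `θ, C`.  `good v = strt ε ∧ unst θ (k-2)`.  `P(not good) ≤ ε + 36 ε/θ` (`t6'`, `stop`),
`EE [good] Q ≤ C' ε + 400 η'` with `Q` the sum in `s91` (`w1..w4`, `clones`, `t5loc`; on `good` all
the indicators in `w1` are 1).  Choose `ε, η'` small: `EE (if good then Q/(4q) else 2) < 1`, so there is
a good `v ∈ cyc` with `Q v ≤ 4 q` (`exists_le_EE`); apply `s91`.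
-/

set_option autoImplicit false

open Finset
open scoped Classical

namespace Pool.Agent.Icy

theorem T91_wt_nonneg {V : Type} {x : V → ℝ} (hx : ∀ v, 0 ≤ x v) (S : Finset V) : 0 ≤ wt x S :=
  Finset.sum_nonneg fun v _ => hx v

theorem T91_wrv_nonneg {V : Type} {G : SimpleGraph V} {k : ℕ} [NeZero k] {x : V → ℝ}
    (hx : ∀ v, 0 ≤ x v) (T : ZMod k → Finset V) (i : ZMod k) (u : V) : 0 ≤ wrv G x T i u :=
  Finset.sum_nonneg fun _ _ => T91_wt_nonneg hx _

theorem T91_q1_nonneg {V : Type} [Fintype V] {G : SimpleGraph V} {k : ℕ} [NeZero k] {x : V → ℝ}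
    (hx : ∀ v, 0 ≤ x v) (c : ℕ) (v : ZMod k → V) : 0 ≤ q1 G x c v :=
  Finset.sum_nonneg fun w _ => mul_nonneg (hx w)
    (add_nonneg (T91_wt_nonneg hx _) (T91_wt_nonneg hx _))

theorem T91_qW_nonneg {V : Type} [Fintype V] {G : SimpleGraph V} {k : ℕ} [NeZero k] {x : V → ℝ}
    (hx : ∀ v, 0 ≤ x v) (v : ZMod k → V) : 0 ≤ qW G x v := by
  refine Finset.sum_nonneg fun j _ => ?_
  refine add_nonneg (add_nonneg (T91_wt_nonneg hx _) (abs_nonneg _)) ?_
  exact Finset.sum_nonneg fun u _ => mul_nonneg (hx u) (T91_wrv_nonneg hx _ _ _)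

theorem T91_Wd_card (k : ℕ) : (Wd k).card ≤ 18 := by
  have hsub : Wd k ⊆ range 8 ∪ Ico (k - 10) k := by
    intro j hj
    simp only [Wd, mem_filter, mem_range, mem_union, mem_Ico] at hj ⊢
    omega
  refine (Finset.card_le_card hsub).trans ((Finset.card_union_le _ _).trans ?_)
  simp only [card_range, Nat.card_Ico]
  omega

theorem T91_mono {V : Type} [Fintype V] {G : SimpleGraph V} {k : ℕ} [NeZero k] {x : V → ℝ}
    {T : ZMod k → Finset V} {η η' : ℝ} (h : S91 G x T η) (hη : η ≤ η') : S91 G x T η' :=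
  ⟨h.disj, h.rest.trans hη, fun j => (h.size j).trans hη, h.wrong.trans hη⟩

theorem t91 (η : ℝ) (hη : 0 < η) : ∃ k₀ : ℕ, ∀ (V : Type) [Fintype V] (G : SimpleGraph V)
    (k : ℕ) [NeZero k] (x : V → ℝ), k₀ ≤ k → Opt G k x →
    ∃ T : ZMod k → Finset V, S91 G x T η := by
  obtain ⟨θ, C, hθ0, hθ1, hC, h9⟩ := t9
  set q : ℝ := min ((η / 8) ^ 2) (1 / 100) with hq
  have hq0 : 0 < q := by rw [hq]; positivity
  have hq1 : q ≤ 1 / 100 := min_le_right _ _
  have hq2 : 8 * Real.sqrt q ≤ η := by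
    have h1 : Real.sqrt q ≤ η / 8 := by
      rw [show η / 8 = Real.sqrt ((η / 8) ^ 2) from (Real.sqrt_sq (by positivity)).symm]
      exact Real.sqrt_le_sqrt (min_le_left _ _)
    linarith
  set D : ℝ := 168 * C + 6 + 72 / θ with hD
  have hD0 : 0 < D := by rw [hD]; positivity
  set ε : ℝ := min (θ / 2) (q / (2 * D)) with hε
  have hε0 : 0 < ε := by rw [hε]; positivity
  have hεθ : ε < θ := lt_of_le_of_lt (min_le_left _ _) (by linarith)
  have hεD : D * ε ≤ q / 2 := by
    have h1 : ε ≤ q / (2 * D) := min_le_right _ _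
    calc D * ε ≤ D * (q / (2 * D)) := mul_le_mul_of_nonneg_left h1 hD0.le
      _ = q / 2 := by field_simp
  set η' : ℝ := q / 720 with hη'
  have hη'0 : 0 < η' := by rw [hη']; positivity
  obtain ⟨k1, hk1⟩ := clones η' hη'0
  obtain ⟨k2, hk2⟩ := t6' ε hε0
  refine ⟨max 100 (max k1 k2), ?_⟩
  intro V _ G k _ x hk hopt
  have hk100 : 100 ≤ k := le_trans (le_max_left _ _) hk
  have hkk1 : k1 ≤ k := le_trans (le_trans (le_max_left _ _) (le_max_right _ _)) hk
  have hkk2 : k2 ≤ k := le_trans (le_trans (le_max_right _ _) (le_max_right _ _)) hk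
  have hx : ∀ v, 0 ≤ x v := fun v => (hopt.pos v).le
  have hN : 0 < NN G k x := hopt.NN_pos
  have hbase : Base G x := opt_base (by omega) hopt
  have h9P : T9P G x θ C := fun r s hr hm => h9 V G x hbase r s hr hm
  obtain ⟨-, hcl2, hcl3⟩ := hk1 V G k x hkk1 hopt
  have ht6 := hk2 V G k x hkk2 hopt
  have ht5 : ∀ i, EE G k x (fun v => ∑ u ∈ Cl G v i, x u * wrv G x (Cl G v) i u) ≤ 18 * η' :=
    fun i => t5loc (by omega) hopt i η' hcl3
  -- the expectations
  have E1 := w1 (G := G) (k := k) (x := x) (by omega) hopt hε0.le hεθ hθ1 hC.le h9P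
  have E2 := w2 (G := G) (k := k) (x := x) (by omega) hopt hε0.le hεθ hθ1 hC.le h9P
  have E3 := w3 (G := G) (k := k) (x := x) (by omega) hopt hε0.le hεθ hθ1
  have E4 := w4 (G := G) (k := k) (x := x) (by omega) hopt hε0.le hεθ hθ1
  have E5 : EE G k x (fun v => qW G x v) ≤ 360 * η' := by
    have h1 : EE G k x (fun v => qW G x v) = ∑ j ∈ Wd k,
        (EE G k x (fun v => wt x ((NC G v).filter (fun w => G.Adj (v (j : ZMod k)) w))) +
        EE G k x (fun v => |wt x (Cl G v (j : ZMod k)) - 1|) +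
        EE G k x (fun v => ∑ u ∈ Cl G v (j : ZMod k), x u * wrv G x (Cl G v) (j : ZMod k) u)) := by
      unfold qW
      rw [EE_sum]
      refine Finset.sum_congr rfl fun j _ => ?_
      rw [EE_add, EE_add]
    rw [h1]
    calc _ ≤ ∑ j ∈ Wd k, (η' + η' + 18 * η') := by
          refine Finset.sum_le_sum fun j _ => ?_
          exact add_le_add (add_le_add (hcl3 _) (hcl2 _)) (ht5 _)
      _ = (Wd k).card * (20 * η') := by rw [Finset.sum_const, nsmul_eq_mul]; ring
      _ ≤ 18 * (20 * η') := by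
          have : ((Wd k).card : ℝ) ≤ 18 := by exact_mod_cast T91_Wd_card k
          exact mul_le_mul_of_nonneg_right this (by positivity)
      _ = 360 * η' := by ring
  have E6 : EE G k x (fun v => 2 * q * (if mm G x (k - 5) (st G v 5) ≤ ε then 0 else 1)) ≤
      2 * q * ε := by
    rw [EE_mul]
    exact mul_le_mul_of_nonneg_left ht6 (by positivity)
  have E7 : EE G k x (fun v => 2 * q * (if strt G x ε v ∧ ¬ unst G x θ (k - 2) v then 1 else 0)) ≤
      2 * q * (36 * ε / θ) := by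
    rw [EE_mul]
    exact mul_le_mul_of_nonneg_left
      (stop (by omega) hopt.pos hN hε0.le hεθ (hθ1.trans (by norm_num))) (by positivity)
  -- the total
  obtain ⟨v, hv, hle⟩ := exists_le_EE hx hN (fun v =>
    (∑ c ∈ Icc 5 (k - 6), if strt G x ε v ∧ unst G x θ (c + 1) v then q1 G x c v else 0) +
    (if strt G x ε v ∧ unst G x θ (k - 2) v then q2 G x v else 0) +
    (if strt G x ε v ∧ unst G x θ (k - 2) v then
      ∑ c ∈ Icc 5 (k - 2), l1 G x (st G v c) else 0) +
    (if strt G x ε v ∧ unst G x θ (k - 2) v then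
      mm G x 2 (st G v (k - 2)) else 0) +
    qW G x v +
    2 * q * (if mm G x (k - 5) (st G v 5) ≤ ε then 0 else 1) +
    2 * q * (if strt G x ε v ∧ ¬ unst G x θ (k - 2) v then 1 else 0))
  rw [EE_add, EE_add, EE_add, EE_add, EE_add, EE_add] at hle
  have hqε : 2 * q * ε ≤ 2 * ε := by
    have : q * ε ≤ 1 * ε := mul_le_mul_of_nonneg_right (by linarith) hε0.le
    linarith
  have hqθ : 2 * q * (36 * ε / θ) ≤ 72 / θ * ε := by
    have h1 : q * (72 / θ * ε) ≤ 1 * (72 / θ * ε) :=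
      mul_le_mul_of_nonneg_right (by linarith) (by positivity)
    calc 2 * q * (36 * ε / θ) = q * (72 / θ * ε) := by ring
      _ ≤ 1 * (72 / θ * ε) := h1
      _ = 72 / θ * ε := one_mul _
  have hexp : D * ε = 168 * C * ε + 6 * ε + 72 / θ * ε := by rw [hD]; ring
  have htot := hle.trans (add_le_add (add_le_add (add_le_add (add_le_add (add_le_add (add_le_add
    E1 E2) E3) E4) E5) E6) E7)
  have htot2 : (∑ c ∈ Icc 5 (k - 6),
      if strt G x ε v ∧ unst G x θ (c + 1) v then q1 G x c v else 0) +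
    (if strt G x ε v ∧ unst G x θ (k - 2) v then q2 G x v else 0) +
    (if strt G x ε v ∧ unst G x θ (k - 2) v then
      ∑ c ∈ Icc 5 (k - 2), l1 G x (st G v c) else 0) +
    (if strt G x ε v ∧ unst G x θ (k - 2) v then
      mm G x 2 (st G v (k - 2)) else 0) +
    qW G x v +
    2 * q * (if mm G x (k - 5) (st G v 5) ≤ ε then 0 else 1) +
    2 * q * (if strt G x ε v ∧ ¬ unst G x θ (k - 2) v then 1 else 0) ≤ q := by
    refine htot.trans ?_
    rw [hη']
    linarith
  have hA : 0 ≤ ∑ c ∈ Icc 5 (k - 6),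
      if strt G x ε v ∧ unst G x θ (c + 1) v then q1 G x c v else 0 := by
    refine Finset.sum_nonneg fun c _ => ?_
    split_ifs
    · exact T91_q1_nonneg hx _ _
    · exact le_rfl
  have hW : 0 ≤ qW G x v := T91_qW_nonneg hx v
  have hs : strt G x ε v := by
    by_contra hns
    have hns' : ¬ mm G x (k - 5) (st G v 5) ≤ ε := hns
    rw [if_neg (fun h => hns h.1), if_neg (fun h => hns h.1), if_neg (fun h => hns h.1),
      if_neg hns', if_neg (fun h => hns h.1)] at htot2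
    linarith
  have hu : unst G x θ (k - 2) v := by
    by_contra hnu
    have hs' : mm G x (k - 5) (st G v 5) ≤ ε := hs
    rw [if_neg (fun h => hnu h.2), if_neg (fun h => hnu h.2), if_neg (fun h => hnu h.2),
      if_pos hs', if_pos ⟨hs, hnu⟩] at htot2
    linarith
  have hs' : mm G x (k - 5) (st G v 5) ≤ ε := hs
  rw [if_pos ⟨hs, hu⟩, if_pos ⟨hs, hu⟩, if_pos ⟨hs, hu⟩, if_pos hs',
    if_neg (fun h => h.2 hu)] at htot2
  have hsum : (∑ c ∈ Icc 5 (k - 6),
      if strt G x ε v ∧ unst G x θ (c + 1) v then q1 G x c v else 0) =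
      ∑ c ∈ Icc 5 (k - 6), q1 G x c v := by
    refine Finset.sum_congr rfl fun c hc => ?_
    rw [if_pos]
    refine ⟨hs, fun c' h5 hc' => hu c' h5 ?_⟩
    rw [mem_Icc] at hc
    omega
  rw [hsum] at htot2
  refine ⟨Cl G v, T91_mono (s91 hk100 hopt hv hθ1 hq1 hu ?_) hq2⟩
  linarith

end Pool.Agent.Icy
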