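import Pool.Agent.Icy.FinalP
import Pool.Agent.Icy.Reassign
import Pool.Agent.Icy.RealIneq
import Pool.Agent.Icy.ExOpt
import Pool.Agent.Icy.T91

/-!
# The weighted theorem

If `NN x < 2k` clear.  Else `exists_opt`, `t91` (`η = 10⁻⁷`), `reassign`, `finalP`, `realineq` with
`a j = wt (T j)`.
-/

set_option autoImplicit false

open Finset
open scoped Classical

namespace Pool.Agent.Icy

theorem MainW_small {k : ℕ} (hk : 100 ≤ k) : (k : ℝ) * (3 / k) ^ k ≤ 1 / 10 ^ 7 := by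
  have hk0 : (0 : ℝ) < k := by exact_mod_cast (by omega : 0 < k)
  have hkr : (100 : ℝ) ≤ k := by exact_mod_cast hk
  have h1 : (3 / (k : ℝ)) ≤ 3 / 100 := by
    apply div_le_div_of_nonneg_left <;> linarith
  have h2 : (3 / (k : ℝ)) ^ k ≤ (3 / 100 : ℝ) ^ k := pow_le_pow_left₀ (by positivity) h1 k
  have h3 : (k : ℝ) ≤ 2 ^ k := by exact_mod_cast Nat.lt_two_pow_self.le
  calc (k : ℝ) * (3 / k) ^ k ≤ 2 ^ k * (3 / 100 : ℝ) ^ k :=
        mul_le_mul h3 h2 (by positivity) (by positivity)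
    _ = (6 / 100 : ℝ) ^ k := by rw [← mul_pow]; norm_num
    _ ≤ (6 / 100 : ℝ) ^ 10 := pow_le_pow_of_le_one (by norm_num) (by norm_num) (by omega)
    _ ≤ 1 / 10 ^ 7 := by norm_num

theorem mainW : ∃ k₀ : ℕ, ∀ (k : ℕ) [NeZero k], k₀ ≤ k → ∀ (V : Type) [Fintype V]
    (G : SimpleGraph V) (x : V → ℝ), (∀ v, 0 ≤ x v) → ∑ v, x v = k →
    NN G k x * (1 - (k : ℝ) / (k : ℝ) ^ k) ≤ 2 * k := by
  obtain ⟨k1, hk1⟩ := t91 (1 / 10 ^ 7) (by norm_num)
  refine ⟨max 100 k1, ?_⟩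
  intro k _ hk V _ G x hx hsum
  have hk100 : 100 ≤ k := le_trans (le_max_left _ _) hk
  have hkk1 : k1 ≤ k := le_trans (le_max_right _ _) hk
  have hk0 : (0 : ℝ) < k := by exact_mod_cast (by omega : 0 < k)
  have hkr : (100 : ℝ) ≤ k := by exact_mod_cast hk100
  have hfrac0 : 0 ≤ (k : ℝ) / (k : ℝ) ^ k := by positivity
  have hfrac1 : (k : ℝ) / (k : ℝ) ^ k ≤ 1 := by
    rw [div_le_one (by positivity)]
    exact le_self_pow₀ (by linarith) (by omega)
  by_cases hN : NN G k x < 2 * k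
  · have h0 : 0 ≤ NN G k x := NN_nonneg hx
    have h1 : NN G k x * (1 - (k : ℝ) / (k : ℝ) ^ k) ≤ NN G k x * 1 :=
      mul_le_mul_of_nonneg_left (by linarith) h0
    linarith
  · push Not at hN
    obtain ⟨V', _, G', x', hopt, hle⟩ := exists_opt G k (by omega) x hx hsum hN
    obtain ⟨T, hT⟩ := hk1 V' G' k x' hkk1 hopt
    obtain ⟨T', hT'⟩ := reassign hk100 hopt (by norm_num) (by norm_num) hT (MainW_small hk100)
    have hfin := finalP hk100 hopt (by norm_num) (by norm_num) hT'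
    have hsw := sum_wt hopt hT'
    have hsz : ∀ j, |wt x' (T' j) - 1| ≤ 1 / 2 := fun j => (hT'.size j).trans (by norm_num)
    have hreal := realineq (k := k) (by omega) (fun j => wt x' (T' j)) hsw hsz
    have hpos : 0 < ∏ j, wt x' (T' j) := by
      refine Finset.prod_pos fun j _ => ?_
      have := (abs_le.1 (hsz j)).1
      linarith
    have hNN' : 0 ≤ NN G' k x' := NN_nonneg fun v => (hopt.pos v).le
    have h1 : NN G' k x' * ((∏ j, wt x' (T' j)) * (1 - (k : ℝ) / (k : ℝ) ^ k)) ≤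
        NN G' k x' * (1 - ∑ j, (wt x' (T' j) / k) ^ k) :=
      mul_le_mul_of_nonneg_left (by linarith) hNN'
    have h2 : (NN G' k x' * (1 - (k : ℝ) / (k : ℝ) ^ k)) * ∏ j, wt x' (T' j) ≤
        (2 * k) * ∏ j, wt x' (T' j) := by
      calc (NN G' k x' * (1 - (k : ℝ) / (k : ℝ) ^ k)) * ∏ j, wt x' (T' j)
          = NN G' k x' * ((∏ j, wt x' (T' j)) * (1 - (k : ℝ) / (k : ℝ) ^ k)) := by ring
        _ ≤ NN G' k x' * (1 - ∑ j, (wt x' (T' j) / k) ^ k) := h1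
        _ = NN G' k x' - NN G' k x' * ∑ j, (wt x' (T' j) / k) ^ k := by ring
        _ ≤ (2 * k) * ∏ j, wt x' (T' j) := by linarith
    have h3 : NN G' k x' * (1 - (k : ℝ) / (k : ℝ) ^ k) ≤ 2 * k := le_of_mul_le_mul_right h2 hpos
    calc NN G k x * (1 - (k : ℝ) / (k : ℝ) ^ k) ≤ NN G' k x' * (1 - (k : ℝ) / (k : ℝ) ^ k) :=
          mul_le_mul_of_nonneg_right hle (by linarith)
      _ ≤ 2 * k := h3

end Pool.Agent.Icy
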