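import Pool.Agent.Icy.LkDefs

/-!
# Masses at states with small defect

`r ≥ 2`: `1 - mm ≤ a exp (1-a-b)` (`mm_rec`, `mm ≥ 0`), so `(a - 1 - log a) + b ≤ - log (1-θ) ≤ 1.1 θ`.
`r = 1`: `1 - mm = b exp (1 - wt U)`, `wt U ≥ a + b`: `(b - 1 - log b) + a ≤ 1.1 θ`.
`t - 1 - log t ≥ (t-1)²/4` for `0 < t ≤ 2`, and it is `> 0.3` for `t ≥ 2`.
`mass_left` (`r = 2`): for every `z`, `1 - mm 1 (s_z) ≤ β exp (1 - u)` with `u = wt (up s)`,
`β = wt (nbin (up s) a)`, `≤ exp (-(u - β))`; so `1 - mm 2 s ≤ a exp(1-a-b) exp (-(u-β))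
≤ exp (-(u-β))`, `u - β ≤ - log (1 - mm) ≤ 2 mm`.
-/

set_option autoImplicit false

open Finset
open scoped Classical

namespace Pool.Agent.Icy

variable {V : Type} {G : SimpleGraph V} {x : V → ℝ}

theorem Mass_aexp (a : ℝ) : a * Real.exp (1 - a) ≤ 1 := by
  have h := Real.add_one_le_exp (a - 1)
  have h2 : a ≤ Real.exp (a - 1) := by linarith
  calc a * Real.exp (1 - a) ≤ Real.exp (a - 1) * Real.exp (1 - a) :=
        mul_le_mul_of_nonneg_right h2 (Real.exp_pos _).le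
    _ = 1 := by rw [← Real.exp_add]; simp

theorem Mass_wt_nonneg (hx : ∀ v, 0 ≤ x v) (S : Finset V) : 0 ≤ wt x S :=
  Finset.sum_nonneg fun v _ => hx v

/-- `(t-1)²/4 ≤ t - 1 - log t` for `0 < t ≤ 2` -/
theorem Mass_log {t : ℝ} (h0 : 0 < t) (h2 : t ≤ 2) : (t - 1) ^ 2 / 4 ≤ t - 1 - Real.log t := by
  rcases le_total 1 t with h1 | h1
  · have hw : 0 ≤ (t - 1) - (t - 1) ^ 2 / 4 := by nlinarith
    have h3 := Real.quadratic_le_exp_of_nonneg hw
    have h4 : t ≤ Real.exp ((t - 1) - (t - 1) ^ 2 / 4) := by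
      refine le_trans ?_ h3
      have hu : 0 ≤ t - 1 := by linarith
      have hu1 : t - 1 ≤ 1 := by linarith
      set u := t - 1
      have : t = 1 + u := by simp [u]
      rw [this]
      have h5 : (u - u ^ 2 / 4) ^ 2 / 2 = u ^ 2 * ((1 - u / 4) ^ 2 / 2) := by ring
      rw [h5]
      have h6 : 9 / 32 ≤ (1 - u / 4) ^ 2 / 2 := by nlinarith
      have h7 : 0 ≤ u ^ 2 := by positivity
      nlinarith
    have h5 := Real.log_le_log h0 h4
    rw [Real.log_exp] at h5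
    linarith
  · have hx0 : 0 ≤ (1 - t) / t := by
      apply div_nonneg <;> linarith
    have h3 := Real.le_log_one_add_of_nonneg hx0
    have h4 : 1 + (1 - t) / t = t⁻¹ := by field_simp; ring
    rw [h4, Real.log_inv] at h3
    have h5 : 2 * ((1 - t) / t) / ((1 - t) / t + 2) = 2 * (1 - t) / (1 + t) := by
      have : (1 - t) / t + 2 = (1 + t) / t := by field_simp; ring
      rw [this]
      have : (1 + t) ≠ 0 := by linarith
      field_simp
    rw [h5] at h3
    have h6 : (1 - t) + (1 - t) ^ 2 / 4 ≤ 2 * (1 - t) / (1 + t) := by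
      rw [le_div_iff₀ (by linarith)]
      have hy : 0 ≤ 1 - t := by linarith
      have hy1 : 1 - t ≤ 1 := by linarith
      set y := 1 - t
      have : t = 1 - y := by simp [y]
      rw [this]
      have : 2 * y - (y + y ^ 2 / 4) * (1 + (1 - y)) = y ^ 2 * (1 / 2 + y / 4) := by ring
      have h7 : 0 ≤ y ^ 2 * (1 / 2 + y / 4) := by positivity
      linarith
    nlinarith

/-- the core -/
theorem Mass_core {a b θ : ℝ} (ha : 0 ≤ a) (hb : 0 ≤ b) (hθ0 : 0 ≤ θ) (hθ : θ ≤ 1 / 16)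
    (h : 1 - θ ≤ a * Real.exp (1 - a - b)) :
    |a - 1| ≤ 22 / 10 * Real.sqrt θ ∧ b ≤ 11 / 10 * θ := by
  have ha0 : 0 < a := by
    rcases eq_or_lt_of_le ha with h1 | h1
    · rw [← h1] at h; simp at h; linarith
    · exact h1
  have ha2 : a ≤ 2 := by
    by_contra hc
    push Not at hc
    have h4 : Real.exp (1 - a - b) ≤ Real.exp (1 - a) := Real.exp_le_exp.mpr (by linarith)
    have h5 : 15 / 16 ≤ a * Real.exp (1 - a) := by
      have := mul_le_mul_of_nonneg_left h4 ha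
      linarith
    have h6 := Mass_aexp (a / 2)
    have h7 : Real.exp (- (a / 2)) ≤ Real.exp (-1) := Real.exp_le_exp.mpr (by linarith)
    have h8 : Real.exp (-1) < 0.37 := by
      have := Real.exp_neg_one_lt_d9
      linarith
    have h9 : a * Real.exp (1 - a) =
        2 * (a / 2 * Real.exp (1 - a / 2)) * Real.exp (- (a / 2)) := by
      rw [show (1 - a) = (1 - a / 2) + (- (a / 2)) by ring, Real.exp_add]
      ring
    have h10 : 0 ≤ Real.exp (- (a / 2)) := (Real.exp_pos _).le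
    rw [h9] at h5
    nlinarith
  have h1 : Real.log (1 - θ) ≤ Real.log a + (1 - a - b) := by
    have h2 := Real.log_le_log (by linarith) h
    rw [Real.log_mul ha0.ne' (Real.exp_pos _).ne', Real.log_exp] at h2
    exact h2
  have h2 : -(11 / 10 * θ) ≤ Real.log (1 - θ) := by
    have h3 := Real.one_sub_inv_le_log_of_pos (x := 1 - θ) (by linarith)
    refine le_trans ?_ h3
    have h4 : (1 - θ)⁻¹ ≤ 1 + 11 / 10 * θ := by
      rw [inv_le_comm₀ (by linarith) (by linarith)]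
      rw [inv_le_iff_one_le_mul₀ (by linarith)]
      nlinarith
    linarith
  have h3 := Mass_log ha0 ha2
  have h4 : Real.log a ≤ a - 1 := Real.log_le_sub_one_of_pos ha0
  refine ⟨?_, by linarith⟩
  have h5 : (a - 1) ^ 2 ≤ 484 / 100 * θ := by linarith
  have h6 : (a - 1) ^ 2 ≤ (22 / 10 * Real.sqrt θ) ^ 2 := by
    rw [mul_pow, Real.sq_sqrt hθ0]
    linarith
  exact abs_le_of_sq_le_sq h6 (by positivity)

theorem Mass_wtN (s : St V) : wt x (sN G s) = wt x (sA G s) + wt x (sB G s) := by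
  unfold wt sN sA sB
  rw [← Finset.sum_filter_add_sum_filter_not (s.U.filter (fun u => G.Adj s.b u))
    (fun u => G.Adj s.a u)]
  rw [Finset.filter_filter, Finset.filter_filter, add_comm]

theorem Mass_AB_le_U (hx : ∀ v, 0 ≤ x v) (s : St V) :
    wt x (sA G s) + wt x (sB G s) ≤ wt x s.U := by
  rw [← Mass_wtN]
  unfold wt sN
  exact Finset.sum_le_sum_of_subset_of_nonneg (Finset.filter_subset _ _) fun v _ _ => hx v

theorem Mass_A_ge (hx : ∀ v, 0 ≤ x v) {r : ℕ} (hr : 2 ≤ r) (s : St V) :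
    1 - mm G x r s ≤ wt x (sA G s) * ex G x s := by
  obtain ⟨m, rfl⟩ : ∃ m, r = m + 2 := ⟨r - 2, by omega⟩
  have hrec := mm_rec (G := G) (x := x) m s
  have hE : 0 < ex G x s := Real.exp_pos _
  have h1 : ∑ z ∈ sA G s, x z * (1 - mm G x (m + 1) (step G s z)) ≤ wt x (sA G s) := by
    unfold wt
    refine Finset.sum_le_sum fun z _ => ?_
    have := mm_nonneg (G := G) hx (r := m + 1) (by omega) (step G s z)
    have hz := hx z
    nlinarith
  have := mul_le_mul_of_nonneg_left h1 hE.le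
  linarith

theorem Mass_main2 (hx : ∀ v, 0 ≤ x v) {θ : ℝ} (hθ : θ ≤ 1 / 16) {r : ℕ} (hr : 2 ≤ r) {s : St V}
    (hm : mm G x r s < θ) :
    |wt x (sA G s) - 1| ≤ 22 / 10 * Real.sqrt θ ∧ wt x (sB G s) ≤ 11 / 10 * θ := by
  have h0 := mm_nonneg (G := G) hx (r := r) (by omega) s
  have h1 := Mass_A_ge (G := G) hx hr s
  exact Mass_core (Mass_wt_nonneg hx _) (Mass_wt_nonneg hx _) (by linarith) hθ
    (by unfold ex at h1; linarith)

theorem Mass_main1 (hx : ∀ v, 0 ≤ x v) {θ : ℝ} (hθ : θ ≤ 1 / 16) {s : St V}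
    (hm : mm G x 1 s < θ) :
    |wt x (sB G s) - 1| ≤ 22 / 10 * Real.sqrt θ ∧ wt x (sA G s) ≤ 11 / 10 * θ := by
  have h0 := mm_nonneg (G := G) hx (r := 1) le_rfl s
  have h1 := mm_one (G := G) (x := x) s
  have h2 := Mass_AB_le_U (G := G) hx s
  have hB := Mass_wt_nonneg hx (sB G s)
  refine Mass_core hB (Mass_wt_nonneg hx _) (by linarith) hθ ?_
  have h3 : Real.exp (1 - wt x s.U) ≤ Real.exp (1 - wt x (sB G s) - wt x (sA G s)) :=
    Real.exp_le_exp.mpr (by linarith)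
  have := mul_le_mul_of_nonneg_left h3 hB
  linarith

theorem Mass_sqrt {θ : ℝ} (h0 : 0 ≤ θ) (hθ : θ ≤ 1 / 16) :
    θ ≤ Real.sqrt θ / 4 ∧ 0 ≤ Real.sqrt θ ∧ Real.sqrt θ ≤ 1 / 4 := by
  have h1 : Real.sqrt θ ≤ 1 / 4 := by
    rw [show (1 / 4 : ℝ) = Real.sqrt (1 / 16) by
      rw [show (1 / 16 : ℝ) = (1 / 4) ^ 2 by norm_num, Real.sqrt_sq (by norm_num)]]
    exact Real.sqrt_le_sqrt hθ
  have h2 := Real.sqrt_nonneg θ
  have h3 := Real.mul_self_sqrt h0
  refine ⟨by nlinarith, h2, h1⟩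

theorem Mass_sum (hx : ∀ v, 0 ≤ x v) {θ : ℝ} (hθ : θ ≤ 1 / 16) {r : ℕ} (hr : 1 ≤ r) {s : St V}
    (hm : mm G x r s < θ) :
    |wt x (sA G s) + wt x (sB G s) - 1| ≤ 25 / 10 * Real.sqrt θ := by
  have h0 := mm_nonneg (G := G) hx (r := r) (by omega) s
  obtain ⟨h1, h2, h3⟩ := Mass_sqrt (θ := θ) (by linarith) hθ
  have hA := Mass_wt_nonneg hx (sA G s)
  have hB := Mass_wt_nonneg hx (sB G s)
  rcases Nat.lt_or_ge r 2 with h | h
  · obtain rfl : r = 1 := by omega
    obtain ⟨h4, h5⟩ := Mass_main1 hx hθ hm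
    rw [abs_le] at h4 ⊢
    constructor <;> linarith [h4.1, h4.2]
  · obtain ⟨h4, h5⟩ := Mass_main2 hx hθ h hm
    rw [abs_le] at h4 ⊢
    constructor <;> linarith [h4.1, h4.2]

theorem mass_N (hx : ∀ v, 0 ≤ x v) {θ : ℝ} (hθ : θ ≤ 1 / 16) {r : ℕ} (hr : 1 ≤ r) {s : St V}
    (hm : mm G x r s < θ) : |wt x (sN G s) - 1| ≤ 4 * Real.sqrt θ := by
  rw [Mass_wtN]
  have := Mass_sum hx hθ hr hm
  have := Real.sqrt_nonneg θ
  linarith

theorem mass_A (hx : ∀ v, 0 ≤ x v) {θ : ℝ} (hθ : θ ≤ 1 / 16) {r : ℕ} (hr : 2 ≤ r) {s : St V}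
    (hm : mm G x r s < θ) : |wt x (sA G s) - 1| ≤ 4 * Real.sqrt θ := by
  have := (Mass_main2 hx hθ hr hm).1
  have := Real.sqrt_nonneg θ
  linarith

theorem mass_B (hx : ∀ v, 0 ≤ x v) {θ : ℝ} (hθ : θ ≤ 1 / 16) {r : ℕ} (hr : 2 ≤ r) {s : St V}
    (hm : mm G x r s < θ) : wt x (sB G s) ≤ 2 * θ := by
  have := (Mass_main2 hx hθ hr hm).2
  have h0 := mm_nonneg (G := G) hx (r := r) (by omega) s
  linarith

theorem ex_bounds (hx : ∀ v, 0 ≤ x v) {θ : ℝ} (hθ : θ ≤ 1 / 16) {r : ℕ} (hr : 1 ≤ r) {s : St V}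
    (hm : mm G x r s < θ) : 1 / 3 ≤ ex G x s ∧ ex G x s ≤ 3 ∧ |ex G x s - 1| ≤ 8 * Real.sqrt θ := by
  have h0 := mm_nonneg (G := G) hx (r := r) (by omega) s
  obtain ⟨h1, h2, h3⟩ := Mass_sqrt (θ := θ) (by linarith) hθ
  have h4 := Mass_sum hx hθ hr hm
  have h5 : |1 - wt x (sA G s) - wt x (sB G s)| ≤ 25 / 10 * Real.sqrt θ := by
    rw [abs_le] at h4 ⊢
    constructor <;> linarith [h4.1, h4.2]
  have h6 : |1 - wt x (sA G s) - wt x (sB G s)| ≤ 1 := by linarith
  have h7 := Real.abs_exp_sub_one_le h6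
  have h8 : |ex G x s - 1| ≤ 5 * Real.sqrt θ := by
    unfold ex; linarith
  have h9 := Real.add_one_le_exp (1 - wt x (sA G s) - wt x (sB G s))
  have h10 : ex G x s = Real.exp (1 - wt x (sA G s) - wt x (sB G s)) := rfl
  refine ⟨?_, ?_, by linarith⟩
  · rw [abs_le] at h5
    rw [h10]
    linarith [h5.1]
  · rw [abs_le] at h8
    linarith [h8.2]

theorem ex_le (hx : ∀ v, 0 ≤ x v) (s : St V) : ex G x s ≤ 3 ∧ wt x (sA G s) * ex G x s ≤ 1 := by
  have hA := Mass_wt_nonneg hx (sA G s)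
  have hB := Mass_wt_nonneg hx (sB G s)
  constructor
  · have h1 : ex G x s ≤ Real.exp 1 := Real.exp_le_exp.mpr (by linarith)
    have h2 := Real.exp_one_lt_d9
    linarith
  · refine le_trans ?_ (Mass_aexp (wt x (sA G s)))
    refine mul_le_mul_of_nonneg_left ?_ hA
    apply Real.exp_le_exp.mpr
    linarith

theorem l1_nonneg (hx : ∀ v, 0 ≤ x v) (s : St V) : 0 ≤ l1 G x s := by
  have := (ex_le (G := G) hx s).2
  unfold l1; linarith

/-- `b ≤ 2 l1` when `b ≤ 1` -/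
theorem b_le_l1 (hx : ∀ v, 0 ≤ x v) {s : St V} (hb : wt x (sB G s) ≤ 1) :
    wt x (sB G s) ≤ 2 * l1 G x s := by
  have hA := Mass_wt_nonneg hx (sA G s)
  have hB := Mass_wt_nonneg hx (sB G s)
  have h1 : wt x (sA G s) * ex G x s ≤ Real.exp (- wt x (sB G s)) := by
    have h2 : wt x (sA G s) * ex G x s =
        (wt x (sA G s) * Real.exp (1 - wt x (sA G s))) * Real.exp (- wt x (sB G s)) := by
      unfold ex
      rw [show (1 - wt x (sA G s) - wt x (sB G s)) =
        (1 - wt x (sA G s)) + (- wt x (sB G s)) by ring, Real.exp_add]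
      ring
    rw [h2]
    have h3 := Mass_aexp (wt x (sA G s))
    have h4 : 0 ≤ Real.exp (- wt x (sB G s)) := (Real.exp_pos _).le
    nlinarith
  have h2 : Real.exp (- wt x (sB G s)) ≤ 1 - wt x (sB G s) / 2 := by
    rw [Real.exp_neg]
    have h3 := Real.add_one_le_exp (wt x (sB G s))
    have h4 : (Real.exp (wt x (sB G s)))⁻¹ ≤ (wt x (sB G s) + 1)⁻¹ :=
      inv_anti₀ (by linarith) h3
    refine h4.trans ?_
    rw [inv_le_iff_one_le_mul₀ (by linarith)]
    nlinarith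
  unfold l1
  linarith

/-- the size of `sA` from `l1` -/
theorem sA_l1 (hx : ∀ v, 0 ≤ x v) {s : St V} {t : ℝ} (ht : l1 G x s ≤ t) (ht4 : t ≤ 1 / 16) :
    |wt x (sA G s) - 1| ≤ 4 * Real.sqrt t := by
  have h0 := l1_nonneg (G := G) hx s
  have h1 := (Mass_core (a := wt x (sA G s)) (b := wt x (sB G s)) (θ := t)
    (Mass_wt_nonneg hx _) (Mass_wt_nonneg hx _) (by linarith) ht4 (by
      unfold l1 ex at ht; linarith)).1
  have := Real.sqrt_nonneg t
  linarith

theorem mass_left (hx : ∀ v, 0 ≤ x v) {s : St V} (hm : mm G x 2 s ≤ 1 / 2) :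
    wt x (nnin G (up G s) s.a) ≤ 2 * mm G x 2 s := by
  have hrec := mm_rec (G := G) (x := x) 0 s
  have hE : 0 < ex G x s := Real.exp_pos _
  have hγ := Mass_wt_nonneg hx (nnin G (up G s) s.a)
  have hβ := Mass_wt_nonneg hx (nbin G (up G s) s.a)
  have hu : wt x (up G s) = wt x (nbin G (up G s) s.a) + wt x (nnin G (up G s) s.a) := by
    unfold wt nbin nnin
    rw [Finset.sum_filter_add_sum_filter_not]
  have h1 : ∀ z, 1 - mm G x 1 (step G s z) ≤ Real.exp (- wt x (nnin G (up G s) s.a)) := by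
    intro z
    rw [mm_one]
    have h2 : wt x (sB G (step G s z)) ≤ wt x (nbin G (up G s) s.a) := by
      unfold wt
      refine Finset.sum_le_sum_of_subset_of_nonneg ?_ fun v _ _ => hx v
      intro u hu
      have hu' := Finset.mem_filter.mp hu
      exact Finset.mem_filter.mpr ⟨hu'.1, hu'.2.2⟩
    have h3 : wt x (step G s z).U = wt x (up G s) := rfl
    rw [h3, hu]
    have h4 : Real.exp (1 - (wt x (nbin G (up G s) s.a) + wt x (nnin G (up G s) s.a))) =
        Real.exp (1 - wt x (nbin G (up G s) s.a)) * Real.exp (- wt x (nnin G (up G s) s.a)) := by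
      rw [← Real.exp_add]; congr 1; ring
    rw [h4, ← mul_assoc]
    have h5 := Mass_aexp (wt x (nbin G (up G s) s.a))
    have h6 : 0 ≤ Real.exp (1 - wt x (nbin G (up G s) s.a)) := (Real.exp_pos _).le
    have h7 : wt x (sB G (step G s z)) * Real.exp (1 - wt x (nbin G (up G s) s.a)) ≤ 1 :=
      (mul_le_mul_of_nonneg_right h2 h6).trans h5
    have h8 : 0 ≤ Real.exp (- wt x (nnin G (up G s) s.a)) := (Real.exp_pos _).le
    nlinarith
  have h2 : ∑ z ∈ sA G s, x z * (1 - mm G x (0 + 1) (step G s z)) ≤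
      wt x (sA G s) * Real.exp (- wt x (nnin G (up G s) s.a)) := by
    unfold wt
    rw [Finset.sum_mul]
    refine Finset.sum_le_sum fun z _ => ?_
    exact mul_le_mul_of_nonneg_left (h1 z) (hx z)
  have h3 := (ex_le (G := G) hx s).2
  have h4 : 1 - mm G x 2 s ≤ Real.exp (- wt x (nnin G (up G s) s.a)) := by
    have h5 := mul_le_mul_of_nonneg_left h2 hE.le
    have h6 : 0 ≤ Real.exp (- wt x (nnin G (up G s) s.a)) := (Real.exp_pos _).le
    have h7 : ex G x s * (wt x (sA G s) * Real.exp (- wt x (nnin G (up G s) s.a))) ≤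
        Real.exp (- wt x (nnin G (up G s) s.a)) := by
      have : ex G x s * (wt x (sA G s) * Real.exp (- wt x (nnin G (up G s) s.a))) =
        (wt x (sA G s) * ex G x s) * Real.exp (- wt x (nnin G (up G s) s.a)) := by ring
      rw [this]
      nlinarith
    have h8 : 1 - mm G x (0 + 2) s = 1 - mm G x 2 s := rfl
    linarith
  have h0 := mm_nonneg (G := G) hx (r := 2) (by omega) s
  have h5 := Real.log_le_log (by linarith) h4
  rw [Real.log_exp] at h5
  have h6 := Real.one_sub_inv_le_log_of_pos (x := 1 - mm G x 2 s) (by linarith)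
  have h7 : (1 - mm G x 2 s)⁻¹ ≤ 1 + 2 * mm G x 2 s := by
    rw [inv_le_iff_one_le_mul₀ (by linarith)]
    nlinarith
  linarith

end Pool.Agent.Icy
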