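import Pool.Agent.Icy.CycBasic

/-!
# Total weight of the cycles with a given prefix

By induction on `k - p`.  `p = k - 1`: `v'` is determined by `z = v' (k-1)`, and `v'` is an induced
cycle iff `z ∈ sB (st v (k-1))`; `st` only depends on the prefix.  Step: sum over `z = v' p`; if the
filter is non-empty then `z ∈ sA (st v p)`; conversely for `z ∈ sA (st v p)` the function `update v p
z` has the path property for `p + 1` and `st (update v p z) (p+1) = step (st v p) z`.
-/

set_option autoImplicit false

open Finset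
open scoped Classical

namespace Pool.Agent.Icy

variable {V : Type} [Fintype V] {G : SimpleGraph V} {k : ℕ} [NeZero k]

/-- `v 0, …, v (p-1)` is an induced path -/
def PathTo (G : SimpleGraph V) (k : ℕ) (v : ZMod k → V) (p : ℕ) : Prop :=
  ∀ i j : ℕ, i < p → j < p → (G.Adj (v (i : ZMod k)) (v (j : ZMod k)) ↔ (j = i + 1 ∨ i = j + 1))

theorem pathTo_of_cyc (hk : 5 ≤ k) {v : ZMod k → V} (hv : v ∈ cyc G k) {p : ℕ} (hp : p + 1 ≤ k) :
    PathTo G k v p := by
  intro i j hi hj
  rw [cyc_adj_nat hk hv (by omega) (by omega)]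
  omega

omit [Fintype V] in
lemma PreSum_cast_inj {i j : ℕ} (hi : i < k) (hj : j < k) :
    ((i : ZMod k) = (j : ZMod k)) ↔ i = j := by
  rw [ZMod.natCast_eq_natCast_iff', Nat.mod_eq_of_lt hi, Nat.mod_eq_of_lt hj]

omit [Fintype V] in
lemma PreSum_prod_range {M : Type} [CommMonoid M] (f : ZMod k → M) :
    ∏ i : ZMod k, f i = ∏ i ∈ range k, f (i : ZMod k) := by
  refine Finset.prod_nbij' (fun a => a.val) (fun i => (i : ZMod k)) ?_ ?_ ?_ ?_ ?_
  · intro a _
    exact Finset.mem_range.2 (ZMod.val_lt a)
  · intro i _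
    exact Finset.mem_univ _
  · intro a _
    exact ZMod.natCast_zmod_val a
  · intro i hi
    exact ZMod.val_natCast_of_lt (Finset.mem_range.1 hi)
  · intro a _
    rw [ZMod.natCast_zmod_val a]

omit [NeZero k] in
lemma PreSum_st_congr {v v' : ZMod k → V} {p : ℕ} (hp : 2 ≤ p)
    (h : ∀ i : ℕ, i < p → v' (i : ZMod k) = v (i : ZMod k)) : st G v' p = st G v p := by
  unfold st
  have h0 : v' 0 = v 0 := by simpa using h 0 (by omega)
  have h1 := h (p - 1) (by omega)
  have h2 : (univ.filter fun u => ∀ i : ℕ, 1 ≤ i → i + 1 < p → ¬ G.Adj (v' ((i : ℕ) : ZMod k)) u)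
      = univ.filter fun u => ∀ i : ℕ, 1 ≤ i → i + 1 < p → ¬ G.Adj (v ((i : ℕ) : ZMod k)) u := by
    apply Finset.filter_congr
    intro u _
    constructor
    · intro H i hi1 hi2
      have := H i hi1 hi2
      rwa [h i (by omega)] at this
    · intro H i hi1 hi2
      rw [h i (by omega)]
      exact H i hi1 hi2
  rw [h0, h1, h2]

omit [Fintype V] in
lemma PreSum_succ_iff {i j : ℕ} (hi : i < k) (hj : j < k) :
    ((j : ZMod k) = (i : ZMod k) + 1) ↔ (j = i + 1 ∨ (j = 0 ∧ i + 1 = k)) := by
  have h1 : (i : ZMod k) + 1 = ((i + 1 : ℕ) : ZMod k) := by push_cast; ring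
  rw [h1]
  by_cases h : i + 1 < k
  · rw [PreSum_cast_inj hj h]
    omega
  · have h2 : i + 1 = k := by omega
    have h3 : ((i + 1 : ℕ) : ZMod k) = ((0 : ℕ) : ZMod k) := by
      rw [h2]; simp
    rw [h3, PreSum_cast_inj hj (by omega)]
    omega

omit [Fintype V] in
lemma PreSum_cyc_iff (u : ZMod k → V) : IsCyc G k u ↔ ∀ i j : ℕ, i < k → j < k →
    (G.Adj (u (i : ZMod k)) (u (j : ZMod k)) ↔
      (j = i + 1 ∨ i = j + 1 ∨ (i = 0 ∧ j + 1 = k) ∨ (j = 0 ∧ i + 1 = k))) := by
  constructor
  · intro h i j hi hj
    rw [h (i : ZMod k) (j : ZMod k), PreSum_succ_iff hi hj, PreSum_succ_iff hj hi]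
    omega
  · intro h a b
    have ha := ZMod.natCast_zmod_val a
    have hb := ZMod.natCast_zmod_val b
    have := h a.val b.val (ZMod.val_lt a) (ZMod.val_lt b)
    rw [ha, hb] at this
    rw [this]
    have e1 := PreSum_succ_iff (k := k) (ZMod.val_lt a) (ZMod.val_lt b)
    have e2 := PreSum_succ_iff (k := k) (ZMod.val_lt b) (ZMod.val_lt a)
    rw [ha, hb] at e1 e2
    rw [e1, e2]
    omega

omit [Fintype V] in
lemma PreSum_update_lt (v : ZMod k → V) {p : ℕ} (hp : p < k) (z : V) {i : ℕ} (hi : i < p) :
    Function.update v (p : ZMod k) z (i : ZMod k) = v (i : ZMod k) := by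
  apply Function.update_of_ne
  intro h
  rw [PreSum_cast_inj (by omega) hp] at h
  omega

omit [Fintype V] in
lemma PreSum_update_eq (v : ZMod k → V) (p : ℕ) (z : V) :
    Function.update v (p : ZMod k) z (p : ZMod k) = z := Function.update_self ..

lemma PreSum_base (hk : 5 ≤ k) (x : V → ℝ) (v : ZMod k → V) (hv : PathTo G k v (k - 1)) :
    ∑ v' ∈ (cyc G k).filter (fun v' => ∀ i : ℕ, i < k - 1 → v' (i : ZMod k) = v (i : ZMod k)),
      cw x v' = (∏ i ∈ range (k - 1), x (v (i : ZMod k))) * wt x (sB G (st G v (k - 1))) := by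
  have hk1 : k - 1 < k := by omega
  unfold wt
  rw [Finset.mul_sum]
  symm
  refine Finset.sum_nbij' (fun z => Function.update v ((k - 1 : ℕ) : ZMod k) z)
    (fun v' => v' ((k - 1 : ℕ) : ZMod k)) ?_ ?_ ?_ ?_ ?_
  · intro z hz
    rw [mem_sB_st v (by omega)] at hz
    obtain ⟨hz1, hz2, hz3⟩ := hz
    have e1 : ((k - 1 - 1 : ℕ)) = k - 2 := by omega
    rw [e1] at hz1
    rw [Finset.mem_filter]
    refine ⟨?_, fun i hi => PreSum_update_lt v hk1 z hi⟩
    unfold cyc
    rw [Finset.mem_filter]
    refine ⟨Finset.mem_univ _, ?_⟩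
    have key : ∀ i : ℕ, i < k - 1 → (G.Adj (v (i : ZMod k)) z ↔ (i = k - 2 ∨ i = 0)) := by
      intro i hi
      constructor
      · intro h
        by_contra hcon
        push Not at hcon
        exact hz3 i (by omega) (by omega) h
      · rintro (h | h)
        · rw [h]; exact hz1
        · rw [h]; simpa using hz2
    refine (PreSum_cyc_iff _).2 ?_
    intro i j hi hj
    by_cases hi' : i < k - 1
    · by_cases hj' : j < k - 1
      · rw [PreSum_update_lt v hk1 z hi', PreSum_update_lt v hk1 z hj', hv i j hi' hj']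
        omega
      · have : j = k - 1 := by omega
        subst this
        rw [PreSum_update_lt v hk1 z hi', PreSum_update_eq, key i hi']
        omega
    · have : i = k - 1 := by omega
      subst this
      by_cases hj' : j < k - 1
      · rw [PreSum_update_lt v hk1 z hj', PreSum_update_eq, G.adj_comm, key j hj']
        omega
      · have : j = k - 1 := by omega
        subst this
        have := G.loopless
        constructor
        · intro h
          exact absurd h (G.irrefl)
        · intro h
          omega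
  · intro v' hv'
    rw [Finset.mem_filter] at hv'
    have h1 := mem_sB_cyc hk hv'.1
    rwa [PreSum_st_congr (by omega) hv'.2] at h1
  · intro z _
    exact PreSum_update_eq v (k - 1) z
  · intro v' hv'
    rw [Finset.mem_filter] at hv'
    funext a
    have ha := ZMod.natCast_zmod_val a
    rw [← ha]
    by_cases h : a.val < k - 1
    · rw [PreSum_update_lt v hk1 _ h]
      exact (hv'.2 _ h).symm
    · have h2 : a.val = k - 1 := by have := ZMod.val_lt a; omega
      rw [h2, PreSum_update_eq]
  · intro z _
    unfold cw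
    rw [PreSum_prod_range (fun i => x (Function.update v ((k - 1 : ℕ) : ZMod k) z i))]
    have e : range k = range ((k - 1) + 1) := by congr 1; omega
    rw [e, Finset.prod_range_succ, PreSum_update_eq]
    congr 1
    apply Finset.prod_congr rfl
    intro i hi
    rw [PreSum_update_lt v hk1 z (Finset.mem_range.1 hi)]

lemma PreSum_path_update (v : ZMod k → V) {p : ℕ} (hp : 2 ≤ p) (hpk : p + 2 ≤ k)
    (hv : PathTo G k v p) {z : V} (hz : z ∈ sA G (st G v p)) :
    PathTo G k (Function.update v (p : ZMod k) z) (p + 1) := by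
  have hpk' : p < k := by omega
  rw [mem_sA_st v hp] at hz
  obtain ⟨hz1, hz2⟩ := hz
  have key : ∀ i : ℕ, i < p → (G.Adj (v (i : ZMod k)) z ↔ i = p - 1) := by
    intro i hi
    constructor
    · intro h
      by_contra hcon
      exact hz2 i (by omega) h
    · intro h
      rw [h]; exact hz1
  intro i j hi hj
  by_cases hi' : i < p
  · by_cases hj' : j < p
    · rw [PreSum_update_lt v hpk' z hi', PreSum_update_lt v hpk' z hj', hv i j hi' hj']
    · have : j = p := by omega
      subst this
      rw [PreSum_update_lt v hpk' z hi', PreSum_update_eq, key i hi']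
      omega
  · have : i = p := by omega
    subst this
    by_cases hj' : j < i
    · rw [PreSum_update_lt v hpk' z hj', PreSum_update_eq, G.adj_comm, key j hj']
      omega
    · have : j = i := by omega
      subst this
      constructor
      · intro h
        exact absurd h (G.irrefl)
      · intro h
        omega

theorem PreSum_aux (hk : 5 ≤ k) (x : V → ℝ) (m : ℕ) : ∀ (v : ZMod k → V) (p : ℕ), 2 ≤ p →
    p + m + 1 = k → PathTo G k v p →
    ∑ v' ∈ (cyc G k).filter (fun v' => ∀ i : ℕ, i < p → v' (i : ZMod k) = v (i : ZMod k)), cw x v' =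
      (∏ i ∈ range p, x (v (i : ZMod k))) * cnt G x (m + 1) (st G v p) := by
  induction m with
  | zero =>
    intro v p hp hpk hv
    have : p = k - 1 := by omega
    subst this
    exact PreSum_base hk x v hv
  | succ m ih =>
    intro v p hp hpk hv
    have hpk' : p < k := by omega
    have hmap : ∀ v' ∈ (cyc G k).filter (fun v' => ∀ i : ℕ, i < p → v' (i : ZMod k) = v (i : ZMod k)),
        v' (p : ZMod k) ∈ sA G (st G v p) := by
      intro v' hv'
      rw [Finset.mem_filter] at hv'
      have h1 := mem_sA_cyc hk hv'.1 hp (by omega)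
      rwa [PreSum_st_congr hp hv'.2] at h1
    rw [← Finset.sum_fiberwise_of_maps_to hmap]
    have hcnt : cnt G x (m + 1 + 1) (st G v p)
        = ∑ z ∈ sA G (st G v p), x z * cnt G x (m + 1) (step G (st G v p) z) := rfl
    rw [hcnt, Finset.mul_sum]
    apply Finset.sum_congr rfl
    intro z hz
    have hset : ((cyc G k).filter (fun v' => ∀ i : ℕ, i < p → v' (i : ZMod k) = v (i : ZMod k))).filter
        (fun v' => v' (p : ZMod k) = z) = (cyc G k).filter (fun v' => ∀ i : ℕ, i < p + 1 →
          v' (i : ZMod k) = Function.update v (p : ZMod k) z (i : ZMod k)) := by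
      ext v'
      simp only [Finset.mem_filter]
      constructor
      · rintro ⟨⟨h1, h2⟩, h3⟩
        refine ⟨h1, ?_⟩
        intro i hi
        by_cases hi' : i < p
        · rw [PreSum_update_lt v hpk' z hi', h2 i hi']
        · have : i = p := by omega
          subst this
          rw [PreSum_update_eq, h3]
      · rintro ⟨h1, h2⟩
        refine ⟨⟨h1, ?_⟩, ?_⟩
        · intro i hi
          rw [h2 i (by omega), PreSum_update_lt v hpk' z hi]
        · rw [h2 p (by omega), PreSum_update_eq]
    rw [hset, ih (Function.update v (p : ZMod k) z) (p + 1) (by omega) (by omega)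
      (PreSum_path_update v hp (by omega) hv hz)]
    rw [st_succ _ hp, PreSum_update_eq,
      PreSum_st_congr (v := v) hp (fun i hi => PreSum_update_lt v hpk' z hi)]
    rw [Finset.prod_range_succ, PreSum_update_eq]
    have : ∏ i ∈ range p, x (Function.update v (p : ZMod k) z (i : ZMod k))
        = ∏ i ∈ range p, x (v (i : ZMod k)) := by
      apply Finset.prod_congr rfl
      intro i hi
      rw [PreSum_update_lt v hpk' z (Finset.mem_range.1 hi)]
    rw [this]
    ring

theorem prefix_sum (hk : 5 ≤ k) (x : V → ℝ) (v : ZMod k → V) {p : ℕ} (hp : 2 ≤ p) (hpk : p + 1 ≤ k)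
    (hv : PathTo G k v p) :
    ∑ v' ∈ (cyc G k).filter (fun v' => ∀ i : ℕ, i < p → v' (i : ZMod k) = v (i : ZMod k)), cw x v' =
      (∏ i ∈ range p, x (v (i : ZMod k))) * cnt G x (k - p) (st G v p) := by
  obtain ⟨m, hm⟩ : ∃ m, p + m + 1 = k := ⟨k - p - 1, by omega⟩
  have : k - p = m + 1 := by omega
  rw [this]
  exact PreSum_aux hk x m v p hp hm hv

end Pool.Agent.Icy
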