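import Pool.Agent.Icy.WrDefs

/-!
# Bonferroni for the right transversals

For `u ∈ piFinset T` let `X u` = number of unordered wrong index pairs `{a, b}` (`Wr a b (u a) (u b)`).
`[X = 0] ≤ 1 - X + X (X-1)/2`.  With `t_j = wt (T j)`, `Pr = ∏ t_j`: `Σ_u w(u) X = ½ Σ_{a≠b} Σ_{wrong} x x'
Pr/(t_a t_b) ≥ ½ wrM Pr (1+η)^{-2}`; `Σ_u w(u) X(X-1)/2` = sum over the pairs of different index pairs:
disjoint: `≤ ½ (½ wrM)² Pr (1-η)^{-4}`; with a common index `a`: `≤ ½ Σ_u x_u wrv(u)² Pr (1-η)^{-3} ≤
½ η wrM Pr (1-η)^{-3}`.  In total `≤ Pr wrM 2η`.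
So `WR ≤ Pr (1 - ½ wrM (1 - 2η) + 2 η wrM) = Pr (1 - ½ wrM (1 - 6 η))`.
-/

set_option autoImplicit false

open Finset
open scoped Classical

namespace Pool.Agent.Icy

set_option linter.unusedSectionVars false

section pt

variable {α : Type} [Fintype α]

theorem RightB_sum1 (a : α) (f : α → ℝ) :
    ∑ c : α, ∑ d : α, (if c = a then f d else 0) = ∑ d, f d := by
  rw [Finset.sum_comm]
  refine Finset.sum_congr rfl (fun d _ => ?_)
  rw [Finset.sum_ite_eq']
  simp

theorem RightB_sum2 (a : α) (f : α → ℝ) :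
    ∑ c : α, ∑ d : α, (if d = a then f c else 0) = ∑ c, f c := by
  refine Finset.sum_congr rfl (fun d _ => ?_)
  rw [Finset.sum_ite_eq']
  simp

theorem RightB_sum3 (a b : α) (t : ℝ) :
    ∑ c : α, ∑ d : α, (if c = a ∧ d = b then t else 0) = t := by
  rw [Finset.sum_eq_single a]
  · rw [Finset.sum_eq_single b]
    · simp
    · intro d _ hd
      simp [hd]
    · simp
  · intro c _ hc
    simp [hc]
  · simp

theorem RightB_N2 (J : α → α → Prop) (hs : ∀ a b, J a b → J b a) (i : α → α → ℝ)
    (hi : ∀ a b, i a b = if J a b then 1 else 0) :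
    (∑ a, ∑ b, i a b) ^ 2 ≤
      (∑ a, ∑ b, ∑ c, ∑ d, if c ≠ a ∧ c ≠ b ∧ d ≠ a ∧ d ≠ b then i a b * i c d else 0) +
      4 * (∑ a, ∑ b, ∑ d, if d ≠ b then i a b * i a d else 0) + 2 * ∑ a, ∑ b, i a b := by
  have hsym : ∀ a b, i a b = i b a := by
    intro a b
    rw [hi, hi]
    by_cases h : J a b
    · rw [if_pos h, if_pos (hs _ _ h)]
    · rw [if_neg h, if_neg (fun h2 => h (hs _ _ h2))]
  have h0 : ∀ a b, 0 ≤ i a b := by
    intro a b; rw [hi]; split_ifs <;> norm_num
  have hsq : ∀ a b, i a b * i a b = i a b := by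
    intro a b; rw [hi]; split_ifs <;> norm_num
  have e1 : (∑ a, ∑ b, i a b) ^ 2 = ∑ a, ∑ b, ∑ c, ∑ d, i a b * i c d := by
    rw [sq, Finset.sum_mul]
    refine Finset.sum_congr rfl (fun a _ => ?_)
    rw [Finset.sum_mul]
    refine Finset.sum_congr rfl (fun b _ => ?_)
    rw [Finset.mul_sum]
    refine Finset.sum_congr rfl (fun c _ => ?_)
    rw [Finset.mul_sum]
  have e2 : ∀ a b, ∑ c, ∑ d, i a b * i c d ≤
      (∑ c, ∑ d, if c ≠ a ∧ c ≠ b ∧ d ≠ a ∧ d ≠ b then i a b * i c d else 0) +
      (∑ d, if d ≠ b then i a b * i a d else 0) + (∑ d, if d ≠ a then i b a * i b d else 0) +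
      (∑ d, if d ≠ b then i a b * i a d else 0) + (∑ d, if d ≠ a then i b a * i b d else 0) +
      i a b + i a b := by
    intro a b
    rw [← RightB_sum1 a (fun d => if d ≠ b then i a b * i a d else 0),
      ← RightB_sum1 b (fun d => if d ≠ a then i b a * i b d else 0)]
    have e3 : ∑ c, ∑ d, (if c = a then (if d ≠ b then i a b * i a d else 0) else 0) =
        ∑ c, ∑ d, (if d = a then (if c ≠ b then i a b * i a c else 0) else 0) := by
      rw [RightB_sum1 a (fun d => if d ≠ b then i a b * i a d else 0),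
        RightB_sum2 a (fun d => if d ≠ b then i a b * i a d else 0)]
    have e4 : ∑ c, ∑ d, (if c = b then (if d ≠ a then i b a * i b d else 0) else 0) =
        ∑ c, ∑ d, (if d = b then (if c ≠ a then i b a * i b c else 0) else 0) := by
      rw [RightB_sum1 b (fun d => if d ≠ a then i b a * i b d else 0),
        RightB_sum2 b (fun d => if d ≠ a then i b a * i b d else 0)]
    have e5 : i a b + i a b = ∑ c, ∑ d, (if c = a ∧ d = b then i a b else 0) +
        ∑ c, ∑ d, (if c = b ∧ d = a then i a b else 0) := by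
      rw [RightB_sum3, RightB_sum3]
    have e6 : ∑ c, ∑ d, i a b * i c d ≤
        ∑ c, ∑ d, ((if c ≠ a ∧ c ≠ b ∧ d ≠ a ∧ d ≠ b then i a b * i c d else 0) +
        (if c = a then (if d ≠ b then i a b * i a d else 0) else 0) +
        (if c = b then (if d ≠ a then i b a * i b d else 0) else 0) +
        (if d = a then (if c ≠ b then i a b * i a c else 0) else 0) +
        (if d = b then (if c ≠ a then i b a * i b c else 0) else 0) +
        (if c = a ∧ d = b then i a b else 0) + (if c = b ∧ d = a then i a b else 0)) := by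
      refine Finset.sum_le_sum (fun c _ => Finset.sum_le_sum (fun d _ => ?_))
      have n1 : 0 ≤ (if c ≠ a ∧ c ≠ b ∧ d ≠ a ∧ d ≠ b then i a b * i c d else 0) := by
        split_ifs
        · exact mul_nonneg (h0 _ _) (h0 _ _)
        · exact le_rfl
      have n2 : 0 ≤ (if c = a then (if d ≠ b then i a b * i a d else 0) else 0) := by
        split_ifs
        · exact mul_nonneg (h0 _ _) (h0 _ _)
        · exact le_rfl
        · exact le_rfl
      have n3 : 0 ≤ (if c = b then (if d ≠ a then i b a * i b d else 0) else 0) := by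
        split_ifs
        · exact mul_nonneg (h0 _ _) (h0 _ _)
        · exact le_rfl
        · exact le_rfl
      have n4 : 0 ≤ (if d = a then (if c ≠ b then i a b * i a c else 0) else 0) := by
        split_ifs
        · exact mul_nonneg (h0 _ _) (h0 _ _)
        · exact le_rfl
        · exact le_rfl
      have n5 : 0 ≤ (if d = b then (if c ≠ a then i b a * i b c else 0) else 0) := by
        split_ifs
        · exact mul_nonneg (h0 _ _) (h0 _ _)
        · exact le_rfl
        · exact le_rfl
      have n6 : 0 ≤ (if c = a ∧ d = b then i a b else 0) := by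
        split_ifs
        · exact h0 _ _
        · exact le_rfl
      have n7 : 0 ≤ (if c = b ∧ d = a then i a b else 0) := by
        split_ifs
        · exact h0 _ _
        · exact le_rfl
      by_cases c1 : c = a
      · by_cases d1 : d = b
        · have m : i a b * i c d ≤ (if c = a ∧ d = b then i a b else 0) := by
            rw [if_pos ⟨c1, d1⟩, c1, d1, hsq]
          linarith
        · have m : i a b * i c d ≤ (if c = a then (if d ≠ b then i a b * i a d else 0) else 0) := by
            rw [if_pos c1, if_pos d1, c1]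
          linarith
      · by_cases c2 : c = b
        · by_cases d1 : d = a
          · have m : i a b * i c d ≤ (if c = b ∧ d = a then i a b else 0) := by
              rw [if_pos ⟨c2, d1⟩, c2, d1, hsym b a, hsq]
            linarith
          · have m : i a b * i c d ≤
                (if c = b then (if d ≠ a then i b a * i b d else 0) else 0) := by
              rw [if_pos c2, if_pos d1, c2, hsym a b]
            linarith
        · by_cases d1 : d = a
          · have m : i a b * i c d ≤
                (if d = a then (if c ≠ b then i a b * i a c else 0) else 0) := by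
              rw [if_pos d1, if_pos c2, d1, hsym c a]
            linarith
          · by_cases d2 : d = b
            · have m : i a b * i c d ≤
                  (if d = b then (if c ≠ a then i b a * i b c else 0) else 0) := by
                rw [if_pos d2, if_pos c1, d2, hsym c b, hsym a b]
              linarith
            · have m : i a b * i c d ≤
                  (if c ≠ a ∧ c ≠ b ∧ d ≠ a ∧ d ≠ b then i a b * i c d else 0) := by
                rw [if_pos ⟨c1, c2, d1, d2⟩]
              linarith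
    simp only [Finset.sum_add_distrib] at e6
    linarith
  have e3 := Finset.sum_le_sum (s := univ) (fun a (_ : a ∈ (univ : Finset α)) =>
    Finset.sum_le_sum (s := univ) (fun b (_ : b ∈ (univ : Finset α)) => e2 a b))
  have e4 : ∑ a, ∑ b, (∑ d, if d ≠ a then i b a * i b d else 0) =
      ∑ a, ∑ b, (∑ d, if d ≠ b then i a b * i a d else 0) := Finset.sum_comm
  simp only [Finset.sum_add_distrib] at e3
  rw [e1]
  linarith

theorem RightB_even (J : α → α → Prop) (hs : ∀ a b, J a b → J b a) (hir : ∀ a, ¬ J a a)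
    (e : α → ℕ) (he : Function.Injective e) (i : α → α → ℝ)
    (hi : ∀ a b, i a b = if J a b then 1 else 0) : ∃ X : ℕ, ∑ a, ∑ b, i a b = 2 * X ∧
      (X = 0 → ∀ a b, ¬ J a b) ∧ ((∃ a b, J a b) → X ≠ 0) := by
  obtain ⟨P, hP⟩ : ∃ P : Finset (α × α), P = univ.filter (fun q => J q.1 q.2 ∧ e q.1 < e q.2) :=
    ⟨_, rfl⟩
  have h1 : ∑ a, ∑ b, (if J a b ∧ e a < e b then (1 : ℝ) else 0) = P.card := by
    rw [hP, ← Fintype.sum_prod_type' (f := fun a b => (if J a b ∧ e a < e b then (1 : ℝ) else 0)),
      ← Finset.sum_filter, Finset.sum_const]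
    simp
  have h2 : ∑ a, ∑ b, (if J a b ∧ e b < e a then (1 : ℝ) else 0) = P.card := by
    rw [← h1, Finset.sum_comm]
    refine Finset.sum_congr rfl (fun a _ => Finset.sum_congr rfl (fun b _ => ?_))
    by_cases h : J a b
    · have := hs _ _ h
      simp [h, this]
    · have : ¬ J b a := fun h2 => h (hs _ _ h2)
      simp [h, this]
  have h3 : ∑ a, ∑ b, i a b = 2 * P.card := by
    rw [two_mul]
    nth_rewrite 1 [← h1]
    rw [← h2, ← Finset.sum_add_distrib]
    refine Finset.sum_congr rfl (fun a _ => ?_)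
    rw [← Finset.sum_add_distrib]
    refine Finset.sum_congr rfl (fun b _ => ?_)
    rw [hi]
    by_cases h : J a b
    · have hab : a ≠ b := by rintro rfl; exact hir _ h
      rcases lt_or_gt_of_ne (fun h2 => hab (he h2)) with h4 | h4
      · have h5 : ¬ e b < e a := by omega
        simp [h, h4, h5]
      · have h5 : ¬ e a < e b := by omega
        simp [h, h4, h5]
    · simp [h]
  refine ⟨P.card, h3, ?_, ?_⟩
  · intro hX a b hab
    rw [Finset.card_eq_zero] at hX
    have hne : a ≠ b := by rintro rfl; exact hir _ hab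
    rcases lt_or_gt_of_ne (fun h2 => hne (he h2)) with h4 | h4
    · have : (a, b) ∈ P := by rw [hP]; simp [hab, h4]
      rw [hX] at this
      exact absurd this (Finset.notMem_empty _)
    · have : (b, a) ∈ P := by rw [hP]; simp [hs _ _ hab, h4]
      rw [hX] at this
      exact absurd this (Finset.notMem_empty _)
  · rintro ⟨a, b, hab⟩ hX
    rw [Finset.card_eq_zero] at hX
    have hne : a ≠ b := by rintro rfl; exact hir _ hab
    rcases lt_or_gt_of_ne (fun h2 => hne (he h2)) with h4 | h4
    · have : (a, b) ∈ P := by rw [hP]; simp [hab, h4]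
      rw [hX] at this
      exact absurd this (Finset.notMem_empty _)
    · have : (b, a) ∈ P := by rw [hP]; simp [hs _ _ hab, h4]
      rw [hX] at this
      exact absurd this (Finset.notMem_empty _)

theorem RightB_pt (J : α → α → Prop) (hs : ∀ a b, J a b → J b a) (hir : ∀ a, ¬ J a a)
    (e : α → ℕ) (he : Function.Injective e) (i : α → α → ℝ)
    (hi : ∀ a b, i a b = if J a b then 1 else 0) :
    (if ∃ a b, J a b then (0 : ℝ) else 1) ≤ 1 - (∑ a, ∑ b, i a b) / 2 +
      (∑ a, ∑ b, ∑ c, ∑ d, if c ≠ a ∧ c ≠ b ∧ d ≠ a ∧ d ≠ b then i a b * i c d else 0) / 8 +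
      (∑ a, ∑ b, ∑ d, if d ≠ b then i a b * i a d else 0) / 2 := by
  have h1 := RightB_N2 J hs i hi
  obtain ⟨X, hX, hX1, hX2⟩ := RightB_even J hs hir e he i hi
  rw [hX] at h1 ⊢
  have h2 : (if ∃ a b, J a b then (0 : ℝ) else 1) ≤ ((X : ℝ) - 1) * ((X : ℝ) - 2) / 2 := by
    by_cases h : ∃ a b, J a b
    · rw [if_pos h]
      have h3 := hX2 h
      rcases Nat.lt_or_ge X 2 with h4 | h4
      · have : X = 1 := by omega
        subst this
        norm_num
      · have h5 : (2 : ℝ) ≤ X := by exact_mod_cast h4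
        nlinarith
    · rw [if_neg h]
      have : X = 0 := by
        by_contra h3
        apply h3
        have h4 : ∑ a, ∑ b, i a b = 0 := by
          refine Finset.sum_eq_zero (fun a _ => Finset.sum_eq_zero (fun b _ => ?_))
          rw [hi, if_neg]
          intro h5
          exact h ⟨a, b, h5⟩
        rw [h4] at hX
        have h5 : (X : ℝ) = 0 := by linarith
        exact_mod_cast h5
      subst this
      norm_num
  nlinarith

end pt

variable {V : Type} [Fintype V] {G : SimpleGraph V} {k : ℕ} [NeZero k] {x : V → ℝ}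

/-- weighted sum over the transversals -/
noncomputable def RightB_L (x : V → ℝ) (T : ZMod k → Finset V) (H : (ZMod k → V) → ℝ) : ℝ :=
  ∑ u ∈ Fintype.piFinset T, (∏ j, x (u j)) * H u

theorem RightB_A (x : V → ℝ) (T : ZMod k → Finset V) (b : ZMod k) (H : (ZMod k → V) → ℝ) :
    wt x (T b) * RightB_L x T H =
      RightB_L x T (fun u => ∑ q ∈ T b, x q * H (Function.update u b q)) := by
  unfold RightB_L wt
  rw [Finset.mul_sum]
  simp_rw [Finset.mul_sum, Finset.sum_mul]
  rw [← Finset.sum_product', ← Finset.sum_product']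
  have hw : ∀ (u : ZMod k → V) (q : V), (∏ j, x (Function.update u b q j)) * x (u b) =
      (∏ j, x (u j)) * x q := by
    intro u q
    rw [← Finset.mul_prod_erase univ (fun j => x (Function.update u b q j)) (Finset.mem_univ b),
      ← Finset.mul_prod_erase univ (fun j => x (u j)) (Finset.mem_univ b)]
    have : ∏ j ∈ univ.erase b, x (Function.update u b q j) = ∏ j ∈ univ.erase b, x (u j) := by
      refine Finset.prod_congr rfl (fun j hj => ?_)
      rw [Function.update_of_ne (Finset.ne_of_mem_erase hj)]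
    rw [this]
    simp only [Function.update_self]
    ring
  refine Finset.sum_nbij' (fun q => (Function.update q.1 b q.2, q.1 b))
    (fun q => (Function.update q.1 b q.2, q.1 b)) ?_ ?_ ?_ ?_ ?_
  · rintro ⟨u, q⟩ h
    rw [Finset.mem_product, Fintype.mem_piFinset] at h ⊢
    refine ⟨fun j => ?_, h.1 b⟩
    by_cases hj : j = b
    · subst hj
      simp only [Function.update_self]
      exact h.2
    · simp only [Function.update_of_ne hj]
      exact h.1 j
  · rintro ⟨u, q⟩ h
    rw [Finset.mem_product, Fintype.mem_piFinset] at h ⊢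
    refine ⟨fun j => ?_, h.1 b⟩
    by_cases hj : j = b
    · subst hj
      simp only [Function.update_self]
      exact h.2
    · simp only [Function.update_of_ne hj]
      exact h.1 j
  · rintro ⟨u, q⟩ h
    simp
  · rintro ⟨u, q⟩ h
    simp
  · rintro ⟨u, q⟩ h
    have := hw u q
    simp only [Function.update_idem, Function.update_eq_self]
    calc x q * ((∏ j, x (u j)) * H u) = ((∏ j, x (u j)) * x q) * H u := by ring
      _ = ((∏ j, x (Function.update u b q j)) * x (u b)) * H u := by rw [this]
      _ = _ := by ring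

theorem RightB_const (x : V → ℝ) (T : ZMod k → Finset V) (c : ℝ) :
    RightB_L x T (fun _ => c) = c * ∏ j, wt x (T j) := by
  unfold RightB_L wt
  rw [Finset.prod_univ_sum, Finset.mul_sum]
  refine Finset.sum_congr rfl (fun u _ => ?_)
  ring

theorem RightB_mul (x : V → ℝ) (T : ZMod k → Finset V) (c : ℝ) (H : (ZMod k → V) → ℝ) :
    RightB_L x T (fun u => c * H u) = c * RightB_L x T H := by
  unfold RightB_L
  rw [Finset.mul_sum]
  refine Finset.sum_congr rfl (fun u _ => ?_)
  ring

theorem RightB_add (x : V → ℝ) (T : ZMod k → Finset V) (H H' : (ZMod k → V) → ℝ) :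
    RightB_L x T (fun u => H u + H' u) = RightB_L x T H + RightB_L x T H' := by
  unfold RightB_L
  rw [← Finset.sum_add_distrib]
  refine Finset.sum_congr rfl (fun u _ => ?_)
  ring

theorem RightB_sum {ι : Type} (S : Finset ι) (x : V → ℝ) (T : ZMod k → Finset V)
    (H : ι → (ZMod k → V) → ℝ) :
    RightB_L x T (fun u => ∑ i ∈ S, H i u) = ∑ i ∈ S, RightB_L x T (H i) := by
  unfold RightB_L
  rw [Finset.sum_comm]
  refine Finset.sum_congr rfl (fun u _ => ?_)
  rw [Finset.mul_sum]

theorem RightB_ite (p : Prop) [Decidable p] (x : V → ℝ) (T : ZMod k → Finset V)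
    (H : (ZMod k → V) → ℝ) :
    RightB_L x T (fun u => if p then H u else 0) = if p then RightB_L x T H else 0 := by
  by_cases h : p
  · simp [h]
  · simp [h, RightB_L]

theorem RightB_nonneg (hx : ∀ v, 0 ≤ x v) (T : ZMod k → Finset V)
    {H : (ZMod k → V) → ℝ} (hH : ∀ u, 0 ≤ H u) : 0 ≤ RightB_L x T H :=
  Finset.sum_nonneg (fun u _ => mul_nonneg (Finset.prod_nonneg (fun _ _ => hx _)) (hH u))

theorem RightB_mono (hx : ∀ v, 0 ≤ x v) (T : ZMod k → Finset V)
    {H H' : (ZMod k → V) → ℝ} (hH : ∀ u, H u ≤ H' u) : RightB_L x T H ≤ RightB_L x T H' :=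
  Finset.sum_le_sum (fun u _ => mul_le_mul_of_nonneg_left (hH u)
    (Finset.prod_nonneg (fun _ _ => hx _)))

theorem RightB_single (x : V → ℝ) (T : ZMod k → Finset V) (a : ZMod k) (f : V → ℝ) :
    wt x (T a) * RightB_L x T (fun u => f (u a)) =
      (∑ p ∈ T a, x p * f p) * ∏ j, wt x (T j) := by
  rw [RightB_A]
  simp only [Function.update_self]
  rw [RightB_const]

/-- indicator of a wrong pair -/
noncomputable def RightB_I (G : SimpleGraph V) (a b : ZMod k) (p q : V) : ℝ :=
  if a ≠ b ∧ Wr G a b p q then 1 else 0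

noncomputable def RightB_W (G : SimpleGraph V) (x : V → ℝ) (T : ZMod k → Finset V) (a b : ZMod k)
    (p : V) : ℝ := ∑ q ∈ T b, x q * RightB_I G a b p q

noncomputable def RightB_M (G : SimpleGraph V) (x : V → ℝ) (T : ZMod k → Finset V)
    (a b : ZMod k) : ℝ := ∑ p ∈ T a, x p * RightB_W G x T a b p

theorem RightB_I0 (a b : ZMod k) (p q : V) : 0 ≤ RightB_I G a b p q := by
  unfold RightB_I
  split_ifs <;> norm_num

theorem RightB_W0 (hx : ∀ v, 0 ≤ x v) (T : ZMod k → Finset V) (a b : ZMod k) (p : V) :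
    0 ≤ RightB_W G x T a b p :=
  Finset.sum_nonneg (fun q _ => mul_nonneg (hx q) (RightB_I0 _ _ _ _))

theorem RightB_M0 (hx : ∀ v, 0 ≤ x v) (T : ZMod k → Finset V) (a b : ZMod k) :
    0 ≤ RightB_M G x T a b :=
  Finset.sum_nonneg (fun q _ => mul_nonneg (hx q) (RightB_W0 hx _ _ _ _))

theorem RightB_L1 (x : V → ℝ) (T : ZMod k → Finset V) {a b : ZMod k} (hab : a ≠ b) :
    wt x (T a) * (wt x (T b) * RightB_L x T (fun u => RightB_I G a b (u a) (u b))) =
      RightB_M G x T a b * ∏ j, wt x (T j) := by
  rw [RightB_A x T b]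
  simp only [Function.update_self, Function.update_of_ne hab]
  exact RightB_single x T a (fun p => RightB_W G x T a b p)

theorem RightB_L2 (x : V → ℝ) (T : ZMod k → Finset V) {a b d : ZMod k} (hab : a ≠ b)
    (had : a ≠ d) (hbd : b ≠ d) :
    wt x (T a) * (wt x (T d) * (wt x (T b) * RightB_L x T
      (fun u => RightB_I G a b (u a) (u b) * RightB_I G a d (u a) (u d)))) =
      (∑ p ∈ T a, x p * (RightB_W G x T a b p * RightB_W G x T a d p)) * ∏ j, wt x (T j) := by
  rw [RightB_A x T b]
  simp only [Function.update_self, Function.update_of_ne hab, Function.update_of_ne hbd.symm]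
  have h1 : (fun u : ZMod k → V => ∑ q ∈ T b, x q * (RightB_I G a b (u a) q *
      RightB_I G a d (u a) (u d))) =
      fun u => RightB_W G x T a b (u a) * RightB_I G a d (u a) (u d) := by
    funext u
    unfold RightB_W
    rw [Finset.sum_mul]
    refine Finset.sum_congr rfl (fun q _ => ?_)
    ring
  rw [h1, RightB_A x T d]
  simp only [Function.update_self, Function.update_of_ne had]
  have h2 : (fun u : ZMod k → V => ∑ q ∈ T d, x q * (RightB_W G x T a b (u a) *
      RightB_I G a d (u a) q)) =
      fun u => RightB_W G x T a b (u a) * RightB_W G x T a d (u a) := by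
    funext u
    conv_rhs => rw [RightB_W.eq_def G x T a d]
    rw [Finset.mul_sum]
    refine Finset.sum_congr rfl (fun q _ => ?_)
    ring
  rw [h2]
  exact RightB_single x T a (fun p => RightB_W G x T a b p * RightB_W G x T a d p)

theorem RightB_L3 (x : V → ℝ) (T : ZMod k → Finset V) {a b c d : ZMod k} (hab : a ≠ b)
    (hcd : c ≠ d) (hca : c ≠ a) (hcb : c ≠ b) (hda : d ≠ a) (hdb : d ≠ b) :
    wt x (T c) * (wt x (T a) * (wt x (T d) * (wt x (T b) * RightB_L x T
      (fun u => RightB_I G a b (u a) (u b) * RightB_I G c d (u c) (u d))))) =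
      RightB_M G x T a b * RightB_M G x T c d * ∏ j, wt x (T j) := by
  rw [RightB_A x T b]
  simp only [Function.update_self, Function.update_of_ne hab, Function.update_of_ne hcb,
    Function.update_of_ne hdb]
  have h1 : (fun u : ZMod k → V => ∑ q ∈ T b, x q * (RightB_I G a b (u a) q *
      RightB_I G c d (u c) (u d))) =
      fun u => RightB_W G x T a b (u a) * RightB_I G c d (u c) (u d) := by
    funext u
    unfold RightB_W
    rw [Finset.sum_mul]
    refine Finset.sum_congr rfl (fun q _ => ?_)
    ring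
  rw [h1, RightB_A x T d]
  simp only [Function.update_self, Function.update_of_ne hcd, Function.update_of_ne hda.symm]
  have h2 : (fun u : ZMod k → V => ∑ q ∈ T d, x q * (RightB_W G x T a b (u a) *
      RightB_I G c d (u c) q)) =
      fun u => RightB_W G x T a b (u a) * RightB_W G x T c d (u c) := by
    funext u
    conv_rhs => rw [RightB_W.eq_def G x T c d]
    rw [Finset.mul_sum]
    refine Finset.sum_congr rfl (fun q _ => ?_)
    ring
  rw [h2, RightB_A x T a]
  simp only [Function.update_self, Function.update_of_ne hca]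
  have h3 : (fun u : ZMod k → V => ∑ p ∈ T a, x p * (RightB_W G x T a b p *
      RightB_W G x T c d (u c))) =
      fun u => RightB_M G x T a b * RightB_W G x T c d (u c) := by
    funext u
    unfold RightB_M
    rw [Finset.sum_mul]
    refine Finset.sum_congr rfl (fun q _ => ?_)
    ring
  rw [h3, RightB_mul]
  have h4 := RightB_single x T c (fun p => RightB_W G x T c d p)
  have h5 : RightB_M G x T c d = ∑ p ∈ T c, x p * RightB_W G x T c d p := rfl
  rw [h5]
  calc wt x (T c) * (RightB_M G x T a b * RightB_L x T (fun u => RightB_W G x T c d (u c))) =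
      RightB_M G x T a b * (wt x (T c) * RightB_L x T (fun u => RightB_W G x T c d (u c))) := by
        ring
    _ = _ := by rw [h4]; ring

theorem RightB_wrv (T : ZMod k → Finset V) (a : ZMod k) (p : V) :
    ∑ b, RightB_W G x T a b p = wrv G x T a p := by
  unfold wrv
  rw [Finset.sum_filter]
  refine Finset.sum_congr rfl (fun b _ => ?_)
  unfold RightB_W RightB_I wt
  by_cases h : b = a
  · subst h
    simp
  · rw [if_pos h, Finset.sum_filter]
    refine Finset.sum_congr rfl (fun q _ => ?_)
    have h' : a ≠ b := fun h2 => h h2.symm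
    by_cases h2 : Wr G a b p q
    · rw [if_pos ⟨h', h2⟩, if_pos h2, mul_one]
    · rw [if_neg (fun h3 => h2 h3.2), if_neg h2, mul_zero]

theorem RightB_wrM (T : ZMod k → Finset V) :
    ∑ a, ∑ b, RightB_M G x T a b = wrM G x T := by
  unfold wrM RightB_M
  refine Finset.sum_congr rfl (fun a _ => ?_)
  rw [Finset.sum_comm]
  refine Finset.sum_congr rfl (fun p _ => ?_)
  rw [← RightB_wrv, Finset.mul_sum]

theorem rightB (hk : 7 ≤ k) (hx : ∀ v, 0 ≤ x v) {T : ZMod k → Finset V} {η : ℝ} (hη0 : 0 ≤ η)
    (hη : η ≤ 1 / 100) (hS : S92 G x T η) :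
    WR G x T ≤ (∏ j, wt x (T j)) * (1 - wrM G x T / 2 * (1 - 6 * η)) := by
  obtain ⟨Pr, hPr⟩ : ∃ Pr, Pr = ∏ j, wt x (T j) := ⟨_, rfl⟩
  have ht1 : ∀ j, 1 - η ≤ wt x (T j) := fun j => by have := (abs_le.1 (hS.size j)).1; linarith
  have ht2 : ∀ j, wt x (T j) ≤ 1 + η := fun j => by have := (abs_le.1 (hS.size j)).2; linarith
  have ht0 : ∀ j, 0 ≤ wt x (T j) := fun j => by have := ht1 j; linarith
  have hPr0 : 0 ≤ Pr := by rw [hPr]; exact Finset.prod_nonneg (fun j _ => ht0 j)
  have hW0 := fun a b p => RightB_W0 (G := G) hx T a b p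
  have hM0 := fun a b => RightB_M0 (G := G) hx T a b
  have hwM0 : 0 ≤ wrM G x T := by
    rw [← RightB_wrM]
    exact Finset.sum_nonneg (fun a _ => Finset.sum_nonneg (fun b _ => hM0 a b))
  -- the pointwise inequality
  have h1 : WR G x T ≤ RightB_L x T (fun u => 1 + (-1 / 2) * (∑ a, ∑ b, RightB_I G a b (u a) (u b)) +
      (1 / 8) * (∑ a, ∑ b, ∑ c, ∑ d, if c ≠ a ∧ c ≠ b ∧ d ≠ a ∧ d ≠ b then
        RightB_I G a b (u a) (u b) * RightB_I G c d (u c) (u d) else 0) +
      (1 / 2) * (∑ a, ∑ b, ∑ d, if d ≠ b then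
        RightB_I G a b (u a) (u b) * RightB_I G a d (u a) (u d) else 0)) := by
    unfold WR RightB_L
    rw [Finset.sum_filter]
    refine Finset.sum_le_sum (fun u _ => ?_)
    have h2 := RightB_pt (fun a b => a ≠ b ∧ Wr G a b (u a) (u b))
      (fun a b h => ⟨h.1.symm, Wr_symm.1 h.2⟩) (fun a h => h.1 rfl) ZMod.val
      (ZMod.val_injective k) (fun a b => RightB_I G a b (u a) (u b)) (fun a b => by
        by_cases h : a ≠ b ∧ Wr G a b (u a) (u b)
        · rw [if_pos h]; exact if_pos h
        · rw [if_neg h]; exact if_neg h)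
    have h3 : 0 ≤ ∏ j, x (u j) := Finset.prod_nonneg (fun j _ => hx _)
    have h4 := mul_le_mul_of_nonneg_left h2 h3
    refine le_trans ?_ (le_trans h4 (le_of_eq ?_))
    · by_cases h5 : ∃ a b : ZMod k, a ≠ b ∧ Wr G a b (u a) (u b)
      · rw [if_neg (not_not.2 h5), if_pos h5, mul_zero]
      · rw [if_pos h5, if_neg h5, mul_one]
    · congr 1
      ring_nf
  obtain ⟨A, hA⟩ : ∃ A, A = ∑ a, ∑ b, RightB_L x T (fun u => RightB_I G a b (u a) (u b)) :=
    ⟨_, rfl⟩
  obtain ⟨D, hD⟩ : ∃ D, D = ∑ a, ∑ b, ∑ c, ∑ d, if c ≠ a ∧ c ≠ b ∧ d ≠ a ∧ d ≠ b then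
    RightB_L x T (fun u => RightB_I G a b (u a) (u b) * RightB_I G c d (u c) (u d)) else 0 :=
    ⟨_, rfl⟩
  obtain ⟨S, hS'⟩ : ∃ S, S = ∑ a, ∑ b, ∑ d, if d ≠ b then
    RightB_L x T (fun u => RightB_I G a b (u a) (u b) * RightB_I G a d (u a) (u d)) else 0 :=
    ⟨_, rfl⟩
  have h2 : RightB_L x T (fun u => 1 + (-1 / 2) * (∑ a, ∑ b, RightB_I G a b (u a) (u b)) +
      (1 / 8) * (∑ a, ∑ b, ∑ c, ∑ d, if c ≠ a ∧ c ≠ b ∧ d ≠ a ∧ d ≠ b then
        RightB_I G a b (u a) (u b) * RightB_I G c d (u c) (u d) else 0) +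
      (1 / 2) * (∑ a, ∑ b, ∑ d, if d ≠ b then
        RightB_I G a b (u a) (u b) * RightB_I G a d (u a) (u d) else 0)) =
      Pr + (-1 / 2) * A + (1 / 8) * D + (1 / 2) * S := by
    rw [RightB_add, RightB_add, RightB_add, RightB_const, RightB_mul, RightB_mul, RightB_mul,
      one_mul, ← hPr, hA, hD, hS']
    simp only [RightB_sum, RightB_ite]
  rw [h2] at h1
  -- the first order term
  have hI0 : ∀ a b, 0 ≤ RightB_L x T (fun u => RightB_I G a b (u a) (u b)) := fun a b =>
    RightB_nonneg hx T (fun u => RightB_I0 _ _ _ _)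
  have h3 : wrM G x T * Pr ≤ (1 + η) ^ 2 * A := by
    rw [hA, ← RightB_wrM, Finset.sum_mul, Finset.mul_sum]
    refine Finset.sum_le_sum (fun a _ => ?_)
    rw [Finset.sum_mul, Finset.mul_sum]
    refine Finset.sum_le_sum (fun b _ => ?_)
    by_cases hab : a = b
    · subst hab
      have : RightB_M G x T a a = 0 := by
        unfold RightB_M RightB_W RightB_I
        simp
      rw [this, zero_mul]
      exact mul_nonneg (by positivity) (hI0 _ _)
    · rw [hPr, ← RightB_L1 x T hab]
      have e1 := mul_le_mul_of_nonneg_right (ht2 b) (hI0 a b)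
      have e2 : wt x (T a) * (wt x (T b) * RightB_L x T (fun u => RightB_I G a b (u a) (u b))) ≤
          (1 + η) * ((1 + η) * RightB_L x T (fun u => RightB_I G a b (u a) (u b))) :=
        mul_le_mul (ht2 a) e1 (mul_nonneg (ht0 b) (hI0 _ _)) (by linarith)
      refine le_trans e2 (le_of_eq (by ring))
  have h4 : (1 - η) ^ 3 * S ≤ η * (wrM G x T * Pr) := by
    have e0 : ∀ a b d, 0 ≤ RightB_L x T
        (fun u => RightB_I G a b (u a) (u b) * RightB_I G a d (u a) (u d)) := fun a b d =>
      RightB_nonneg hx T (fun u => mul_nonneg (RightB_I0 _ _ _ _) (RightB_I0 _ _ _ _))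
    have e1 : ∀ a b d, (1 - η) ^ 3 * (if d ≠ b then RightB_L x T
        (fun u => RightB_I G a b (u a) (u b) * RightB_I G a d (u a) (u d)) else 0) ≤
        (∑ p ∈ T a, x p * (RightB_W G x T a b p * RightB_W G x T a d p)) * Pr := by
      intro a b d
      have n0 : 0 ≤ (∑ p ∈ T a, x p * (RightB_W G x T a b p * RightB_W G x T a d p)) * Pr :=
        mul_nonneg (Finset.sum_nonneg (fun p _ => mul_nonneg (hx p)
          (mul_nonneg (hW0 _ _ _) (hW0 _ _ _)))) hPr0
      by_cases hdb : d = b
      · rw [if_neg (not_not.2 hdb), mul_zero]; exact n0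
      · rw [if_pos hdb]
        by_cases hab : a = b
        · have : (fun u : ZMod k → V => RightB_I G a b (u a) (u b) *
              RightB_I G a d (u a) (u d)) = fun _ => 0 := by
            funext u
            unfold RightB_I
            rw [if_neg (fun h => h.1 hab), zero_mul]
          rw [this, RightB_const, zero_mul, mul_zero]; exact n0
        · by_cases had : a = d
          · have : (fun u : ZMod k → V => RightB_I G a b (u a) (u b) *
                RightB_I G a d (u a) (u d)) = fun _ => 0 := by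
              funext u
              unfold RightB_I
              rw [if_neg (c := a ≠ d ∧ _) (fun h => h.1 had), mul_zero]
            rw [this, RightB_const, zero_mul, mul_zero]; exact n0
          · rw [hPr, ← RightB_L2 x T hab had (fun h => hdb h.symm)]
            have hη1 : 0 ≤ 1 - η := by linarith
            have f1 := mul_le_mul_of_nonneg_right (ht1 b) (e0 a b d)
            have f2 := mul_le_mul (ht1 d) f1 (mul_nonneg hη1 (e0 a b d)) (ht0 d)
            have f3 := mul_le_mul (ht1 a) f2 (mul_nonneg hη1 (mul_nonneg hη1 (e0 a b d))) (ht0 a)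
            refine le_trans (le_of_eq (by ring)) f3
    rw [hS', Finset.mul_sum]
    have e2 : ∀ a, (1 - η) ^ 3 * (∑ b, ∑ d, if d ≠ b then RightB_L x T
        (fun u => RightB_I G a b (u a) (u b) * RightB_I G a d (u a) (u d)) else 0) ≤
        η * ((∑ b, RightB_M G x T a b) * Pr) := by
      intro a
      have f1 : (1 - η) ^ 3 * (∑ b, ∑ d, if d ≠ b then RightB_L x T
          (fun u => RightB_I G a b (u a) (u b) * RightB_I G a d (u a) (u d)) else 0) ≤
          ∑ b, ∑ d, (∑ p ∈ T a, x p * (RightB_W G x T a b p * RightB_W G x T a d p)) * Pr := by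
        rw [Finset.mul_sum]
        refine Finset.sum_le_sum (fun b _ => ?_)
        rw [Finset.mul_sum]
        exact Finset.sum_le_sum (fun d _ => e1 a b d)
      refine le_trans f1 ?_
      have f2 : ∑ b, ∑ d, (∑ p ∈ T a, x p * (RightB_W G x T a b p * RightB_W G x T a d p)) * Pr =
          (∑ p ∈ T a, x p * (wrv G x T a p * wrv G x T a p)) * Pr := by
        simp_rw [← Finset.sum_mul]
        congr 1
        have g1 : ∀ b, ∑ d, ∑ p ∈ T a, x p * (RightB_W G x T a b p * RightB_W G x T a d p) =
            ∑ p ∈ T a, x p * (RightB_W G x T a b p * wrv G x T a p) := by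
          intro b
          rw [Finset.sum_comm]
          refine Finset.sum_congr rfl (fun p _ => ?_)
          rw [← RightB_wrv, Finset.mul_sum, Finset.mul_sum]
        simp_rw [g1]
        rw [Finset.sum_comm]
        refine Finset.sum_congr rfl (fun p _ => ?_)
        rw [← Finset.mul_sum, ← Finset.sum_mul, RightB_wrv]
      rw [f2]
      have f3 : ∑ p ∈ T a, x p * (wrv G x T a p * wrv G x T a p) ≤
          η * ∑ b, RightB_M G x T a b := by
        unfold RightB_M
        rw [Finset.sum_comm, Finset.mul_sum]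
        refine Finset.sum_le_sum (fun p hp => ?_)
        rw [← Finset.mul_sum, RightB_wrv]
        have g2 := hS.dev a p hp
        have g3 : 0 ≤ wrv G x T a p := by
          rw [← RightB_wrv]
          exact Finset.sum_nonneg (fun b _ => hW0 _ _ _)
        have g4 := mul_le_mul_of_nonneg_right g2 g3
        have g5 := mul_le_mul_of_nonneg_left g4 (hx p)
        linarith
      have f4 := mul_le_mul_of_nonneg_right f3 hPr0
      linarith
    refine le_trans (Finset.sum_le_sum (fun a _ => e2 a)) (le_of_eq ?_)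
    rw [← Finset.mul_sum, ← Finset.sum_mul, RightB_wrM]
  have h5 : (1 - η) ^ 4 * D ≤ wrM G x T * wrM G x T * Pr := by
    have e0 : ∀ a b c d, 0 ≤ RightB_L x T
        (fun u => RightB_I G a b (u a) (u b) * RightB_I G c d (u c) (u d)) := fun a b c d =>
      RightB_nonneg hx T (fun u => mul_nonneg (RightB_I0 _ _ _ _) (RightB_I0 _ _ _ _))
    have e1 : ∀ a b c d, (1 - η) ^ 4 * (if c ≠ a ∧ c ≠ b ∧ d ≠ a ∧ d ≠ b then RightB_L x T
        (fun u => RightB_I G a b (u a) (u b) * RightB_I G c d (u c) (u d)) else 0) ≤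
        RightB_M G x T a b * RightB_M G x T c d * Pr := by
      intro a b c d
      have n0 : 0 ≤ RightB_M G x T a b * RightB_M G x T c d * Pr :=
        mul_nonneg (mul_nonneg (hM0 _ _) (hM0 _ _)) hPr0
      by_cases hd : c ≠ a ∧ c ≠ b ∧ d ≠ a ∧ d ≠ b
      · rw [if_pos hd]
        by_cases hab : a = b
        · have : (fun u : ZMod k → V => RightB_I G a b (u a) (u b) *
              RightB_I G c d (u c) (u d)) = fun _ => 0 := by
            funext u
            unfold RightB_I
            rw [if_neg (fun h => h.1 hab), zero_mul]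
          rw [this, RightB_const, zero_mul, mul_zero]; exact n0
        · by_cases hcd : c = d
          · have : (fun u : ZMod k → V => RightB_I G a b (u a) (u b) *
                RightB_I G c d (u c) (u d)) = fun _ => 0 := by
              funext u
              unfold RightB_I
              rw [if_neg (c := c ≠ d ∧ _) (fun h => h.1 hcd), mul_zero]
            rw [this, RightB_const, zero_mul, mul_zero]; exact n0
          · rw [hPr, ← RightB_L3 x T hab hcd hd.1 hd.2.1 hd.2.2.1 hd.2.2.2]
            have hη1 : 0 ≤ 1 - η := by linarith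
            have f1 := mul_le_mul_of_nonneg_right (ht1 b) (e0 a b c d)
            have f2 := mul_le_mul (ht1 d) f1 (mul_nonneg hη1 (e0 a b c d)) (ht0 d)
            have f3 := mul_le_mul (ht1 a) f2 (mul_nonneg hη1 (mul_nonneg hη1 (e0 a b c d)))
              (ht0 a)
            have f4 := mul_le_mul (ht1 c) f3 (mul_nonneg hη1 (mul_nonneg hη1
              (mul_nonneg hη1 (e0 a b c d)))) (ht0 c)
            refine le_trans (le_of_eq (by ring)) f4
      · rw [if_neg hd, mul_zero]; exact n0
    rw [hD, Finset.mul_sum]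
    have e2 : ∀ a, (1 - η) ^ 4 * (∑ b, ∑ c, ∑ d, if c ≠ a ∧ c ≠ b ∧ d ≠ a ∧ d ≠ b then
        RightB_L x T (fun u => RightB_I G a b (u a) (u b) * RightB_I G c d (u c) (u d)) else 0) ≤
        (∑ b, RightB_M G x T a b) * wrM G x T * Pr := by
      intro a
      rw [Finset.mul_sum, Finset.sum_mul, Finset.sum_mul]
      refine Finset.sum_le_sum (fun b _ => ?_)
      rw [Finset.mul_sum, ← RightB_wrM, Finset.mul_sum, Finset.sum_mul]
      refine Finset.sum_le_sum (fun c _ => ?_)
      rw [Finset.mul_sum, Finset.mul_sum, Finset.sum_mul]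
      exact Finset.sum_le_sum (fun d _ => e1 a b c d)
    refine le_trans (Finset.sum_le_sum (fun a _ => e2 a)) (le_of_eq ?_)
    rw [← Finset.sum_mul, ← Finset.sum_mul, RightB_wrM]
  -- conclusion
  have hS0 : 0 ≤ S := by
    rw [hS']
    refine Finset.sum_nonneg (fun a _ => Finset.sum_nonneg (fun b _ => Finset.sum_nonneg
      (fun d _ => ?_)))
    split_ifs
    · exact RightB_nonneg hx T (fun u => mul_nonneg (RightB_I0 _ _ _ _) (RightB_I0 _ _ _ _))
    · exact le_rfl
  have hD0 : 0 ≤ D := by
    rw [hD]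
    refine Finset.sum_nonneg (fun a _ => Finset.sum_nonneg (fun b _ => Finset.sum_nonneg
      (fun c _ => Finset.sum_nonneg (fun d _ => ?_))))
    split_ifs
    · exact RightB_nonneg hx T (fun u => mul_nonneg (RightB_I0 _ _ _ _) (RightB_I0 _ _ _ _))
    · exact le_rfl
  obtain ⟨y, hy⟩ : ∃ y, y = wrM G x T * Pr := ⟨_, rfl⟩
  have hy0 : 0 ≤ y := by rw [hy]; exact mul_nonneg hwM0 hPr0
  have h6 : wrM G x T * wrM G x T * Pr ≤ η * y := by
    rw [hy, mul_assoc]
    exact mul_le_mul_of_nonneg_right hS.wrong (mul_nonneg hwM0 hPr0)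
  rw [← hy] at h3 h4
  have h7 : y * (1 - 2 * η) ≤ A := by
    have e1 : (1 + η) ^ 2 * (y * (1 - 2 * η)) ≤ (1 + η) ^ 2 * A := by
      refine le_trans ?_ h3
      have : (1 + η) ^ 2 * (1 - 2 * η) ≤ 1 := by nlinarith [mul_nonneg hη0 hη0, mul_nonneg hη0 (mul_nonneg hη0 hη0)]
      have := mul_le_mul_of_nonneg_left this hy0
      linarith
    exact le_of_mul_le_mul_left e1 (by positivity)
  have h99 : (99 : ℝ) / 100 ≤ 1 - η := by linarith
  have h8 : (1 / 2) * S ≤ 52 / 100 * (η * y) := by
    have e1 : (97 : ℝ) / 100 ≤ (1 - η) ^ 3 := by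
      have := pow_le_pow_left₀ (by norm_num) h99 3
      norm_num at this ⊢
      linarith
    have e2 := mul_le_mul_of_nonneg_right e1 hS0
    linarith
  have h9 : (1 / 8) * D ≤ 14 / 100 * (η * y) := by
    have e1 : (96 : ℝ) / 100 ≤ (1 - η) ^ 4 := by
      have := pow_le_pow_left₀ (by norm_num) h99 4
      norm_num at this ⊢
      linarith
    have e2 := mul_le_mul_of_nonneg_right e1 hD0
    linarith
  have h10 : (∏ j, wt x (T j)) * (1 - wrM G x T / 2 * (1 - 6 * η)) =
      Pr - y / 2 + 3 * (η * y) := by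
    rw [← hPr, hy]; ring
  rw [h10]
  have h11 : 0 ≤ η * y := mul_nonneg hη0 hy0
  linarith

end Pool.Agent.Icy
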