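import Pool.Agent.Icy.W91Defs
import Pool.Agent.Icy.ClBasic

/-!
# Wrong pairs of a cycle (deterministic)

Wrong pairs `u ∈ Cl v i`, `u' ∈ Cl v j`, both positions in the middle (`8 ≤ i < j ≤ k - 11`; otherwise counted
in `qW`, twice as the pairs are ordered): if `j ≥ i + 2` and `u ~ u'`: `u' ∈ sN (step (st v i) u)`, `u' ≁ v i`;
if `j = i+1` and `u ≁ u'`: `u' ∈ sN (step (st v i) (v i))`, `u' ≁ u`: both counted in `q1 i`, `u ∈ sA (st v i)`
by `cl_sA`.
-/

set_option autoImplicit false

open Finset
open scoped Classical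

namespace Pool.Agent.Icy

variable {V : Type} [Fintype V] {G : SimpleGraph V} {k : ℕ} [NeZero k] {x : V → ℝ}

private theorem S91wr_sum (f : ZMod k → ℝ) : ∑ i, f i = ∑ i ∈ range k, f ((i : ℕ) : ZMod k) := by
  symm
  refine sum_nbij' (fun i => ((i : ℕ) : ZMod k)) (fun i => ZMod.val i) ?_ ?_ ?_ ?_ ?_
  · intro i _; exact mem_univ _
  · intro i _; rw [mem_range]; exact ZMod.val_lt i
  · intro i hi; rw [mem_range] at hi; exact ZMod.val_cast_of_lt hi
  · intro i _; exact ZMod.natCast_zmod_val i
  · intro i _; rfl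

private noncomputable def S91W (G : SimpleGraph V) (x : V → ℝ) (v : ZMod k → V) (i j : ZMod k) : ℝ :=
  ∑ u ∈ Cl G v i, x u * wt x ((Cl G v j).filter (fun u' => Wr G i j u u'))

private theorem S91W_symm (v : ZMod k → V) (i j : ZMod k) : S91W G x v i j = S91W G x v j i := by
  unfold S91W wt
  simp only [mul_sum, sum_filter]
  rw [sum_comm]
  refine sum_congr rfl (fun u _ => sum_congr rfl (fun u' _ => ?_))
  by_cases h : Wr G i j u' u
  · rw [if_pos h, if_pos (Wr_symm.1 h), mul_comm]
  · rw [if_neg h, if_neg (fun h' => h (Wr_symm.1 h'))]; simp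

private theorem S91wt_nonneg (hx : ∀ v, 0 ≤ x v) (A : Finset V) : 0 ≤ wt x A :=
  sum_nonneg (fun i _ => hx i)

private theorem S91W_nonneg (hx : ∀ v, 0 ≤ x v) (v : ZMod k → V) (i j : ZMod k) :
    0 ≤ S91W G x v i j :=
  sum_nonneg (fun u _ => mul_nonneg (hx u) (S91wt_nonneg hx _))

private theorem S91q1_nonneg (hx : ∀ v, 0 ≤ x v) (c : ℕ) (v : ZMod k → V) : 0 ≤ q1 G x c v :=
  sum_nonneg (fun u _ => mul_nonneg (hx u)
    (add_nonneg (S91wt_nonneg hx _) (S91wt_nonneg hx _)))

private noncomputable def S91F (G : SimpleGraph V) (x : V → ℝ) (v : ZMod k → V) (i j : ℕ) : ℝ :=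
  if i = j then 0 else S91W G x v (i : ZMod k) (j : ZMod k)

private theorem S91F_nonneg (hx : ∀ v, 0 ≤ x v) (v : ZMod k → V) (i j : ℕ) :
    0 ≤ S91F G x v i j := by
  unfold S91F
  split_ifs
  · exact le_refl _
  · exact S91W_nonneg hx v _ _

private theorem S91F_symm (v : ZMod k → V) (i j : ℕ) : S91F G x v i j = S91F G x v j i := by
  unfold S91F
  by_cases h : i = j
  · rw [if_pos h, if_pos h.symm]
  · rw [if_neg h, if_neg (fun h' => h h'.symm), S91W_symm]

private theorem S91cast {i j : ℕ} (hi : i < k) (hj : j < k) :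
    ((i : ℕ) : ZMod k) = ((j : ℕ) : ZMod k) ↔ i = j := by
  constructor
  · intro h
    have := congrArg ZMod.val h
    rwa [ZMod.val_cast_of_lt hi, ZMod.val_cast_of_lt hj] at this
  · intro h; rw [h]

private theorem S91row (v : ZMod k → V) {i : ℕ} (hi : i < k) :
    ∑ u ∈ Cl G v (i : ZMod k), x u * wrv G x (Cl G v) (i : ZMod k) u =
      ∑ j ∈ range k, S91F G x v i j := by
  unfold wrv
  simp only [mul_sum]
  rw [sum_comm]
  rw [sum_filter, S91wr_sum]
  refine sum_congr rfl (fun j hj => ?_)
  rw [mem_range] at hj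
  unfold S91F S91W
  by_cases h : i = j
  · rw [if_pos h, if_neg]
    simp [h]
  · rw [if_neg h, if_pos]
    intro hc
    exact h ((S91cast hi hj).1 hc.symm)

private theorem S91adj (hk : 100 ≤ k) (v : ZMod k → V) {j m : ℕ} (hj : j < k) (hm : m < k)
    (hmj : m ≠ j) (h1 : m + 1 ≠ j) (h2 : j + 1 ≠ m) (h3 : m + 1 < k) (h4 : j + 1 < k) {w : V}
    (hw : w ∈ Cl G v (j : ZMod k)) : ¬ G.Adj (v (m : ZMod k)) w := by
  simp only [Cl, mem_filter, mem_univ, true_and] at hw
  have hne : ((m : ℕ) : ZMod k) ≠ ((j : ℕ) : ZMod k) := fun h => hmj ((S91cast hm hj).1 h)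
  rw [hw _ hne]
  rintro (h | h)
  · have : ((j : ℕ) : ZMod k) = ((m + 1 : ℕ) : ZMod k) := by rw [h]; push_cast; rfl
    exact h1 ((S91cast hj h3).1 this).symm
  · have : ((m : ℕ) : ZMod k) = ((j + 1 : ℕ) : ZMod k) := by rw [h]; push_cast; rfl
    exact h2 ((S91cast hm h4).1 this).symm

private theorem S91mid (hk : 100 ≤ k) (hx : ∀ v, 0 ≤ x v) {v : ZMod k → V} (hv : v ∈ cyc G k)
    {i : ℕ} (hi8 : 8 ≤ i) (hik : i + 10 < k) :
    ∑ j ∈ (range k).filter (fun j => i < j ∧ j + 10 < k), S91F G x v i j ≤ q1 G x i v := by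
  have hrow : ∑ j ∈ (range k).filter (fun j => i < j ∧ j + 10 < k), S91F G x v i j =
      ∑ u ∈ Cl G v (i : ZMod k), x u * ∑ j ∈ (range k).filter (fun j => i < j ∧ j + 10 < k),
        wt x ((Cl G v (j : ZMod k)).filter (fun u' => Wr G (i : ZMod k) (j : ZMod k) u u')) := by
    simp only [mul_sum]
    rw [sum_comm]
    refine sum_congr rfl (fun j hj => ?_)
    rw [mem_filter] at hj
    unfold S91F
    rw [if_neg (by omega)]
    rfl
  rw [hrow]
  have hsub := cl_sA (G := G) (k := k) (by omega) v (p := i) (by omega) (by omega)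
  unfold q1
  refine le_trans ?_ (sum_le_sum_of_subset_of_nonneg hsub.1
    (fun u _ _ => mul_nonneg (hx u) (add_nonneg (S91wt_nonneg hx _) (S91wt_nonneg hx _))))
  refine sum_le_sum (fun u hu => mul_le_mul_of_nonneg_left ?_ (hx u))
  -- split j = i + 1 and j ≥ i + 2
  set J : Finset ℕ := (range k).filter (fun j => i < j ∧ j + 10 < k) with hJ
  have hJs : J ⊆ insert (i + 1) (J.filter (fun j => i + 2 ≤ j)) := by
    intro j hj
    rw [mem_insert, mem_filter]
    have : i < j ∧ j + 10 < k := by rw [hJ, mem_filter] at hj; exact hj.2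
    by_cases h : j = i + 1
    · left; exact h
    · right; exact ⟨hj, by omega⟩
  have hnn : ∀ j : ℕ, 0 ≤ wt x ((Cl G v (j : ZMod k)).filter
      (fun u' => Wr G (i : ZMod k) (j : ZMod k) u u')) := fun j => S91wt_nonneg hx _
  refine le_trans (sum_le_sum_of_subset_of_nonneg hJs (fun j _ _ => hnn j)) ?_
  rw [sum_insert (by rw [mem_filter]; omega), add_comm]
  refine add_le_add ?_ ?_
  · -- j ≥ i + 2
    have hdisj : ∀ j ∈ J.filter (fun j => i + 2 ≤ j), ∀ j' ∈ J.filter (fun j => i + 2 ≤ j),
        j ≠ j' → Disjoint ((Cl G v (j : ZMod k)).filter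
          (fun u' => Wr G (i : ZMod k) (j : ZMod k) u u'))
          ((Cl G v (j' : ZMod k)).filter
          (fun u' => Wr G (i : ZMod k) (j' : ZMod k) u u')) := by
      intro j hj j' hj' hne
      have h1 : j < k := by
        rw [mem_filter, hJ, mem_filter, mem_range] at hj; exact hj.1.1
      have h2 : j' < k := by
        rw [mem_filter, hJ, mem_filter, mem_range] at hj'; exact hj'.1.1
      exact disjoint_filter_filter (cl_disj (by omega) v (fun h => hne ((S91cast h1 h2).1 h)))
    have : ∑ j ∈ J.filter (fun j => i + 2 ≤ j), wt x ((Cl G v (j : ZMod k)).filter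
        (fun u' => Wr G (i : ZMod k) (j : ZMod k) u u')) =
        wt x ((J.filter (fun j => i + 2 ≤ j)).biUnion (fun j => (Cl G v (j : ZMod k)).filter
        (fun u' => Wr G (i : ZMod k) (j : ZMod k) u u'))) := by
      unfold wt
      rw [sum_biUnion]
      intro j hj j' hj' hne
      exact hdisj j hj j' hj' hne
    rw [this]
    refine sum_le_sum_of_subset_of_nonneg ?_ (fun w _ _ => hx w)
    intro w hw
    rw [mem_biUnion] at hw
    obtain ⟨j, hj, hw⟩ := hw
    rw [mem_filter] at hw
    obtain ⟨hwj, hwr⟩ := hw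
    rw [mem_filter, hJ, mem_filter, mem_range] at hj
    obtain ⟨⟨hjk, -, hjk'⟩, hij⟩ := hj
    have hadj : G.Adj u w := by
      unfold Wr at hwr
      by_contra hcon
      apply hwr
      constructor
      · intro h; exact absurd h hcon
      · rintro (h | h)
        · exfalso
          have : ((j : ℕ) : ZMod k) = ((i + 1 : ℕ) : ZMod k) := by rw [h]; push_cast; rfl
          have := (S91cast hjk (by omega)).1 this
          omega
        · exfalso
          have : ((i : ℕ) : ZMod k) = ((j + 1 : ℕ) : ZMod k) := by rw [h]; push_cast; rfl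
          have := (S91cast (by omega) (by omega)).1 this
          omega
    refine mem_filter.2 ⟨mem_filter.2 ⟨?_, hadj⟩, ?_⟩
    · refine (mem_up_st v (by omega) w).2 ?_
      intro m hm1 hmi
      exact S91adj hk v hjk (by omega) (by omega) (by omega) (by omega) (by omega) (by omega) hwj
    · exact S91adj hk v hjk (by omega) (by omega) (by omega) (by omega) (by omega) (by omega) hwj
  · -- j = i + 1
    refine sum_le_sum_of_subset_of_nonneg ?_ (fun w _ _ => hx w)
    intro w hw
    rw [mem_filter] at hw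
    obtain ⟨hwj, hwr⟩ := hw
    have hnadj : ¬ G.Adj u w := by
      intro hcon
      apply hwr
      constructor
      · intro _; left; push_cast; rfl
      · intro _; exact hcon
    have hvi : G.Adj (v (i : ZMod k)) w := by
      have := (cl_adj (G := G) (k := k) (by omega) v hwj).2
      have e : (((i + 1 : ℕ) : ZMod k)) - 1 = (i : ZMod k) := by push_cast; ring
      rw [e] at this
      exact this
    refine mem_filter.2 ⟨mem_filter.2 ⟨?_, hvi⟩, hnadj⟩
    refine (mem_up_st v (by omega) w).2 ?_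
    intro m hm1 hmi
    exact S91adj hk v (j := i + 1) (by omega) (by omega) (by omega) (by omega) (by omega) (by omega)
      (by omega) hwj

theorem s91wr (hk : 100 ≤ k) (hx : ∀ v, 0 ≤ x v) {v : ZMod k → V} (hv : v ∈ cyc G k) :
    wrM G x (Cl G v) ≤ 2 * ∑ c ∈ Icc 5 (k - 6), q1 G x c v + 2 * qW G x v := by
  have hM : wrM G x (Cl G v) = ∑ i ∈ range k, ∑ j ∈ range k, S91F G x v i j := by
    unfold wrM
    rw [S91wr_sum]
    refine sum_congr rfl (fun i hi => ?_)
    rw [mem_range] at hi
    exact S91row v hi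
  have hF := S91F_nonneg (G := G) (k := k) hx v
  -- pointwise bound
  set P : ℕ → Prop := fun i => i < 8 ∨ k ≤ i + 10 with hP
  have hpt : ∀ i j : ℕ, S91F G x v i j ≤ (if P i then S91F G x v i j else 0) +
      (if P j then S91F G x v i j else 0) +
      (if ¬ P i ∧ ¬ P j ∧ i < j then S91F G x v i j else 0) +
      (if ¬ P i ∧ ¬ P j ∧ j < i then S91F G x v i j else 0) := by
    intro i j
    have h0 := hF i j
    by_cases h1 : P i
    · rw [if_pos h1]
      have a1 : 0 ≤ (if P j then S91F G x v i j else 0) := by split_ifs <;> simp [h0]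
      have a2 : 0 ≤ (if ¬ P i ∧ ¬ P j ∧ i < j then S91F G x v i j else 0) := by
        split_ifs <;> simp [h0]
      have a3 : 0 ≤ (if ¬ P i ∧ ¬ P j ∧ j < i then S91F G x v i j else 0) := by
        split_ifs <;> simp [h0]
      linarith
    · by_cases h2 : P j
      · rw [if_neg h1, if_pos h2]
        have a2 : 0 ≤ (if ¬ P i ∧ ¬ P j ∧ i < j then S91F G x v i j else 0) := by
          split_ifs <;> simp [h0]
        have a3 : 0 ≤ (if ¬ P i ∧ ¬ P j ∧ j < i then S91F G x v i j else 0) := by
          split_ifs <;> simp [h0]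
        linarith
      · rcases lt_trichotomy i j with h | h | h
        · rw [if_neg h1, if_neg h2, if_pos ⟨h1, h2, h⟩, if_neg (by omega)]
          simp
        · subst h
          have : S91F G x v i i = 0 := by unfold S91F; simp
          rw [this]; simp
        · rw [if_neg h1, if_neg h2, if_neg (by omega), if_pos ⟨h1, h2, h⟩]
          simp
  have hsum : ∑ i ∈ range k, ∑ j ∈ range k, S91F G x v i j ≤
      ∑ i ∈ range k, ∑ j ∈ range k, (if P i then S91F G x v i j else 0) +
      ∑ i ∈ range k, ∑ j ∈ range k, (if P j then S91F G x v i j else 0) +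
      ∑ i ∈ range k, ∑ j ∈ range k, (if ¬ P i ∧ ¬ P j ∧ i < j then S91F G x v i j else 0) +
      ∑ i ∈ range k, ∑ j ∈ range k, (if ¬ P i ∧ ¬ P j ∧ j < i then S91F G x v i j else 0) := by
    rw [← sum_add_distrib, ← sum_add_distrib, ← sum_add_distrib]
    refine sum_le_sum (fun i _ => ?_)
    rw [← sum_add_distrib, ← sum_add_distrib, ← sum_add_distrib]
    exact sum_le_sum (fun j _ => hpt i j)
  have hA : ∑ i ∈ range k, ∑ j ∈ range k, (if P i then S91F G x v i j else 0) ≤ qW G x v := by
    have e : ∑ i ∈ range k, ∑ j ∈ range k, (if P i then S91F G x v i j else 0) =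
        ∑ i ∈ Wd k, ∑ u ∈ Cl G v (i : ZMod k), x u * wrv G x (Cl G v) (i : ZMod k) u := by
      unfold Wd
      rw [sum_filter]
      refine sum_congr rfl (fun i hi => ?_)
      rw [mem_range] at hi
      rw [S91row v hi]
      by_cases h : P i
      · rw [if_pos h]
        refine sum_congr rfl (fun j _ => ?_)
        rw [if_pos h]
      · rw [if_neg h]
        refine sum_eq_zero (fun j _ => ?_)
        rw [if_neg h]
    rw [e]
    unfold qW
    refine sum_le_sum (fun j _ => ?_)
    have b1 : 0 ≤ wt x ((NC G v).filter (fun w => G.Adj (v (j : ZMod k)) w)) := S91wt_nonneg hx _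
    have b2 : 0 ≤ |wt x (Cl G v (j : ZMod k)) - 1| := abs_nonneg _
    linarith
  have hA' : ∑ i ∈ range k, ∑ j ∈ range k, (if P j then S91F G x v i j else 0) ≤ qW G x v := by
    rw [sum_comm]
    refine le_trans (le_of_eq ?_) hA
    refine sum_congr rfl (fun i _ => sum_congr rfl (fun j _ => ?_))
    rw [S91F_symm]
  have hC : ∑ i ∈ range k, ∑ j ∈ range k, (if ¬ P i ∧ ¬ P j ∧ i < j then S91F G x v i j else 0) ≤
      ∑ c ∈ Icc 5 (k - 6), q1 G x c v := by
    have e : ∑ i ∈ range k, ∑ j ∈ range k,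
        (if ¬ P i ∧ ¬ P j ∧ i < j then S91F G x v i j else 0) ≤
        ∑ i ∈ (range k).filter (fun i => ¬ P i), q1 G x i v := by
      rw [sum_filter]
      refine sum_le_sum (fun i hi => ?_)
      rw [mem_range] at hi
      by_cases h : P i
      · rw [if_neg (not_not.2 h)]
        refine le_of_eq (sum_eq_zero (fun j _ => ?_))
        rw [if_neg (fun h' => h'.1 h)]
      · rw [if_pos h]
        have hi8 : 8 ≤ i := by
          by_contra hc; exact h (Or.inl (by omega))
        have hik : i + 10 < k := by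
          by_contra hc; exact h (Or.inr (by omega))
        refine le_trans (le_of_eq ?_) (S91mid hk hx hv hi8 hik)
        rw [sum_filter]
        refine sum_congr rfl (fun j _ => ?_)
        by_cases h2 : i < j ∧ j + 10 < k
        · rw [if_pos h2, if_pos]
          refine ⟨h, ?_, h2.1⟩
          rintro (h3 | h3) <;> omega
        · rw [if_neg h2, if_neg]
          rintro ⟨-, h3, h4⟩
          apply h2
          refine ⟨h4, ?_⟩
          by_contra hc
          exact h3 (Or.inr (by omega))
    refine le_trans e (sum_le_sum_of_subset_of_nonneg ?_ (fun c _ _ => S91q1_nonneg hx c v))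
    intro i hi
    rw [mem_filter, mem_range] at hi
    rw [mem_Icc]
    have hi8 : 8 ≤ i := by
      by_contra hc; exact hi.2 (Or.inl (by omega))
    have hik : i + 10 < k := by
      by_contra hc; exact hi.2 (Or.inr (by omega))
    omega
  have hC' : ∑ i ∈ range k, ∑ j ∈ range k, (if ¬ P i ∧ ¬ P j ∧ j < i then S91F G x v i j else 0) ≤
      ∑ c ∈ Icc 5 (k - 6), q1 G x c v := by
    rw [sum_comm]
    refine le_trans (le_of_eq ?_) hC
    refine sum_congr rfl (fun i _ => sum_congr rfl (fun j _ => ?_))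
    rw [S91F_symm]
    by_cases h : ¬ P i ∧ ¬ P j ∧ i < j
    · rw [if_pos h, if_pos ⟨h.2.1, h.1, h.2.2⟩]
    · rw [if_neg h, if_neg (fun h' => h ⟨h'.2.1, h'.1, h'.2.2⟩)]
  rw [hM]
  linarith

end Pool.Agent.Icy
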