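import Pool.Agent.Icy.S91nc
import Pool.Agent.Icy.S91wr

/-!
# The structure from one good cycle (deterministic)

`s91nc`: `wt NC ≤ 2 η`.  Sizes: `j ∈ Wd`: in `qW`; `j` in the middle: `Cl v j ⊆ sA (st v j)` with non-clones as
the rest (`cl_sA`), and `|wt (sA (st v j)) - 1| ≤ 4 √η` (`sA_l1`).  `s91wr`: `wrM ≤ 2 η`.  All summands of `hq`
are `≥ 0`.
-/

set_option autoImplicit false

open Finset
open scoped Classical

namespace Pool.Agent.Icy

variable {V : Type} [Fintype V] {G : SimpleGraph V} {k : ℕ} [NeZero k] {x : V → ℝ}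

private theorem S91fin_wt_nonneg (hx : ∀ v, 0 ≤ x v) (S : Finset V) : 0 ≤ wt x S :=
  sum_nonneg fun v _ => hx v

private theorem S91fin_wt_mono (hx : ∀ v, 0 ≤ x v) {S T : Finset V} (h : S ⊆ T) :
    wt x S ≤ wt x T :=
  sum_le_sum_of_subset_of_nonneg h fun v _ _ => hx v

theorem s91 (hk : 100 ≤ k) (h : Opt G k x) {v : ZMod k → V} (hv : v ∈ cyc G k) {θ η : ℝ}
    (hθ : θ ≤ 1 / 10 ^ 8) (hη : η ≤ 1 / 100) (hun : unst G x θ (k - 2) v)
    (hq : (∑ c ∈ Icc 5 (k - 6), q1 G x c v) + q2 G x v + (∑ c ∈ Icc 5 (k - 2), l1 G x (st G v c)) +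
      mm G x 2 (st G v (k - 2)) + qW G x v ≤ η) :
    S91 G x (Cl G v) (8 * Real.sqrt η) := by
  have hx : ∀ v, 0 ≤ x v := fun v => (h.pos v).le
  have hk7 : 7 ≤ k := by omega
  have hwt : ∀ S : Finset V, 0 ≤ wt x S := S91fin_wt_nonneg hx
  have hwrv : ∀ T i u, 0 ≤ wrv G x T (i : ZMod k) u := fun T i u => sum_nonneg fun j _ => hwt _
  have hq1 : ∀ c, 0 ≤ q1 G x c v := fun c => sum_nonneg fun w _ =>
    mul_nonneg (hx w) (add_nonneg (hwt _) (hwt _))
  have hq1s : 0 ≤ ∑ c ∈ Icc 5 (k - 6), q1 G x c v := sum_nonneg fun c _ => hq1 c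
  have hq2 : 0 ≤ q2 G x v := by
    apply sum_nonneg
    intro c _
    apply sum_nonneg
    intro w _
    apply mul_nonneg (hx w)
    apply add_nonneg
    · split_ifs <;> norm_num
    · apply sum_nonneg
      intro c' _
      split_ifs <;> norm_num
  have hl1s : 0 ≤ ∑ c ∈ Icc 5 (k - 2), l1 G x (st G v c) := sum_nonneg fun c _ => l1_nonneg hx _
  have hmm : 0 ≤ mm G x 2 (st G v (k - 2)) := mm_nonneg hx (by norm_num) _
  have ht1 : ∀ j : ℕ, 0 ≤ wt x ((NC G v).filter (fun w => G.Adj (v (j : ZMod k)) w)) :=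
    fun j => hwt _
  have ht3 : ∀ j : ℕ, 0 ≤ ∑ u ∈ Cl G v (j : ZMod k), x u * wrv G x (Cl G v) (j : ZMod k) u :=
    fun j => sum_nonneg fun u _ => mul_nonneg (hx u) (hwrv _ _ _)
  have hterm : ∀ j ∈ Wd k, 0 ≤ (wt x ((NC G v).filter (fun w => G.Adj (v (j : ZMod k)) w)) +
    |wt x (Cl G v (j : ZMod k)) - 1| +
    ∑ u ∈ Cl G v (j : ZMod k), x u * wrv G x (Cl G v) (j : ZMod k) u) := by
    intro j _
    have := ht1 j
    have := ht3 j
    have := abs_nonneg (wt x (Cl G v (j : ZMod k)) - 1)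
    linarith
  have hqW : 0 ≤ qW G x v := sum_nonneg hterm
  have hη0 : 0 ≤ η := by linarith
  have hsq : 0 ≤ Real.sqrt η := Real.sqrt_nonneg _
  have hsq2 : Real.sqrt η * Real.sqrt η = η := Real.mul_self_sqrt hη0
  have hsq1 : Real.sqrt η ≤ 1 / 10 := by
    rw [Real.sqrt_le_left (by norm_num)]
    linarith
  have hηs : η ≤ Real.sqrt η / 10 := by nlinarith
  have hnc := s91nc hk h hv hθ hun
  have hNC : wt x (NC G v) ≤ 2 * η := by linarith
  refine ⟨fun i j hij => cl_disj hk7 v hij, ?_, ?_, ?_⟩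
  · have : (univ.filter (fun w => ∀ j, w ∉ Cl G v j)) = NC G v := by
      ext w
      simp only [NC, mem_filter, mem_univ, true_and]
    rw [this]
    linarith
  · intro j
    obtain ⟨p, hp, rfl⟩ : ∃ p : ℕ, p < k ∧ (p : ZMod k) = j :=
      ⟨j.val, ZMod.val_lt j, ZMod.natCast_zmod_val j⟩
    by_cases hW : p ∈ Wd k
    · have h1 : (wt x ((NC G v).filter (fun w => G.Adj (v (p : ZMod k)) w)) +
          |wt x (Cl G v (p : ZMod k)) - 1| +
          ∑ u ∈ Cl G v (p : ZMod k), x u * wrv G x (Cl G v) (p : ZMod k) u) ≤ qW G x v :=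
        single_le_sum (f := fun j : ℕ =>
          (wt x ((NC G v).filter (fun w => G.Adj (v (j : ZMod k)) w)) +
          |wt x (Cl G v (j : ZMod k)) - 1| +
          ∑ u ∈ Cl G v (j : ZMod k), x u * wrv G x (Cl G v) (j : ZMod k) u)) hterm hW
      have := ht1 p
      have := ht3 p
      linarith
    · have hp2 : 8 ≤ p ∧ p + 10 < k := by
        simp only [Wd, mem_filter, mem_range, not_and, not_or, not_lt, not_le] at hW
        exact hW hp
      obtain ⟨hs1, hs2⟩ := cl_sA (G := G) hk7 v (p := p) (by omega) (by omega)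
      have hl : l1 G x (st G v p) ≤ η := by
        have : l1 G x (st G v p) ≤ ∑ c ∈ Icc 5 (k - 2), l1 G x (st G v c) :=
          single_le_sum (f := fun c => l1 G x (st G v c)) (fun c _ => l1_nonneg hx _)
            (mem_Icc.2 ⟨by omega, by omega⟩)
        linarith
      have hA := sA_l1 hx hl (by linarith)
      rw [abs_le] at hA ⊢
      have hu : wt x (Cl G v (p : ZMod k)) ≤ wt x (sA G (st G v p)) := S91fin_wt_mono hx hs1
      have hl2 : wt x (sA G (st G v p)) ≤ wt x (Cl G v (p : ZMod k)) + wt x (NC G v) := by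
        calc wt x (sA G (st G v p)) ≤ wt x (Cl G v (p : ZMod k) ∪ NC G v) :=
              S91fin_wt_mono hx (by
                intro w hw
                by_cases hc : w ∈ Cl G v (p : ZMod k)
                · exact mem_union_left _ hc
                · exact mem_union_right _ (hs2 w hw hc))
          _ ≤ _ := by
            unfold wt
            rw [← sum_union_inter]
            have : 0 ≤ ∑ v ∈ Cl G v (p : ZMod k) ∩ NC G v, x v := sum_nonneg fun v _ => hx v
            linarith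
      constructor <;> linarith [hA.1, hA.2]
  · have := s91wr hk hx hv
    linarith

end Pool.Agent.Icy
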