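import Pool.Agent.Icy.Drift
import Pool.Agent.Icy.Mass
import Pool.Agent.Icy.Markov
import Pool.Agent.Icy.CycBasic

/-!
# From the growth process to the random cycle

`rho_eq`: `cnt = (1 - mm) exp (wt U - r)` and `wt U = a + b + wt up`.
`transfer`: `Φ_c = EE [start ∧ unst c] SS (k-c) (st v c) / (1 - mm (k-c) (st v c))`.  By `rho_eq`,
`lk z / (1 - mm s) = x z rho z [mm (s_z) < θ] / (1 - mm (s_z))`, so `markov` gives
`Φ_c ≥ EE [start ∧ unst c] f + Φ_{c+1}` (`c ≤ k-3`), `Φ_{k-2} ≥ EE [..] f`, and `Φ_5 ≤ 2 EE [start] SS`.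
`stop`: first `c` with defect `≥ θ` at `c+1`: `rho ≤ ex/(1-θ) ≤ 6`, so the probability is
`≤ 6 EE Σ_c [..] Hz 0 ≤ 12 EE [start] SS (Hz 0) ≤ 36 ε/θ`.
-/

set_option autoImplicit false

open Finset
open scoped Classical

namespace Pool.Agent.Icy

variable {V : Type} [Fintype V] {G : SimpleGraph V} {k : ℕ} [NeZero k] {x : V → ℝ}

/-- the defects of the prefixes of length `5, …, c` are `< θ` -/
def unst (G : SimpleGraph V) {k : ℕ} [NeZero k] (x : V → ℝ) (θ : ℝ) (c : ℕ) (v : ZMod k → V) :
    Prop :=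
  ∀ c' : ℕ, 5 ≤ c' → c' ≤ c → mm G x (k - c') (st G v c') < θ

/-- good start -/
def strt (G : SimpleGraph V) {k : ℕ} [NeZero k] (x : V → ℝ) (ε : ℝ) (v : ZMod k → V) : Prop :=
  mm G x (k - 5) (st G v 5) ≤ ε

theorem rho_eq (hx : ∀ v, 0 < x v) {p : ℕ} (hp : 2 ≤ p) (hpk : p + 2 ≤ k) (v : ZMod k → V) (z : V) :
    rho G k x p v z = ex G x (st G v p) * (1 - mm G x (k - p - 1) (step G (st G v p) z)) /
      (1 - mm G x (k - p) (st G v p)) := by
  obtain ⟨r, hr⟩ : ∃ r, k - p = r + 1 := ⟨k - p - 1, by omega⟩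
  have h1 : r + 1 - 1 = r := by omega
  unfold rho
  rw [hr, h1]
  unfold mm ex
  have hU : (step G (st G v p) z).U = up G (st G v p) := rfl
  rw [hU]
  have hw := wt_split (G := G) (x := x) (st G v p)
  have e1 : Real.exp (1 - wt x (sA G (st G v p)) - wt x (sB G (st G v p))) *
      (1 - (1 - cnt G x r (step G (st G v p) z) * Real.exp ((r : ℝ) - wt x (up G (st G v p))))) =
      cnt G x r (step G (st G v p) z) * Real.exp (((r + 1 : ℕ) : ℝ) - wt x (st G v p).U) := by
    have : Real.exp (((r + 1 : ℕ) : ℝ) - wt x (st G v p).U) =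
        Real.exp (1 - wt x (sA G (st G v p)) - wt x (sB G (st G v p))) *
          Real.exp ((r : ℝ) - wt x (up G (st G v p))) := by
      rw [← Real.exp_add, hw]
      congr 1
      push_cast
      ring
    rw [this]
    ring
  rw [e1, sub_sub_cancel, mul_div_mul_right _ _ (Real.exp_ne_zero _)]

theorem mm_lt_one_cyc (hk : 7 ≤ k) (hx : ∀ v, 0 < x v) {v : ZMod k → V} (hv : v ∈ cyc G k) {p : ℕ}
    (hp : 2 ≤ p) (hpk : p + 1 ≤ k) : mm G x (k - p) (st G v p) < 1 := by
  have h := cnt_pos_cyc (G := G) (x := x) (by omega : 5 ≤ k) hx hv hp hpk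
  unfold mm
  have := mul_pos h (Real.exp_pos (((k - p : ℕ) : ℝ) - wt x (st G v p).U))
  linarith

/-- density at most 6 at states with small defect -/
theorem rho_le (hk : 7 ≤ k) (hx : ∀ v, 0 < x v) {p : ℕ} (hp : 2 ≤ p) (hpk : p + 2 ≤ k)
    (v : ZMod k → V) (z : V) (hm : mm G x (k - p) (st G v p) < 1 / 2) :
    rho G k x p v z ≤ 6 := by
  have hx0 : ∀ v, 0 ≤ x v := fun v => (hx v).le
  rw [rho_eq hx hp hpk, div_le_iff₀ (by linarith)]
  have h1 : ex G x (st G v p) ≤ 3 := (ex_le hx0 _).1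
  have h2 : 0 ≤ mm G x (k - p - 1) (step G (st G v p) z) := mm_nonneg hx0 (by omega) _
  have h3 : mm G x (k - p - 1) (step G (st G v p) z) ≤ 1 := mm_le_one hx0 _ _
  have h4 : 0 ≤ ex G x (st G v p) := (Real.exp_pos _).le
  nlinarith

theorem Transfer_unst_succ {θ : ℝ} {c : ℕ} (hc : 5 ≤ c) (v : ZMod k → V) :
    unst G x θ (c + 1) v ↔ unst G x θ c v ∧
      mm G x (k - c - 1) (step G (st G v c) (v (c : ZMod k))) < θ := by
  rw [← st_succ v (by omega : 2 ≤ c), Nat.sub_sub]
  constructor
  · intro h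
    exact ⟨fun c' h1 h2 => h c' h1 (by omega), h (c + 1) (by omega) le_rfl⟩
  · rintro ⟨h1, h2⟩ c' h3 h4
    rcases Nat.lt_or_ge c c' with h5 | h5
    · have : c' = c + 1 := by omega
      rw [this]
      exact h2
    · exact h1 c' h3 h5

theorem Transfer_dep {c : ℕ} (hc : 5 ≤ c) {θ ε : ℝ} {v v' : ZMod k → V}
    (h : ∀ i : ℕ, i < c → v (i : ZMod k) = v' (i : ZMod k)) :
    (strt G x ε v ↔ strt G x ε v') ∧ (unst G x θ c v ↔ unst G x θ c v') ∧
      st G v c = st G v' c := by
  have h5 : st G v 5 = st G v' 5 := dep_st (G := G) (k := k) (p := 5) (q := c) (by omega) hc v v' h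
  refine ⟨?_, ?_, dep_st (G := G) (k := k) (p := c) (q := c) (by omega) le_rfl v v' h⟩
  · unfold strt
    rw [h5]
  · unfold unst
    constructor
    · intro h1 c' h2 h3
      have := dep_st (G := G) (k := k) (p := c') (q := c) (by omega) h3 v v' h
      simp only at this
      rw [← this]
      exact h1 c' h2 h3
    · intro h1 c' h2 h3
      have := dep_st (G := G) (k := k) (p := c') (q := c) (by omega) h3 v v' h
      simp only at this
      rw [this]
      exact h1 c' h2 h3

/-- Markov property at `c`, for functions of the state -/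
theorem Transfer_markov (hk : 10 ≤ k) (hx : ∀ v, 0 ≤ x v) {θ ε : ℝ} {c : ℕ} (hc : 5 ≤ c)
    (hck : c + 2 ≤ k) (H : St V → V → ℝ) :
    EE G k x (fun v => if strt G x ε v ∧ unst G x θ c v then H (st G v c) (v (c : ZMod k)) else 0) =
      EE G k x (fun v => if strt G x ε v ∧ unst G x θ c v then
        ∑ z ∈ sA G (st G v c), x z * rho G k x c v z * H (st G v c) z else 0) := by
  have h := markov (G := G) (k := k) (x := x) (by omega) hx (p := c) (by omega) hck
    (fun v z => if strt G x ε v ∧ unst G x θ c v then H (st G v c) z else 0) (by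
      intro z v v' hvv
      obtain ⟨h1, h2, h3⟩ := Transfer_dep (G := G) (x := x) (θ := θ) (ε := ε) hc hvv
      simp only
      rw [h3]
      simp only [h1, h2])
  rw [h]
  apply EE_congr
  intro v hv
  by_cases hh : strt G x ε v ∧ unst G x θ c v
  · simp only [if_pos hh]
  · simp only [if_neg hh, mul_zero, sum_const_zero]

/-- the potential -/
noncomputable def Transfer_Ph (G : SimpleGraph V) (k : ℕ) [NeZero k] (x : V → ℝ) (θ ε : ℝ)
    (f : ℕ → St V → ℝ) (c : ℕ) : ℝ :=
  EE G k x (fun v => if strt G x ε v ∧ unst G x θ c v then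
    SS G x θ f (k - c) (st G v c) / (1 - mm G x (k - c) (st G v c)) else 0)

theorem Transfer_step (hk : 10 ≤ k) (hx : ∀ v, 0 < x v) {θ ε : ℝ} (hε : 0 ≤ ε) (hεθ : ε < θ)
    (hθ : θ ≤ 1 / 2) (f : ℕ → St V → ℝ) (hf : ∀ r s, 0 ≤ f r s) {c : ℕ} (hc : 5 ≤ c)
    (hck : c + 3 ≤ k) :
    EE G k x (fun v => if strt G x ε v ∧ unst G x θ c v then f (k - c) (st G v c) else 0) +
      Transfer_Ph G k x θ ε f (c + 1) ≤ Transfer_Ph G k x θ ε f c := by
  have hx0 : ∀ v, 0 ≤ x v := fun v => (hx v).le
  have h1 : Transfer_Ph G k x θ ε f (c + 1) =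
      EE G k x (fun v => if strt G x ε v ∧ unst G x θ c v then
        ∑ z ∈ sA G (st G v c), x z * rho G k x c v z *
          (if mm G x (k - c - 1) (step G (st G v c) z) < θ then
            SS G x θ f (k - c - 1) (step G (st G v c) z) /
              (1 - mm G x (k - c - 1) (step G (st G v c) z)) else 0) else 0) := by
    rw [← Transfer_markov hk hx0 hc (by omega) (fun s z => if mm G x (k - c - 1) (step G s z) < θ then
            SS G x θ f (k - c - 1) (step G s z) /
              (1 - mm G x (k - c - 1) (step G s z)) else 0)]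
    unfold Transfer_Ph
    apply EE_congr
    intro v hv
    have e1 := Transfer_unst_succ (G := G) (x := x) (θ := θ) hc v
    have e2 : st G v (c + 1) = step G (st G v c) (v (c : ZMod k)) := st_succ v (by omega)
    rw [e2, ← Nat.sub_sub]
    by_cases ha : strt G x ε v ∧ unst G x θ c v
    · rw [if_pos ha]
      by_cases hb : mm G x (k - c - 1) (step G (st G v c) (v (c : ZMod k))) < θ
      · rw [if_pos hb, if_pos ⟨ha.1, e1.2 ⟨ha.2, hb⟩⟩]
      · rw [if_neg hb, if_neg (fun h => hb (e1.1 h.2).2)]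
    · rw [if_neg ha, if_neg (fun h => ha ⟨h.1, (e1.1 h.2).1⟩)]
  rw [h1, ← EE_add]
  unfold Transfer_Ph
  apply EE_mono hx0
  intro v hv
  by_cases ha : strt G x ε v ∧ unst G x θ c v
  · simp only [if_pos ha]
    have hm : mm G x (k - c) (st G v c) < θ := ha.2 c hc le_rfl
    have hm0 : 0 ≤ mm G x (k - c) (st G v c) := mm_nonneg hx0 (by omega) _
    have hp : 0 < 1 - mm G x (k - c) (st G v c) := by linarith
    have hrec : SS G x θ f (k - c) (st G v c) = f (k - c) (st G v c) +
        ∑ z ∈ sA G (st G v c), lk G x θ (k - c) (st G v c) z *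
          SS G x θ f (k - c - 1) (step G (st G v c) z) := by
      obtain ⟨r, hr⟩ : ∃ r, k - c = r + 2 := ⟨k - c - 2, by omega⟩
      rw [hr]
      rfl
    rw [hrec, add_div]
    have hf1 : f (k - c) (st G v c) ≤ f (k - c) (st G v c) / (1 - mm G x (k - c) (st G v c)) := by
      rw [le_div_iff₀ hp]
      nlinarith [hf (k - c) (st G v c)]
    have hs1 : ∑ z ∈ sA G (st G v c), x z * rho G k x c v z *
          (if mm G x (k - c - 1) (step G (st G v c) z) < θ then
            SS G x θ f (k - c - 1) (step G (st G v c) z) /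
              (1 - mm G x (k - c - 1) (step G (st G v c) z)) else 0) =
        (∑ z ∈ sA G (st G v c), lk G x θ (k - c) (st G v c) z *
          SS G x θ f (k - c - 1) (step G (st G v c) z)) / (1 - mm G x (k - c) (st G v c)) := by
      rw [sum_div]
      apply sum_congr rfl
      intro z hz
      rw [rho_eq hx (by omega) (by omega)]
      unfold lk
      by_cases hb : mm G x (k - c - 1) (step G (st G v c) z) < θ
      · rw [if_pos hb, if_pos hb]
        have hq : 1 - mm G x (k - c - 1) (step G (st G v c) z) ≠ 0 := by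
          have : 0 < 1 - mm G x (k - c - 1) (step G (st G v c) z) := by linarith
          exact this.ne'
        field_simp
      · rw [if_neg hb, if_neg hb]
        simp
    rw [hs1]
    linarith
  · simp only [if_neg ha]
    simp

theorem Transfer_last (hk : 10 ≤ k) (hx : ∀ v, 0 < x v) {θ ε : ℝ} (hε : 0 ≤ ε) (hεθ : ε < θ)
    (hθ : θ ≤ 1 / 2) (f : ℕ → St V → ℝ) (hf : ∀ r s, 0 ≤ f r s) :
    EE G k x (fun v => if strt G x ε v ∧ unst G x θ (k - 2) v then
      f (k - (k - 2)) (st G v (k - 2)) else 0) ≤ Transfer_Ph G k x θ ε f (k - 2) := by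
  have hx0 : ∀ v, 0 ≤ x v := fun v => (hx v).le
  unfold Transfer_Ph
  apply EE_mono hx0
  intro v hv
  by_cases ha : strt G x ε v ∧ unst G x θ (k - 2) v
  · simp only [if_pos ha]
    have hm : mm G x (k - (k - 2)) (st G v (k - 2)) < θ := ha.2 (k - 2) (by omega) le_rfl
    have hm0 : 0 ≤ mm G x (k - (k - 2)) (st G v (k - 2)) := mm_nonneg hx0 (by omega) _
    have hp : 0 < 1 - mm G x (k - (k - 2)) (st G v (k - 2)) := by linarith
    have h2 : k - (k - 2) = 2 := by omega
    have hrec : SS G x θ f (k - (k - 2)) (st G v (k - 2)) =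
        f (k - (k - 2)) (st G v (k - 2)) := by
      rw [h2]
      have : SS G x θ f 2 (st G v (k - 2)) = f 2 (st G v (k - 2)) +
        ∑ z ∈ sA G (st G v (k - 2)), lk G x θ 2 (st G v (k - 2)) z *
          SS G x θ f 1 (step G (st G v (k - 2)) z) := rfl
      rw [this]
      have e : ∑ z ∈ sA G (st G v (k - 2)), lk G x θ 2 (st G v (k - 2)) z *
          SS G x θ f 1 (step G (st G v (k - 2)) z) = 0 := by
        apply sum_eq_zero
        intro z _
        have : SS G x θ f 1 (step G (st G v (k - 2)) z) = 0 := rfl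
        rw [this, mul_zero]
      rw [e, add_zero]
    rw [hrec, le_div_iff₀ hp]
    nlinarith [hf (k - (k - 2)) (st G v (k - 2))]
  · simp only [if_neg ha]
    exact le_rfl

theorem transfer (hk : 10 ≤ k) (hx : ∀ v, 0 < x v) {θ ε : ℝ} (hε : 0 ≤ ε) (hεθ : ε < θ)
    (hθ : θ ≤ 1 / 2) (f : ℕ → St V → ℝ) (hf : ∀ r s, 0 ≤ f r s) :
    EE G k x (fun v => ∑ c ∈ Icc 5 (k - 2), if strt G x ε v ∧ unst G x θ c v then
      f (k - c) (st G v c) else 0) ≤
      2 * EE G k x (fun v => if strt G x ε v then SS G x θ f (k - 5) (st G v 5) else 0) := by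
  have hx0 : ∀ v, 0 ≤ x v := fun v => (hx v).le
  rw [EE_sum]
  have key : ∀ n : ℕ, n + 7 ≤ k → ∑ c ∈ Icc (k - 2 - n) (k - 2),
      EE G k x (fun v => if strt G x ε v ∧ unst G x θ c v then f (k - c) (st G v c) else 0) ≤
      Transfer_Ph G k x θ ε f (k - 2 - n) := by
    intro n
    induction n with
    | zero =>
      intro _
      rw [Nat.sub_zero, Icc_self, sum_singleton]
      exact Transfer_last hk hx hε hεθ hθ f hf
    | succ n ih =>
      intro hn
      have hi := ih (by omega)
      have hs := Transfer_step (G := G) hk hx hε hεθ hθ f hf (c := k - 2 - (n + 1)) (by omega) (by omega)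
      have e : k - 2 - (n + 1) + 1 = k - 2 - n := by omega
      rw [e] at hs
      have e2 : Icc (k - 2 - (n + 1)) (k - 2) = insert (k - 2 - (n + 1)) (Icc (k - 2 - n) (k - 2)) := by
        ext t
        simp only [mem_Icc, mem_insert]
        omega
      rw [e2, sum_insert (by simp only [mem_Icc]; omega)]
      linarith
  have h5 := key (k - 7) (by omega)
  have e5 : k - 2 - (k - 7) = 5 := by omega
  rw [e5] at h5
  refine h5.trans ?_
  rw [← EE_mul]
  unfold Transfer_Ph
  apply EE_mono hx0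
  intro v hv
  by_cases hs : strt G x ε v
  · rw [if_pos hs]
    have hS : 0 ≤ SS G x θ f (k - 5) (st G v 5) := ss_nonneg hx0 θ f hf _ _
    by_cases hu : unst G x θ 5 v
    · rw [if_pos ⟨hs, hu⟩, div_le_iff₀ (by unfold strt at hs; linarith)]
      unfold strt at hs
      nlinarith
    · rw [if_neg (fun h => hu h.2)]
      linarith
  · rw [if_neg hs, if_neg (fun h => hs h.1)]
    simp

/-- with a bound `SS f ≤ C mm` -/
theorem transfer' (hk : 10 ≤ k) (hx : ∀ v, 0 < x v) (hN : 0 < NN G k x) {θ ε C : ℝ} (hε : 0 ≤ ε)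
    (hεθ : ε < θ) (hθ : θ ≤ 1 / 2) (hC : 0 ≤ C) (f : ℕ → St V → ℝ) (hf : ∀ r s, 0 ≤ f r s)
    (hS : ∀ (r : ℕ) (s : St V), 2 ≤ r → mm G x r s < θ → SS G x θ f r s ≤ C * mm G x r s) :
    EE G k x (fun v => ∑ c ∈ Icc 5 (k - 2), if strt G x ε v ∧ unst G x θ c v then
      f (k - c) (st G v c) else 0) ≤ 2 * C * ε := by
  have hx0 : ∀ v, 0 ≤ x v := fun v => (hx v).le
  refine (transfer hk hx hε hεθ hθ f hf).trans ?_
  have h : EE G k x (fun v => if strt G x ε v then SS G x θ f (k - 5) (st G v 5) else 0) ≤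
      EE G k x (fun _ => C * ε) := by
    apply EE_mono hx0
    intro v hv
    by_cases hs : strt G x ε v
    · rw [if_pos hs]
      unfold strt at hs
      refine (hS (k - 5) (st G v 5) (by omega) (by linarith)).trans ?_
      exact mul_le_mul_of_nonneg_left hs hC
    · rw [if_neg hs]
      positivity
  rw [EE_const hN.ne'] at h
  linarith

theorem Transfer_stop_pt (hk : 10 ≤ k) {θ ε : ℝ} (hεθ : ε < θ) (v : ZMod k → V) :
    (if strt G x ε v ∧ ¬ unst G x θ (k - 2) v then (1 : ℝ) else 0) ≤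
      ∑ c ∈ Icc 5 (k - 3), if strt G x ε v ∧ unst G x θ c v then
        (if mm G x (k - c - 1) (step G (st G v c) (v (c : ZMod k))) < θ then (0 : ℝ) else 1) else 0 := by
  have hnn : ∀ c ∈ Icc 5 (k - 3), (0 : ℝ) ≤ if strt G x ε v ∧ unst G x θ c v then
        (if mm G x (k - c - 1) (step G (st G v c) (v (c : ZMod k))) < θ then (0 : ℝ) else 1) else 0 := by
    intro c _
    split_ifs <;> norm_num
  by_cases h : strt G x ε v ∧ ¬ unst G x θ (k - 2) v
  · rw [if_pos h]
    obtain ⟨hs, hu⟩ := h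
    -- first failure
    have h5 : unst G x θ 5 v := by
      intro c' h1 h2
      have : c' = 5 := by omega
      rw [this]
      unfold strt at hs
      linarith
    have hex : ∃ c, 5 ≤ c ∧ ¬ unst G x θ c v := ⟨k - 2, by omega, hu⟩
    classical
    obtain ⟨hc1, hc2⟩ := Nat.find_spec hex
    set c := Nat.find hex with hcdef
    have hcle : c ≤ k - 2 := Nat.find_min' hex ⟨by omega, hu⟩
    have hc5 : c ≠ 5 := by
      intro h
      rw [h] at hc2
      exact hc2 h5
    have hc6 : 6 ≤ c := by omega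
    have hprev : unst G x θ (c - 1) v := by
      by_contra hcon
      have := Nat.find_min hex (m := c - 1) (by omega)
      exact this ⟨by omega, hcon⟩
    have hmem : c - 1 ∈ Icc 5 (k - 3) := by
      rw [mem_Icc]
      omega
    refine le_trans ?_ (single_le_sum hnn hmem)
    rw [if_pos ⟨hs, hprev⟩]
    have hiff := Transfer_unst_succ (G := G) (x := x) (θ := θ) (c := c - 1) (by omega) v
    have e : c - 1 + 1 = c := by omega
    rw [e] at hiff
    rw [if_neg (fun hlt => hc2 (hiff.2 ⟨hprev, hlt⟩))]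
  · rw [if_neg h]
    exact sum_nonneg hnn

theorem stop (hk : 10 ≤ k) (hx : ∀ v, 0 < x v) (hN : 0 < NN G k x) {θ ε : ℝ} (hε : 0 ≤ ε)
    (hεθ : ε < θ) (hθ : θ ≤ 1 / 16) :
    EE G k x (fun v => if strt G x ε v ∧ ¬ unst G x θ (k - 2) v then 1 else 0) ≤ 36 * ε / θ := by
  have hx0 : ∀ v, 0 ≤ x v := fun v => (hx v).le
  have hθ0 : 0 < θ := by linarith
  have h1 : EE G k x (fun v => if strt G x ε v ∧ ¬ unst G x θ (k - 2) v then 1 else 0) ≤
      EE G k x (fun v => ∑ c ∈ Icc 5 (k - 3), if strt G x ε v ∧ unst G x θ c v then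
        (if mm G x (k - c - 1) (step G (st G v c) (v (c : ZMod k))) < θ then (0 : ℝ) else 1) else 0) :=
    EE_mono hx0 (fun v _ => Transfer_stop_pt hk hεθ v)
  rw [EE_sum] at h1
  have h2 : ∀ c ∈ Icc 5 (k - 3), EE G k x (fun v => if strt G x ε v ∧ unst G x θ c v then
        (if mm G x (k - c - 1) (step G (st G v c) (v (c : ZMod k))) < θ then (0 : ℝ) else 1) else 0) ≤
      6 * EE G k x (fun v => if strt G x ε v ∧ unst G x θ c v then
        Hz G x θ 0 (k - c) (st G v c) else 0) := by
    intro c hc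
    rw [mem_Icc] at hc
    rw [Transfer_markov hk hx0 hc.1 (by omega)
      (fun s z => if mm G x (k - c - 1) (step G s z) < θ then (0 : ℝ) else 1), ← EE_mul]
    apply EE_mono hx0
    intro v hv
    by_cases ha : strt G x ε v ∧ unst G x θ c v
    · simp only [if_pos ha]
      have hm : mm G x (k - c) (st G v c) < θ := ha.2 c hc.1 le_rfl
      unfold Hz
      rw [if_neg (by omega), mul_sum]
      apply sum_le_sum
      intro z hz
      have hr := rho_le (G := G) (x := x) (by omega) hx (by omega : 2 ≤ c) (by omega) v z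
        (by linarith : mm G x (k - c) (st G v c) < 1 / 2)
      have hi : (0 : ℝ) ≤ if mm G x (k - c - 1) (step G (st G v c) z) < θ then (0 : ℝ) else 1 := by
        split_ifs <;> norm_num
      have := mul_le_mul_of_nonneg_left hr (mul_nonneg (hx0 z) hi)
      nlinarith
    · simp only [if_neg ha]
      simp
  have h3 := transfer' hk hx hN hε hεθ (by linarith) (C := 3 / θ) (by positivity) (Hz G x θ 0)
    (fun r s => Hz_nonneg hx0 θ 0 r s) (by
      intro r s hr hm
      have := ss_hz hx0 hθ0 hθ 0 r (by omega) s hm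
      simpa using this)
  rw [EE_sum] at h3
  have h4 : ∑ c ∈ Icc 5 (k - 3), EE G k x (fun v => if strt G x ε v ∧ unst G x θ c v then
        Hz G x θ 0 (k - c) (st G v c) else 0) ≤
      ∑ c ∈ Icc 5 (k - 2), EE G k x (fun v => if strt G x ε v ∧ unst G x θ c v then
        Hz G x θ 0 (k - c) (st G v c) else 0) := by
    apply sum_le_sum_of_subset_of_nonneg
    · intro c hc
      rw [mem_Icc] at hc ⊢
      omega
    · intro c _ _
      apply EE_nonneg hx0
      intro v _
      split_ifs
      · exact Hz_nonneg hx0 θ 0 _ _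
      · exact le_rfl
  have h5 : ∑ c ∈ Icc 5 (k - 3), EE G k x (fun v => if strt G x ε v ∧ unst G x θ c v then
        (if mm G x (k - c - 1) (step G (st G v c) (v (c : ZMod k))) < θ then (0 : ℝ) else 1) else 0) ≤
      6 * ∑ c ∈ Icc 5 (k - 3), EE G k x (fun v => if strt G x ε v ∧ unst G x θ c v then
        Hz G x θ 0 (k - c) (st G v c) else 0) := by
    rw [mul_sum]
    exact sum_le_sum h2
  have e : 36 * ε / θ = 6 * (2 * (3 / θ) * ε) := by
    field_simp
    ring
  rw [e]
  linarith

end Pool.Agent.Icy
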