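import Pool.Agent.Icy.W91Defs
import Pool.Agent.Icy.Mass
import Pool.Agent.Icy.ClBasic
import Pool.Agent.Icy.Transfer

/-!
# Non-clones of a good cycle (deterministic)

Let `w ∈ NC v`.  If `w ~ v j` for some `j ∈ Wd`: weight in total `≤ qW`.  If `tr v w = ∅` then
`w ∈ nnin (up (st v (k-2))) (v 0)`: weight `≤ 2 mm 2` (`mass_left`).  Otherwise the first hit is `c - 1` with
`9 ≤ c ≤ k-10`, `w ∈ sA (st v c)`, and as `w` is no clone of `v c`: `w ≁ v (c+1)` or `w ~ v c'` for some
`c + 2 ≤ c' ≤ k - 11`: counted in `q2`.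
-/

set_option autoImplicit false

open Finset
open scoped Classical

namespace Pool.Agent.Icy

variable {V : Type} [Fintype V] {G : SimpleGraph V} {k : ℕ} [NeZero k] {x : V → ℝ}

omit [Fintype V] in
private theorem S91nc_wt_mono (hx : ∀ v, 0 ≤ x v) {S T : Finset V} (h : S ⊆ T) :
    wt x S ≤ wt x T := by
  unfold wt
  exact Finset.sum_le_sum_of_subset_of_nonneg h (fun i _ _ => hx i)

omit [Fintype V] in
private theorem S91nc_wt_nonneg (hx : ∀ v, 0 ≤ x v) (S : Finset V) : 0 ≤ wt x S :=
  Finset.sum_nonneg (fun i _ => hx i)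

omit [Fintype V] in
private theorem S91nc_wt_union (hx : ∀ v, 0 ≤ x v) (S T : Finset V) :
    wt x (S ∪ T) ≤ wt x S + wt x T := by
  unfold wt
  rw [← Finset.sum_union_inter]
  have := Finset.sum_nonneg (s := S ∩ T) (fun i _ => hx i)
  linarith

omit [Fintype V] in
private theorem S91nc_wt_biUnion (hx : ∀ v, 0 ≤ x v) {ι : Type} (I : Finset ι)
    (f : ι → Finset V) : wt x (I.biUnion f) ≤ ∑ i ∈ I, wt x (f i) := by
  induction I using Finset.induction_on with
  | empty => simp [wt]
  | insert a s ha ih =>
    rw [Finset.biUnion_insert, Finset.sum_insert ha]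
    have := S91nc_wt_union hx (f a) (s.biUnion f)
    linarith

private def S91nc_P (G : SimpleGraph V) {k : ℕ} (v : ZMod k → V) (c : ℕ) (w : V) : Prop :=
  ¬ G.Adj (v ((c + 1 : ℕ) : ZMod k)) w ∨
        ∃ c' ∈ Icc (c + 2) (k - 6), G.Adj (v ((c' : ℕ) : ZMod k)) w

/-- combinatorial core -/
private theorem S91nc_core (hk : 100 ≤ k) (v : ZMod k → V) {w : V} (hw : w ∈ NC G v)
    (hW : ∀ j ∈ Wd k, ¬ G.Adj (v ((j : ℕ) : ZMod k)) w) :
    w ∈ nnin G (up G (st G v (k - 2))) (v 0) ∨
      ∃ c ∈ Icc 5 (k - 8), w ∈ sA G (st G v c) ∧ (¬ G.Adj (v ((c + 1 : ℕ) : ZMod k)) w ∨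
        ∃ c' ∈ Icc (c + 2) (k - 6), G.Adj (v ((c' : ℕ) : ZMod k)) w) := by
  have hcast : ∀ i : ZMod k, ((i.val : ℕ) : ZMod k) = i := fun i => ZMod.natCast_zmod_val i
  have hW' : ∀ j : ℕ, j < k → (j < 8 ∨ k ≤ j + 10) → ¬ G.Adj (v ((j : ℕ) : ZMod k)) w := by
    intro j hj hj'
    apply hW
    rw [Wd, mem_filter, mem_range]
    exact ⟨hj, hj'⟩
  by_cases hex : ∃ j : ℕ, j < k ∧ G.Adj (v ((j : ℕ) : ZMod k)) w
  · right
    obtain ⟨hj, hadj⟩ := Nat.find_spec hex
    set j := Nat.find hex with hjdef
    have hmin : ∀ m : ℕ, m < j → m < k → ¬ G.Adj (v ((m : ℕ) : ZMod k)) w := by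
      intro m hm hmk h
      exact Nat.find_min hex hm ⟨hmk, h⟩
    have hj1 : 8 ≤ j ∧ j + 10 < k := by
      by_contra h
      exact hW' j hj (by omega) hadj
    obtain ⟨hj8, hj10⟩ := hj1
    refine ⟨j + 1, by rw [mem_Icc]; omega, ?_, ?_⟩
    · rw [sA, mem_filter]
      refine ⟨?_, ?_, ?_⟩
      · simp only [st, mem_filter, mem_univ, true_and]
        intro i hi1 hi2
        exact hmin i (by omega) (by omega)
      · simp only [st]
        rw [Nat.add_sub_cancel]
        exact hadj
      · simp only [st]
        have := hmin 0 (by omega) (by omega)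
        rwa [Nat.cast_zero] at this
    · by_contra hcon
      push Not at hcon
      obtain ⟨h1, h2⟩ := hcon
      have hw2 := (nc_mem v w).1 hw
      apply hw2 ((j + 1 : ℕ) : ZMod k)
      simp only [Cl, mem_filter, mem_univ, true_and]
      intro i hi
      have hiv : i.val < k := ZMod.val_lt i
      have hic := hcast i
      constructor
      · intro hadji
        rw [← hic] at hadji
        have hge : j ≤ i.val := by
          by_contra h
          exact hmin i.val (by omega) hiv hadji
        have hne : i.val ≠ j + 1 := by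
          intro h
          apply hi
          rw [← hic, h]
        have hle : i.val ≤ j + 2 := by
          by_contra h
          by_cases h6 : i.val ≤ k - 6
          · exact h2 i.val (by rw [mem_Icc]; omega) hadji
          · exact hW' i.val hiv (by omega) hadji
        have : i.val = j ∨ i.val = j + 2 := by omega
        rcases this with h | h
        · left
          rw [← hic, h]
          push_cast
          rfl
        · right
          rw [← hic, h]
          push_cast
          ring
      · rintro (h | h)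
        · have : i = ((j : ℕ) : ZMod k) := by
            push_cast at h
            exact (add_right_cancel h).symm
          rw [this]
          exact hadj
        · have : i = ((j + 1 + 1 : ℕ) : ZMod k) := by
            rw [h]; push_cast; rfl
          rw [this]
          exact h1
  · left
    push Not at hex
    rw [nnin, mem_filter, up, mem_filter]
    refine ⟨⟨?_, ?_⟩, ?_⟩
    · simp only [st, mem_filter, mem_univ, true_and]
      intro i hi1 hi2
      exact hex i (by omega)
    · simp only [st]
      exact hex _ (by omega)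
    · have := hex 0 (by omega)
      rwa [Nat.cast_zero] at this

theorem s91nc (hk : 100 ≤ k) (h : Opt G k x) {v : ZMod k → V} (hv : v ∈ cyc G k) {θ : ℝ}
    (hθ : θ ≤ 1 / 10 ^ 8) (hun : unst G x θ (k - 2) v) :
    wt x (NC G v) ≤ q2 G x v + 2 * mm G x 2 (st G v (k - 2)) + qW G x v := by
  have hx : ∀ v, 0 ≤ x v := fun v => (h.pos v).le
  set A : Finset V := (Wd k).biUnion (fun j => (NC G v).filter (fun w => G.Adj (v (j : ZMod k)) w))
    with hA
  set B : Finset V := nnin G (up G (st G v (k - 2))) (v 0) with hB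
  set C : Finset V := (Icc 5 (k - 8)).biUnion (fun c => (sA G (st G v c)).filter (fun w =>
    S91nc_P G v c w)) with hC
  have hsub : NC G v ⊆ (C ∪ B) ∪ A := by
    intro w hw
    by_cases hWd : ∃ j ∈ Wd k, G.Adj (v ((j : ℕ) : ZMod k)) w
    · obtain ⟨j, hj, hadj⟩ := hWd
      refine mem_union_right _ ?_
      rw [hA, mem_biUnion]
      exact ⟨j, hj, mem_filter.2 ⟨hw, hadj⟩⟩
    · push Not at hWd
      refine mem_union_left _ ?_
      rcases S91nc_core hk v hw hWd with h1 | ⟨c, hc, hcs, hcc⟩
      · exact mem_union_right _ h1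
      · refine mem_union_left _ ?_
        rw [hC, mem_biUnion]
        exact ⟨c, hc, mem_filter.2 ⟨hcs, hcc⟩⟩
  have h1 : wt x (NC G v) ≤ wt x C + wt x B + wt x A := by
    have h2 := S91nc_wt_mono hx hsub
    have h3 := S91nc_wt_union hx (C ∪ B) A
    have h4 := S91nc_wt_union hx C B
    linarith
  have hAle : wt x A ≤ qW G x v := by
    refine (S91nc_wt_biUnion hx _ _).trans ?_
    unfold qW
    apply Finset.sum_le_sum
    intro j _
    have h2 : 0 ≤ |wt x (Cl G v (j : ZMod k)) - 1| := abs_nonneg _
    have h3 : 0 ≤ ∑ u ∈ Cl G v (j : ZMod k), x u * wrv G x (Cl G v) (j : ZMod k) u := by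
      apply Finset.sum_nonneg
      intro u _
      apply mul_nonneg (hx u)
      unfold wrv
      exact Finset.sum_nonneg (fun i _ => S91nc_wt_nonneg hx _)
    linarith
  have hBle : wt x B ≤ 2 * mm G x 2 (st G v (k - 2)) := by
    have h2 := hun (k - 2) (by omega) le_rfl
    have h3 : k - (k - 2) = 2 := by omega
    rw [h3] at h2
    have h4 := mass_left (G := G) (x := x) hx (s := st G v (k - 2)) (by
      have : (1 : ℝ) / 10 ^ 8 ≤ 1 / 2 := by norm_num
      linarith)
    exact h4
  have hCle : wt x C ≤ q2 G x v := by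
    refine (S91nc_wt_biUnion hx _ _).trans ?_
    unfold q2
    apply Finset.sum_le_sum
    intro c _
    unfold wt
    rw [Finset.sum_filter]
    apply Finset.sum_le_sum
    intro w _
    have hnn : ∀ c' ∈ Icc (c + 2) (k - 6),
        (0 : ℝ) ≤ (if G.Adj (v ((c' : ℕ) : ZMod k)) w then 1 else 0) := by
      intro c' _
      split_ifs <;> norm_num
    have hs := Finset.sum_nonneg hnn
    split_ifs with h2 h3
    · rcases h2 with h2 | ⟨c', hc', hadj⟩
      · exact absurd h3 h2
      · have h5 := Finset.single_le_sum hnn hc'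
        rw [if_pos hadj] at h5
        nlinarith [hx w]
    · nlinarith [hx w]
    · exact mul_nonneg (hx w) (by linarith)
    · exact mul_nonneg (hx w) (by linarith)
  linarith

end Pool.Agent.Icy
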