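import Pool.Agent.Icy.T2Defs
import Pool.Agent.Icy.O1

/-!
# T2, the entropy part

`t2_tele`: for `v ∈ cyc`: `log cnt_{k-2}(st v 2) = Σ_{p=2}^{k-2} (- log rho_p(v, v p)) + log cnt_1(st v (k-1))`
(telescoping, all `cnt > 0`; `st v (p+1) = step (st v p) (v p)`).
`t2_step`: `markov` with `F v z = - log (rho v z)`, `rho_sum`, `- t log t = 1 - t - phi t` (also for `t = 0`).
`t2_two`: `- log t ≤ log 2 + 1/(2t) - 1`; `EE (1/rho (v, v 2)) ≤ EE wt (sA (st v 2))` (`markov`, `x z * rho *
(1/rho) ≤ x z`).
`t2_first`: `log u ≤ log (2k) + u/(2k) - 1`, `u = NN/cnt_{k-2}(st v 2)`; `bridge2` with `f a b =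
1/cnt_{k-2}⟨a,b,univ⟩`: `EE u ≤ Σ_a x_a wt (nb a) = k EE wt (nb (v 0))` (`o1`).
-/

set_option autoImplicit false

open Finset
open scoped Classical

namespace Pool.Agent.Icy

variable {V : Type} [Fintype V] {G : SimpleGraph V} {k : ℕ} [NeZero k] {x : V → ℝ}

theorem phi_nonneg {t : ℝ} (ht : 0 ≤ t) : 0 ≤ phi t := by
  unfold phi
  rcases ht.eq_or_lt with h | h
  · rw [← h]
    simp
  · have h1 := Real.log_le_sub_one_of_pos (inv_pos.2 h)
    rw [Real.log_inv] at h1
    have h2 : t * (-Real.log t) ≤ t * (t⁻¹ - 1) := mul_le_mul_of_nonneg_left h1 ht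
    rw [mul_sub, mul_inv_cancel₀ h.ne'] at h2
    linarith

theorem loss_nonneg (hx : ∀ v, 0 ≤ x v) (p : ℕ) : 0 ≤ loss G k x p :=
  EE_nonneg hx fun v _ => sum_nonneg fun z _ =>
    mul_nonneg (hx z) (phi_nonneg (rho_nonneg hx p v z))

private theorem T2ent_rho (v : ZMod k → V) {p : ℕ} (hp : 2 ≤ p) :
    rho G k x p v (v (p : ZMod k)) =
      cnt G x (k - (p + 1)) (st G v (p + 1)) / cnt G x (k - p) (st G v p) := by
  rw [rho, ← st_succ v hp, Nat.sub_sub]

theorem t2_tele (hk : 7 ≤ k) (hx : ∀ v, 0 < x v) {v : ZMod k → V} (hv : v ∈ cyc G k) :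
    Real.log (cnt G x (k - 2) (st G v 2)) =
      ∑ p ∈ Icc 2 (k - 2), (- Real.log (rho G k x p v (v (p : ZMod k)))) +
        Real.log (cnt G x 1 (st G v (k - 1))) := by
  have key : ∀ m : ℕ, 2 ≤ m → m ≤ k - 2 →
      ∑ p ∈ Icc 2 m, (- Real.log (rho G k x p v (v (p : ZMod k)))) =
        Real.log (cnt G x (k - 2) (st G v 2)) -
          Real.log (cnt G x (k - (m + 1)) (st G v (m + 1))) := by
    intro m hm
    induction m, hm using Nat.le_induction with
    | base =>
      intro _
      have h1 := cnt_pos_cyc (x := x) (by omega) hx hv (p := 2) (by omega) (by omega)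
      have h2 := cnt_pos_cyc (x := x) (by omega) hx hv (p := 3) (by omega) (by omega)
      rw [Icc_self, sum_singleton, T2ent_rho v (le_refl 2), Real.log_div h2.ne' h1.ne']
      ring
    | succ m hm ih =>
      intro hmk
      have h1 := cnt_pos_cyc (x := x) (by omega) hx hv (p := m + 1) (by omega) (by omega)
      have h2 := cnt_pos_cyc (x := x) (by omega) hx hv (p := m + 2) (by omega) (by omega)
      rw [Finset.sum_Icc_succ_top (by omega : 2 ≤ m + 1), ih (by omega),
        T2ent_rho v (by omega : 2 ≤ m + 1), Real.log_div h2.ne' h1.ne']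
      ring
  have h3 := key (k - 2) (by omega) (le_refl _)
  rw [h3]
  have e1 : k - (k - 2 + 1) = 1 := by omega
  have e2 : k - 2 + 1 = k - 1 := by omega
  rw [e1, e2]
  ring

theorem t2_step (hk : 7 ≤ k) (h : Opt G k x) {p : ℕ} (hp : 2 ≤ p) (hpk : p + 2 ≤ k) :
    EE G k x (fun v => - Real.log (rho G k x p v (v (p : ZMod k)))) =
      EE G k x (fun v => wt x (sA G (st G v p))) - 1 - loss G k x p := by
  have hx : ∀ v, 0 ≤ x v := fun v => (h.pos v).le
  have hD : ∀ z, Dep k p (fun v : ZMod k → V => - Real.log (rho G k x p v z)) := by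
    intro z v v' hvv
    have h1 := dep_st (G := G) (k := k) (by omega : 1 ≤ p) (le_refl p) v v' hvv
    simp only at h1
    simp only [rho, h1]
  rw [markov (by omega) hx hp hpk (fun v z => - Real.log (rho G k x p v z)) hD]
  have h2 : EE G k x (fun v => ∑ z ∈ sA G (st G v p), x z * rho G k x p v z *
      - Real.log (rho G k x p v z)) = EE G k x (fun v => wt x (sA G (st G v p)) - 1 -
        ∑ z ∈ sA G (st G v p), x z * phi (rho G k x p v z)) := by
    refine EE_congr fun v hv => ?_
    have h3 := rho_sum (by omega) h.pos hv hp hpk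
    have h4 : ∀ z, x z * rho G k x p v z * - Real.log (rho G k x p v z) =
        x z - x z * rho G k x p v z - x z * phi (rho G k x p v z) := by
      intro z
      unfold phi
      ring
    simp_rw [h4]
    rw [sum_sub_distrib, sum_sub_distrib, h3]
    rfl
  rw [h2, EE_sub, EE_sub, EE_const h.NN_pos.ne']
  rfl

theorem t2_two (hk : 7 ≤ k) (h : Opt G k x) :
    EE G k x (fun v => - Real.log (rho G k x 2 v (v 2))) ≤
      Real.log 2 + EE G k x (fun v => wt x (sA G (st G v 2))) / 2 - 1 := by
  have hx : ∀ v, 0 ≤ x v := fun v => (h.pos v).le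
  have h1 : EE G k x (fun v => - Real.log (rho G k x 2 v (v 2))) ≤
      EE G k x (fun v => (Real.log 2 - 1) + (1 / 2) * (1 / rho G k x 2 v (v 2))) := by
    refine EE_mono hx fun v hv => ?_
    have c1 := cnt_pos_cyc (x := x) (by omega) h.pos hv (p := 2) (by omega) (by omega)
    have c2 := cnt_pos_cyc (x := x) (by omega) h.pos hv (p := 3) (by omega) (by omega)
    have hr : rho G k x 2 v (v 2) = cnt G x (k - 3) (st G v 3) / cnt G x (k - 2) (st G v 2) := by
      have := T2ent_rho (G := G) (x := x) v (le_refl 2)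
      simpa using this
    have hpos : 0 < rho G k x 2 v (v 2) := by
      rw [hr]
      exact div_pos c2 c1
    have h3 := Real.log_le_sub_one_of_pos (show 0 < 1 / (2 * rho G k x 2 v (v 2)) by positivity)
    rw [one_div, Real.log_inv, Real.log_mul (by norm_num) hpos.ne', mul_inv] at h3
    rw [one_div, one_div]
    linarith
  refine h1.trans ?_
  rw [EE_add, EE_const h.NN_pos.ne', EE_mul]
  have hD : ∀ z, Dep k 2 (fun v : ZMod k → V => 1 / rho G k x 2 v z) := by
    intro z v v' hvv
    have h1 := dep_st (G := G) (k := k) (by omega : 1 ≤ 2) (le_refl 2) v v' hvv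
    simp only at h1
    simp only [rho, h1]
  have h4 := markov (x := x) (G := G) (by omega : 5 ≤ k) hx (le_refl 2) (by omega)
    (fun v z => 1 / rho G k x 2 v z) hD
  have h5 : EE G k x (fun v => 1 / rho G k x 2 v (v 2)) ≤
      EE G k x (fun v => wt x (sA G (st G v 2))) := by
    have e : (fun v : ZMod k → V => 1 / rho G k x 2 v (v 2)) =
        fun v => 1 / rho G k x 2 v (v ((2 : ℕ) : ZMod k)) := by
      funext v
      simp
    rw [e, h4]
    refine EE_mono hx fun v _ => ?_
    refine sum_le_sum fun z _ => ?_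
    rcases (rho_nonneg (G := G) (k := k) hx 2 v z).eq_or_lt with h0 | h0
    · rw [← h0]
      simp [hx z]
    · rw [mul_assoc, mul_one_div_cancel h0.ne', mul_one]
  linarith

theorem t2_first (hk : 7 ≤ k) (h : Opt G k x) :
    EE G k x (fun v => Real.log (NN G k x / cnt G x (k - 2) (st G v 2))) ≤
      Real.log (2 * k) + EE G k x (fun v => wt x (nb G (v 0))) / 2 - 1 := by
  have hx : ∀ v, 0 ≤ x v := fun v => (h.pos v).le
  have hN := h.NN_pos
  have hk0 : (0 : ℝ) < k := by
    have : 0 < k := by omega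
    exact_mod_cast this
  have h1 : EE G k x (fun v => Real.log (NN G k x / cnt G x (k - 2) (st G v 2))) ≤
      EE G k x (fun v => (Real.log (2 * k) - 1) +
        (NN G k x / (2 * k)) * (1 / cnt G x (k - 2) (st G v 2))) := by
    refine EE_mono hx fun v hv => ?_
    have c1 := cnt_pos_cyc (x := x) (by omega) h.pos hv (p := 2) (by omega) (by omega)
    have hu : 0 < NN G k x / cnt G x (k - 2) (st G v 2) := div_pos hN c1
    have h3 := Real.log_le_sub_one_of_pos
      (show 0 < NN G k x / cnt G x (k - 2) (st G v 2) / (2 * k) by positivity)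
    rw [Real.log_div hu.ne' (by positivity)] at h3
    have e : NN G k x / (2 * k) * (1 / cnt G x (k - 2) (st G v 2)) =
        NN G k x / cnt G x (k - 2) (st G v 2) / (2 * k) := by
      field_simp
    rw [e]
    linarith
  refine h1.trans ?_
  rw [EE_add, EE_const hN.ne', EE_mul]
  have h4 : NN G k x * EE G k x (fun v => 1 / cnt G x (k - 2) (st G v 2)) ≤
      k * EE G k x (fun v => wt x (nb G (v 0))) := by
    have e1 : NN G k x * EE G k x (fun v => 1 / cnt G x (k - 2) (st G v 2)) =
        ∑ v ∈ cyc G k, cw x v * (1 / cnt G x (k - 2) ⟨v 0, v 1, univ⟩) := by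
      unfold EE
      rw [mul_div_cancel₀ _ hN.ne']
      refine sum_congr rfl fun v _ => ?_
      show cw x v * (1 / cnt G x (k - 2) (st G v 2)) = _
      rw [st_two]
    rw [e1, bridge2 (by omega) (fun a b => 1 / cnt G x (k - 2) ⟨a, b, univ⟩),
      o1 (by omega) h 0 (fun a => wt x (nb G a)), mul_div_cancel₀ _ hk0.ne']
    refine sum_le_sum fun a _ => ?_
    rw [wt, mul_sum]
    refine sum_le_sum fun b _ => ?_
    rcases (cnt_nonneg (G := G) hx (k - 2) ⟨a, b, univ⟩).eq_or_lt with h0 | h0
    · rw [← h0]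
      simp only [mul_zero, zero_mul]
      exact mul_nonneg (hx a) (hx b)
    · rw [mul_assoc, mul_one_div_cancel h0.ne', mul_one]
  have h5 : NN G k x / (2 * k) * EE G k x (fun v => 1 / cnt G x (k - 2) (st G v 2)) ≤
      EE G k x (fun v => wt x (nb G (v 0))) / 2 := by
    rw [div_mul_eq_mul_div, div_le_iff₀ (by positivity)]
    linarith
  linarith

end Pool.Agent.Icy
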