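import Pool.Agent.Icy.T2cnt
import Pool.Agent.Icy.T2ent

/-!
# T2: the entropy bound of Král', Norin and Volec, with its defect

`log NN = EE log (NN/cnt_{k-2}(st v 2)) + EE log cnt_{k-2}(st v 2)`; `t2_first`, `t2_tele`, `t2_two` (`p = 2`),
`t2_step` (`p ≥ 3`), `log b ≤ b - 1` for `b = cnt_1 (st v (k-1)) = wt (sB ..)`, `t2_count`.
Number of `-1`: `1 + 1 + (k-4) + 1 = k - 1`.
-/

set_option autoImplicit false

open Finset
open scoped Classical

namespace Pool.Agent.Icy

variable {V : Type} [Fintype V] {G : SimpleGraph V} {k : ℕ} [NeZero k] {x : V → ℝ}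

theorem T2_main (hk : 7 ≤ k) (h : Opt G k x) :
    Real.log (NN G k x) ≤ Real.log (2 * k) + EE G k x (fun v => wt x (nb G (v 0))) / 2 - 1 +
      (Real.log 2 + EE G k x (fun v => wt x (sA G (st G v 2))) / 2 - 1 +
        ∑ p ∈ Icc 3 (k - 2), (EE G k x (fun v => wt x (sA G (st G v p))) - 1 - loss G k x p) +
        (EE G k x (fun v => wt x (sB G (st G v (k - 1)))) - 1)) := by
  have hN := h.NN_pos
  have hx0 : ∀ v, 0 ≤ x v := fun v => (h.pos v).le
  have e1 : Real.log (NN G k x) = EE G k x (fun v =>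
      Real.log (NN G k x / cnt G x (k - 2) (st G v 2)) +
        (∑ p ∈ Icc 2 (k - 2), (- Real.log (rho G k x p v (v (p : ZMod k)))) +
          Real.log (cnt G x 1 (st G v (k - 1))))) := by
    rw [← EE_const (G := G) (k := k) (x := x) hN.ne' (Real.log (NN G k x))]
    refine EE_congr fun v hv => ?_
    have hc := cnt_pos_cyc (G := G) (x := x) (by omega) h.pos hv (p := 2) le_rfl (by omega)
    have htele := t2_tele (G := G) (x := x) hk h.pos hv
    show Real.log (NN G k x) = _
    rw [← htele, Real.log_div hN.ne' hc.ne']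
    ring
  have e2 := EE_add (G := G) (k := k) (x := x)
    (fun v => Real.log (NN G k x / cnt G x (k - 2) (st G v 2)))
    (fun v => (∑ p ∈ Icc 2 (k - 2), (- Real.log (rho G k x p v (v (p : ZMod k)))) +
          Real.log (cnt G x 1 (st G v (k - 1)))))
  have e3 := EE_add (G := G) (k := k) (x := x)
    (fun v => ∑ p ∈ Icc 2 (k - 2), (- Real.log (rho G k x p v (v (p : ZMod k)))))
    (fun v => Real.log (cnt G x 1 (st G v (k - 1))))
  have e4 := EE_sum (G := G) (k := k) (x := x) (Icc 2 (k - 2))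
    (fun p v => - Real.log (rho G k x p v (v (p : ZMod k))))
  have e5 := t2_first (G := G) (x := x) hk h
  have e6 : ∑ p ∈ Icc 2 (k - 2), EE G k x (fun v => - Real.log (rho G k x p v (v (p : ZMod k)))) ≤
      Real.log 2 + EE G k x (fun v => wt x (sA G (st G v 2))) / 2 - 1 +
        ∑ p ∈ Icc 3 (k - 2), (EE G k x (fun v => wt x (sA G (st G v p))) - 1 - loss G k x p) := by
    have h2 : Icc 2 (k - 2) = insert 2 (Icc 3 (k - 2)) := by
      ext p; simp only [Finset.mem_Icc, Finset.mem_insert]; omega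
    rw [h2, Finset.sum_insert (by simp)]
    have h3 := t2_two (G := G) (x := x) hk h
    have h4 : EE G k x (fun v => - Real.log (rho G k x 2 v (v ((2 : ℕ) : ZMod k)))) =
        EE G k x (fun v => - Real.log (rho G k x 2 v (v 2))) := by
      rw [Nat.cast_ofNat]
    rw [h4]
    have h5 : ∑ p ∈ Icc 3 (k - 2), EE G k x (fun v => - Real.log (rho G k x p v (v (p : ZMod k)))) =
        ∑ p ∈ Icc 3 (k - 2), (EE G k x (fun v => wt x (sA G (st G v p))) - 1 - loss G k x p) := by
      refine Finset.sum_congr rfl fun p hp => ?_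
      rw [Finset.mem_Icc] at hp
      exact t2_step hk h (by omega) (by omega)
    rw [h5]
    linarith
  have e7 : EE G k x (fun v => Real.log (cnt G x 1 (st G v (k - 1)))) ≤
      EE G k x (fun v => wt x (sB G (st G v (k - 1)))) - 1 := by
    have h1 : EE G k x (fun v => Real.log (cnt G x 1 (st G v (k - 1)))) ≤
        EE G k x (fun v => wt x (sB G (st G v (k - 1))) - 1) := by
      refine EE_mono hx0 fun v hv => ?_
      have hc := cnt_pos_cyc (G := G) (x := x) (by omega) h.pos hv (p := k - 1) (by omega) (by omega)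
      rw [show k - (k - 1) = 1 by omega] at hc
      have h2 : cnt G x 1 (st G v (k - 1)) = wt x (sB G (st G v (k - 1))) := by simp only [cnt]
      rw [h2] at hc ⊢
      exact Real.log_le_sub_one_of_pos hc
    have h3 := EE_sub (G := G) (k := k) (x := x) (fun v => wt x (sB G (st G v (k - 1)))) (fun _ => 1)
    rw [EE_const (G := G) (k := k) (x := x) hN.ne' 1] at h3
    linarith
  rw [e1, e2, e3, e4]
  linarith

theorem t2 (hk : 7 ≤ k) (h : Opt G k x) :
    Real.log (NN G k x / (2 * k)) + ∑ p ∈ Icc 3 (k - 2), loss G k x p +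
      ((k : ℝ) - 1) / k * EE G k x (emp G x) ≤ Real.log 2 := by
  have hN := h.NN_pos
  have hk0 : (0 : ℝ) < k := by
    have : 0 < k := by omega
    exact_mod_cast this
  have h1 := T2_main (G := G) (x := x) hk h
  have h2 := t2_count (G := G) (x := x) hk h
  rw [Real.log_div hN.ne' (by positivity)]
  have h3 : ∑ p ∈ Icc 3 (k - 2), (EE G k x (fun v => wt x (sA G (st G v p))) - 1 - loss G k x p) =
      ∑ p ∈ Icc 3 (k - 2), EE G k x (fun v => wt x (sA G (st G v p))) - ((k : ℝ) - 4) -
        ∑ p ∈ Icc 3 (k - 2), loss G k x p := by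
    rw [Finset.sum_sub_distrib, Finset.sum_sub_distrib]
    have : ∑ p ∈ Icc 3 (k - 2), (1 : ℝ) = (k : ℝ) - 4 := by
      rw [Finset.sum_const, Nat.card_Icc, nsmul_eq_mul, mul_one]
      have : k - 2 + 1 - 3 = k - 4 := by omega
      rw [this, Nat.cast_sub (by omega)]
      norm_num
    rw [this]
  rw [h3] at h1
  linarith

theorem T2_loss_nonneg (h : Opt G k x) : 0 ≤ ∑ p ∈ Icc 3 (k - 2), loss G k x p :=
  Finset.sum_nonneg fun p _ => loss_nonneg (fun v => (h.pos v).le) p

theorem T2_emp_nonneg (h : Opt G k x) : 0 ≤ EE G k x (emp G x) :=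
  EE_nonneg (fun v => (h.pos v).le) fun v _ => Finset.sum_nonneg fun w _ => (h.pos w).le

theorem T2_log_nonneg (hk : 7 ≤ k) (h : Opt G k x) : 0 ≤ Real.log (NN G k x / (2 * k)) := by
  have hk0 : (0 : ℝ) < k := by
    have : 0 < k := by omega
    exact_mod_cast this
  apply Real.log_nonneg
  rw [le_div_iff₀ (by positivity)]
  linarith [h.one]

theorem NN_le (hk : 7 ≤ k) (h : Opt G k x) : NN G k x ≤ 4 * k := by
  have hN := h.NN_pos
  have hk0 : (0 : ℝ) < k := by
    have : 0 < k := by omega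
    exact_mod_cast this
  have h1 := t2 (G := G) (x := x) hk h
  have h2 := T2_loss_nonneg h
  have h3 := T2_emp_nonneg h
  have h4 : 0 ≤ ((k : ℝ) - 1) / k * EE G k x (emp G x) := by
    refine mul_nonneg (div_nonneg ?_ hk0.le) h3
    have : (1 : ℝ) ≤ k := by exact_mod_cast (by omega : 1 ≤ k)
    linarith
  have h5 : Real.log (NN G k x / (2 * k)) ≤ Real.log 2 := by linarith
  have h6 := (Real.log_le_log_iff (by positivity) (by norm_num)).mp h5
  rw [div_le_iff₀ (by positivity)] at h6
  linarith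

theorem loss_sum (hk : 7 ≤ k) (h : Opt G k x) :
    ∑ p ∈ Icc 3 (k - 2), loss G k x p ≤ Real.log 2 := by
  have hk0 : (0 : ℝ) < k := by
    have : 0 < k := by omega
    exact_mod_cast this
  have h1 := t2 (G := G) (x := x) hk h
  have h2 := T2_log_nonneg hk h
  have h3 := T2_emp_nonneg h
  have h4 : 0 ≤ ((k : ℝ) - 1) / k * EE G k x (emp G x) := by
    refine mul_nonneg (div_nonneg ?_ hk0.le) h3
    have : (1 : ℝ) ≤ k := by exact_mod_cast (by omega : 1 ≤ k)
    linarith
  linarith

theorem emp_le (hk : 7 ≤ k) (h : Opt G k x) : EE G k x (emp G x) ≤ 1 := by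
  have hk0 : (0 : ℝ) < k := by
    have : 0 < k := by omega
    exact_mod_cast this
  have hk7 : (7 : ℝ) ≤ k := by exact_mod_cast hk
  have h1 := t2 (G := G) (x := x) hk h
  have h2 := T2_log_nonneg hk h
  have h3 := T2_emp_nonneg h
  have h4 := T2_loss_nonneg h
  have h5 : (6 : ℝ) / 7 ≤ ((k : ℝ) - 1) / k := by
    rw [le_div_iff₀ hk0]; linarith
  have h6 := mul_le_mul_of_nonneg_right h5 h3
  have h7 := Real.log_two_lt_d9
  linarith

end Pool.Agent.Icy
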