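import Pool.Agent.Icy.Markov

/-!
# Definitions for T2
-/

set_option autoImplicit false

open Finset
open scoped Classical

namespace Pool.Agent.Icy

variable {V : Type} [Fintype V]

noncomputable def phi (t : ℝ) : ℝ := t * Real.log t - t + 1

noncomputable def loss (G : SimpleGraph V) (k : ℕ) [NeZero k] (x : V → ℝ) (p : ℕ) : ℝ :=
  EE G k x (fun v => ∑ z ∈ sA G (st G v p), x z * phi (rho G k x p v z))

/-- weight of the vertices without neighbours on the cycle -/
noncomputable def emp (G : SimpleGraph V) {k : ℕ} [NeZero k] (x : V → ℝ) (v : ZMod k → V) : ℝ :=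
  wt x (univ.filter (fun w => tr G v w = ∅))

end Pool.Agent.Icy
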