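import Mathlib

/-!
# Counting positions of a trace `R ⊆ ZMod k`

`fh R s p` : starting at `s`, the first element of `R` is met at position `p ≥ 1`
(`s + (p-1) ∈ R`, `s, …, s+p-2 ∉ R`).  `bp R s`: `s, s + (k-2) ∈ R` and `s+1, …, s+k-3 ∉ R`.

For `R ≠ ∅` every `s` has exactly one `p ∈ [1, k]` with `fh`.  Let `r = |R|`, `t` = number of `s ∉ R`
with `s + 1 ∈ R` (number of runs; `t ≥ 1` unless `R = univ`).  The sum is
`k - r/2 - t/2 - #{s : p(s) ≥ k-1} + #bp`.  `bp R s` implies `R = {s, s-2}` or `{s, s-1, s-2}`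
(`k ≥ 5`: only one `s`).
Cases: `R = univ`: `k/2`.  `#bp = 0`: `r, t ≥ 1` gives `≤ k - 1`.  `#bp = 1`: `R = {s-2, s}`: `r = t =
2`, sum `= k - 2 + 1`; `R = {s-2,s-1,s}`: `r = 3, t = 1`, same.
-/

set_option autoImplicit false

open Finset
open scoped Classical

namespace Pool.Agent.Icy

def fh {k : ℕ} (R : Finset (ZMod k)) (s : ZMod k) (p : ℕ) : Prop :=
  s + ((p - 1 : ℕ) : ZMod k) ∈ R ∧ ∀ i : ℕ, i + 1 < p → s + (i : ZMod k) ∉ R

def bp {k : ℕ} (R : Finset (ZMod k)) (s : ZMod k) : Prop :=
  s ∈ R ∧ s + ((k - 2 : ℕ) : ZMod k) ∈ R ∧ ∀ i : ℕ, 1 ≤ i → i + 2 < k → s + (i : ZMod k) ∉ R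

theorem TrCount_cast_ne {k : ℕ} (n : ℕ) (h0 : 0 < n) (hn : n < k) : (n : ZMod k) ≠ 0 := by
  intro h
  rw [ZMod.natCast_eq_zero_iff] at h
  exact absurd (Nat.le_of_dvd h0 h) (by omega)

theorem TrCount_pt {k : ℕ} [NeZero k] (R : Finset (ZMod k)) (s : ZMod k) :
    ((if fh R s 1 then (1 / 2 : ℝ) else 0) + (if fh R s 2 then (1 / 2 : ℝ) else 0) +
      (∑ p ∈ Icc 3 (k - 2), if fh R s p then (1 : ℝ) else 0) + (if bp R s then (1 : ℝ) else 0)) ≤
    1 - (1 / 2) * (if s ∈ R then (1 : ℝ) else 0) -
      (1 / 2) * (if s ∉ R ∧ s + 1 ∈ R then (1 : ℝ) else 0) + (if bp R s then (1 : ℝ) else 0) := by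
  have h1 : fh R s 1 ↔ s ∈ R := by simp [fh]
  have h2 : fh R s 2 ↔ (s + 1 ∈ R ∧ s ∉ R) := by
    unfold fh
    constructor
    · rintro ⟨a, b⟩
      exact ⟨by simpa using a, by simpa using b 0 (by norm_num)⟩
    · rintro ⟨a, b⟩
      refine ⟨by simpa using a, ?_⟩
      intro i hi
      have : i = 0 := by omega
      subst this
      simpa using b
  have h3 : (∑ p ∈ Icc 3 (k - 2), if fh R s p then (1 : ℝ) else 0) ≤
      if s ∈ R ∨ s + 1 ∈ R then 0 else 1 := by
    split_ifs with h
    · apply le_of_eq
      apply Finset.sum_eq_zero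
      intro p hp
      rw [Finset.mem_Icc] at hp
      rw [if_neg]
      rintro ⟨-, b⟩
      rcases h with h | h
      · exact b 0 (by omega) (by simpa using h)
      · exact b 1 (by omega) (by simpa using h)
    · rw [Finset.sum_boole]
      have : ((Icc 3 (k - 2)).filter (fun p => fh R s p)).card ≤ 1 := by
        rw [Finset.card_le_one]
        intro a ha b hb
        rw [mem_filter, mem_Icc] at ha hb
        by_contra hne
        rcases lt_or_gt_of_ne hne with hlt | hlt
        · exact hb.2.2 (a - 1) (by omega) ha.2.1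
        · exact ha.2.2 (b - 1) (by omega) hb.2.1
      exact_mod_cast this
  generalize (∑ p ∈ Icc 3 (k - 2), if fh R s p then (1 : ℝ) else 0) = A at h3 ⊢
  by_cases hs : s ∈ R <;> by_cases hs1 : s + 1 ∈ R <;> simp [h1, h2, hs, hs1] at h3 ⊢ <;> linarith

theorem TrCount_bp {k : ℕ} [NeZero k] (hk : 7 ≤ k) (R : Finset (ZMod k)) (s s' : ZMod k)
    (hs : bp R s) (hs' : bp R s') : s = s' := by
  by_contra hne
  have key : ∀ a b : ZMod k, a ≠ b → bp R a → bp R b → k ≤ (b - a).val + 2 := by
    intro a b hab ha hb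
    by_contra hlt
    push Not at hlt
    have h0 : (b - a).val ≠ 0 := by
      intro h
      rw [ZMod.val_eq_zero] at h
      exact hab (sub_eq_zero.1 h).symm
    have := ha.2.2 (b - a).val (by omega) hlt
    rw [ZMod.natCast_zmod_val, add_sub_cancel] at this
    exact this hb.1
  have h1 := key s s' hne hs hs'
  have h2 := key s' s (Ne.symm hne) hs' hs
  have h3 : (s - s').val + (s' - s).val = k := by
    have h0 : s - s' ≠ 0 := sub_ne_zero.2 hne
    have : NeZero (s - s') := ⟨h0⟩
    have h4 := ZMod.val_neg_of_ne_zero (s - s')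
    rw [neg_sub] at h4
    have h5 := ZMod.val_lt (s - s')
    omega
  omega

theorem TrCount_arith {k : ℕ} [NeZero k] (hk : 7 ≤ k) (R : Finset (ZMod k)) (hR : R ≠ ∅) :
    2 + 2 * (univ.filter (fun s : ZMod k => bp R s)).card ≤
      (univ.filter (fun s : ZMod k => s ∈ R)).card +
        (univ.filter (fun s : ZMod k => s ∉ R ∧ s + 1 ∈ R)).card := by
  have hbcard : (univ.filter (fun s : ZMod k => bp R s)).card ≤ 1 := by
    rw [Finset.card_le_one]
    intro a ha b hb
    rw [mem_filter] at ha hb
    exact TrCount_bp hk R a b ha.2 hb.2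
  have c1 : (1 : ZMod k) ≠ 0 := by
    have := TrCount_cast_ne (k := k) 1 (by norm_num) (by omega)
    simpa using this
  have c2 : (2 : ZMod k) ≠ 0 := by
    have := TrCount_cast_ne (k := k) 2 (by norm_num) (by omega)
    simpa using this
  by_cases hb : (univ.filter (fun s : ZMod k => bp R s)) = ∅
  · rw [hb, Finset.card_empty, mul_zero, add_zero]
    obtain ⟨y, hy⟩ := Finset.nonempty_iff_ne_empty.2 hR
    have hy1 : 1 ≤ (univ.filter (fun s : ZMod k => s ∈ R)).card :=
      Finset.card_pos.2 ⟨y, by simpa using hy⟩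
    by_cases hy2 : y - 1 ∈ R
    · have : 2 ≤ (univ.filter (fun s : ZMod k => s ∈ R)).card := by
        have hsub : ({y, y - 1} : Finset (ZMod k)) ⊆ univ.filter (fun s : ZMod k => s ∈ R) := by
          intro z hz
          rw [mem_insert, mem_singleton] at hz
          rcases hz with rfl | rfl
          · simpa using hy
          · simpa using hy2
        have hc : ({y, y - 1} : Finset (ZMod k)).card = 2 := by
          rw [Finset.card_pair]
          intro h
          apply c1
          linear_combination h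
        rw [← hc]
        exact Finset.card_le_card hsub
      omega
    · have : 1 ≤ (univ.filter (fun s : ZMod k => s ∉ R ∧ s + 1 ∈ R)).card :=
        Finset.card_pos.2 ⟨y - 1, by simp [hy2, hy]⟩
      omega
  · obtain ⟨s, hs⟩ := Finset.nonempty_iff_ne_empty.2 hb
    rw [mem_filter] at hs
    obtain ⟨-, hs1, hs2, hs3⟩ := hs
    have hk2 : s + ((k - 2 : ℕ) : ZMod k) = s - 2 := by
      have : ((k - 2 : ℕ) : ZMod k) = (k : ZMod k) - 2 := by
        rw [Nat.cast_sub (by omega)]; norm_num
      rw [this, ZMod.natCast_self]; ring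
    have hk3 : s + ((k - 3 : ℕ) : ZMod k) = s - 3 := by
      have : ((k - 3 : ℕ) : ZMod k) = (k : ZMod k) - 3 := by
        rw [Nat.cast_sub (by omega)]; norm_num
      rw [this, ZMod.natCast_self]; ring
    rw [hk2] at hs2
    have hs4 := hs3 (k - 3) (by omega) (by omega)
    rw [hk3] at hs4
    by_cases hy : s - 1 ∈ R
    · have h3 : 3 ≤ (univ.filter (fun s : ZMod k => s ∈ R)).card := by
        have hsub : ({s, s - 1, s - 2} : Finset (ZMod k)) ⊆
            univ.filter (fun s : ZMod k => s ∈ R) := by
          intro z hz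
          rw [mem_insert, mem_insert, mem_singleton] at hz
          rcases hz with rfl | rfl | rfl
          · simpa using hs1
          · simpa using hy
          · simpa using hs2
        have hc : ({s, s - 1, s - 2} : Finset (ZMod k)).card = 3 := by
          rw [Finset.card_eq_three]
          refine ⟨s, s - 1, s - 2, ?_, ?_, ?_, rfl⟩
          · intro h; apply c1; linear_combination h
          · intro h; apply c2; linear_combination h
          · intro h; apply c1; linear_combination h
        rw [← hc]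
        exact Finset.card_le_card hsub
      have h4 : 1 ≤ (univ.filter (fun s : ZMod k => s ∉ R ∧ s + 1 ∈ R)).card := by
        refine Finset.card_pos.2 ⟨s - 3, ?_⟩
        rw [mem_filter]
        refine ⟨mem_univ _, hs4, ?_⟩
        have : s - 3 + 1 = s - 2 := by ring
        rw [this]; exact hs2
      omega
    · have h3 : 2 ≤ (univ.filter (fun s : ZMod k => s ∈ R)).card := by
        have hsub : ({s, s - 2} : Finset (ZMod k)) ⊆
            univ.filter (fun s : ZMod k => s ∈ R) := by
          intro z hz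
          rw [mem_insert, mem_singleton] at hz
          rcases hz with rfl | rfl
          · simpa using hs1
          · simpa using hs2
        have hc : ({s, s - 2} : Finset (ZMod k)).card = 2 := by
          rw [Finset.card_pair]
          intro h; apply c2; linear_combination h
        rw [← hc]
        exact Finset.card_le_card hsub
      have h4 : 2 ≤ (univ.filter (fun s : ZMod k => s ∉ R ∧ s + 1 ∈ R)).card := by
        have hsub : ({s - 1, s - 3} : Finset (ZMod k)) ⊆
            univ.filter (fun s : ZMod k => s ∉ R ∧ s + 1 ∈ R) := by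
          intro z hz
          rw [mem_insert, mem_singleton] at hz
          rw [mem_filter]
          rcases hz with rfl | rfl
          · refine ⟨mem_univ _, hy, ?_⟩
            rw [sub_add_cancel]; exact hs1
          · refine ⟨mem_univ _, hs4, ?_⟩
            have : s - 3 + 1 = s - 2 := by ring
            rw [this]; exact hs2
        have hc : ({s - 1, s - 3} : Finset (ZMod k)).card = 2 := by
          rw [Finset.card_pair]
          intro h; apply c2; linear_combination h
        rw [← hc]
        exact Finset.card_le_card hsub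
      omega

theorem trcount {k : ℕ} [NeZero k] (hk : 7 ≤ k) (R : Finset (ZMod k)) :
    ∑ s : ZMod k, ((if fh R s 1 then (1 / 2 : ℝ) else 0) + (if fh R s 2 then (1 / 2 : ℝ) else 0) +
      (∑ p ∈ Icc 3 (k - 2), if fh R s p then (1 : ℝ) else 0) + (if bp R s then (1 : ℝ) else 0)) ≤
      if R = ∅ then 0 else (k : ℝ) - 1 := by
  by_cases hR : R = ∅
  · subst hR
    simp [fh, bp]
  rw [if_neg hR]
  have h1 := TrCount_arith hk R hR
  refine (Finset.sum_le_sum fun s _ => TrCount_pt R s).trans ?_
  rw [Finset.sum_add_distrib, Finset.sum_sub_distrib, Finset.sum_sub_distrib, ← Finset.mul_sum,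
    ← Finset.mul_sum, Finset.sum_boole, Finset.sum_boole, Finset.sum_boole, Finset.sum_const,
    Finset.card_univ, ZMod.card, nsmul_eq_mul, mul_one]
  have h2 : (2 : ℝ) + 2 * ((univ.filter (fun s : ZMod k => bp R s)).card : ℝ) ≤
      ((univ.filter (fun s : ZMod k => s ∈ R)).card : ℝ) +
        ((univ.filter (fun s : ZMod k => s ∉ R ∧ s + 1 ∈ R)).card : ℝ) := by
    exact_mod_cast h1
  linarith

end Pool.Agent.Icy
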