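import Pool.Agent.Icy.T2Defs
import Pool.Agent.Icy.O1
import Pool.Agent.Icy.TrCount

/-!
# T2, the counting part

By rotation (`EE_avg`) and exchange of sums: `k EE wt (sA (st v p)) = EE Σ_w x_w #{s : fh (tr v w) s p}`
(`w ∈ sA (st v' p)` for the rotation `v' i = v (i+s)` iff `fh (tr v w) s p`; `2 ≤ p`), similarly `nb (v 0)`:
`fh .. s 1`, and `sB (st v (k-1))`: `bp (tr v w) s`.  Then `trcount` and `Σ x = k`.
-/

set_option autoImplicit false

open Finset
open scoped Classical

namespace Pool.Agent.Icy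

variable {V : Type} [Fintype V] {G : SimpleGraph V} {k : ℕ} [NeZero k] {x : V → ℝ}

private theorem T2cnt_gen (S : (ZMod k → V) → Finset V) (P : Finset (ZMod k) → ZMod k → Prop)
    (h : ∀ (v : ZMod k → V) (t : ZMod k) (w : V),
      w ∈ S (fun i => v (i + t)) ↔ P (tr G v w) t) :
    (k : ℝ) * EE G k x (fun v => wt x (S v)) =
      EE G k x (fun v => ∑ w, x w * ∑ s : ZMod k, if P (tr G v w) s then 1 else 0) := by
  rw [EE_avg]
  refine EE_congr fun v _ => ?_
  have h1 : ∀ t : ZMod k, wt x (S (fun i => v (i + t))) =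
      ∑ w, x w * (if P (tr G v w) t then 1 else 0) := by
    intro t
    rw [wt]
    have h2 : S (fun i => v (i + t)) = univ.filter (fun w => P (tr G v w) t) := by
      ext w
      rw [h v t w]
      simp
    rw [h2, sum_filter]
    refine sum_congr rfl fun w _ => ?_
    split_ifs <;> simp
  simp_rw [h1]
  rw [sum_comm]
  refine sum_congr rfl fun w _ => ?_
  rw [mul_sum]

theorem EE_sA_eq {p : ℕ} (hp : 2 ≤ p) :
    (k : ℝ) * EE G k x (fun v => wt x (sA G (st G v p))) =
      EE G k x (fun v => ∑ w, x w * ∑ s : ZMod k, if fh (tr G v w) s p then 1 else 0) := by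
  refine T2cnt_gen (fun v => sA G (st G v p)) (fun R s => fh R s p) fun v t w => ?_
  rw [mem_sA_st _ hp]
  simp only [fh, tr, mem_filter, mem_univ, true_and, add_comm t]

theorem EE_nb_eq :
    (k : ℝ) * EE G k x (fun v => wt x (nb G (v 0))) =
      EE G k x (fun v => ∑ w, x w * ∑ s : ZMod k, if fh (tr G v w) s 1 then 1 else 0) := by
  refine T2cnt_gen (fun v => nb G (v 0)) (fun R s => fh R s 1) fun v t w => ?_
  simp [fh, tr, nb]

theorem EE_sB_eq (hk : 7 ≤ k) :
    (k : ℝ) * EE G k x (fun v => wt x (sB G (st G v (k - 1)))) =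
      EE G k x (fun v => ∑ w, x w * ∑ s : ZMod k, if bp (tr G v w) s then 1 else 0) := by
  refine T2cnt_gen (fun v => sB G (st G v (k - 1))) (fun R s => bp R s) fun v t w => ?_
  rw [mem_sB_st _ (by omega)]
  simp only [bp, tr, mem_filter, mem_univ, true_and, add_comm t, zero_add]
  have e : k - 1 - 1 = k - 2 := by omega
  rw [e]
  constructor
  · rintro ⟨h1, h2, h3⟩
    exact ⟨h2, h1, fun i hi hik => h3 i hi (by omega)⟩
  · rintro ⟨h1, h2, h3⟩
    exact ⟨h2, h1, fun i hi hik => h3 i hi (by omega)⟩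

theorem t2_count (hk : 7 ≤ k) (h : Opt G k x) :
    EE G k x (fun v => wt x (nb G (v 0))) / 2 + EE G k x (fun v => wt x (sA G (st G v 2))) / 2 +
      ∑ p ∈ Icc 3 (k - 2), EE G k x (fun v => wt x (sA G (st G v p))) +
      EE G k x (fun v => wt x (sB G (st G v (k - 1)))) ≤
      ((k : ℝ) - 1) - ((k : ℝ) - 1) / k * EE G k x (emp G x) := by
  have hx : ∀ v, 0 ≤ x v := fun v => (h.pos v).le
  have hk0 : (0 : ℝ) < k := by
    have : 0 < k := by omega
    exact_mod_cast this
  set N : ℕ → (ZMod k → V) → ℝ := fun p v =>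
    ∑ w, x w * ∑ s : ZMod k, if fh (tr G v w) s p then 1 else 0 with hN
  set M : (ZMod k → V) → ℝ := fun v =>
    ∑ w, x w * ∑ s : ZMod k, if bp (tr G v w) s then 1 else 0 with hM
  have e1 : (k : ℝ) * EE G k x (fun v => wt x (nb G (v 0))) = EE G k x (N 1) := EE_nb_eq
  have e2 : ∀ p, 2 ≤ p → (k : ℝ) * EE G k x (fun v => wt x (sA G (st G v p))) = EE G k x (N p) :=
    fun p hp => EE_sA_eq hp
  have e3 : (k : ℝ) * EE G k x (fun v => wt x (sB G (st G v (k - 1)))) = EE G k x M := EE_sB_eq hk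
  have hpt : ∀ v ∈ cyc G k, (1 / 2) * N 1 v + (1 / 2) * N 2 v + (∑ p ∈ Icc 3 (k - 2), N p v) + M v
      ≤ ((k : ℝ) - 1) * k - ((k : ℝ) - 1) * emp G x v := by
    intro v _
    have h1 : (1 / 2) * N 1 v + (1 / 2) * N 2 v + (∑ p ∈ Icc 3 (k - 2), N p v) + M v =
        ∑ w, x w * ∑ s : ZMod k, ((if fh (tr G v w) s 1 then (1 / 2 : ℝ) else 0) +
          (if fh (tr G v w) s 2 then (1 / 2 : ℝ) else 0) +
          (∑ p ∈ Icc 3 (k - 2), if fh (tr G v w) s p then (1 : ℝ) else 0) +
          (if bp (tr G v w) s then (1 : ℝ) else 0)) := by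
      simp only [hN, hM]
      rw [sum_comm, mul_sum, mul_sum, ← sum_add_distrib, ← sum_add_distrib, ← sum_add_distrib]
      refine sum_congr rfl fun w _ => ?_
      rw [← mul_sum, sum_comm, sum_add_distrib, sum_add_distrib, sum_add_distrib, mul_add, mul_add,
        mul_add]
      congr 3
      · rw [mul_left_comm, mul_sum]
        congr 1
        refine sum_congr rfl fun s _ => ?_
        split_ifs <;> simp
      · rw [mul_left_comm, mul_sum]
        congr 1
        refine sum_congr rfl fun s _ => ?_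
        split_ifs <;> simp
    rw [h1]
    have h2 : ∑ w, x w * (∑ s : ZMod k, ((if fh (tr G v w) s 1 then (1 / 2 : ℝ) else 0) +
          (if fh (tr G v w) s 2 then (1 / 2 : ℝ) else 0) +
          (∑ p ∈ Icc 3 (k - 2), if fh (tr G v w) s p then (1 : ℝ) else 0) +
          (if bp (tr G v w) s then (1 : ℝ) else 0))) ≤
        ∑ w, x w * (if tr G v w = ∅ then 0 else (k : ℝ) - 1) :=
      sum_le_sum fun w _ => mul_le_mul_of_nonneg_left (trcount hk _) (hx w)
    refine h2.trans (le_of_eq ?_)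
    have h3 : ∀ w, x w * (if tr G v w = ∅ then 0 else (k : ℝ) - 1) =
        ((k : ℝ) - 1) * x w - ((k : ℝ) - 1) * (if tr G v w = ∅ then x w else 0) := by
      intro w
      split_ifs <;> ring
    simp_rw [h3]
    rw [sum_sub_distrib, ← mul_sum, ← mul_sum, h.sum, emp, wt, sum_filter]
  have h4 := EE_mono (G := G) (k := k) (x := x) hx hpt
  rw [EE_add, EE_add, EE_add, EE_mul, EE_mul, EE_sum (Icc 3 (k - 2)) N, EE_sub, EE_const h.NN_pos.ne', EE_mul] at h4
  have e4 : ∑ p ∈ Icc 3 (k - 2), EE G k x (N p) =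
      k * ∑ p ∈ Icc 3 (k - 2), EE G k x (fun v => wt x (sA G (st G v p))) := by
    rw [mul_sum]
    refine sum_congr rfl fun p hp => ?_
    rw [e2 p (by
      have := (mem_Icc.1 hp).1
      omega)]
  rw [← e1, ← e2 2 (le_refl 2), ← e3, e4] at h4
  have h5 : (k : ℝ) * (EE G k x (fun v => wt x (nb G (v 0))) / 2 +
      EE G k x (fun v => wt x (sA G (st G v 2))) / 2 +
      ∑ p ∈ Icc 3 (k - 2), EE G k x (fun v => wt x (sA G (st G v p))) +
      EE G k x (fun v => wt x (sB G (st G v (k - 1))))) ≤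
      k * (((k : ℝ) - 1) - ((k : ℝ) - 1) / k * EE G k x (emp G x)) := by
    have e5 : (k : ℝ) * (((k : ℝ) - 1) - ((k : ℝ) - 1) / k * EE G k x (emp G x)) =
        ((k : ℝ) - 1) * k - ((k : ℝ) - 1) * EE G k x (emp G x) := by
      field_simp
    rw [e5]
    linarith
  exact le_of_mul_le_mul_left h5 hk0

end Pool.Agent.Icy
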