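import Pool.Agent.Icy.Rev
import Pool.Agent.Icy.BB

/-!
# Definitions for T4
-/

set_option autoImplicit false

open Finset
open scoped Classical

namespace Pool.Agent.Icy

variable {V : Type} [Fintype V] {G : SimpleGraph V} {k : ℕ} [NeZero k] {x : V → ℝ}

/-- `EE Σ_{w ∈ sA(st v p)} x_w wt {y ∈ N(step (st v p) w) : y ≁ v p}` -/
noncomputable def extI (G : SimpleGraph V) (k : ℕ) [NeZero k] (x : V → ℝ) (p : ℕ) : ℝ :=
  EE G k x (fun v => ∑ w ∈ sA G (st G v p),
    x w * wt x (nnin G (sN G (step G (st G v p) w)) (v (p : ZMod k))))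

/-- good ghosts after `w`: `wt (sN (step (step s w) y))` is about `1` -/
noncomputable def Qg {V : Type} (G : SimpleGraph V) (x : V → ℝ) (δ : ℝ) (s : St V) (w : V) :
    Finset V :=
  (sA G (step G s w)).filter (fun y => |wt x (sN G (step G (step G s w) y)) - 1| ≤ δ)

/-- the main part of `extI` -/
noncomputable def extG (G : SimpleGraph V) (k : ℕ) [NeZero k] (x : V → ℝ) (δ : ℝ) (p : ℕ) : ℝ :=
  EE G k x (fun v => ∑ w ∈ sA G (st G v p), if |wt x (sN G (st G v p)) - 1| ≤ δ ∧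
    |wt x (sN G (step G (st G v p) w)) - 1| ≤ δ then
      x w * wt x (nnin G (Qg G x δ (st G v p) w) (v (p : ZMod k))) else 0)

/-- the bound for the second moment -/
noncomputable def Mp (G : SimpleGraph V) (k : ℕ) [NeZero k] (x : V → ℝ) (δ δ' : ℝ) (S p : ℕ) : ℝ :=
  2 * (36 * (20 * δ + δ') + (14 + 1 / δ') * (2 * (rev G k x S p +
    6 * ∑ i ∈ range S, (badP G k x δ (p + i + 2) + ee G k x (p + i + 1))) +
    36 * ∑ i ∈ range S, (ee G k x (p + i) + bb G k x (p + i))))

end Pool.Agent.Icy
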