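import Pool.Agent.Icy.T4pt

/-!
# T4: `Σ_{p ∈ Mid} extI p ≤ η k` for `k ≥ k₀(η)`

Sum `t4left` + `t4pt` over `p ∈ Icc (k/3) (2k/3)`; `Σ √(6 Mp) ≤ √(k · 6 Σ Mp)` (at most `k` terms).  With
`ee_sum`, `bb_sum`, `badP ≤ (ee + bb)/δ`, every sum of `ee`, `bb`, `badP` over a shifted window is
`≤ C(δ) √k`, so `Σ Mp ≤ 72 (20δ+δ') k + 4 (14+1/δ') Σ rev + C(δ,δ',S) √k` and
`Σ rev ≤ 78 + 18√k + √(273 k EE farm)`, `EE farm ≤ k √(7/(S-2))` (`far_tail`).
Choose `δ, δ'` small, then `S` large, then `k₀`.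
-/

set_option autoImplicit false

open Finset
open scoped Classical

namespace Pool.Agent.Icy

theorem T4avg_far (η : ℝ) (hη : 0 < η) : ∃ S k₀ : ℕ, 4 ≤ S ∧ ∀ (V : Type) [Fintype V]
    (G : SimpleGraph V) (k : ℕ) [NeZero k] (x : V → ℝ), k₀ ≤ k → Opt G k x →
    EE G k x (farm G x S) ≤ η * k := by
  obtain ⟨N, hN⟩ := exists_nat_ge (7 / η ^ 2)
  refine ⟨N + 4, 2 * (N + 4) + 7, by omega, ?_⟩
  intro V _ G k _ x hk h
  have h1 := far_tail (by omega) h (S := N + 4) (by omega) (by omega)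
  have hk0 : (0 : ℝ) < k := by
    have : 0 < k := by omega
    exact_mod_cast this
  have hη2 : 0 < η ^ 2 := by positivity
  have hN' : 7 ≤ (N : ℝ) * η ^ 2 := by
    rw [div_le_iff₀ hη2] at hN
    exact hN
  set q := EE G k x (farm G x (N + 4)) / k with hq
  have h2 : (((N + 4 : ℕ) : ℝ) - 2) * q ^ 2 ≤ ((N + 4 : ℕ) - 2 : ℝ) * η ^ 2 := by
    refine h1.trans ?_
    push_cast
    nlinarith
  have h3 : (0 : ℝ) < ((N + 4 : ℕ) : ℝ) - 2 := by
    push_cast
    have : (0 : ℝ) ≤ N := Nat.cast_nonneg N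
    linarith
  have h4 : q ^ 2 ≤ η ^ 2 := le_of_mul_le_mul_left h2 h3
  have h5 : q ≤ η := by
    by_contra hcon
    rw [not_le] at hcon
    nlinarith
  rw [hq, div_le_iff₀ hk0] at h5
  exact h5

theorem T4avg_shift (f : ℕ → ℝ) (hf : ∀ p, 0 ≤ f p) {k a : ℕ} (h1 : 3 ≤ k / 3 + a)
    (h2 : 2 * k / 3 + a ≤ k - 2) :
    ∑ p ∈ Icc (k / 3) (2 * k / 3), f (p + a) ≤ ∑ p ∈ Icc 3 (k - 2), f p := by
  have h3 : ∑ p ∈ Icc (k / 3) (2 * k / 3), f (p + a)
      = ∑ q ∈ (Icc (k / 3) (2 * k / 3)).image (fun p => p + a), f q := by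
    rw [Finset.sum_image]
    intro x _ y _ hxy
    simpa using hxy
  rw [h3]
  refine Finset.sum_le_sum_of_subset_of_nonneg ?_ (fun i _ _ => hf i)
  intro q hq
  obtain ⟨p, hp, rfl⟩ := Finset.mem_image.1 hq
  rw [Finset.mem_Icc] at hp ⊢
  omega

section

variable {V : Type} [Fintype V] {G : SimpleGraph V} {k : ℕ} [NeZero k] {x : V → ℝ}

theorem T4avg_badP_nonneg (hx : ∀ v, 0 ≤ x v) (δ : ℝ) (p : ℕ) : 0 ≤ badP G k x δ p := by
  refine EE_nonneg hx fun v _ => ?_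
  split_ifs <;> norm_num

theorem T4avg_ee (hk : 100 ≤ k) (h : Opt G k x) {a : ℕ} (ha : 2 * k / 3 + a ≤ k - 2) :
    ∑ p ∈ Icc (k / 3) (2 * k / 3), ee G k x (p + a) ≤ 3 * Real.sqrt k :=
  (T4avg_shift (fun p => ee G k x p) (fun p => ee_nonneg (fun v => (h.pos v).le) p)
    (by omega) ha).trans (ee_sum (by omega) h)

theorem T4avg_bb (hk : 100 ≤ k) (h : Opt G k x) {a : ℕ} (ha : 2 * k / 3 + a ≤ k - 2) :
    ∑ p ∈ Icc (k / 3) (2 * k / 3), bb G k x (p + a) ≤ 6 :=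
  (T4avg_shift (fun p => bb G k x p) (fun p => bb_nonneg (fun v => (h.pos v).le) p)
    (by omega) ha).trans (bb_sum (by omega) h)

theorem T4avg_badP (hk : 100 ≤ k) (h : Opt G k x) {δ : ℝ} (hδ : 0 < δ) {a : ℕ}
    (ha : 2 * k / 3 + a ≤ k - 2) :
    ∑ p ∈ Icc (k / 3) (2 * k / 3), badP G k x δ (p + a) ≤ (3 * Real.sqrt k + 6) / δ := by
  have h1 : ∑ p ∈ Icc (k / 3) (2 * k / 3), badP G k x δ (p + a)
      ≤ ∑ p ∈ Icc (k / 3) (2 * k / 3), (ee G k x (p + a) + bb G k x (p + a)) / δ := by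
    refine Finset.sum_le_sum fun p hp => ?_
    rw [Finset.mem_Icc] at hp
    exact badP_le (by omega) h hδ (by omega) (by omega)
  refine h1.trans ?_
  rw [← Finset.sum_div, Finset.sum_add_distrib]
  exact div_le_div_of_nonneg_right (add_le_add (T4avg_ee hk h ha) (T4avg_bb hk h ha)) hδ.le

omit [NeZero k] in
/-- swap the sums -/
theorem T4avg_dbl {S : ℕ} (F : ℕ → ℕ → ℝ) (M : ℝ)
    (hF : ∀ i < S, ∑ p ∈ Icc (k / 3) (2 * k / 3), F p i ≤ M) :
    ∑ p ∈ Icc (k / 3) (2 * k / 3), ∑ i ∈ range S, F p i ≤ S * M := by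
  rw [Finset.sum_comm]
  calc ∑ i ∈ range S, ∑ p ∈ Icc (k / 3) (2 * k / 3), F p i
      ≤ ∑ _i ∈ range S, M := Finset.sum_le_sum fun i hi => hF i (Finset.mem_range.1 hi)
    _ = S * M := by rw [Finset.sum_const, card_range, nsmul_eq_mul]

theorem T4avg_Mp_nonneg (hx : ∀ v, 0 ≤ x v) {δ δ' : ℝ} (hδ : 0 < δ) (hδ' : 0 < δ') (S p : ℕ) :
    0 ≤ Mp G k x δ δ' S p := by
  unfold Mp
  have h1 := rev_nonneg (G := G) (k := k) hx S p
  have h2 : 0 ≤ ∑ i ∈ range S, (badP G k x δ (p + i + 2) + ee G k x (p + i + 1)) :=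
    Finset.sum_nonneg fun i _ => add_nonneg (T4avg_badP_nonneg hx _ _) (ee_nonneg hx _)
  have h3 : 0 ≤ ∑ i ∈ range S, (ee G k x (p + i) + bb G k x (p + i)) :=
    Finset.sum_nonneg fun i _ => add_nonneg (ee_nonneg hx _) (bb_nonneg hx _)
  have h4 : 0 ≤ 36 * (20 * δ + δ') := by positivity
  have h5 : 0 ≤ 14 + 1 / δ' := by positivity
  refine mul_nonneg (by norm_num) (add_nonneg h4 (mul_nonneg h5 (add_nonneg ?_ ?_)))
  · exact mul_nonneg (by norm_num) (add_nonneg h1 (mul_nonneg (by norm_num) h2))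
  · exact mul_nonneg (by norm_num) h3

theorem T4avg_Mp_sum (hk : 100 ≤ k) (h : Opt G k x) {S : ℕ} (hS : 3 ≤ S)
    (hSk : 3 * S + 12 ≤ k) {δ : ℝ} (hδ : 0 < δ) :
    ∑ p ∈ Icc (k / 3) (2 * k / 3), Mp G k x δ δ S p ≤
      2 * (36 * (21 * δ) * k + (14 + 1 / δ) * (2 * (78 + 18 * Real.sqrt k +
        Real.sqrt (273 * k * EE G k x (farm G x S)) + 6 * (S * ((3 * Real.sqrt k + 6) / δ +
          3 * Real.sqrt k))) + 36 * (S * (3 * Real.sqrt k + 6)))) := by
  have hx : ∀ v, 0 ≤ x v := fun v => (h.pos v).le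
  have hcard : ((Icc (k / 3) (2 * k / 3)).card : ℝ) ≤ k := by
    have : (Icc (k / 3) (2 * k / 3)).card ≤ k := by
      rw [Nat.card_Icc]; omega
    exact_mod_cast this
  have e1 : ∑ p ∈ Icc (k / 3) (2 * k / 3), Mp G k x δ δ S p =
      2 * (36 * (21 * δ) * (Icc (k / 3) (2 * k / 3)).card + (14 + 1 / δ) *
        (2 * (∑ p ∈ Icc (k / 3) (2 * k / 3), rev G k x S p + 6 *
          ∑ p ∈ Icc (k / 3) (2 * k / 3), ∑ i ∈ range S,
            (badP G k x δ (p + i + 2) + ee G k x (p + i + 1))) +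
          36 * ∑ p ∈ Icc (k / 3) (2 * k / 3), ∑ i ∈ range S,
            (ee G k x (p + i) + bb G k x (p + i)))) := by
    unfold Mp
    rw [← Finset.mul_sum, Finset.sum_add_distrib, Finset.sum_const, nsmul_eq_mul,
      ← Finset.mul_sum, Finset.sum_add_distrib, ← Finset.mul_sum, Finset.sum_add_distrib,
      ← Finset.mul_sum, ← Finset.mul_sum]
    ring
  rw [e1]
  have b1 := rev_sum hk h hS (by omega)
  have b2 : ∑ p ∈ Icc (k / 3) (2 * k / 3), ∑ i ∈ range S,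
      (badP G k x δ (p + i + 2) + ee G k x (p + i + 1)) ≤
        S * ((3 * Real.sqrt k + 6) / δ + 3 * Real.sqrt k) := by
    refine T4avg_dbl _ _ fun i hi => ?_
    rw [Finset.sum_add_distrib]
    have c1 := T4avg_badP hk h hδ (a := i + 2) (by omega)
    have c2 := T4avg_ee hk h (a := i + 1) (by omega)
    simp only [← add_assoc] at c1 c2
    exact add_le_add c1 c2
  have b3 : ∑ p ∈ Icc (k / 3) (2 * k / 3), ∑ i ∈ range S,
      (ee G k x (p + i) + bb G k x (p + i)) ≤ S * (3 * Real.sqrt k + 6) := by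
    refine T4avg_dbl _ _ fun i hi => ?_
    rw [Finset.sum_add_distrib]
    exact add_le_add (T4avg_ee hk h (by omega)) (T4avg_bb hk h (by omega))
  have hpos : (0 : ℝ) < 14 + 1 / δ := by positivity
  have hc : 36 * (21 * δ) * ((Icc (k / 3) (2 * k / 3)).card : ℝ) ≤ 36 * (21 * δ) * k :=
    mul_le_mul_of_nonneg_left hcard (by positivity)
  have hin : 2 * (∑ p ∈ Icc (k / 3) (2 * k / 3), rev G k x S p + 6 *
          ∑ p ∈ Icc (k / 3) (2 * k / 3), ∑ i ∈ range S,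
            (badP G k x δ (p + i + 2) + ee G k x (p + i + 1))) +
          36 * ∑ p ∈ Icc (k / 3) (2 * k / 3), ∑ i ∈ range S,
            (ee G k x (p + i) + bb G k x (p + i)) ≤
      2 * (78 + 18 * Real.sqrt k +
        Real.sqrt (273 * k * EE G k x (farm G x S)) + 6 * (S * ((3 * Real.sqrt k + 6) / δ +
          3 * Real.sqrt k))) + 36 * (S * (3 * Real.sqrt k + 6)) := by
    linarith
  have := mul_le_mul_of_nonneg_left hin hpos.le
  linarith

theorem T4avg_left (hk : 100 ≤ k) (h : Opt G k x) {S : ℕ} (hS : 3 ≤ S)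
    (hSk : 3 * S + 12 ≤ k) {δ lam : ℝ} (hδ : 0 < δ) (hδ4 : δ ≤ 1 / 4) (hl : 0 < lam) :
    ∑ p ∈ Icc (k / 3) (2 * k / 3), extI G k x p ≤
      (6 * ∑ p ∈ Icc (k / 3) (2 * k / 3), Mp G k x δ δ S p) / (2 * lam) + lam / 2 * k +
        43 * ((3 * Real.sqrt k + 6) / δ) + 6 + 57 * Real.sqrt k := by
  have hx : ∀ v, 0 ≤ x v := fun v => (h.pos v).le
  have hcard : ((Icc (k / 3) (2 * k / 3)).card : ℝ) ≤ k := by
    have : (Icc (k / 3) (2 * k / 3)).card ≤ k := by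
      rw [Nat.card_Icc]; omega
    exact_mod_cast this
  have h1 : ∑ p ∈ Icc (k / 3) (2 * k / 3), extI G k x p ≤
      ∑ p ∈ Icc (k / 3) (2 * k / 3), ((6 * Mp G k x δ δ S p) / (2 * lam) + lam / 2 +
        36 * badP G k x δ (p + 0) + 6 * badP G k x δ (p + 1) + badP G k x δ (p + 2) +
        bb G k x (p + 1) + 18 * ee G k x (p + 0) + ee G k x (p + 1)) := by
    refine Finset.sum_le_sum fun p hp => ?_
    rw [Finset.mem_Icc] at hp
    have a1 := t4left (by omega : 7 ≤ k) h (p := p) (by omega) (by omega) hδ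
    have a2 := t4pt (by omega : 7 ≤ k) h (p := p) (S := S) (by omega) (by omega) (by omega)
      hδ hδ4 hδ
    have a3 : Real.sqrt (6 * Mp G k x δ δ S p) ≤ (6 * Mp G k x δ δ S p) / (2 * lam) + lam / 2 := by
      have hM : 0 ≤ 6 * Mp G k x δ δ S p := by
        have := T4avg_Mp_nonneg (G := G) (k := k) hx hδ hδ S p
        positivity
      have hs := Real.sq_sqrt hM
      set t := Real.sqrt (6 * Mp G k x δ δ S p) with ht
      rw [← hs]
      have : t ^ 2 / (2 * lam) + lam / 2 - t = (t - lam) ^ 2 / (2 * lam) := by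
        field_simp
        ring
      have h0 : 0 ≤ (t - lam) ^ 2 / (2 * lam) := by positivity
      linarith
    rw [add_zero]
    linarith
  refine h1.trans ?_
  have c0 := T4avg_badP hk h hδ (a := 0) (by omega)
  have c1 := T4avg_badP hk h hδ (a := 1) (by omega)
  have c2 := T4avg_badP hk h hδ (a := 2) (by omega)
  have d1 := T4avg_bb hk h (a := 1) (by omega)
  have f0 := T4avg_ee hk h (a := 0) (by omega)
  have f1 := T4avg_ee hk h (a := 1) (by omega)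
  have hl2 : lam / 2 * ((Icc (k / 3) (2 * k / 3)).card : ℝ) ≤ lam / 2 * k :=
    mul_le_mul_of_nonneg_left hcard (by positivity)
  have e : ∑ p ∈ Icc (k / 3) (2 * k / 3), ((6 * Mp G k x δ δ S p) / (2 * lam) + lam / 2 +
        36 * badP G k x δ (p + 0) + 6 * badP G k x δ (p + 1) + badP G k x δ (p + 2) +
        bb G k x (p + 1) + 18 * ee G k x (p + 0) + ee G k x (p + 1)) =
      (6 * ∑ p ∈ Icc (k / 3) (2 * k / 3), Mp G k x δ δ S p) / (2 * lam) +
        lam / 2 * (Icc (k / 3) (2 * k / 3)).card +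
        36 * ∑ p ∈ Icc (k / 3) (2 * k / 3), badP G k x δ (p + 0) +
        6 * ∑ p ∈ Icc (k / 3) (2 * k / 3), badP G k x δ (p + 1) +
        ∑ p ∈ Icc (k / 3) (2 * k / 3), badP G k x δ (p + 2) +
        ∑ p ∈ Icc (k / 3) (2 * k / 3), bb G k x (p + 1) +
        18 * ∑ p ∈ Icc (k / 3) (2 * k / 3), ee G k x (p + 0) +
        ∑ p ∈ Icc (k / 3) (2 * k / 3), ee G k x (p + 1) := by
    simp only [Finset.sum_add_distrib, Finset.mul_sum, Finset.sum_div, Finset.sum_const,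
      nsmul_eq_mul]
    ring
  rw [e]
  linarith

end

theorem T4avg_final {sk k δ S lam τ : ℝ} (hsk : 1 ≤ sk) (hk : k = sk * sk) (hδ : 0 < δ)
    (hS : 0 ≤ S) (hl : 0 < lam) (h1 : 6 * 1512 * δ ≤ lam ^ 2 / 3)
    (h2 : 24 * (14 + 1 / δ) * τ ≤ lam ^ 2 / 3)
    (h3 : 12 * (14 + 1 / δ) * (192 + 12 * S * (9 / δ + 3) + 324 * S) ≤ lam ^ 2 / 3 * sk)
    (h4 : 387 / δ + 63 ≤ lam * sk) :
    (6 * (2 * (36 * (21 * δ) * k + (14 + 1 / δ) * (2 * (78 + 18 * sk +
        τ * k + 6 * (S * ((3 * sk + 6) / δ +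
          3 * sk))) + 36 * (S * (3 * sk + 6)))))) / (2 * lam) + lam / 2 * k +
        43 * ((3 * sk + 6) / δ) + 6 + 57 * sk ≤ 2 * lam * k := by
  have hsk0 : 0 < sk := by linarith
  have hk0 : 0 < k := by rw [hk]; positivity
  have hD : 0 < 14 + 1 / δ := by positivity
  have hd : 0 < 1 / δ := by positivity
  have g1 : (3 * sk + 6) / δ ≤ 9 / δ * sk := by
    rw [div_mul_eq_mul_div]
    exact div_le_div_of_nonneg_right (by linarith) hδ.le
  have g2 : 2 * (78 + 18 * sk + τ * k + 6 * (S * ((3 * sk + 6) / δ + 3 * sk))) +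
      36 * (S * (3 * sk + 6)) ≤ 2 * τ * k + sk * (192 + 12 * S * (9 / δ + 3) + 324 * S) := by
    have q1 : S * ((3 * sk + 6) / δ + 3 * sk) ≤ S * (9 / δ * sk + 3 * sk) :=
      mul_le_mul_of_nonneg_left (by linarith) hS
    have q2 : S * (3 * sk + 6) ≤ S * (9 * sk) := mul_le_mul_of_nonneg_left (by linarith) hS
    nlinarith
  have g3 : 6 * (2 * (36 * (21 * δ) * k + (14 + 1 / δ) * (2 * (78 + 18 * sk +
        τ * k + 6 * (S * ((3 * sk + 6) / δ + 3 * sk))) + 36 * (S * (3 * sk + 6))))) ≤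
      lam ^ 2 * k := by
    have q1 := mul_le_mul_of_nonneg_left g2 hD.le
    have q2 := mul_le_mul_of_nonneg_right h1 hk0.le
    have q3 := mul_le_mul_of_nonneg_right h2 hk0.le
    have q4 := mul_le_mul_of_nonneg_right h3 hsk0.le
    have q5 : lam ^ 2 / 3 * sk * sk = lam ^ 2 / 3 * k := by rw [hk]; ring
    nlinarith
  have g4 : (6 * (2 * (36 * (21 * δ) * k + (14 + 1 / δ) * (2 * (78 + 18 * sk +
        τ * k + 6 * (S * ((3 * sk + 6) / δ +
          3 * sk))) + 36 * (S * (3 * sk + 6)))))) / (2 * lam) ≤ lam / 2 * k := by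
    rw [div_le_iff₀ (by positivity)]
    nlinarith
  have g5 : 43 * ((3 * sk + 6) / δ) + 6 + 57 * sk ≤ lam * k := by
    have q1 := mul_le_mul_of_nonneg_right h4 hsk0.le
    have q2 : 387 / δ = 43 * (9 / δ) := by ring
    rw [q2] at q1
    have q5 : lam * sk * sk = lam * k := by rw [hk]; ring
    nlinarith
  linarith

theorem t4 (η : ℝ) (hη : 0 < η) : ∃ k₀ : ℕ, ∀ (V : Type) [Fintype V] (G : SimpleGraph V) (k : ℕ)
    [NeZero k] (x : V → ℝ), k₀ ≤ k → Opt G k x →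
    ∑ p ∈ Icc (k / 3) (2 * k / 3), extI G k x p ≤ η * k := by
  set lam := η / 2 with hlam
  have hl : 0 < lam := by positivity
  set δ := min (1 / 4) (lam ^ 2 / 3 / (6 * 1512)) with hδdef
  have hδ : 0 < δ := lt_min (by norm_num) (by positivity)
  have hδ4 : δ ≤ 1 / 4 := min_le_left _ _
  have h1 : 6 * 1512 * δ ≤ lam ^ 2 / 3 := by
    have : δ ≤ lam ^ 2 / 3 / (6 * 1512) := min_le_right _ _
    rw [le_div_iff₀ (by norm_num)] at this
    linarith
  set τ := lam ^ 2 / 3 / (24 * (14 + 1 / δ)) with hτ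
  have hD : 0 < 24 * (14 + 1 / δ) := by positivity
  have hτ0 : 0 < τ := by positivity
  have h2 : 24 * (14 + 1 / δ) * τ ≤ lam ^ 2 / 3 := by
    rw [hτ, mul_div_cancel₀ _ hD.ne']
  obtain ⟨S, k1, hS, hfar⟩ := T4avg_far (τ ^ 2 / 273) (by positivity)
  obtain ⟨M, hM⟩ := exists_nat_ge (max 1 (max (12 * (14 + 1 / δ) *
    (192 + 12 * S * (9 / δ + 3) + 324 * S) / (lam ^ 2 / 3)) ((387 / δ + 63) / lam)))
  refine ⟨max k1 (max (3 * S + 100) (M ^ 2)), ?_⟩
  intro V _ G k _ x hk h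
  have hk1 : k1 ≤ k := (le_max_left _ _).trans hk
  have hk2 : 3 * S + 100 ≤ k := (le_max_left _ _).trans ((le_max_right _ _).trans hk)
  have hk3 : M ^ 2 ≤ k := (le_max_right _ _).trans ((le_max_right _ _).trans hk)
  have hsk : (M : ℝ) ≤ Real.sqrt k := by
    apply Real.le_sqrt_of_sq_le
    exact_mod_cast hk3
  have hM1 : (1 : ℝ) ≤ M := (le_max_left _ _).trans hM
  have hM2 := (le_max_left _ _).trans ((le_max_right _ _).trans hM)
  have hM3 := (le_max_right _ _).trans ((le_max_right _ _).trans hM)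
  have hkk : (k : ℝ) = Real.sqrt k * Real.sqrt k := (Real.mul_self_sqrt (Nat.cast_nonneg k)).symm
  have h3 : 12 * (14 + 1 / δ) * (192 + 12 * S * (9 / δ + 3) + 324 * S) ≤
      lam ^ 2 / 3 * Real.sqrt k := by
    rw [div_le_iff₀ (by positivity)] at hM2
    calc _ ≤ (M : ℝ) * (lam ^ 2 / 3) := hM2
      _ ≤ Real.sqrt k * (lam ^ 2 / 3) := mul_le_mul_of_nonneg_right hsk (by positivity)
      _ = _ := mul_comm _ _
  have h4 : 387 / δ + 63 ≤ lam * Real.sqrt k := by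
    rw [div_le_iff₀ hl] at hM3
    calc _ ≤ (M : ℝ) * lam := hM3
      _ ≤ Real.sqrt k * lam := mul_le_mul_of_nonneg_right hsk hl.le
      _ = _ := mul_comm _ _
  have hfk := hfar V G k x hk1 h
  have hsq : Real.sqrt (273 * k * EE G k x (farm G x S)) ≤ τ * k := by
    rw [Real.sqrt_le_left (by positivity)]
    calc 273 * k * EE G k x (farm G x S) ≤ 273 * k * (τ ^ 2 / 273 * k) :=
          mul_le_mul_of_nonneg_left hfk (by positivity)
      _ = (τ * k) ^ 2 := by ring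
  have h5 := T4avg_left (by omega) h (S := S) (by omega) (by omega) hδ hδ4 hl
  have h6 := T4avg_Mp_sum (by omega) h (S := S) (by omega) (by omega) hδ
  have h7 := T4avg_final (hM1.trans hsk) hkk hδ (Nat.cast_nonneg S) hl h1 h2 h3 h4
  have h8 : 6 * ∑ p ∈ Icc (k / 3) (2 * k / 3), Mp G k x δ δ S p ≤
      6 * (2 * (36 * (21 * δ) * k + (14 + 1 / δ) * (2 * (78 + 18 * Real.sqrt k +
        τ * k + 6 * (S * ((3 * Real.sqrt k + 6) / δ +
          3 * Real.sqrt k))) + 36 * (S * (3 * Real.sqrt k + 6))))) := by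
    have hD' : 0 < 14 + 1 / δ := by positivity
    have q := mul_le_mul_of_nonneg_left hsq hD'.le
    nlinarith
  have h9 := div_le_div_of_nonneg_right h8 (by positivity : (0 : ℝ) ≤ 2 * lam)
  have h10 : 2 * lam * (k : ℝ) = η * k := by rw [hlam]; ring
  rw [← h10]
  linarith

/-- far traces are rare -/
theorem far_small (η : ℝ) (hη : 0 < η) : ∃ S k₀ : ℕ, 4 ≤ S ∧ ∀ (V : Type) [Fintype V]
    (G : SimpleGraph V) (k : ℕ) [NeZero k] (x : V → ℝ), k₀ ≤ k → Opt G k x →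
    EE G k x (farm G x S) ≤ η * k :=
  T4avg_far η hη

end Pool.Agent.Icy
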