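import Pool.Agent.Icy.Defs

/-!
# Wrong pairs
-/

set_option autoImplicit false

open Finset
open scoped Classical

namespace Pool.Agent.Icy

def Wr {V : Type} (G : SimpleGraph V) {k : ℕ} (i j : ZMod k) (u u' : V) : Prop :=
  ¬ (G.Adj u u' ↔ (j = i + 1 ∨ i = j + 1))

/-- weight of the wrong pairs with first vertex `u` in the class `i` of the classes `T` -/
noncomputable def wrv {V : Type} (G : SimpleGraph V) {k : ℕ} [NeZero k] (x : V → ℝ)
    (T : ZMod k → Finset V) (i : ZMod k) (u : V) : ℝ :=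
  ∑ j ∈ univ.filter (fun j => j ≠ i), wt x ((T j).filter (fun u' => Wr G i j u u'))

/-- weight of all the (ordered) wrong pairs -/
noncomputable def wrM {V : Type} (G : SimpleGraph V) {k : ℕ} [NeZero k] (x : V → ℝ)
    (T : ZMod k → Finset V) : ℝ :=
  ∑ i, ∑ u ∈ T i, x u * wrv G x T i u

/-- two positions of `v` in different classes form a wrong pair -/
def hasWr {V : Type} (G : SimpleGraph V) {k : ℕ} (T : ZMod k → Finset V) (v : ZMod k → V) : Prop :=
  ∃ i j a b : ZMod k, a ≠ b ∧ v i ∈ T a ∧ v j ∈ T b ∧ Wr G a b (v i) (v j)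

/-- right transversals -/
noncomputable def WR {V : Type} (G : SimpleGraph V) {k : ℕ} [NeZero k] (x : V → ℝ)
    (T : ZMod k → Finset V) : ℝ :=
  ∑ u ∈ (Fintype.piFinset T).filter (fun u => ¬ ∃ a b : ZMod k, a ≠ b ∧ Wr G a b (u a) (u b)),
    ∏ j, x (u j)

/-- (9.1): classes of weight about 1, almost no other vertices, few wrong pairs in total -/
structure S91 {V : Type} [Fintype V] (G : SimpleGraph V) {k : ℕ} [NeZero k] (x : V → ℝ)
    (T : ZMod k → Finset V) (η : ℝ) : Prop where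
  disj : ∀ i j, i ≠ j → Disjoint (T i) (T j)
  rest : wt x (univ.filter (fun w => ∀ j, w ∉ T j)) ≤ η
  size : ∀ j, |wt x (T j) - 1| ≤ η
  wrong : wrM G x T ≤ η

/-- a partition of all the vertices into classes, every vertex in few wrong pairs -/
structure S92 {V : Type} (G : SimpleGraph V) {k : ℕ} [NeZero k] (x : V → ℝ)
    (T : ZMod k → Finset V) (η : ℝ) : Prop where
  disj : ∀ i j, i ≠ j → Disjoint (T i) (T j)
  cover : ∀ w, ∃ j, w ∈ T j
  size : ∀ j, |wt x (T j) - 1| ≤ η
  wrong : wrM G x T ≤ η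
  dev : ∀ i, ∀ u ∈ T i, wrv G x T i u ≤ η

theorem Wr_symm {V : Type} {G : SimpleGraph V} {k : ℕ} {i j : ZMod k} {u u' : V} :
    Wr G i j u u' ↔ Wr G j i u' u := by
  unfold Wr
  rw [G.adj_comm u u', or_comm (a := j = i + 1)]

end Pool.Agent.Icy
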