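import Pool.Agent.Icy.Exch
import Pool.Agent.Icy.O3
import Pool.Agent.Icy.WrDefs

/-!
# Wrong pairs at one class

For `u ∈ Cl v i`, `u' ∈ Cl v j` (`i ≠ j`) wrong: let `v' = update v i u`.  Then `u' ∈ NC v'` and `u'` is
adjacent to `v' i = u`, `v' (i+2) = v (i+2)` or `v' (i-2)`: the traces of `u'` on `v`, `v'` agree off
`i`; if `u' ∈ Cl v' j'` then `j' = j` (`k ≥ 7`), and then `u' ~ v' i` iff `i = j ± 1`, not wrong.  If
`u' ~ u` fine; if `u' ≁ u` then `j = i ± 1` and `u' ~ v (j ± 1)`.
By `exch` with `F v u = wrv (Cl v) i u`: the expectation equals `EE Σ_{u ∈ Cl v i} x_u wrv (Cl (update v i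
u)) i (v i)`, and by the above (with `update v i u` for `v` and `v i` for `u`) `wrv (Cl (update v i u)) i (v i)
≤ wt {u' ∈ NC v : u' ~ v i or v (i+2) or v (i-2)}`, while `wt (Cl v i) ≤ 6` (`cl_adj`, `o3_sub`).
-/

set_option autoImplicit false

open Finset
open scoped Classical

namespace Pool.Agent.Icy

theorem T5loc_unique {k : ℕ} [NeZero k] (h1 : (1 : ZMod k) ≠ 0) (h2 : (2 : ZMod k) ≠ 0)
    (h3 : (3 : ZMod k) ≠ 0) (h4 : (4 : ZMod k) ≠ 0) {i j j' : ZMod k} (hjj : j' ≠ j)
    (H : ∀ l, l ≠ i → l ≠ j → l ≠ j' → ((j = l + 1 ∨ l = j + 1) ↔ (j' = l + 1 ∨ l = j' + 1))) :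
    False := by
  have A : j - 1 = i ∨ j - 1 = j' ∨ j' = j - 2 := by
    by_contra hcon
    push Not at hcon
    have := (H (j - 1) hcon.1 (by intro h; apply h1; linear_combination -h) hcon.2.1).mp
      (Or.inl (by ring))
    rcases this with h | h
    · apply hjj; rw [h]; ring
    · apply hcon.2.2; linear_combination -h
  have B : j + 1 = i ∨ j + 1 = j' ∨ j' = j + 2 := by
    by_contra hcon
    push Not at hcon
    have := (H (j + 1) hcon.1 (by intro h; apply h1; linear_combination h) hcon.2.1).mp
      (Or.inr rfl)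
    rcases this with h | h
    · apply hcon.2.2; rw [h]; ring
    · apply hjj; linear_combination -h
  have A' : j' - 1 = i ∨ j' - 1 = j ∨ j = j' - 2 := by
    by_contra hcon
    push Not at hcon
    have := (H (j' - 1) hcon.1 hcon.2.1 (by intro h; apply h1; linear_combination -h)).mpr
      (Or.inl (by ring))
    rcases this with h | h
    · apply hjj; rw [h]; ring
    · apply hcon.2.2; linear_combination -h
  have B' : j' + 1 = i ∨ j' + 1 = j ∨ j = j' + 2 := by
    by_contra hcon
    push Not at hcon
    have := (H (j' + 1) hcon.1 hcon.2.1 (by intro h; apply h1; linear_combination h)).mpr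
      (Or.inr rfl)
    rcases this with h | h
    · apply hcon.2.2; rw [h]; ring
    · apply hjj; linear_combination h
  rcases A with a | a | a <;> rcases B with b | b | b <;> rcases A' with c | c | c <;>
    rcases B' with d | d | d <;> grind

variable {V : Type} [Fintype V] {G : SimpleGraph V} {k : ℕ} [NeZero k] {x : V → ℝ}

theorem T5loc_ne (hk : 7 ≤ k) {n : ℕ} (h0 : 0 < n) (hn : n < 7) : ((n : ℕ) : ZMod k) ≠ 0 := by
  intro h
  rw [ZMod.natCast_eq_zero_iff] at h
  exact absurd (Nat.le_of_dvd h0 h) (by omega)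

theorem T5loc_mem (v : ZMod k → V) (j : ZMod k) (w : V) : w ∈ Cl G v j ↔
    ∀ i, i ≠ j → (G.Adj (v i) w ↔ (j = i + 1 ∨ i = j + 1)) := by
  simp [Cl]

/-- wrong pairs for the updated cycle are non-clones of the cycle -/
theorem T5loc_pt (hk : 7 ≤ k) (v : ZMod k → V) (u : V) {i j : ZMod k} (hij : j ≠ i) {u' : V}
    (hu' : u' ∈ Cl G (Function.update v i u) j) (hW : Wr G i j (v i) u') :
    u' ∈ NC G v ∧ (G.Adj (v i) u' ∨ G.Adj (v (i + 2)) u' ∨ G.Adj (v (i - 2)) u') := by
  have h1 : (1 : ZMod k) ≠ 0 := by simpa using T5loc_ne hk (n := 1) (by norm_num) (by norm_num)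
  have h2 : (2 : ZMod k) ≠ 0 := by simpa using T5loc_ne hk (n := 2) (by norm_num) (by norm_num)
  have h3 : (3 : ZMod k) ≠ 0 := by simpa using T5loc_ne hk (n := 3) (by norm_num) (by norm_num)
  have h4 : (4 : ZMod k) ≠ 0 := by simpa using T5loc_ne hk (n := 4) (by norm_num) (by norm_num)
  have hcl : ∀ l, l ≠ i → l ≠ j → (G.Adj (v l) u' ↔ (j = l + 1 ∨ l = j + 1)) := by
    intro l hli hlj
    have := (T5loc_mem _ _ _).mp hu' l hlj
    rwa [Function.update_of_ne hli] at this
  constructor
  · rw [nc_mem]
    intro j' hj'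
    rw [T5loc_mem] at hj'
    by_cases hjj : j' = j
    · subst hjj
      exact hW (hj' i (Ne.symm hij))
    · refine T5loc_unique h1 h2 h3 h4 (i := i) hjj ?_
      intro l hli hlj hlj'
      rw [← hcl l hli hlj, hj' l hlj']
  · by_cases hadj : G.Adj (v i) u'
    · exact Or.inl hadj
    · right
      have hor : j = i + 1 ∨ i = j + 1 := by
        by_contra hcon
        apply hW
        constructor
        · intro h; exact absurd h hadj
        · intro h; exact absurd h hcon
      rcases hor with h | h
      · left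
        rw [hcl (i + 2) (by intro h'; apply h2; linear_combination h')
          (by intro h'; apply h1; rw [h] at h'; linear_combination h')]
        right
        rw [h]; ring
      · right
        rw [hcl (i - 2) (by intro h'; apply h2; linear_combination -h')
          (by intro h'; apply h1; rw [h] at h'; linear_combination -h')]
        left
        rw [h]; ring

theorem t5loc (hk : 7 ≤ k) (h : Opt G k x) (i : ZMod k) (η : ℝ)
    (hη : ∀ i, EE G k x (fun v => wt x ((NC G v).filter (fun w => G.Adj (v i) w))) ≤ η) :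
    EE G k x (fun v => ∑ u ∈ Cl G v i, x u * wrv G x (Cl G v) i u) ≤ 18 * η := by
  have hx : ∀ v, 0 ≤ x v := fun v => (h.pos v).le
  have hw0 : ∀ A : Finset V, 0 ≤ wt x A := fun A => Finset.sum_nonneg fun v _ => hx v
  rw [exch hk i (fun v u => wrv G x (Cl G v) i u)]
  have hmono : ∀ {A B : Finset V}, A ⊆ B → wt x A ≤ wt x B := fun hAB =>
    Finset.sum_le_sum_of_subset_of_nonneg hAB fun v _ _ => hx v
  have hpt : ∀ (v : ZMod k → V) (u : V), wrv G x (Cl G (Function.update v i u)) i (v i) ≤
      wt x ((NC G v).filter (fun w => G.Adj (v i) w)) +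
        (wt x ((NC G v).filter (fun w => G.Adj (v (i + 2)) w)) +
          wt x ((NC G v).filter (fun w => G.Adj (v (i - 2)) w))) := by
    intro v u
    have e1 : wrv G x (Cl G (Function.update v i u)) i (v i) =
        wt x ((univ.filter (fun j => j ≠ i)).biUnion fun j =>
          (Cl G (Function.update v i u) j).filter (fun u' => Wr G i j (v i) u')) := by
      unfold wrv wt
      rw [Finset.sum_biUnion]
      intro a _ b _ hab
      exact Finset.disjoint_of_subset_left (Finset.filter_subset _ _)
        (Finset.disjoint_of_subset_right (Finset.filter_subset _ _) (cl_disj hk _ hab))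
    rw [e1]
    have e2 : ((univ.filter (fun j => j ≠ i)).biUnion fun j =>
          (Cl G (Function.update v i u) j).filter (fun u' => Wr G i j (v i) u')) ⊆
        (NC G v).filter (fun w => G.Adj (v i) w) ∪
          ((NC G v).filter (fun w => G.Adj (v (i + 2)) w) ∪
            (NC G v).filter (fun w => G.Adj (v (i - 2)) w)) := by
      intro u' hu'
      rw [Finset.mem_biUnion] at hu'
      obtain ⟨j, hj, hu'⟩ := hu'
      rw [Finset.mem_filter] at hj hu'
      obtain ⟨h1, h2⟩ := T5loc_pt hk v u hj.2 hu'.1 hu'.2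
      simp only [Finset.mem_union, Finset.mem_filter]
      rcases h2 with h2 | h2 | h2
      · exact Or.inl ⟨h1, h2⟩
      · exact Or.inr (Or.inl ⟨h1, h2⟩)
      · exact Or.inr (Or.inr ⟨h1, h2⟩)
    have hun : ∀ A B : Finset V, wt x (A ∪ B) ≤ wt x A + wt x B := by
      intro A B
      unfold wt
      rw [← Finset.sum_union_inter]
      have : 0 ≤ ∑ v ∈ A ∩ B, x v := Finset.sum_nonneg fun v _ => hx v
      linarith
    refine (hmono e2).trans ((hun _ _).trans ?_)
    have := hun ((NC G v).filter (fun w => G.Adj (v (i + 2)) w))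
      ((NC G v).filter (fun w => G.Adj (v (i - 2)) w))
    linarith
  have hcl6 : ∀ v : ZMod k → V, wt x (Cl G v i) ≤ 6 := by
    intro v
    exact o3_sub (by omega) h (v (i + 1)) _ fun u hu => (cl_adj hk v hu).1
  have hmain : ∀ v ∈ cyc G k, ∑ u ∈ Cl G v i, x u *
      wrv G x (Cl G (Function.update v i u)) i (v i) ≤
      6 * (wt x ((NC G v).filter (fun w => G.Adj (v i) w)) +
        (wt x ((NC G v).filter (fun w => G.Adj (v (i + 2)) w)) +
          wt x ((NC G v).filter (fun w => G.Adj (v (i - 2)) w)))) := by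
    intro v _
    have h0 : 0 ≤ wt x ((NC G v).filter (fun w => G.Adj (v i) w)) +
        (wt x ((NC G v).filter (fun w => G.Adj (v (i + 2)) w)) +
          wt x ((NC G v).filter (fun w => G.Adj (v (i - 2)) w))) := by
      have a := hw0 ((NC G v).filter (fun w => G.Adj (v i) w))
      have b := hw0 ((NC G v).filter (fun w => G.Adj (v (i + 2)) w))
      have c := hw0 ((NC G v).filter (fun w => G.Adj (v (i - 2)) w))
      linarith
    calc ∑ u ∈ Cl G v i, x u * wrv G x (Cl G (Function.update v i u)) i (v i)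
        ≤ ∑ u ∈ Cl G v i, x u * (wt x ((NC G v).filter (fun w => G.Adj (v i) w)) +
        (wt x ((NC G v).filter (fun w => G.Adj (v (i + 2)) w)) +
          wt x ((NC G v).filter (fun w => G.Adj (v (i - 2)) w)))) :=
          Finset.sum_le_sum fun u _ => mul_le_mul_of_nonneg_left (hpt v u) (hx u)
      _ = wt x (Cl G v i) * (wt x ((NC G v).filter (fun w => G.Adj (v i) w)) +
        (wt x ((NC G v).filter (fun w => G.Adj (v (i + 2)) w)) +
          wt x ((NC G v).filter (fun w => G.Adj (v (i - 2)) w)))) := by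
          rw [← Finset.sum_mul]; rfl
      _ ≤ _ := mul_le_mul_of_nonneg_right (hcl6 v) h0
  refine (EE_mono hx hmain).trans ?_
  rw [EE_mul, EE_add, EE_add]
  have a := hη i
  have b := hη (i + 2)
  have c := hη (i - 2)
  linarith

end Pool.Agent.Icy
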