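import Pool.Agent.Icy.Clones
import Pool.Agent.Icy.T5loc

/-!
# T5: a typical cycle gives a good partition

The expectation of `wt NC + wrM (Cl v) + Σ_j |wt (Cl v j) - 1|` is `≤ 20 η k` (`clones`, `t5loc`);
take `v₀` with at most this value (`exists_le_EE`).
-/

set_option autoImplicit false

open Finset
open scoped Classical

namespace Pool.Agent.Icy

theorem t5 (η : ℝ) (hη : 0 < η) : ∃ k₀ : ℕ, ∀ (V : Type) [Fintype V] (G : SimpleGraph V)
    (k : ℕ) [NeZero k] (x : V → ℝ), k₀ ≤ k → Opt G k x → ∃ v ∈ cyc G k,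
      wt x (NC G v) + wrM G x (Cl G v) + ∑ j, |wt x (Cl G v j) - 1| ≤ η * k := by
  obtain ⟨k₁, hk₁⟩ := clones (η / 20) (by positivity)
  refine ⟨max k₁ 7, ?_⟩
  intro V _ G k _ x hk h
  have hk1 : k₁ ≤ k := le_trans (le_max_left _ _) hk
  have hk7 : 7 ≤ k := le_trans (le_max_right _ _) hk
  obtain ⟨a1, a2, a3⟩ := hk₁ V G k x hk1 h
  have hx : ∀ v, 0 ≤ x v := fun v => (h.pos v).le
  have b1 : EE G k x (fun v => wt x (NC G v)) ≤ η / 20 * k := by
    refine le_trans (EE_mono hx ?_) a1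
    intro v _
    unfold wt
    refine Finset.sum_le_sum fun w _ => ?_
    have h1 : (0 : ℝ) ≤ ((tr G v w).card : ℝ) := Nat.cast_nonneg _
    nlinarith [hx w]
  have b2 : EE G k x (fun v => wrM G x (Cl G v)) ≤ 18 * (η / 20) * k := by
    have e : EE G k x (fun v => wrM G x (Cl G v)) =
        ∑ i : ZMod k, EE G k x (fun v => ∑ u ∈ Cl G v i, x u * wrv G x (Cl G v) i u) := by
      unfold wrM
      exact EE_sum univ _
    rw [e]
    calc ∑ i : ZMod k, EE G k x (fun v => ∑ u ∈ Cl G v i, x u * wrv G x (Cl G v) i u)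
        ≤ ∑ i : ZMod k, 18 * (η / 20) := Finset.sum_le_sum fun i _ => t5loc hk7 h i (η / 20) a3
      _ = 18 * (η / 20) * k := by
        rw [Finset.sum_const, Finset.card_univ, ZMod.card, nsmul_eq_mul]
        ring
  have b3 : EE G k x (fun v => ∑ j, |wt x (Cl G v j) - 1|) ≤ η / 20 * k := by
    have e : EE G k x (fun v => ∑ j, |wt x (Cl G v j) - 1|) =
        ∑ j : ZMod k, EE G k x (fun v => |wt x (Cl G v j) - 1|) := EE_sum univ _
    rw [e]
    calc ∑ j : ZMod k, EE G k x (fun v => |wt x (Cl G v j) - 1|)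
        ≤ ∑ j : ZMod k, (η / 20) := Finset.sum_le_sum fun j _ => a2 j
      _ = η / 20 * k := by
        rw [Finset.sum_const, Finset.card_univ, ZMod.card, nsmul_eq_mul]
        ring
  obtain ⟨v, hv, hle⟩ := exists_le_EE hx h.NN_pos
    (fun v => (wt x (NC G v) + wrM G x (Cl G v)) + ∑ j, |wt x (Cl G v j) - 1|)
  refine ⟨v, hv, ?_⟩
  rw [EE_add, EE_add] at hle
  have : (wt x (NC G v) + wrM G x (Cl G v)) + ∑ j, |wt x (Cl G v j) - 1| ≤
      (η / 20 * k + 18 * (η / 20) * k) + η / 20 * k := by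
    refine hle.trans ?_
    linarith
  refine this.trans (le_of_eq ?_)
  ring

end Pool.Agent.Icy
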