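import Pool.Agent.Icy.O1
import Pool.Agent.Icy.O2

/-!
# Windows inside one class

With `n_j = #{i : v i ∈ T j}` (`T j` disjoint, weight `≤ 6`): the number of `t` such that `v t, …, v (t+S-1)`
lie in a single class is `≤ (1/S) Σ_j n_j²` (such a `t` has `v t ∈ T j`, `n_j ≥ S`), and
`EE n_j² ≤ wt (T j) + e² wt (T j)²` (`o1_sum`; `o2` for the pairs of different vertices, injectivity),
`Σ_j wt (T j) ≤ k`, so `EE Σ_j n_j² ≤ (1 + 6 e²) k ≤ 46 k`.  Rotation invariance.
-/

set_option autoImplicit false

open Finset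
open scoped Classical

namespace Pool.Agent.Icy

variable {V : Type} [Fintype V] {G : SimpleGraph V} {k : ℕ} [NeZero k] {x : V → ℝ}

/-- number of vertices of the class `A` on the cycle -/
noncomputable def T6own_n {V : Type} {k : ℕ} (A : Finset V) (v : ZMod k → V) : ℝ :=
  ∑ u ∈ A, if ∃ i, v i = u then 1 else 0

theorem T6own_n_card (A : Finset V) (v : ZMod k → V) :
    T6own_n A v = ((A.filter fun u => ∃ i, v i = u).card : ℝ) := by
  unfold T6own_n
  rw [Finset.card_filter]
  push_cast
  congr!

/-- second moment -/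
theorem T6own_second (hk : 7 ≤ k) (h : Opt G k x) (A : Finset V) :
    EE G k x (fun v => T6own_n A v ^ 2) ≤ wt x A + Real.exp 2 * wt x A ^ 2 := by
  have hx : ∀ v, 0 ≤ x v := fun v => (h.pos v).le
  have e1 : ∀ v : ZMod k → V, T6own_n A v ^ 2 = ∑ u ∈ A, ∑ u' ∈ A,
      (if ∃ i, v i = u then 1 else 0) * (if ∃ i, v i = u' then (1 : ℝ) else 0) := by
    intro v
    unfold T6own_n
    rw [sq, Finset.sum_mul_sum]
    congr!
  have e2 : EE G k x (fun v => T6own_n A v ^ 2) = ∑ u ∈ A, ∑ u' ∈ A,
      EE G k x (fun v => (if ∃ i, v i = u then 1 else 0) *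
        (if ∃ i, v i = u' then (1 : ℝ) else 0)) := by
    rw [EE_congr (fun v _ => e1 v), EE_sum]
    refine Finset.sum_congr rfl fun u _ => ?_
    rw [EE_sum]
  rw [e2]
  have e3 : ∀ u ∈ A, ∀ u' ∈ A, EE G k x (fun v => (if ∃ i, v i = u then 1 else 0) *
        (if ∃ i, v i = u' then (1 : ℝ) else 0)) ≤
      (if u = u' then x u else 0) + Real.exp 2 * (x u * x u') := by
    intro u _ u' _
    by_cases huu : u = u'
    · subst huu
      rw [if_pos rfl]
      have : EE G k x (fun v => (if ∃ i, v i = u then 1 else 0) *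
        (if ∃ i, v i = u then (1 : ℝ) else 0)) =
          EE G k x (fun v => if ∃ i, v i = u then 1 else 0) := by
        apply EE_congr
        intro v _
        by_cases h1 : ∃ i, v i = u
        · simp only [if_pos h1]; norm_num
        · simp only [if_neg h1]; norm_num
      rw [this, o1_on (by omega) h]
      have : 0 ≤ Real.exp 2 * (x u * x u) := by
        have := hx u
        positivity
      linarith
    · rw [if_neg huu, zero_add]
      have h2 := o2 (by omega : 5 ≤ k) h ({u, u'} : Finset V)
      rw [Finset.card_pair huu, Finset.prod_pair huu] at h2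
      have h3 : EE G k x (fun v => (if ∃ i, v i = u then 1 else 0) *
        (if ∃ i, v i = u' then (1 : ℝ) else 0)) =
          EE G k x (fun v => if ∀ s ∈ ({u, u'} : Finset V), ∃ i, v i = s then 1 else 0) := by
        apply EE_congr
        intro v _
        have hiff : (∀ s ∈ ({u, u'} : Finset V), ∃ i, v i = s) ↔
            (∃ i, v i = u) ∧ (∃ i, v i = u') := by
          simp
        simp only [hiff]
        by_cases h1 : ∃ i, v i = u
        · by_cases h2 : ∃ i, v i = u'
          · simp only [if_pos h1, if_pos h2, if_pos (And.intro h1 h2)]; norm_num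
          · simp only [if_neg h2, if_neg (fun h : (∃ i, v i = u) ∧ (∃ i, v i = u') => h2 h.2)]
            norm_num
        · simp only [if_neg h1, if_neg (fun h : (∃ i, v i = u) ∧ (∃ i, v i = u') => h1 h.1)]
          norm_num
      rw [h3]
      exact_mod_cast h2
  refine (Finset.sum_le_sum fun u hu => Finset.sum_le_sum fun u' hu' => e3 u hu u' hu').trans ?_
  have e4 : ∑ u ∈ A, ∑ u' ∈ A, ((if u = u' then x u else 0) + Real.exp 2 * (x u * x u')) =
      wt x A + Real.exp 2 * wt x A ^ 2 := by
    simp only [Finset.sum_add_distrib]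
    congr 1
    · unfold wt
      refine Finset.sum_congr rfl fun u hu => ?_
      rw [Finset.sum_ite_eq A u (fun _ => x u), if_pos hu]
    · unfold wt
      rw [sq, Finset.sum_mul_sum, Finset.mul_sum]
      refine Finset.sum_congr rfl fun u _ => ?_
      rw [Finset.mul_sum]
  exact e4.le

/-- windows of a cycle inside one class -/
theorem T6own_win {v : ZMod k → V} (hv : Function.Injective v) (A : Finset V) {S : ℕ}
    (hS : 1 ≤ S) (hSk : S ≤ k) :
    ((univ.filter fun t : ZMod k => ∀ i : ℕ, i < S → v ((i : ZMod k) + t) ∈ A).card : ℝ) ≤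
      1 / S * T6own_n A v ^ 2 := by
  have hS0 : (0 : ℝ) < S := by exact_mod_cast hS
  by_cases hemp : (univ.filter fun t : ZMod k => ∀ i : ℕ, i < S → v ((i : ZMod k) + t) ∈ A) = ∅
  · rw [hemp]
    simp only [Finset.card_empty, Nat.cast_zero]
    positivity
  · obtain ⟨t, ht⟩ := Finset.nonempty_iff_ne_empty.mpr hemp
    rw [Finset.mem_filter] at ht
    have h1 : ((univ.filter fun t : ZMod k => ∀ i : ℕ, i < S → v ((i : ZMod k) + t) ∈ A).card : ℝ) ≤
        T6own_n A v := by
      rw [T6own_n_card]
      have : (univ.filter fun t : ZMod k => ∀ i : ℕ, i < S → v ((i : ZMod k) + t) ∈ A).card ≤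
          (A.filter fun u => ∃ i, v i = u).card := by
        apply Finset.card_le_card_of_injOn v
        · intro s hs
          rw [Finset.mem_coe, Finset.mem_filter] at hs
          rw [Finset.mem_coe, Finset.mem_filter]
          have := hs.2 0 (by omega)
          simp only [Nat.cast_zero, zero_add] at this
          exact ⟨this, s, rfl⟩
        · exact fun a _ b _ hab => hv hab
      exact_mod_cast this
    have h2 : (S : ℝ) ≤ T6own_n A v := by
      rw [T6own_n_card]
      have : (range S).card ≤ (A.filter fun u => ∃ i, v i = u).card := by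
        apply Finset.card_le_card_of_injOn (fun i : ℕ => v ((i : ZMod k) + t))
        · intro i hi
          rw [Finset.mem_coe, Finset.mem_range] at hi
          rw [Finset.mem_coe, Finset.mem_filter]
          exact ⟨ht.2 i hi, _, rfl⟩
        · intro a ha b hb hab
          rw [Finset.mem_coe, Finset.mem_range] at ha hb
          have h3 : ((a : ZMod k)) = (b : ZMod k) := by
            have := hv hab
            exact add_right_cancel this
          have h4 : a % k = b % k := by
            rwa [ZMod.natCast_eq_natCast_iff'] at h3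
          rwa [Nat.mod_eq_of_lt (by omega), Nat.mod_eq_of_lt (by omega)] at h4
      rw [Finset.card_range] at this
      exact_mod_cast this
    have h0 : 0 ≤ T6own_n A v := hS0.le.trans h2
    calc ((univ.filter fun t : ZMod k => ∀ i : ℕ, i < S → v ((i : ZMod k) + t) ∈ A).card : ℝ)
        ≤ T6own_n A v := h1
      _ = 1 / S * (S * T6own_n A v) := by field_simp
      _ ≤ 1 / S * T6own_n A v ^ 2 := by
          apply mul_le_mul_of_nonneg_left _ (by positivity)
          rw [sq]
          exact mul_le_mul_of_nonneg_right h2 h0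

theorem T6own_exp_two : Real.exp 2 ≤ 7.5 := by
  have h1 : Real.exp 1 < 2.7182818286 := Real.exp_one_lt_d9
  have h2 : Real.exp 2 = Real.exp 1 * Real.exp 1 := by
    rw [← Real.exp_add]; norm_num
  rw [h2]
  have h3 := Real.exp_pos 1
  nlinarith

theorem t6own (hk : 7 ≤ k) (h : Opt G k x) (T : ZMod k → Finset V)
    (hT : ∀ i j, i ≠ j → Disjoint (T i) (T j)) (hT6 : ∀ j, wt x (T j) ≤ 6) {S : ℕ} (hS : 1 ≤ S)
    (hSk : S + 1 ≤ k) :
    EE G k x (fun v => if ∃ j, ∀ i : ℕ, i < S → v (i : ZMod k) ∈ T j then 1 else 0) ≤ 46 / S := by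
  have hx : ∀ v, 0 ≤ x v := fun v => (h.pos v).le
  have hS0 : (0 : ℝ) < S := by exact_mod_cast hS
  have hk0 : (0 : ℝ) < k := by exact_mod_cast (by omega : 0 < k)
  have hw0 : ∀ A : Finset V, 0 ≤ wt x A := fun A => Finset.sum_nonneg fun v _ => hx v
  have h1 := EE_avg (G := G) (x := x)
    (fun v : ZMod k → V => if ∃ j, ∀ i : ℕ, i < S → v (i : ZMod k) ∈ T j then (1 : ℝ) else 0)
  have h2 : EE G k x (fun v => ∑ t : ZMod k,
      if ∃ j, ∀ i : ℕ, i < S → v ((i : ZMod k) + t) ∈ T j then (1 : ℝ) else 0) ≤
      EE G k x (fun v => ∑ j : ZMod k, 1 / S * T6own_n (T j) v ^ 2) := by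
    apply EE_mono hx
    intro v hv
    have hinj : Function.Injective v := by
      unfold cyc at hv
      rw [Finset.mem_filter] at hv
      exact cyc_inj (by omega) hv.2
    have h3 : ∀ t : ZMod k,
        (if ∃ j, ∀ i : ℕ, i < S → v ((i : ZMod k) + t) ∈ T j then (1 : ℝ) else 0) ≤
        ∑ j : ZMod k, if ∀ i : ℕ, i < S → v ((i : ZMod k) + t) ∈ T j then (1 : ℝ) else 0 := by
      intro t
      by_cases hex : ∃ j, ∀ i : ℕ, i < S → v ((i : ZMod k) + t) ∈ T j
      · rw [if_pos hex]
        obtain ⟨j, hj⟩ := hex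
        have : (if ∀ i : ℕ, i < S → v ((i : ZMod k) + t) ∈ T j then (1 : ℝ) else 0) ≤
            ∑ j : ZMod k, if ∀ i : ℕ, i < S → v ((i : ZMod k) + t) ∈ T j then (1 : ℝ) else 0 :=
          Finset.single_le_sum (f := fun j : ZMod k =>
            if ∀ i : ℕ, i < S → v ((i : ZMod k) + t) ∈ T j then (1 : ℝ) else 0)
            (fun j _ => by split_ifs <;> norm_num) (Finset.mem_univ j)
        rwa [if_pos hj] at this
      · rw [if_neg hex]
        exact Finset.sum_nonneg fun j _ => by split_ifs <;> norm_num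
    refine (Finset.sum_le_sum fun t _ => h3 t).trans ?_
    rw [Finset.sum_comm]
    refine Finset.sum_le_sum fun j _ => ?_
    have h4 := T6own_win hinj (T j) hS (by omega : S ≤ k)
    refine le_trans (le_of_eq ?_) h4
    rw [Finset.sum_ite, Finset.sum_const_zero, add_zero, Finset.sum_const, nsmul_eq_mul, mul_one]
  have h5 : EE G k x (fun v => ∑ j : ZMod k, 1 / S * T6own_n (T j) v ^ 2) ≤
      1 / S * (46 * k) := by
    rw [EE_sum]
    have h6 : ∀ j : ZMod k, EE G k x (fun v => 1 / S * T6own_n (T j) v ^ 2) ≤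
        1 / S * (46 * wt x (T j)) := by
      intro j
      rw [EE_mul]
      apply mul_le_mul_of_nonneg_left _ (by positivity)
      refine (T6own_second hk h (T j)).trans ?_
      have h7 := hw0 (T j)
      have h8 := hT6 j
      have h9 := T6own_exp_two
      have h10 := Real.exp_pos 2
      have h11 : wt x (T j) ^ 2 ≤ 6 * wt x (T j) := by
        rw [sq]
        exact mul_le_mul_of_nonneg_right h8 h7
      have h12 : Real.exp 2 * wt x (T j) ^ 2 ≤ 7.5 * (6 * wt x (T j)) := by
        apply mul_le_mul h9 h11 (by positivity) (by norm_num)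
      linarith
    refine (Finset.sum_le_sum fun j _ => h6 j).trans ?_
    rw [← Finset.mul_sum, ← Finset.mul_sum]
    apply mul_le_mul_of_nonneg_left _ (by positivity)
    apply mul_le_mul_of_nonneg_left _ (by norm_num)
    unfold wt
    rw [← Finset.sum_biUnion (fun i _ j _ hij => hT i j hij), ← h.sum]
    exact Finset.sum_le_sum_of_subset_of_nonneg (Finset.subset_univ _) fun v _ _ => hx v
  have h13 : (k : ℝ) * EE G k x (fun v => if ∃ j, ∀ i : ℕ, i < S → v (i : ZMod k) ∈ T j then
      1 else 0) ≤ 1 / S * (46 * k) := h1.le.trans (h2.trans h5)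
  have h14 : 1 / (S : ℝ) * (46 * k) = k * (46 / S) := by field_simp
  rw [h14] at h13
  exact le_of_mul_le_mul_left h13 hk0

end Pool.Agent.Icy
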