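import Pool.Agent.Icy.T17
import Pool.Agent.Icy.T6own
import Pool.Agent.Icy.CycBasic
import Pool.Agent.Icy.WrDefs

/-!
# The first five vertices of a random cycle follow the classes

`T` disjoint classes, each of weight `≤ 6`.  `mono5`: `v 0, …, v 4` lie in five consecutive classes.
For `S ≥ 5`, `S + 1 ≤ k`: if no `v i`, `i < S`, is outside the classes (probability of the contrary
`≤ S wt(rest)/k`, `o1`) and no pair `(v i, v j)`, `i ≠ j < S`, is wrong (`≤ S² e²/k · wrM`, `o2_pair`),
then by `t17` the classes of `v 0..v (S-1)` are constant (`t6own`: probability `≤ 46/S`) or monotone.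
-/

set_option autoImplicit false

open Finset
open scoped Classical

namespace Pool.Agent.Icy

variable {V : Type} [Fintype V] {G : SimpleGraph V} {k : ℕ} [NeZero k] {x : V → ℝ}

def mono5 {V : Type} {k : ℕ} (T : ZMod k → Finset V) (v : ZMod k → V) : Prop :=
  ∃ j : ZMod k, (∀ i : ℕ, i < 5 → v (i : ZMod k) ∈ T (j + i)) ∨
    (∀ i : ℕ, i < 5 → v (i : ZMod k) ∈ T (j - i))

private theorem T6win_cast_inj {k : ℕ} {a b : ℕ} (ha : a < k) (hb : b < k)
    (h : (a : ZMod k) = (b : ZMod k)) : a = b := by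
  rw [ZMod.natCast_eq_natCast_iff] at h
  exact Nat.ModEq.eq_of_lt_of_lt h ha hb

/-- indicator of a wrong pair of vertices -/
private noncomputable def T6win_F {V : Type} (G : SimpleGraph V) {k : ℕ} (T : ZMod k → Finset V)
    (u u' : V) : ℝ :=
  if ∃ a b : ZMod k, a ≠ b ∧ u ∈ T a ∧ u' ∈ T b ∧ Wr G a b u u' then 1 else 0

private theorem T6win_F_nonneg {V : Type} (G : SimpleGraph V) {k : ℕ} (T : ZMod k → Finset V)
    (u u' : V) : 0 ≤ T6win_F G T u u' := by
  unfold T6win_F
  split_ifs <;> norm_num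

private theorem T6win_F_le {V : Type} (G : SimpleGraph V) {k : ℕ} [NeZero k]
    (T : ZMod k → Finset V) (u u' : V) :
    T6win_F G T u u' ≤ ∑ a : ZMod k, ∑ b ∈ univ.filter (fun b : ZMod k => b ≠ a),
      (if u ∈ T a ∧ u' ∈ T b ∧ Wr G a b u u' then (1 : ℝ) else 0) := by
  have hnn : ∀ a : ZMod k, ∀ b ∈ univ.filter (fun b : ZMod k => b ≠ a),
      (0 : ℝ) ≤ (if u ∈ T a ∧ u' ∈ T b ∧ Wr G a b u u' then (1 : ℝ) else 0) := by
    intro a b _
    split_ifs <;> norm_num
  unfold T6win_F
  split_ifs with h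
  · obtain ⟨a, b, hab, hu, hu', hw⟩ := h
    calc (1 : ℝ) = (if u ∈ T a ∧ u' ∈ T b ∧ Wr G a b u u' then (1 : ℝ) else 0) := by
            rw [if_pos ⟨hu, hu', hw⟩]
      _ ≤ ∑ b ∈ univ.filter (fun b : ZMod k => b ≠ a),
            (if u ∈ T a ∧ u' ∈ T b ∧ Wr G a b u u' then (1 : ℝ) else 0) :=
          Finset.single_le_sum
            (f := fun b => (if u ∈ T a ∧ u' ∈ T b ∧ Wr G a b u u' then (1 : ℝ) else 0))
            (hnn a) (by simp [Ne.symm hab])
      _ ≤ _ := Finset.single_le_sum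
            (f := fun a => ∑ b ∈ univ.filter (fun b : ZMod k => b ≠ a),
              (if u ∈ T a ∧ u' ∈ T b ∧ Wr G a b u u' then (1 : ℝ) else 0))
            (fun a _ => Finset.sum_nonneg (hnn a)) (Finset.mem_univ a)
  · exact Finset.sum_nonneg (fun a _ => Finset.sum_nonneg (hnn a))

private theorem T6win_wrM_eq {V : Type} [Fintype V] (G : SimpleGraph V) {k : ℕ} [NeZero k]
    (x : V → ℝ) (T : ZMod k → Finset V) :
    ∑ u, ∑ u', x u * x u' * (∑ a : ZMod k, ∑ b ∈ univ.filter (fun b : ZMod k => b ≠ a),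
      (if u ∈ T a ∧ u' ∈ T b ∧ Wr G a b u u' then (1 : ℝ) else 0)) = wrM G x T := by
  have e1 : ∀ u u' : V, x u * x u' * (∑ a : ZMod k, ∑ b ∈ univ.filter (fun b : ZMod k => b ≠ a),
      (if u ∈ T a ∧ u' ∈ T b ∧ Wr G a b u u' then (1 : ℝ) else 0)) =
      ∑ a : ZMod k, ∑ b ∈ univ.filter (fun b : ZMod k => b ≠ a),
        (if u ∈ T a then (if u' ∈ T b ∧ Wr G a b u u' then x u * x u' else 0) else 0) := by
    intro u u'
    rw [Finset.mul_sum]
    refine Finset.sum_congr rfl (fun a _ => ?_)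
    rw [Finset.mul_sum]
    refine Finset.sum_congr rfl (fun b _ => ?_)
    by_cases h1 : u ∈ T a
    · by_cases h2 : u' ∈ T b ∧ Wr G a b u u'
      · simp [h1, h2]
      · simp [h1, h2]
    · simp [h1]
  simp_rw [e1]
  unfold wrM wrv wt
  -- left: sum over u, u', a, b ; right: a, u ∈ T a, b, u'
  have e2 : ∀ u : V, ∑ u' : V, ∑ a : ZMod k, ∑ b ∈ univ.filter (fun b : ZMod k => b ≠ a),
        (if u ∈ T a then (if u' ∈ T b ∧ Wr G a b u u' then x u * x u' else 0) else 0) =
      ∑ a : ZMod k, if u ∈ T a then x u * ∑ b ∈ univ.filter (fun b : ZMod k => b ≠ a),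
        ∑ u' ∈ (T b).filter (fun u' => Wr G a b u u'), x u' else 0 := by
    intro u
    rw [Finset.sum_comm]
    refine Finset.sum_congr rfl (fun a _ => ?_)
    rw [Finset.sum_comm]
    by_cases h1 : u ∈ T a
    · simp only [h1, if_true]
      rw [Finset.mul_sum]
      refine Finset.sum_congr rfl (fun b _ => ?_)
      rw [Finset.mul_sum, ← Finset.sum_filter]
      refine Finset.sum_congr ?_ (fun _ _ => rfl)
      ext u'
      simp
    · simp [h1]
  simp_rw [e2]
  rw [Finset.sum_comm]
  refine Finset.sum_congr rfl (fun a _ => ?_)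
  rw [← Finset.sum_filter]
  refine Finset.sum_congr ?_ (fun _ _ => rfl)
  ext u
  simp

private theorem T6win_wrM_nonneg {V : Type} (G : SimpleGraph V) {k : ℕ} [NeZero k]
    {x : V → ℝ} (hx : ∀ v, 0 ≤ x v) (T : ZMod k → Finset V) : 0 ≤ wrM G x T := by
  unfold wrM wrv wt
  exact Finset.sum_nonneg (fun a _ => Finset.sum_nonneg (fun u _ => mul_nonneg (hx u)
    (Finset.sum_nonneg (fun b _ => Finset.sum_nonneg (fun u' _ => hx u')))))

private theorem T6win_pair (hk : 7 ≤ k) (h : Opt G k x) (T : ZMod k → Finset V) {i j : ZMod k}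
    (hij : i ≠ j) :
    EE G k x (fun v => T6win_F G T (v i) (v j)) ≤ Real.exp 2 / k * wrM G x T := by
  refine (o2_pair (by omega) h hij (T6win_F G T) (T6win_F_nonneg G T)).trans ?_
  refine mul_le_mul_of_nonneg_left ?_ (by positivity)
  rw [← T6win_wrM_eq]
  refine Finset.sum_le_sum (fun u _ => Finset.sum_le_sum (fun u' _ => ?_))
  exact mul_le_mul_of_nonneg_left (T6win_F_le G T u u')
    (mul_nonneg (h.pos u).le (h.pos u').le)

private theorem T6win_main (hk : 7 ≤ k) (T : ZMod k → Finset V) {S : ℕ} (hS : 5 ≤ S)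
    (hSk : S + 1 ≤ k) {v : ZMod k → V} (hv : v ∈ cyc G k)
    (h1 : ∀ i : ℕ, i < S → ∃ j, v (i : ZMod k) ∈ T j)
    (h2 : ∀ i j : ℕ, i < S → j < S → i ≠ j → ¬ ∃ a b : ZMod k, a ≠ b ∧ v (i : ZMod k) ∈ T a ∧
      v (j : ZMod k) ∈ T b ∧ Wr G a b (v (i : ZMod k)) (v (j : ZMod k))) :
    mono5 T v ∨ ∃ j, ∀ i : ℕ, i < S → v (i : ZMod k) ∈ T j := by
  have hc : ∃ c : ℕ → ZMod k, ∀ i, i < S → v (i : ZMod k) ∈ T (c i) := by
    choose! c hc using h1
    exact ⟨c, hc⟩
  obtain ⟨c, hc⟩ := hc
  have key := t17 (n := S) hk (by omega) c (by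
    intro i j hi hj hne
    have hij : i ≠ j := by rintro rfl; exact hne rfl
    have hw : ¬ Wr G (c i) (c j) (v (i : ZMod k)) (v (j : ZMod k)) := by
      intro hw
      exact h2 i j hi hj hij ⟨c i, c j, hne, hc i hi, hc j hj, hw⟩
    unfold Wr at hw
    rw [not_not] at hw
    rw [← hw, cyc_adj_nat (by omega) hv (by omega : i < k) (by omega : j < k)]
    constructor
    · rintro (h | h)
      · exact Or.inl h
      · exact Or.inr (Or.inl h)
    · rintro (h | h | h | h)
      · exact Or.inl h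
      · exact Or.inr h
      · omega
      · omega)
  rcases key with key | key | key
  · right
    refine ⟨c 0, fun i hi => ?_⟩
    have := hc i hi
    rwa [key i hi] at this
  · left
    refine ⟨c 0, Or.inl (fun i hi => ?_)⟩
    have := hc i (by omega)
    rwa [key i (by omega)] at this
  · left
    refine ⟨c 0, Or.inr (fun i hi => ?_)⟩
    have := hc i (by omega)
    rwa [key i (by omega)] at this

theorem t6win (hk : 7 ≤ k) (h : Opt G k x) (T : ZMod k → Finset V)
    (hT : ∀ i j, i ≠ j → Disjoint (T i) (T j)) (hT6 : ∀ j, wt x (T j) ≤ 6) {S : ℕ} (hS : 5 ≤ S)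
    (hSk : S + 1 ≤ k) :
    EE G k x (fun v => if mono5 T v then 0 else 1) ≤
      S * wt x (univ.filter (fun w => ∀ j, w ∉ T j)) / k + S ^ 2 * Real.exp 2 * wrM G x T / k +
        46 / S := by
  have hx : ∀ v, 0 ≤ x v := fun v => (h.pos v).le
  set R : V → ℝ := fun w => if ∀ j, w ∉ T j then 1 else 0 with hR
  have hRnn : ∀ w, 0 ≤ R w := by
    intro w; simp only [hR]; split_ifs <;> norm_num
  set F : V → V → ℝ := T6win_F G T with hF
  have hFnn : ∀ u u', 0 ≤ F u u' := T6win_F_nonneg G T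
  set P : (ZMod k → V) → ℝ := fun v => if ∃ j, ∀ i : ℕ, i < S → v (i : ZMod k) ∈ T j then 1 else 0
    with hP
  have hPnn : ∀ v, 0 ≤ P v := by
    intro v; simp only [hP]; split_ifs <;> norm_num
  have hle : ∀ v ∈ cyc G k, (if mono5 T v then (0 : ℝ) else 1) ≤
      ((∑ i ∈ range S, R (v (i : ZMod k))) +
        ∑ p ∈ range S ×ˢ range S,
          (if p.1 ≠ p.2 then F (v (p.1 : ZMod k)) (v (p.2 : ZMod k)) else 0)) + P v := by
    intro v hv
    have n1 : 0 ≤ ∑ i ∈ range S, R (v (i : ZMod k)) := Finset.sum_nonneg (fun i _ => hRnn _)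
    have nn2 : ∀ p ∈ range S ×ˢ range S,
        (0 : ℝ) ≤ (if p.1 ≠ p.2 then F (v (p.1 : ZMod k)) (v (p.2 : ZMod k)) else 0) := by
      intro p _
      split_ifs
      · exact hFnn _ _
      · exact le_refl _
    have n2 : 0 ≤ ∑ p ∈ range S ×ˢ range S,
          (if p.1 ≠ p.2 then F (v (p.1 : ZMod k)) (v (p.2 : ZMod k)) else 0) :=
      Finset.sum_nonneg nn2
    have n3 := hPnn v
    split_ifs with hm
    · linarith
    · by_cases h1 : ∀ i : ℕ, i < S → ∃ j, v (i : ZMod k) ∈ T j
      · by_cases h2 : ∀ i j : ℕ, i < S → j < S → i ≠ j → ¬ ∃ a b : ZMod k, a ≠ b ∧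
            v (i : ZMod k) ∈ T a ∧ v (j : ZMod k) ∈ T b ∧
              Wr G a b (v (i : ZMod k)) (v (j : ZMod k))
        · rcases T6win_main hk T hS hSk hv h1 h2 with h3 | h3
          · exact absurd h3 hm
          · have : P v = 1 := by simp only [hP]; rw [if_pos h3]
            linarith
        · push Not at h2
          obtain ⟨i, j, hi, hj, hij, hex⟩ := h2
          have : (1 : ℝ) ≤ ∑ p ∈ range S ×ˢ range S,
              (if p.1 ≠ p.2 then F (v (p.1 : ZMod k)) (v (p.2 : ZMod k)) else 0) := by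
            have e : (1 : ℝ) = (fun p : ℕ × ℕ =>
                (if p.1 ≠ p.2 then F (v (p.1 : ZMod k)) (v (p.2 : ZMod k)) else 0)) (i, j) := by
              simp only [hF, T6win_F]
              rw [if_pos hij, if_pos]
              obtain ⟨a, b, h1, h2, h3, h4⟩ := hex
              exact ⟨a, b, h1, h2, h3, h4⟩
            rw [e]
            exact Finset.single_le_sum nn2 (by simp [hi, hj])
          linarith
      · push Not at h1
        obtain ⟨i, hi, hno⟩ := h1
        have : (1 : ℝ) ≤ ∑ i ∈ range S, R (v (i : ZMod k)) := by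
          have e : (1 : ℝ) = (fun i : ℕ => R (v (i : ZMod k))) i := by
            simp only [hR]
            rw [if_pos hno]
          rw [e]
          exact Finset.single_le_sum (f := fun i : ℕ => R (v (i : ZMod k)))
            (fun i _ => hRnn _) (by simp [hi])
        linarith
  refine (EE_mono hx hle).trans ?_
  rw [EE_add, EE_add, EE_sum, EE_sum]
  have b1 : ∑ i ∈ range S, EE G k x (fun v => R (v (i : ZMod k))) =
      S * wt x (univ.filter (fun w => ∀ j, w ∉ T j)) / k := by
    have : ∀ i ∈ range S, EE G k x (fun v => R (v (i : ZMod k))) =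
        wt x (univ.filter (fun w => ∀ j, w ∉ T j)) / k := by
      intro i _
      rw [o1 (by omega) h (i : ZMod k) R]
      congr 1
      unfold wt
      rw [Finset.sum_filter]
      refine Finset.sum_congr rfl (fun u _ => ?_)
      simp only [hR]
      split_ifs <;> simp
    rw [Finset.sum_congr rfl this]
    simp
    ring
  have b2 : ∑ p ∈ range S ×ˢ range S, EE G k x (fun v =>
        (if p.1 ≠ p.2 then F (v (p.1 : ZMod k)) (v (p.2 : ZMod k)) else 0)) ≤
      S ^ 2 * Real.exp 2 * wrM G x T / k := by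
    have : ∀ p ∈ range S ×ˢ range S, EE G k x (fun v =>
        (if p.1 ≠ p.2 then F (v (p.1 : ZMod k)) (v (p.2 : ZMod k)) else 0)) ≤
        Real.exp 2 / k * wrM G x T := by
      intro p hp
      rw [Finset.mem_product, Finset.mem_range, Finset.mem_range] at hp
      by_cases hpp : p.1 ≠ p.2
      · simp only [hpp, ne_eq, not_false_eq_true, if_true]
        refine T6win_pair hk h T ?_
        intro he
        exact hpp (T6win_cast_inj (by omega) (by omega) he)
      · simp only [hpp, if_false]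
        rw [EE_const h.NN_pos.ne']
        exact mul_nonneg (by positivity) (T6win_wrM_nonneg G hx T)
    refine (Finset.sum_le_sum this).trans (le_of_eq ?_)
    simp
    ring
  have b3 : EE G k x P ≤ 46 / S := t6own hk h T hT hT6 (by omega) hSk
  have b1' := b1.le
  linarith

end Pool.Agent.Icy
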