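import Pool.Agent.Icy.T8a
import Pool.Agent.Icy.AcFinal

/-!
# T8: structure at one state with small defect

Kernel `pL θ₂`, good reveals `gL θ₂`, `δ = 4 √θ₂ ≤ 1/4` (`mass_N`: a good reveal has `|nn - 1| ≤ δ`,
`nn y s' = wt (sN (step s' y))`, `n + 1 ≥ 1` vertices to go), `r = n + 3`.
`PI_{n+1} y s ≤ 2 chi + 4 θ/θ₂ + 48 √θ₂` (`t8_rr`, `t8_cc`, `mm < θ`).
(i) `Q = {y ∈ sA (step s w) : mm (r-2) (step (step s w) y) < θ₂} ⊆ nnin (up s) a`; `ac_final` with
`δ' = θ₂^{1/4}`, `Σ_Q x chi ≤ 4 θ/θ₂` (`t8_x`), `wt Q ≤ 2`: `Σ_z lk wt (nnin Q z)² ≤ small`.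
Cauchy-Schwarz (`Σ lk ≤ 1`); `x z ≤ 3 lk` if not killed (`ex ≥ 1/3`), killed `z`: weight
`Hz 0 ≤ 3θ/θ₂`.  `sN (step s w) \ Q`: `sB` part `≤ 2θ`, the rest `Hz 0 (r-1) (step s w) ≤ 3θ/θ₂`.
`Σ_{y∈Y} x_y wt (nnin (sA s) y) = Σ_{z∈sA s} x_z wt (nnin Y z)`.
Choose `θ₂` small, then `θ = θ₂²`.
(ii) `K12` (with `KM ≥ 0`), `nu ≤ wt (nbin (sA s) y) + 2θ`.
-/

set_option autoImplicit false

open Finset
open scoped Classical

namespace Pool.Agent.Icy

set_option linter.unusedSectionVars false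

/-- the conclusion of T8 with the parameters `θ₂, θ, η` -/
def T8P {V : Type} (G : SimpleGraph V) (x : V → ℝ) (θ₂ θ η : ℝ) : Prop :=
  ∀ (r : ℕ) (s : St V) (w : V), 3 ≤ r → w ∈ sA G s → mm G x r s < θ →
    mm G x (r - 1) (step G s w) < θ →
    (∑ y ∈ sN G (step G s w), x y * wt x (nnin G (sA G s) y) ≤ η) ∧
    ∀ y ∈ sA G (step G s w), mm G x (r - 2) (step G (step G s w) y) < θ →
      (1 - wt x (nbin G (sA G s) y)) * wt x (nnin G (sN G (step G s w)) y) ≤
        6 * chi G x θ₂ y (r - 2) s + η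

section
variable {V : Type} {G : SimpleGraph V} {x : V → ℝ}

theorem T8_good (hx : ∀ v, 0 ≤ x v) {θ : ℝ} (hθ : θ ≤ 1 / 16) {n : ℕ} {s : St V} {y : V}
    (h : mm G x (n + 1) (step G s y) < θ) : |wt x (sN G (step G s y)) - 1| ≤ 4 * Real.sqrt θ :=
  mass_N hx hθ (by omega) h

theorem T8_hg (hx : ∀ v, 0 ≤ x v) {θ : ℝ} (hθ : θ ≤ 1 / 16) (n : ℕ) (s : St V) (z y : V)
    (h : gL G x θ n (step G s z) y) : |nn G x y (step G s z) - 1| ≤ 4 * Real.sqrt θ := by
  have h1 : nn G x y (step G s z) = wt x (sN G (step G (step G s z) y)) := rfl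
  rw [h1]
  exact T8_good hx hθ h

theorem T8_PI (hB : Base G x) {θ₂ : ℝ} (h0 : 0 < θ₂) (h1 : θ₂ ≤ 1 / 16) (y : V) (n : ℕ) (s : St V)
    (hm : mm G x (n + 3) s < θ₂) :
    PI G x (pL G x θ₂) (gL G x θ₂) y (n + 1) s ≤ 2 * chi G x θ₂ y (n + 1) s +
      4 * (mm G x (n + 3) s / θ₂) + 48 * Real.sqrt θ₂ := by
  have h2 := t8_rr (G := G) hB.nonneg h0 h1 y (n + 1) s hm
  have h3 := t8_cc (G := G) hB h0 h1 y (n + 1) s hm
  have e : n + 1 + 2 = n + 3 := by omega
  rw [e] at h2 h3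
  unfold PI
  have h4 : 2 / θ₂ * mm G x (n + 3) s = 2 * (mm G x (n + 3) s / θ₂) := by ring
  rw [h4] at h3
  linarith

theorem T8_KM (hx : ∀ v, 0 ≤ x v) {θ₂ : ℝ} (y : V) (n : ℕ) (s : St V) :
    0 ≤ KM G x (pL G x θ₂) (gL G x θ₂) y n s := by
  unfold KM
  refine Finset.sum_nonneg (fun z _ => mul_nonneg (lk_nonneg hx _ _ _ _) ?_)
  split_ifs
  · exact le_rfl
  · exact KK_nonneg hx (t8_ker hx θ₂) _ _ _

theorem T8_symm (S S' : Finset V) :
    ∑ y ∈ S, x y * wt x (nnin G S' y) = ∑ z ∈ S', x z * wt x (nnin G S z) := by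
  unfold wt nnin
  simp_rw [Finset.sum_filter, Finset.mul_sum]
  rw [Finset.sum_comm]
  refine Finset.sum_congr rfl (fun z _ => Finset.sum_congr rfl (fun y _ => ?_))
  rw [G.adj_comm y z]
  split_ifs
  · ring
  · ring

theorem T8_core (hB : Base G x) {u : ℝ} (hu0 : 0 < u) (hu : u ≤ 1 / 2) {n : ℕ} {s : St V} {w : V}
    (hw : w ∈ sA G s) (hm : mm G x (n + 3) s < u ^ 16)
    (hm' : mm G x (n + 2) (step G s w) < u ^ 16) :
    (∑ y ∈ sN G (step G s w), x y * wt x (nnin G (sA G s) y) ≤ 118 * u) ∧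
    ∀ y ∈ sA G (step G s w), mm G x (n + 1) (step G (step G s w) y) < u ^ 16 →
      (1 - wt x (nbin G (sA G s) y)) * wt x (nnin G (sN G (step G s w)) y) ≤
        6 * chi G x (u ^ 8) y (n + 1) s + 180 * u := by
  have hx := hB.nonneg
  have hv : u ^ 2 ≤ 1 / 4 := by nlinarith
  have hv0 : 0 < u ^ 2 := by positivity
  have h4 : u ^ 4 ≤ 1 / 4 * u ^ 2 := by nlinarith
  have h40 : 0 < u ^ 4 := by positivity
  have h6 : u ^ 6 ≤ 1 / 16 * u ^ 2 := by nlinarith
  have h8 : u ^ 8 ≤ 1 / 64 * u ^ 2 := by nlinarith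
  have h80 : 0 < u ^ 8 := by positivity
  have h16 : u ^ 16 ≤ 1 / 256 * u ^ 8 := by
    have : u ^ 16 = u ^ 8 * u ^ 8 := by ring
    nlinarith
  have h2u : u ^ 2 ≤ 1 / 2 * u := by nlinarith
  have h160 : 0 < u ^ 16 := by positivity
  have hθ : u ^ 8 ≤ 1 / 256 := by linarith
  have hθ16 : u ^ 8 ≤ 1 / 16 := by linarith
  have hsq : Real.sqrt (u ^ 8) = u ^ 4 := by
    have : u ^ 8 = (u ^ 4) ^ 2 := by ring
    rw [this, Real.sqrt_sq h40.le]
  have hm8 : mm G x (n + 3) s < u ^ 8 := by linarith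
  have hm8' : mm G x (n + 2) (step G s w) < u ^ 8 := by linarith
  have hmd : mm G x (n + 3) s / u ^ 8 ≤ u ^ 8 := by
    rw [div_le_iff₀ h80]
    have : u ^ 8 * u ^ 8 = u ^ 16 := by ring
    linarith
  have hδ : (0 : ℝ) ≤ 4 * u ^ 4 := by positivity
  have hδ4 : 4 * u ^ 4 ≤ 1 / 4 := by linarith
  have hK := t8_ker (G := G) hx (u ^ 8)
  have hPI : ∀ y, PI G x (pL G x (u ^ 8)) (gL G x (u ^ 8)) y (n + 1) s ≤
      2 * chi G x (u ^ 8) y (n + 1) s + 4 * u ^ 8 + 48 * u ^ 4 := by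
    intro y
    have := T8_PI (G := G) hB h80 hθ16 y n s hm8
    rw [hsq] at this
    linarith
  have hg : ∀ (n : ℕ) (s : St V) (z y : V), z ∈ sA G s → G.Adj y z →
      gL G x (u ^ 8) n (step G s z) y → |nn G x y (step G s z) - 1| ≤ 4 * u ^ 4 := by
    intro n s z y _ _ h
    have := T8_hg (G := G) hx hθ16 n s z y h
    rwa [hsq] at this
  have hN : |wt x (sN G s) - 1| ≤ 4 * u ^ 4 := by
    have := mass_N (G := G) hx hθ16 (by omega : 1 ≤ n + 3) hm8
    rwa [hsq] at this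
  have hY : |wt x (sN G (step G s w)) - 1| ≤ 4 * u ^ 4 := by
    have := mass_N (G := G) hx hθ16 (by omega : 1 ≤ n + 2) hm8'
    rwa [hsq] at this
  have hN' : wt x (sN G s) ≤ 1 + 4 * u ^ 4 := by linarith [(abs_le.1 hN).2]
  have hY' : wt x (sN G (step G s w)) ≤ 1 + 4 * u ^ 4 := by linarith [(abs_le.1 hY).2]
  have hu16 : u ^ 16 ≤ 1 / 16 := by linarith
  have hb := mass_B (G := G) hx hu16 (by omega : 2 ≤ n + 3) hm
  have hb' := mass_B (G := G) hx hu16 (by omega : 2 ≤ n + 2) hm'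
  have hAN : ∀ t : St V, sA G t ⊆ sN G t := by
    intro t z hz
    unfold sA at hz
    unfold sN
    rw [Finset.mem_filter] at hz ⊢
    exact ⟨hz.1, hz.2.1⟩
  constructor
  · -- part (i)
    obtain ⟨Q, hQ⟩ : ∃ Q : Finset V, Q = (sA G (step G s w)).filter
      (fun y => mm G x (n + 1) (step G (step G s w) y) < u ^ 8) := ⟨_, rfl⟩
    have hQA : Q ⊆ sA G (step G s w) := by rw [hQ]; exact Finset.filter_subset _ _
    have hQY : Q ⊆ sN G (step G s w) := hQA.trans (hAN _)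
    have hQ2 : wt x Q ≤ 2 := le_trans (T8a_wt_mono hx hQY) (by linarith)
    have hQ0 : 0 ≤ wt x Q := T8a_wt_nonneg hx Q
    have hQn : Q ⊆ nnin G (up G s) s.a := by
      intro y hy
      have h1 := hQA hy
      have e3 : y ∈ sA G (step G s w) ↔ y ∈ up G s ∧ (G.Adj w y ∧ ¬ G.Adj s.a y) := by
        unfold sA
        rw [Finset.mem_filter]
        exact Iff.rfl
      rw [e3] at h1
      unfold nnin
      rw [Finset.mem_filter]
      exact ⟨h1.1, h1.2.2⟩
    have hα : ∀ y ∈ Q, |wt x (sN G (step G (step G s w) y)) - 1| ≤ 4 * u ^ 4 := by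
      intro y hy
      rw [hQ, Finset.mem_filter] at hy
      have := T8_good (G := G) hx hθ16 hy.2
      rwa [hsq] at this
    have hac := ac_final (G := G) (x := x) (p := pL G x (u ^ 8)) (g := gL G x (u ^ 8)) hx hK
      (4 * u ^ 4) (u ^ 2) hδ hδ4 hv0 hg n s w hN' hY' Q hQY hα
    have hchi : ∑ y ∈ Q, x y * chi G x (u ^ 8) y (n + 1) s ≤ 4 * u ^ 8 := by
      have h1 := t8_x (G := G) hx h80 hθ16 (n + 1) s hm8
      have h2 : ∑ y ∈ Q, x y * chi G x (u ^ 8) y (n + 1) s ≤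
          ∑ y ∈ nnin G (up G s) s.a, x y * chi G x (u ^ 8) y (n + 1) s :=
        Finset.sum_le_sum_of_subset_of_nonneg hQn
          (fun y _ _ => mul_nonneg (hx y) (chi_nonneg hx _ _ _ _))
      have h3 : 4 / u ^ 8 * mm G x (n + 1 + 2) s = 4 * (mm G x (n + 3) s / u ^ 8) := by
        have e : n + 1 + 2 = n + 3 := by omega
        rw [e]; ring
      rw [h3] at h1
      linarith
    -- the right hand side
    have hE : ∑ z ∈ sA G s, lk G x (u ^ 8) (n + 3) s z * wt x (nnin G Q z) ^ 2 ≤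
        1100 * u ^ 2 := by
      have h1 : ∑ y ∈ Q, x y * (20 * (4 * u ^ 4) + u ^ 2 + (14 + 1 / u ^ 2) *
          PI G x (pL G x (u ^ 8)) (gL G x (u ^ 8)) y (n + 1) s) ≤
          ∑ y ∈ Q, (x y * (240 * u ^ 2) + (28 + 2 / u ^ 2) *
            (x y * chi G x (u ^ 8) y (n + 1) s)) := by
        refine Finset.sum_le_sum (fun y _ => ?_)
        have h2 : (14 + 1 / u ^ 2) * PI G x (pL G x (u ^ 8)) (gL G x (u ^ 8)) y (n + 1) s ≤
            (14 + 1 / u ^ 2) *
              (2 * chi G x (u ^ 8) y (n + 1) s + 4 * u ^ 8 + 48 * u ^ 4) :=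
          mul_le_mul_of_nonneg_left (hPI y) (by positivity)
        have h3 : (14 + 1 / u ^ 2) *
              (2 * chi G x (u ^ 8) y (n + 1) s + 4 * u ^ 8 + 48 * u ^ 4) =
            (28 + 2 / u ^ 2) * chi G x (u ^ 8) y (n + 1) s +
              (56 * u ^ 8 + 672 * u ^ 4 + 4 * u ^ 6 + 48 * u ^ 2) := by
          field_simp
          ring
        have h5 : 20 * (4 * u ^ 4) + u ^ 2 + (14 + 1 / u ^ 2) *
            PI G x (pL G x (u ^ 8)) (gL G x (u ^ 8)) y (n + 1) s ≤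
            240 * u ^ 2 + (28 + 2 / u ^ 2) * chi G x (u ^ 8) y (n + 1) s := by
          linarith
        have h7 := mul_le_mul_of_nonneg_left h5 (hx y)
        linarith
      have h2 : ∑ y ∈ Q, (x y * (240 * u ^ 2) + (28 + 2 / u ^ 2) *
            (x y * chi G x (u ^ 8) y (n + 1) s)) =
          wt x Q * (240 * u ^ 2) + (28 + 2 / u ^ 2) *
            ∑ y ∈ Q, x y * chi G x (u ^ 8) y (n + 1) s := by
        rw [Finset.sum_add_distrib, ← Finset.sum_mul, ← Finset.mul_sum]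
        rfl
      have h3 : (28 + 2 / u ^ 2) * ∑ y ∈ Q, x y * chi G x (u ^ 8) y (n + 1) s ≤
          (28 + 2 / u ^ 2) * (4 * u ^ 8) := mul_le_mul_of_nonneg_left hchi (by positivity)
      have h5 : (28 + 2 / u ^ 2) * (4 * u ^ 8) = 112 * u ^ 8 + 8 * u ^ 6 := by
        field_simp
        ring
      have h7 : wt x Q * (240 * u ^ 2) ≤ 2 * (240 * u ^ 2) :=
        mul_le_mul_of_nonneg_right hQ2 (by positivity)
      have h9 : ∑ z ∈ sA G s, lk G x (u ^ 8) (n + 3) s z * wt x (nnin G Q z) ^ 2 ≤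
        2 * ∑ y ∈ Q, x y * (20 * (4 * u ^ 4) + u ^ 2 + (14 + 1 / u ^ 2) *
          PI G x (pL G x (u ^ 8)) (gL G x (u ^ 8)) y (n + 1) s) := hac
      linarith
    -- Cauchy-Schwarz
    have hCS : ∑ z ∈ sA G s, lk G x (u ^ 8) (n + 3) s z * wt x (nnin G Q z) ≤ 34 * u := by
      have h1 : (34 * u) * ∑ z ∈ sA G s, lk G x (u ^ 8) (n + 3) s z * wt x (nnin G Q z) ≤
          (∑ z ∈ sA G s, lk G x (u ^ 8) (n + 3) s z * wt x (nnin G Q z) ^ 2) / 2 +
            (34 * u) ^ 2 / 2 * ∑ z ∈ sA G s, lk G x (u ^ 8) (n + 3) s z := by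
        rw [Finset.mul_sum, Finset.sum_div, Finset.mul_sum, ← Finset.sum_add_distrib]
        refine Finset.sum_le_sum (fun z _ => ?_)
        have h2 := mul_nonneg (lk_nonneg (G := G) hx (u ^ 8) (n + 3) s z)
          (sq_nonneg (wt x (nnin G Q z) - 34 * u))
        nlinarith
      have h2 := lk_sum_le (G := G) hx (u ^ 8) (n + 3) s
      have h3 : (34 * u) ^ 2 / 2 * ∑ z ∈ sA G s, lk G x (u ^ 8) (n + 3) s z ≤
          (34 * u) ^ 2 / 2 * 1 := mul_le_mul_of_nonneg_left h2 (by positivity)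
      have h5 : (34 * u) * ∑ z ∈ sA G s, lk G x (u ^ 8) (n + 3) s z * wt x (nnin G Q z) ≤
          (34 * u) * (34 * u) := by nlinarith
      exact le_of_mul_le_mul_left h5 (by positivity)
    have hex := (ex_bounds (G := G) hx hθ16 (by omega : 1 ≤ n + 3) hm8).1
    have hHz : Hz G x (u ^ 8) 0 (n + 3) s ≤ 3 * u ^ 8 := by
      have h1 := T8a_Hz (G := G) hx h80 hθ16 (by omega : 2 ≤ n + 3) s hm8
      have h2 : u ^ 8 * Hz G x (u ^ 8) 0 (n + 3) s ≤ u ^ 8 * (3 * u ^ 8) := by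
        have : u ^ 8 * (3 * u ^ 8) = 3 * u ^ 16 := by ring
        linarith
      exact le_of_mul_le_mul_left h2 h80
    have hHz' : Hz G x (u ^ 8) 0 (n + 2) (step G s w) ≤ 3 * u ^ 8 := by
      have h1 := T8a_Hz (G := G) hx h80 hθ16 (by omega : 2 ≤ n + 2) (step G s w) hm8'
      have h2 : u ^ 8 * Hz G x (u ^ 8) 0 (n + 2) (step G s w) ≤ u ^ 8 * (3 * u ^ 8) := by
        have : u ^ 8 * (3 * u ^ 8) = 3 * u ^ 16 := by ring
        linarith
      exact le_of_mul_le_mul_left h2 h80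
    -- sum over z
    have h1 : ∑ z ∈ sA G s, x z * wt x (nnin G Q z) ≤ 102 * u + 6 * u ^ 8 := by
      have h2 : ∀ z ∈ sA G s, x z * wt x (nnin G Q z) ≤
          3 * (lk G x (u ^ 8) (n + 3) s z * wt x (nnin G Q z)) +
            2 * (x z * (if mm G x (n + 3 - 1) (step G s z) < u ^ 8 then 0 else 1)) := by
        intro z _
        have h3 := T8a_wt_nonneg hx (nnin G Q z)
        have h5 : wt x (nnin G Q z) ≤ 2 :=
          le_trans (T8a_wt_mono hx (Finset.filter_subset _ _)) hQ2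
        have h7 := hx z
        by_cases hz : mm G x (n + 3 - 1) (step G s z) < u ^ 8
        · unfold lk
          rw [if_pos hz, if_pos hz]
          have h9 : x z * (1 / 3) ≤ x z * ex G x s := mul_le_mul_of_nonneg_left hex h7
          have h10 := mul_le_mul_of_nonneg_right h9 h3
          linarith
        · unfold lk
          rw [if_neg hz, if_neg hz]
          have := mul_le_mul_of_nonneg_left h5 h7
          linarith
      have h3 := Finset.sum_le_sum h2
      rw [Finset.sum_add_distrib, ← Finset.mul_sum, ← Finset.mul_sum] at h3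
      have h5 : ∑ z ∈ sA G s, x z * (if mm G x (n + 3 - 1) (step G s z) < u ^ 8 then 0 else 1) =
          Hz G x (u ^ 8) 0 (n + 3) s := by
        unfold Hz
        rw [if_neg (by omega)]
      rw [h5] at h3
      linarith
    have h2 : wt x (sN G (step G s w) \ Q) ≤ 2 * u ^ 16 + 3 * u ^ 8 := by
      have h3 : sN G (step G s w) \ Q ⊆ sB G (step G s w) ∪ (sA G (step G s w)).filter
          (fun y => ¬ mm G x (n + 1) (step G (step G s w) y) < u ^ 8) := by
        intro y hy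
        rw [Finset.mem_sdiff, hQ, Finset.mem_filter, not_and] at hy
        rw [Finset.mem_union, Finset.mem_filter]
        by_cases h5 : y ∈ sA G (step G s w)
        · exact Or.inr ⟨h5, hy.2 h5⟩
        · left
          have h7 := hy.1
          unfold sN at h7
          unfold sA at h5
          unfold sB
          rw [Finset.mem_filter] at h7 h5 ⊢
          refine ⟨h7.1, h7.2, ?_⟩
          by_contra h9
          exact h5 ⟨h7.1, h7.2, h9⟩
      have h5 : wt x (sB G (step G s w) ∪ (sA G (step G s w)).filter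
          (fun y => ¬ mm G x (n + 1) (step G (step G s w) y) < u ^ 8)) ≤
          wt x (sB G (step G s w)) + wt x ((sA G (step G s w)).filter
          (fun y => ¬ mm G x (n + 1) (step G (step G s w) y) < u ^ 8)) := by
        unfold wt
        rw [← Finset.sum_union_inter]
        have := T8a_wt_nonneg hx (sB G (step G s w) ∩ (sA G (step G s w)).filter
          (fun y => ¬ mm G x (n + 1) (step G (step G s w) y) < u ^ 8))
        unfold wt at this
        linarith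
      have h7 : wt x ((sA G (step G s w)).filter
          (fun y => ¬ mm G x (n + 1) (step G (step G s w) y) < u ^ 8)) =
          Hz G x (u ^ 8) 0 (n + 2) (step G s w) := by
        unfold Hz wt
        rw [if_neg (by omega), Finset.sum_filter]
        have e1 : n + 2 - 1 = n + 1 := by omega
        rw [e1]
        refine Finset.sum_congr rfl (fun y _ => ?_)
        by_cases h9 : mm G x (n + 1) (step G (step G s w) y) < u ^ 8
        · simp [h9]
        · simp [h9]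
      have h9 := T8a_wt_mono hx h3
      rw [h7] at h5
      linarith
    have h3 : ∀ z, wt x (nnin G (sN G (step G s w)) z) ≤
        wt x (nnin G Q z) + wt x (sN G (step G s w) \ Q) := by
      intro z
      have h5 : nnin G (sN G (step G s w)) z ⊆ nnin G Q z ∪ (sN G (step G s w) \ Q) := by
        intro y hy
        unfold nnin at hy ⊢
        rw [Finset.mem_filter] at hy
        rw [Finset.mem_union, Finset.mem_filter, Finset.mem_sdiff]
        by_cases h7 : y ∈ Q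
        · exact Or.inl ⟨h7, hy.2⟩
        · exact Or.inr ⟨hy.1, h7⟩
      refine le_trans (T8a_wt_mono hx h5) ?_
      unfold wt
      rw [← Finset.sum_union_inter]
      have := T8a_wt_nonneg hx (nnin G Q z ∩ (sN G (step G s w) \ Q))
      unfold wt at this
      linarith
    rw [T8_symm]
    have h5 : ∑ z ∈ sA G s, x z * wt x (nnin G (sN G (step G s w)) z) ≤
        ∑ z ∈ sA G s, (x z * wt x (nnin G Q z) + x z * (2 * u ^ 16 + 3 * u ^ 8)) := by
      refine Finset.sum_le_sum (fun z _ => ?_)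
      rw [← mul_add]
      refine mul_le_mul_of_nonneg_left ?_ (hx z)
      have := h3 z
      linarith
    rw [Finset.sum_add_distrib, ← Finset.sum_mul] at h5
    have h7 : ∑ z ∈ sA G s, x z ≤ 2 := by
      have : wt x (sA G s) ≤ wt x (sN G s) := T8a_wt_mono hx (hAN s)
      unfold wt at this hN'
      linarith
    have h9 : (∑ z ∈ sA G s, x z) * (2 * u ^ 16 + 3 * u ^ 8) ≤ 2 * (2 * u ^ 16 + 3 * u ^ 8) :=
      mul_le_mul_of_nonneg_right h7 (by positivity)
    linarith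
  · -- part (ii)
    intro y hy hmy
    have hmy8 : mm G x (n + 1) (step G (step G s w) y) < u ^ 8 := by linarith
    have hα : |wt x (sN G (step G (step G s w) y)) - 1| ≤ 4 * u ^ 4 := by
      have := T8_good (G := G) hx hθ16 hmy8
      rwa [hsq] at this
    have h1 := K12 (G := G) (x := x) (p := pL G x (u ^ 8)) (g := gL G x (u ^ 8)) hx hK
      (4 * u ^ 4) hδ hδ4 y (fun n s z hz hyz h => hg n s z y hz hyz h) n s w hN' hY' hα
    have h2 := T8_KM (G := G) (x := x) (θ₂ := u ^ 8) hx y n s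
    have h3 := hPI y
    have h5 := T8a_nu_split (G := G) (x := x) s y
    have h7 : wt x (nbin G (sB G s) y) ≤ wt x (sB G s) :=
      T8a_wt_mono hx (Finset.filter_subset _ _)
    have h9 : wt x (nnin G (sN G (step G s w)) y) ≤ 2 :=
      le_trans (T8a_wt_mono hx (Finset.filter_subset _ _)) (by linarith)
    have h10 := T8a_wt_nonneg hx (nnin G (sN G (step G s w)) y)
    have h11 : (1 - wt x (nbin G (sA G s) y)) * wt x (nnin G (sN G (step G s w)) y) ≤
        (1 - nu G x y s) * wt x (nnin G (sN G (step G s w)) y) +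
          2 * u ^ 16 * wt x (nnin G (sN G (step G s w)) y) := by
      rw [← add_mul]
      refine mul_le_mul_of_nonneg_right ?_ h10
      linarith
    have h12 : 2 * u ^ 16 * wt x (nnin G (sN G (step G s w)) y) ≤ 2 * u ^ 16 * 2 :=
      mul_le_mul_of_nonneg_left h9 (by positivity)
    linarith

end

theorem t8 (η θ₀ : ℝ) (hη : 0 < η) (hθ₀ : 0 < θ₀) : ∃ θ₂ θ : ℝ, 0 < θ ∧ θ ≤ θ₂ ∧ θ₂ ≤ θ₀ ∧
    θ₂ ≤ 1 / 256 ∧
    ∀ (V : Type) (G : SimpleGraph V) (x : V → ℝ), Base G x → T8P G x θ₂ θ η := by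
  obtain ⟨u, hu0, hu1, hu2, hu3⟩ : ∃ u : ℝ, 0 < u ∧ u ≤ 1 / 2 ∧ u ≤ η / 200 ∧ u ≤ θ₀ :=
    ⟨min (1 / 2) (min (η / 200) θ₀), by positivity, min_le_left _ _,
      le_trans (min_le_right _ _) (min_le_left _ _), le_trans (min_le_right _ _) (min_le_right _ _)⟩
  have h8 : u ^ 8 ≤ u := pow_le_of_le_one hu0.le (by linarith) (by norm_num)
  refine ⟨u ^ 8, u ^ 16, by positivity, pow_le_pow_of_le_one hu0.le (by linarith) (by norm_num),
    by linarith, ?_, ?_⟩
  · calc u ^ 8 ≤ (1 / 2) ^ 8 := pow_le_pow_left₀ hu0.le hu1 8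
      _ = 1 / 256 := by norm_num
  · intro V G x hB r s w hr hw hm hm'
    obtain ⟨n, rfl⟩ : ∃ n, r = n + 3 := ⟨r - 3, by omega⟩
    have e1 : n + 3 - 1 = n + 2 := by omega
    have e2 : n + 3 - 2 = n + 1 := by omega
    rw [e1] at hm'
    rw [e2]
    obtain ⟨h1, h2⟩ := T8_core (G := G) hB hu0 hu1 hw hm hm'
    refine ⟨by linarith, fun y hy hmy => ?_⟩
    have := h2 y hy hmy
    linarith

end Pool.Agent.Icy
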