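import Pool.Agent.Icy.Drift
import Pool.Agent.Icy.Mass

/-!
# Budgets of the growth process

`t8_ker`: `pL` is a sub-probability kernel.
`t8_rr`: induction.  Step (`L z = lk θ (n+3) s z`): `1 - RR - chi = 1 - Σ_{z~y} L - Σ_{z≁y} L (RR_n +
chi_n)(s_z) ≤ (1 - Σ L) + Σ L mm(s_z)/θ`, `1 - Σ L = l1 + ex Hz 0`, `drift`.
`t8_cc`: induction with the claim `CC ≤ 8 √θ wt (nbin U y) + (2/θ) mm`.  Step: `|nu - Σ_{z~y} L| ≤ b +
|1-ex| nu + ex Hz 0`, `b ≤ 2 l1` (`mass_B`, `b_le_l1`), `|1 - ex| ≤ 8√θ`, `nbin U y` is the disjoint union of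
`nbin (sN s) y` and `nbin (up s) y`, `drift`.
`t8_x`: claim `Hz 0 (n+2) s + Σ_{y ∈ nnin (up s) a} x_y chi y n s ≤ (4/θ) mm`.  `n = 0`: `Hz 0 ≤ 3 mm/θ`
(`drift`), `mass_left`.  Step: exchange sums; `{y ∈ up s, y ≁ a, y ~ z} = sA (s_z)` gives `Hz 0 (s_z)`,
`{y ∈ up s, y ≁ a, y ≁ z} = nnin (up (s_z)) a`; `drift`, `ex ≥ 1/3`.
-/

set_option autoImplicit false

open Finset
open scoped Classical

namespace Pool.Agent.Icy

set_option linter.unusedSectionVars false

variable {V : Type} {G : SimpleGraph V} {x : V → ℝ}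

theorem T8a_wt_nonneg (hx : ∀ v, 0 ≤ x v) (S : Finset V) : 0 ≤ wt x S :=
  Finset.sum_nonneg (fun v _ => hx v)

theorem T8a_wt_mono (hx : ∀ v, 0 ≤ x v) {S S' : Finset V} (h : S ⊆ S') : wt x S ≤ wt x S' :=
  Finset.sum_le_sum_of_subset_of_nonneg h (fun v _ _ => hx v)

theorem T8a_lk_zero {θ : ℝ} {r : ℕ} {s : St V} {z : V} (h : ¬ mm G x (r - 1) (step G s z) < θ) :
    lk G x θ r s z = 0 := by
  unfold lk
  rw [if_neg h, mul_zero]

/-- mass of the kernel -/
theorem T8a_sum_lk (θ : ℝ) (r : ℕ) (hr : 2 ≤ r) (s : St V) :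
    1 - ∑ z ∈ sA G s, lk G x θ r s z = l1 G x s + ex G x s * Hz G x θ 0 r s := by
  have h1 : Hz G x θ 0 r s =
      ∑ z ∈ sA G s, x z * (if mm G x (r - 1) (step G s z) < θ then 0 else 1) := by
    unfold Hz
    rw [if_neg (by omega)]
  rw [h1, l1]
  unfold wt lk
  rw [Finset.sum_mul, Finset.mul_sum]
  have h2 : ∀ z, x z * ex G x s * (if mm G x (r - 1) (step G s z) < θ then (1 : ℝ) else 0) =
      x z * ex G x s - ex G x s * (x z * (if mm G x (r - 1) (step G s z) < θ then 0 else 1)) := by
    intro z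
    split_ifs <;> ring
  simp_rw [h2]
  rw [Finset.sum_sub_distrib]
  ring

theorem t8_ker (hx : ∀ v, 0 ≤ x v) (θ : ℝ) : Ker G (pL G x θ) :=
  ⟨fun n s z => lk_nonneg hx θ (n + 2) s z, fun n s => lk_sum_le hx θ (n + 2) s⟩

theorem t8_rr (hx : ∀ v, 0 ≤ x v) {θ : ℝ} (hθ0 : 0 < θ) (hθ : θ ≤ 1 / 16) (y : V) (n : ℕ)
    (s : St V) (hm : mm G x (n + 2) s < θ) :
    1 - RR G (pL G x θ) (gL G x θ) y n s ≤ chi G x θ y n s + mm G x (n + 2) s / θ := by
  induction n generalizing s with
  | zero =>
    have h1 : RR G (pL G x θ) (gL G x θ) y 0 s = 0 := rfl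
    have h2 : chi G x θ y 0 s = 1 := rfl
    rw [h1, h2]
    have := div_nonneg (mm_nonneg (G := G) hx (by norm_num : 1 ≤ 0 + 2) s) hθ0.le
    linarith
  | succ n ih =>
    have h1 : RR G (pL G x θ) (gL G x θ) y (n + 1) s = ∑ z ∈ sA G s, lk G x θ (n + 3) s z *
      (if G.Adj y z then (if mm G x (n + 1) (step G (step G s z) y) < θ then 1 else 0)
        else RR G (pL G x θ) (gL G x θ) y n (step G s z)) := rfl
    have h2 : chi G x θ y (n + 1) s = ∑ z ∈ sA G s, lk G x θ (n + 3) s z *
      (if G.Adj y z then (if mm G x (n + 1) (step G (step G s z) y) < θ then 0 else 1)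
        else chi G x θ y n (step G s z)) := rfl
    have h3 : ∑ z ∈ sA G s, lk G x θ (n + 3) s z * (1 - mm G x (n + 2) (step G s z) / θ) ≤
        RR G (pL G x θ) (gL G x θ) y (n + 1) s + chi G x θ y (n + 1) s := by
      rw [h1, h2, ← Finset.sum_add_distrib]
      refine Finset.sum_le_sum (fun z _ => ?_)
      rw [← mul_add]
      by_cases hz : mm G x (n + 2) (step G s z) < θ
      · refine mul_le_mul_of_nonneg_left ?_ (lk_nonneg hx _ _ _ _)
        have h4 := div_nonneg (mm_nonneg (G := G) hx (by omega : 1 ≤ n + 2) (step G s z)) hθ0.le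
        by_cases hyz : G.Adj y z
        · rw [if_pos hyz, if_pos hyz]
          split_ifs <;> linarith
        · rw [if_neg hyz, if_neg hyz]
          have := ih (step G s z) hz
          linarith
      · rw [T8a_lk_zero (r := n + 3) hz]
        simp
    have h4 := T8a_sum_lk (G := G) (x := x) θ (n + 3) (by omega) s
    have h5 := drift (G := G) hx θ (by omega : 2 ≤ n + 3) s
    have e1 : n + 3 - 1 = n + 2 := by omega
    rw [e1] at h5
    have h6 : ∑ z ∈ sA G s, lk G x θ (n + 3) s z * (1 - mm G x (n + 2) (step G s z) / θ) =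
        ∑ z ∈ sA G s, lk G x θ (n + 3) s z -
          (∑ z ∈ sA G s, lk G x θ (n + 3) s z * mm G x (n + 2) (step G s z)) / θ := by
      rw [Finset.sum_div, ← Finset.sum_sub_distrib]
      refine Finset.sum_congr rfl (fun z _ => ?_)
      ring
    have h7 : (∑ z ∈ sA G s, lk G x θ (n + 3) s z * mm G x (n + 2) (step G s z)) / θ ≤
        (mm G x (n + 3) s - l1 G x s - θ * ex G x s * Hz G x θ 0 (n + 3) s) / θ :=
      div_le_div_of_nonneg_right h5 hθ0.le
    have h8 : (mm G x (n + 3) s - l1 G x s - θ * ex G x s * Hz G x θ 0 (n + 3) s) / θ =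
        mm G x (n + 3) s / θ - l1 G x s / θ - ex G x s * Hz G x θ 0 (n + 3) s := by
      field_simp
    have h9 : l1 G x s ≤ l1 G x s / θ := by
      rw [le_div_iff₀ hθ0]
      have := l1_nonneg (G := G) hx s
      nlinarith
    have e2 : n + 1 + 2 = n + 3 := by omega
    rw [e2]
    linarith

theorem T8a_nbin_split (s : St V) (y : V) :
    nu G x y s + wt x (nbin G (up G s) y) = wt x (nbin G s.U y) := by
  unfold nu wt nbin sN up
  rw [← Finset.sum_filter_add_sum_filter_not (s.U.filter (fun u => G.Adj y u)) (fun u => G.Adj s.b u)]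
  congr 1
  · congr 1
    ext u
    simp only [Finset.mem_filter]
    tauto
  · congr 1
    ext u
    simp only [Finset.mem_filter]
    tauto

theorem T8a_nu_split (s : St V) (y : V) :
    nu G x y s = wt x (nbin G (sA G s) y) + wt x (nbin G (sB G s) y) := by
  unfold nu wt nbin sN sA sB
  rw [← Finset.sum_filter_add_sum_filter_not
    ((s.U.filter (fun u => G.Adj s.b u)).filter (fun u => G.Adj y u)) (fun u => ¬ G.Adj s.a u)]
  congr 1
  · congr 1
    ext u
    simp only [Finset.mem_filter]
    tauto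
  · congr 1
    ext u
    simp only [Finset.mem_filter]
    tauto

theorem T8a_cc (hx : ∀ v, 0 ≤ x v) {θ : ℝ} (hθ0 : 0 < θ) (hθ : θ ≤ 1 / 16) (y : V) (n : ℕ)
    (s : St V) (hm : mm G x (n + 2) s < θ) :
    CC G x (pL G x θ) y n s ≤ 8 * Real.sqrt θ * wt x (nbin G s.U y) +
      2 / θ * mm G x (n + 2) s := by
  have hsq : 0 ≤ Real.sqrt θ := Real.sqrt_nonneg θ
  induction n generalizing s with
  | zero =>
    have h1 : CC G x (pL G x θ) y 0 s = 0 := rfl
    rw [h1]
    have h2 := mm_nonneg (G := G) hx (by norm_num : 1 ≤ 0 + 2) s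
    have h3 := T8a_wt_nonneg hx (nbin G s.U y)
    positivity
  | succ n ih =>
    have h1 : CC G x (pL G x θ) y (n + 1) s =
      |nu G x y s - ∑ z ∈ sA G s, (if G.Adj y z then lk G x θ (n + 3) s z else 0)| +
      ∑ z ∈ sA G s, lk G x θ (n + 3) s z *
        (if G.Adj y z then 0 else CC G x (pL G x θ) y n (step G s z)) := rfl
    have hm' : mm G x (n + 3) s < θ := hm
    have hexb := ex_bounds (G := G) hx hθ (by omega : 1 ≤ n + 3) hm'
    have hB := mass_B (G := G) hx hθ (by omega : 2 ≤ n + 3) hm'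
    have hbl := b_le_l1 (G := G) hx (s := s) (by linarith)
    have hl1 := l1_nonneg (G := G) hx s
    have hHz := Hz_nonneg (G := G) hx θ 0 (n + 3) s
    have hex0 : 0 ≤ ex G x s := by linarith [hexb.1]
    have hbA := T8a_wt_nonneg hx (nbin G (sA G s) y)
    have hbB := T8a_wt_nonneg hx (nbin G (sB G s) y)
    -- first part
    have h2 : |nu G x y s - ∑ z ∈ sA G s, (if G.Adj y z then lk G x θ (n + 3) s z else 0)| ≤
        2 * l1 G x s + 8 * Real.sqrt θ * nu G x y s + ex G x s * Hz G x θ 0 (n + 3) s := by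
      have h3 : ∑ z ∈ sA G s, (if G.Adj y z then lk G x θ (n + 3) s z else 0) =
          ex G x s * wt x (nbin G (sA G s) y) - ex G x s *
            ∑ z ∈ sA G s, (if G.Adj y z then
              x z * (if mm G x (n + 2) (step G s z) < θ then 0 else 1) else 0) := by
        unfold wt nbin
        rw [Finset.sum_filter, Finset.mul_sum, Finset.mul_sum, ← Finset.sum_sub_distrib]
        refine Finset.sum_congr rfl (fun z _ => ?_)
        by_cases hyz : G.Adj y z
        · rw [if_pos hyz, if_pos hyz, if_pos hyz]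
          unfold lk
          have e1 : n + 3 - 1 = n + 2 := by omega
          rw [e1]
          split_ifs <;> ring
        · rw [if_neg hyz, if_neg hyz, if_neg hyz]
          ring
      have h4 : ∑ z ∈ sA G s, (if G.Adj y z then
              x z * (if mm G x (n + 2) (step G s z) < θ then 0 else 1) else 0) ≤
            Hz G x θ 0 (n + 3) s := by
        unfold Hz
        rw [if_neg (by omega)]
        refine Finset.sum_le_sum (fun z _ => ?_)
        have e1 : n + 3 - 1 = n + 2 := by omega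
        rw [e1]
        have := hx z
        split_ifs <;> simp [this]
      have h5 : 0 ≤ ∑ z ∈ sA G s, (if G.Adj y z then
              x z * (if mm G x (n + 2) (step G s z) < θ then 0 else 1) else 0) := by
        refine Finset.sum_nonneg (fun z _ => ?_)
        have := hx z
        split_ifs <;> simp [this]
      obtain ⟨W, hW⟩ : ∃ W, W = ∑ z ∈ sA G s, (if G.Adj y z then
              x z * (if mm G x (n + 2) (step G s z) < θ then (0 : ℝ) else 1) else 0) := ⟨_, rfl⟩
      rw [← hW] at h3 h4 h5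
      rw [h3, T8a_nu_split]
      have h6 : wt x (nbin G (sB G s) y) ≤ wt x (sB G s) :=
        T8a_wt_mono hx (Finset.filter_subset _ _)
      have h7 : |wt x (nbin G (sA G s) y) * (1 - ex G x s)| ≤
          8 * Real.sqrt θ * wt x (nbin G (sA G s) y) := by
        rw [abs_mul, abs_of_nonneg hbA, abs_sub_comm]
        have := mul_le_mul_of_nonneg_left hexb.2.2 hbA
        linarith
      have h8 := abs_le.1 h7
      have h9 : ex G x s * W ≤ ex G x s * Hz G x θ 0 (n + 3) s :=
        mul_le_mul_of_nonneg_left h4 hex0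
      have h10 : 0 ≤ ex G x s * W := mul_nonneg hex0 h5
      have h11 : 0 ≤ 8 * Real.sqrt θ * wt x (nbin G (sB G s) y) := by positivity
      rw [abs_le]
      constructor <;> nlinarith [h8.1, h8.2]
    have h3 : ∑ z ∈ sA G s, lk G x θ (n + 3) s z *
        (if G.Adj y z then 0 else CC G x (pL G x θ) y n (step G s z)) ≤
        8 * Real.sqrt θ * wt x (nbin G (up G s) y) +
          2 / θ * (mm G x (n + 3) s - l1 G x s - θ * ex G x s * Hz G x θ 0 (n + 3) s) := by
      have hnb := T8a_wt_nonneg hx (nbin G (up G s) y)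
      have h4 : ∑ z ∈ sA G s, lk G x θ (n + 3) s z *
          (if G.Adj y z then 0 else CC G x (pL G x θ) y n (step G s z)) ≤
          ∑ z ∈ sA G s, lk G x θ (n + 3) s z *
            (8 * Real.sqrt θ * wt x (nbin G (up G s) y) + 2 / θ * mm G x (n + 2) (step G s z)) := by
        refine Finset.sum_le_sum (fun z _ => ?_)
        by_cases hz : mm G x (n + 2) (step G s z) < θ
        · refine mul_le_mul_of_nonneg_left ?_ (lk_nonneg hx _ _ _ _)
          split_ifs
          · have h2 := mm_nonneg (G := G) hx (by omega : 1 ≤ n + 2) (step G s z)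
            positivity
          · exact ih (step G s z) hz
        · rw [T8a_lk_zero (r := n + 3) hz]
          simp
      refine le_trans h4 ?_
      have h5 : ∑ z ∈ sA G s, lk G x θ (n + 3) s z *
            (8 * Real.sqrt θ * wt x (nbin G (up G s) y) + 2 / θ * mm G x (n + 2) (step G s z)) =
          (∑ z ∈ sA G s, lk G x θ (n + 3) s z) * (8 * Real.sqrt θ * wt x (nbin G (up G s) y)) +
          2 / θ * ∑ z ∈ sA G s, lk G x θ (n + 3) s z * mm G x (n + 2) (step G s z) := by
        rw [Finset.sum_mul, Finset.mul_sum, ← Finset.sum_add_distrib]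
        refine Finset.sum_congr rfl (fun z _ => ?_)
        ring
      rw [h5]
      have h6 := lk_sum_le (G := G) hx θ (n + 3) s
      have h7 := drift (G := G) hx θ (by omega : 2 ≤ n + 3) s
      have e1 : n + 3 - 1 = n + 2 := by omega
      rw [e1] at h7
      have h8 : 0 ≤ 2 / θ := by positivity
      have h9 := mul_le_mul_of_nonneg_left h7 h8
      have h10 : 0 ≤ 8 * Real.sqrt θ * wt x (nbin G (up G s) y) := by positivity
      nlinarith
    have h4 := T8a_nbin_split (G := G) (x := x) s y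
    have h5 : 2 / θ * (mm G x (n + 3) s - l1 G x s - θ * ex G x s * Hz G x θ 0 (n + 3) s) =
        2 / θ * mm G x (n + 3) s - 2 * (l1 G x s / θ) - 2 * (ex G x s * Hz G x θ 0 (n + 3) s) := by
      field_simp
    have h9 : l1 G x s ≤ l1 G x s / θ := by
      rw [le_div_iff₀ hθ0]
      nlinarith
    have h10 : 0 ≤ ex G x s * Hz G x θ 0 (n + 3) s := mul_nonneg hex0 hHz
    have e2 : n + 1 + 2 = n + 3 := by omega
    rw [e2, h1, ← h4]
    rw [h5] at h3
    linarith

theorem t8_cc (hB : Base G x) {θ : ℝ} (hθ0 : 0 < θ) (hθ : θ ≤ 1 / 16) (y : V) (n : ℕ)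
    (s : St V) (hm : mm G x (n + 2) s < θ) :
    CC G x (pL G x θ) y n s ≤ 48 * Real.sqrt θ + 2 / θ * mm G x (n + 2) s := by
  have h1 := T8a_cc (G := G) hB.nonneg hθ0 hθ y n s hm
  have h2 := hB.six y s.U
  have h3 : 0 ≤ 8 * Real.sqrt θ := by positivity
  have := mul_le_mul_of_nonneg_left h2 h3
  linarith

theorem chi_nonneg (hx : ∀ v, 0 ≤ x v) (θ : ℝ) (y : V) (n : ℕ) (s : St V) :
    0 ≤ chi G x θ y n s := by
  induction n generalizing s with
  | zero => exact zero_le_one
  | succ n ih =>
    have h2 : chi G x θ y (n + 1) s = ∑ z ∈ sA G s, lk G x θ (n + 3) s z *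
      (if G.Adj y z then (if mm G x (n + 1) (step G (step G s z) y) < θ then 0 else 1)
        else chi G x θ y n (step G s z)) := rfl
    rw [h2]
    refine Finset.sum_nonneg (fun z _ => mul_nonneg (lk_nonneg hx _ _ _ _) ?_)
    split_ifs
    · exact le_rfl
    · exact zero_le_one
    · exact ih _

theorem T8a_Hz (hx : ∀ v, 0 ≤ x v) {θ : ℝ} (hθ0 : 0 < θ) (hθ : θ ≤ 1 / 16) {r : ℕ} (hr : 2 ≤ r)
    (s : St V) (hm : mm G x r s < θ) : θ * Hz G x θ 0 r s ≤ 3 * mm G x r s := by
  have h5 := drift (G := G) hx θ hr s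
  have h6 : 0 ≤ ∑ z ∈ sA G s, lk G x θ r s z * mm G x (r - 1) (step G s z) :=
    Finset.sum_nonneg (fun z _ => mul_nonneg (lk_nonneg hx _ _ _ _)
      (mm_nonneg hx (by omega) _))
  have h7 := l1_nonneg (G := G) hx s
  have h8 := (ex_bounds (G := G) hx hθ (by omega : 1 ≤ r) hm).1
  have h9 := mul_nonneg hθ0.le (Hz_nonneg (G := G) hx θ 0 r s)
  nlinarith

theorem T8a_x (hx : ∀ v, 0 ≤ x v) {θ : ℝ} (hθ0 : 0 < θ) (hθ : θ ≤ 1 / 16) (n : ℕ)
    (s : St V) (hm : mm G x (n + 2) s < θ) :
    Hz G x θ 0 (n + 2) s + ∑ y ∈ nnin G (up G s) s.a, x y * chi G x θ y n s ≤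
      4 / θ * mm G x (n + 2) s := by
  induction n generalizing s with
  | zero =>
    have h1 := T8a_Hz (G := G) hx hθ0 hθ (by norm_num : 2 ≤ 0 + 2) s hm
    have h2 : ∑ y ∈ nnin G (up G s) s.a, x y * chi G x θ y 0 s = wt x (nnin G (up G s) s.a) := by
      unfold wt
      refine Finset.sum_congr rfl (fun y _ => ?_)
      have : chi G x θ y 0 s = 1 := rfl
      rw [this, mul_one]
    have h3 := mass_left (G := G) hx (s := s) (by
      have : mm G x 2 s < θ := hm
      linarith)
    rw [h2]
    have h4 := mm_nonneg (G := G) hx (by norm_num : 1 ≤ 0 + 2) s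
    have e : mm G x (0 + 2) s = mm G x 2 s := rfl
    rw [e] at h1 h4 ⊢
    rw [div_mul_eq_mul_div, le_div_iff₀ hθ0]
    have h5 : (0 : ℕ) + 2 = 2 := rfl
    rw [h5] at h1 ⊢
    nlinarith
  | succ n ih =>
    have hm' : mm G x (n + 3) s < θ := hm
    have h2 : ∀ y, chi G x θ y (n + 1) s = ∑ z ∈ sA G s, lk G x θ (n + 3) s z *
      (if G.Adj y z then (if mm G x (n + 1) (step G (step G s z) y) < θ then 0 else 1)
        else chi G x θ y n (step G s z)) := fun y => rfl
    have h3 : ∑ y ∈ nnin G (up G s) s.a, x y * chi G x θ y (n + 1) s =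
        ∑ z ∈ sA G s, lk G x θ (n + 3) s z * (Hz G x θ 0 (n + 2) (step G s z) +
          ∑ y ∈ nnin G (up G (step G s z)) (step G s z).a, x y * chi G x θ y n (step G s z)) := by
      simp_rw [h2, Finset.mul_sum]
      rw [Finset.sum_comm]
      refine Finset.sum_congr rfl (fun z _ => ?_)
      have h4 : Hz G x θ 0 (n + 2) (step G s z) = ∑ y ∈ nnin G (up G s) s.a,
          if G.Adj y z then x y * (if mm G x (n + 1) (step G (step G s z) y) < θ then 0 else 1)
            else 0 := by
        unfold Hz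
        rw [if_neg (by omega), ← Finset.sum_filter]
        have e1 : n + 2 - 1 = n + 1 := by omega
        rw [e1]
        have e2 : sA G (step G s z) = (nnin G (up G s) s.a).filter (fun y => G.Adj y z) := by
          ext u
          have e3 : u ∈ sA G (step G s z) ↔ u ∈ up G s ∧ (G.Adj z u ∧ ¬ G.Adj s.a u) := by
            unfold sA
            rw [Finset.mem_filter]
            exact Iff.rfl
          rw [e3]
          unfold nnin
          rw [Finset.mem_filter, Finset.mem_filter, G.adj_comm u z]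
          tauto
        rw [e2]
      have h5 : ∑ y ∈ nnin G (up G (step G s z)) (step G s z).a,
          x y * chi G x θ y n (step G s z) =
          ∑ y ∈ nnin G (up G s) s.a, if ¬ G.Adj y z then
            x y * chi G x θ y n (step G s z) else 0 := by
        rw [← Finset.sum_filter]
        have e2 : nnin G (up G (step G s z)) (step G s z).a =
            (nnin G (up G s) s.a).filter (fun y => ¬ G.Adj y z) := by
          ext u
          have e3 : u ∈ up G (step G s z) ↔ u ∈ up G s ∧ ¬ G.Adj z u := by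
            rw [up, Finset.mem_filter]
            exact Iff.rfl
          have e4 : (step G s z).a = s.a := rfl
          unfold nnin
          rw [Finset.mem_filter, Finset.mem_filter, Finset.mem_filter, e3, e4, G.adj_comm u z]
          tauto
        rw [e2]
      rw [h4, h5, ← Finset.sum_add_distrib, Finset.mul_sum]
      refine Finset.sum_congr rfl (fun y _ => ?_)
      by_cases hyz : G.Adj y z
      · simp only [hyz, if_true, not_true_eq_false, if_false]
        ring
      · simp only [hyz, if_false, not_false_eq_true, if_true]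
        ring
    have h4 : ∑ z ∈ sA G s, lk G x θ (n + 3) s z * (Hz G x θ 0 (n + 2) (step G s z) +
          ∑ y ∈ nnin G (up G (step G s z)) (step G s z).a, x y * chi G x θ y n (step G s z)) ≤
        ∑ z ∈ sA G s, lk G x θ (n + 3) s z * (4 / θ * mm G x (n + 2) (step G s z)) := by
      refine Finset.sum_le_sum (fun z _ => ?_)
      by_cases hz : mm G x (n + 2) (step G s z) < θ
      · exact mul_le_mul_of_nonneg_left (ih (step G s z) hz) (lk_nonneg hx _ _ _ _)
      · rw [T8a_lk_zero (r := n + 3) hz]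
        simp
    have h5 : ∑ z ∈ sA G s, lk G x θ (n + 3) s z * (4 / θ * mm G x (n + 2) (step G s z)) =
        4 / θ * ∑ z ∈ sA G s, lk G x θ (n + 3) s z * mm G x (n + 2) (step G s z) := by
      rw [Finset.mul_sum]
      refine Finset.sum_congr rfl (fun z _ => ?_)
      ring
    have h7 := drift (G := G) hx θ (by omega : 2 ≤ n + 3) s
    have e1 : n + 3 - 1 = n + 2 := by omega
    rw [e1] at h7
    have h8 : 0 ≤ 4 / θ := by positivity
    have h9 := mul_le_mul_of_nonneg_left h7 h8
    have h10 : 4 / θ * (mm G x (n + 3) s - l1 G x s - θ * ex G x s * Hz G x θ 0 (n + 3) s) =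
        4 / θ * mm G x (n + 3) s - 4 * (l1 G x s / θ) - 4 * (ex G x s * Hz G x θ 0 (n + 3) s) := by
      field_simp
    have h11 := (ex_bounds (G := G) hx hθ (by omega : 1 ≤ n + 3) hm').1
    have h12 := Hz_nonneg (G := G) hx θ 0 (n + 3) s
    have h13 := mul_le_mul_of_nonneg_right h11 h12
    have h14 : 0 ≤ l1 G x s / θ := div_nonneg (l1_nonneg hx s) hθ0.le
    have e2 : n + 1 + 2 = n + 3 := by omega
    rw [e2, h3]
    linarith

theorem t8_x (hx : ∀ v, 0 ≤ x v) {θ : ℝ} (hθ0 : 0 < θ) (hθ : θ ≤ 1 / 16) (n : ℕ)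
    (s : St V) (hm : mm G x (n + 2) s < θ) :
    ∑ y ∈ nnin G (up G s) s.a, x y * chi G x θ y n s ≤ 4 / θ * mm G x (n + 2) s := by
  have h1 := T8a_x (G := G) hx hθ0 hθ n s hm
  have h2 := Hz_nonneg (G := G) hx θ 0 (n + 2) s
  linarith

end Pool.Agent.Icy
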