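import Pool.Agent.Icy.T8

/-!
# Definitions for T9
-/

set_option autoImplicit false

open Finset
open scoped Classical

namespace Pool.Agent.Icy

variable {V : Type} (G : SimpleGraph V) (x : V → ℝ)

/-- weight of the triples `(w, z, y)`, `w, z ∈ sA s`, `y ∈ up s`, `y ~ w`, `y ≁ z` -/
noncomputable def TT (s : St V) : ℝ :=
  ∑ y ∈ up G s, x y * (wt x (nbin G (sA G s) y) * wt x (nnin G (sA G s) y))

/-- `y` is a hazardous third vertex: weight of the `(u, v)` -/
noncomputable def hz3 (θ : ℝ) (r : ℕ) (s : St V) (y : V) : ℝ :=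
  ∑ u ∈ sA G s, x u * (if mm G x (r - 1) (step G s u) < θ then
    ∑ v ∈ sA G (step G s u), x v * (if mm G x (r - 2) (step G (step G s u) v) < θ ∧
      y ∈ sA G (step G (step G s u) v) ∧
      ¬ mm G x (r - 3) (step G (step G (step G s u) v) y) < θ then 1 else 0) else 0)

/-- `(w, v, y)` hazardous: weight of the `v` -/
noncomputable def hw3 (θ : ℝ) (r : ℕ) (s : St V) (w y : V) : ℝ :=
  ∑ v ∈ sA G (step G s w), x v * (if mm G x (r - 2) (step G (step G s w) v) < θ ∧
    y ∈ sA G (step G (step G s w) v) ∧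
    ¬ mm G x (r - 3) (step G (step G (step G s w) v) y) < θ then 1 else 0)

/-- `(w, v, v', y)` hazardous: weight of the `(v, v')` -/
noncomputable def hw4 (θ : ℝ) (r : ℕ) (s : St V) (w y : V) : ℝ :=
  ∑ v ∈ sA G (step G s w), x v * (if mm G x (r - 2) (step G (step G s w) v) < θ then
    ∑ v' ∈ sA G (step G (step G s w) v), x v' *
      (if mm G x (r - 3) (step G (step G (step G s w) v) v') < θ ∧
        y ∈ sA G (step G (step G (step G s w) v) v') ∧
        ¬ mm G x (r - 4) (step G (step G (step G (step G s w) v) v') y) < θ then 1 else 0)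
    else 0)

end Pool.Agent.Icy
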