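import Pool.Agent.Icy.CaseA
import Pool.Agent.Icy.CaseMis
import Pool.Agent.Icy.Drift

/-!
# T9 at one state

If `Hz 0` or `Hz 1` exceeds `1/1000` then `TT ≤ 2 Σ_w x_w wt (sN (step s w)) ≤ 24` suffices.  Else split
the `y ∈ up s`:
(a) `y ~ a`: `≤ 2 Σ_{w∈sA} x_w wt (sB (step s w))`.
(b) `y ≁ a`, miss `= wt (nnin (sA s) y) > 1/10`: `≤ 2 Σ_{w∈sA} x_w wt {y ∈ sA (step s w)}`:
 `¬ mm (s_w) < θ`: `6 Hz 0`; `¬ mm (s_wy) < θ`: `Hz 1`; `wt (nnin (sN (step s w)) y) < 1/2`: `caseA`,
 these `y` have total weight `≤ 100 Σ_y x_y hz3 = 100 Hz 2`, times `wt sA ≤ 2`; `≥ 1/2`: `T8P` (ii) gives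
 `chi ≥ 1/200` (`1 - wt (nbin (sA s) y) ≥ 1/10 - σ`).
(c) `y ≁ a`, miss `≤ 1/10`: `≤ 2 Σ_y Σ_{w ∈ nnin (sA s) y} x_y x_w`.  `y` violating `hU` of `caseMis`:
 weight `≤ 3 Hz 1`; the `y` have total weight `≤ 14`; `w` with `¬ mm (s_w) < θ`: `14 Hz 0`; with
 `Hz 0 (r-1) (s_w) > 1/20`: weight `≤ 20 Hz 1`; with `Hz 1 (r-1) (s_w) > 1/20`: `≤ 20 Hz 2`; else
 `caseMis` and `Σ_w Σ_y x_w x_y hw3 ≤ Hz 2`, `Σ Σ x_w x_y hw4 ≤ Hz 3` (over `w` with `mm (s_w) < θ`).
-/

set_option autoImplicit false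

open Finset
open scoped Classical

namespace Pool.Agent.Icy

variable {V : Type} {G : SimpleGraph V} {x : V → ℝ}

lemma T9pt_Hz0 (θ : ℝ) {r : ℕ} (hr : 2 ≤ r) (s : St V) :
    Hz G x θ 0 r s = ∑ z ∈ sA G s, x z * (if mm G x (r - 1) (step G s z) < θ then 0 else 1) := by
  simp only [Hz]
  rw [if_neg (by omega)]

lemma T9pt_Hzs (θ : ℝ) (j : ℕ) {r : ℕ} (hr : 2 ≤ r) (s : St V) :
    Hz G x θ (j + 1) r s = ∑ z ∈ sA G s, x z * (if mm G x (r - 1) (step G s z) < θ then
        Hz G x θ j (r - 1) (step G s z) else 0) := by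
  simp only [Hz]
  rw [if_neg (by omega)]

lemma T9pt_swap (S T : Finset V) (c d : V → ℝ) (f : V → V → ℝ) :
    ∑ y ∈ S, c y * ∑ u ∈ T, d u * f u y = ∑ u ∈ T, d u * ∑ y ∈ S, c y * f u y := by
  simp_rw [Finset.mul_sum]
  rw [Finset.sum_comm]
  refine Finset.sum_congr rfl fun u _ => Finset.sum_congr rfl fun y _ => by ring

lemma T9pt_ind (hx : ∀ v, 0 ≤ x v) (S T : Finset V) (A : Prop) (P : V → Prop) :
    ∑ y ∈ S, x y * (if A ∧ y ∈ T ∧ ¬ P y then (1 : ℝ) else 0) ≤
      if A then ∑ y ∈ T, x y * (if P y then (0 : ℝ) else 1) else 0 := by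
  by_cases hA : A
  · simp only [hA, true_and, if_true]
    have h1 : ∑ y ∈ S, x y * (if y ∈ T ∧ ¬ P y then (1 : ℝ) else 0)
        = ∑ y ∈ S.filter (fun y => y ∈ T ∧ ¬ P y), x y := by
      rw [Finset.sum_filter]
      refine Finset.sum_congr rfl fun y _ => by split_ifs <;> simp
    have h2 : ∑ y ∈ T, x y * (if P y then (0 : ℝ) else 1) = ∑ y ∈ T.filter (fun y => ¬ P y), x y := by
      rw [Finset.sum_filter]
      refine Finset.sum_congr rfl fun y _ => by split_ifs <;> simp_all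
    rw [h1, h2]
    apply Finset.sum_le_sum_of_subset_of_nonneg
    · intro y hy
      rw [Finset.mem_filter] at hy ⊢
      exact hy.2
    · intro y _ _
      exact hx y
  · simp [hA]

lemma T9pt_if_sum (S : Finset V) (A : Prop) (c : V → ℝ) (f : V → ℝ) :
    ∑ y ∈ S, c y * (if A then f y else 0) = if A then ∑ y ∈ S, c y * f y else 0 := by
  by_cases hA : A
  · simp [hA]
  · simp [hA]

/-- `hz3`, inner part -/
lemma T9pt_in (hx : ∀ v, 0 ≤ x v) (θ : ℝ) {r : ℕ} (hr : 4 ≤ r) (s : St V) (S : Finset V) :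
    ∑ y ∈ S, x y * ∑ v ∈ sA G s, x v * (if mm G x (r - 1) (step G s v) < θ ∧
      y ∈ sA G (step G s v) ∧ ¬ mm G x (r - 2) (step G (step G s v) y) < θ then (1 : ℝ) else 0) ≤
      Hz G x θ 1 r s := by
  rw [T9pt_swap, T9pt_Hzs θ 0 (by omega) s]
  apply Finset.sum_le_sum
  intro v _
  apply mul_le_mul_of_nonneg_left _ (hx v)
  have h := T9pt_ind hx S (sA G (step G s v)) (mm G x (r - 1) (step G s v) < θ)
    (fun y => mm G x (r - 2) (step G (step G s v) y) < θ)
  rw [T9pt_Hz0 θ (by omega)]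
  exact h

theorem hz3_sum (hx : ∀ v, 0 ≤ x v) (θ : ℝ) {r : ℕ} (hr : 6 ≤ r) (s : St V) (S : Finset V) :
    ∑ y ∈ S, x y * hz3 G x θ r s y ≤ Hz G x θ 2 r s := by
  unfold hz3
  rw [T9pt_swap, T9pt_Hzs θ 1 (by omega) s]
  apply Finset.sum_le_sum
  intro u _
  apply mul_le_mul_of_nonneg_left _ (hx u)
  rw [T9pt_if_sum]
  split_ifs with h
  · exact T9pt_in hx θ (r := r - 1) (by omega) (step G s u) S
  · exact le_refl _

lemma T9pt_filter (θ : ℝ) (r : ℕ) (s : St V) (f : V → ℝ) :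
    ∑ w ∈ (sA G s).filter (fun w => mm G x (r - 1) (step G s w) < θ), x w * f w =
      ∑ w ∈ sA G s, x w * (if mm G x (r - 1) (step G s w) < θ then f w else 0) := by
  rw [Finset.sum_filter]
  refine Finset.sum_congr rfl fun w _ => by split_ifs <;> simp

theorem hw3_sum (hx : ∀ v, 0 ≤ x v) (θ : ℝ) {r : ℕ} (hr : 6 ≤ r) (s : St V) (S : Finset V) :
    ∑ w ∈ (sA G s).filter (fun w => mm G x (r - 1) (step G s w) < θ),
      x w * ∑ y ∈ S, x y * hw3 G x θ r s w y ≤ Hz G x θ 2 r s := by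
  rw [T9pt_filter, T9pt_Hzs θ 1 (by omega) s]
  apply Finset.sum_le_sum
  intro w _
  apply mul_le_mul_of_nonneg_left _ (hx w)
  split_ifs with h
  · exact T9pt_in hx θ (r := r - 1) (by omega) (step G s w) S
  · exact le_refl _

theorem hw4_sum (hx : ∀ v, 0 ≤ x v) (θ : ℝ) {r : ℕ} (hr : 6 ≤ r) (s : St V) (S : Finset V) :
    ∑ w ∈ (sA G s).filter (fun w => mm G x (r - 1) (step G s w) < θ),
      x w * ∑ y ∈ S, x y * hw4 G x θ r s w y ≤ Hz G x θ 3 r s := by
  rw [T9pt_filter, T9pt_Hzs θ 2 (by omega) s]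
  apply Finset.sum_le_sum
  intro w _
  apply mul_le_mul_of_nonneg_left _ (hx w)
  split_ifs with h
  · unfold hw4
    rw [T9pt_swap, T9pt_Hzs θ 1 (by omega) (step G s w)]
    apply Finset.sum_le_sum
    intro v _
    apply mul_le_mul_of_nonneg_left _ (hx v)
    rw [T9pt_if_sum]
    split_ifs with h' h''
    · exact T9pt_in hx θ (r := r - 2) (by omega) (step G (step G s w) v) S
    · exact absurd h' h''
    · rename_i h''
      exact absurd h'' h'
    · exact le_refl _
  · exact le_refl _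

lemma T9pt_adj_swap (S T : Finset V) (f : V → V → ℝ) :
    ∑ y ∈ S, x y * ∑ w ∈ nbin G T y, x w * f w y =
      ∑ w ∈ T, x w * ∑ y ∈ nbin G S w, x y * f w y := by
  unfold nbin
  simp_rw [Finset.sum_filter, Finset.mul_sum]
  rw [Finset.sum_comm]
  refine Finset.sum_congr rfl fun w _ => Finset.sum_congr rfl fun y _ => ?_
  by_cases h : G.Adj y w
  · rw [if_pos h, if_pos h.symm]; ring
  · rw [if_neg h, if_neg (fun h' => h h'.symm), mul_zero, mul_zero]

lemma T9pt_split (S : Finset V) (y : V) : wt x (nbin G S y) + wt x (nnin G S y) = wt x S := by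
  unfold wt nbin nnin
  exact Finset.sum_filter_add_sum_filter_not S (fun u => G.Adj y u) x

lemma T9pt_wt_nonneg (hx : ∀ v, 0 ≤ x v) (S : Finset V) : 0 ≤ wt x S :=
  Finset.sum_nonneg fun v _ => hx v

lemma T9pt_wt_mono (hx : ∀ v, 0 ≤ x v) {S T : Finset V} (h : S ⊆ T) : wt x S ≤ wt x T :=
  Finset.sum_le_sum_of_subset_of_nonneg h fun v _ _ => hx v

lemma T9pt_hz3_nonneg (hx : ∀ v, 0 ≤ x v) (θ : ℝ) (r : ℕ) (s : St V) (y : V) :
    0 ≤ hz3 G x θ r s y := by
  unfold hz3
  refine Finset.sum_nonneg fun u _ => mul_nonneg (hx u) ?_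
  split_ifs
  · refine Finset.sum_nonneg fun v _ => mul_nonneg (hx v) ?_
    split_ifs <;> norm_num
  · exact le_refl _

lemma T9pt_hw3_nonneg (hx : ∀ v, 0 ≤ x v) (θ : ℝ) (r : ℕ) (s : St V) (w y : V) :
    0 ≤ hw3 G x θ r s w y := by
  unfold hw3
  refine Finset.sum_nonneg fun u _ => mul_nonneg (hx u) ?_
  split_ifs <;> norm_num

lemma T9pt_hw4_nonneg (hx : ∀ v, 0 ≤ x v) (θ : ℝ) (r : ℕ) (s : St V) (w y : V) :
    0 ≤ hw4 G x θ r s w y := by
  unfold hw4
  refine Finset.sum_nonneg fun u _ => mul_nonneg (hx u) ?_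
  split_ifs
  · refine Finset.sum_nonneg fun v _ => mul_nonneg (hx v) ?_
    split_ifs <;> norm_num
  · exact le_refl _

lemma T9pt_nbup (s : St V) (w : V) : nbin G (nnin G (up G s) s.a) w = sA G (step G s w) := by
  unfold nbin nnin sA step
  ext u
  simp only [Finset.mem_filter]
  tauto

lemma T9pt_nbupa (s : St V) (w : V) : nbin G (nbin G (up G s) s.a) w = sB G (step G s w) := by
  unfold nbin sB step
  ext u
  simp only [Finset.mem_filter]
  tauto

/-- `wt (nbin ..)` as a sum with a function -/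
lemma T9pt_wt_mul (S : Finset V) (c : ℝ) : wt x S * c = ∑ w ∈ S, x w * c := by
  unfold wt
  rw [Finset.sum_mul]

section main

variable {θ₂ θ η : ℝ} {r : ℕ} {s : St V}

/-- the sum over `w ∈ sA s`, `y ∈ S`, `y ~ w` is at most `6 a` -/
lemma T9pt_pairs (hB : Base G x) (S T : Finset V) :
    ∑ y ∈ S, x y * wt x (nbin G T y) ≤ 6 * wt x T := by
  have h := T9pt_adj_swap (G := G) (x := x) S T (fun _ _ => 1)
  simp only [mul_one] at h
  have h2 : ∑ y ∈ S, x y * wt x (nbin G T y) = ∑ w ∈ T, x w * wt x (nbin G S w) := h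
  rw [h2]
  have h3 : 6 * wt x T = ∑ w ∈ T, x w * 6 := by
    unfold wt; rw [Finset.mul_sum]; refine Finset.sum_congr rfl fun w _ => by ring
  rw [h3]
  exact Finset.sum_le_sum fun w _ => mul_le_mul_of_nonneg_left (hB.six w S) (hB.nonneg w)

/-- bad `w` -/
noncomputable def T9pt_b1 (G : SimpleGraph V) (x : V → ℝ) (θ : ℝ) (r : ℕ) (s : St V) (w : V) : ℝ :=
  if mm G x (r - 1) (step G s w) < θ then 0 else 1

/-- bad `(w, y)` -/
noncomputable def T9pt_b2 (G : SimpleGraph V) (x : V → ℝ) (θ : ℝ) (r : ℕ) (s : St V) (w y : V) : ℝ :=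
  if mm G x (r - 1) (step G s w) < θ then
    (if mm G x (r - 2) (step G (step G s w) y) < θ then 0 else 1) else 0

lemma T9pt_b1_nonneg (θ : ℝ) (r : ℕ) (s : St V) (w : V) : 0 ≤ T9pt_b1 G x θ r s w := by
  unfold T9pt_b1; split_ifs <;> norm_num

lemma T9pt_b2_nonneg (θ : ℝ) (r : ℕ) (s : St V) (w y : V) : 0 ≤ T9pt_b2 G x θ r s w y := by
  unfold T9pt_b2; split_ifs <;> norm_num

lemma T9pt_b1_sum (hr : 2 ≤ r) : ∑ w ∈ sA G s, x w * T9pt_b1 G x θ r s w = Hz G x θ 0 r s := by
  rw [T9pt_Hz0 θ hr]; rfl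

lemma T9pt_b2_sum (hr : 3 ≤ r) :
    ∑ y ∈ nnin G (up G s) s.a, x y * ∑ w ∈ nbin G (sA G s) y, x w * T9pt_b2 G x θ r s w y =
      Hz G x θ 1 r s := by
  rw [T9pt_adj_swap, T9pt_Hzs θ 0 (by omega)]
  refine Finset.sum_congr rfl fun w _ => ?_
  rw [T9pt_nbup]
  congr 1
  unfold T9pt_b2
  rw [T9pt_if_sum]
  split_ifs with h
  · rw [T9pt_Hz0 θ (by omega)]
    rfl
  · rfl

lemma T9pt_classB (hB : Base G x) (h0 : 0 < θ) (h1 : θ ≤ 1 / 10 ^ 8)
    (hη : η ≤ 1 / 10 ^ 4) (h8 : T8P G x θ₂ θ η) (hr : 6 ≤ r)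
    (hm : mm G x r s < θ) (hz0 : Hz G x θ 0 r s ≤ 1 / 1000) (hz1 : Hz G x θ 1 r s ≤ 1 / 1000)
    (ha2 : wt x (sA G s) ≤ 1001 / 1000)
    (S : Finset V) (hS : S ⊆ nnin G (up G s) s.a)
    (hS2 : ∀ y ∈ S, 1 / 10 < wt x (nnin G (sA G s) y)) :
    ∑ y ∈ S, x y * wt x (nbin G (sA G s) y) ≤
      6 * Hz G x θ 0 r s + Hz G x θ 1 r s + 101 * Hz G x θ 2 r s +
      ∑ y ∈ nnin G (up G s) s.a, x y * (wt x (nbin G (sA G s) y) *
        (if 1 / 200 ≤ chi G x θ₂ y (r - 2) s then 1 else 0)) := by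
  have hx := hB.nonneg
  set T := sA G s with hT
  set N := nnin G (up G s) s.a with hN
  set ind : V → ℝ := fun y => if 1 / 200 ≤ chi G x θ₂ y (r - 2) s then 1 else 0 with hind
  have hind0 : ∀ y, 0 ≤ ind y := by intro y; simp only [hind]; split_ifs <;> norm_num
  have step1 : ∑ y ∈ S, x y * wt x (nbin G T y) ≤ ∑ y ∈ S, x y * ∑ w ∈ nbin G T y,
      x w * (T9pt_b1 G x θ r s w + T9pt_b2 G x θ r s w y + 100 * hz3 G x θ r s y + ind y) := by
    apply Finset.sum_le_sum
    intro y hy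
    apply mul_le_mul_of_nonneg_left _ (hx y)
    unfold wt
    apply Finset.sum_le_sum
    intro w hw
    rw [nbin, Finset.mem_filter] at hw
    have hwT := hw.1
    have hwy := hw.2
    have hyN := hS hy
    have hyN' : y ∈ sA G (step G s w) := by
      rw [← T9pt_nbup]
      unfold nbin
      rw [Finset.mem_filter]
      exact ⟨hyN, hwy.symm⟩
    have hz3n := T9pt_hz3_nonneg (G := G) hx θ r s y
    have hi := hind0 y
    have hb1n := T9pt_b1_nonneg (G := G) (x := x) θ r s w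
    have hb2n := T9pt_b2_nonneg (G := G) (x := x) θ r s w y
    have key : (1 : ℝ) ≤ T9pt_b1 G x θ r s w + T9pt_b2 G x θ r s w y + 100 * hz3 G x θ r s y + ind y := by
      by_cases hmw : mm G x (r - 1) (step G s w) < θ
      · by_cases hmy : mm G x (r - 2) (step G (step G s w) y) < θ
        · by_cases hd : wt x (nnin G (sN G (step G s w)) y) < 1 / 2
          · have := caseA hB h0 h1 hη h8 hr hm hz0 hz1 hwT hmw hyN' hmy (hS2 y hy) hd
            linarith
          · push Not at hd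
            have h8' := (h8 r s w (by omega) hwT hm hmw).2 y hyN' hmy
            have hsp := T9pt_split (G := G) (x := x) T y
            have hmiss := hS2 y hy
            have h9 : 99 / 1000 ≤ 1 - wt x (nbin G T y) := by
              linarith
            have h10 : 99 / 1000 * (1 / 2 : ℝ) ≤
                (1 - wt x (nbin G T y)) * wt x (nnin G (sN G (step G s w)) y) :=
              mul_le_mul h9 hd (by norm_num) (by linarith)
            have h11 : 1 / 200 ≤ chi G x θ₂ y (r - 2) s := by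
              have : η ≤ 1 / 10000 := by norm_num at hη ⊢; exact hη
              linarith
            have h12 : ind y = 1 := by simp only [hind]; rw [if_pos h11]
            linarith
        · have : T9pt_b2 G x θ r s w y = 1 := by
            unfold T9pt_b2; rw [if_pos hmw, if_neg hmy]
          linarith
      · have : T9pt_b1 G x θ r s w = 1 := by
          unfold T9pt_b1; rw [if_neg hmw]
        linarith
    calc x w = x w * 1 := (mul_one _).symm
      _ ≤ _ := mul_le_mul_of_nonneg_left key (hx w)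
  have step2 : ∑ y ∈ S, x y * ∑ w ∈ nbin G T y,
      x w * (T9pt_b1 G x θ r s w + T9pt_b2 G x θ r s w y + 100 * hz3 G x θ r s y + ind y) ≤
      ∑ y ∈ N, x y * ∑ w ∈ nbin G T y,
      x w * (T9pt_b1 G x θ r s w + T9pt_b2 G x θ r s w y + 100 * hz3 G x θ r s y + ind y) := by
    apply Finset.sum_le_sum_of_subset_of_nonneg hS
    intro y _ _
    apply mul_nonneg (hx y)
    apply Finset.sum_nonneg
    intro w _
    apply mul_nonneg (hx w)
    have hz3n := T9pt_hz3_nonneg (G := G) hx θ r s y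
    have hi := hind0 y
    have hb1n := T9pt_b1_nonneg (G := G) (x := x) θ r s w
    have hb2n := T9pt_b2_nonneg (G := G) (x := x) θ r s w y
    linarith
  have step3 : ∑ y ∈ N, x y * ∑ w ∈ nbin G T y,
      x w * (T9pt_b1 G x θ r s w + T9pt_b2 G x θ r s w y + 100 * hz3 G x θ r s y + ind y) =
      ∑ y ∈ N, x y * ∑ w ∈ nbin G T y, x w * T9pt_b1 G x θ r s w +
      ∑ y ∈ N, x y * ∑ w ∈ nbin G T y, x w * T9pt_b2 G x θ r s w y +
      ∑ y ∈ N, x y * (wt x (nbin G T y) * (100 * hz3 G x θ r s y)) +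
      ∑ y ∈ N, x y * (wt x (nbin G T y) * ind y) := by
    rw [← Finset.sum_add_distrib, ← Finset.sum_add_distrib, ← Finset.sum_add_distrib]
    refine Finset.sum_congr rfl fun y _ => ?_
    rw [T9pt_wt_mul, T9pt_wt_mul, ← mul_add, ← mul_add, ← mul_add, ← Finset.sum_add_distrib,
      ← Finset.sum_add_distrib, ← Finset.sum_add_distrib]
    congr 1
    refine Finset.sum_congr rfl fun w _ => ?_
    ring
  have t1 : ∑ y ∈ N, x y * ∑ w ∈ nbin G T y, x w * T9pt_b1 G x θ r s w ≤ 6 * Hz G x θ 0 r s := by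
    rw [T9pt_adj_swap (G := G) (x := x) N T (fun w _ => T9pt_b1 G x θ r s w),
      ← T9pt_b1_sum (by omega), Finset.mul_sum]
    apply Finset.sum_le_sum
    intro w _
    have e : ∑ y ∈ nbin G N w, x y * T9pt_b1 G x θ r s w = wt x (nbin G N w) * T9pt_b1 G x θ r s w := by
      rw [T9pt_wt_mul]
    rw [e]
    have h6 := hB.six w N
    have := mul_le_mul_of_nonneg_right h6 (T9pt_b1_nonneg (G := G) (x := x) θ r s w)
    have := mul_le_mul_of_nonneg_left this (hx w)
    linarith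
  have t2 : ∑ y ∈ N, x y * ∑ w ∈ nbin G T y, x w * T9pt_b2 G x θ r s w y = Hz G x θ 1 r s :=
    T9pt_b2_sum (by omega)
  have t3 : ∑ y ∈ N, x y * (wt x (nbin G T y) * (100 * hz3 G x θ r s y)) ≤ 101 * Hz G x θ 2 r s := by
    have h3 := hz3_sum (G := G) hx θ hr s N
    have h4 : ∑ y ∈ N, x y * (wt x (nbin G T y) * (100 * hz3 G x θ r s y)) ≤
        ∑ y ∈ N, 101 * (x y * hz3 G x θ r s y) := by
      apply Finset.sum_le_sum
      intro y _
      have hz3n := T9pt_hz3_nonneg (G := G) hx θ r s y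
      have hsp := T9pt_split (G := G) (x := x) T y
      have hnn := T9pt_wt_nonneg hx (nnin G T y)
      have hb : wt x (nbin G T y) ≤ 1001 / 1000 := by linarith
      have h5 : wt x (nbin G T y) * (100 * hz3 G x θ r s y) ≤
          1001 / 1000 * (100 * hz3 G x θ r s y) :=
        mul_le_mul_of_nonneg_right hb (by linarith)
      have h6 := mul_le_mul_of_nonneg_left h5 (hx y)
      have h7 : 0 ≤ x y * hz3 G x θ r s y := mul_nonneg (hx y) hz3n
      nlinarith
    rw [← Finset.mul_sum] at h4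
    linarith
  linarith [step1, step2, step3.le, t1, t2.le, t3]

lemma T9pt_wtC (hB : Base G x)
    (ha1 : 999 / 1000 ≤ wt x (sA G s)) (ha2 : wt x (sA G s) ≤ 1001 / 1000)
    (S : Finset V) (hS2 : ∀ y ∈ S, wt x (nnin G (sA G s) y) ≤ 1 / 10) : wt x S ≤ 7 := by
  have h := T9pt_pairs (G := G) (x := x) hB S (sA G s)
  have h2 : ∑ y ∈ S, x y * (89 / 100) ≤ ∑ y ∈ S, x y * wt x (nbin G (sA G s) y) := by
    apply Finset.sum_le_sum
    intro y hy
    apply mul_le_mul_of_nonneg_left _ (hB.nonneg y)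
    have := T9pt_split (G := G) (x := x) (sA G s) y
    have := hS2 y hy
    linarith
  rw [← T9pt_wt_mul] at h2
  linarith

lemma T9pt_classC (hB : Base G x) (h0 : 0 < θ) (h1 : θ ≤ 1 / 10 ^ 8)
    (hη0 : 0 < η) (hη : η ≤ 1 / 10 ^ 4) (h8 : T8P G x θ₂ θ η) (hr : 6 ≤ r)
    (hm : mm G x r s < θ) (hz0 : Hz G x θ 0 r s ≤ 1 / 1000)
    (ha1 : 999 / 1000 ≤ wt x (sA G s)) (ha2 : wt x (sA G s) ≤ 1001 / 1000)
    (S : Finset V) (hS : S ⊆ nnin G (up G s) s.a)
    (hS2 : ∀ y ∈ S, wt x (nnin G (sA G s) y) ≤ 1 / 10) :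
    ∑ y ∈ S, x y * wt x (nnin G (sA G s) y) ≤
      7 * Hz G x θ 0 r s + 141 * Hz G x θ 1 r s + 148 * Hz G x θ 2 r s + 8 * Hz G x θ 3 r s := by
  have hx := hB.nonneg
  set T := sA G s with hT
  set N := nnin G (up G s) s.a with hN
  have hwS := T9pt_wtC hB ha1 ha2 S hS2
  have hwS0 := T9pt_wt_nonneg hx S
  set U : V → Finset V := fun y => T.filter (fun u => G.Adj y u ∧ mm G x (r - 1) (step G s u) < θ ∧
      mm G x (r - 2) (step G (step G s u) y) < θ) with hUdef
  set c1 : V → ℝ := fun y => if 1 / 2 ≤ wt x (U y) then 0 else 1 with hc1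
  have hc10 : ∀ y, 0 ≤ c1 y := by intro y; simp only [hc1]; split_ifs <;> norm_num
  set c : V → ℝ := fun w => if mm G x (r - 1) (step G s w) < θ then
      20 * Hz G x θ 0 (r - 1) (step G s w) + 20 * Hz G x θ 1 (r - 1) (step G s w) else 1 with hc
  have hH : ∀ j r s, 0 ≤ Hz G x θ j r s := fun j r s => Hz_nonneg hx θ j r s
  have hc0 : ∀ w, 0 ≤ c w := by
    intro w; simp only [hc]; split_ifs
    · have := hH 0 (r - 1) (step G s w)
      have := hH 1 (r - 1) (step G s w)
      linarith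
    · norm_num
  set c5 : V → V → ℝ := fun w y => if mm G x (r - 1) (step G s w) < θ then
      8 * (hw3 G x θ r s w y + hw4 G x θ r s w y) else 0 with hc5
  have hc50 : ∀ w y, 0 ≤ c5 w y := by
    intro w y; simp only [hc5]; split_ifs
    · have := T9pt_hw3_nonneg (G := G) hx θ r s w y
      have := T9pt_hw4_nonneg (G := G) hx θ r s w y
      linarith
    · exact le_refl _
  have step1 : ∑ y ∈ S, x y * wt x (nnin G T y) ≤ ∑ y ∈ S, x y * ∑ w ∈ nnin G T y,
      x w * (c1 y + c w + c5 w y) := by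
    apply Finset.sum_le_sum
    intro y hy
    apply mul_le_mul_of_nonneg_left _ (hx y)
    unfold wt
    apply Finset.sum_le_sum
    intro w hw
    rw [nnin, Finset.mem_filter] at hw
    have hwT := hw.1
    have hwy := hw.2
    have hyN := hS hy
    rw [hN, nnin, Finset.mem_filter] at hyN
    have hi := hc10 y
    have hcw := hc0 w
    have hcwy := hc50 w y
    have key : (1 : ℝ) ≤ c1 y + c w + c5 w y := by
      by_cases hU : 1 / 2 ≤ wt x (U y)
      · by_cases hmw : mm G x (r - 1) (step G s w) < θ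
        · have ecw : c w = 20 * Hz G x θ 0 (r - 1) (step G s w) + 20 * Hz G x θ 1 (r - 1) (step G s w) := by
            simp only [hc]; rw [if_pos hmw]
          have hH0 := hH 0 (r - 1) (step G s w)
          have hH1 := hH 1 (r - 1) (step G s w)
          by_cases hz0' : Hz G x θ 0 (r - 1) (step G s w) ≤ 1 / 20
          · by_cases hz1' : Hz G x θ 1 (r - 1) (step G s w) ≤ 1 / 20
            · have := caseMis hB h0 h1 hη0 hη h8 hr hm hwT hmw hyN.1 hyN.2 (hS2 y hy)
                (fun h => hwy h.symm) hU hz0' hz1'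
              have ec5 : c5 w y = 8 * (hw3 G x θ r s w y + hw4 G x θ r s w y) := by
                simp only [hc5]; rw [if_pos hmw]
              linarith
            · push Not at hz1'
              linarith
          · push Not at hz0'
            linarith
        · have ecw : c w = 1 := by simp only [hc]; rw [if_neg hmw]
          linarith
      · have : c1 y = 1 := by simp only [hc1]; rw [if_neg hU]
        linarith
    calc x w = x w * 1 := (mul_one _).symm
      _ ≤ _ := mul_le_mul_of_nonneg_left key (hx w)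
  have step3 : ∑ y ∈ S, x y * ∑ w ∈ nnin G T y, x w * (c1 y + c w + c5 w y) =
      ∑ y ∈ S, x y * (wt x (nnin G T y) * c1 y) +
      ∑ y ∈ S, x y * ∑ w ∈ nnin G T y, x w * c w +
      ∑ y ∈ S, x y * ∑ w ∈ nnin G T y, x w * c5 w y := by
    rw [← Finset.sum_add_distrib, ← Finset.sum_add_distrib]
    refine Finset.sum_congr rfl fun y _ => ?_
    rw [T9pt_wt_mul, ← mul_add, ← mul_add, ← Finset.sum_add_distrib,
      ← Finset.sum_add_distrib]
    congr 1
    refine Finset.sum_congr rfl fun w _ => ?_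
    ring
  have t1 : ∑ y ∈ S, x y * (wt x (nnin G T y) * c1 y) ≤ Hz G x θ 1 r s := by
    have h2 : ∑ y ∈ S, x y * (wt x (nnin G T y) * c1 y) ≤
        ∑ y ∈ S, x y * ∑ w ∈ nbin G T y, x w * T9pt_b2 G x θ r s w y := by
      apply Finset.sum_le_sum
      intro y hy
      apply mul_le_mul_of_nonneg_left _ (hx y)
      have hsum0 : 0 ≤ ∑ w ∈ nbin G T y, x w * T9pt_b2 G x θ r s w y :=
        Finset.sum_nonneg fun w _ => mul_nonneg (hx w) (T9pt_b2_nonneg ..)
      by_cases hU : 1 / 2 ≤ wt x (U y)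
      · have : c1 y = 0 := by simp only [hc1]; rw [if_pos hU]
        rw [this, mul_zero]
        exact hsum0
      · have e1 : c1 y = 1 := by simp only [hc1]; rw [if_neg hU]
        rw [e1, mul_one]
        push Not at hU
        have hsp := T9pt_split (G := G) (x := x) T y
        have hmiss := hS2 y hy
        have hUf : wt x (U y) = ∑ w ∈ nbin G T y, x w * (if mm G x (r - 1) (step G s w) < θ ∧
            mm G x (r - 2) (step G (step G s w) y) < θ then 1 else 0) := by
          unfold wt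
          simp only [hUdef]
          unfold nbin
          rw [Finset.sum_filter, Finset.sum_filter]
          refine Finset.sum_congr rfl fun w _ => ?_
          by_cases hA : G.Adj y w
          · simp only [hA, true_and, if_true]
            split_ifs <;> simp
          · simp [hA]
        have hb1 : ∑ w ∈ nbin G T y, x w * T9pt_b1 G x θ r s w ≤ Hz G x θ 0 r s := by
          rw [← T9pt_b1_sum (by omega)]
          apply Finset.sum_le_sum_of_subset_of_nonneg
          · unfold nbin; exact Finset.filter_subset _ _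
          · intro w _ _
            exact mul_nonneg (hx w) (T9pt_b1_nonneg ..)
        have hall : wt x (nbin G T y) = wt x (U y) + ∑ w ∈ nbin G T y, x w * T9pt_b1 G x θ r s w +
            ∑ w ∈ nbin G T y, x w * T9pt_b2 G x θ r s w y := by
          rw [hUf, ← Finset.sum_add_distrib, ← Finset.sum_add_distrib]
          unfold wt
          refine Finset.sum_congr rfl fun w _ => ?_
          unfold T9pt_b1 T9pt_b2
          by_cases hA : mm G x (r - 1) (step G s w) < θ
          · by_cases hB' : mm G x (r - 2) (step G (step G s w) y) < θ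
            · simp [hA, hB']
            · simp [hA, hB']
          · simp [hA]
        linarith
    have h3 : ∑ y ∈ S, x y * ∑ w ∈ nbin G T y, x w * T9pt_b2 G x θ r s w y ≤
        ∑ y ∈ N, x y * ∑ w ∈ nbin G T y, x w * T9pt_b2 G x θ r s w y := by
      apply Finset.sum_le_sum_of_subset_of_nonneg hS
      intro y _ _
      exact mul_nonneg (hx y) (Finset.sum_nonneg fun w _ => mul_nonneg (hx w) (T9pt_b2_nonneg ..))
    rw [T9pt_b2_sum (by omega)] at h3
    linarith
  have hTc : ∑ w ∈ T, x w * c w = Hz G x θ 0 r s + 20 * Hz G x θ 1 r s + 20 * Hz G x θ 2 r s := by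
    rw [T9pt_Hz0 θ (by omega), T9pt_Hzs θ 0 (by omega), T9pt_Hzs θ 1 (by omega), Finset.mul_sum,
      Finset.mul_sum, ← Finset.sum_add_distrib, ← Finset.sum_add_distrib]
    refine Finset.sum_congr rfl fun w _ => ?_
    simp only [hc]
    split_ifs
    · ring
    · ring
  have t2 : ∑ y ∈ S, x y * ∑ w ∈ nnin G T y, x w * c w ≤
      7 * (Hz G x θ 0 r s + 20 * Hz G x θ 1 r s + 20 * Hz G x θ 2 r s) := by
    have h2 : ∑ y ∈ S, x y * ∑ w ∈ nnin G T y, x w * c w ≤ ∑ y ∈ S, x y * ∑ w ∈ T, x w * c w := by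
      apply Finset.sum_le_sum
      intro y _
      apply mul_le_mul_of_nonneg_left _ (hx y)
      apply Finset.sum_le_sum_of_subset_of_nonneg
      · unfold nnin; exact Finset.filter_subset _ _
      · intro w _ _
        exact mul_nonneg (hx w) (hc0 w)
    rw [← T9pt_wt_mul, hTc] at h2
    have hn : 0 ≤ Hz G x θ 0 r s + 20 * Hz G x θ 1 r s + 20 * Hz G x θ 2 r s := by
      have := hH 0 r s
      have := hH 1 r s
      have := hH 2 r s
      linarith
    have := mul_le_mul_of_nonneg_right hwS hn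
    linarith
  have t3 : ∑ y ∈ S, x y * ∑ w ∈ nnin G T y, x w * c5 w y ≤ 8 * (Hz G x θ 2 r s + Hz G x θ 3 r s) := by
    have h2 : ∑ y ∈ S, x y * ∑ w ∈ nnin G T y, x w * c5 w y ≤
        ∑ y ∈ S, x y * ∑ w ∈ T, x w * c5 w y := by
      apply Finset.sum_le_sum
      intro y _
      apply mul_le_mul_of_nonneg_left _ (hx y)
      apply Finset.sum_le_sum_of_subset_of_nonneg
      · unfold nnin; exact Finset.filter_subset _ _
      · intro w _ _
        exact mul_nonneg (hx w) (hc50 w y)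
    rw [T9pt_swap] at h2
    have h3 := hw3_sum (G := G) hx θ hr s S
    have h4 := hw4_sum (G := G) hx θ hr s S
    rw [T9pt_filter] at h3 h4
    have h5 : ∑ w ∈ T, x w * ∑ y ∈ S, x y * c5 w y =
        8 * (∑ w ∈ T, x w * (if mm G x (r - 1) (step G s w) < θ then
          ∑ y ∈ S, x y * hw3 G x θ r s w y else 0) +
        ∑ w ∈ T, x w * (if mm G x (r - 1) (step G s w) < θ then
          ∑ y ∈ S, x y * hw4 G x θ r s w y else 0)) := by
      rw [← Finset.sum_add_distrib, Finset.mul_sum]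
      refine Finset.sum_congr rfl fun w _ => ?_
      simp only [hc5]
      rw [T9pt_if_sum]
      split_ifs
      · have e : ∑ y ∈ S, x y * (8 * (hw3 G x θ r s w y + hw4 G x θ r s w y)) =
            8 * (∑ y ∈ S, x y * hw3 G x θ r s w y + ∑ y ∈ S, x y * hw4 G x θ r s w y) := by
          rw [← Finset.sum_add_distrib, Finset.mul_sum]
          refine Finset.sum_congr rfl fun y _ => by ring
        rw [e]; ring
      · simp
    rw [h5] at h2
    linarith
  have n0 := hH 0 r s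
  have n1 := hH 1 r s
  have n2 := hH 2 r s
  have n3 := hH 3 r s
  linarith [step1, step3.le, t1, t2, t3]

end main

theorem t9pt (hB : Base G x) {θ₂ θ η : ℝ} (h0 : 0 < θ) (h1 : θ ≤ 1 / 10 ^ 8)
    (hη0 : 0 < η) (hη : η ≤ 1 / 10 ^ 4) (h8 : T8P G x θ₂ θ η) {r : ℕ} (hr : 6 ≤ r) {s : St V}
    (hm : mm G x r s < θ) :
    TT G x s ≤ 24000 * (Hz G x θ 0 r s + Hz G x θ 1 r s + Hz G x θ 2 r s + Hz G x θ 3 r s) +
      2 * ∑ w ∈ sA G s, x w * wt x (sB G (step G s w)) +
      2 * ∑ y ∈ nnin G (up G s) s.a, x y * (wt x (nbin G (sA G s) y) *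
        (if 1 / 200 ≤ chi G x θ₂ y (r - 2) s then 1 else 0)) := by
  have hx := hB.nonneg
  have hs : Real.sqrt θ ≤ 1 / 10 ^ 4 := by
    rw [Real.sqrt_le_left (by norm_num)]
    linarith [h1, (by norm_num : ((1 : ℝ) / 10 ^ 4) ^ 2 = 1 / 10 ^ 8)]
  have hmA := mass_A hx (by linarith [(by norm_num : (1 : ℝ) / 10 ^ 8 ≤ 1 / 16)]) (by omega) hm
  rw [abs_le] at hmA
  have hs' : Real.sqrt θ ≤ 1 / 10000 := by norm_num at hs ⊢; exact hs
  have ha1 : 999 / 1000 ≤ wt x (sA G s) := by linarith [hmA.1]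
  have ha2 : wt x (sA G s) ≤ 1001 / 1000 := by linarith [hmA.2]
  have hH : ∀ j r s, 0 ≤ Hz G x θ j r s := fun j r s => Hz_nonneg hx θ j r s
  have n0 := hH 0 r s
  have n1 := hH 1 r s
  have n2 := hH 2 r s
  have n3 := hH 3 r s
  have p1 : 0 ≤ ∑ w ∈ sA G s, x w * wt x (sB G (step G s w)) :=
    Finset.sum_nonneg fun w _ => mul_nonneg (hx w) (T9pt_wt_nonneg hx _)
  have p2 : 0 ≤ ∑ y ∈ nnin G (up G s) s.a, x y * (wt x (nbin G (sA G s) y) *
        (if 1 / 200 ≤ chi G x θ₂ y (r - 2) s then (1 : ℝ) else 0)) := by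
    refine Finset.sum_nonneg fun w _ => mul_nonneg (hx w) (mul_nonneg (T9pt_wt_nonneg hx _) ?_)
    split_ifs <;> norm_num
  have hnb : ∀ y, 0 ≤ wt x (nbin G (sA G s) y) := fun y => T9pt_wt_nonneg hx _
  have hnn : ∀ y, 0 ≤ wt x (nnin G (sA G s) y) := fun y => T9pt_wt_nonneg hx _
  have hsp := T9pt_split (G := G) (x := x) (sA G s)
  by_cases hz : Hz G x θ 0 r s ≤ 1 / 1000 ∧ Hz G x θ 1 r s ≤ 1 / 1000
  · obtain ⟨hz0, hz1⟩ := hz
    set N := nnin G (up G s) s.a with hN
    set Sb := N.filter (fun y => 1 / 10 < wt x (nnin G (sA G s) y)) with hSb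
    set Sc := N.filter (fun y => ¬ 1 / 10 < wt x (nnin G (sA G s) y)) with hSc
    have hTT : TT G x s = ∑ y ∈ nbin G (up G s) s.a, x y * (wt x (nbin G (sA G s) y) *
        wt x (nnin G (sA G s) y)) + (∑ y ∈ Sb, x y * (wt x (nbin G (sA G s) y) *
        wt x (nnin G (sA G s) y)) + ∑ y ∈ Sc, x y * (wt x (nbin G (sA G s) y) *
        wt x (nnin G (sA G s) y))) := by
      rw [hSb, hSc, Finset.sum_filter_add_sum_filter_not, hN]
      unfold TT
      unfold nnin nbin
      rw [Finset.sum_filter_add_sum_filter_not (up G s) (fun u => G.Adj s.a u)]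
    have q1 : ∑ y ∈ nbin G (up G s) s.a, x y * (wt x (nbin G (sA G s) y) *
        wt x (nnin G (sA G s) y)) ≤ 2 * ∑ w ∈ sA G s, x w * wt x (sB G (step G s w)) := by
      have h := T9pt_adj_swap (G := G) (x := x) (nbin G (up G s) s.a) (sA G s) (fun _ _ => 1)
      simp only [mul_one] at h
      have h2 : ∑ y ∈ nbin G (up G s) s.a, x y * wt x (nbin G (sA G s) y) =
          ∑ w ∈ sA G s, x w * wt x (sB G (step G s w)) := by
        have h3 : ∑ w ∈ sA G s, x w * wt x (nbin G (nbin G (up G s) s.a) w) =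
          ∑ w ∈ sA G s, x w * wt x (sB G (step G s w)) :=
          Finset.sum_congr rfl fun w _ => by rw [T9pt_nbupa]
        rw [← h3]
        exact h
      rw [← h2, Finset.mul_sum]
      apply Finset.sum_le_sum
      intro y _
      have e1 : wt x (nnin G (sA G s) y) ≤ 2 := by linarith [hsp y, hnb y]
      have e2 := mul_le_mul_of_nonneg_left e1 (hnb y)
      have e3 := mul_le_mul_of_nonneg_left e2 (hx y)
      linarith
    have q2 : ∑ y ∈ Sb, x y * (wt x (nbin G (sA G s) y) * wt x (nnin G (sA G s) y)) ≤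
        2 * ∑ y ∈ Sb, x y * wt x (nbin G (sA G s) y) := by
      rw [Finset.mul_sum]
      apply Finset.sum_le_sum
      intro y _
      have e1 : wt x (nnin G (sA G s) y) ≤ 2 := by linarith [hsp y, hnb y]
      have e2 := mul_le_mul_of_nonneg_left e1 (hnb y)
      have e3 := mul_le_mul_of_nonneg_left e2 (hx y)
      linarith
    have q3 : ∑ y ∈ Sc, x y * (wt x (nbin G (sA G s) y) * wt x (nnin G (sA G s) y)) ≤
        2 * ∑ y ∈ Sc, x y * wt x (nnin G (sA G s) y) := by
      rw [Finset.mul_sum]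
      apply Finset.sum_le_sum
      intro y _
      have e1 : wt x (nbin G (sA G s) y) ≤ 2 := by linarith [hsp y, hnn y]
      have e2 := mul_le_mul_of_nonneg_right e1 (hnn y)
      have e3 := mul_le_mul_of_nonneg_left e2 (hx y)
      linarith
    have hb := T9pt_classB hB h0 h1 hη h8 hr hm hz0 hz1 ha2 Sb (Finset.filter_subset _ _)
      (fun y hy => (Finset.mem_filter.1 hy).2)
    have hc := T9pt_classC hB h0 h1 hη0 hη h8 hr hm hz0 ha1 ha2 Sc (Finset.filter_subset _ _)
      (fun y hy => not_lt.1 (Finset.mem_filter.1 hy).2)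
    rw [hTT]
    linarith
  · have hTT : TT G x s ≤ 1001 / 1000 * ∑ y ∈ up G s, x y * wt x (nbin G (sA G s) y) := by
      unfold TT
      rw [Finset.mul_sum]
      apply Finset.sum_le_sum
      intro y _
      have e1 : wt x (nnin G (sA G s) y) ≤ 1001 / 1000 := by linarith [hsp y, hnb y]
      have e2 := mul_le_mul_of_nonneg_left e1 (hnb y)
      have e3 := mul_le_mul_of_nonneg_left e2 (hx y)
      linarith
    have hp := T9pt_pairs (G := G) (x := x) hB (up G s) (sA G s)
    have : 1 / 1000 < Hz G x θ 0 r s ∨ 1 / 1000 < Hz G x θ 1 r s := by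
      by_contra hcon
      push Not at hcon
      exact hz hcon
    rcases this with h | h
    · linarith
    · linarith

end Pool.Agent.Icy
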