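import Pool.Agent.Icy.T9Defs
import Pool.Agent.Icy.WrDefs

/-!
# The defects of the structure at a cycle
-/

set_option autoImplicit false

open Finset
open scoped Classical

namespace Pool.Agent.Icy

variable {V : Type} [Fintype V]

/-- `Σ_{w∈sA(st v c)} x_w (wt {y ∈ N(s_w) : y ≁ v c} + wt {y ∈ N(s_{v c}) : y ≁ w})`, `s = st v c` -/
noncomputable def q1 (G : SimpleGraph V) {k : ℕ} [NeZero k] (x : V → ℝ) (c : ℕ) (v : ZMod k → V) :
    ℝ :=
  ∑ w ∈ sA G (st G v c), x w * (wt x (nnin G (sN G (step G (st G v c) w)) (v (c : ZMod k))) +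
    wt x (nnin G (sN G (step G (st G v c) (v (c : ZMod k)))) w))

/-- non-clones first met in the middle -/
noncomputable def q2 (G : SimpleGraph V) {k : ℕ} [NeZero k] (x : V → ℝ) (v : ZMod k → V) : ℝ :=
  ∑ c ∈ Icc 5 (k - 8), ∑ w ∈ sA G (st G v c),
    x w * ((if G.Adj (v ((c + 1 : ℕ) : ZMod k)) w then 0 else 1) +
      ∑ c' ∈ Icc (c + 2) (k - 6), if G.Adj (v (c' : ZMod k)) w then 1 else 0)

/-- positions near the origin -/
def Wd (k : ℕ) : Finset ℕ := (range k).filter (fun j => j < 8 ∨ k ≤ j + 10)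

/-- quantities at the positions near the origin -/
noncomputable def qW (G : SimpleGraph V) {k : ℕ} [NeZero k] (x : V → ℝ) (v : ZMod k → V) : ℝ :=
  ∑ j ∈ Wd k, (wt x ((NC G v).filter (fun w => G.Adj (v (j : ZMod k)) w)) +
    |wt x (Cl G v (j : ZMod k)) - 1| +
    ∑ u ∈ Cl G v (j : ZMod k), x u * wrv G x (Cl G v) (j : ZMod k) u)

/-- the bound supplied by `t9` -/
def T9P {V : Type} (G : SimpleGraph V) (x : V → ℝ) (θ C : ℝ) : Prop :=
  ∀ (r : ℕ) (s : St V), 2 ≤ r → mm G x r s < θ →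
    SS G x θ (fun r s => if 6 ≤ r then TT G x s else 0) r s ≤ C * mm G x r s

end Pool.Agent.Icy
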