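import Pool.Agent.Icy.Transfer
import Pool.Agent.Icy.W91Defs
import Pool.Agent.Icy.O3

/-!
# Expectation of `q1`

For each `c`, `F v z = [strt ∧ unst c ∧ mm (s_z) < θ] Σ_w x_w (wt (nnin (sN s_w) z) + wt (nnin (sN s_z) w))`,
`s = st v c`; on `strt ∧ unst (c+1)` this is `q1 c v` at `z = v c`.  `markov`, `rho ≤ 6` (`rho_le`), and
`Σ_z Σ_w x_z x_w wt (nnin (sN s_w) z) = TT s` (`sN s_w = {y ∈ up s : y ~ w}`; exchange of sums); so
`≤ 12 EE [strt ∧ unst c] TT`, and `transfer'` with `T9P` : `≤ 24 C ε` (`r = k - c ≥ 6`).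
-/

set_option autoImplicit false

open Finset
open scoped Classical

namespace Pool.Agent.Icy

variable {V : Type} [Fintype V] {G : SimpleGraph V} {k : ℕ} [NeZero k] {x : V → ℝ}

theorem opt_base (hk : 7 ≤ k) (h : Opt G k x) : Base G x :=
  ⟨fun v => (h.pos v).le, fun y S => o3' (by omega) h y S⟩

theorem W1_nn {V : Type} {G : SimpleGraph V} {x : V → ℝ} (s : St V) (w z : V) :
    wt x (nnin G (sN G (step G s w)) z) =
      ∑ y ∈ up G s, x y * ((if G.Adj y w then 1 else 0) * (if G.Adj y z then 0 else 1)) := by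
  unfold wt nnin sN
  rw [sum_filter, sum_filter]
  apply sum_congr rfl
  intro y _
  have e1 : G.Adj w y ↔ G.Adj y w := G.adj_comm w y
  have e2 : G.Adj z y ↔ G.Adj y z := G.adj_comm z y
  have e3 : (step G s w).b = w := rfl
  rw [e3]
  by_cases h1 : G.Adj y w <;> by_cases h2 : G.Adj y z <;> simp [e1, e2, h1, h2]

theorem TT_eq {V : Type} {G : SimpleGraph V} {x : V → ℝ} (s : St V) :
    TT G x s = ∑ z ∈ sA G s, x z * ∑ w ∈ sA G s, x w * wt x (nnin G (sN G (step G s w)) z) := by
  have h1 : ∀ y, wt x (nbin G (sA G s) y) = ∑ w ∈ sA G s, x w * (if G.Adj y w then 1 else 0) := by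
    intro y
    unfold wt nbin
    rw [sum_filter]
    apply sum_congr rfl
    intro w _
    split_ifs <;> simp
  have h2 : ∀ y, wt x (nnin G (sA G s) y) = ∑ z ∈ sA G s, x z * (if G.Adj y z then 0 else 1) := by
    intro y
    unfold wt nnin
    rw [sum_filter]
    apply sum_congr rfl
    intro w _
    split_ifs <;> simp
  unfold TT
  simp only [h1, h2, W1_nn, mul_sum, sum_mul]
  rw [sum_comm]
  apply sum_congr rfl
  intro z _
  rw [sum_comm]
  apply sum_congr rfl
  intro w _
  apply sum_congr rfl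
  intro y _
  ring

theorem W1_wt_nonneg {V : Type} {x : V → ℝ} (hx : ∀ v, 0 ≤ x v) (S : Finset V) : 0 ≤ wt x S :=
  sum_nonneg (fun v _ => hx v)

theorem W1_TT_nonneg {V : Type} {G : SimpleGraph V} {x : V → ℝ} (hx : ∀ v, 0 ≤ x v) (s : St V) :
    0 ≤ TT G x s :=
  sum_nonneg (fun y _ => mul_nonneg (hx y) (mul_nonneg (W1_wt_nonneg hx _) (W1_wt_nonneg hx _)))

/-- the integrand -/
noncomputable def W1_H {V : Type} (G : SimpleGraph V) (x : V → ℝ) (s : St V) (z : V) : ℝ :=
  ∑ w ∈ sA G s, x w * (wt x (nnin G (sN G (step G s w)) z) + wt x (nnin G (sN G (step G s z)) w))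

theorem W1_H_nonneg {V : Type} {G : SimpleGraph V} {x : V → ℝ} (hx : ∀ v, 0 ≤ x v) (s : St V)
    (z : V) : 0 ≤ W1_H G x s z :=
  sum_nonneg (fun w _ => mul_nonneg (hx w) (add_nonneg (W1_wt_nonneg hx _) (W1_wt_nonneg hx _)))

theorem W1_H_sum {V : Type} {G : SimpleGraph V} {x : V → ℝ} (s : St V) :
    ∑ z ∈ sA G s, x z * W1_H G x s z = 2 * TT G x s := by
  have h1 : ∑ z ∈ sA G s, x z * W1_H G x s z =
      (∑ z ∈ sA G s, x z * ∑ w ∈ sA G s, x w * wt x (nnin G (sN G (step G s w)) z)) +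
      ∑ z ∈ sA G s, x z * ∑ w ∈ sA G s, x w * wt x (nnin G (sN G (step G s z)) w) := by
    rw [← sum_add_distrib]
    apply sum_congr rfl
    intro z _
    unfold W1_H
    rw [← mul_add, ← sum_add_distrib]
    congr 1
    apply sum_congr rfl
    intro w _
    ring
  have h2 : ∑ z ∈ sA G s, x z * ∑ w ∈ sA G s, x w * wt x (nnin G (sN G (step G s z)) w) =
      ∑ z ∈ sA G s, x z * ∑ w ∈ sA G s, x w * wt x (nnin G (sN G (step G s w)) z) := by
    simp only [mul_sum]
    rw [sum_comm]
    apply sum_congr rfl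
    intro z _
    apply sum_congr rfl
    intro w _
    ring
  rw [h1, h2, ← TT_eq]
  ring

theorem w1 (hk : 20 ≤ k) (h : Opt G k x) {θ C ε : ℝ} (hε : 0 ≤ ε) (hεθ : ε < θ)
    (hθ : θ ≤ 1 / 10 ^ 8) (hC : 0 ≤ C) (h9 : T9P G x θ C) :
    EE G k x (fun v => ∑ c ∈ Icc 5 (k - 6), if strt G x ε v ∧ unst G x θ (c + 1) v then
      q1 G x c v else 0) ≤ 24 * C * ε := by
  have hx : ∀ v, 0 < x v := h.pos
  have hx0 : ∀ v, 0 ≤ x v := fun v => (hx v).le
  have hθ2 : θ ≤ 1 / 16 := hθ.trans (by norm_num)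
  have hf : ∀ (r : ℕ) (s : St V), (0 : ℝ) ≤ if 6 ≤ r then TT G x s else 0 := by
    intro r s
    split_ifs
    · exact W1_TT_nonneg hx0 s
    · exact le_rfl
  rw [EE_sum]
  have h2 : ∀ c ∈ Icc 5 (k - 6), EE G k x (fun v => if strt G x ε v ∧ unst G x θ (c + 1) v then
      q1 G x c v else 0) ≤
      12 * EE G k x (fun v => if strt G x ε v ∧ unst G x θ c v then
        (if 6 ≤ k - c then TT G x (st G v c) else 0) else 0) := by
    intro c hc
    rw [mem_Icc] at hc
    have ha : EE G k x (fun v => if strt G x ε v ∧ unst G x θ (c + 1) v then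
      q1 G x c v else 0) ≤ EE G k x (fun v => if strt G x ε v ∧ unst G x θ c v then
        W1_H G x (st G v c) (v (c : ZMod k)) else 0) := by
      apply EE_mono hx0
      intro v _
      by_cases ha : strt G x ε v ∧ unst G x θ (c + 1) v
      · rw [if_pos ha, if_pos ⟨ha.1, ((Transfer_unst_succ hc.1 v).1 ha.2).1⟩]
        exact le_rfl
      · rw [if_neg ha]
        split_ifs
        · exact W1_H_nonneg hx0 _ _
        · exact le_rfl
    refine ha.trans ?_
    rw [Transfer_markov (by omega) hx0 hc.1 (by omega) (fun s z => W1_H G x s z), ← EE_mul]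
    apply EE_mono hx0
    intro v hv
    by_cases ha : strt G x ε v ∧ unst G x θ c v
    · simp only [if_pos ha]
      have hm : mm G x (k - c) (st G v c) < θ := ha.2 c hc.1 le_rfl
      rw [if_pos (by omega : 6 ≤ k - c)]
      have e : 12 * TT G x (st G v c) = ∑ z ∈ sA G (st G v c),
          6 * (x z * W1_H G x (st G v c) z) := by
        rw [← mul_sum, W1_H_sum]
        ring
      rw [e]
      apply sum_le_sum
      intro z hz
      have hr := rho_le (G := G) (x := x) (by omega) hx (by omega : 2 ≤ c) (by omega) v z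
        (by linarith : mm G x (k - c) (st G v c) < 1 / 2)
      have := mul_le_mul_of_nonneg_left hr (mul_nonneg (hx0 z) (W1_H_nonneg (G := G) hx0 (st G v c) z))
      nlinarith
    · simp only [if_neg ha]
      simp
  have h3 := transfer' (G := G) (by omega) hx h.NN_pos hε hεθ (by linarith) hC
    (fun r s => if 6 ≤ r then TT G x s else 0) hf (fun r s hr hm => h9 r s hr hm)
  rw [EE_sum] at h3
  have h4 : ∑ c ∈ Icc 5 (k - 6), EE G k x (fun v => if strt G x ε v ∧ unst G x θ c v then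
        (if 6 ≤ k - c then TT G x (st G v c) else 0) else 0) ≤
      ∑ c ∈ Icc 5 (k - 2), EE G k x (fun v => if strt G x ε v ∧ unst G x θ c v then
        (if 6 ≤ k - c then TT G x (st G v c) else 0) else 0) := by
    apply sum_le_sum_of_subset_of_nonneg
    · intro c hc
      rw [mem_Icc] at hc ⊢
      omega
    · intro c _ _
      apply EE_nonneg hx0
      intro v _
      split_ifs
      · exact W1_TT_nonneg hx0 _
      · exact le_rfl
      · exact le_rfl
  have h5 := sum_le_sum h2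
  rw [← mul_sum] at h5
  linarith

end Pool.Agent.Icy
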